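import Mathlib

namespace Pool.Agent.Helper881.FM

variable {B F : Type} [Field B] [Field F] [Algebra B F]

/-- a semilinear action of a group over the Galois group -/
structure SR {E : Type} [Group E] (π : E →* (F ≃ₐ[B] F)) (V : Type) [AddCommGroup V]
    [Module F V] where
  act : E → V → V
  one : ∀ v, act 1 v = v
  mul : ∀ e e' v, act (e * e') v = act e (act e' v)
  add : ∀ e v w, act e (v + w) = act e v + act e w
  smul : ∀ e (a : F) v, act e (a • v) = π e a • act e v

namespace SR

variable {E : Type} [Group E] {π : E →* (F ≃ₐ[B] F)} {V : Type} [AddCommGroup V] [Module F V]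
  (ρ : SR π V)

theorem zero (e : E) : ρ.act e 0 = 0 := by
  have := ρ.add e 0 0
  rw [add_zero] at this
  exact left_eq_add.mp this

theorem sum (e : E) {ι : Type*} (s : Finset ι) (f : ι → V) :
    ρ.act e (∑ i ∈ s, f i) = ∑ i ∈ s, ρ.act e (f i) := by
  classical
  induction s using Finset.induction_on with
  | empty => simp [ρ.zero]
  | insert a s ha ih => rw [Finset.sum_insert ha, Finset.sum_insert ha, ρ.add, ih]

theorem inv_act (e : E) (v : V) : ρ.act e⁻¹ (ρ.act e v) = v := by
  rw [← ρ.mul, inv_mul_cancel, ρ.one]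

theorem act_inv (e : E) (v : V) : ρ.act e (ρ.act e⁻¹ v) = v := by
  rw [← ρ.mul, mul_inv_cancel, ρ.one]

theorem injective (e : E) : Function.Injective (ρ.act e) := fun v w h => by
  rw [← ρ.inv_act e v, h, ρ.inv_act]

/-- smoothness of the action -/
def Smooth : Prop := ∀ S : Finset V, ∃ k : IntermediateField B F, FiniteDimensional B k ∧
  ∀ σ : F ≃ₐ[B] F, (∀ x ∈ k, σ x = x) → ∃ e, π e = σ ∧ ∀ v ∈ S, ρ.act e v = v

/-- the kernel acts through a finite group modulo scalars -/
def FMS : Prop := ∃ (m : ℕ) (cls : E → Fin m), ∀ e e', π e = 1 → π e' = 1 → cls e = cls e' →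
  ∃ c : F, ∀ v, ρ.act e v = c • ρ.act e' v

end SR

/-- Speiser's lemma -/
theorem speiser [Algebra.IsAlgebraic B F] [IsAlgClosed F] {E : Type} [Group E]
    {π : E →* (F ≃ₐ[B] F)} {W : Type} [AddCommGroup W] [Module F W] (ρ : SR π W) (w : W)
    (k : IntermediateField B F) [FiniteDimensional B k]
    (hk : ∀ e, (∀ x ∈ k, π e x = x) → ρ.act e w = w) :
    w ∈ Submodule.span F {v | ∀ e, ρ.act e v = v} := by
  classical
  by_contra hw
  have hnF : Normal B F := normal_iff.mpr fun x =>
    ⟨Algebra.IsIntegral.isIntegral x, IsAlgClosed.splits _⟩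
  let K : IntermediateField B F := IntermediateField.normalClosure B k F
  have hKn : Normal B K := normalClosure.normal B k F
  have hKf : FiniteDimensional B K := normalClosure.is_finiteDimensional B k F
  have hkK : k ≤ K := IntermediateField.le_normalClosure k
  let r : E →* (K ≃ₐ[B] K) := (AlgEquiv.restrictNormalHom K).comp π
  have hr : ∀ e (x : K), ((r e x : K) : F) = π e (x : F) := fun e x =>
    AlgEquiv.restrictNormalHom_apply K (π e) x
  have hr1 : ∀ e, r e = 1 → ρ.act e w = w := by
    intro e he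
    apply hk
    intro x hx
    have := hr e ⟨x, hkK hx⟩
    rw [he] at this
    exact this.symm
  let c : r.range → W := fun h => ρ.act h.2.choose w
  have hc : ∀ e, c ⟨r e, e, rfl⟩ = ρ.act e w := by
    intro e
    have hs : r (Exists.choose (⟨e, rfl⟩ : ∃ e', r e' = r e)) = r e :=
      Exists.choose_spec (⟨e, rfl⟩ : ∃ e', r e' = r e)
    set e' := Exists.choose (⟨e, rfl⟩ : ∃ e', r e' = r e) with he'
    show ρ.act e' w = ρ.act e w
    have h1 : ρ.act (e⁻¹ * e') w = w := hr1 _ (by rw [map_mul, map_inv, hs, inv_mul_cancel])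
    rw [ρ.mul] at h1
    rw [← ρ.act_inv e (ρ.act e' w), h1]
  have hcm : ∀ (e : E) (h : r.range), ρ.act e (c h) = c (⟨r e, e, rfl⟩ * h) := by
    rintro e ⟨_, e', rfl⟩
    rw [hc e', ← ρ.mul, ← hc (e * e')]
    congr 1
    apply Subtype.ext
    simp
  have hfin : Fintype r.range := Fintype.ofFinite _
  let T : K → W := fun x => ∑ h : r.range, (((h : K ≃ₐ[B] K) x : K) : F) • c h
  have hT : ∀ x e, ρ.act e (T x) = T x := by
    intro x e
    have h1 : ρ.act e (T x) = ∑ h : r.range,
        ((((⟨r e, e, rfl⟩ * h : r.range) : K ≃ₐ[B] K) x : K) : F) • c (⟨r e, e, rfl⟩ * h) := by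
      rw [ρ.sum]
      refine Finset.sum_congr rfl fun h _ => ?_
      rw [ρ.smul, hcm, ← hr]
      rfl
    rw [h1]
    exact Equiv.sum_comp (Equiv.mulLeft (⟨r e, e, rfl⟩ : r.range))
      (fun h : r.range => (((h : K ≃ₐ[B] K) x : K) : F) • c h)
  obtain ⟨φ, hφ, hle⟩ := Submodule.exists_le_ker_of_notMem hw
  have hker : ∀ x, φ (T x) = 0 := fun x => hle (Submodule.subset_span (hT x))
  let g : r.range → (K →* F) := fun h =>
    ((algebraMap K F).toMonoidHom).comp ((h : K ≃ₐ[B] K) : K →+* K).toMonoidHom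
  have hg : Function.Injective g := by
    intro h h' hh
    apply Subtype.ext
    ext x
    exact congrArg (fun f : K →* F => f x) hh
  have hli := (linearIndependent_monoidHom K F).comp g hg
  rw [Fintype.linearIndependent_iff] at hli
  have h0 := hli (fun h => φ (c h)) (by
    funext x
    have := hker x
    simp only [T, map_sum, map_smul, smul_eq_mul] at this
    simp only [Finset.sum_apply, Pi.smul_apply, Function.comp_apply, smul_eq_mul, Pi.zero_apply]
    rw [← this]
    refine Finset.sum_congr rfl fun h _ => ?_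
    rw [mul_comm]
    rfl) ⟨r 1, 1, rfl⟩
  have h0' : φ (c ⟨r 1, 1, rfl⟩) = 0 := h0
  rw [hc 1, ρ.one] at h0'
  exact hφ h0'

end Pool.Agent.Helper881.FM
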