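import Mathlib

namespace Pool.Agent.Helper881.FOM

open Polynomial

/-- trace form discriminant of a matrix -/
noncomputable def mdisc {R : Type} [CommRing R] {n : ℕ} (T : Matrix (Fin n) (Fin n) R) : R :=
  (Matrix.of fun i j : Fin n => (T ^ ((i : ℕ) + j)).trace).det

theorem mdisc_map {R S : Type} [CommRing R] [CommRing S] (f : R →+* S) {n : ℕ}
    (T : Matrix (Fin n) (Fin n) R) : mdisc (T.map f) = f (mdisc T) := by
  unfold mdisc
  rw [RingHom.map_det]
  congr 1
  ext i j
  have h : (T.map f) ^ ((i : ℕ) + j) = (T ^ ((i : ℕ) + j)).map f :=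
    (map_pow (RingHom.mapMatrix f) T _).symm
  simp only [Matrix.of_apply, RingHom.mapMatrix_apply, Matrix.map_apply]
  rw [h]
  simp [Matrix.trace]

theorem mdisc_diagonal {F : Type} [Field F] {n : ℕ} (d : Fin n → F)
    (hd : Function.Injective d) : mdisc (Matrix.diagonal d) ≠ 0 := by
  have h : (Matrix.of fun i j : Fin n => ((Matrix.diagonal d) ^ ((i : ℕ) + j)).trace) =
      (Matrix.vandermonde d).transpose * Matrix.vandermonde d := by
    ext i j
    simp only [Matrix.of_apply, Matrix.diagonal_pow, Matrix.trace_diagonal, Matrix.mul_apply,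
      Matrix.transpose_apply, Matrix.vandermonde_apply, Pi.pow_apply]
    exact Finset.sum_congr rfl fun k _ => pow_add _ _ _
  unfold mdisc
  rw [h, Matrix.det_mul, Matrix.det_transpose]
  exact mul_self_ne_zero.mpr (Matrix.det_vandermonde_ne_zero_iff.mpr hd)

theorem roots_of_mdisc {F : Type} [Field F] [IsAlgClosed F] {n : ℕ}
    (T : Matrix (Fin n) (Fin n) F) (h : mdisc T ≠ 0) :
    ∃ l : Fin n → F, Function.Injective l ∧ ∀ i, T.charpoly.IsRoot (l i) := by
  classical
  have hc0 : T.charpoly ≠ 0 := T.charpoly_monic.ne_zero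
  by_cases hcard : n ≤ T.charpoly.roots.toFinset.card
  · obtain ⟨f⟩ : Nonempty (Fin n ↪ T.charpoly.roots.toFinset) :=
      Function.Embedding.nonempty_of_card_le (by simpa using hcard)
    refine ⟨fun i => f i, fun i j hij => f.injective (Subtype.ext hij), fun i => ?_⟩
    have := (f i).2
    rw [Multiset.mem_toFinset, mem_roots hc0] at this
    exact this
  exfalso
  push Not at hcard
  set S := T.charpoly.roots.toFinset with hS
  set p : F[X] := ∏ s ∈ S, (X - C s) with hp
  have hpm : p.Monic := monic_prod_of_monic _ _ fun s _ => monic_X_sub_C s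
  have hpd : p.natDegree < n := by
    rw [hp, natDegree_prod_of_monic _ _ fun s _ => monic_X_sub_C s]
    simpa using hcard
  have hdvd : T.charpoly ∣ p ^ n := by
    have h1 : T.charpoly = (T.charpoly.roots.map fun a => X - C a).prod :=
      (IsAlgClosed.splits T.charpoly).eq_prod_roots_of_monic T.charpoly_monic
    rw [h1, Finset.prod_multiset_map_count, hp, ← Finset.prod_pow]
    apply Finset.prod_dvd_prod_of_dvd
    intro s _
    apply pow_dvd_pow
    refine (Multiset.count_le_card _ _).trans ?_
    refine (card_roots' _).trans ?_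
    rw [Matrix.charpoly_natDegree_eq_dim]
    simp
  have hnil : (aeval T p) ^ n = 0 := by
    rw [← map_pow]
    obtain ⟨q, hq⟩ := hdvd
    rw [hq, map_mul, Matrix.aeval_self_charpoly, zero_mul]
  have htr : ∀ i : ℕ, (T ^ i * aeval T p).trace = 0 := by
    intro i
    have hcomm : Commute (T ^ i) (aeval T p) := by
      have h1 : T ^ i = aeval T (X ^ i : F[X]) := by simp
      rw [h1]
      show _ * _ = _ * _
      rw [← map_mul, ← map_mul, mul_comm]
    have h2 : IsNilpotent (T ^ i * aeval T p) := ⟨n, by rw [hcomm.mul_pow, hnil, mul_zero]⟩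
    exact (Matrix.isNilpotent_trace_of_isNilpotent h2).eq_zero
  apply h
  unfold mdisc
  rw [← Matrix.exists_mulVec_eq_zero_iff]
  refine ⟨fun j => p.coeff j, ?_, ?_⟩
  · intro h0
    have := congrFun h0 ⟨p.natDegree, hpd⟩
    simp only [Pi.zero_apply] at this
    rw [hpm.coeff_natDegree] at this
    exact one_ne_zero this
  · funext i
    have h1 := htr i
    rw [aeval_eq_sum_range' hpd, Finset.mul_sum, Matrix.trace_sum, Finset.sum_range] at h1
    simp only [Matrix.mulVec, dotProduct, Matrix.of_apply, Pi.zero_apply]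
    rw [← h1]
    refine Finset.sum_congr rfl fun j _ => ?_
    rw [Matrix.mul_smul, Matrix.trace_smul, ← pow_add, smul_eq_mul, mul_comm]

theorem generic_point {F : Type} [Field F] [CharZero F] {n r : ℕ}
    (M : Fin r → Matrix (Fin n) (Fin n) F) (c : Fin r → F)
    (h : mdisc (∑ j, c j • M j) ≠ 0) :
    ∃ x : Fin r → ℕ, mdisc (∑ j, (x j : F) • M j) ≠ 0 := by
  classical
  let G : Matrix (Fin n) (Fin n) (MvPolynomial (Fin r) F) :=
    ∑ j, (MvPolynomial.X j : MvPolynomial (Fin r) F) • (M j).map MvPolynomial.C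
  have hG : ∀ x : Fin r → F, G.map (MvPolynomial.eval x) = ∑ j, x j • M j := by
    intro x
    ext a b
    simp only [G, Matrix.map_apply, Matrix.sum_apply, Matrix.smul_apply, map_sum, smul_eq_mul,
      map_mul, MvPolynomial.eval_X, MvPolynomial.eval_C]
  have hne : mdisc G ≠ 0 := by
    intro h0
    apply h
    rw [← hG c, mdisc_map, h0, map_zero]
  by_contra hcon
  push Not at hcon
  apply hne
  refine MvPolynomial.funext_set (fun _ => Set.range (Nat.cast : ℕ → F))
    (fun _ => Set.infinite_range_of_injective Nat.cast_injective) fun x hx => ?_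
  have hx' : ∀ j, ∃ m : ℕ, (m : F) = x j := fun j => hx j (Set.mem_univ _)
  choose m hm using hx'
  rw [map_zero, ← mdisc_map, hG, ← hcon m]
  congr 1
  exact Finset.sum_congr rfl fun j _ => by rw [hm]

end Pool.Agent.Helper881.FOM
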