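import Pool.Agent.Helper881.FomGood
import Pool.Agent.Helper881.FomDisc

open Module

namespace Pool.Agent.Helper881.FOM

open Pool.Agent.Helper881.FM

variable {B F : Type} [Field B] [Field F] [Algebra B F]
variable {E : Type} [Group E] {π : E →* (F ≃ₐ[B] F)} {V : Type} [AddCommGroup V] [Module F V]

/-- conjugation on endomorphisms -/
def conjEnd (ρ : SR π V) (g : E) (T : Module.End F V) : Module.End F V where
  toFun v := ρ.act g (T (ρ.act g⁻¹ v))
  map_add' v w := by rw [ρ.add, map_add, ρ.add]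
  map_smul' a v := by
    rw [ρ.smul, map_smul, ρ.smul, map_inv]
    congr 1
    exact (π g).apply_symm_apply _

theorem conjEnd_apply (ρ : SR π V) (g : E) (T : Module.End F V) (v : V) :
    conjEnd ρ g T v = ρ.act g (T (ρ.act g⁻¹ v)) := rfl

/-- commutant of a subgroup of the kernel -/
def commt (ρ : SR π V) (M : Subgroup π.ker) : Submodule F (Module.End F V) where
  carrier := {T | ∀ b ∈ M, ∀ v, T (ρ.act (b : E) v) = ρ.act (b : E) (T v)}
  add_mem' := by
    intro S T hS hT b hb v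
    rw [LinearMap.add_apply, LinearMap.add_apply, ρ.add, hS b hb, hT b hb]
  zero_mem' := by
    intro b _ v
    rw [LinearMap.zero_apply, LinearMap.zero_apply, ρ.zero]
  smul_mem' := by
    intro a T hT b hb v
    rw [LinearMap.smul_apply, LinearMap.smul_apply, ρ.smul, hT b hb,
      show π (b : E) = 1 from b.2]
    rfl

theorem mem_commt {ρ : SR π V} {M : Subgroup π.ker} {T : Module.End F V} :
    T ∈ commt ρ M ↔ ∀ b ∈ M, ∀ v, T (ρ.act (b : E) v) = ρ.act (b : E) (T v) := Iff.rfl

theorem conjEnd_mem {ρ : SR π V} {M : Subgroup π.ker} {H : Subgroup E}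
    (hHM : ∀ h ∈ H, ∀ b ∈ M, (MulAut.conjNormal h b : π.ker) ∈ M) {g : E} (hg : g ∈ H)
    {T : Module.End F V} (hT : T ∈ commt ρ M) : conjEnd ρ g T ∈ commt ρ M := by
  intro b hb v
  rw [conjEnd_apply, conjEnd_apply]
  have h1 := hT _ (hHM g⁻¹ (H.inv_mem hg) b hb) (ρ.act g⁻¹ v)
  rw [act_conj, act_conj, inv_inv, ρ.act_inv] at h1
  rw [h1, ρ.act_inv]

/-- the conjugation action on the commutant -/
def conjSR (ρ : SR π V) (M : Subgroup π.ker) (H : Subgroup E)
    (hHM : ∀ h ∈ H, ∀ b ∈ M, (MulAut.conjNormal h b : π.ker) ∈ M) :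
    SR (π.comp H.subtype) (commt ρ M) where
  act g T := ⟨conjEnd ρ g T.1, conjEnd_mem hHM g.2 T.2⟩
  one T := by
    apply Subtype.ext
    ext v
    show ρ.act 1 (T.1 (ρ.act 1⁻¹ v)) = T.1 v
    rw [inv_one, ρ.one, ρ.one]
  mul a b T := by
    apply Subtype.ext
    ext v
    show ρ.act (a * b) (T.1 (ρ.act (a * b)⁻¹ v)) =
      ρ.act a (ρ.act b (T.1 (ρ.act b⁻¹ (ρ.act a⁻¹ v))))
    rw [mul_inv_rev, ρ.mul, ρ.mul]
  add a S T := by
    apply Subtype.ext
    ext v
    show ρ.act a ((S.1 + T.1) (ρ.act a⁻¹ v)) =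
      ρ.act a (S.1 (ρ.act a⁻¹ v)) + ρ.act a (T.1 (ρ.act a⁻¹ v))
    rw [LinearMap.add_apply, ρ.add]
  smul a c T := by
    apply Subtype.ext
    ext v
    show ρ.act a ((c • T.1) (ρ.act a⁻¹ v)) = π a c • ρ.act a (T.1 (ρ.act a⁻¹ v))
    rw [LinearMap.smul_apply, ρ.smul]

theorem exists_eigenbasis [CharZero F] [IsAlgClosed F] [Finite π.ker] [FiniteDimensional F V]
    (ρ : SR π V) (M : Subgroup π.ker) (hM : ∀ a ∈ M, ∀ b ∈ M, a * b = b * a) :
    ∃ w : Basis (Fin (finrank F V)) F V, ∀ i, ∀ b ∈ M, ∃ c : F,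
      ρ.act ((b : π.ker) : E) (w i) = c • w i := by
  classical
  let s : Set V := {v | ∀ b ∈ M, ∃ c : F, ρ.act ((b : π.ker) : E) v = c • v}
  have hs : ⊤ ≤ Submodule.span F s := by
    rw [← wt_top ρ M hM]
    apply iSup_le
    intro χ v hv
    apply Submodule.subset_span
    intro b hb
    exact ⟨_, (mem_wt.mp hv) ⟨b, hb⟩⟩
  let w0 := Basis.ofSpan hs
  have hw0 : ∀ i, w0 i ∈ s := fun i => Basis.ofSpan_subset hs ⟨i, rfl⟩
  have hfin : Fintype ((linearIndepOn_empty F id).extend (Set.empty_subset s)) :=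
    FiniteDimensional.fintypeBasisIndex w0
  have hcard : Fintype.card ((linearIndepOn_empty F id).extend (Set.empty_subset s)) =
      finrank F V := (finrank_eq_card_basis w0).symm
  refine ⟨w0.reindex (Fintype.equivFinOfCardEq hcard), fun i => ?_⟩
  rw [Basis.reindex_apply]
  exact hw0 _

theorem exists_regular [Algebra.IsAlgebraic B F] [CharZero F] [IsAlgClosed F] [Finite π.ker]
    [FiniteDimensional F V] (ρ : SR π V) (hsm : ρ.Smooth) (M : Subgroup π.ker)
    (hM : ∀ a ∈ M, ∀ b ∈ M, a * b = b * a) (H : Subgroup E)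
    (hHM : ∀ h ∈ H, ∀ b ∈ M, (MulAut.conjNormal h b : π.ker) ∈ M)
    (hHk : ∀ h ∈ H, ∀ hk : h ∈ π.ker, (⟨h, hk⟩ : π.ker) ∈ M)
    (hop : ∃ S0 : Finset V, ∀ e, (∀ v ∈ S0, ρ.act e v = v) → e ∈ H) :
    ∃ (T : Module.End F V) (l : Fin (finrank F V) → F) (u : Basis (Fin (finrank F V)) F V),
      (∀ g ∈ H, ∀ v, ρ.act g (T v) = T (ρ.act g v)) ∧ Function.Injective l ∧
      ∀ i, T (u i) = l i • u i := by
  classical
  obtain ⟨w, hw⟩ := exists_eigenbasis ρ M hM
  let D0 : Module.End F V := w.constr F (fun i => ((i : ℕ) : F) • w i)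
  have hD0 : ∀ i, D0 (w i) = ((i : ℕ) : F) • w i := fun i => w.constr_basis F _ i
  have hD0c : D0 ∈ commt ρ M := by
    intro b hb v
    have h1 : D0 * lin ρ b = lin ρ b * D0 := by
      apply w.ext
      intro i
      obtain ⟨c, hc⟩ := hw i b hb
      show D0 (ρ.act (b : E) (w i)) = ρ.act (b : E) (D0 (w i))
      rw [hD0, hc, map_smul, hD0, ρ.smul, hc, show π (b : E) = 1 from b.2, AlgEquiv.one_apply,
        smul_comm]
    exact congrArg (fun f : Module.End F V => f v) h1
  let ρ' := conjSR ρ M H hHM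
  obtain ⟨S0, hS0⟩ := hop
  obtain ⟨k, hkf, hks⟩ := hsm (S0 ∪ Finset.image w Finset.univ ∪
    Finset.image (fun i => D0 (w i)) Finset.univ)
  have hsp := speiser ρ' ⟨D0, hD0c⟩ k (by
    intro g hg
    obtain ⟨e, he1, he2⟩ := hks (π g) hg
    have heH : e ∈ H := hS0 e fun v hv => he2 v (by simp [hv])
    have hew : ∀ i, ρ.act e (w i) = w i := fun i => he2 _ (by simp)
    have heD : ∀ i, ρ.act e (D0 (w i)) = D0 (w i) := fun i => he2 _ (by simp)
    have hk : e⁻¹ * (g : E) ∈ π.ker := by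
      rw [MonoidHom.mem_ker, map_mul, map_inv, he1, inv_mul_cancel]
    have hkM := hHk (e⁻¹ * g) (H.mul_mem (H.inv_mem heH) g.2) hk
    have h1 : conjEnd ρ (e⁻¹ * g) D0 = D0 := by
      ext v
      rw [conjEnd_apply]
      have h2 := hD0c _ hkM (ρ.act (e⁻¹ * g)⁻¹ v)
      simp only at h2
      rw [← h2, ρ.act_inv]
    have h2 : conjEnd ρ e D0 = D0 := by
      apply w.ext
      intro i
      rw [conjEnd_apply]
      have h3 : ρ.act e⁻¹ (w i) = w i := by
        have := ρ.inv_act e (w i)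
        rwa [hew] at this
      rw [h3, heD]
    apply Subtype.ext
    show conjEnd ρ (g : E) D0 = D0
    have h3 : conjEnd ρ (g : E) D0 = conjEnd ρ e (conjEnd ρ (e⁻¹ * g) D0) := by
      ext v
      show ρ.act g (D0 (ρ.act (g : E)⁻¹ v)) =
        ρ.act e (ρ.act (e⁻¹ * g) (D0 (ρ.act (e⁻¹ * g)⁻¹ (ρ.act e⁻¹ v))))
      rw [← ρ.mul, ← ρ.mul]
      congr 1
      · group
      · congr 2
        group
    rw [h3, h1, h2])
  obtain ⟨r, c, T, hT⟩ := Submodule.mem_span_set'.mp hsp
  have hTinv : ∀ j, ∀ g ∈ H, conjEnd ρ g (T j : commt ρ M).1 = (T j : commt ρ M).1 := by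
    intro j g hg
    exact congrArg Subtype.val ((T j).2 ⟨g, hg⟩)
  have hsum : ∑ j, c j • (T j : commt ρ M).1 = D0 := by
    have := congrArg Subtype.val hT
    simpa using this
  have hdisc : mdisc (∑ j, c j • (LinearMap.toMatrix w w (T j : commt ρ M).1)) ≠ 0 := by
    have h1 : (∑ j, c j • (LinearMap.toMatrix w w (T j : commt ρ M).1)) =
        LinearMap.toMatrix w w D0 := by
      rw [← hsum, map_sum]
      exact Finset.sum_congr rfl fun j _ => (map_smul _ _ _).symm
    have h2 : LinearMap.toMatrix w w D0 = Matrix.diagonal (fun i : Fin (finrank F V) => ((i : ℕ) : F)) := by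
      ext i j
      rw [LinearMap.toMatrix_apply, hD0, map_smul, Finsupp.smul_apply, w.repr_self,
        Matrix.diagonal_apply, Finsupp.single_apply]
      by_cases hij : j = i
      · simp [hij]
      · simp [hij, Ne.symm hij]
    rw [h1, h2]
    exact mdisc_diagonal _ fun i j hij => Fin.ext (by exact_mod_cast hij)
  obtain ⟨x, hx⟩ := generic_point _ c hdisc
  let T1 : Module.End F V := ∑ j, (x j : F) • (T j : commt ρ M).1
  have hT1m : LinearMap.toMatrix w w T1 =
      ∑ j, (x j : F) • (LinearMap.toMatrix w w (T j : commt ρ M).1) := by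
    rw [map_sum]
    exact Finset.sum_congr rfl fun j _ => map_smul _ _ _
  rw [← hT1m] at hx
  obtain ⟨l, hl, hroot⟩ := roots_of_mdisc _ hx
  have hev : ∀ i, ∃ v : V, T1 v = l i • v ∧ v ≠ 0 := by
    intro i
    have h1 := hroot i
    rw [LinearMap.charpoly_toMatrix, ← Module.End.hasEigenvalue_iff_isRoot_charpoly] at h1
    obtain ⟨v, hv⟩ := h1.exists_hasEigenvector
    exact ⟨v, hv.apply_eq_smul, hv.2⟩
  choose u hu hu0 using hev
  have hli : LinearIndependent F u :=
    Module.End.eigenvectors_linearIndependent' T1 l hl u fun i =>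
      ⟨Module.End.mem_eigenspace_iff.mpr (hu i), hu0 i⟩
  by_cases hn0 : Nonempty (Fin (finrank F V))
  · let ub : Basis (Fin (finrank F V)) F V :=
      basisOfLinearIndependentOfCardEqFinrank hli (by simp)
    refine ⟨T1, l, ub, ?_, hl, ?_⟩
    · intro g hg v
      have h1 : conjEnd ρ g T1 = T1 := by
        ext v
        rw [conjEnd_apply]
        show ρ.act g ((∑ j, (x j : F) • (T j : commt ρ M).1) (ρ.act g⁻¹ v)) =
          (∑ j, (x j : F) • (T j : commt ρ M).1) v
        rw [LinearMap.sum_apply, LinearMap.sum_apply, ρ.sum]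
        refine Finset.sum_congr rfl fun j _ => ?_
        rw [LinearMap.smul_apply, LinearMap.smul_apply, ρ.smul, map_natCast]
        congr 1
        have := congrArg (fun f : Module.End F V => f v) (hTinv j g hg)
        exact this
      have h2 := congrArg (fun f : Module.End F V => f (ρ.act g v)) h1
      simp only [conjEnd_apply, ρ.inv_act] at h2
      exact h2
    · intro i
      have : ub i = u i := by
        simp [ub]
      rw [this]
      exact hu i
  · refine ⟨T1, l, w, ?_, hl, fun i => absurd ⟨i⟩ hn0⟩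
    intro g _ v
    have hsub : Subsingleton V := by
      have : finrank F V = 0 := by
        by_contra h
        exact hn0 ⟨⟨0, Nat.pos_of_ne_zero h⟩⟩
      exact finrank_zero_iff.mp this
    exact Subsingleton.elim _ _

/-- from a finite kernel with an abelian subgroup of small index to a subgroup of small index
acting by semilinear diagonal maps -/
theorem part2 (n J : ℕ) : ∃ D : ℕ, ∀ (B F : Type) [Field B] [Field F] [Algebra B F] [CharZero F]
    [Algebra.IsAlgebraic B F] [IsAlgClosed F] (E : Type) [Group E] (π : E →* (F ≃ₐ[B] F))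
    (V : Type) [AddCommGroup V] [Module F V] [FiniteDimensional F V] (ρ : SR π V),
    finrank F V = n → ρ.Smooth →
    (∀ e, π e = 1 → (∀ v, ρ.act e v = v) → e = 1) → Finite π.ker →
    (∃ A : Subgroup π.ker, (∀ a ∈ A, ∀ b ∈ A, a * b = b * a) ∧ A.index ≤ J) →
    ∃ G : Subgroup E, G.index ≠ 0 ∧ G.index ≤ D ∧ ∃ w : Basis (Fin n) F V,
      ∀ g ∈ G, ∀ i, ∃ c : F, ρ.act g (w i) = c • w i := by
  classical
  refine ⟨n ^ n * (n ^ n * (2 ^ (J * J ^ J)) ^ (2 ^ (J * J ^ J))), ?_⟩
  intro B F _ _ _ _ _ _ E _ π V _ _ _ ρ hn hsm hfaith hfin hJ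
  subst hn
  obtain ⟨H, M, hM, hH0, hHi, hHM, hHk, hop⟩ := exists_good ρ J hfaith hJ
  obtain ⟨T, l, u, hTc, hl, hu⟩ := exists_regular ρ hsm M hM H hHM hHk hop
  -- coefficients of eigenvectors
  have hcoef : ∀ (μ : F) (v : V), T v = μ • v → ∀ j, l j ≠ μ → u.repr v j = 0 := by
    intro μ v hv j hj
    have h1 : T v = ∑ i, (u.repr v i * l i) • u i := by
      conv_lhs => rw [← u.sum_repr v]
      rw [map_sum]
      exact Finset.sum_congr rfl fun i _ => by rw [map_smul, hu, smul_smul]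
    have h2 : u.repr (T v) j = u.repr v j * l j := by
      rw [h1, u.repr_sum_self]
    rw [hv, map_smul, Finsupp.smul_apply, smul_eq_mul] at h2
    have h3 : u.repr v j * (l j - μ) = 0 := by rw [mul_sub, ← h2]; ring
    rcases mul_eq_zero.mp h3 with h | h
    · exact h
    · exact absurd (sub_eq_zero.mp h) hj
  let _ : MulAction E F :=
    { smul := fun g x => π g x
      one_smul := fun x => by show π 1 x = x; rw [map_one]; rfl
      mul_smul := fun a b x => by show π (a * b) x = π a (π b x); rw [map_mul]; rfl }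
  have hsm' : ∀ (g : E) (x : F), g • x = π g x := fun _ _ => rfl
  have hTg : ∀ g ∈ H, ∀ i, T (ρ.act g (u i)) = π g (l i) • ρ.act g (u i) := by
    intro g hg i
    rw [← hTc g hg, hu, ρ.smul]
  obtain ⟨G, hGH, hGa, hGb, hGc, _⟩ := stab_bound H (Set.range l) (Set.finite_range l)
    (finrank F V) (by
      rw [← Set.image_univ]
      refine (Set.ncard_image_le Set.finite_univ).trans ?_
      simp [Set.ncard_univ]) (by
      rintro g hg _ ⟨i, rfl⟩
      rw [hsm']
      by_contra hcon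
      have hne : ρ.act g (u i) ≠ 0 := fun h0 =>
        u.ne_zero i (ρ.injective g (h0.trans (ρ.zero g).symm))
      apply hne
      apply u.repr.injective
      rw [map_zero]
      ext j
      exact hcoef _ _ (hTg g hg i) j fun h => hcon ⟨j, h⟩)
  refine ⟨G, ?_, ?_, u, ?_⟩
  · rw [← Subgroup.relIndex_mul_index hGH]
    exact mul_ne_zero hGa hH0
  · rw [← Subgroup.relIndex_mul_index hGH]
    exact Nat.mul_le_mul hGb hHi
  · intro g hg i
    have h1 : π g (l i) = l i := hGc g hg _ ⟨i, rfl⟩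
    have h2 := hTg g (hGH hg) i
    rw [h1] at h2
    refine ⟨u.repr (ρ.act g (u i)) i, ?_⟩
    apply u.repr.injective
    ext j
    rw [map_smul, u.repr_self, Finsupp.smul_apply, Finsupp.single_apply]
    by_cases hij : i = j
    · subst hij; simp
    · rw [if_neg hij, smul_zero]
      exact hcoef _ _ h2 j fun h => hij (hl h).symm

end Pool.Agent.Helper881.FOM
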