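import Mathlib

set_option autoImplicit false

open Polynomial

namespace Pool.Agent.Helper881.Cen

/-- `a` is a good point of `R = N/Q`: the fibre of `c = R(a)` has `a` with multiplicity 3, all other
points simple, and does not contain `∞`. -/
def GoodPt (N Q : ℂ[X]) (a : ℂ) : Prop :=
  ∃ c : ℂ, (N - C c * Q).natDegree = max N.natDegree Q.natDegree ∧
    rootMultiplicity a (N - C c * Q) = 3 ∧
      ∀ x, x ≠ a → rootMultiplicity x (N - C c * Q) ≤ 1

/-- degree of a rational function -/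
noncomputable def rdeg (f : RatFunc ℂ) : ℕ := max f.num.natDegree f.denom.natDegree

/-- the (twisted) Halley map attached to `f` and `R₁` -/
noncomputable def halley (D : Derivation ℂ (RatFunc ℂ) (RatFunc ℂ)) (f R₁ : RatFunc ℂ) : RatFunc ℂ :=
  R₁ + 2 * D R₁ / (D (D f) / D f - 2 * D f / f - D (D R₁) / D R₁)

/-- `P = φ X` is special: Lattes, or Moebius conjugate to a power map or to `± T_n`. -/
def IsSpecialHom (φ : RatFunc ℂ →ₐ[ℂ] RatFunc ℂ) : Prop :=
  (∃ W : WeierstrassCurve ℂ, W.IsElliptic ∧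
          ∃ (θ : RatFunc ℂ →ₐ[ℂ] W.toAffine.FunctionField)
            (L : W.toAffine.FunctionField →ₐ[ℂ] W.toAffine.FunctionField),
            L.comp θ = θ.comp φ) ∨
       (∃ (σ : RatFunc ℂ ≃ₐ[ℂ] RatFunc ℂ) (ψ : RatFunc ℂ →ₐ[ℂ] RatFunc ℂ),
          σ.toAlgHom.comp φ = ψ.comp σ.toAlgHom ∧
          ((∃ n : ℤ, ψ RatFunc.X = RatFunc.X ^ n) ∨
           (∃ (n : ℤ) (s : ℂ), s ^ 2 = 1 ∧
              ψ RatFunc.X = algebraMap ℂ (RatFunc ℂ) s *
                algebraMap (Polynomial ℂ) (RatFunc ℂ) (Polynomial.Chebyshev.T ℂ n))))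

end Pool.Agent.Helper881.Cen
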