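import Mathlib

set_option autoImplicit false

namespace Pool.Agent.Helper881.Cen.Fibre


open Polynomial

namespace CompFibre

/-- homogenisation of `F` in degree `p`, evaluated at `(A₁, A₂)` -/
noncomputable def hom (A₁ A₂ : ℂ[X]) (p : ℕ) (F : ℂ[X]) : ℂ[X] :=
  ∑ i ∈ Finset.range (p + 1), C (F.coeff i) * A₁ ^ i * A₂ ^ (p - i)

theorem hom_map (A₁ A₂ : ℂ[X]) (hA2 : A₂ ≠ 0) (p : ℕ) (F : ℂ[X]) (hF : F.natDegree ≤ p) :
    algebraMap ℂ[X] (RatFunc ℂ) (hom A₁ A₂ p F) = (algebraMap ℂ[X] (RatFunc ℂ) A₂) ^ p *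
      aeval (algebraMap ℂ[X] (RatFunc ℂ) A₁ / algebraMap ℂ[X] (RatFunc ℂ) A₂) F := by
  have h2 : algebraMap ℂ[X] (RatFunc ℂ) A₂ ≠ 0 := RatFunc.algebraMap_ne_zero hA2
  set a1 := algebraMap ℂ[X] (RatFunc ℂ) A₁
  set a2 := algebraMap ℂ[X] (RatFunc ℂ) A₂
  rw [aeval_eq_sum_range' (Nat.lt_succ_of_le hF), Finset.mul_sum]
  unfold hom
  rw [map_sum]
  apply Finset.sum_congr rfl
  intro i hi
  have hi' : i ≤ p := Nat.lt_succ_iff.mp (Finset.mem_range.mp hi)
  rw [map_mul, map_mul, map_pow, map_pow, div_pow, Algebra.smul_def]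
  have e1 : algebraMap ℂ[X] (RatFunc ℂ) (C (F.coeff i)) = algebraMap ℂ (RatFunc ℂ) (F.coeff i) := by
    rw [IsScalarTower.algebraMap_apply ℂ ℂ[X] (RatFunc ℂ)]
    rfl
  rw [e1]
  have e2 : a2 ^ p = a2 ^ i * a2 ^ (p - i) := by rw [← pow_add, Nat.add_sub_cancel' hi']
  rw [e2]
  change _ * a1 ^ i * a2 ^ (p - i) = _
  field_simp

theorem hom_sub (A₁ A₂ : ℂ[X]) (p : ℕ) (F G : ℂ[X]) (c : ℂ) :
    hom A₁ A₂ p (F - C c * G) = hom A₁ A₂ p F - C c * hom A₁ A₂ p G := by
  unfold hom
  rw [Finset.mul_sum, ← Finset.sum_sub_distrib]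
  apply Finset.sum_congr rfl
  intro i _
  rw [coeff_sub, coeff_C_mul, C_sub, C_mul]
  ring

theorem prod_hom (A₁ A₂ : ℂ[X]) (hA2 : A₂ ≠ 0) (s : Multiset ℂ) :
    (algebraMap ℂ[X] (RatFunc ℂ) A₂) ^ (Multiset.card s) *
      aeval (algebraMap ℂ[X] (RatFunc ℂ) A₁ / algebraMap ℂ[X] (RatFunc ℂ) A₂)
        ((s.map fun a => X - C a).prod) =
      algebraMap ℂ[X] (RatFunc ℂ) ((s.map fun x => A₁ - C x * A₂).prod) := by
  have h2 : algebraMap ℂ[X] (RatFunc ℂ) A₂ ≠ 0 := RatFunc.algebraMap_ne_zero hA2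
  induction s using Multiset.induction_on with
  | empty => simp
  | cons a s ih =>
    rw [Multiset.card_cons, Multiset.map_cons, Multiset.prod_cons, Multiset.map_cons,
      Multiset.prod_cons, map_mul, map_mul, ← ih]
    have e1 : algebraMap ℂ[X] (RatFunc ℂ) (A₁ - C a * A₂) = algebraMap ℂ[X] (RatFunc ℂ) A₂ *
        aeval (algebraMap ℂ[X] (RatFunc ℂ) A₁ / algebraMap ℂ[X] (RatFunc ℂ) A₂) (X - C a) := by
      rw [map_sub, map_mul, map_sub, aeval_X, aeval_C]
      have e1 : algebraMap ℂ[X] (RatFunc ℂ) (C a) = algebraMap ℂ (RatFunc ℂ) a := by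
        rw [IsScalarTower.algebraMap_apply ℂ ℂ[X] (RatFunc ℂ)]
        rfl
      rw [e1]
      field_simp
    rw [e1]
    ring

theorem hom_prod (A₁ A₂ : ℂ[X]) (hA2 : A₂ ≠ 0) (p : ℕ) (F : ℂ[X]) (hF : F.natDegree = p) :
    hom A₁ A₂ p F = C F.leadingCoeff * ((F.roots).map (fun x => A₁ - C x * A₂)).prod := by
  apply RatFunc.algebraMap_injective ℂ
  have hcard : Multiset.card F.roots = F.natDegree := IsAlgClosed.card_roots_eq_natDegree
  rw [hom_map A₁ A₂ hA2 p F hF.le, map_mul, ← prod_hom A₁ A₂ hA2, hcard, hF]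
  conv_lhs => rw [← C_leadingCoeff_mul_prod_multiset_X_sub_C hcard]
  rw [map_mul, aeval_C]
  have e1 : algebraMap ℂ[X] (RatFunc ℂ) (C F.leadingCoeff) =
      algebraMap ℂ (RatFunc ℂ) F.leadingCoeff := by
    rw [IsScalarTower.algebraMap_apply ℂ ℂ[X] (RatFunc ℂ)]
    rfl
  rw [e1]
  ring

theorem hom_eval (A₁ A₂ : ℂ[X]) (p : ℕ) (F : ℂ[X]) (hF : F.natDegree ≤ p) (t : ℂ)
    (ht : A₂.eval t ≠ 0) : (hom A₁ A₂ p F).eval t = (A₂.eval t) ^ p *
      F.eval (A₁.eval t / A₂.eval t) := by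
  unfold hom
  rw [eval_finsetSum, eval_eq_sum_range' (Nat.lt_succ_of_le hF), Finset.mul_sum]
  apply Finset.sum_congr rfl
  intro i hi
  have hi' : i ≤ p := Nat.lt_succ_iff.mp (Finset.mem_range.mp hi)
  simp only [eval_mul, eval_pow, eval_C, div_pow]
  have e2 : (A₂.eval t) ^ p = (A₂.eval t) ^ i * (A₂.eval t) ^ (p - i) := by
    rw [← pow_add, Nat.add_sub_cancel' hi']
  rw [e2]
  field_simp

theorem hom_eval0 (A₁ A₂ : ℂ[X]) (p : ℕ) (F : ℂ[X]) (t : ℂ)
    (ht : A₂.eval t = 0) : (hom A₁ A₂ p F).eval t = F.coeff p * (A₁.eval t) ^ p := by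
  unfold hom
  rw [eval_finsetSum, Finset.sum_eq_single p]
  · simp
  · intro i hi hip
    have hi' : i ≤ p := Nat.lt_succ_iff.mp (Finset.mem_range.mp hi)
    simp only [eval_mul, eval_pow, eval_C, ht]
    rw [zero_pow (by omega), mul_zero]
  · intro h
    exact absurd (Finset.self_mem_range_succ p) h

theorem hom_deg (A₁ A₂ : ℂ[X]) (p : ℕ) (F : ℂ[X]) (m : ℕ) (h1 : A₁.natDegree ≤ m)
    (h2 : A₂.natDegree ≤ m) : (hom A₁ A₂ p F).natDegree ≤ p * m := by
  unfold hom
  apply natDegree_sum_le_of_forall_le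
  intro i hi
  have hi' : i ≤ p := Nat.lt_succ_iff.mp (Finset.mem_range.mp hi)
  calc (C (F.coeff i) * A₁ ^ i * A₂ ^ (p - i)).natDegree
      ≤ (C (F.coeff i) * A₁ ^ i).natDegree + (A₂ ^ (p - i)).natDegree := natDegree_mul_le
    _ ≤ (A₁ ^ i).natDegree + (A₂ ^ (p - i)).natDegree := by
        gcongr
        exact natDegree_C_mul_le _ _
    _ ≤ i * A₁.natDegree + (p - i) * A₂.natDegree := by
        gcongr <;> exact natDegree_pow_le
    _ ≤ i * m + (p - i) * m := by gcongr
    _ = p * m := by rw [← add_mul, Nat.add_sub_cancel' hi']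

end CompFibre

open CompFibre in
/-- (G1) the fibre polynomials of a composition `R ∘ A`, `R = N/Q`, `A = A₁/A₂`. -/
theorem comp_fibre (N Q A₁ A₂ : ℂ[X]) (hNQ : IsCoprime N Q) (hA : IsCoprime A₁ A₂)
    (hR : 1 ≤ max N.natDegree Q.natDegree) (hAd : 1 ≤ max A₁.natDegree A₂.natDegree) :
    ∃ U V : ℂ[X], IsCoprime U V ∧
      algebraMap ℂ[X] (RatFunc ℂ) U *
        aeval (algebraMap ℂ[X] (RatFunc ℂ) A₁ / algebraMap ℂ[X] (RatFunc ℂ) A₂) Q =
      algebraMap ℂ[X] (RatFunc ℂ) V *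
        aeval (algebraMap ℂ[X] (RatFunc ℂ) A₁ / algebraMap ℂ[X] (RatFunc ℂ) A₂) N ∧
      max U.natDegree V.natDegree =
        max N.natDegree Q.natDegree * max A₁.natDegree A₂.natDegree ∧
      ∀ c : ℂ, (N - C c * Q).natDegree = max N.natDegree Q.natDegree →
        U - C c * V = C (N - C c * Q).leadingCoeff *
          (((N - C c * Q).roots).map (fun x => A₁ - C x * A₂)).prod := by
  set p := max N.natDegree Q.natDegree with hp
  set m := max A₁.natDegree A₂.natDegree with hm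
  have hNp : N.natDegree ≤ p := le_max_left _ _
  have hQp : Q.natDegree ≤ p := le_max_right _ _
  have hA1m : A₁.natDegree ≤ m := le_max_left _ _
  have hA2m : A₂.natDegree ≤ m := le_max_right _ _
  have hA2 : A₂ ≠ 0 := by
    rintro rfl
    have hu : IsUnit A₁ := isCoprime_zero_right.mp hA
    rw [hm, natDegree_eq_zero_of_isUnit hu, natDegree_zero] at hAd
    simp at hAd
  -- top coefficients
  have hcNQ : ¬ (N.coeff p = 0 ∧ Q.coeff p = 0) := by
    rintro ⟨h1, h2⟩
    rcases max_choice N.natDegree Q.natDegree with h | h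
    · rw [← hp] at h
      rw [h] at h1
      have : N = 0 := leadingCoeff_eq_zero.mp h1
      rw [this, natDegree_zero] at h
      omega
    · rw [← hp] at h
      rw [h] at h2
      have : Q = 0 := leadingCoeff_eq_zero.mp h2
      rw [this, natDegree_zero] at h
      omega
  have hcA : ¬ (A₁.coeff m = 0 ∧ A₂.coeff m = 0) := by
    rintro ⟨h1, h2⟩
    rcases max_choice A₁.natDegree A₂.natDegree with h | h
    · rw [← hm] at h
      rw [h] at h1
      have : A₁ = 0 := leadingCoeff_eq_zero.mp h1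
      rw [this, natDegree_zero] at h
      omega
    · rw [← hm] at h
      rw [h] at h2
      exact hA2 (leadingCoeff_eq_zero.mp h2)
  have hNQe : ∀ x : ℂ, ¬ (N.eval x = 0 ∧ Q.eval x = 0) := by
    rintro x ⟨h1, h2⟩
    obtain ⟨a, b, hab⟩ := hNQ
    have := congrArg (eval x) hab
    rw [eval_add, eval_mul, eval_mul, h1, h2, mul_zero, mul_zero, add_zero, eval_one] at this
    exact zero_ne_one this
  have hAe : ∀ x : ℂ, ¬ (A₁.eval x = 0 ∧ A₂.eval x = 0) := by
    rintro x ⟨h1, h2⟩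
    obtain ⟨a, b, hab⟩ := hA
    have := congrArg (eval x) hab
    rw [eval_add, eval_mul, eval_mul, h1, h2, mul_zero, mul_zero, add_zero, eval_one] at this
    exact zero_ne_one this
  have hlast : ∀ c : ℂ, (N - C c * Q).natDegree = p →
        hom A₁ A₂ p N - C c * hom A₁ A₂ p Q = C (N - C c * Q).leadingCoeff *
          (((N - C c * Q).roots).map (fun x => A₁ - C x * A₂)).prod := by
    intro c hc
    rw [← hom_sub, hom_prod A₁ A₂ hA2 p _ hc]
  refine ⟨hom A₁ A₂ p N, hom A₁ A₂ p Q, ?_, ?_, ?_, hlast⟩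
  · apply (Polynomial.isCoprime_iff_aeval_ne_zero_of_isAlgClosed ℂ ℂ _ _).mpr
    intro t
    simp only [coe_aeval_eq_eval]
    by_contra hcon
    push Not at hcon
    obtain ⟨h1, h2⟩ := hcon
    by_cases ht : A₂.eval t = 0
    · rw [hom_eval0 A₁ A₂ p _ t ht] at h1 h2
      have ha1 : A₁.eval t ≠ 0 := fun h => hAe t ⟨h, ht⟩
      have hpow : A₁.eval t ^ p ≠ 0 := pow_ne_zero _ ha1
      exact hcNQ ⟨(mul_eq_zero.mp h1).resolve_right hpow, (mul_eq_zero.mp h2).resolve_right hpow⟩
    · rw [hom_eval A₁ A₂ p _ hNp t ht] at h1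
      rw [hom_eval A₁ A₂ p _ hQp t ht] at h2
      have hpow : A₂.eval t ^ p ≠ 0 := pow_ne_zero _ ht
      exact hNQe _ ⟨(mul_eq_zero.mp h1).resolve_left hpow, (mul_eq_zero.mp h2).resolve_left hpow⟩
  · rw [hom_map A₁ A₂ hA2 p N hNp, hom_map A₁ A₂ hA2 p Q hQp]
    ring
  · apply le_antisymm
    · exact max_le (hom_deg A₁ A₂ p N m hA1m hA2m) (hom_deg A₁ A₂ p Q m hA1m hA2m)
    · -- choose c
      set x0 := A₁.coeff m / A₂.coeff m with hx0
      obtain ⟨c, hc⟩ := Infinite.exists_notMem_finset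
        ({N.coeff p / Q.coeff p, N.eval x0 / Q.eval x0} : Finset ℂ)
      rw [Finset.mem_insert, Finset.mem_singleton, not_or] at hc
      obtain ⟨hc1, hc2⟩ := hc
      have hlead : (N - C c * Q).coeff p ≠ 0 := by
        rw [coeff_sub, coeff_C_mul]
        intro h
        rw [sub_eq_zero] at h
        by_cases hq : Q.coeff p = 0
        · rw [hq, mul_zero] at h
          exact hcNQ ⟨h, hq⟩
        · exact hc1 (by rw [h]; field_simp)
      have hdeg : (N - C c * Q).natDegree = p := by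
        apply natDegree_eq_of_le_of_coeff_ne_zero _ hlead
        refine (natDegree_sub_le _ _).trans (max_le hNp ?_)
        exact (natDegree_C_mul_le _ _).trans hQp
      have hroot : ∀ x ∈ (N - C c * Q).roots, (A₁ - C x * A₂).natDegree = m := by
        intro x hx
        apply natDegree_eq_of_le_of_coeff_ne_zero
        · refine (natDegree_sub_le _ _).trans (max_le hA1m ?_)
          exact (natDegree_C_mul_le _ _).trans hA2m
        · rw [coeff_sub, coeff_C_mul]
          intro h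
          rw [sub_eq_zero] at h
          have hb : A₂.coeff m ≠ 0 := by
            intro hb
            rw [hb, mul_zero] at h
            exact hcA ⟨h, hb⟩
          have hxx : x = x0 := by
            rw [hx0, h]; field_simp
          have hev := (mem_roots'.mp hx).2
          rw [IsRoot.def, hxx, eval_sub, eval_mul, eval_C, sub_eq_zero] at hev
          by_cases hq : Q.eval x0 = 0
          · rw [hq, mul_zero] at hev
            exact hNQe x0 ⟨hev, hq⟩
          · exact hc2 (by rw [hev]; field_simp)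
      have hprod := hlast c hdeg
      have hcard : Multiset.card (N - C c * Q).roots = (N - C c * Q).natDegree :=
        IsAlgClosed.card_roots_eq_natDegree
      have hlc : (N - C c * Q).leadingCoeff ≠ 0 := by
        unfold leadingCoeff
        rw [hdeg]; exact hlead
      have hnd : (hom A₁ A₂ p N - C c * hom A₁ A₂ p Q).natDegree = p * m := by
        rw [hprod, natDegree_C_mul hlc, natDegree_multiset_prod]
        · rw [Multiset.map_map]
          have : Multiset.map (natDegree ∘ fun x => A₁ - C x * A₂) (N - C c * Q).roots =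
              Multiset.map (fun _ => m) (N - C c * Q).roots :=
            Multiset.map_congr rfl (fun x hx => hroot x hx)
          rw [this, Multiset.map_const', Multiset.sum_replicate, hcard, hdeg, smul_eq_mul]
        · intro h0
          rw [Multiset.mem_map] at h0
          obtain ⟨x, hx, hx0'⟩ := h0
          have := hroot x hx
          rw [hx0', natDegree_zero] at this
          omega
      rw [← hnd]
      refine (natDegree_sub_le _ _).trans (max_le_max le_rfl ?_)
      exact natDegree_C_mul_le _ _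

end Pool.Agent.Helper881.Cen.Fibre
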