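import Mathlib
import Pool.Agent.Helper881.CenDefs
import Pool.Agent.Helper881.CenFibre

set_option autoImplicit false

namespace Pool.Agent.Helper881.Cen.Cancel

open Pool.Agent.Helper881.Cen.Fibre


open Polynomial





/-- members of a pencil spanned by a coprime non-constant pair are non-zero -/
theorem J2498.pencil_ne_zero (A₁ A₂ : ℂ[X]) (hA : IsCoprime A₁ A₂)
    (hAd : 1 ≤ max A₁.natDegree A₂.natDegree) (x : ℂ) : A₁ - C x * A₂ ≠ 0 := by
  intro h0
  have h1 : A₁ = C x * A₂ := sub_eq_zero.1 h0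
  have h2 : A₂ ∣ A₁ := ⟨C x, by rw [h1]; ring⟩
  have h3 : IsUnit A₂ := hA.isUnit_of_dvd' h2 dvd_rfl
  have h4 : A₂.natDegree = 0 := natDegree_eq_zero_of_isUnit h3
  have h5 : A₁.natDegree ≤ A₂.natDegree := by
    rw [h1]; exact natDegree_C_mul_le x A₂
  omega

theorem J2498.pencil_root_unique (A₁ A₂ : ℂ[X]) (hA : IsCoprime A₁ A₂) (x y t : ℂ)
    (hx : (A₁ - C x * A₂).eval t = 0) (hy : (A₁ - C y * A₂).eval t = 0) : x = y := by
  obtain ⟨u, v, huv⟩ := hA
  simp only [eval_sub, eval_mul, eval_C] at hx hy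
  have h1 : u.eval t * A₁.eval t + v.eval t * A₂.eval t = 1 := by
    have := congrArg (eval t) huv
    simpa using this
  have h2 : (x - y) * A₂.eval t = 0 := by linear_combination hy - hx
  rcases mul_eq_zero.1 h2 with h | h
  · exact sub_eq_zero.1 h
  · exfalso
    have h3 : A₁.eval t = 0 := by rw [h] at hx; simpa using hx
    rw [h, h3] at h1
    simp at h1

theorem J2498.mult_prod (A₁ A₂ : ℂ[X]) (hA : IsCoprime A₁ A₂)
    (hAd : 1 ≤ max A₁.natDegree A₂.natDegree) (x₀ t : ℂ)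
    (hx : (A₁ - C x₀ * A₂).eval t = 0) (S : Multiset ℂ) :
    rootMultiplicity t ((S.map (fun x => A₁ - C x * A₂)).prod) =
      S.count x₀ * rootMultiplicity t (A₁ - C x₀ * A₂) := by
  induction S using Multiset.induction_on with
  | empty => simp
  | cons y S ih =>
    have hne : (Multiset.map (fun x => A₁ - C x * A₂) S).prod ≠ 0 := by
      intro h0
      rw [Multiset.prod_eq_zero_iff, Multiset.mem_map] at h0
      obtain ⟨x, -, hx⟩ := h0
      exact J2498.pencil_ne_zero A₁ A₂ hA hAd x hx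
    rw [Multiset.map_cons, Multiset.prod_cons,
      rootMultiplicity_mul (mul_ne_zero (J2498.pencil_ne_zero A₁ A₂ hA hAd y) hne), ih]
    by_cases hy : x₀ = y
    · subst hy
      rw [Multiset.count_cons_self]; ring
    · have : rootMultiplicity t (A₁ - C y * A₂) = 0 := by
        rw [rootMultiplicity_eq_zero_iff]
        intro hr
        exact absurd (J2498.pencil_root_unique A₁ A₂ hA x₀ y t hx hr) hy
      rw [this, Multiset.count_cons_of_ne hy]; ring

theorem J2498.wronsk_ne_zero (A₁ A₂ : ℂ[X]) (hA : IsCoprime A₁ A₂)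
    (hAd : 1 ≤ max A₁.natDegree A₂.natDegree) :
    derivative A₁ * A₂ - A₁ * derivative A₂ ≠ 0 := by
  intro h0
  have h1 : derivative A₁ * A₂ = A₁ * derivative A₂ := sub_eq_zero.1 h0
  have hA2 : A₂ ≠ 0 := by
    rintro rfl
    have h3 : IsUnit A₁ := isCoprime_zero_right.1 hA
    have h4 : A₁.natDegree = 0 := natDegree_eq_zero_of_isUnit h3
    simp at hAd
    omega
  have h2 : A₂ ∣ A₁ * derivative A₂ := ⟨derivative A₁, by rw [← h1]; ring⟩
  have h3 : A₂ ∣ derivative A₂ := hA.symm.dvd_of_dvd_mul_left h2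
  have h4 : derivative A₂ = 0 := by
    by_contra hne
    have h5 := natDegree_le_of_dvd h3 hne
    have h6 : A₂.natDegree ≠ 0 := by
      intro h7
      rw [natDegree_eq_zero] at h7
      obtain ⟨c, rfl⟩ := h7
      simp at hne
    have := natDegree_derivative_lt h6
    omega
  have h5 : derivative A₁ = 0 := by
    rw [h4, mul_zero] at h1
    exact (mul_eq_zero.1 h1).resolve_right hA2
  have h6 := Polynomial.derivative_eq_zero.1 h4
  have h7 := Polynomial.derivative_eq_zero.1 h5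
  omega

theorem J2498.local_bound (A₁ A₂ B₁ B₂ : ℂ[X]) (hA : IsCoprime A₁ A₂)
    (hB : IsCoprime B₁ B₂) (hAd : 1 ≤ max A₁.natDegree A₂.natDegree)
    (hBd : 1 ≤ max B₁.natDegree B₂.natDegree) (S : Multiset ℂ) (l : ℂ) (hl : l ≠ 0)
    (hE : C l * (S.map (fun x => A₁ - C x * A₂)).prod = (S.map (fun x => B₁ - C x * B₂)).prod)
    (a t : ℂ) (ha : S.count a = 3) (hS : ∀ x, x ≠ a → S.count x ≤ 1)
    (ht : (B₁ - C a * B₂).eval t = 0) (hD : A₁ * B₂ - B₁ * A₂ ≠ 0) :
    2 * rootMultiplicity t (B₁ - C a * B₂) ≤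
      2 * rootMultiplicity t (A₁ * B₂ - B₁ * A₂) +
        rootMultiplicity t (derivative A₁ * A₂ - A₁ * derivative A₂) := by
  have hW := J2498.wronsk_ne_zero A₁ A₂ hA hAd
  set b := rootMultiplicity t (B₁ - C a * B₂) with hb
  have hbpos : 1 ≤ b := by
    rw [hb]
    exact (rootMultiplicity_pos (J2498.pencil_ne_zero B₁ B₂ hB hBd a)).2 ht
  have h1 := J2498.mult_prod B₁ B₂ hB hBd a t ht S
  have hCl : (C l : ℂ[X]) ≠ 0 := by simpa using hl
  have hprodne : (S.map (fun x => A₁ - C x * A₂)).prod ≠ 0 := by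
    intro h0
    rw [Multiset.prod_eq_zero_iff, Multiset.mem_map] at h0
    obtain ⟨x, -, hx⟩ := h0
    exact J2498.pencil_ne_zero A₁ A₂ hA hAd x hx
  have h2 : rootMultiplicity t (S.map (fun x => A₁ - C x * A₂)).prod = 3 * b := by
    rw [← hE, rootMultiplicity_mul (mul_ne_zero hCl hprodne), rootMultiplicity_C, zero_add, ha] at h1
    exact h1
  -- find the root
  have h3 : (S.map (fun x => A₁ - C x * A₂)).prod.eval t = 0 := by
    have : 0 < rootMultiplicity t (S.map (fun x => A₁ - C x * A₂)).prod := by omega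
    exact (rootMultiplicity_pos hprodne).1 this
  have h4 : ∃ x ∈ S, (A₁ - C x * A₂).eval t = 0 := by
    rw [eval_multiset_prod, Multiset.prod_eq_zero_iff, Multiset.mem_map] at h3
    obtain ⟨p, hp, hp0⟩ := h3
    rw [Multiset.mem_map] at hp
    obtain ⟨x, hx, rfl⟩ := hp
    exact ⟨x, hx, hp0⟩
  obtain ⟨x, hxS, hx⟩ := h4
  have h5 := J2498.mult_prod A₁ A₂ hA hAd x t hx S
  rw [h2] at h5
  by_cases hxa : x = a
  · subst hxa
    rw [ha] at h5
    have h6 : rootMultiplicity t (A₁ - C x * A₂) = b := by omega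
    have h7 : (X - C t) ^ b ∣ A₁ - C x * A₂ := by
      rw [← h6]; exact pow_rootMultiplicity_dvd _ _
    have h8 : (X - C t) ^ b ∣ B₁ - C x * B₂ := by
      rw [hb]; exact pow_rootMultiplicity_dvd _ _
    have h9 : (X - C t) ^ b ∣ A₁ * B₂ - B₁ * A₂ := by
      have : A₁ * B₂ - B₁ * A₂ = (A₁ - C x * A₂) * B₂ - (B₁ - C x * B₂) * A₂ := by ring
      rw [this]
      exact dvd_sub (h7.mul_right _) (h8.mul_right _)
    have h10 := (le_rootMultiplicity_iff hD).2 h9
    omega
  · have h6 : S.count x = 1 := by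
      have := Multiset.count_pos.2 hxS
      have := hS x hxa
      omega
    rw [h6, one_mul] at h5
    have h7 : (X - C t) ^ (3 * b) ∣ A₁ - C x * A₂ := by
      rw [h5]; exact pow_rootMultiplicity_dvd _ _
    have h8 : (X - C t) ^ (3 * b - 1) ∣ derivative (A₁ - C x * A₂) :=
      pow_sub_one_dvd_derivative_of_pow_dvd h7
    have h9 : (X - C t) ^ (3 * b - 1) ∣ A₁ - C x * A₂ :=
      (pow_dvd_pow _ (by omega)).trans h7
    have h10 : (X - C t) ^ (3 * b - 1) ∣ derivative A₁ * A₂ - A₁ * derivative A₂ := by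
      have : derivative A₁ * A₂ - A₁ * derivative A₂ =
          derivative (A₁ - C x * A₂) * A₂ - (A₁ - C x * A₂) * derivative A₂ := by
        rw [derivative_sub, derivative_C_mul]; ring
      rw [this]
      exact dvd_sub (h8.mul_right _) (h9.mul_right _)
    have h11 := (le_rootMultiplicity_iff hW).2 h10
    omega

theorem J2498.proj (N Q A₁ A₂ B₁ B₂ : ℂ[X]) (hNQ : IsCoprime N Q)
    (U V U' V' : ℂ[X]) (hUV : IsCoprime U V) (hUV' : IsCoprime U' V')
    (h1 : algebraMap ℂ[X] (RatFunc ℂ) U *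
        aeval (algebraMap ℂ[X] (RatFunc ℂ) A₁ / algebraMap ℂ[X] (RatFunc ℂ) A₂) Q =
      algebraMap ℂ[X] (RatFunc ℂ) V *
        aeval (algebraMap ℂ[X] (RatFunc ℂ) A₁ / algebraMap ℂ[X] (RatFunc ℂ) A₂) N)
    (h2 : algebraMap ℂ[X] (RatFunc ℂ) U' *
        aeval (algebraMap ℂ[X] (RatFunc ℂ) B₁ / algebraMap ℂ[X] (RatFunc ℂ) B₂) Q =
      algebraMap ℂ[X] (RatFunc ℂ) V' *
        aeval (algebraMap ℂ[X] (RatFunc ℂ) B₁ / algebraMap ℂ[X] (RatFunc ℂ) B₂) N)
    (h : aeval (algebraMap ℂ[X] (RatFunc ℂ) A₁ / algebraMap ℂ[X] (RatFunc ℂ) A₂) N *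
        aeval (algebraMap ℂ[X] (RatFunc ℂ) B₁ / algebraMap ℂ[X] (RatFunc ℂ) B₂) Q =
      aeval (algebraMap ℂ[X] (RatFunc ℂ) A₁ / algebraMap ℂ[X] (RatFunc ℂ) A₂) Q *
        aeval (algebraMap ℂ[X] (RatFunc ℂ) B₁ / algebraMap ℂ[X] (RatFunc ℂ) B₂) N) :
    ∃ l : ℂ, l ≠ 0 ∧ U' = C l * U ∧ V' = C l * V := by
  set fA := algebraMap ℂ[X] (RatFunc ℂ) A₁ / algebraMap ℂ[X] (RatFunc ℂ) A₂
  set fB := algebraMap ℂ[X] (RatFunc ℂ) B₁ / algebraMap ℂ[X] (RatFunc ℂ) B₂
  obtain ⟨u, v, huv⟩ := hNQ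
  have hbA : aeval fA u * aeval fA N + aeval fA v * aeval fA Q = 1 := by
    rw [← map_mul, ← map_mul, ← map_add, huv, map_one]
  have hbB : aeval fB u * aeval fB N + aeval fB v * aeval fB Q = 1 := by
    rw [← map_mul, ← map_mul, ← map_add, huv, map_one]
  set nA := aeval fA N
  set qA := aeval fA Q
  set nB := aeval fB N
  set qB := aeval fB Q
  set uA := aeval fA u
  set vA := aeval fA v
  set uB := aeval fB u
  set vB := aeval fB v
  have key : U * V' = U' * V := by
    apply IsFractionRing.injective ℂ[X] (RatFunc ℂ)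
    rw [map_mul, map_mul]
    set u1 := algebraMap ℂ[X] (RatFunc ℂ) U
    set v1 := algebraMap ℂ[X] (RatFunc ℂ) V
    set u2 := algebraMap ℂ[X] (RatFunc ℂ) U'
    set v2 := algebraMap ℂ[X] (RatFunc ℂ) V'
    have e1 : u1 = (uA * u1 + vA * v1) * nA := by
      linear_combination (-u1) * hbA + vA * h1
    have e2 : v1 = (uA * u1 + vA * v1) * qA := by
      linear_combination (-v1) * hbA - uA * h1
    have e3 : u2 = (uB * u2 + vB * v2) * nB := by
      linear_combination (-u2) * hbB + vB * h2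
    have e4 : v2 = (uB * u2 + vB * v2) * qB := by
      linear_combination (-v2) * hbB - uB * h2
    calc u1 * v2 = ((uA * u1 + vA * v1) * nA) * ((uB * u2 + vB * v2) * qB) := by
          rw [← e1, ← e4]
      _ = ((uB * u2 + vB * v2) * nB) * ((uA * u1 + vA * v1) * qA) := by
          linear_combination ((uA * u1 + vA * v1) * (uB * u2 + vB * v2)) * h
      _ = u2 * v1 := by rw [← e3, ← e2]
  obtain ⟨r, s, hrs⟩ := hUV
  have e1 : U' = U * (U' * r + V' * s) := by
    linear_combination (-U') * hrs - s * key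
  have e2 : V' = V * (U' * r + V' * s) := by
    linear_combination (-V') * hrs + r * key
  have hw : IsUnit (U' * r + V' * s) := by
    apply hUV'.isUnit_of_dvd' (Dvd.intro_left _ e1.symm) (Dvd.intro_left _ e2.symm)
  obtain ⟨l, hl, hl2⟩ := Polynomial.isUnit_iff.1 hw
  refine ⟨l, hl.ne_zero, ?_, ?_⟩
  · rw [hl2, mul_comm]; exact e1
  · rw [hl2, mul_comm]; exact e2

theorem J2498.deg_sum (B₁ B₂ : ℂ[X]) (hB : IsCoprime B₁ B₂)
    (hBd : 1 ≤ max B₁.natDegree B₂.natDegree) (Z : Finset ℂ) (hZ : 4 ≤ Z.card) :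
    3 * max B₁.natDegree B₂.natDegree ≤ ∑ a ∈ Z, (B₁ - C a * B₂).natDegree := by
  set q := max B₁.natDegree B₂.natDegree with hq
  classical
  -- bad set
  have hbad : (Z.filter (fun a => (B₁ - C a * B₂).coeff q = 0)).card ≤ 1 := by
    rw [Finset.card_le_one]
    intro a ha b hb
    rw [Finset.mem_filter] at ha hb
    have h1 := ha.2
    have h2 := hb.2
    simp only [coeff_sub, coeff_C_mul] at h1 h2
    have h3 : (a - b) * B₂.coeff q = 0 := by linear_combination h2 - h1
    rcases mul_eq_zero.1 h3 with h | h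
    · exact sub_eq_zero.1 h
    · exfalso
      have h4 : B₁.coeff q = 0 := by rw [h] at h1; simpa using h1
      rcases max_choice B₁.natDegree B₂.natDegree with hm | hm
      · rw [← hq] at hm
        rw [hm, coeff_natDegree, leadingCoeff_eq_zero] at h4
        rw [h4] at hm
        simp at hm
        omega
      · rw [← hq] at hm
        rw [hm, coeff_natDegree, leadingCoeff_eq_zero] at h
        rw [h] at hm
        simp at hm
        omega
  have hgood : 3 ≤ (Z.filter (fun a => ¬ (B₁ - C a * B₂).coeff q = 0)).card := by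
    have := Finset.card_filter_add_card_filter_not (s := Z) (fun a => (B₁ - C a * B₂).coeff q = 0)
    omega
  calc 3 * q ≤ (Z.filter (fun a => ¬ (B₁ - C a * B₂).coeff q = 0)).card * q :=
        Nat.mul_le_mul_right _ hgood
    _ = ∑ a ∈ Z.filter (fun a => ¬ (B₁ - C a * B₂).coeff q = 0), q := by
        rw [Finset.sum_const, smul_eq_mul]
    _ ≤ ∑ a ∈ Z.filter (fun a => ¬ (B₁ - C a * B₂).coeff q = 0), (B₁ - C a * B₂).natDegree := by
        apply Finset.sum_le_sum
        intro a ha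
        rw [Finset.mem_filter] at ha
        exact le_natDegree_of_ne_zero ha.2
    _ ≤ ∑ a ∈ Z, (B₁ - C a * B₂).natDegree :=
        Finset.sum_le_sum_of_subset (Finset.filter_subset _ _)

/-- TARGET (T1): a rational function with four good points is left cancellable:
`R ∘ A = R ∘ B → A = B`. -/
theorem left_cancel (N Q : ℂ[X]) (hNQ : IsCoprime N Q) (Z : Finset ℂ) (hZ : 4 ≤ Z.card)
    (hgood : ∀ a ∈ Z, GoodPt N Q a) (A₁ A₂ B₁ B₂ : ℂ[X]) (hA : IsCoprime A₁ A₂)
    (hB : IsCoprime B₁ B₂) (hAd : 1 ≤ max A₁.natDegree A₂.natDegree)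
    (hBd : 1 ≤ max B₁.natDegree B₂.natDegree)
    (h : aeval (algebraMap ℂ[X] (RatFunc ℂ) A₁ / algebraMap ℂ[X] (RatFunc ℂ) A₂) N *
        aeval (algebraMap ℂ[X] (RatFunc ℂ) B₁ / algebraMap ℂ[X] (RatFunc ℂ) B₂) Q =
      aeval (algebraMap ℂ[X] (RatFunc ℂ) A₁ / algebraMap ℂ[X] (RatFunc ℂ) A₂) Q *
        aeval (algebraMap ℂ[X] (RatFunc ℂ) B₁ / algebraMap ℂ[X] (RatFunc ℂ) B₂) N) :
    A₁ * B₂ = B₁ * A₂ := by
  by_contra hne
  have hD : A₁ * B₂ - B₁ * A₂ ≠ 0 := sub_ne_zero.2 hne
  -- degree of R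
  have hR : 1 ≤ max N.natDegree Q.natDegree := by
    obtain ⟨a, ha⟩ : Z.Nonempty := Finset.card_pos.1 (by omega)
    obtain ⟨c, hc1, hc2, -⟩ := hgood a ha
    rw [← hc1]
    have hne0 : N - C c * Q ≠ 0 := by
      intro h0
      rw [h0] at hc2
      simp at hc2
    have h1 : rootMultiplicity a (N - C c * Q) ≤ (N - C c * Q).natDegree := by
      have h2 := pow_rootMultiplicity_dvd (N - C c * Q) a
      have h3 := natDegree_le_of_dvd h2 hne0
      rwa [natDegree_pow, natDegree_X_sub_C, mul_one] at h3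
    omega
  obtain ⟨U, V, hUV, hUV1, hUVd, hUVf⟩ := comp_fibre N Q A₁ A₂ hNQ hA hR hAd
  obtain ⟨U', V', hUV', hUV1', hUVd', hUVf'⟩ := comp_fibre N Q B₁ B₂ hNQ hB hR hBd
  obtain ⟨l, hl, hU, hV⟩ := J2498.proj N Q A₁ A₂ B₁ B₂ hNQ U V U' V' hUV hUV' hUV1 hUV1' h
  -- equal degrees
  have hdeg : max A₁.natDegree A₂.natDegree = max B₁.natDegree B₂.natDegree := by
    have e1 : U'.natDegree = U.natDegree := by rw [hU, natDegree_C_mul hl]
    have e2 : V'.natDegree = V.natDegree := by rw [hV, natDegree_C_mul hl]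
    rw [e1, e2, hUVd] at hUVd'
    exact Nat.eq_of_mul_eq_mul_left (by omega) hUVd'
  set q := max A₁.natDegree A₂.natDegree with hq
  have hsum := J2498.deg_sum B₁ B₂ hB hBd Z hZ
  rw [← hdeg] at hsum
  set D := A₁ * B₂ - B₁ * A₂ with hDdef
  set W := derivative A₁ * A₂ - A₁ * derivative A₂ with hWdef
  have hW : W ≠ 0 := J2498.wronsk_ne_zero A₁ A₂ hA hAd
  set P := ∏ a ∈ Z, (B₁ - C a * B₂) with hP
  have hPne : P ≠ 0 := Finset.prod_ne_zero_iff.2 (fun a _ => J2498.pencil_ne_zero B₁ B₂ hB hBd a)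
  have hPdeg : P.natDegree = ∑ a ∈ Z, (B₁ - C a * B₂).natDegree :=
    natDegree_prod _ _ (fun a _ => J2498.pencil_ne_zero B₁ B₂ hB hBd a)
  have hloc : ∀ t : ℂ, 2 * rootMultiplicity t P ≤ 2 * rootMultiplicity t D + rootMultiplicity t W := by
    intro t
    by_cases hroot : P.eval t = 0
    · rw [hP, eval_prod, Finset.prod_eq_zero_iff] at hroot
      obtain ⟨a, haZ, ha⟩ := hroot
      have h1 : rootMultiplicity t P = rootMultiplicity t (B₁ - C a * B₂) := by
        have := J2498.mult_prod B₁ B₂ hB hBd a t ha Z.val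
        rw [Multiset.count_eq_one_of_mem Z.nodup haZ, one_mul] at this
        exact this
      rw [h1]
      obtain ⟨c, hc1, hc2, hc3⟩ := hgood a haZ
      have f1 := hUVf c hc1
      have f2 := hUVf' c hc1
      have hne0 : N - C c * Q ≠ 0 := by
        intro h0
        rw [h0] at hc2
        simp at hc2
      have hlc : (C (N - C c * Q).leadingCoeff : ℂ[X]) ≠ 0 := by
        simpa using hne0
      have hE : C l * (((N - C c * Q).roots).map (fun x => A₁ - C x * A₂)).prod =
          (((N - C c * Q).roots).map (fun x => B₁ - C x * B₂)).prod := by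
        apply mul_left_cancel₀ hlc
        rw [← f2, hU, hV]
        linear_combination (- C l) * f1
      exact J2498.local_bound A₁ A₂ B₁ B₂ hA hB hAd hBd _ l hl hE a t
        (by rw [count_roots]; exact hc2)
        (fun x hx => by rw [count_roots]; exact hc3 x hx) ha hD
    · have : rootMultiplicity t P = 0 := by
        rw [rootMultiplicity_eq_zero_iff]
        intro hr
        exact absurd hr hroot
      omega
  have hP2 : P ^ 2 ≠ 0 := pow_ne_zero _ hPne
  have hDW : D ^ 2 * W ≠ 0 := mul_ne_zero (pow_ne_zero _ hD) hW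
  have hle : (P ^ 2).roots ≤ (D ^ 2 * W).roots := by
    rw [Multiset.le_iff_count]
    intro t
    rw [roots_mul hDW, roots_pow, roots_pow, Multiset.count_add, Multiset.count_nsmul,
      Multiset.count_nsmul, count_roots, count_roots, count_roots]
    exact hloc t
  have hcard := Multiset.card_le_card hle
  have hc1 : Multiset.card (P ^ 2).roots = (P ^ 2).natDegree :=
    splits_iff_card_roots.1 (IsAlgClosed.splits _)
  have hc2 : Multiset.card (D ^ 2 * W).roots = (D ^ 2 * W).natDegree :=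
    splits_iff_card_roots.1 (IsAlgClosed.splits _)
  rw [hc1, hc2, natDegree_pow, natDegree_mul (pow_ne_zero _ hD) hW, natDegree_pow, hPdeg] at hcard
  have hA1 : A₁.natDegree ≤ q := le_max_left _ _
  have hA2 : A₂.natDegree ≤ q := le_max_right _ _
  have hB1 : B₁.natDegree ≤ q := by rw [hdeg]; exact le_max_left _ _
  have hB2 : B₂.natDegree ≤ q := by rw [hdeg]; exact le_max_right _ _
  have hDd : D.natDegree ≤ 2 * q := by
    refine (natDegree_sub_le _ _).trans (max_le ?_ ?_)
    · exact natDegree_mul_le.trans (by omega)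
    · exact natDegree_mul_le.trans (by omega)
  have hWd : W.natDegree ≤ 2 * q - 1 := by
    have d1 := natDegree_derivative_le A₁
    have d2 := natDegree_derivative_le A₂
    refine (natDegree_sub_le _ _).trans (max_le ?_ ?_)
    · exact natDegree_mul_le.trans (by omega)
    · exact natDegree_mul_le.trans (by omega)
  omega

end Pool.Agent.Helper881.Cen.Cancel
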