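import Mathlib
import Pool.Agent.Helper881.CenDefs

set_option autoImplicit false

namespace Pool.Agent.Helper881.Cen.Count


open Polynomial



theorem J_natdeg_zero (P : ℂ[X]) (h : P ∣ derivative P) : P.natDegree = 0 := by
  by_contra h0
  have h1 := eq_zero_of_dvd_of_natDegree_lt h (natDegree_derivative_lt h0)
  exact h0 (derivative_eq_zero.1 h1)

theorem J_wr_ne (N Q : ℂ[X]) (hNQ : IsCoprime N Q) (hd : 1 ≤ max N.natDegree Q.natDegree) :
    derivative N * Q - N * derivative Q ≠ 0 := by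
  intro h
  have h1 : derivative N * Q = N * derivative Q := sub_eq_zero.1 h
  have hQ : Q ∣ derivative Q := by
    have : Q ∣ N * derivative Q := h1 ▸ dvd_mul_left _ _
    exact hNQ.symm.dvd_of_dvd_mul_left this
  have hN : N ∣ derivative N := by
    have : N ∣ derivative N * Q := h1 ▸ dvd_mul_right _ _
    exact hNQ.dvd_of_dvd_mul_right this
  have hQ0 := J_natdeg_zero Q hQ
  have hN0 := J_natdeg_zero N hN
  rw [hQ0, hN0] at hd
  simp at hd

theorem J_wr_deg (N Q : ℂ[X]) (p : ℕ) (hp : 1 ≤ p) (hN : N.natDegree ≤ p) (hQ : Q.natDegree ≤ p) :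
    (derivative N * Q - N * derivative Q).natDegree ≤ 2 * p - 2 := by
  rw [natDegree_le_iff_coeff_eq_zero]
  intro k hk
  rw [coeff_sub]
  have hN' : (derivative N).natDegree ≤ p - 1 := (natDegree_derivative_le N).trans (by omega)
  have hQ' : (derivative Q).natDegree ≤ p - 1 := (natDegree_derivative_le Q).trans (by omega)
  rcases eq_or_lt_of_le (by omega : 2 * p - 1 ≤ k) with h | h
  · have e1 : k = (p - 1) + p := by omega
    have e2 : k = p + (p - 1) := by omega
    have c1 : (derivative N * Q).coeff k = (derivative N).coeff (p - 1) * Q.coeff p := by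
      rw [e1]; exact coeff_mul_add_eq_of_natDegree_le hN' hQ
    have c2 : (N * derivative Q).coeff k = N.coeff p * (derivative Q).coeff (p - 1) := by
      rw [e2]; exact coeff_mul_add_eq_of_natDegree_le hN hQ'
    rw [c1, c2, coeff_derivative, coeff_derivative]
    have : p - 1 + 1 = p := by omega
    rw [this]; ring
  · rw [coeff_eq_zero_of_natDegree_lt, coeff_eq_zero_of_natDegree_lt, sub_zero]
    · refine lt_of_le_of_lt natDegree_mul_le ?_
      omega
    · refine lt_of_le_of_lt natDegree_mul_le ?_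
      omega

theorem J_wr_mult (N Q : ℂ[X]) (c x : ℂ) (k : ℕ) (h : (X - C x) ^ (k + 1) ∣ N - C c * Q) :
    (X - C x) ^ k ∣ derivative N * Q - N * derivative Q := by
  have e : derivative N * Q - N * derivative Q =
      derivative (N - C c * Q) * Q - (N - C c * Q) * derivative Q := by
    simp only [derivative_sub, derivative_C_mul]; ring
  rw [e]
  apply dvd_sub
  · have : (X - C x) ^ k ∣ derivative (N - C c * Q) := by
      obtain ⟨g, hg⟩ := h
      rw [hg, derivative_mul, derivative_X_sub_C_pow]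
      simp only [Nat.add_sub_cancel]
      apply dvd_add
      · exact Dvd.dvd.mul_right (dvd_mul_left _ _) _
      · exact Dvd.dvd.mul_right (pow_dvd_pow _ (Nat.le_succ k)) _
    exact this.mul_right _
  · exact ((pow_dvd_pow _ (Nat.le_succ k)).trans h).mul_right _

theorem J_sum_mult (W : ℂ[X]) (S : Finset ℂ) :
    ∑ x ∈ S, rootMultiplicity x W ≤ W.natDegree := by
  classical
  calc ∑ x ∈ S, rootMultiplicity x W = ∑ x ∈ S, W.roots.count x := by
        apply Finset.sum_congr rfl; intro x _; rw [count_roots]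
    _ ≤ ∑ x ∈ S ∪ W.roots.toFinset, W.roots.count x :=
        Finset.sum_le_sum_of_subset Finset.subset_union_left
    _ = Multiset.card W.roots := Multiset.sum_count_eq_card (fun a ha => by
        rw [Finset.mem_union]; right; exact Multiset.mem_toFinset.2 ha)
    _ ≤ W.natDegree := card_roots' W

theorem J_coprime_eval (N Q : ℂ[X]) (hNQ : IsCoprime N Q) (x : ℂ) (h : Q.eval x = 0) :
    N.eval x ≠ 0 := by
  intro h'
  obtain ⟨A, B, hAB⟩ := hNQ
  have := congrArg (eval x) hAB
  simp [h, h'] at this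

/-- linear combinations are nonzero -/
theorem J_lin_ne (N Q : ℂ[X]) (hNQ : IsCoprime N Q) (hd : 1 ≤ max N.natDegree Q.natDegree)
    (c d : ℂ) (hcd : c ≠ 0 ∨ d ≠ 0) : C c * N + C d * Q ≠ 0 := by
  intro h
  have unit_deg : ∀ P : ℂ[X], IsUnit P → P.natDegree = 0 := fun P hP => natDegree_eq_zero_of_isUnit hP
  by_cases hc : c = 0
  · have hd' : d ≠ 0 := by
      rcases hcd with h1 | h1
      · exact absurd hc h1
      · exact h1
    rw [hc, C_0, zero_mul, zero_add] at h
    have hQ : Q = 0 := by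
      rcases mul_eq_zero.1 h with h1 | h1
      · exact absurd (C_eq_zero.1 h1) hd'
      · exact h1
    rw [hQ] at hNQ hd
    have := unit_deg N (isCoprime_zero_right.1 hNQ)
    rw [this] at hd
    simp at hd
  · have hN : N = C (-(d / c)) * Q := by
      have h2 : C c * N = -(C d * Q) := eq_neg_of_add_eq_zero_left h
      have h3 : C c * N = C c * (C (-(d / c)) * Q) := by
        rw [h2, ← mul_assoc, ← C_mul]
        have : c * -(d / c) = -d := by field_simp
        rw [this, C_neg]; ring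
      exact mul_left_cancel₀ (C_ne_zero.2 hc) h3
    have hQu : IsUnit Q := by
      have : Q ∣ N := hN ▸ dvd_mul_left _ _
      exact hNQ.symm.isUnit_of_dvd this
    have hQ0 := unit_deg Q hQu
    have hN0 : N.natDegree = 0 := by
      rw [hN]
      exact Nat.le_zero.1 ((natDegree_C_mul_le _ _).trans hQ0.le)
    rw [hQ0, hN0] at hd
    simp at hd

theorem J_sub_ne (N Q : ℂ[X]) (hNQ : IsCoprime N Q) (hd : 1 ≤ max N.natDegree Q.natDegree)
    (c : ℂ) : N - C c * Q ≠ 0 := by
  have := J_lin_ne N Q hNQ hd 1 (-c) (Or.inl one_ne_zero)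
  rw [C_1, one_mul, C_neg] at this
  intro h
  apply this
  rw [← h]; ring

theorem J_Q_ne (N Q : ℂ[X]) (hNQ : IsCoprime N Q) (x c : ℂ) (h : (N - C c * Q).eval x = 0) :
    Q.eval x ≠ 0 := by
  intro hQ
  have hN := J_coprime_eval N Q hNQ x hQ
  simp only [eval_sub, eval_mul, eval_C, hQ, mul_zero, sub_zero] at h
  exact hN h

theorem J_uniq (N Q : ℂ[X]) (hNQ : IsCoprime N Q) (x c c' : ℂ) (h : (N - C c * Q).eval x = 0)
    (h' : (N - C c' * Q).eval x = 0) : c = c' := by
  have hQ := J_Q_ne N Q hNQ x c h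
  simp only [eval_sub, eval_mul, eval_C] at h h'
  have : (c - c') * Q.eval x = 0 := by linear_combination h' - h
  rcases mul_eq_zero.1 this with h1 | h1
  · exact sub_eq_zero.1 h1
  · exact absurd h1 hQ

/-- (O1) many triple points with distinct values give many good points. -/
theorem good_count (N Q : ℂ[X]) (hNQ : IsCoprime N Q) (hd : 1 ≤ max N.natDegree Q.natDegree)
    (Z : Finset ℂ) (v : ℂ → ℂ) (hinj : Set.InjOn v Z)
    (hZ : ∀ a ∈ Z, (X - C a) ^ 3 ∣ N - C (v a) * Q) :
    ∃ Z' : Finset ℂ, Z' ⊆ Z ∧ (∀ a ∈ Z', GoodPt N Q a) ∧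
      3 * Z.card ≤ Z'.card + 2 * max N.natDegree Q.natDegree := by
  classical
  obtain ⟨p, hp⟩ : ∃ p, p = max N.natDegree Q.natDegree := ⟨_, rfl⟩
  obtain ⟨W, hW⟩ : ∃ W, W = derivative N * Q - N * derivative Q := ⟨_, rfl⟩
  have hW0 : W ≠ 0 := hW ▸ J_wr_ne N Q hNQ hd
  have hWd : W.natDegree ≤ 2 * p - 2 := hW ▸ J_wr_deg N Q p (hp ▸ hd) (hp ▸ le_max_left _ _)
    (hp ▸ le_max_right _ _)
  have hF0 : ∀ c, N - C c * Q ≠ 0 := J_sub_ne N Q hNQ hd
  have hmult : ∀ c x k, k + 1 ≤ rootMultiplicity x (N - C c * Q) → k ≤ rootMultiplicity x W := by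
    intro c x k h
    rw [le_rootMultiplicity_iff (hF0 c)] at h
    rw [le_rootMultiplicity_iff hW0, hW]
    exact J_wr_mult N Q c x k h
  have hroot : ∀ c x, 1 ≤ rootMultiplicity x (N - C c * Q) → (N - C c * Q).eval x = 0 := by
    intro c x h
    rw [le_rootMultiplicity_iff (hF0 c), pow_one] at h
    exact dvd_iff_isRoot.1 h
  have hm3 : ∀ a ∈ Z, 3 ≤ rootMultiplicity a (N - C (v a) * Q) := by
    intro a ha
    rw [le_rootMultiplicity_iff (hF0 _)]
    exact hZ a ha
  obtain ⟨B1, hB1⟩ : ∃ B1, B1 = Z.filter (fun a => (N - C (v a) * Q).natDegree ≠ p) := ⟨_, rfl⟩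
  obtain ⟨B2, hB2⟩ : ∃ B2, B2 = Z.filter (fun a => 4 ≤ rootMultiplicity a (N - C (v a) * Q)) :=
    ⟨_, rfl⟩
  obtain ⟨B3, hB3⟩ : ∃ B3, B3 = Z.filter (fun a => ∃ x, x ≠ a ∧
    2 ≤ rootMultiplicity x (N - C (v a) * Q)) := ⟨_, rfl⟩
  have hc1 : B1.card ≤ 1 := by
    rw [Finset.card_le_one]
    have key : ∀ a ∈ B1, N.coeff p = v a * Q.coeff p := by
      intro a ha
      rw [hB1, Finset.mem_filter] at ha
      have hle : (N - C (v a) * Q).natDegree ≤ p := by
        refine (natDegree_sub_le _ _).trans (max_le (hp ▸ le_max_left _ _) ?_)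
        exact (natDegree_C_mul_le _ _).trans (hp ▸ le_max_right _ _)
      have hlt : (N - C (v a) * Q).natDegree < p := lt_of_le_of_ne hle ha.2
      have := coeff_eq_zero_of_natDegree_lt hlt
      rw [coeff_sub, coeff_C_mul] at this
      exact sub_eq_zero.1 this
    intro a ha b hb
    have ka := key a ha
    have kb := key b hb
    have hq : Q.coeff p ≠ 0 := by
      intro hq
      rw [hq, mul_zero] at ka
      rcases le_total N.natDegree Q.natDegree with h | h
      · have hpQ : p = Q.natDegree := by rw [hp, max_eq_right h]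
        rw [hpQ] at hq
        have : Q = 0 := leadingCoeff_eq_zero.1 hq
        rw [this] at hpQ
        simp at hpQ
        rw [← hp] at hd
        omega
      · have hpN : p = N.natDegree := by rw [hp, max_eq_left h]
        rw [hpN] at ka
        have : N = 0 := leadingCoeff_eq_zero.1 ka
        rw [this] at hpN
        simp at hpN
        rw [← hp] at hd
        omega
    have hv : v a = v b := by
      rw [ka] at kb
      exact mul_right_cancel₀ hq kb
    rw [hB1, Finset.mem_filter] at ha hb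
    exact hinj ha.1 hb.1 hv
  have hx : ∀ a : ℂ, ∃ x : ℂ, a ∈ B3 → x ≠ a ∧ 2 ≤ rootMultiplicity x (N - C (v a) * Q) := by
    intro a
    by_cases h : a ∈ B3
    · have h' := h
      rw [hB3, Finset.mem_filter] at h'
      obtain ⟨x, hx⟩ := h'.2
      exact ⟨x, fun _ => hx⟩
    · exact ⟨0, fun h' => absurd h' h⟩
  choose xf hxf using hx
  have hB3Z : ∀ a ∈ B3, a ∈ Z := by
    intro a ha; rw [hB3, Finset.mem_filter] at ha; exact ha.1
  have hxinj : Set.InjOn xf B3 := by
    intro a ha b hb hab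
    have h1 := hroot (v a) (xf a) (by have := (hxf a ha).2; omega)
    have h2 := hroot (v b) (xf b) (by have := (hxf b hb).2; omega)
    rw [← hab] at h2
    exact hinj (hB3Z a ha) (hB3Z b hb) (J_uniq N Q hNQ _ _ _ h1 h2)
  have hdisj : Disjoint Z (B3.image xf) := by
    rw [Finset.disjoint_right]
    intro x hx hxZ
    rw [Finset.mem_image] at hx
    obtain ⟨a, ha, rfl⟩ := hx
    have h1 := hroot (v a) (xf a) (by have := (hxf a ha).2; omega)
    have h2 := hroot (v (xf a)) (xf a) (by have := hm3 _ hxZ; omega)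
    have h3 := J_uniq N Q hNQ _ _ _ h1 h2
    exact (hxf a ha).1 (hinj (hB3Z a ha) hxZ h3).symm
  have hS := J_sum_mult W (Z ∪ B3.image xf)
  rw [Finset.sum_union hdisj, Finset.sum_image hxinj] at hS
  have hS1 : 2 * Z.card + B2.card ≤ ∑ x ∈ Z, rootMultiplicity x W := by
    have e1 : 2 * Z.card + B2.card = ∑ x ∈ Z, (2 + if x ∈ B2 then 1 else 0) := by
      rw [Finset.sum_add_distrib, Finset.sum_const, smul_eq_mul, Finset.sum_ite_mem,
        Finset.sum_const, smul_eq_mul, mul_one]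
      have : Z ∩ B2 = B2 := by
        rw [Finset.inter_eq_right, hB2]
        exact Finset.filter_subset _ _
      rw [this]; ring
    rw [e1]
    apply Finset.sum_le_sum
    intro x hx
    split_ifs with h
    · rw [hB2, Finset.mem_filter] at h
      exact hmult (v x) x 3 h.2
    · exact hmult (v x) x 2 (hm3 x hx)
  have hS2 : B3.card ≤ ∑ x ∈ B3, rootMultiplicity (xf x) W := by
    rw [Finset.card_eq_sum_ones]
    apply Finset.sum_le_sum
    intro x hx
    exact hmult (v x) (xf x) 1 (hxf x hx).2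
  refine ⟨Z \ (B1 ∪ B2 ∪ B3), Finset.sdiff_subset, ?_, ?_⟩
  · intro a ha
    rw [Finset.mem_sdiff, Finset.mem_union, Finset.mem_union] at ha
    obtain ⟨haZ, hna⟩ := ha
    push Not at hna
    obtain ⟨⟨n1, n2⟩, n3⟩ := hna
    rw [hB1, Finset.mem_filter] at n1
    rw [hB2, Finset.mem_filter] at n2
    rw [hB3, Finset.mem_filter] at n3
    push Not at n1 n2 n3
    refine ⟨v a, (n1 haZ).trans hp, ?_, ?_⟩
    · have := n2 haZ
      have := hm3 a haZ
      omega
    · intro x hxa
      have := n3 haZ x hxa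
      omega
  · rw [← hp]
    have hc : (B1 ∪ B2 ∪ B3).card ≤ B1.card + B2.card + B3.card :=
      (Finset.card_union_le _ _).trans (Nat.add_le_add_right (Finset.card_union_le _ _) _)
    have hc2 : Z.card ≤ (Z \ (B1 ∪ B2 ∪ B3)).card + (B1 ∪ B2 ∪ B3).card := by
      have := Finset.le_card_sdiff (B1 ∪ B2 ∪ B3) Z
      omega
    rw [← hp] at hd
    omega

/-- homogenisation -/
noncomputable def Jh (u w : ℂ[X]) (D : ℕ) (A : ℂ[X]) : ℂ[X] :=
  ∑ i ∈ Finset.range (D + 1), C (A.coeff i) * u ^ i * w ^ (D - i)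

theorem Jh_map {K : Type*} [CommRing K] [Algebra ℂ K] (φ : ℂ[X] →ₐ[ℂ] K) (u w : ℂ[X]) (ρ : K)
    (h : φ u = ρ * φ w) (D : ℕ) (A : ℂ[X]) (hA : A.natDegree ≤ D) :
    φ (Jh u w D A) = (φ w) ^ D * aeval ρ A := by
  unfold Jh
  rw [aeval_eq_sum_range' (Nat.lt_succ_of_le hA), map_sum, Finset.mul_sum]
  apply Finset.sum_congr rfl
  intro i hi
  rw [Finset.mem_range] at hi
  rw [map_mul, map_mul, map_pow, map_pow, h, ← algebraMap_eq, AlgHom.commutes, Algebra.smul_def,
    mul_pow]
  have : (φ w) ^ D = (φ w) ^ i * (φ w) ^ (D - i) := by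
    rw [← pow_add]; congr 1; omega
  rw [this]; ring

theorem Jh_deg (u w : ℂ[X]) (hu : u.natDegree ≤ 1) (hw : w.natDegree ≤ 1) (D : ℕ) (A : ℂ[X]) :
    (Jh u w D A).natDegree ≤ D := by
  unfold Jh
  apply natDegree_sum_le_of_forall_le
  intro i hi
  rw [Finset.mem_range] at hi
  calc (C (A.coeff i) * u ^ i * w ^ (D - i)).natDegree
      ≤ (C (A.coeff i) * u ^ i).natDegree + (w ^ (D - i)).natDegree := natDegree_mul_le
    _ ≤ i * 1 + (D - i) * 1 := by
        apply Nat.add_le_add
        · refine (natDegree_C_mul_le _ _).trans ?_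
          exact natDegree_pow_le.trans (Nat.mul_le_mul_left _ hu)
        · exact natDegree_pow_le.trans (Nat.mul_le_mul_left _ hw)
    _ = D := by omega

theorem Jh_eval (u w : ℂ[X]) (D : ℕ) (A : ℂ[X]) (hA : A.natDegree ≤ D) (x : ℂ)
    (hx : w.eval x ≠ 0) :
    (Jh u w D A).eval x = (w.eval x) ^ D * A.eval (u.eval x / w.eval x) := by
  have := Jh_map (aeval x : ℂ[X] →ₐ[ℂ] ℂ) u w (u.eval x / w.eval x) (by
    simp only [coe_aeval_eq_eval]
    field_simp) D A hA
  simpa only [coe_aeval_eq_eval] using this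

theorem Jh_sub (u w : ℂ[X]) (D : ℕ) (A B : ℂ[X]) (m : ℂ) :
    Jh u w D (A - C m * B) = Jh u w D A - C m * Jh u w D B := by
  unfold Jh
  rw [Finset.mul_sum, ← Finset.sum_sub_distrib]
  apply Finset.sum_congr rfl
  intro i _
  rw [coeff_sub, coeff_C_mul, C_sub, C_mul]
  ring

/-- algebra hom to rational functions -/
noncomputable def Jal : ℂ[X] →ₐ[ℂ] RatFunc ℂ := IsScalarTower.toAlgHom ℂ ℂ[X] (RatFunc ℂ)

theorem Jal_apply (A : ℂ[X]) : Jal A = algebraMap ℂ[X] (RatFunc ℂ) A := rfl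

theorem Jal_inj : Function.Injective Jal := RatFunc.algebraMap_injective ℂ

theorem Jal_ne {A : ℂ[X]} (h : A ≠ 0) : Jal A ≠ 0 := RatFunc.algebraMap_ne_zero h

theorem J_transport (u w : ℂ[X]) (e f g k : ℂ) (hu1 : u = C e * X + C f)
    (hw1 : w = C g * X + C k) (hdet' : e * k - f * g ≠ 0)
    (F : ℂ[X]) (hF : F ≠ 0) (p : ℕ) (hFp : F.natDegree ≤ p) (x : ℂ) (hx : w.eval x ≠ 0)
    (h3 : (X - C x) ^ 3 ∣ Jh u w p F) : (X - C (u.eval x / w.eval x)) ^ 3 ∣ F := by
  obtain ⟨t, ht⟩ : ∃ t, t = u.eval x / w.eval x := ⟨_, rfl⟩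
  rw [← ht]
  obtain ⟨G, hG, hG2⟩ := exists_eq_pow_rootMultiplicity_mul_and_not_dvd F hF t
  obtain ⟨j, hj⟩ : ∃ j, j = rootMultiplicity t F := ⟨_, rfl⟩
  rw [← hj] at hG
  by_contra hcon
  have hj3 : j < 3 := by
    by_contra hj3
    push Not at hj3
    exact hcon ((le_rootMultiplicity_iff hF).1 (hj ▸ hj3))
  have hG0 : G ≠ 0 := by
    rintro rfl
    exact hG2 (dvd_zero _)
  have hjp : j + G.natDegree = F.natDegree := by
    rw [hG, natDegree_mul (pow_ne_zero _ (X_sub_C_ne_zero t)) hG0, natDegree_pow,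
      natDegree_X_sub_C, mul_one]
  have hw0 : w ≠ 0 := by
    rintro rfl
    simp at hx
  have hJ : Jh u w p F = (u - C t * w) ^ j * Jh u w (p - j) G := by
    apply Jal_inj
    have hwn := Jal_ne hw0
    have hρ : Jal u = (Jal u / Jal w) * Jal w := by field_simp
    rw [map_mul, Jh_map Jal u w (Jal u / Jal w) hρ p F hFp,
      Jh_map Jal u w (Jal u / Jal w) hρ (p - j) G (by omega), map_pow]
    have e1 : aeval (Jal u / Jal w) F = (Jal u / Jal w - Jal (C t)) ^ j * aeval (Jal u / Jal w) G := by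
      conv_lhs => rw [hG]
      rw [map_mul, map_pow, map_sub, aeval_X, aeval_C]
      rfl
    have e2 : Jal (u - C t * w) = Jal w * (Jal u / Jal w - Jal (C t)) := by
      rw [map_sub, map_mul]
      field_simp
    rw [e1, e2, mul_pow]
    have e3 : Jal w ^ p = Jal w ^ j * Jal w ^ (p - j) := by
      rw [← pow_add]; congr 1; omega
    rw [e3]; ring
  have hroot : e * x + f - t * (g * x + k) = 0 := by
    have h1 : t * w.eval x = u.eval x := by rw [ht, div_mul_cancel₀ _ hx]
    rw [hu1, hw1] at h1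
    simp only [eval_add, eval_mul, eval_C, eval_X] at h1
    linear_combination -h1
  have hlin : u - C t * w = C (e - t * g) * (X - C x) := by
    rw [hu1, hw1]
    have : f - t * k = -((e - t * g) * x) := by linear_combination hroot
    have e4 : C e * X + C f - C t * (C g * X + C k) = C (e - t * g) * X + C (f - t * k) := by
      simp only [C_sub, C_mul]; ring
    rw [e4, this]
    simp only [C_neg, C_mul]; ring
  have hε : e - t * g ≠ 0 := by
    intro h0
    apply hdet'
    have h1 : f - t * k = 0 := by linear_combination hroot - x * h0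
    linear_combination k * h0 - g * h1
  have hKx : (Jh u w (p - j) G).eval x ≠ 0 := by
    rw [Jh_eval u w (p - j) G (by omega) x hx, ← ht]
    apply mul_ne_zero (pow_ne_zero _ hx)
    intro h0
    exact hG2 (dvd_iff_isRoot.2 h0)
  rw [hJ, hlin, mul_pow, ← C_pow] at h3
  have e5 : (X - C x) ^ 3 = (X - C x) ^ j * (X - C x) ^ (3 - j) := by
    rw [← pow_add]; congr 1; omega
  have e6 : C ((e - t * g) ^ j) * (X - C x) ^ j * Jh u w (p - j) G =
      (X - C x) ^ j * (C ((e - t * g) ^ j) * Jh u w (p - j) G) := by ring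
  rw [e5, e6, mul_dvd_mul_iff_left (pow_ne_zero _ (X_sub_C_ne_zero x))] at h3
  have h4 : (X - C x) ∣ C ((e - t * g) ^ j) * Jh u w (p - j) G :=
    (dvd_pow_self _ (by omega)).trans h3
  have h5 := dvd_iff_isRoot.1 h4
  rw [IsRoot, eval_mul, eval_C] at h5
  exact mul_ne_zero (pow_ne_zero _ hε) hKx h5

theorem J_p1 (N Q N1 Q1 : ℂ[X]) (hNQ : IsCoprime N Q) (Z : Finset ℂ)
    (hZ : ∀ a ∈ Z, Q.eval a ≠ 0 ∧ Q1.eval a ≠ 0 ∧
      (X - C a) ^ 3 ∣ N - C (N1.eval a / Q1.eval a) * Q)
    (hinj : ∀ a ∈ Z, ∀ b ∈ Z, N1.eval a / Q1.eval a = N1.eval b / Q1.eval b → a = b)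
    (hc : 2 ≤ Z.card) : 1 ≤ max N.natDegree Q.natDegree := by
  by_contra h0
  have hN0 : N.natDegree ≤ 0 := by
    have := le_max_left N.natDegree Q.natDegree; omega
  have hQ0 : Q.natDegree ≤ 0 := by
    have := le_max_right N.natDegree Q.natDegree; omega
  obtain ⟨x, hx, y, hy, hxy⟩ := Finset.one_lt_card.1 (by omega : 1 < Z.card)
  have key : ∀ x ∈ Z, N - C (N1.eval x / Q1.eval x) * Q = 0 := by
    intro x hx
    apply eq_zero_of_dvd_of_natDegree_lt (hZ x hx).2.2
    rw [natDegree_pow, natDegree_X_sub_C]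
    have : (N - C (N1.eval x / Q1.eval x) * Q).natDegree ≤ 0 := by
      refine (natDegree_sub_le _ _).trans (max_le hN0 ?_)
      exact (natDegree_C_mul_le _ _).trans hQ0
    omega
  exact hxy (hinj x hx y hy (J_uniq N Q hNQ x _ _ (by rw [key x hx, eval_zero])
    (by rw [key y hy, eval_zero])))

theorem transfer_poly (N Q N1 Q1 u w : ℂ[X]) (hNQ : IsCoprime N Q)
    (huw : IsCoprime u w) (hu : max u.natDegree w.natDegree = 1) (Z : Finset ℂ)
    (hZ : ∀ a ∈ Z, Q.eval a ≠ 0 ∧ Q1.eval a ≠ 0 ∧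
      (X - C a) ^ 3 ∣ N - C (N1.eval a / Q1.eval a) * Q)
    (hinj : ∀ a ∈ Z, ∀ b ∈ Z, N1.eval a / Q1.eval a = N1.eval b / Q1.eval b → a = b)
    (C₀ p d1 : ℕ) (hp : p = max N.natDegree Q.natDegree)
    (hd1 : d1 = max N1.natDegree Q1.natDegree)
    (hdeg : p ≤ Z.card + C₀) (hbig : C₀ + 2 * d1 + 4 ≤ Z.card)
    (a b c d : ℂ) (hdet : a * d - b * c ≠ 0)
    (hrel : Jh u w p N * (C c * N + C d * Q) = Jh u w p Q * (C a * N + C b * Q)) :
    Jh u w d1 N1 * (C c * N1 + C d * Q1) = Jh u w d1 Q1 * (C a * N1 + C b * Q1) := by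
  classical
  have hd' : 1 ≤ max N.natDegree Q.natDegree := J_p1 N Q N1 Q1 hNQ Z hZ hinj (by omega)
  obtain ⟨v, hv⟩ : ∃ v : ℂ → ℂ, ∀ x, v x = N1.eval x / Q1.eval x := ⟨_, fun _ => rfl⟩
  simp only [← hv] at hZ hinj
  have hp1 : 1 ≤ p := hp ▸ hd'
  have hule : u.natDegree ≤ 1 := hu ▸ le_max_left _ _
  have hwle : w.natDegree ≤ 1 := hu ▸ le_max_right _ _
  obtain ⟨e, f, hu1⟩ := exists_eq_X_add_C_of_natDegree_le_one hule
  obtain ⟨g, k, hw1⟩ := exists_eq_X_add_C_of_natDegree_le_one hwle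
  have hdet' : e * k - f * g ≠ 0 := by
    intro h0
    have h1 : C g * u + C (-e) * w = 0 := by
      rw [hu1, hw1]
      have : C g * (C e * X + C f) + C (-e) * (C g * X + C k) = C (-(e * k - f * g)) := by
        simp only [C_neg, C_sub, C_mul]; ring
      rw [this, h0]; simp
    have h2 : C k * u + C (-f) * w = 0 := by
      rw [hu1, hw1]
      have : C k * (C e * X + C f) + C (-f) * (C g * X + C k) = C (e * k - f * g) * X := by
        simp only [C_neg, C_sub, C_mul]; ring
      rw [this, h0]; simp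
    have g1 : g = 0 ∧ e = 0 := by
      by_contra hne
      refine J_lin_ne u w huw hu.ge g (-e) ?_ h1
      by_cases hg : g = 0
      · right; intro he; exact hne ⟨hg, neg_eq_zero.1 he⟩
      · left; exact hg
    have g2 : k = 0 ∧ f = 0 := by
      by_contra hne
      refine J_lin_ne u w huw hu.ge k (-f) ?_ h2
      by_cases hg : k = 0
      · right; intro he; exact hne ⟨hg, neg_eq_zero.1 he⟩
      · left; exact hg
    rw [hu1, hw1, g1.1, g1.2, g2.1, g2.2] at hu
    simp at hu
  have hweval : ∀ x, w.eval x = g * x + k := by intro x; rw [hw1]; simp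
  have hueval : ∀ x, u.eval x = e * x + f := by intro x; rw [hu1]; simp
  obtain ⟨τ, hτ⟩ : ∃ τ : ℂ → ℂ, ∀ x, τ x = u.eval x / w.eval x := ⟨_, fun _ => rfl⟩
  obtain ⟨W, hW⟩ : ∃ W, W = derivative N * Q - N * derivative Q := ⟨_, rfl⟩
  have hW0 : W ≠ 0 := hW ▸ J_wr_ne N Q hNQ hd'
  have hWd : W.natDegree ≤ 2 * p - 2 := hW ▸ J_wr_deg N Q p hp1 (hp ▸ le_max_left _ _)
    (hp ▸ le_max_right _ _)
  have hF0 : ∀ c, N - C c * Q ≠ 0 := J_sub_ne N Q hNQ hd'
  have hmultW : ∀ x m, (X - C x) ^ 3 ∣ N - C m * Q → 2 ≤ rootMultiplicity x W := by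
    intro x m h
    rw [le_rootMultiplicity_iff hW0, hW]
    exact J_wr_mult N Q m x 2 h
  have hval : ∀ x ∈ Z, N.eval x = v x * Q.eval x := by
    intro x hx
    have h1 : (X - C x) ∣ N - C (v x) * Q := (dvd_pow_self _ (by norm_num)).trans (hZ x hx).2.2
    have h2 := dvd_iff_isRoot.1 h1
    rw [IsRoot, eval_sub, eval_mul, eval_C] at h2
    exact sub_eq_zero.1 h2
  -- good points
  obtain ⟨G, hG⟩ : ∃ G, G = Z.filter (fun x => w.eval x ≠ 0 ∧ c * v x + d ≠ 0) := ⟨_, rfl⟩
  have hGm : ∀ x ∈ G, x ∈ Z ∧ w.eval x ≠ 0 ∧ c * v x + d ≠ 0 := by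
    intro x hx; rw [hG, Finset.mem_filter] at hx; exact hx
  have hGcard : Z.card ≤ G.card + 2 := by
    have hb1 : (Z.filter (fun x => w.eval x = 0)).card ≤ 1 := by
      rw [Finset.card_le_one]
      intro x hx y hy
      rw [Finset.mem_filter, hweval] at hx hy
      by_contra hxy
      have h1 : g * (x - y) = 0 := by linear_combination hx.2 - hy.2
      rcases mul_eq_zero.1 h1 with h2 | h2
      · have h3 : k = 0 := by
          have := hx.2
          rw [h2, zero_mul, zero_add] at this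
          exact this
        apply hdet'
        rw [h2, h3]; ring
      · exact hxy (sub_eq_zero.1 h2)
    have hb2 : (Z.filter (fun x => c * v x + d = 0)).card ≤ 1 := by
      rw [Finset.card_le_one]
      intro x hx y hy
      rw [Finset.mem_filter] at hx hy
      have h1 : c * (v x - v y) = 0 := by linear_combination hx.2 - hy.2
      rcases mul_eq_zero.1 h1 with h2 | h2
      · exfalso
        have h3 : d = 0 := by
          have := hx.2
          rw [h2, zero_mul, zero_add] at this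
          exact this
        apply hdet
        rw [h2, h3]; ring
      · exact hinj x hx.1 y hy.1 (sub_eq_zero.1 h2)
    have hsub : Z ⊆ G ∪ (Z.filter (fun x => w.eval x = 0) ∪ Z.filter (fun x => c * v x + d = 0)) := by
      intro x hx
      rw [Finset.mem_union, Finset.mem_union, hG, Finset.mem_filter, Finset.mem_filter,
        Finset.mem_filter]
      by_cases h1 : w.eval x = 0
      · exact Or.inr (Or.inl ⟨hx, h1⟩)
      · by_cases h2 : c * v x + d = 0
        · exact Or.inr (Or.inr ⟨hx, h2⟩)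
        · exact Or.inl ⟨hx, h1, h2⟩
    have h1 := Finset.card_le_card hsub
    have h2 := Finset.card_union_le G
      (Z.filter (fun x => w.eval x = 0) ∪ Z.filter (fun x => c * v x + d = 0))
    have h3 := Finset.card_union_le (Z.filter (fun x => w.eval x = 0))
      (Z.filter (fun x => c * v x + d = 0))
    omega
  have hτinj : Set.InjOn τ G := by
    intro x hx y hy hxy
    have gx := (hGm x hx).2.1
    have gy := (hGm y hy).2.1
    rw [hτ, hτ, div_eq_div_iff gx gy, hueval, hueval, hweval, hweval] at hxy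
    have h1 : (e * k - f * g) * (x - y) = 0 := by linear_combination hxy
    rcases mul_eq_zero.1 h1 with h2 | h2
    · exact absurd h2 hdet'
    · exact sub_eq_zero.1 h2
  -- key divisibility
  have hkey : ∀ x ∈ G, (X - C (τ x)) ^ 3 ∣ N - C ((a * v x + b) / (c * v x + d)) * Q := by
    intro x hx
    obtain ⟨hxZ, hwx, hcx⟩ := hGm x hx
    obtain ⟨m, hm⟩ : ∃ m, m = (a * v x + b) / (c * v x + d) := ⟨_, rfl⟩
    rw [← hm, hτ]
    refine J_transport u w e f g k hu1 hw1 hdet' _ (hF0 m) p ?_ x hwx ?_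
    · refine (natDegree_sub_le _ _).trans (max_le (hp ▸ le_max_left _ _) ?_)
      exact (natDegree_C_mul_le _ _).trans (hp ▸ le_max_right _ _)
    · obtain ⟨δ, hδ⟩ : ∃ δ, δ = (a * d - b * c) / (c * v x + d) := ⟨_, rfl⟩
      have hm' : m * (c * v x + d) = a * v x + b := by rw [hm, div_mul_cancel₀ _ hcx]
      have hδ' : δ * (c * v x + d) = a * d - b * c := by rw [hδ, div_mul_cancel₀ _ hcx]
      have e1 : a - m * c = δ := by
        apply mul_right_cancel₀ hcx
        linear_combination (-c) * hm' - hδ'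
      have e2 : b - m * d = -(δ * v x) := by
        apply mul_right_cancel₀ hcx
        linear_combination (-d) * hm' + v x * hδ'
      have e3 : Jh u w p (N - C m * Q) * (C c * N + C d * Q) =
          Jh u w p Q * (C δ * (N - C (v x) * Q)) := by
        rw [Jh_sub, sub_mul, hrel]
        have e4 : Jh u w p Q * (C a * N + C b * Q) - C m * Jh u w p Q * (C c * N + C d * Q) =
            Jh u w p Q * (C (a - m * c) * N + C (b - m * d) * Q) := by
          simp only [C_sub, C_mul]; ring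
        rw [e4, e1, e2]
        simp only [C_neg, C_mul]; ring
      have hcop : IsCoprime ((X - C x) ^ 3) (C c * N + C d * Q) := by
        apply IsCoprime.pow_left
        rw [(irreducible_X_sub_C x).coprime_iff_not_dvd]
        intro hdv
        have h5 := dvd_iff_isRoot.1 hdv
        rw [IsRoot] at h5
        simp only [eval_add, eval_mul, eval_C] at h5
        rw [hval x hxZ] at h5
        have h6 : (c * v x + d) * Q.eval x = 0 := by linear_combination h5
        exact mul_ne_zero hcx (hZ x hxZ).1 h6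
      apply hcop.dvd_of_dvd_mul_right
      rw [e3]
      exact ((hZ x hxZ).2.2.mul_left _).mul_left _
  -- counting
  have hT : 2 * (Z ∪ G.image τ).card ≤ 2 * p - 2 := by
    refine le_trans ?_ ((J_sum_mult W (Z ∪ G.image τ)).trans hWd)
    rw [mul_comm, ← smul_eq_mul, ← Finset.sum_const]
    apply Finset.sum_le_sum
    intro z hz
    rw [Finset.mem_union, Finset.mem_image] at hz
    rcases hz with hz | ⟨x, hx, rfl⟩
    · exact hmultW z _ (hZ z hz).2.2
    · exact hmultW _ _ (hkey x hx)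
  obtain ⟨S, hS⟩ : ∃ S, S = G.filter (fun x => τ x ∈ Z) := ⟨_, rfl⟩
  have hScard : 2 * d1 < S.card := by
    have h1 : (G.filter (fun x => τ x ∉ Z)).card ≤ ((Z ∪ G.image τ) \ Z).card := by
      rw [← Finset.card_image_of_injOn (hτinj.mono (Finset.coe_subset.2 (Finset.filter_subset _ _)))]
      apply Finset.card_le_card
      intro z hz
      rw [Finset.mem_image] at hz
      obtain ⟨x, hx, rfl⟩ := hz
      rw [Finset.mem_filter] at hx
      rw [Finset.mem_sdiff, Finset.mem_union, Finset.mem_image]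
      exact ⟨Or.inr ⟨x, hx.1, rfl⟩, hx.2⟩
    have h2 : ((Z ∪ G.image τ) \ Z).card + Z.card = (Z ∪ G.image τ).card :=
      Finset.card_sdiff_add_card_eq_card Finset.subset_union_left
    have h3 : S.card + (G.filter (fun x => τ x ∉ Z)).card = G.card := by
      rw [hS]; exact Finset.card_filter_add_card_filter_not _
    omega
  have hSm : ∀ x ∈ S, x ∈ G ∧ τ x ∈ Z := by
    intro x hx; rw [hS, Finset.mem_filter] at hx; exact hx
  rw [← sub_eq_zero]
  have hdegJ : ∀ A : ℂ[X], (Jh u w d1 A).natDegree ≤ d1 := fun A => Jh_deg u w hule hwle d1 A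
  have hN1d : N1.natDegree ≤ d1 := hd1 ▸ le_max_left _ _
  have hQ1d : Q1.natDegree ≤ d1 := hd1 ▸ le_max_right _ _
  have hlind : ∀ c d : ℂ, (C c * N1 + C d * Q1).natDegree ≤ d1 := by
    intro c d
    refine (natDegree_add_le _ _).trans (max_le ?_ ?_)
    · exact (natDegree_C_mul_le _ _).trans hN1d
    · exact (natDegree_C_mul_le _ _).trans hQ1d
  refine eq_zero_of_natDegree_lt_card_of_eval_eq_zero' _ S ?_ ?_
  · intro x hx
    obtain ⟨hxG, hτZ⟩ := hSm x hx
    obtain ⟨hxZ, hwx, hcx⟩ := hGm x hxG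
    have hvτ : v (τ x) = (a * v x + b) / (c * v x + d) := by
      have h1 : (X - C (τ x)) ∣ N - C (v (τ x)) * Q :=
        (dvd_pow_self _ (by norm_num)).trans (hZ _ hτZ).2.2
      have h2 : (X - C (τ x)) ∣ N - C ((a * v x + b) / (c * v x + d)) * Q :=
        (dvd_pow_self _ (by norm_num)).trans (hkey x hxG)
      exact J_uniq N Q hNQ _ _ _ (dvd_iff_isRoot.1 h1) (dvd_iff_isRoot.1 h2)
    have hN1τ : N1.eval (τ x) = v (τ x) * Q1.eval (τ x) := by
      rw [hv]
      have := (hZ _ hτZ).2.1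
      field_simp
    have hN1x : N1.eval x = v x * Q1.eval x := by
      rw [hv]
      have := (hZ _ hxZ).2.1
      field_simp
    rw [eval_sub, eval_mul, eval_mul, Jh_eval u w d1 N1 hN1d x hwx, Jh_eval u w d1 Q1 hQ1d x hwx,
      ← hτ]
    simp only [eval_add, eval_mul, eval_C]
    have hm' : v (τ x) * (c * v x + d) = a * v x + b := by rw [hvτ, div_mul_cancel₀ _ hcx]
    rw [hN1τ, hN1x]
    linear_combination (eval x w ^ d1 * eval (τ x) Q1 * eval x Q1) * hm'
  · refine lt_of_le_of_lt ((natDegree_sub_le _ _).trans (max_le ?_ ?_)) hScard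
    · refine natDegree_mul_le.trans ?_
      have := hdegJ N1
      have := hlind c d
      omega
    · refine natDegree_mul_le.trans ?_
      have := hdegJ Q1
      have := hlind a b
      omega

/-- (O2) interpolation: a Moebius symmetry of `R` is one of `R₁`, when `R` and `R₁` agree at many triple
points of `R`. `ν` is the substitution `X ↦ ν X`, of degree one. -/
theorem symmetry_transfer (R R₁ : RatFunc ℂ) (Z : Finset ℂ)
    (hZ : ∀ a ∈ Z, R.denom.eval a ≠ 0 ∧ R₁.denom.eval a ≠ 0 ∧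
      (X - C a) ^ 3 ∣ R.num - C (R₁.num.eval a / R₁.denom.eval a) * R.denom)
    (hinj : ∀ a ∈ Z, ∀ b ∈ Z, R₁.num.eval a / R₁.denom.eval a = R₁.num.eval b / R₁.denom.eval b → a = b)
    (C₀ : ℕ) (hdeg : max R.num.natDegree R.denom.natDegree ≤ Z.card + C₀)
    (hbig : C₀ + 2 * max R₁.num.natDegree R₁.denom.natDegree + 4 ≤ Z.card)
    (hR₁ : 1 ≤ max R₁.num.natDegree R₁.denom.natDegree)
    (ν : RatFunc ℂ →ₐ[ℂ] RatFunc ℂ)
    (hν : max (ν RatFunc.X).num.natDegree (ν RatFunc.X).denom.natDegree = 1)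
    (a b c d : ℂ) (hdet : a * d - b * c ≠ 0)
    (h : ν R = (algebraMap ℂ (RatFunc ℂ) a * R + algebraMap ℂ (RatFunc ℂ) b) /
      (algebraMap ℂ (RatFunc ℂ) c * R + algebraMap ℂ (RatFunc ℂ) d)) :
    ν R₁ = (algebraMap ℂ (RatFunc ℂ) a * R₁ + algebraMap ℂ (RatFunc ℂ) b) /
      (algebraMap ℂ (RatFunc ℂ) c * R₁ + algebraMap ℂ (RatFunc ℂ) d) := by
  have hcd : c ≠ 0 ∨ d ≠ 0 := by
    by_contra hne
    push Not at hne
    apply hdet
    rw [hne.1, hne.2]; ring
  have hνal : ∀ A : ℂ[X], ν (Jal A) = aeval (ν RatFunc.X) A := by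
    intro A
    rw [aeval_algHom_apply, RatFunc.aeval_X_left_eq_algebraMap]
    rfl
  obtain ⟨u, hu⟩ : ∃ u, u = (ν RatFunc.X).num := ⟨_, rfl⟩
  obtain ⟨w, hw⟩ : ∃ w, w = (ν RatFunc.X).denom := ⟨_, rfl⟩
  have hw0 : w ≠ 0 := hw ▸ RatFunc.denom_ne_zero _
  have hwn := Jal_ne hw0
  have hρ : Jal u = ν RatFunc.X * Jal w := by
    have h1 := RatFunc.num_div_denom (ν RatFunc.X)
    rw [← hu, ← hw, ← Jal_apply, ← Jal_apply] at h1
    rw [← h1]; field_simp
  have hJal : ∀ (D : ℕ) (A : ℂ[X]), A.natDegree ≤ D → Jal (Jh u w D A) = Jal w ^ D * ν (Jal A) := by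
    intro D A hA
    rw [hνal]
    exact Jh_map Jal u w _ hρ D A hA
  have hνR : ∀ (S : RatFunc ℂ) (D : ℕ), max S.num.natDegree S.denom.natDegree = D →
      ν S = Jal (Jh u w D S.num) / Jal (Jh u w D S.denom) := by
    intro S D hD
    rw [hJal D _ (hD ▸ le_max_left _ _), hJal D _ (hD ▸ le_max_right _ _),
      mul_div_mul_left _ _ (pow_ne_zero _ hwn), ← map_div₀, Jal_apply, Jal_apply,
      RatFunc.num_div_denom]
  have hμR : ∀ (S : RatFunc ℂ) (a b c d : ℂ),
      (algebraMap ℂ (RatFunc ℂ) a * S + algebraMap ℂ (RatFunc ℂ) b) /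
      (algebraMap ℂ (RatFunc ℂ) c * S + algebraMap ℂ (RatFunc ℂ) d) =
      Jal (C a * S.num + C b * S.denom) / Jal (C c * S.num + C d * S.denom) := by
    intro S a b c d
    have hal : ∀ t : ℂ, algebraMap ℂ (RatFunc ℂ) t = Jal (C t) := fun t => rfl
    have hden := Jal_ne (RatFunc.denom_ne_zero S)
    have hS : S = Jal S.num / Jal S.denom := by
      rw [Jal_apply, Jal_apply, RatFunc.num_div_denom]
    rw [hal, hal, hal, hal, map_add, map_add, map_mul, map_mul, map_mul, map_mul]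
    conv_lhs => rw [hS]
    have e1 : ∀ s t : RatFunc ℂ, s * (Jal S.num / Jal S.denom) + t =
        (s * Jal S.num + t * Jal S.denom) / Jal S.denom := by
      intro s t; field_simp
    rw [e1, e1, div_div_div_cancel_right₀ hden]
  have hJne : ∀ (D : ℕ) (A : ℂ[X]), A.natDegree ≤ D → A ≠ 0 → Jal (Jh u w D A) ≠ 0 := by
    intro D A hA hA0
    rw [hJal D A hA]
    apply mul_ne_zero (pow_ne_zero _ hwn)
    rw [Ne, map_eq_zero]
    exact Jal_ne hA0
  have hp1 : 1 ≤ max R.num.natDegree R.denom.natDegree :=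
    J_p1 R.num R.denom R₁.num R₁.denom (RatFunc.isCoprime_num_denom R) Z hZ hinj (by omega)
  have hB : C c * R.num + C d * R.denom ≠ 0 :=
    J_lin_ne _ _ (RatFunc.isCoprime_num_denom R) hp1 c d hcd
  have hB1 : C c * R₁.num + C d * R₁.denom ≠ 0 :=
    J_lin_ne _ _ (RatFunc.isCoprime_num_denom R₁) hR₁ c d hcd
  rw [hνR R _ rfl, hμR, div_eq_div_iff (hJne _ _ (le_max_right _ _) (RatFunc.denom_ne_zero R))
    (Jal_ne hB), ← map_mul, ← map_mul] at h
  have hrel := Jal_inj h
  have hmain := transfer_poly R.num R.denom R₁.num R₁.denom u w (RatFunc.isCoprime_num_denom R)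
    (hu ▸ hw ▸ RatFunc.isCoprime_num_denom _) (hu ▸ hw ▸ hν) Z hZ hinj C₀ _ _ rfl rfl hdeg hbig
    a b c d hdet (by rw [hrel]; ring)
  rw [hνR R₁ _ rfl, hμR, div_eq_div_iff (hJne _ _ (le_max_right _ _) (RatFunc.denom_ne_zero R₁))
    (Jal_ne hB1), ← map_mul, ← map_mul, hmain]
  congr 1
  ring

end Pool.Agent.Helper881.Cen.Count
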