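import Pool.Agent.Helper881.Cfd2
import Pool.Agent.Helper881.Cfd5

set_option autoImplicit false

open Polynomial

namespace Pool.Agent.Helper881.Cfd

noncomputable section

/-- substitution homomorphisms -/
theorem exists_subst (u : RatFunc ℂ) (hu : Transcendental ℂ u) :
    ∃ f : RatFunc ℂ →ₐ[ℂ] RatFunc ℂ, f RatFunc.X = u := by
  have hinj : Function.Injective (aeval (R := ℂ) u : ℂ[X] →ₐ[ℂ] RatFunc ℂ) :=
    transcendental_iff_injective.mp hu
  refine ⟨RatFunc.liftAlgHom (aeval u)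
    (nonZeroDivisors_le_comap_nonZeroDivisors_of_injective _ hinj), ?_⟩
  have h := RatFunc.liftAlgHom_apply_div (aeval u)
    (nonZeroDivisors_le_comap_nonZeroDivisors_of_injective _ hinj) X 1
  rw [map_one, div_one, map_one, div_one, aeval_X] at h
  rw [← RatFunc.algebraMap_X]
  exact h

lemma hom_poly {K : Type} [Field K] [Algebra ℂ K] (f : RatFunc ℂ →ₐ[ℂ] K) (p : ℂ[X]) :
    f (algebraMap ℂ[X] (RatFunc ℂ) p) = aeval (f RatFunc.X) p := by
  have : (f.comp (IsScalarTower.toAlgHom ℂ ℂ[X] (RatFunc ℂ))) = aeval (f RatFunc.X) := by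
    apply Polynomial.algHom_ext
    simp
  exact DFunLike.congr_fun this p

lemma hom_ext {K : Type} [Field K] [Algebra ℂ K] (f g : RatFunc ℂ →ₐ[ℂ] K)
    (h : f RatFunc.X = g RatFunc.X) : f = g := by
  apply AlgHom.ext
  intro u
  rw [← RatFunc.num_div_denom u, map_div₀, map_div₀, hom_poly, hom_poly, hom_poly, hom_poly, h]

lemma ratX_trans : Transcendental ℂ (RatFunc.X : RatFunc ℂ) := RatFunc.transcendental_X

lemma alg_adjoin_X : Algebra.IsAlgebraic (Algebra.adjoin ℂ ({RatFunc.X} : Set (RatFunc ℂ)))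
    (RatFunc ℂ) := by
  constructor
  intro f
  set S := Algebra.adjoin ℂ ({RatFunc.X} : Set (RatFunc ℂ)) with hS
  have hmem : ∀ p : ℂ[X], IsAlgebraic S (algebraMap ℂ[X] (RatFunc ℂ) p) := by
    intro p
    have hp : algebraMap ℂ[X] (RatFunc ℂ) p ∈ S := by
      rw [hS, Algebra.adjoin_singleton_eq_range_aeval]
      refine ⟨p, ?_⟩
      exact RatFunc.aeval_X_left_eq_algebraMap p
    exact isAlgebraic_algebraMap (⟨_, hp⟩ : S)
  rw [← RatFunc.num_div_denom f, div_eq_mul_inv]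
  exact (hmem _).mul (hmem _).inv

/-- the Euler derivation `X d/dX` -/
theorem exists_euler : ∃ D : Derivation ℂ (RatFunc ℂ) (RatFunc ℂ), D RatFunc.X = RatFunc.X := by
  set u₁ : DualNumber (RatFunc ℂ) := TrivSqZeroExt.inl RatFunc.X +
    TrivSqZeroExt.inr RatFunc.X with hu₁
  have hfst1 : ∀ p : ℂ[X], (aeval u₁ p).fst = aeval (RatFunc.X : RatFunc ℂ) p := by
    intro p
    have h1 := Polynomial.aeval_algHom_apply
      (TrivSqZeroExt.fstHom ℂ (RatFunc ℂ) (RatFunc ℂ)) u₁ p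
    have h2 : (TrivSqZeroExt.fstHom ℂ (RatFunc ℂ) (RatFunc ℂ)) u₁ = RatFunc.X := by
      simp [hu₁]
    rw [h2] at h1
    exact h1.symm
  obtain ⟨D, hD⟩ := exists_derivation (R := ℂ[X]) (K := RatFunc ℂ)
    (aeval (R := ℂ) u₁).toRingHom
    (fun p => by
      rw [← RatFunc.aeval_X_left_eq_algebraMap p]
      exact hfst1 p)
    (fun c => by
      rw [Polynomial.algebraMap_apply]
      simp only [Algebra.algebraMap_self, RingHom.id_apply, AlgHom.toRingHom_eq_coe,
        RingHom.coe_coe, aeval_C]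
      rfl)
  refine ⟨D, ?_⟩
  have h := hD X
  rw [RatFunc.algebraMap_X] at h
  rw [h]
  simp [hu₁]

lemma rat_stable (D : Derivation ℂ (RatFunc ℂ) (RatFunc ℂ)) (V : ValuationSubring (RatFunc ℂ))
    (hV : ∀ c : ℂ, algebraMap ℂ (RatFunc ℂ) c ∈ V) (x : RatFunc ℂ) (hx : x ∈ V) (hDx : D x ∈ V)
    (hxt : ∀ r : ℂ[X], r ≠ 0 → aeval x r ≠ 0)
    (hrep : ∀ f : RatFunc ℂ, ∃ p r : ℂ[X], r ≠ 0 ∧ f * aeval x r = aeval x p) :
    ∀ f ∈ V, D f ∈ V := by
  have hrep' : ∀ f : RatFunc ℂ, ∃ p r : ℂ[X], r ≠ 0 ∧ IsCoprime p r ∧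
      f * aeval x r = aeval x p := by
    intro f
    obtain ⟨p, r, hr, hf⟩ := hrep f
    have he : EuclideanDomain.gcd p r ≠ 0 := by
      intro h0
      exact hr (EuclideanDomain.gcd_eq_zero_iff.mp h0).2
    have hd1 : EuclideanDomain.gcd p r * (p / EuclideanDomain.gcd p r) = p :=
      EuclideanDomain.mul_div_cancel' he (EuclideanDomain.gcd_dvd_left _ _)
    have hd2 : EuclideanDomain.gcd p r * (r / EuclideanDomain.gcd p r) = r :=
      EuclideanDomain.mul_div_cancel' he (EuclideanDomain.gcd_dvd_right _ _)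
    refine ⟨p / EuclideanDomain.gcd p r, r / EuclideanDomain.gcd p r, ?_, ?_, ?_⟩
    · intro h0
      rw [h0, mul_zero] at hd2
      exact hr hd2.symm
    · refine ⟨EuclideanDomain.gcdA p r, EuclideanDomain.gcdB p r, ?_⟩
      apply mul_left_cancel₀ he
      have h1 := EuclideanDomain.gcd_eq_gcd_ab p r
      linear_combination (EuclideanDomain.gcdA p r) * hd1 +
        (EuclideanDomain.gcdB p r) * hd2 - h1
    · apply mul_left_cancel₀ (hxt _ he)
      have h1 := congrArg (aeval x) hd1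
      have h2 := congrArg (aeval x) hd2
      rw [map_mul] at h1 h2
      linear_combination hf + f * h2 - h1
  intro f hfV
  obtain ⟨p, r, hr, hcop, hf⟩ := hrep' f
  by_cases hall : ∀ a : ℂ, V.valuation (x - algebraMap ℂ _ a) = 1
  · exact D_quot_mem V D (val_aeval_eq_one_of_all V hV hall r hr) (aeval_mem V hV hx p)
      (D_aeval_mem V hV D hx hDx p) (D_aeval_mem V hV D hx hDx r) hf
  push Not at hall
  obtain ⟨a, ha⟩ := hall
  have ha1 : V.valuation (x - algebraMap ℂ _ a) < 1 := by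
    refine lt_of_le_of_ne ?_ ha
    exact (V.valuation_le_one_iff _).mpr (V.toSubring.sub_mem hx (hV a))
  have hra : eval a r ≠ 0 := by
    intro h0
    have hpa : eval a p ≠ 0 := by
      intro hp0
      obtain ⟨u, v, huv⟩ := hcop
      have := congrArg (eval a) huv
      rw [eval_add, eval_mul, eval_mul, h0, hp0, mul_zero, mul_zero, add_zero, eval_one] at this
      exact zero_ne_one this
    have h1 : V.valuation (aeval x p) = 1 :=
      val_lt_iff_const V hV (val_aeval_sub V hV hx ha1 p) hpa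
    rw [← hf, map_mul] at h1
    have h2 : V.valuation f * V.valuation (aeval x r) < 1 :=
      mul_lt_one_of_le_of_lt' ((V.valuation_le_one_iff _).mpr hfV)
        (val_lt_of_const_zero V (val_aeval_sub V hV hx ha1 r) h0)
    rw [h1] at h2
    exact lt_irrefl _ h2
  exact D_quot_mem V D (val_lt_iff_const V hV (val_aeval_sub V hV hx ha1 r) hra)
    (aeval_mem V hV hx p) (D_aeval_mem V hV D hx hDx p) (D_aeval_mem V hV D hx hDx r) hf

lemma ratX_hxt : ∀ r : ℂ[X], r ≠ 0 → aeval (RatFunc.X : RatFunc ℂ) r ≠ 0 := by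
  intro r hr h0
  rw [RatFunc.aeval_X_left_eq_algebraMap] at h0
  exact hr ((map_eq_zero_iff _ (RatFunc.algebraMap_injective ℂ)).mp h0)

theorem euler_stable (D : Derivation ℂ (RatFunc ℂ) (RatFunc ℂ)) (hD : D RatFunc.X = RatFunc.X)
    (V : ValuationSubring (RatFunc ℂ)) (hV : ∀ c : ℂ, algebraMap ℂ (RatFunc ℂ) c ∈ V) :
    ∀ f ∈ V, D f ∈ V := by
  by_cases hx : RatFunc.X ∈ V
  · refine rat_stable D V hV RatFunc.X hx (by rw [hD]; exact hx) ratX_hxt ?_
    intro f
    refine ⟨f.num, f.denom, RatFunc.denom_ne_zero f, ?_⟩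
    rw [RatFunc.aeval_X_left_eq_algebraMap, RatFunc.aeval_X_left_eq_algebraMap]
    have h := RatFunc.num_div_denom f
    have h0 : algebraMap ℂ[X] (RatFunc ℂ) f.denom ≠ 0 :=
      RatFunc.algebraMap_ne_zero (RatFunc.denom_ne_zero f)
    nth_rewrite 1 [← h]
    rw [div_mul_cancel₀ _ h0]
  · have hx0 : (RatFunc.X : RatFunc ℂ) ≠ 0 := RatFunc.X_ne_zero
    have hinv : (RatFunc.X : RatFunc ℂ)⁻¹ ∈ V := (V.mem_or_inv_mem _).resolve_left hx
    refine rat_stable D V hV RatFunc.X⁻¹ hinv ?_ (aeval_inv_ne_zero ratX_hxt) ?_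
    · rw [Derivation.leibniz_inv, hD, smul_eq_mul]
      have : -(RatFunc.X : RatFunc ℂ)⁻¹ ^ 2 * RatFunc.X = -(RatFunc.X)⁻¹ := by
        field_simp
      rw [this]
      exact V.neg_mem _ hinv
    · intro f
      set N := max f.num.natDegree f.denom.natDegree with hN
      have hp := aeval_reflect (RatFunc.X : RatFunc ℂ) hx0 N f.num (le_max_left _ _)
      have hr := aeval_reflect (RatFunc.X : RatFunc ℂ) hx0 N f.denom (le_max_right _ _)
      refine ⟨reflect N f.num, reflect N f.denom,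
        by rw [Ne, reflect_eq_zero_iff]; exact RatFunc.denom_ne_zero f, ?_⟩
      have h0 : algebraMap ℂ[X] (RatFunc ℂ) f.denom ≠ 0 :=
        RatFunc.algebraMap_ne_zero (RatFunc.denom_ne_zero f)
      have h := RatFunc.num_div_denom f
      rw [RatFunc.aeval_X_left_eq_algebraMap] at hp hr
      have h2 : f * algebraMap ℂ[X] (RatFunc ℂ) f.denom = algebraMap ℂ[X] (RatFunc ℂ) f.num := by
        nth_rewrite 1 [← h]
        rw [div_mul_cancel₀ _ h0]
      rw [← hp, ← hr] at h2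
      apply mul_right_cancel₀ (pow_ne_zero N hx0)
      linear_combination h2

/-- the derivation scales under `X ↦ s X^n` -/
theorem euler_scale (D : Derivation ℂ (RatFunc ℂ) (RatFunc ℂ)) (hD : D RatFunc.X = RatFunc.X)
    (L : RatFunc ℂ →ₐ[ℂ] RatFunc ℂ) (s : ℂ) (n : ℤ)
    (hL : L RatFunc.X = algebraMap ℂ (RatFunc ℂ) s * RatFunc.X ^ n) (f : RatFunc ℂ) :
    D (L f) = algebraMap ℂ (RatFunc ℂ) (n : ℂ) * L (D f) := by
  have hx0 : (RatFunc.X : RatFunc ℂ) ≠ 0 := RatFunc.X_ne_zero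
  have hLinj : Function.Injective L := RingHom.injective L.toRingHom
  have hLX : D (L RatFunc.X) = algebraMap ℂ (RatFunc ℂ) (n : ℂ) * L RatFunc.X := by
    rw [hL, Derivation.leibniz, D.map_algebraMap, smul_zero, add_zero, Derivation.leibniz_zpow, hD]
    simp only [smul_eq_mul, zsmul_eq_mul, map_intCast]
    rw [← zpow_add_one₀ hx0, sub_add_cancel]
    ring
  have hp : ∀ p : ℂ[X], D (L (algebraMap ℂ[X] (RatFunc ℂ) p)) =
      algebraMap ℂ (RatFunc ℂ) (n : ℂ) * L (D (algebraMap ℂ[X] (RatFunc ℂ) p)) := by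
    intro p
    rw [hom_poly, Derivation.map_aeval, hLX, ← RatFunc.aeval_X_left_eq_algebraMap p,
      Derivation.map_aeval, hD, smul_eq_mul, smul_eq_mul, map_mul,
      RatFunc.aeval_X_left_eq_algebraMap, hom_poly]
    ring
  have h0 : algebraMap ℂ[X] (RatFunc ℂ) f.denom ≠ 0 :=
    RatFunc.algebraMap_ne_zero (RatFunc.denom_ne_zero f)
  have h2 : f * algebraMap ℂ[X] (RatFunc ℂ) f.denom = algebraMap ℂ[X] (RatFunc ℂ) f.num := by
    nth_rewrite 1 [← RatFunc.num_div_denom f]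
    rw [div_mul_cancel₀ _ h0]
  have h1 := hp f.num
  rw [← h2, map_mul, Derivation.leibniz, Derivation.leibniz, hp] at h1
  simp only [smul_eq_mul, map_add, map_mul] at h1
  have h3 : L (algebraMap ℂ[X] (RatFunc ℂ) f.denom) ≠ 0 := (map_ne_zero_iff L hLinj).mpr h0
  apply mul_left_cancel₀ h3
  linear_combination h1

/-- Chebyshev polynomials and the Joukowski substitution -/
theorem cheb_joukowski (z : RatFunc ℂ) (hz : z ≠ 0) (n : ℤ) :
    aeval ((z + z⁻¹) / 2) (Polynomial.Chebyshev.T ℂ n) = (z ^ n + (z ^ n)⁻¹) / 2 := by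
  have h2 : (2 : RatFunc ℂ) ≠ 0 := by
    have : (algebraMap ℂ (RatFunc ℂ) 2) ≠ 0 := by
      rw [Ne, map_eq_zero]; norm_num
    rwa [map_ofNat] at this
  induction n using Polynomial.Chebyshev.induct with
  | zero => simp
  | one => simp
  | add_two n ih1 ih2 =>
    rw [Polynomial.Chebyshev.T_add_two, map_sub, map_mul, map_mul, map_ofNat, aeval_X, ih1, ih2]
    have e1 : z ^ ((n : ℤ) + 2) = z ^ (n : ℤ) * z * z := by
      rw [show (n : ℤ) + 2 = n + 1 + 1 by ring, zpow_add_one₀ hz, zpow_add_one₀ hz]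
    have e2 : z ^ ((n : ℤ) + 1) = z ^ (n : ℤ) * z := zpow_add_one₀ hz _
    rw [e1, e2]
    have hzn : z ^ (n : ℤ) ≠ 0 := zpow_ne_zero _ hz
    field_simp
    ring
  | neg_add_one n ih1 ih2 =>
    rw [Polynomial.Chebyshev.T_sub_one, map_sub, map_mul, map_mul, map_ofNat, aeval_X, ih1, ih2]
    have e1 : z ^ (-(n : ℤ) - 1) = z ^ (-(n : ℤ)) * z⁻¹ := zpow_sub_one₀ hz _
    have e2 : z ^ (-(n : ℤ) + 1) = z ^ (-(n : ℤ)) * z := zpow_add_one₀ hz _
    rw [e1, e2]
    have hzn : z ^ (-(n : ℤ)) ≠ 0 := zpow_ne_zero _ hz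
    field_simp
    ring

end

end Pool.Agent.Helper881.Cfd
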