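import Mathlib
import Pool.Agent.Helper881.Cfd6
import Pool.Agent.Helper881.CenDefs
import Pool.Agent.Helper881.CenFibre

set_option autoImplicit false

namespace Pool.Agent.Helper881.Cen.Crit

open Pool.Agent.Helper881.Cen.Fibre


open Polynomial





theorem mcv_hom_poly (V : RatFunc ℂ →ₐ[ℂ] RatFunc ℂ) (p : ℂ[X]) :
    V (algebraMap ℂ[X] (RatFunc ℂ) p) = aeval (V RatFunc.X) p := by
  have : (V.comp (IsScalarTower.toAlgHom ℂ ℂ[X] (RatFunc ℂ))) = aeval (V RatFunc.X) := by
    apply Polynomial.algHom_ext
    simp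
  exact DFunLike.congr_fun this p

/-- the substituted function is not constant -/
theorem mcv_deg (V : RatFunc ℂ →ₐ[ℂ] RatFunc ℂ) :
    1 ≤ max (V RatFunc.X).num.natDegree (V RatFunc.X).denom.natDegree := by
  by_contra hcon
  push Not at hcon
  have h1 : (V RatFunc.X).num.natDegree = 0 := by omega
  have h2 : (V RatFunc.X).denom.natDegree = 0 := by omega
  rw [natDegree_eq_zero] at h1 h2
  obtain ⟨x, hx⟩ := h1
  obtain ⟨y, hy⟩ := h2
  have h3 : V RatFunc.X = algebraMap ℂ (RatFunc ℂ) (x / y) := by
    rw [← RatFunc.num_div_denom (V RatFunc.X), ← hx, ← hy, RatFunc.algebraMap_C,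
      RatFunc.algebraMap_C, ← map_div₀, RatFunc.algebraMap_eq_C]
  have h4 : V RatFunc.X = V (algebraMap ℂ (RatFunc ℂ) (x / y)) := by
    rw [h3, V.commutes]
  have h5 : (RatFunc.X : RatFunc ℂ) = algebraMap ℂ (RatFunc ℂ) (x / y) := V.toRingHom.injective h4
  have h6 : algebraMap ℂ[X] (RatFunc ℂ) X = algebraMap ℂ[X] (RatFunc ℂ) (C (x / y)) := by
    rw [RatFunc.algebraMap_X, RatFunc.algebraMap_C, h5, RatFunc.algebraMap_eq_C]
  have h7 := RatFunc.algebraMap_injective ℂ h6
  have h8 := congrArg natDegree h7
  rw [natDegree_X, natDegree_C] at h8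
  exact one_ne_zero h8

/-- comparison of reduced fractions -/
theorem mcv_frac {U W : ℂ[X]} (hUW : IsCoprime U W) (f : RatFunc ℂ) (hW : W ≠ 0)
    (hf : f = algebraMap ℂ[X] (RatFunc ℂ) U / algebraMap ℂ[X] (RatFunc ℂ) W) :
    ∃ k : ℂ, k ≠ 0 ∧ U = C k * f.num ∧ W = C k * f.denom := by
  have hW' : algebraMap ℂ[X] (RatFunc ℂ) W ≠ 0 := RatFunc.algebraMap_ne_zero hW
  have hd' : algebraMap ℂ[X] (RatFunc ℂ) f.denom ≠ 0 := RatFunc.algebraMap_ne_zero f.denom_ne_zero
  have h1 : f.num * W = U * f.denom := by
    apply RatFunc.algebraMap_injective ℂ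
    rw [map_mul, map_mul]
    rw [← RatFunc.num_div_denom f, div_eq_div_iff hd' hW'] at hf
    exact hf
  have hcop : IsCoprime f.num f.denom := RatFunc.isCoprime_num_denom f
  have h2 : f.denom ∣ W := by
    apply hcop.symm.dvd_of_dvd_mul_left
    rw [h1]
    exact dvd_mul_left _ _
  obtain ⟨κ, hκ⟩ := h2
  have h3 : U = κ * f.num := by
    have h4 : U * f.denom = (κ * f.num) * f.denom := by
      rw [← h1, hκ]
      ring
    exact mul_right_cancel₀ f.denom_ne_zero h4
  have h5 : IsUnit κ := by
    apply hUW.isUnit_of_dvd' (x := κ)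
    · rw [h3]; exact dvd_mul_right _ _
    · rw [hκ]; exact dvd_mul_left _ _
  obtain ⟨k, hk, hk2⟩ := Polynomial.isUnit_iff.1 h5
  refine ⟨k, hk.ne_zero, ?_, ?_⟩
  · rw [hk2, h3]
  · rw [hk2, hκ, mul_comm]

/-- TARGET: `R` with at least eight good points, `P = R ∘ v`: `P` has at least seven finite critical
values attained at finite critical points. `V` is the substitution `X ↦ v`. -/
theorem many_critical_values (R : RatFunc ℂ) (Z : Finset ℂ) (hZ : 8 ≤ Z.card)
    (hgood : ∀ a ∈ Z, GoodPt R.num R.denom a)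
    (V : RatFunc ℂ →ₐ[ℂ] RatFunc ℂ) :
    ∃ T : Finset ℂ, 7 ≤ T.card ∧ ∀ c ∈ T, ∃ z : ℂ, (V R).denom.eval z ≠ 0 ∧
      (V R).num.eval z = c * (V R).denom.eval z ∧
      (derivative (V R).num * (V R).denom - (V R).num * derivative (V R).denom).eval z = 0 := by
  classical
  set v : RatFunc ℂ := V RatFunc.X with hv
  have hAd := mcv_deg V
  rw [← hv] at hAd
  have hA : IsCoprime v.num v.denom := RatFunc.isCoprime_num_denom v
  have hNQ : IsCoprime R.num R.denom := RatFunc.isCoprime_num_denom R
  choose! c hc1 hc2 hc3 using hgood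
  have hd : 1 ≤ max R.num.natDegree R.denom.natDegree := by
    obtain ⟨a, ha⟩ : Z.Nonempty := by
      rw [← Finset.card_pos]; omega
    rw [← hc1 a ha]
    by_contra hcon
    push Not at hcon
    have h0 : (R.num - C (c a) * R.denom).natDegree = 0 := by omega
    rw [natDegree_eq_zero] at h0
    obtain ⟨x, hx⟩ := h0
    have h1 := hc2 a ha
    rw [← hx, rootMultiplicity_C] at h1
    omega
  obtain ⟨U, W, hUW, hrel, _, hfib⟩ := comp_fibre R.num R.denom v.num v.denom hNQ hA hd hAd
  rw [RatFunc.num_div_denom v, hv, ← mcv_hom_poly, ← mcv_hom_poly] at hrel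
  have hVden : V (algebraMap ℂ[X] (RatFunc ℂ) R.denom) ≠ 0 := by
    intro h
    have h2 : algebraMap ℂ[X] (RatFunc ℂ) R.denom = 0 :=
      V.toRingHom.injective (h.trans (map_zero V.toRingHom).symm)
    exact RatFunc.algebraMap_ne_zero R.denom_ne_zero h2
  have hW0 : W ≠ 0 := by
    rintro rfl
    rw [map_zero, zero_mul, mul_eq_zero] at hrel
    rcases hrel with h | h
    · have h2 : U = 0 := by
        apply RatFunc.algebraMap_injective ℂ
        rw [h, map_zero]
      rw [h2] at hUW
      exact not_isCoprime_zero_zero hUW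
    · exact hVden h
  have hVR : V R = algebraMap ℂ[X] (RatFunc ℂ) U / algebraMap ℂ[X] (RatFunc ℂ) W := by
    have h1 : V R = V (algebraMap ℂ[X] (RatFunc ℂ) R.num) / V (algebraMap ℂ[X] (RatFunc ℂ) R.denom) := by
      rw [← map_div₀, RatFunc.num_div_denom]
    rw [h1, div_eq_div_iff hVden (RatFunc.algebraMap_ne_zero hW0)]
    rw [mul_comm, ← hrel]
  obtain ⟨k, hk, hU, hW⟩ := mcv_frac hUW (V R) hW0 hVR
  -- the good points with a nonconstant factor
  set Z' : Finset ℂ := Z.filter (fun a => 1 ≤ (v.num - C a * v.denom).natDegree) with hZ'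
  have hcinj : ∀ a ∈ Z, ∀ b ∈ Z, c a = c b → a = b := by
    intro a ha b hb hab
    by_contra hne
    have h1 := hc3 a ha b (Ne.symm hne)
    rw [hab, hc2 b hb] at h1
    omega
  have hZ'card : 7 ≤ Z'.card := by
    have h1 : (Z.filter (fun a => ¬ 1 ≤ (v.num - C a * v.denom).natDegree)).card ≤ 1 := by
      rw [Finset.card_le_one]
      intro a ha b hb
      rw [Finset.mem_filter] at ha hb
      by_contra hne
      have h2 : (v.num - C a * v.denom).natDegree = 0 := by omega
      have h3 : (v.num - C b * v.denom).natDegree = 0 := by omega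
      rw [natDegree_eq_zero] at h2 h3
      obtain ⟨x, hx⟩ := h2
      obtain ⟨y, hy⟩ := h3
      have hab : a - b ≠ 0 := sub_ne_zero.2 hne
      have h4 : v.denom = C ((y - x) / (a - b)) := by
        have h5 : C (a - b) * v.denom = C (y - x) := by
          rw [C_sub, C_sub, hx, hy]
          ring
        have h6 : C ((a - b)⁻¹) * (C (a - b) * v.denom) = v.denom := by
          rw [← mul_assoc, ← C_mul, inv_mul_cancel₀ hab, C_1, one_mul]
        rw [← h6, h5, ← C_mul]
        congr 1
        rw [div_eq_mul_inv, mul_comm]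
      have h7 : v.num = C (x + a * ((y - x) / (a - b))) := by
        have h8 : v.num = C x + C a * v.denom := by rw [hx]; ring
        rw [h8, h4, ← C_mul, ← C_add]
      rw [h4, h7, natDegree_C, natDegree_C] at hAd
      simp at hAd
    have h2 := Finset.card_filter_add_card_filter_not (s := Z) (fun a => 1 ≤ (v.num - C a * v.denom).natDegree)
    rw [← hZ'] at h2
    omega
  refine ⟨Z'.image c, ?_, ?_⟩
  · rw [Finset.card_image_of_injOn]
    · exact hZ'card
    · intro a ha b hb hab
      exact hcinj a (Finset.mem_filter.1 ha).1 b (Finset.mem_filter.1 hb).1 hab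
  · intro γ hγ
    obtain ⟨a, ha, rfl⟩ := Finset.mem_image.1 hγ
    obtain ⟨haZ, had⟩ := Finset.mem_filter.1 ha
    obtain ⟨z, hz⟩ := IsAlgClosed.exists_root (v.num - C a * v.denom) (by
      intro h
      have := natDegree_eq_zero_iff_degree_le_zero.2 h.le
      omega)
    have hdvd1 : (X - C z) ∣ (v.num - C a * v.denom) := dvd_iff_isRoot.2 hz
    have hf := hfib (c a) (hc1 a haZ)
    have hdvd2 : (v.num - C a * v.denom) ^ 3 ∣ U - C (c a) * W := by
      rw [hf]
      apply dvd_mul_of_dvd_right
      have h1 : Multiset.replicate 3 a ≤ (R.num - C (c a) * R.denom).roots := by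
        rw [← Multiset.le_count_iff_replicate_le, count_roots, hc2 a haZ]
      have h2 := Multiset.prod_dvd_prod_of_le
        (Multiset.map_le_map (f := fun x => v.num - C x * v.denom) h1)
      rw [Multiset.map_replicate, Multiset.prod_replicate] at h2
      exact h2
    obtain ⟨S, hS⟩ := (pow_dvd_pow_of_dvd hdvd1 3).trans hdvd2
    have hk' : (C k : ℂ[X]) ≠ 0 := by
      rw [Ne, C_eq_zero]; exact hk
    have hkk : C k * ((V R).num - C (c a) * (V R).denom) = (X - C z) ^ 3 * S := by
      rw [← hS, hU, hW]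
      ring
    have he1 : (V R).num.eval z - c a * (V R).denom.eval z = 0 := by
      have h1 := congrArg (eval z) hkk
      simp only [eval_mul, eval_sub, eval_C, eval_pow, eval_X, sub_self] at h1
      have h2 : k * ((V R).num.eval z - c a * (V R).denom.eval z) = 0 := by
        rw [h1]; ring
      exact (mul_eq_zero.1 h2).resolve_left hk
    have he2 : (derivative (V R).num).eval z - c a * (derivative (V R).denom).eval z = 0 := by
      have h1 := congrArg (fun p => eval z (derivative p)) hkk
      simp only [derivative_mul, derivative_sub, derivative_C, derivative_pow, derivative_X,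
        eval_mul, eval_sub, eval_add, eval_C, eval_pow, eval_X, sub_self, zero_mul, zero_add,
        eval_zero] at h1
      have h2 : k * ((derivative (V R).num).eval z - c a * (derivative (V R).denom).eval z) = 0 := by
        rw [h1]; ring
      exact (mul_eq_zero.1 h2).resolve_left hk
    have hden : (V R).denom.eval z ≠ 0 := by
      intro h
      have h1 : (V R).num.eval z = 0 := by
        rw [h] at he1
        linear_combination he1
      obtain ⟨α, β, hαβ⟩ := RatFunc.isCoprime_num_denom (V R)
      have h2 := congrArg (eval z) hαβ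
      rw [eval_add, eval_mul, eval_mul, h, h1, mul_zero, mul_zero, add_zero, eval_one] at h2
      exact zero_ne_one h2
    refine ⟨z, hden, by linear_combination he1, ?_⟩
    rw [eval_sub, eval_mul, eval_mul]
    linear_combination (V R).denom.eval z * he2 - (derivative (V R).denom).eval z * he1

end Pool.Agent.Helper881.Cen.Crit
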