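import Mathlib
import Pool.Agent.Helper881.CenDefs

set_option autoImplicit false

namespace Pool.Agent.Helper881.Cen.Degree


open Polynomial



/-- `u` has a representation as a quotient of polynomials of degree at most `d` -/
def HRep (u : RatFunc ℂ) (d : ℕ) : Prop :=
  ∃ p q : ℂ[X], q ≠ 0 ∧ u = algebraMap ℂ[X] (RatFunc ℂ) p / algebraMap ℂ[X] (RatFunc ℂ) q ∧
    p.natDegree ≤ d ∧ q.natDegree ≤ d

theorem hrep_ne {q : ℂ[X]} (hq : q ≠ 0) : algebraMap ℂ[X] (RatFunc ℂ) q ≠ 0 :=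
  RatFunc.algebraMap_ne_zero hq

theorem hrep_self (u : RatFunc ℂ) : HRep u (rdeg u) :=
  ⟨u.num, u.denom, u.denom_ne_zero, (RatFunc.num_div_denom u).symm, le_max_left _ _,
    le_max_right _ _⟩

theorem hrep_rdeg {u : RatFunc ℂ} {d : ℕ} (h : HRep u d) : rdeg u ≤ d := by
  obtain ⟨p, q, hq, rfl, hp1, hq1⟩ := h
  unfold rdeg
  refine max_le ?_ ?_
  · by_cases hp : p = 0
    · subst hp; simp
    · exact (natDegree_le_of_dvd (RatFunc.num_div_dvd p hq) hp).trans hp1
  · exact (natDegree_le_of_dvd (RatFunc.denom_div_dvd p q) hq).trans hq1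

theorem hrep_mono {u : RatFunc ℂ} {a b : ℕ} (h : HRep u a) (hab : a ≤ b) : HRep u b := by
  obtain ⟨p, q, hq, e, hp1, hq1⟩ := h
  exact ⟨p, q, hq, e, hp1.trans hab, hq1.trans hab⟩

theorem hrep_zero : HRep 0 0 := ⟨0, 1, one_ne_zero, by simp, by simp, by simp⟩

theorem hrep_const (c : ℂ) : HRep (algebraMap ℂ (RatFunc ℂ) c) 0 := by
  refine ⟨C c, 1, one_ne_zero, ?_, by simp, by simp⟩
  rw [map_one, div_one, IsScalarTower.algebraMap_apply ℂ ℂ[X] (RatFunc ℂ)]
  rfl

theorem hrep_nat (n : ℕ) : HRep (n : RatFunc ℂ) 0 := by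
  have := hrep_const (n : ℂ)
  rwa [map_natCast] at this

theorem hrep_mul {u v : RatFunc ℂ} {a b : ℕ} (hu : HRep u a) (hv : HRep v b) :
    HRep (u * v) (a + b) := by
  obtain ⟨p, q, hq, rfl, hp1, hq1⟩ := hu
  obtain ⟨p', q', hq', rfl, hp1', hq1'⟩ := hv
  refine ⟨p * p', q * q', mul_ne_zero hq hq', ?_, ?_, ?_⟩
  · rw [map_mul, map_mul, div_mul_div_comm]
  · exact natDegree_mul_le.trans (add_le_add hp1 hp1')
  · exact natDegree_mul_le.trans (add_le_add hq1 hq1')

theorem hrep_inv {u : RatFunc ℂ} {a : ℕ} (hu : HRep u a) : HRep u⁻¹ a := by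
  obtain ⟨p, q, hq, rfl, hp1, hq1⟩ := hu
  by_cases hp : p = 0
  · subst hp
    rw [map_zero, zero_div, inv_zero]
    exact hrep_mono hrep_zero (Nat.zero_le _)
  · exact ⟨q, p, hp, inv_div _ _, hq1, hp1⟩

theorem hrep_div {u v : RatFunc ℂ} {a b : ℕ} (hu : HRep u a) (hv : HRep v b) :
    HRep (u / v) (a + b) := by
  rw [div_eq_mul_inv]
  exact hrep_mul hu (hrep_inv hv)

theorem hrep_add {u v : RatFunc ℂ} {a b : ℕ} (hu : HRep u a) (hv : HRep v b) :
    HRep (u + v) (a + b) := by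
  obtain ⟨p, q, hq, rfl, hp1, hq1⟩ := hu
  obtain ⟨p', q', hq', rfl, hp1', hq1'⟩ := hv
  refine ⟨p * q' + q * p', q * q', mul_ne_zero hq hq', ?_, ?_, ?_⟩
  · rw [map_add, map_mul, map_mul, map_mul, div_add_div _ _ (hrep_ne hq) (hrep_ne hq')]
  · refine (natDegree_add_le _ _).trans (max_le ?_ ?_)
    · exact natDegree_mul_le.trans (add_le_add hp1 hq1')
    · exact natDegree_mul_le.trans (add_le_add hq1 hp1')
  · exact natDegree_mul_le.trans (add_le_add hq1 hq1')

theorem hrep_neg {u : RatFunc ℂ} {a : ℕ} (hu : HRep u a) : HRep (-u) a := by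
  obtain ⟨p, q, hq, rfl, hp1, hq1⟩ := hu
  refine ⟨-p, q, hq, ?_, ?_, hq1⟩
  · rw [map_neg, neg_div']
  · rw [natDegree_neg]; exact hp1

theorem hrep_sub {u v : RatFunc ℂ} {a b : ℕ} (hu : HRep u a) (hv : HRep v b) :
    HRep (u - v) (a + b) := by
  rw [sub_eq_add_neg]
  exact hrep_add hu (hrep_neg hv)

theorem hrep_pow {u : RatFunc ℂ} {a : ℕ} (hu : HRep u a) (m : ℕ) : HRep (u ^ m) (m * a) := by
  induction m with
  | zero =>
    have := hrep_nat 1
    rw [Nat.cast_one] at this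
    rwa [pow_zero, zero_mul]
  | succ m ih =>
    rw [pow_succ, Nat.succ_mul]
    exact hrep_mul ih hu

theorem hD_alg (D : Derivation ℂ (RatFunc ℂ) (RatFunc ℂ)) (hD : D RatFunc.X = 1) (p : ℂ[X]) :
    D (algebraMap ℂ[X] (RatFunc ℂ) p) = algebraMap ℂ[X] (RatFunc ℂ) (derivative p) := by
  have h := D.map_aeval p RatFunc.X
  rw [hD, smul_eq_mul, mul_one, RatFunc.aeval_X_left_eq_algebraMap,
    RatFunc.aeval_X_left_eq_algebraMap] at h
  exact h

theorem hD_div (D : Derivation ℂ (RatFunc ℂ) (RatFunc ℂ)) (hD : D RatFunc.X = 1) (p q : ℂ[X])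
    (hq : q ≠ 0) :
    D (algebraMap ℂ[X] (RatFunc ℂ) p / algebraMap ℂ[X] (RatFunc ℂ) q) =
      algebraMap ℂ[X] (RatFunc ℂ) (q * derivative p - p * derivative q) /
        algebraMap ℂ[X] (RatFunc ℂ) (q ^ 2) := by
  rw [D.leibniz_div, hD_alg D hD, hD_alg D hD, map_sub, map_mul, map_mul, map_pow]
  simp only [smul_eq_mul]
  rw [div_eq_mul_inv, inv_pow, mul_comm]

theorem hrep_D (D : Derivation ℂ (RatFunc ℂ) (RatFunc ℂ)) (hD : D RatFunc.X = 1)
    {u : RatFunc ℂ} {a : ℕ} (hu : HRep u a) : HRep (D u) (2 * a) := by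
  obtain ⟨p, q, hq, rfl, hp1, hq1⟩ := hu
  refine ⟨_, _, pow_ne_zero 2 hq, hD_div D hD p q hq, ?_, ?_⟩
  · refine (natDegree_sub_le _ _).trans (max_le ?_ ?_)
    · refine natDegree_mul_le.trans ?_
      have := natDegree_derivative_le p
      omega
    · refine natDegree_mul_le.trans ?_
      have := natDegree_derivative_le q
      omega
  · refine natDegree_pow_le.trans ?_
    omega

theorem hD_const (D : Derivation ℂ (RatFunc ℂ) (RatFunc ℂ)) (hD : D RatFunc.X = 1)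
    (u : RatFunc ℂ) (hu : D u = 0) : ∃ c : ℂ, u = algebraMap ℂ (RatFunc ℂ) c := by
  have hcop := RatFunc.isCoprime_num_denom u
  have hq := u.denom_ne_zero
  have e := RatFunc.num_div_denom u
  set p := u.num
  set q := u.denom
  rw [← e, hD_div D hD p q hq, div_eq_zero_iff] at hu
  rcases hu with hu | hu
  · have h1 : q * derivative p - p * derivative q = 0 := by
      have := RatFunc.algebraMap_injective ℂ
      apply this
      rw [hu, map_zero]
    have h2 : q * derivative p = p * derivative q := sub_eq_zero.1 h1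
    have hq' : q ∣ derivative q := by
      have : q ∣ p * derivative q := ⟨_, h2.symm⟩
      exact hcop.symm.dvd_of_dvd_mul_left this
    have hp' : p ∣ derivative p := by
      have : p ∣ q * derivative p := ⟨_, h2⟩
      exact hcop.dvd_of_dvd_mul_left this
    have hdq : derivative q = 0 :=
      eq_zero_of_dvd_of_degree_lt hq' (degree_derivative_lt hq)
    have hdp : derivative p = 0 := by
      by_cases hp : p = 0
      · rw [hp, derivative_zero]
      · exact eq_zero_of_dvd_of_degree_lt hp' (degree_derivative_lt hp)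
    have hp0 := eq_C_of_natDegree_eq_zero (natDegree_eq_zero_of_derivative_eq_zero hdp)
    have hq0 := eq_C_of_natDegree_eq_zero (natDegree_eq_zero_of_derivative_eq_zero hdq)
    refine ⟨p.coeff 0 / q.coeff 0, ?_⟩
    have e1 : ∀ c : ℂ, algebraMap ℂ (RatFunc ℂ) c = algebraMap ℂ[X] (RatFunc ℂ) (C c) := by
      intro c
      rw [IsScalarTower.algebraMap_apply ℂ ℂ[X] (RatFunc ℂ)]
      rfl
    rw [map_div₀, e1, e1, ← hp0, ← hq0, e]
  · exact absurd hu (hrep_ne (pow_ne_zero 2 hq))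

theorem hrep_key {u A B C' D' : RatFunc ℂ} {a b c d e : ℕ} (hu : HRep u a) (hA : HRep A b)
    (hB : HRep B c) (hC : HRep C' d) (hD : HRep D' e) :
    HRep ((u * A + B) / (u * C' + D')) (a + b + c + d + e) := by
  obtain ⟨u1, u2, hu2, rfl, du1, du2⟩ := hu
  obtain ⟨A1, A2, hA2, rfl, dA1, dA2⟩ := hA
  obtain ⟨B1, B2, hB2, rfl, dB1, dB2⟩ := hB
  obtain ⟨C1, C2, hC2, rfl, dC1, dC2⟩ := hC
  obtain ⟨D1, D2, hD2, rfl, dD1, dD2⟩ := hD
  have nu := hrep_ne hu2
  have nA := hrep_ne hA2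
  have nB := hrep_ne hB2
  have nC := hrep_ne hC2
  have nD := hrep_ne hD2
  by_cases h0 : (u1 * C1 * D2 + u2 * C2 * D1) = 0
  · have h1 : algebraMap ℂ[X] (RatFunc ℂ) u1 / algebraMap ℂ[X] (RatFunc ℂ) u2 *
        (algebraMap ℂ[X] (RatFunc ℂ) C1 / algebraMap ℂ[X] (RatFunc ℂ) C2) +
        algebraMap ℂ[X] (RatFunc ℂ) D1 / algebraMap ℂ[X] (RatFunc ℂ) D2 = 0 := by
      have h2 := congrArg (algebraMap ℂ[X] (RatFunc ℂ)) h0
      simp only [map_add, map_mul, map_zero] at h2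
      rw [div_mul_div_comm, div_add_div _ _ (mul_ne_zero nu nC) nD, h2, zero_div]
    rw [h1, div_zero]
    exact hrep_mono hrep_zero (Nat.zero_le _)
  · refine ⟨(u1 * A1 * B2 + u2 * A2 * B1) * (C2 * D2), (u1 * C1 * D2 + u2 * C2 * D1) * (A2 * B2),
      mul_ne_zero h0 (mul_ne_zero hA2 hB2), ?_, ?_, ?_⟩
    · have h0' := hrep_ne h0
      simp only [map_add, map_mul] at h0' ⊢
      rw [div_mul_div_comm, div_add_div _ _ (mul_ne_zero nu nA) nB, div_mul_div_comm,
        div_add_div _ _ (mul_ne_zero nu nC) nD, div_div_div_eq]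
      rw [div_eq_div_iff]
      · ring
      · exact mul_ne_zero (mul_ne_zero (mul_ne_zero nu nA) nB) h0'
      · exact mul_ne_zero h0' (mul_ne_zero nA nB)
    · have t1 : (u1 * A1 * B2 + u2 * A2 * B1).natDegree ≤ a + b + c := by
        refine (natDegree_add_le _ _).trans (max_le ?_ ?_)
        · exact natDegree_mul_le.trans (add_le_add (natDegree_mul_le.trans (add_le_add du1 dA1)) dB2)
        · exact natDegree_mul_le.trans (add_le_add (natDegree_mul_le.trans (add_le_add du2 dA2)) dB1)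
      have t2 : (C2 * D2).natDegree ≤ d + e := natDegree_mul_le.trans (add_le_add dC2 dD2)
      have t3 := natDegree_mul_le (p := u1 * A1 * B2 + u2 * A2 * B1) (q := C2 * D2)
      omega
    · have t1 : (u1 * C1 * D2 + u2 * C2 * D1).natDegree ≤ a + d + e := by
        refine (natDegree_add_le _ _).trans (max_le ?_ ?_)
        · exact natDegree_mul_le.trans (add_le_add (natDegree_mul_le.trans (add_le_add du1 dC1)) dD2)
        · exact natDegree_mul_le.trans (add_le_add (natDegree_mul_le.trans (add_le_add du2 dC2)) dD1)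
      have t2 : (A2 * B2).natDegree ≤ b + c := natDegree_mul_le.trans (add_le_add dA2 dB2)
      have t3 := natDegree_mul_le (p := u1 * C1 * D2 + u2 * C2 * D1) (q := A2 * B2)
      omega

/-- (L) the degree of the Halley map of `f = ψ^n + α ψ^(n-1) + β` is at most `n deg ψ + O(1)`. -/
theorem halley_degree (D : Derivation ℂ (RatFunc ℂ) (RatFunc ℂ)) (hD : D RatFunc.X = 1)
    (ψ R₁ : RatFunc ℂ) (n : ℕ) (hn : 2 ≤ n) (α β : ℂ)
    (hψ : ∀ c : ℂ, ψ ≠ algebraMap ℂ (RatFunc ℂ) c) :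
    rdeg (halley D (ψ ^ n + algebraMap ℂ (RatFunc ℂ) α * ψ ^ (n - 1) +
      algebraMap ℂ (RatFunc ℂ) β) R₁) ≤ n * rdeg ψ + 40 * (rdeg ψ + rdeg R₁) := by
  obtain ⟨m, rfl⟩ : ∃ m, n = m + 2 := ⟨n - 2, by omega⟩
  have hm1 : m + 2 - 1 = m + 1 := by omega
  rw [hm1]
  set k := rdeg ψ with hk
  set d := rdeg R₁ with hd
  set a : RatFunc ℂ := algebraMap ℂ (RatFunc ℂ) α with ha
  set b : RatFunc ℂ := algebraMap ℂ (RatFunc ℂ) β with hb
  have Da : D a = 0 := D.map_algebraMap α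
  have Db : D b = 0 := D.map_algebraMap β
  set P : RatFunc ℂ := D ψ with hP
  set W : RatFunc ℂ := ((m + 2 : ℕ) : RatFunc ℂ) * ψ + ((m + 1 : ℕ) : RatFunc ℂ) * a with hW
  have hψ0 : ψ ≠ 0 := by
    intro h
    exact hψ 0 (by rw [h, map_zero])
  have hP0 : P ≠ 0 := by
    intro h
    obtain ⟨c, hc⟩ := hD_const D hD ψ h
    exact hψ c hc
  have hW0 : W ≠ 0 := by
    intro h
    have h2 : ((m + 2 : ℕ) : RatFunc ℂ) ≠ 0 := by exact_mod_cast (by omega : m + 2 ≠ 0)
    have h3 : ψ = algebraMap ℂ (RatFunc ℂ) (-(((m + 1 : ℕ) : ℂ) * α) / ((m + 2 : ℕ) : ℂ)) := by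
      rw [map_div₀, map_neg, map_mul, map_natCast, map_natCast, ← ha]
      rw [eq_div_iff h2]
      rw [hW] at h
      linear_combination h
    exact hψ _ h3
  set u : RatFunc ℂ := ψ ^ m with hu
  have hu0 : u ≠ 0 := pow_ne_zero m hψ0
  set f : RatFunc ℂ := ψ ^ (m + 2) + a * ψ ^ (m + 1) + b with hf
  have hfu : f = u * (ψ * (ψ + a)) + b := by
    rw [hf, hu]; ring
  have hDnat : ∀ j : ℕ, D ((j : ℕ) : RatFunc ℂ) = 0 := fun j => D.map_natCast j
  have hDf : D f = u * P * W := by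
    rw [hf, map_add, map_add, Db, add_zero, D.leibniz, Da, D.leibniz_pow, D.leibniz_pow]
    simp only [smul_zero, add_zero, smul_eq_mul, nsmul_eq_mul]
    rw [hW, hu, ← hP]
    have e1 : m + 2 - 1 = m + 1 := by omega
    have e2 : m + 1 - 1 = m := by omega
    rw [e1, e2]
    push_cast
    ring
  have hDf0 : D f ≠ 0 := by
    rw [hDf]; exact mul_ne_zero (mul_ne_zero hu0 hP0) hW0
  have hf0 : f ≠ 0 := by
    intro h; rw [h, map_zero] at hDf0; exact hDf0 rfl
  have hDW : D W = ((m + 2 : ℕ) : RatFunc ℂ) * P := by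
    rw [hW, map_add, D.leibniz, D.leibniz, hDnat, hDnat, Da]
    simp only [smul_eq_mul, mul_zero, add_zero]
    rfl
  have hDu : D u = (m : RatFunc ℂ) * (P / ψ) * u := by
    rw [hu, D.leibniz_pow]
    simp only [smul_eq_mul, nsmul_eq_mul]
    rcases Nat.eq_zero_or_pos m with h | h
    · subst h; simp
    · obtain ⟨j, rfl⟩ : ∃ j, m = j + 1 := ⟨m - 1, by omega⟩
      rw [Nat.add_sub_cancel, pow_succ, ← hP]
      field_simp
  have hDDf : D (D f) / D f = (m : RatFunc ℂ) * (P / ψ) + D P / P + ((m + 2 : ℕ) : RatFunc ℂ) * P / W := by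
    rw [hDf, D.leibniz, D.leibniz, hDW, hDu]
    simp only [smul_eq_mul]
    field_simp
    ring
  set E : RatFunc ℂ := (m : RatFunc ℂ) * (P / ψ) + D P / P + ((m + 2 : ℕ) : RatFunc ℂ) * P / W
    - D (D R₁) / D R₁ with hE
  have hhal : halley D f R₁ = R₁ + (2 * D R₁) *
      ((u * (ψ * (ψ + a)) + b) / (u * (E * (ψ * (ψ + a)) - 2 * (P * W)) + E * b)) := by
    unfold halley
    rw [hDDf]
    have e1 : (m : RatFunc ℂ) * (P / ψ) + D P / P + ((m + 2 : ℕ) : RatFunc ℂ) * P / W - 2 * D f / f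
        - D (D R₁) / D R₁ = (u * (E * (ψ * (ψ + a)) - 2 * (P * W)) + E * b) / f := by
      rw [eq_div_iff hf0]
      have e2 : u * (E * (ψ * (ψ + a)) - 2 * (P * W)) + E * b = E * f - 2 * D f := by
        rw [hDf, hfu]; ring
      rw [e2]
      have e3 : 2 * D f / f * f = 2 * D f := div_mul_cancel₀ _ hf0
      have e4 : (m : RatFunc ℂ) * (P / ψ) + D P / P + ((m + 2 : ℕ) : RatFunc ℂ) * P / W - 2 * D f / f
        - D (D R₁) / D R₁ = E - 2 * D f / f := by rw [hE]; ring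
      rw [e4, sub_mul, e3]
    rw [e1, div_div_eq_mul_div, ← hfu, mul_div_assoc]
  rw [hhal]
  -- degrees
  have rψ : HRep ψ k := hrep_self ψ
  have rR : HRep R₁ d := hrep_self R₁
  have rP : HRep P (2 * k) := hrep_D D hD rψ
  have rDP : HRep (D P) (2 * (2 * k)) := hrep_D D hD rP
  have ra : HRep a 0 := hrep_const α
  have rb : HRep b 0 := hrep_const β
  have rW : HRep W ((0 + k) + (0 + 0)) :=
    hrep_add (hrep_mul (hrep_nat _) rψ) (hrep_mul (hrep_nat _) ra)
  have rDR : HRep (D R₁) (2 * d) := hrep_D D hD rR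
  have rDDR : HRep (D (D R₁)) (2 * (2 * d)) := hrep_D D hD rDR
  have rE := hrep_sub (hrep_add (hrep_add (hrep_mul (hrep_nat m) (hrep_div rP rψ))
    (hrep_div rDP rP)) (hrep_div (hrep_mul (hrep_nat (m + 2)) rP) rW)) (hrep_div rDDR rDR)
  rw [← hE] at rE
  have rA := hrep_mul rψ (hrep_add rψ ra)
  have r2 : HRep (2 : RatFunc ℂ) 0 := by
    have := hrep_nat 2
    rwa [Nat.cast_ofNat] at this
  have rC := hrep_sub (hrep_mul rE rA) (hrep_mul r2 (hrep_mul rP rW))
  have rD := hrep_mul rE rb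
  have ru : HRep u (m * k) := hrep_pow rψ m
  have rkey := hrep_key ru rA rb rC rD
  have rall := hrep_add rR (hrep_mul (hrep_mul r2 rDR) rkey)
  refine (hrep_rdeg rall).trans ?_
  have e : (m + 2) * k = m * k + 2 * k := by ring
  rw [e]
  generalize m * k = mk
  omega

end Pool.Agent.Helper881.Cen.Degree
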