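import Mathlib
import Pool.Agent.Helper881.Cfd6
import Pool.Agent.Helper881.CenDefs

set_option autoImplicit false

namespace Pool.Agent.Helper881.Cen.Fixed


open Polynomial

/-- normalisation of a generator: pole at infinity -/
theorem norm_gen (g : RatFunc ℂ) (hg : ¬ ∃ c, g = RatFunc.C c) :
    ∃ ψ₁ ψ₂ : ℂ[X], IsCoprime ψ₁ ψ₂ ∧ ψ₂.natDegree < ψ₁.natDegree ∧
      IntermediateField.adjoin ℂ ({algebraMap ℂ[X] (RatFunc ℂ) ψ₁ /
        algebraMap ℂ[X] (RatFunc ℂ) ψ₂} : Set (RatFunc ℂ)) =
      IntermediateField.adjoin ℂ ({g} : Set (RatFunc ℂ)) := by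
  have hcop := g.isCoprime_num_denom
  have hq0 := g.denom_ne_zero
  have hge := g.num_div_denom
  rcases lt_or_ge g.denom.natDegree g.num.natDegree with h | h
  · refine ⟨g.num, g.denom, hcop, h, ?_⟩
    rw [hge]
  · -- a constant `c` with `deg (num - c * denom) < deg denom`
    have hdeg0 : 0 < g.denom.natDegree := by
      rw [Nat.pos_iff_ne_zero]
      intro h0
      apply hg
      have hn0 : g.num.natDegree = 0 := by omega
      refine ⟨g.num.coeff 0 / g.denom.coeff 0, ?_⟩
      have e1 := Polynomial.eq_C_of_natDegree_eq_zero h0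
      have e2 := Polynomial.eq_C_of_natDegree_eq_zero hn0
      conv_lhs => rw [← hge, e1, e2]
      rw [RatFunc.algebraMap_C, RatFunc.algebraMap_C, ← map_div₀]
    have hc : ∃ c : ℂ, (g.num - C c * g.denom).natDegree < g.denom.natDegree := by
      rcases h.lt_or_eq with h' | h'
      · exact ⟨0, by simpa using h'⟩
      · refine ⟨g.num.leadingCoeff / g.denom.leadingCoeff, ?_⟩
        have hp0 : g.num ≠ 0 := by
          intro h0
          rw [h0, natDegree_zero] at h'
          omega
        have hl1 : g.num.leadingCoeff ≠ 0 := leadingCoeff_ne_zero.mpr hp0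
        have hl2 : g.denom.leadingCoeff ≠ 0 := leadingCoeff_ne_zero.mpr hq0
        have hc0 : g.num.leadingCoeff / g.denom.leadingCoeff ≠ 0 := div_ne_zero hl1 hl2
        have hd : degree g.num = degree (C (g.num.leadingCoeff / g.denom.leadingCoeff) * g.denom) := by
          rw [degree_C_mul hc0, degree_eq_natDegree hp0, degree_eq_natDegree hq0, h']
        have hlc : g.num.leadingCoeff =
            (C (g.num.leadingCoeff / g.denom.leadingCoeff) * g.denom).leadingCoeff := by
          rw [leadingCoeff_mul, leadingCoeff_C, div_mul_cancel₀ _ hl2]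
        have h3 := degree_sub_lt_left hd hp0 hlc
        by_cases hr : g.num - C (g.num.leadingCoeff / g.denom.leadingCoeff) * g.denom = 0
        · rw [hr, natDegree_zero]; exact hdeg0
        · rw [← h']
          exact natDegree_lt_natDegree hr h3
    obtain ⟨c, hc⟩ := hc
    set r := g.num - C c * g.denom with hr
    have hr0 : r ≠ 0 := by
      intro h0
      apply hg
      refine ⟨c, ?_⟩
      have : g.num = C c * g.denom := sub_eq_zero.mp h0
      conv_lhs => rw [← hge, this]
      rw [map_mul, RatFunc.algebraMap_C, mul_div_assoc,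
        div_self (RatFunc.algebraMap_ne_zero hq0), mul_one]
    have hcop2 : IsCoprime g.denom r := by
      have := (hcop.symm).add_mul_right_right (-C c)
      have e : g.num + -C c * g.denom = r := by rw [hr]; ring
      rwa [e] at this
    have hrq : algebraMap ℂ[X] (RatFunc ℂ) r =
        (g - algebraMap ℂ (RatFunc ℂ) c) * algebraMap ℂ[X] (RatFunc ℂ) g.denom := by
      have hcc : algebraMap ℂ (RatFunc ℂ) c = RatFunc.C c := rfl
      rw [hr, map_sub, map_mul, RatFunc.algebraMap_C, sub_mul, hcc]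
      congr 1
      exact (div_eq_iff (RatFunc.algebraMap_ne_zero hq0)).mp hge
    have hψ : algebraMap ℂ[X] (RatFunc ℂ) g.denom / algebraMap ℂ[X] (RatFunc ℂ) r =
        (g - algebraMap ℂ (RatFunc ℂ) c)⁻¹ := by
      have h1 : algebraMap ℂ[X] (RatFunc ℂ) r ≠ 0 := RatFunc.algebraMap_ne_zero hr0
      have h2 : g - algebraMap ℂ (RatFunc ℂ) c ≠ 0 := by
        intro h0
        rw [h0, zero_mul] at hrq
        exact h1 hrq
      rw [div_eq_iff h1, hrq, inv_mul_cancel_left₀ h2]
    refine ⟨g.denom, r, hcop2, hc, ?_⟩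
    rw [hψ]
    apply le_antisymm
    · rw [IntermediateField.adjoin_simple_le_iff]
      exact inv_mem (sub_mem (IntermediateField.mem_adjoin_simple_self ℂ g)
        (IntermediateField.algebraMap_mem _ c))
    · rw [IntermediateField.adjoin_simple_le_iff]
      have h1 := inv_mem (IntermediateField.mem_adjoin_simple_self ℂ
        (g - algebraMap ℂ (RatFunc ℂ) c)⁻¹)
      rw [inv_inv] at h1
      have h2 := add_mem h1 (IntermediateField.algebraMap_mem
        (IntermediateField.adjoin ℂ ({(g - algebraMap ℂ (RatFunc ℂ) c)⁻¹} : Set (RatFunc ℂ))) c)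
      rwa [sub_add_cancel] at h2

/-- Fixed field of a finite group acting faithfully on `ℂ(X)`: a generator `ψ₁/ψ₂` with pole at `∞`,
its Galois group, and generation of `ℂ(X)` by an element with trivial stabiliser. -/
theorem exists_psi (K : Type) [Group K] [Finite K] (ρ : K →* (RatFunc ℂ ≃ₐ[ℂ] RatFunc ℂ))
    (hρ : Function.Injective ρ) :
    ∃ ψ₁ ψ₂ : ℂ[X], IsCoprime ψ₁ ψ₂ ∧ ψ₂.natDegree < ψ₁.natDegree ∧
      (∀ k : K, ρ k (algebraMap ℂ[X] (RatFunc ℂ) ψ₁ / algebraMap ℂ[X] (RatFunc ℂ) ψ₂) =
        algebraMap ℂ[X] (RatFunc ℂ) ψ₁ / algebraMap ℂ[X] (RatFunc ℂ) ψ₂) ∧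
      (∀ ν : RatFunc ℂ →ₐ[ℂ] RatFunc ℂ,
        ν (algebraMap ℂ[X] (RatFunc ℂ) ψ₁ / algebraMap ℂ[X] (RatFunc ℂ) ψ₂) =
          algebraMap ℂ[X] (RatFunc ℂ) ψ₁ / algebraMap ℂ[X] (RatFunc ℂ) ψ₂ →
        ∃ k : K, ∀ f, ν f = ρ k f) ∧
      (∀ x : RatFunc ℂ, (∀ k : K, ρ k x = x → k = 1) →
        IntermediateField.adjoin ℂ ({x, algebraMap ℂ[X] (RatFunc ℂ) ψ₁ /
          algebraMap ℂ[X] (RatFunc ℂ) ψ₂} : Set (RatFunc ℂ)) = ⊤) := by
  classical
  let act : MulSemiringAction K (RatFunc ℂ) := MulSemiringAction.compHom (RatFunc ℂ) ρ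
  have hact : ∀ (k : K) (f : RatFunc ℂ), k • f = ρ k f := fun k f => rfl
  have : FaithfulSMul K (RatFunc ℂ) := ⟨fun {k₁ k₂} h => hρ (AlgEquiv.ext h)⟩
  have : @SMulCommClass K ℂ (RatFunc ℂ) _ Algebra.toSMul := ⟨fun k c f => by
    rw [hact, hact, Algebra.smul_def, Algebra.smul_def, map_mul, AlgEquiv.commutes]⟩
  set E : IntermediateField ℂ (RatFunc ℂ) := FixedPoints.intermediateField K with hE
  set F0 := FixedPoints.subfield K (RatFunc ℂ) with hF0
  have hmemE : ∀ f, f ∈ E ↔ ∀ k : K, ρ k f = f := fun f => Iff.rfl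
  have hmemF : ∀ f, f ∈ F0 ↔ ∀ k : K, ρ k f = f := fun f => Iff.rfl
  have hEbot : E ≠ ⊥ := by
    intro hb
    have halg : IsAlgebraic F0 (RatFunc.X : RatFunc ℂ) :=
      (FixedPoints.isIntegral K (RatFunc ℂ) RatFunc.X).isAlgebraic
    obtain ⟨p, hp0, hp⟩ := halg
    have hconst : ∀ y : F0, ∃ c : ℂ, algebraMap ℂ (RatFunc ℂ) c = y := by
      intro y
      have : (y : RatFunc ℂ) ∈ E := y.2
      rw [hb, IntermediateField.mem_bot] at this
      exact this
    choose κ hκ using hconst
    have hκ0 : ∀ y : F0, κ y = 0 → y = 0 := by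
      intro y hy
      have := hκ y
      rw [hy, map_zero] at this
      exact Subtype.ext this.symm
    set P : ℂ[X] := ∑ i ∈ Finset.range (p.natDegree + 1), Polynomial.monomial i (κ (p.coeff i)) with hP
    have hP0 : P ≠ 0 := by
      intro h0
      apply hp0
      ext1 i
      rw [Polynomial.coeff_zero]
      by_cases hi : i < p.natDegree + 1
      · apply hκ0
        have := congrArg (fun q : ℂ[X] => q.coeff i) h0
        simp only [hP, Polynomial.finsetSum_coeff, Polynomial.coeff_monomial,
          Polynomial.coeff_zero] at this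
        rw [Finset.sum_eq_single i] at this
        · simpa using this
        · intro b _ hb; simp [hb]
        · intro hh; exact absurd (Finset.mem_range.mpr hi) hh
      · exact Polynomial.coeff_eq_zero_of_natDegree_lt (by omega)
    have hPX : aeval (RatFunc.X : RatFunc ℂ) P = 0 := by
      rw [Polynomial.aeval_eq_sum_range] at hp
      rw [hP, map_sum, ← hp]
      refine Finset.sum_congr rfl fun i _ => ?_
      rw [Polynomial.aeval_monomial, hκ, Algebra.smul_def]
      rfl
    exact RatFunc.transcendental_X ⟨P, hP0, hPX⟩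
  set g := RatFunc.Luroth.generator E with hg
  have hEg : E = IntermediateField.adjoin ℂ ({g} : Set (RatFunc ℂ)) :=
    RatFunc.Luroth.eq_adjoin_generator
  have hgC : ¬ ∃ c, g = RatFunc.C c := RatFunc.Luroth.generator_ne_C hEbot
  obtain ⟨ψ₁, ψ₂, hcop, hdeg, hadj⟩ := norm_gen g hgC
  rw [← hEg] at hadj
  set ψ := algebraMap ℂ[X] (RatFunc ℂ) ψ₁ / algebraMap ℂ[X] (RatFunc ℂ) ψ₂ with hψ
  have hψE : ψ ∈ E := hadj ▸ IntermediateField.mem_adjoin_simple_self ℂ ψ
  refine ⟨ψ₁, ψ₂, hcop, hdeg, (hmemE ψ).mp hψE, ?_, ?_⟩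
  · intro ν hν
    have hfix : ∀ y ∈ E, ν y = y := by
      intro y hy
      have hle : E ≤ IntermediateField.adjoin ℂ ({ψ} : Set (RatFunc ℂ)) := hadj.ge
      have hy' := hle hy
      clear hy
      induction hy' using IntermediateField.adjoin_induction with
      | mem z hz =>
        rw [Set.mem_singleton_iff] at hz
        rw [hz]; exact hν
      | algebraMap z => exact ν.commutes z
      | add a b _ _ ha hb => rw [map_add, ha, hb]
      | inv a _ ha => rw [map_inv₀, ha]
      | mul a b _ _ ha hb => rw [map_mul, ha, hb]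
    let ν' : RatFunc ℂ →ₐ[F0] RatFunc ℂ := { ν.toRingHom with
      commutes' := fun y => hfix y.1 y.2 }
    obtain ⟨k, hk⟩ := (FixedPoints.toAlgHom_bijective K (RatFunc ℂ)).surjective ν'
    refine ⟨k, fun f => ?_⟩
    have := DFunLike.congr_fun hk f
    exact this.symm
  · intro x hx
    set A : IntermediateField ℂ (RatFunc ℂ) :=
      IntermediateField.adjoin ℂ ({x, ψ} : Set (RatFunc ℂ)) with hA
    have hEA : E ≤ A := by
      rw [← hadj, IntermediateField.adjoin_simple_le_iff]
      exact IntermediateField.subset_adjoin ℂ _ (by simp)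
    have hxA : x ∈ A := IntermediateField.subset_adjoin ℂ _ (by simp)
    have : IsGalois F0 (RatFunc ℂ) := {}
    set B : IntermediateField F0 (RatFunc ℂ) :=
      IntermediateField.adjoin F0 ({x} : Set (RatFunc ℂ)) with hB
    have hBtop : B = ⊤ := by
      rw [← IsGalois.fixedField_fixingSubgroup B]
      have : B.fixingSubgroup = ⊥ := by
        rw [Subgroup.eq_bot_iff_forall]
        intro σ hσ
        obtain ⟨k, hk⟩ := (FixedPoints.toAlgAut_bijective K (RatFunc ℂ)).surjective σ
        have hσx : σ x = x := by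
          rw [IntermediateField.mem_fixingSubgroup_iff] at hσ
          exact hσ x (IntermediateField.mem_adjoin_simple_self F0 x)
        have hkx : ρ k x = x := by
          have := DFunLike.congr_fun hk x
          exact this.trans hσx
        have := hx k hkx
        rw [← hk, this, map_one]
      rw [this, IntermediateField.fixedField_bot]
    rw [eq_top_iff]
    intro y _
    have hy : y ∈ B := by rw [hBtop]; trivial
    induction hy using IntermediateField.adjoin_induction with
    | mem z hz => 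
      rw [Set.mem_singleton_iff] at hz
      rw [hz]; exact hxA
    | algebraMap z => exact hEA z.2
    | add a b _ _ ha hb => exact add_mem (ha trivial) (hb trivial)
    | inv a _ ha => exact inv_mem (ha trivial)
    | mul a b _ _ ha hb => exact mul_mem (ha trivial) (hb trivial)

end Pool.Agent.Helper881.Cen.Fixed
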