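import Mathlib

set_option autoImplicit false

namespace Pool.Agent.Helper881.Cen.Generic


open Polynomial

theorem j2683_alpha (R1 ψ : RatFunc ℂ) (hR : ¬ ∃ c, R1 = RatFunc.C c) (hψ : ψ ≠ 0)
    (hgen : IntermediateField.adjoin ℂ ({R1, ψ} : Set (RatFunc ℂ)) = ⊤) (n : ℕ) (hn : 2 ≤ n) :
    ∃ α : ℂ, α ≠ 0 ∧ (RatFunc.X : RatFunc ℂ) ∈ IntermediateField.adjoin ℂ
      ({R1, ψ ^ n + RatFunc.C α * ψ ^ (n - 1)} : Set (RatFunc ℂ)) := by
  have halg : Algebra.IsAlgebraic (IntermediateField.adjoin ℂ ({R1} : Set (RatFunc ℂ)))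
      (RatFunc ℂ) := RatFunc.isAlgebraic_adjoin_simple_X' R1 hR
  have hfin : Finite (IntermediateField (IntermediateField.adjoin ℂ ({R1} : Set (RatFunc ℂ)))
      (RatFunc ℂ)) :=
    Field.finite_intermediateField_of_exists_primitive_element _ _
      ⟨RatFunc.X, RatFunc.IntermediateField.adjoin_X _⟩
  have hinf : Infinite ({0}ᶜ : Set ℂ) := (Set.finite_singleton (0 : ℂ)).infinite_compl.to_subtype
  let g : ({0}ᶜ : Set ℂ) →
      IntermediateField (IntermediateField.adjoin ℂ ({R1} : Set (RatFunc ℂ))) (RatFunc ℂ) :=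
    fun α => IntermediateField.adjoin _ {ψ ^ n + RatFunc.C α.1 * ψ ^ (n - 1)}
  obtain ⟨a, b, hab, hg⟩ := Finite.exists_ne_map_eq_of_infinite g
  refine ⟨a.1, a.2, ?_⟩
  have hM : ∀ c : ({0}ᶜ : Set ℂ), (g c).restrictScalars ℂ = IntermediateField.adjoin ℂ
      ({R1, ψ ^ n + RatFunc.C c.1 * ψ ^ (n - 1)} : Set (RatFunc ℂ)) := fun c =>
    IntermediateField.adjoin_simple_adjoin_simple ℂ R1 _
  set M := IntermediateField.adjoin ℂ
      ({R1, ψ ^ n + RatFunc.C a.1 * ψ ^ (n - 1)} : Set (RatFunc ℂ)) with hMd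
  have hR1 : R1 ∈ M := IntermediateField.subset_adjoin _ _ (Set.mem_insert _ _)
  have hga : ψ ^ n + RatFunc.C a.1 * ψ ^ (n - 1) ∈ M :=
    IntermediateField.subset_adjoin _ _ (Set.mem_insert_of_mem _ (Set.mem_singleton _))
  have hgb : ψ ^ n + RatFunc.C b.1 * ψ ^ (n - 1) ∈ M := by
    rw [hMd, ← hM a, hg, hM b]
    exact IntermediateField.subset_adjoin _ _ (Set.mem_insert_of_mem _ (Set.mem_singleton _))
  have hC : ∀ c : ℂ, RatFunc.C c ∈ M := fun c => M.algebraMap_mem c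
  have hne : RatFunc.C (a.1 - b.1) ≠ (0 : RatFunc ℂ) := by
    rw [Ne, map_eq_zero, sub_eq_zero]
    intro h
    exact hab (Subtype.ext h)
  have h1 : ψ ^ (n - 1) ∈ M := by
    have h2 := M.div_mem (M.sub_mem hga hgb) (hC (a.1 - b.1))
    have h3 : (ψ ^ n + RatFunc.C a.1 * ψ ^ (n - 1) - (ψ ^ n + RatFunc.C b.1 * ψ ^ (n - 1))) /
        RatFunc.C (a.1 - b.1) = ψ ^ (n - 1) := by
      rw [div_eq_iff hne, map_sub]
      ring
    rwa [h3] at h2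
  have h2 : ψ ^ n ∈ M := by
    have h3 := M.sub_mem hga (M.mul_mem (hC a.1) h1)
    rwa [add_sub_cancel_right] at h3
  have h3 : ψ ∈ M := by
    have h4 := M.div_mem h2 h1
    have h5 : ψ ^ n / ψ ^ (n - 1) = ψ := by
      rw [div_eq_iff (pow_ne_zero _ hψ), ← pow_succ']
      congr 1
      omega
    rwa [h5] at h4
  have h4 : (⊤ : IntermediateField ℂ (RatFunc ℂ)) ≤ M := by
    rw [← hgen, IntermediateField.adjoin_le_iff]
    rintro x (rfl | rfl)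
    · exact hR1
    · exact h3
  exact h4 IntermediateField.mem_top

theorem j2683_clear {σ : Type*} (f : σ → RatFunc ℂ) (p : σ → ℂ[X]) (D : ℂ[X])
    (hf : ∀ i, f i * algebraMap ℂ[X] (RatFunc ℂ) D = algebraMap ℂ[X] (RatFunc ℂ) (p i))
    (H : MvPolynomial σ ℂ) :
    ∃ (N : ℕ) (P : ℂ[X]), algebraMap ℂ[X] (RatFunc ℂ) P =
      MvPolynomial.aeval f H * (algebraMap ℂ[X] (RatFunc ℂ) D) ^ N ∧
      ∀ z, D.eval z ≠ 0 → P.eval z =
        MvPolynomial.eval (fun i => (p i).eval z / D.eval z) H * (D.eval z) ^ N := by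
  induction H using MvPolynomial.induction_on with
  | C a =>
    refine ⟨0, C a, ?_, ?_⟩
    · rw [MvPolynomial.aeval_C, pow_zero, mul_one]
      rfl
    · intro z _
      rw [MvPolynomial.eval_C, pow_zero, mul_one, eval_C]
  | add H H' ih ih' =>
    obtain ⟨N, P, h1, h2⟩ := ih
    obtain ⟨N', P', h1', h2'⟩ := ih'
    refine ⟨N + N', P * D ^ N' + P' * D ^ N, ?_, ?_⟩
    · rw [map_add, map_mul, map_mul, map_pow, map_pow, h1, h1', map_add]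
      ring
    · intro z hz
      rw [eval_add, eval_mul, eval_mul, eval_pow, eval_pow, h2 z hz, h2' z hz, map_add]
      ring
  | mul_X H i ih =>
    obtain ⟨N, P, h1, h2⟩ := ih
    refine ⟨N + 1, P * p i, ?_, ?_⟩
    · rw [map_mul, map_mul, h1, MvPolynomial.aeval_X, ← hf i]
      ring
    · intro z hz
      rw [eval_mul, h2 z hz, map_mul, MvPolynomial.eval_X]
      field_simp
      ring

/-- separation of points by two generators -/
theorem j2683_sep (r₁ r₂ ψ₁ ψ₂ : ℂ[X]) (hr₂ : r₂ ≠ 0) (hψ₂ : ψ₂ ≠ 0) (α : ℂ) (n : ℕ) (hn : 2 ≤ n)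
    (hX : (RatFunc.X : RatFunc ℂ) ∈ IntermediateField.adjoin ℂ
      ({algebraMap ℂ[X] (RatFunc ℂ) r₁ / algebraMap ℂ[X] (RatFunc ℂ) r₂,
        (algebraMap ℂ[X] (RatFunc ℂ) ψ₁ / algebraMap ℂ[X] (RatFunc ℂ) ψ₂) ^ n +
        RatFunc.C α * (algebraMap ℂ[X] (RatFunc ℂ) ψ₁ / algebraMap ℂ[X] (RatFunc ℂ) ψ₂) ^ (n - 1)} :
        Set (RatFunc ℂ))) :
    ∃ P : ℂ[X], P ≠ 0 ∧ ∀ z w β : ℂ, P.eval z ≠ 0 → ψ₂.eval z ≠ 0 → ψ₂.eval w ≠ 0 →
      r₂.eval z ≠ 0 → r₂.eval w ≠ 0 →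
      (ψ₁ ^ n + C α * ψ₁ ^ (n - 1) * ψ₂ + C β * ψ₂ ^ n).eval z = 0 →
      (ψ₁ ^ n + C α * ψ₁ ^ (n - 1) * ψ₂ + C β * ψ₂ ^ n).eval w = 0 →
      r₁.eval z * r₂.eval w = r₁.eval w * r₂.eval z → z = w := by
  set R1 := algebraMap ℂ[X] (RatFunc ℂ) r₁ / algebraMap ℂ[X] (RatFunc ℂ) r₂ with hR1
  set ψ := algebraMap ℂ[X] (RatFunc ℂ) ψ₁ / algebraMap ℂ[X] (RatFunc ℂ) ψ₂ with hψ
  have hr₂' : algebraMap ℂ[X] (RatFunc ℂ) r₂ ≠ 0 := by
    rw [Ne, FaithfulSMul.algebraMap_eq_zero_iff]; exact hr₂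
  have hψ₂' : algebraMap ℂ[X] (RatFunc ℂ) ψ₂ ≠ 0 := by
    rw [Ne, FaithfulSMul.algebraMap_eq_zero_iff]; exact hψ₂
  have hrange : ({R1, ψ ^ n + RatFunc.C α * ψ ^ (n - 1)} : Set (RatFunc ℂ)) =
      Set.range (![R1, ψ ^ n + RatFunc.C α * ψ ^ (n - 1)] : Fin 2 → RatFunc ℂ) := by
    rw [Matrix.range_cons, Matrix.range_cons, Matrix.range_empty, Set.union_empty,
      Set.singleton_union]
  rw [hrange, IntermediateField.mem_adjoin_range_iff] at hX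
  obtain ⟨H₁, H₂, hH⟩ := hX
  set f : Fin 2 → RatFunc ℂ := ![R1, ψ ^ n + RatFunc.C α * ψ ^ (n - 1)] with hf
  set D : ℂ[X] := r₂ * ψ₂ ^ n with hD
  set p : Fin 2 → ℂ[X] := ![r₁ * ψ₂ ^ n, (ψ₁ ^ n + C α * ψ₁ ^ (n - 1) * ψ₂) * r₂] with hp
  have hfp : ∀ i, f i * algebraMap ℂ[X] (RatFunc ℂ) D = algebraMap ℂ[X] (RatFunc ℂ) (p i) := by
    intro i
    obtain ⟨m, rfl⟩ : ∃ m, n = m + 1 := ⟨n - 1, by omega⟩
    fin_cases i
    · change R1 * algebraMap ℂ[X] (RatFunc ℂ) D =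
        algebraMap ℂ[X] (RatFunc ℂ) (r₁ * ψ₂ ^ (m + 1))
      rw [hR1, hD, map_mul, map_mul]
      field_simp
    · change (ψ ^ (m + 1) + RatFunc.C α * ψ ^ (m + 1 - 1)) * algebraMap ℂ[X] (RatFunc ℂ) D =
        algebraMap ℂ[X] (RatFunc ℂ) ((ψ₁ ^ (m + 1) + C α * ψ₁ ^ (m + 1 - 1) * ψ₂) * r₂)
      have hCα : algebraMap ℂ[X] (RatFunc ℂ) (C α) = RatFunc.C α := rfl
      rw [hψ, hD, Nat.add_sub_cancel]
      simp only [map_mul, map_add, map_pow, hCα, div_pow]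
      field_simp
      ring
  obtain ⟨N₁, P₁, hP₁, hP₁'⟩ := j2683_clear f p D hfp H₁
  obtain ⟨N₂, P₂, hP₂, hP₂'⟩ := j2683_clear f p D hfp H₂
  have hX0 : (RatFunc.X : RatFunc ℂ) ≠ 0 := RatFunc.X_ne_zero
  have hH2 : MvPolynomial.aeval f H₂ ≠ 0 := by
    intro h
    rw [h, div_zero] at hH
    exact hX0 hH
  have hD0 : D ≠ 0 := mul_ne_zero hr₂ (pow_ne_zero _ hψ₂)
  have hD0' : algebraMap ℂ[X] (RatFunc ℂ) D ≠ 0 := by
    rw [Ne, FaithfulSMul.algebraMap_eq_zero_iff]; exact hD0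
  have hP₂0 : P₂ ≠ 0 := by
    rintro rfl
    rw [map_zero] at hP₂
    exact mul_ne_zero hH2 (pow_ne_zero _ hD0') hP₂.symm
  have hXX : algebraMap ℂ[X] (RatFunc ℂ) X = RatFunc.X := RatFunc.algebraMap_X
  have hkey : X * P₂ * D ^ N₁ = P₁ * D ^ N₂ := by
    apply FaithfulSMul.algebraMap_injective ℂ[X] (RatFunc ℂ)
    rw [map_mul, map_mul, map_mul, map_pow, map_pow, hP₁, hP₂, hXX, hH]
    field_simp
  refine ⟨P₂, hP₂0, ?_⟩
  intro z w β hPz hψz hψw hrz hrw hFz hFw hrr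
  have hDz : D.eval z ≠ 0 := by
    rw [hD, eval_mul, eval_pow]; exact mul_ne_zero hrz (pow_ne_zero _ hψz)
  have hDw : D.eval w ≠ 0 := by
    rw [hD, eval_mul, eval_pow]; exact mul_ne_zero hrw (pow_ne_zero _ hψw)
  have hvals : (fun i => (p i).eval w / D.eval w) = fun i => (p i).eval z / D.eval z := by
    have hp1 : ∀ y : ℂ, ψ₂.eval y ≠ 0 → r₂.eval y ≠ 0 →
        (ψ₁ ^ n + C α * ψ₁ ^ (n - 1) * ψ₂ + C β * ψ₂ ^ n).eval y = 0 →
        ((ψ₁ ^ n + C α * ψ₁ ^ (n - 1) * ψ₂) * r₂).eval y / D.eval y = -β := by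
      intro y hψy hry hFy
      rw [hD, eval_mul, eval_mul, eval_pow]
      rw [eval_add, eval_mul, eval_C, eval_pow] at hFy
      rw [div_eq_iff (mul_ne_zero hry (pow_ne_zero _ hψy))]
      linear_combination (eval y r₂) * hFy
    have hp0 : ∀ y : ℂ, ψ₂.eval y ≠ 0 → r₂.eval y ≠ 0 →
        (r₁ * ψ₂ ^ n).eval y / D.eval y = r₁.eval y / r₂.eval y := by
      intro y hψy hry
      rw [hD, eval_mul, eval_mul, eval_pow]
      field_simp
    funext i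
    fin_cases i
    · change (r₁ * ψ₂ ^ n).eval w / D.eval w = (r₁ * ψ₂ ^ n).eval z / D.eval z
      rw [hp0 w hψw hrw, hp0 z hψz hrz, div_eq_div_iff hrw hrz]
      exact hrr.symm
    · change ((ψ₁ ^ n + C α * ψ₁ ^ (n - 1) * ψ₂) * r₂).eval w / D.eval w =
        ((ψ₁ ^ n + C α * ψ₁ ^ (n - 1) * ψ₂) * r₂).eval z / D.eval z
      rw [hp1 w hψw hrw hFw, hp1 z hψz hrz hFz]
  set v := MvPolynomial.eval (fun i => (p i).eval z / D.eval z) H₂ with hv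
  set u := MvPolynomial.eval (fun i => (p i).eval z / D.eval z) H₁ with hu
  have hz1 := hP₁' z hDz
  have hz2 := hP₂' z hDz
  have hw1 := hP₁' w hDw
  have hw2 := hP₂' w hDw
  rw [hvals] at hw1 hw2
  rw [← hv] at hz2 hw2
  rw [← hu] at hz1 hw1
  have hv0 : v ≠ 0 := by
    intro h
    rw [h, zero_mul] at hz2
    exact hPz hz2
  have hkz := congrArg (Polynomial.eval z) hkey
  have hkw := congrArg (Polynomial.eval w) hkey
  simp only [eval_mul, eval_pow, eval_X] at hkz hkw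
  rw [hz1, hz2] at hkz
  rw [hw1, hw2] at hkw
  have hzz : z * v = u := by
    have hne : (D.eval z) ^ (N₁ + N₂) ≠ 0 := pow_ne_zero _ hDz
    apply mul_right_cancel₀ hne
    rw [pow_add]
    linear_combination hkz
  have hww : w * v = u := by
    have hne : (D.eval w) ^ (N₁ + N₂) ≠ 0 := pow_ne_zero _ hDw
    apply mul_right_cancel₀ hne
    rw [pow_add]
    linear_combination hkw
  exact mul_right_cancel₀ hv0 (hzz.trans hww.symm)

/-- (N) generic parameters. `ψ = ψ₁/ψ₂`, `R₁ = r₁/r₂` generate `ℂ(T)`, `ψ(∞) = ∞`. For suitable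
`α, β ≠ 0` the zeros `z` of `ψ^n + α ψ^(n-1) + β` avoid a given finite set, are not zeros or poles of
`ψ` nor zeros of `n ψ + (n-1) α`, and `R₁` takes distinct values on them. -/
theorem generic_params (ψ₁ ψ₂ r₁ r₂ : ℂ[X]) (hψ : IsCoprime ψ₁ ψ₂) (hr : IsCoprime r₁ r₂)
    (hdeg : ψ₂.natDegree < ψ₁.natDegree) (hrd : 1 ≤ max r₁.natDegree r₂.natDegree)
    (hgen : IntermediateField.adjoin ℂ
      ({algebraMap ℂ[X] (RatFunc ℂ) r₁ / algebraMap ℂ[X] (RatFunc ℂ) r₂,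
        algebraMap ℂ[X] (RatFunc ℂ) ψ₁ / algebraMap ℂ[X] (RatFunc ℂ) ψ₂} : Set (RatFunc ℂ)) = ⊤)
    (n : ℕ) (hn : 2 ≤ n) (B : Finset ℂ) :
    ∃ α β : ℂ, α ≠ 0 ∧ β ≠ 0 ∧
      (∀ z : ℂ, (ψ₁ ^ n + C α * ψ₁ ^ (n - 1) * ψ₂ + C β * ψ₂ ^ n).eval z = 0 →
        z ∉ B ∧ ψ₂.eval z ≠ 0 ∧ ψ₁.eval z ≠ 0 ∧ n * ψ₁.eval z + (n - 1) * α * ψ₂.eval z ≠ 0) ∧
      (∀ z w : ℂ, (ψ₁ ^ n + C α * ψ₁ ^ (n - 1) * ψ₂ + C β * ψ₂ ^ n).eval z = 0 →
        (ψ₁ ^ n + C α * ψ₁ ^ (n - 1) * ψ₂ + C β * ψ₂ ^ n).eval w = 0 →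
        r₁.eval z * r₂.eval w = r₁.eval w * r₂.eval z → z = w) := by
  classical
  have hψ₂ : ψ₂ ≠ 0 := by
    rintro rfl
    rw [isCoprime_zero_right] at hψ
    have := Polynomial.natDegree_eq_zero_of_isUnit hψ
    omega
  have hψ₁ : ψ₁ ≠ 0 := by
    rintro rfl
    rw [natDegree_zero] at hdeg
    omega
  have hr₂ : r₂ ≠ 0 := by
    rintro rfl
    rw [isCoprime_zero_right] at hr
    have := Polynomial.natDegree_eq_zero_of_isUnit hr
    rw [natDegree_zero, this] at hrd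
    simp at hrd
  have hr₂' : algebraMap ℂ[X] (RatFunc ℂ) r₂ ≠ 0 := by
    rw [Ne, FaithfulSMul.algebraMap_eq_zero_iff]; exact hr₂
  have hψ₂' : algebraMap ℂ[X] (RatFunc ℂ) ψ₂ ≠ 0 := by
    rw [Ne, FaithfulSMul.algebraMap_eq_zero_iff]; exact hψ₂
  have hψ₁' : algebraMap ℂ[X] (RatFunc ℂ) ψ₁ ≠ 0 := by
    rw [Ne, FaithfulSMul.algebraMap_eq_zero_iff]; exact hψ₁
  have hRC : ¬ ∃ c, algebraMap ℂ[X] (RatFunc ℂ) r₁ / algebraMap ℂ[X] (RatFunc ℂ) r₂ =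
      RatFunc.C c := by
    rintro ⟨c, hc⟩
    rw [div_eq_iff hr₂'] at hc
    have h1 : r₁ = C c * r₂ := by
      apply FaithfulSMul.algebraMap_injective ℂ[X] (RatFunc ℂ)
      rw [hc, map_mul]
      rfl
    have h2 : IsUnit r₂ := by
      apply hr.isUnit_of_dvd' _ dvd_rfl
      rw [h1]
      exact Dvd.intro_left _ rfl
    have h3 := Polynomial.natDegree_eq_zero_of_isUnit h2
    have h4 : r₁.natDegree ≤ r₂.natDegree := by
      rw [h1]
      exact Polynomial.natDegree_C_mul_le _ _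
    omega
  obtain ⟨α, hα, hX⟩ := j2683_alpha _ _ hRC (div_ne_zero hψ₁' hψ₂') hgen n hn
  obtain ⟨P, hP, hsep⟩ := j2683_sep r₁ r₂ ψ₁ ψ₂ hr₂ hψ₂ α n hn hX
  set Z : Finset ℂ := B ∪ ψ₁.roots.toFinset ∪ r₂.roots.toFinset ∪ P.roots.toFinset with hZ
  set t0 : ℂ := -((n - 1) * α) / n with ht0
  obtain ⟨β, hβ⟩ := Infinite.exists_notMem_finset
    (Z.image (fun z => -((ψ₁ ^ n + C α * ψ₁ ^ (n - 1) * ψ₂).eval z / (ψ₂.eval z) ^ n)) ∪
      {0, -(t0 ^ n + α * t0 ^ (n - 1))})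
  rw [Finset.mem_union, Finset.mem_insert, Finset.mem_singleton, Finset.mem_image] at hβ
  push Not at hβ
  obtain ⟨hβ1, hβ2, hβ3⟩ := hβ
  have hn0 : (n : ℂ) ≠ 0 := by
    have : n ≠ 0 := by omega
    exact_mod_cast this
  have hz2 : ∀ z : ℂ, (ψ₁ ^ n + C α * ψ₁ ^ (n - 1) * ψ₂ + C β * ψ₂ ^ n).eval z = 0 →
      ψ₂.eval z ≠ 0 := by
    intro z hz h0
    simp only [eval_add, eval_mul, eval_pow, eval_C, h0, mul_zero, add_zero] at hz
    rw [zero_pow (by omega), mul_zero, add_zero] at hz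
    have h1 : ψ₁.eval z = 0 := pow_eq_zero_iff (by omega) |>.1 hz
    obtain ⟨a, b, hab⟩ := hψ
    have := congrArg (Polynomial.eval z) hab
    rw [eval_add, eval_mul, eval_mul, h0, h1, mul_zero, mul_zero, add_zero, eval_one] at this
    exact zero_ne_one this
  have hzZ : ∀ z : ℂ, (ψ₁ ^ n + C α * ψ₁ ^ (n - 1) * ψ₂ + C β * ψ₂ ^ n).eval z = 0 →
      z ∉ Z := by
    intro z hz hzZ
    apply hβ1 z hzZ
    have h0 := hz2 z hz
    rw [eval_add, eval_mul (p := C β), eval_C, eval_pow (p := ψ₂)] at hz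
    rw [neg_eq_iff_eq_neg, div_eq_iff (pow_ne_zero _ h0)]
    linear_combination hz
  refine ⟨α, β, hα, hβ2, ?_, ?_⟩
  · intro z hz
    have h1 := hzZ z hz
    have h2 := hz2 z hz
    rw [hZ, Finset.mem_union, Finset.mem_union, Finset.mem_union, Multiset.mem_toFinset,
      Multiset.mem_toFinset, Multiset.mem_toFinset, mem_roots hψ₁, mem_roots hr₂,
      mem_roots hP] at h1
    push Not at h1
    refine ⟨h1.1.1.1, h2, h1.1.1.2, ?_⟩
    intro h3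
    apply hβ3
    have h4 : ψ₁.eval z = t0 * ψ₂.eval z := by
      rw [ht0]
      field_simp
      linear_combination h3
    obtain ⟨m, rfl⟩ : ∃ m, n = m + 1 := ⟨n - 1, by omega⟩
    simp only [eval_add, eval_mul, eval_pow, eval_C, h4, Nat.add_sub_cancel] at hz
    rw [Nat.add_sub_cancel]
    have h5 : (ψ₂.eval z) ^ (m + 1) ≠ 0 := pow_ne_zero _ h2
    clear_value t0
    apply mul_right_cancel₀ h5
    linear_combination hz
  · intro z w hz hw hrr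
    have h1 := hzZ z hz
    have h2 := hzZ w hw
    rw [hZ, Finset.mem_union, Finset.mem_union, Finset.mem_union, Multiset.mem_toFinset,
      Multiset.mem_toFinset, Multiset.mem_toFinset, mem_roots hψ₁, mem_roots hr₂,
      mem_roots hP] at h1 h2
    push Not at h1 h2
    exact hsep z w β h1.2 (hz2 z hz) (hz2 w hw) h1.1.2 h2.1.2 hz hw hrr

end Pool.Agent.Helper881.Cen.Generic
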