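import Mathlib
import Pool.Agent.Helper881.Cfd6
import Pool.Agent.Helper881.CenDefs

set_option autoImplicit false

namespace Pool.Agent.Helper881.Cen.Halley

open Pool.Agent.Helper881.Cfd


open Polynomial



theorem kh_div (D : Derivation ℂ (RatFunc ℂ) (RatFunc ℂ)) (x y : RatFunc ℂ) (hy : y ≠ 0) :
    D (x / y) = (D x * y - x * D y) / y ^ 2 := by
  rw [Derivation.leibniz_div]
  simp only [smul_eq_mul]
  field_simp

theorem kh_alg1 {K : Type*} [Field K] (a b c d R r L : K) (hδ : c * R + d ≠ 0) (hL : L ≠ 0)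
    (hM : L * (c * R + d) + 2 * c * r ≠ 0) :
    (a * R + b) / (c * R + d) + 2 * ((a * d - b * c) * r / (c * R + d) ^ 2) /
      ((L * (c * R + d) + 2 * c * r) / (c * R + d)) =
    (a * (R + 2 * r / L) + b) / (c * (R + 2 * r / L) + d) := by
  have h1 : c * (R + 2 * r / L) + d = (L * (c * R + d) + 2 * c * r) / L := by
    field_simp
    ring
  have h2 : a * (R + 2 * r / L) + b = (L * (a * R + b) + 2 * a * r) / L := by
    field_simp
    ring
  rw [h1, h2]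
  generalize hδ' : c * R + d = δ at *
  generalize hM' : L * δ + 2 * c * r = M at *
  have h3 : (L * (a * R + b) + 2 * a * r) / L / (M / L) = (L * (a * R + b) + 2 * a * r) / M := by
    field_simp
  rw [h3]
  have h4 : (a * R + b) / δ + 2 * ((a * d - b * c) * r / δ ^ 2) / (M / δ) =
      ((a * R + b) * M + 2 * (a * d - b * c) * r) / (δ * M) := by
    field_simp
  rw [h4, div_eq_div_iff (mul_ne_zero hδ hM) hM, ← hM', ← hδ']
  ring

/-- (K0) the derivation `d/dX`. -/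
theorem exists_ddx : ∃ D : Derivation ℂ (RatFunc ℂ) (RatFunc ℂ), D RatFunc.X = 1 := by
  obtain ⟨D, hD⟩ := Pool.Agent.Helper881.Cfd.exists_euler
  refine ⟨(RatFunc.X⁻¹ : RatFunc ℂ) • D, ?_⟩
  rw [Derivation.smul_apply, hD, smul_eq_mul, inv_mul_cancel₀ RatFunc.X_ne_zero]

/-- (K0') chain rule. -/
theorem chain_rule (D : Derivation ℂ (RatFunc ℂ) (RatFunc ℂ)) (hD : D RatFunc.X = 1)
    (σ : RatFunc ℂ →ₐ[ℂ] RatFunc ℂ) (g : RatFunc ℂ) : D (σ g) = D (σ RatFunc.X) * σ (D g) := by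
  have hLinj : Function.Injective σ := RingHom.injective σ.toRingHom
  have hp : ∀ p : ℂ[X], D (σ (algebraMap ℂ[X] (RatFunc ℂ) p)) =
      D (σ RatFunc.X) * σ (D (algebraMap ℂ[X] (RatFunc ℂ) p)) := by
    intro p
    rw [Pool.Agent.Helper881.Cfd.hom_poly, Derivation.map_aeval,
      ← RatFunc.aeval_X_left_eq_algebraMap p,
      Derivation.map_aeval, hD, smul_eq_mul, smul_eq_mul, mul_one,
      RatFunc.aeval_X_left_eq_algebraMap, Pool.Agent.Helper881.Cfd.hom_poly]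
    ring
  have h0 : algebraMap ℂ[X] (RatFunc ℂ) g.denom ≠ 0 :=
    RatFunc.algebraMap_ne_zero (RatFunc.denom_ne_zero g)
  have h2 : g * algebraMap ℂ[X] (RatFunc ℂ) g.denom = algebraMap ℂ[X] (RatFunc ℂ) g.num := by
    nth_rewrite 1 [← RatFunc.num_div_denom g]
    rw [div_mul_cancel₀ _ h0]
  have h1 := hp g.num
  rw [← h2, map_mul, Derivation.leibniz, Derivation.leibniz, hp] at h1
  simp only [smul_eq_mul, map_add, map_mul] at h1
  have h3 : σ (algebraMap ℂ[X] (RatFunc ℂ) g.denom) ≠ 0 := (map_ne_zero_iff σ hLinj).mpr h0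
  apply mul_left_cancel₀ h3
  linear_combination h1

/-- (K0'') constants of the derivation. -/
theorem const_of_deriv_zero (D : Derivation ℂ (RatFunc ℂ) (RatFunc ℂ)) (hD : D RatFunc.X = 1)
    (g : RatFunc ℂ) (hg : D g = 0) : ∃ c : ℂ, g = algebraMap ℂ (RatFunc ℂ) c := by
  have hp : ∀ p : ℂ[X], D (algebraMap ℂ[X] (RatFunc ℂ) p) =
      algebraMap ℂ[X] (RatFunc ℂ) (derivative p) := by
    intro p
    rw [← RatFunc.aeval_X_left_eq_algebraMap p, Derivation.map_aeval, hD, smul_eq_mul, mul_one,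
      RatFunc.aeval_X_left_eq_algebraMap]
  have h0 : algebraMap ℂ[X] (RatFunc ℂ) g.denom ≠ 0 :=
    RatFunc.algebraMap_ne_zero (RatFunc.denom_ne_zero g)
  have h2 : g * algebraMap ℂ[X] (RatFunc ℂ) g.denom = algebraMap ℂ[X] (RatFunc ℂ) g.num := by
    nth_rewrite 1 [← RatFunc.num_div_denom g]
    rw [div_mul_cancel₀ _ h0]
  have h3 := congrArg D h2
  rw [Derivation.leibniz, hg, smul_zero, add_zero, hp, hp, smul_eq_mul] at h3
  have h4 : g.num * derivative g.denom = derivative g.num * g.denom := by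
    apply RatFunc.algebraMap_injective ℂ
    rw [map_mul, map_mul, ← h2, ← h3]
    ring
  have h5 : g.denom ∣ derivative g.denom := by
    have hc := g.isCoprime_num_denom
    exact hc.symm.dvd_of_dvd_mul_left (Dvd.intro_left _ h4.symm)
  have h6 : derivative g.denom = 0 := by
    by_contra hne
    have hd := Polynomial.degree_le_of_dvd h5 hne
    have hlt := Polynomial.degree_derivative_lt (RatFunc.denom_ne_zero g)
    exact absurd hlt (not_lt.2 hd)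
  rw [h6, mul_zero] at h4
  have h7 : derivative g.num = 0 := by
    rcases mul_eq_zero.1 h4.symm with h | h
    · exact h
    · exact absurd h (RatFunc.denom_ne_zero g)
  have h8 := Polynomial.eq_C_of_natDegree_eq_zero (Polynomial.derivative_eq_zero.1 h6)
  have h9 := Polynomial.eq_C_of_natDegree_eq_zero (Polynomial.derivative_eq_zero.1 h7)
  refine ⟨g.num.coeff 0 / g.denom.coeff 0, ?_⟩
  have h10 := RatFunc.num_div_denom g
  rw [h8, h9] at h10
  refine h10.symm.trans ?_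
  rw [map_div₀, ← Polynomial.algebraMap_eq, ← IsScalarTower.algebraMap_apply,
    ← IsScalarTower.algebraMap_apply]

theorem kh_kap (D : Derivation ℂ (RatFunc ℂ) (RatFunc ℂ)) (hD : D RatFunc.X = 1)
    (σ : RatFunc ℂ →ₐ[ℂ] RatFunc ℂ) : D (σ RatFunc.X) ≠ 0 := by
  intro h
  obtain ⟨c, hc⟩ := const_of_deriv_zero D hD _ h
  have hinj : Function.Injective σ := RingHom.injective σ.toRingHom
  have h2 : σ RatFunc.X = σ (algebraMap ℂ (RatFunc ℂ) c) := by rw [hc, AlgHom.commutes]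
  have h3 := hinj h2
  rw [h3, Derivation.map_algebraMap] at hD
  exact zero_ne_one hD

theorem kh_delta (D : Derivation ℂ (RatFunc ℂ) (RatFunc ℂ)) (R₁ : RatFunc ℂ) (a b c d : ℂ)
    (hdet : a * d - b * c ≠ 0) (hDR : D R₁ ≠ 0) :
    algebraMap ℂ (RatFunc ℂ) c * R₁ + algebraMap ℂ (RatFunc ℂ) d ≠ 0 := by
  intro h
  have h1 := congrArg D h
  rw [map_add, Derivation.leibniz, Derivation.map_algebraMap, Derivation.map_algebraMap, smul_zero,
    add_zero, add_zero, map_zero, smul_eq_mul] at h1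
  have h2 : algebraMap ℂ (RatFunc ℂ) c = 0 := (mul_eq_zero.1 h1).resolve_right hDR
  rw [h2, zero_mul, zero_add] at h
  rw [map_eq_zero] at h h2
  apply hdet
  rw [h, h2]
  ring

/-- first derivative of a Moebius image -/
theorem kh_D1 (D : Derivation ℂ (RatFunc ℂ) (RatFunc ℂ)) (R : RatFunc ℂ) (a b c d : ℂ)
    (hδ : algebraMap ℂ (RatFunc ℂ) c * R + algebraMap ℂ (RatFunc ℂ) d ≠ 0) :
    D ((algebraMap ℂ (RatFunc ℂ) a * R + algebraMap ℂ (RatFunc ℂ) b) /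
      (algebraMap ℂ (RatFunc ℂ) c * R + algebraMap ℂ (RatFunc ℂ) d)) =
    (algebraMap ℂ (RatFunc ℂ) a * algebraMap ℂ (RatFunc ℂ) d -
      algebraMap ℂ (RatFunc ℂ) b * algebraMap ℂ (RatFunc ℂ) c) * D R /
      (algebraMap ℂ (RatFunc ℂ) c * R + algebraMap ℂ (RatFunc ℂ) d) ^ 2 := by
  rw [kh_div D _ _ hδ]
  congr 1
  simp only [map_add, Derivation.leibniz, Derivation.map_algebraMap, smul_zero, add_zero,
    smul_eq_mul]
  ring

/-- second derivative of a Moebius image -/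
theorem kh_D2 (D : Derivation ℂ (RatFunc ℂ) (RatFunc ℂ)) (R : RatFunc ℂ) (a b c d : ℂ)
    (hδ : algebraMap ℂ (RatFunc ℂ) c * R + algebraMap ℂ (RatFunc ℂ) d ≠ 0) :
    D (D ((algebraMap ℂ (RatFunc ℂ) a * R + algebraMap ℂ (RatFunc ℂ) b) /
      (algebraMap ℂ (RatFunc ℂ) c * R + algebraMap ℂ (RatFunc ℂ) d))) =
    (algebraMap ℂ (RatFunc ℂ) a * algebraMap ℂ (RatFunc ℂ) d -
      algebraMap ℂ (RatFunc ℂ) b * algebraMap ℂ (RatFunc ℂ) c) *
      (D (D R) * (algebraMap ℂ (RatFunc ℂ) c * R + algebraMap ℂ (RatFunc ℂ) d) -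
        2 * algebraMap ℂ (RatFunc ℂ) c * D R ^ 2) /
      (algebraMap ℂ (RatFunc ℂ) c * R + algebraMap ℂ (RatFunc ℂ) d) ^ 3 := by
  rw [kh_D1 D R a b c d hδ, kh_div D _ _ (pow_ne_zero 2 hδ), sq (algebraMap ℂ (RatFunc ℂ) c * R +
    algebraMap ℂ (RatFunc ℂ) d)]
  simp only [map_add, map_sub, Derivation.leibniz, Derivation.map_algebraMap, smul_zero, add_zero,
    smul_eq_mul, sub_zero, mul_zero]
  field_simp
  ring

/-- the transformation of the potential -/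
theorem kh_L (D : Derivation ℂ (RatFunc ℂ) (RatFunc ℂ)) (hD : D RatFunc.X = 1)
    (σ : RatFunc ℂ →ₐ[ℂ] RatFunc ℂ) (g : RatFunc ℂ) (hg : D g ≠ 0) :
    D (D (σ g)) / D (σ g) =
      D (σ RatFunc.X) * σ (D (D g) / D g) + D (D (σ RatFunc.X)) / D (σ RatFunc.X) := by
  have hinj : Function.Injective σ := RingHom.injective σ.toRingHom
  have hk := kh_kap D hD σ
  have h1 := chain_rule D hD σ g
  have h2 := chain_rule D hD σ (D g)
  have h3 : σ (D g) ≠ 0 := (map_ne_zero_iff σ hinj).mpr hg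
  rw [h1, Derivation.leibniz, h2, smul_eq_mul, smul_eq_mul, map_div₀]
  field_simp


/-- ratio of second and first derivatives of a Moebius image -/
theorem kh_ratio (D : Derivation ℂ (RatFunc ℂ) (RatFunc ℂ)) (R : RatFunc ℂ) (a b c d : ℂ)
    (hdet : a * d - b * c ≠ 0) (hDR : D R ≠ 0)
    (hδ : algebraMap ℂ (RatFunc ℂ) c * R + algebraMap ℂ (RatFunc ℂ) d ≠ 0) :
    D (D ((algebraMap ℂ (RatFunc ℂ) a * R + algebraMap ℂ (RatFunc ℂ) b) /
      (algebraMap ℂ (RatFunc ℂ) c * R + algebraMap ℂ (RatFunc ℂ) d))) /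
    D ((algebraMap ℂ (RatFunc ℂ) a * R + algebraMap ℂ (RatFunc ℂ) b) /
      (algebraMap ℂ (RatFunc ℂ) c * R + algebraMap ℂ (RatFunc ℂ) d)) =
    D (D R) / D R - 2 * algebraMap ℂ (RatFunc ℂ) c * D R /
      (algebraMap ℂ (RatFunc ℂ) c * R + algebraMap ℂ (RatFunc ℂ) d) := by
  have hdet' : algebraMap ℂ (RatFunc ℂ) a * algebraMap ℂ (RatFunc ℂ) d -
      algebraMap ℂ (RatFunc ℂ) b * algebraMap ℂ (RatFunc ℂ) c ≠ 0 := by
    rw [← map_mul, ← map_mul, ← map_sub, Ne, map_eq_zero]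
    exact hdet
  rw [kh_D2 D R a b c d hδ, kh_D1 D R a b c d hδ]
  generalize algebraMap ℂ (RatFunc ℂ) a * algebraMap ℂ (RatFunc ℂ) d -
      algebraMap ℂ (RatFunc ℂ) b * algebraMap ℂ (RatFunc ℂ) c = e at *
  generalize algebraMap ℂ (RatFunc ℂ) c * R + algebraMap ℂ (RatFunc ℂ) d = δ at *
  field_simp

/-- (K1) equivariance of the Halley map. -/
theorem halley_equivariant (D : Derivation ℂ (RatFunc ℂ) (RatFunc ℂ)) (hD : D RatFunc.X = 1)
    (σ : RatFunc ℂ →ₐ[ℂ] RatFunc ℂ) (f R₁ : RatFunc ℂ) (a b c d : ℂ) (hdet : a * d - b * c ≠ 0)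
    (hf : f ≠ 0) (hDf : D f ≠ 0) (hDR : D R₁ ≠ 0)
    (hL : D (D f) / D f - 2 * D f / f - D (D R₁) / D R₁ ≠ 0)
    (hσf : σ f = f)
    (hσR : σ R₁ = (algebraMap ℂ (RatFunc ℂ) a * R₁ + algebraMap ℂ (RatFunc ℂ) b) /
      (algebraMap ℂ (RatFunc ℂ) c * R₁ + algebraMap ℂ (RatFunc ℂ) d)) :
    σ (halley D f R₁) =
      (algebraMap ℂ (RatFunc ℂ) a * halley D f R₁ + algebraMap ℂ (RatFunc ℂ) b) /
      (algebraMap ℂ (RatFunc ℂ) c * halley D f R₁ + algebraMap ℂ (RatFunc ℂ) d) := by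
  have hinj : Function.Injective σ := RingHom.injective σ.toRingHom
  have hk := kh_kap D hD σ
  have hδ := kh_delta D R₁ a b c d hdet hDR
  have c1 := chain_rule D hD σ f
  have c2 := chain_rule D hD σ R₁
  have l1 := kh_L D hD σ f hDf
  have l2 := kh_L D hD σ R₁ hDR
  rw [hσf] at c1 l1
  have hr := kh_ratio D R₁ a b c d hdet hDR hδ
  have hd1 := kh_D1 D R₁ a b c d hδ
  rw [← hσR] at hr hd1
  set L := D (D f) / D f - 2 * D f / f - D (D R₁) / D R₁ with hLdef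
  set κ := D (σ RatFunc.X) with hκ
  -- the transformed `L`
  have hσL : σ L = (L * (algebraMap ℂ (RatFunc ℂ) c * R₁ + algebraMap ℂ (RatFunc ℂ) d) +
      2 * algebraMap ℂ (RatFunc ℂ) c * D R₁) /
      (algebraMap ℂ (RatFunc ℂ) c * R₁ + algebraMap ℂ (RatFunc ℂ) d) / κ := by
    have e1 : κ * σ L = L + 2 * algebraMap ℂ (RatFunc ℂ) c * D R₁ /
        (algebraMap ℂ (RatFunc ℂ) c * R₁ + algebraMap ℂ (RatFunc ℂ) d) := by
      have e2 : σ L = σ (D (D f) / D f) - 2 * (D f / κ) / f - σ (D (D R₁) / D R₁) := by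
        rw [hLdef, map_sub, map_sub, map_div₀ σ (2 * D f), map_mul, map_ofNat, hσf]
        congr 4
        rw [eq_div_iff hk, mul_comm]
        exact c1.symm
      have e3 : κ * (2 * (D f / κ) / f) = 2 * D f / f := by
        field_simp
      rw [e2, mul_sub, mul_sub, e3]
      rw [hr] at l2
      linear_combination l2 - l1 - hLdef
    field_simp at e1 ⊢
    linear_combination e1
  have hσL0 : σ L ≠ 0 := (map_ne_zero_iff σ hinj).mpr hL
  have hM : L * (algebraMap ℂ (RatFunc ℂ) c * R₁ + algebraMap ℂ (RatFunc ℂ) d) +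
      2 * algebraMap ℂ (RatFunc ℂ) c * D R₁ ≠ 0 := by
    intro h
    rw [h, zero_div, zero_div] at hσL
    exact hσL0 hσL
  have key := kh_alg1 (algebraMap ℂ (RatFunc ℂ) a) (algebraMap ℂ (RatFunc ℂ) b)
    (algebraMap ℂ (RatFunc ℂ) c) (algebraMap ℂ (RatFunc ℂ) d) R₁ (D R₁) L hδ hL hM
  have hhal : halley D f R₁ = R₁ + 2 * D R₁ / L := rfl
  rw [hhal, ← key, map_add, map_div₀, map_mul, map_ofNat, hσR, hσL]
  congr 1
  have e5 : σ (D R₁) = D (σ R₁) / κ := by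
    rw [c2]; field_simp
  rw [e5, hd1]
  generalize L * (algebraMap ℂ (RatFunc ℂ) c * R₁ + algebraMap ℂ (RatFunc ℂ) d) +
      2 * algebraMap ℂ (RatFunc ℂ) c * D R₁ = M at *
  generalize algebraMap ℂ (RatFunc ℂ) c * R₁ + algebraMap ℂ (RatFunc ℂ) d = δ at *
  field_simp

theorem kh_inv (D : Derivation ℂ (RatFunc ℂ) (RatFunc ℂ)) (f : RatFunc ℂ) (hf : f ≠ 0)
    (hDf : D f ≠ 0) : D (f⁻¹) ≠ 0 ∧ D (D (f⁻¹)) / D (f⁻¹) = D (D f) / D f - 2 * D f / f := by
  have h1 : D (f⁻¹) = (-D f) / f ^ 2 := by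
    rw [Derivation.leibniz_inv, smul_eq_mul]
    field_simp
  have hsq : D (f ^ 2) = 2 * f * D f := by
    rw [sq, Derivation.leibniz, smul_eq_mul]
    ring
  have h2 : D (D (f⁻¹)) = (-(D (D f)) * f + 2 * D f ^ 2) / f ^ 3 := by
    rw [h1, kh_div D _ _ (pow_ne_zero 2 hf), hsq, map_neg]
    field_simp
    ring
  constructor
  · rw [h1]
    exact div_ne_zero (neg_ne_zero.2 hDf) (pow_ne_zero 2 hf)
  · rw [h2, h1]
    field_simp
    ring

/-- (K2) converse: rigidity. -/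
theorem halley_rigid (D : Derivation ℂ (RatFunc ℂ) (RatFunc ℂ)) (hD : D RatFunc.X = 1)
    (ν : RatFunc ℂ →ₐ[ℂ] RatFunc ℂ) (f R₁ : RatFunc ℂ) (a b c d : ℂ) (hdet : a * d - b * c ≠ 0)
    (hf : f ≠ 0) (hDf : D f ≠ 0) (hDR : D R₁ ≠ 0)
    (hL : D (D f) / D f - 2 * D f / f - D (D R₁) / D R₁ ≠ 0)
    (hνR₁ : ν R₁ = (algebraMap ℂ (RatFunc ℂ) a * R₁ + algebraMap ℂ (RatFunc ℂ) b) /
      (algebraMap ℂ (RatFunc ℂ) c * R₁ + algebraMap ℂ (RatFunc ℂ) d))
    (hνR : ν (halley D f R₁) =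
      (algebraMap ℂ (RatFunc ℂ) a * halley D f R₁ + algebraMap ℂ (RatFunc ℂ) b) /
      (algebraMap ℂ (RatFunc ℂ) c * halley D f R₁ + algebraMap ℂ (RatFunc ℂ) d))
    (hcd : algebraMap ℂ (RatFunc ℂ) c * halley D f R₁ + algebraMap ℂ (RatFunc ℂ) d ≠ 0) :
    ∃ c' d' : ℂ, c' ≠ 0 ∧
      (ν f)⁻¹ = algebraMap ℂ (RatFunc ℂ) c' * f⁻¹ + algebraMap ℂ (RatFunc ℂ) d' := by
  have hinj : Function.Injective ν := RingHom.injective ν.toRingHom
  have hk := kh_kap D hD ν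
  have hδ := kh_delta D R₁ a b c d hdet hDR
  have c1 := chain_rule D hD ν f
  have c2 := chain_rule D hD ν R₁
  have l1 := kh_L D hD ν f hDf
  have l2 := kh_L D hD ν R₁ hDR
  have hr := kh_ratio D R₁ a b c d hdet hDR hδ
  have hd1 := kh_D1 D R₁ a b c d hδ
  rw [← hνR₁] at hr hd1
  have hνf : ν f ≠ 0 := (map_ne_zero_iff ν hinj).mpr hf
  have hνDf : ν (D f) ≠ 0 := (map_ne_zero_iff ν hinj).mpr hDf
  have hDνf : D (ν f) ≠ 0 := by
    rw [c1]; exact mul_ne_zero hk hνDf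
  have hdet' : algebraMap ℂ (RatFunc ℂ) a * algebraMap ℂ (RatFunc ℂ) d -
      algebraMap ℂ (RatFunc ℂ) b * algebraMap ℂ (RatFunc ℂ) c ≠ 0 := by
    rw [← map_mul, ← map_mul, ← map_sub, Ne, map_eq_zero]
    exact hdet
  set L := D (D f) / D f - 2 * D f / f - D (D R₁) / D R₁ with hLdef
  set κ := D (ν RatFunc.X) with hκ
  have hhal : halley D f R₁ = R₁ + 2 * D R₁ / L := rfl
  have hνL0 : ν L ≠ 0 := (map_ne_zero_iff ν hinj).mpr hL
  -- the value of `κ * ν L`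
  have e0 : κ * ν L = D (D (ν f)) / D (ν f) - 2 * D (ν f) / ν f - D (D (ν R₁)) / D (ν R₁) := by
    have e2 : ν L = ν (D (D f) / D f) - 2 * (D (ν f) / κ) / ν f - ν (D (D R₁) / D R₁) := by
      rw [hLdef, map_sub, map_sub, map_div₀ ν (2 * D f), map_mul, map_ofNat]
      congr 4
      rw [c1]
      field_simp
    have e3 : κ * (2 * (D (ν f) / κ) / ν f) = 2 * D (ν f) / ν f := by
      field_simp
    rw [e2, mul_sub, mul_sub, e3]
    linear_combination l2 - l1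
  have hM : L * (algebraMap ℂ (RatFunc ℂ) c * R₁ + algebraMap ℂ (RatFunc ℂ) d) +
      2 * algebraMap ℂ (RatFunc ℂ) c * D R₁ ≠ 0 := by
    intro h
    apply hcd
    rw [hhal]
    have : algebraMap ℂ (RatFunc ℂ) c * (R₁ + 2 * D R₁ / L) + algebraMap ℂ (RatFunc ℂ) d =
        (L * (algebraMap ℂ (RatFunc ℂ) c * R₁ + algebraMap ℂ (RatFunc ℂ) d) +
        2 * algebraMap ℂ (RatFunc ℂ) c * D R₁) / L := by
      field_simp
      ring
    rw [this, h, zero_div]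
  have key := kh_alg1 (algebraMap ℂ (RatFunc ℂ) a) (algebraMap ℂ (RatFunc ℂ) b)
    (algebraMap ℂ (RatFunc ℂ) c) (algebraMap ℂ (RatFunc ℂ) d) R₁ (D R₁) L hδ hL hM
  have e5 : ν (D R₁) = D (ν R₁) / κ := by
    rw [c2]; field_simp
  rw [hhal, ← key, map_add, map_div₀, map_mul, map_ofNat, e5, hd1, hνR₁] at hνR
  have e6 := add_left_cancel hνR
  have e7 : κ * ν L = (L * (algebraMap ℂ (RatFunc ℂ) c * R₁ + algebraMap ℂ (RatFunc ℂ) d) +
      2 * algebraMap ℂ (RatFunc ℂ) c * D R₁) /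
      (algebraMap ℂ (RatFunc ℂ) c * R₁ + algebraMap ℂ (RatFunc ℂ) d) := by
    have hn : 2 * ((algebraMap ℂ (RatFunc ℂ) a * algebraMap ℂ (RatFunc ℂ) d -
        algebraMap ℂ (RatFunc ℂ) b * algebraMap ℂ (RatFunc ℂ) c) * D R₁ /
        (algebraMap ℂ (RatFunc ℂ) c * R₁ + algebraMap ℂ (RatFunc ℂ) d) ^ 2) ≠ 0 :=
      mul_ne_zero two_ne_zero (div_ne_zero (mul_ne_zero hdet' hDR) (pow_ne_zero 2 hδ))
    generalize (algebraMap ℂ (RatFunc ℂ) a * algebraMap ℂ (RatFunc ℂ) d -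
        algebraMap ℂ (RatFunc ℂ) b * algebraMap ℂ (RatFunc ℂ) c) * D R₁ /
        (algebraMap ℂ (RatFunc ℂ) c * R₁ + algebraMap ℂ (RatFunc ℂ) d) ^ 2 = w at e6 hn
    have hMδ := div_ne_zero hM hδ
    generalize (L * (algebraMap ℂ (RatFunc ℂ) c * R₁ + algebraMap ℂ (RatFunc ℂ) d) +
      2 * algebraMap ℂ (RatFunc ℂ) c * D R₁) /
      (algebraMap ℂ (RatFunc ℂ) c * R₁ + algebraMap ℂ (RatFunc ℂ) d) = q at e6 hMδ ⊢
    have e8 : 2 * (w / κ) / ν L = 2 * w / (κ * ν L) := by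
      field_simp
    rw [e8, div_eq_div_iff (mul_ne_zero hk hνL0) hMδ] at e6
    exact (mul_left_cancel₀ hn e6).symm
  obtain ⟨i1, i2⟩ := kh_inv D f hf hDf
  obtain ⟨j1, j2⟩ := kh_inv D (ν f) hνf hDνf
  have e9 : D (D ((ν f)⁻¹)) / D ((ν f)⁻¹) = D (D (f⁻¹)) / D (f⁻¹) := by
    rw [i2, j2]
    have e10 : (L * (algebraMap ℂ (RatFunc ℂ) c * R₁ + algebraMap ℂ (RatFunc ℂ) d) +
      2 * algebraMap ℂ (RatFunc ℂ) c * D R₁) /
      (algebraMap ℂ (RatFunc ℂ) c * R₁ + algebraMap ℂ (RatFunc ℂ) d) =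
      L + 2 * algebraMap ℂ (RatFunc ℂ) c * D R₁ /
      (algebraMap ℂ (RatFunc ℂ) c * R₁ + algebraMap ℂ (RatFunc ℂ) d) := by
      field_simp
    rw [e10] at e7
    linear_combination e7 - e0 + hr + hLdef
  have e11 : D (D ((ν f)⁻¹) / D (f⁻¹)) = 0 := by
    rw [kh_div D _ _ i1]
    rw [div_eq_div_iff j1 i1] at e9
    rw [e9]
    ring
  obtain ⟨c', hc'⟩ := const_of_deriv_zero D hD _ e11
  have e12 : D ((ν f)⁻¹) = algebraMap ℂ (RatFunc ℂ) c' * D (f⁻¹) := (div_eq_iff i1).1 hc'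
  have e13 : D ((ν f)⁻¹ - algebraMap ℂ (RatFunc ℂ) c' * f⁻¹) = 0 := by
    rw [map_sub, Derivation.leibniz, Derivation.map_algebraMap, e12, smul_eq_mul, smul_zero,
      add_zero, sub_self]
  obtain ⟨d', hd'⟩ := const_of_deriv_zero D hD _ e13
  refine ⟨c', d', ?_, by rw [← hd']; ring⟩
  rintro rfl
  rw [map_zero, zero_mul] at e12
  exact j1 e12

end Pool.Agent.Helper881.Cen.Halley
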