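import Mathlib
import Pool.Agent.Helper881.Cfd6

set_option autoImplicit false

namespace Pool.Agent.Helper881.Cen.Pgl


open Polynomial

namespace PGLaux

open Pool.Agent.Helper881.Cfd

noncomputable section

/-- the constants -/
abbrev κ (c : ℂ) : RatFunc ℂ := algebraMap ℂ (RatFunc ℂ) c

/-- Moebius transform of `X` -/
def mob (a b c d : ℂ) : RatFunc ℂ := (κ a * RatFunc.X + κ b) / (κ c * RatFunc.X + κ d)

lemma lin_eq (c d : ℂ) : κ c * RatFunc.X + κ d =
    algebraMap ℂ[X] (RatFunc ℂ) (Polynomial.C c * Polynomial.X + Polynomial.C d) := by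
  simp [κ, RatFunc.algebraMap_C, RatFunc.algebraMap_X, RatFunc.algebraMap_eq_C]

lemma lin_inj {a b c d : ℂ} (h : κ a * RatFunc.X + κ b = κ c * RatFunc.X + κ d) :
    a = c ∧ b = d := by
  rw [lin_eq, lin_eq] at h
  have h' := RatFunc.algebraMap_injective ℂ h
  constructor
  · have := congrArg (fun p => p.coeff 1) h'
    simpa using this
  · have := congrArg (fun p => p.coeff 0) h'
    simpa using this

lemma lin_ne {c d : ℂ} (h : c ≠ 0 ∨ d ≠ 0) : κ c * RatFunc.X + κ d ≠ 0 := by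
  intro h0
  have h1 : κ c * RatFunc.X + κ d = κ 0 * RatFunc.X + κ 0 := by rw [h0]; simp
  have := lin_inj h1
  rcases h with h | h
  · exact h this.1
  · exact h this.2

lemma cd_ne {a b c d : ℂ} (h : a * d - b * c ≠ 0) : c ≠ 0 ∨ d ≠ 0 := by
  by_contra hc
  push Not at hc
  apply h
  rw [hc.1, hc.2]; ring

lemma mob_trans {a b c d : ℂ} (h : a * d - b * c ≠ 0) : Transcendental ℂ (mob a b c d) := by
  apply RatFunc.transcendental_of_ne_C
  rintro ⟨k, hk⟩
  unfold mob at hk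
  rw [div_eq_iff (lin_ne (cd_ne h))] at hk
  have h1 : κ a * RatFunc.X + κ b = κ (k * c) * RatFunc.X + κ (k * d) := by
    rw [hk]
    have : RatFunc.C k = κ k := rfl
    rw [this]
    simp only [κ, map_mul]
    ring
  obtain ⟨h2, h3⟩ := lin_inj h1
  apply h
  rw [h2, h3]; ring

lemma map_mob {K : Type} [Field K] [Algebra ℂ K] (f : RatFunc ℂ →ₐ[ℂ] K) (a b c d : ℂ) :
    f (mob a b c d) = (algebraMap ℂ K a * f RatFunc.X + algebraMap ℂ K b) /
      (algebraMap ℂ K c * f RatFunc.X + algebraMap ℂ K d) := by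
  unfold mob κ
  simp only [map_div₀, map_add, map_mul, AlgHom.commutes]

lemma comp_mob {a b c d a' b' c' d' : ℂ} (h : a * d - b * c ≠ 0) :
    (κ a' * mob a b c d + κ b') / (κ c' * mob a b c d + κ d') =
      mob (a' * a + b' * c) (a' * b + b' * d) (c' * a + d' * c) (c' * b + d' * d) := by
  have hD := lin_ne (cd_ne h)
  unfold mob
  have e1 : κ a' * ((κ a * RatFunc.X + κ b) / (κ c * RatFunc.X + κ d)) + κ b' =
      (κ (a' * a + b' * c) * RatFunc.X + κ (a' * b + b' * d)) / (κ c * RatFunc.X + κ d) := by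
    rw [eq_div_iff hD, add_mul, mul_assoc, div_mul_cancel₀ _ hD]
    simp only [κ, map_add, map_mul]
    ring
  have e2 : κ c' * ((κ a * RatFunc.X + κ b) / (κ c * RatFunc.X + κ d)) + κ d' =
      (κ (c' * a + d' * c) * RatFunc.X + κ (c' * b + d' * d)) / (κ c * RatFunc.X + κ d) := by
    rw [eq_div_iff hD, add_mul, mul_assoc, div_mul_cancel₀ _ hD]
    simp only [κ, map_add, map_mul]
    ring
  rw [e1, e2, div_div_div_cancel_right₀ hD]

lemma mob_scalar {k : ℂ} (hk : k ≠ 0) : mob k 0 0 k = RatFunc.X := by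
  unfold mob κ
  have : algebraMap ℂ (RatFunc ℂ) k ≠ 0 := by
    rw [Ne, FaithfulSMul.algebraMap_eq_zero_iff]; exact hk
  rw [map_zero, zero_mul, add_zero, zero_add, mul_div_cancel_left₀ _ this]

end

end PGLaux

open PGLaux Pool.Agent.Helper881.Cfd in
/-- (B1) automorphisms of `ℂ(X)` are Moebius substitutions. -/
theorem aut_moebius (σ : RatFunc ℂ ≃ₐ[ℂ] RatFunc ℂ) :
    ∃ a b c d : ℂ, a * d - b * c ≠ 0 ∧
      algebraMap ℂ (RatFunc ℂ) c * RatFunc.X + algebraMap ℂ (RatFunc ℂ) d ≠ 0 ∧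
      σ RatFunc.X = (algebraMap ℂ (RatFunc ℂ) a * RatFunc.X + algebraMap ℂ (RatFunc ℂ) b) /
        (algebraMap ℂ (RatFunc ℂ) c * RatFunc.X + algebraMap ℂ (RatFunc ℂ) d) := by
  set f := σ RatFunc.X with hf
  have hE : IntermediateField.adjoin ℂ ({f} : Set (RatFunc ℂ)) = ⊤ := by
    have h1 := IntermediateField.adjoin_map ℂ ({RatFunc.X} : Set (RatFunc ℂ)) σ.toAlgHom
    rw [RatFunc.adjoin_X, Set.image_singleton] at h1
    have h2 : (σ.toAlgHom) RatFunc.X = f := rfl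
    rw [h2] at h1
    rw [← h1, ← AlgHom.fieldRange_eq_map]
    exact AlgHom.fieldRange_eq_top.mpr σ.surjective
  have hdeg := RatFunc.finrank_eq_max_natDegree f
  rw [hE, IntermediateField.finrank_top] at hdeg
  have hn : f.num.natDegree ≤ 1 := by rw [hdeg]; exact le_max_left _ _
  have hd : f.denom.natDegree ≤ 1 := by rw [hdeg]; exact le_max_right _ _
  obtain ⟨a, b, hab⟩ := Polynomial.exists_eq_X_add_C_of_natDegree_le_one hn
  obtain ⟨c, d, hcd⟩ := Polynomial.exists_eq_X_add_C_of_natDegree_le_one hd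
  have hN : κ a * RatFunc.X + κ b = algebraMap ℂ[X] (RatFunc ℂ) f.num := by rw [lin_eq, hab]
  have hD : κ c * RatFunc.X + κ d = algebraMap ℂ[X] (RatFunc ℂ) f.denom := by rw [lin_eq, hcd]
  have hD0 : κ c * RatFunc.X + κ d ≠ 0 := by
    rw [hD]; exact RatFunc.algebraMap_ne_zero f.denom_ne_zero
  have hfe : f = (κ a * RatFunc.X + κ b) / (κ c * RatFunc.X + κ d) := by
    rw [hN, hD, RatFunc.num_div_denom]
  refine ⟨a, b, c, d, ?_, hD0, hfe⟩
  intro h0
  -- then `f` is constant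
  have hconst : ∃ k : ℂ, f = κ k := by
    by_cases hc : c = 0
    · have hd' : d ≠ 0 := by
        rintro rfl
        apply hD0
        rw [hc]; simp [κ]
      refine ⟨b / d, ?_⟩
      rw [hfe, div_eq_iff hD0]
      have ha : a = 0 := by
        rw [hc, mul_zero, sub_zero] at h0
        exact (mul_eq_zero.mp h0).resolve_right hd'
      rw [ha, hc]
      have : κ b = κ (b / d) * κ d := by
        rw [κ, κ, κ, ← map_mul, div_mul_cancel₀ _ hd']
      rw [this]
      simp [κ]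
    · refine ⟨a / c, ?_⟩
      rw [hfe, div_eq_iff hD0]
      have h1 : κ a = κ (a / c) * κ c := by
        rw [κ, κ, κ, ← map_mul, div_mul_cancel₀ _ hc]
      have h2 : κ b = κ (a / c) * κ d := by
        rw [κ, κ, κ, ← map_mul]
        congr 1
        field_simp
        linear_combination (-1 : ℂ) * h0
      rw [h1, h2]; ring
  obtain ⟨k, hk⟩ := hconst
  have h3 : RatFunc.X = κ k := by
    apply σ.injective
    rw [← hf, hk, κ, σ.commutes]
  have h4 : κ 1 * RatFunc.X + κ 0 = κ 0 * RatFunc.X + κ k := by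
    rw [← h3]; simp [κ]
  exact one_ne_zero (lin_inj h4).1

open PGLaux Pool.Agent.Helper881.Cfd in
/-- (B2) converse: every Moebius substitution is an automorphism. -/
theorem moebius_aut (a b c d : ℂ) (h : a * d - b * c ≠ 0) :
    ∃ σ : RatFunc ℂ ≃ₐ[ℂ] RatFunc ℂ,
      σ RatFunc.X = (algebraMap ℂ (RatFunc ℂ) a * RatFunc.X + algebraMap ℂ (RatFunc ℂ) b) /
        (algebraMap ℂ (RatFunc ℂ) c * RatFunc.X + algebraMap ℂ (RatFunc ℂ) d) := by
  have h' : d * a - (-b) * (-c) ≠ 0 := by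
    intro h0; apply h; linear_combination h0
  obtain ⟨φ, hφ⟩ := exists_subst (mob a b c d) (mob_trans h)
  obtain ⟨ψ, hψ⟩ := exists_subst (mob d (-b) (-c) a) (mob_trans h')
  refine ⟨AlgEquiv.ofAlgHom φ ψ ?_ ?_, ?_⟩
  · apply hom_ext
    rw [AlgHom.comp_apply, hψ, map_mob, hφ, AlgHom.id_apply]
    have := comp_mob (a' := d) (b' := -b) (c' := -c) (d' := a) h
    rw [κ, κ, κ, κ] at this
    rw [this]
    have e : mob (d * a + -b * c) (d * b + -b * d) (-c * a + a * c) (-c * b + a * d) =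
        mob (a * d - b * c) 0 0 (a * d - b * c) := by
      congr 1 <;> ring
    rw [e, mob_scalar h]
  · apply hom_ext
    rw [AlgHom.comp_apply, hφ, map_mob, hψ, AlgHom.id_apply]
    have := comp_mob (a' := a) (b' := b) (c' := c) (d' := d) h'
    rw [κ, κ, κ, κ] at this
    rw [this]
    have e : mob (a * d + b * -c) (a * -b + b * a) (c * d + d * -c) (c * -b + d * a) =
        mob (a * d - b * c) 0 0 (a * d - b * c) := by
      congr 1 <;> ring
    rw [e, mob_scalar h]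
  · exact hφ

namespace PGLaux

noncomputable section

lemma equiv_ext {σ τ : RatFunc ℂ ≃ₐ[ℂ] RatFunc ℂ} (h : σ RatFunc.X = τ RatFunc.X) : σ = τ := by
  have := Pool.Agent.Helper881.Cfd.hom_ext (σ : RatFunc ℂ →ₐ[ℂ] RatFunc ℂ)
    (τ : RatFunc ℂ →ₐ[ℂ] RatFunc ℂ) h
  apply AlgEquiv.ext
  intro x
  exact DFunLike.congr_fun this x

/-- Moebius transform of a matrix -/
def mm (g : Matrix (Fin 2) (Fin 2) ℂ) : RatFunc ℂ := mob (g 0 0) (g 0 1) (g 1 0) (g 1 1)

lemma det_ne (g : GL (Fin 2) ℂ) : (g : Matrix (Fin 2) (Fin 2) ℂ) 0 0 *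
    (g : Matrix (Fin 2) (Fin 2) ℂ) 1 1 - (g : Matrix (Fin 2) (Fin 2) ℂ) 0 1 *
    (g : Matrix (Fin 2) (Fin 2) ℂ) 1 0 ≠ 0 := by
  rw [← Matrix.det_fin_two]
  exact g.det_ne_zero

/-- the automorphism -/
def sig (g : GL (Fin 2) ℂ) : RatFunc ℂ ≃ₐ[ℂ] RatFunc ℂ :=
  (moebius_aut _ _ _ _ (det_ne g)).choose

lemma sig_X (g : GL (Fin 2) ℂ) : sig g RatFunc.X = mm g :=
  (moebius_aut _ _ _ _ (det_ne g)).choose_spec

lemma sig_mul (g h : GL (Fin 2) ℂ) : sig g * sig h = sig (h * g) := by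
  apply equiv_ext
  rw [AlgEquiv.mul_apply, sig_X, sig_X]
  have h1 := map_mob (sig g : RatFunc ℂ →ₐ[ℂ] RatFunc ℂ) ((h : Matrix (Fin 2) (Fin 2) ℂ) 0 0)
    ((h : Matrix (Fin 2) (Fin 2) ℂ) 0 1) ((h : Matrix (Fin 2) (Fin 2) ℂ) 1 0)
    ((h : Matrix (Fin 2) (Fin 2) ℂ) 1 1)
  have h2 : (sig g : RatFunc ℂ →ₐ[ℂ] RatFunc ℂ) RatFunc.X = mm g := sig_X g
  rw [h2] at h1
  have h3 : sig g (mm h) = (sig g : RatFunc ℂ →ₐ[ℂ] RatFunc ℂ) (mm h) := rfl
  rw [h3]
  unfold mm at h1 ⊢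
  rw [h1]
  have h4 := comp_mob (a' := (h : Matrix (Fin 2) (Fin 2) ℂ) 0 0)
    (b' := (h : Matrix (Fin 2) (Fin 2) ℂ) 0 1) (c' := (h : Matrix (Fin 2) (Fin 2) ℂ) 1 0)
    (d' := (h : Matrix (Fin 2) (Fin 2) ℂ) 1 1) (det_ne g)
  rw [κ, κ, κ, κ] at h4
  rw [h4]
  simp [Matrix.mul_apply, Fin.sum_univ_two]

lemma sig_one : sig 1 = 1 := by
  apply equiv_ext
  rw [sig_X, AlgEquiv.one_apply]
  have : mm (1 : GL (Fin 2) ℂ) = mob 1 0 0 1 := by
    unfold mm
    simp
  rw [this, mob_scalar one_ne_zero]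

/-- the homomorphism -/
def Φ : GL (Fin 2) ℂ →* (RatFunc ℂ ≃ₐ[ℂ] RatFunc ℂ) where
  toFun g := sig g⁻¹
  map_one' := by rw [inv_one, sig_one]
  map_mul' g h := by rw [sig_mul, mul_inv_rev]

lemma sig_eq_one_iff (g : GL (Fin 2) ℂ) : sig g = 1 ↔ g ∈ Subgroup.center (GL (Fin 2) ℂ) := by
  rw [Matrix.GeneralLinearGroup.center_eq_range_scalar]
  constructor
  · intro h
    have h1 := congrArg (fun σ : RatFunc ℂ ≃ₐ[ℂ] RatFunc ℂ => σ RatFunc.X) h
    simp only [sig_X, AlgEquiv.one_apply] at h1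
    have hdet := det_ne g
    unfold mm mob at h1
    rw [div_eq_iff (lin_ne (cd_ne hdet))] at h1
    set a := (g : Matrix (Fin 2) (Fin 2) ℂ) 0 0 with ha
    set b := (g : Matrix (Fin 2) (Fin 2) ℂ) 0 1 with hb
    set c := (g : Matrix (Fin 2) (Fin 2) ℂ) 1 0 with hc
    set d := (g : Matrix (Fin 2) (Fin 2) ℂ) 1 1 with hd
    have h2 : algebraMap ℂ[X] (RatFunc ℂ) (C a * X + C b) =
        algebraMap ℂ[X] (RatFunc ℂ) (X * (C c * X + C d)) := by
      rw [map_mul, ← lin_eq, ← lin_eq, RatFunc.algebraMap_X]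
      exact h1
    have h3 := RatFunc.algebraMap_injective ℂ h2
    have e0 : b = 0 := by
      have := congrArg (fun p => p.coeff 0) h3
      simpa using this
    have e1 : a = d := by
      have := congrArg (fun p => p.coeff 1) h3
      simpa [mul_add, coeff_X_mul] using this
    have e2 : c = 0 := by
      have := congrArg (fun p => p.coeff 2) h3
      simpa [mul_add, coeff_X_mul, coeff_C, coeff_X] using this.symm
    have hd0 : d ≠ 0 := by
      intro hd0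
      apply hdet
      rw [e0, e1, hd0]; ring
    refine ⟨Units.mk0 d hd0, ?_⟩
    ext i j
    fin_cases i <;> fin_cases j
    · simp [← ha, e1]
    · simp [← hb, e0]
    · simp [← hc, e2]
    · simp [← hd]
  · rintro ⟨u, rfl⟩
    apply equiv_ext
    rw [sig_X, AlgEquiv.one_apply]
    have : mm (Matrix.GeneralLinearGroup.scalar (Fin 2) u : GL (Fin 2) ℂ) =
        mob (u : ℂ) 0 0 (u : ℂ) := by
      unfold mm
      simp
    rw [this, mob_scalar u.ne_zero]

lemma ker_Φ : Φ.ker = Subgroup.center (GL (Fin 2) ℂ) := by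
  ext g
  rw [MonoidHom.mem_ker]
  show sig g⁻¹ = 1 ↔ _
  rw [sig_eq_one_iff, inv_mem_iff]

lemma surj_Φ : Function.Surjective Φ := by
  intro σ
  obtain ⟨a, b, c, d, h, -, hσ⟩ := aut_moebius σ
  have hdet : (!![a, b; c, d] : Matrix (Fin 2) (Fin 2) ℂ).det ≠ 0 := by
    rw [Matrix.det_fin_two_of]; exact h
  refine ⟨(Matrix.GeneralLinearGroup.mkOfDetNeZero _ hdet)⁻¹, ?_⟩
  show sig _ = σ
  apply equiv_ext
  rw [inv_inv, sig_X, hσ]
  rfl

end

end PGLaux

/-- (B3) `PGL₂(ℂ)` is the automorphism group of `ℂ(X)`. -/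
theorem pgl_equiv :
    Nonempty (Matrix.ProjGenLinGroup (Fin 2) ℂ ≃* (RatFunc ℂ ≃ₐ[ℂ] RatFunc ℂ)) :=
  ⟨(QuotientGroup.quotientMulEquivOfEq PGLaux.ker_Φ.symm).trans
    (QuotientGroup.quotientKerEquivOfSurjective PGLaux.Φ PGLaux.surj_Φ)⟩

end Pool.Agent.Helper881.Cen.Pgl
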