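import Mathlib
import Pool.Agent.Helper881.Cfd6

set_option autoImplicit false

namespace Pool.Agent.Helper881.Cen.Upper


open Polynomial IntermediateField

namespace UB2385

noncomputable def dg (f : RatFunc ℂ) : ℕ := max f.num.natDegree f.denom.natDegree

theorem deg_subst' (σ : RatFunc ℂ →ₐ[ℂ] RatFunc ℂ) (f : RatFunc ℂ) :
    dg (σ f) = dg (σ RatFunc.X) * dg f := by
  unfold dg
  rw [← RatFunc.finrank_eq_max_natDegree, ← RatFunc.finrank_eq_max_natDegree,
    ← RatFunc.finrank_eq_max_natDegree]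
  have h1 : ∀ g : RatFunc ℂ, ℂ⟮σ g⟯ = (ℂ⟮g⟯).map σ := by
    intro g
    rw [IntermediateField.adjoin_map, Set.image_singleton]
  rw [h1, h1]
  have hX : ℂ⟮(RatFunc.X : RatFunc ℂ)⟯ = ⊤ := RatFunc.adjoin_X
  rw [hX]
  have hle : (ℂ⟮f⟯).map σ ≤ (⊤ : IntermediateField ℂ (RatFunc ℂ)).map σ :=
    IntermediateField.map_mono σ le_top
  rw [← IntermediateField.relfinrank_mul_finrank_top hle, IntermediateField.relfinrank_map_map,
    IntermediateField.relfinrank_top_right, mul_comm]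

lemma hom_poly {K : Type} [Field K] [Algebra ℂ K] (f : RatFunc ℂ →ₐ[ℂ] K) (p : ℂ[X]) :
    f (algebraMap ℂ[X] (RatFunc ℂ) p) = aeval (f RatFunc.X) p := by
  have : (f.comp (IsScalarTower.toAlgHom ℂ ℂ[X] (RatFunc ℂ))) = aeval (f RatFunc.X) := by
    apply Polynomial.algHom_ext
    simp
  exact DFunLike.congr_fun this p

lemma hom_ext {K : Type} [Field K] [Algebra ℂ K] (f g : RatFunc ℂ →ₐ[ℂ] K)
    (h : f RatFunc.X = g RatFunc.X) : f = g := by
  apply AlgHom.ext
  intro u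
  rw [← RatFunc.num_div_denom u, map_div₀, map_div₀, hom_poly, hom_poly, hom_poly, hom_poly, h]

theorem X_notC : ¬ ∃ c, (RatFunc.X : RatFunc ℂ) = RatFunc.C c := by
  rintro ⟨c, hc⟩
  have := congrArg (fun f : RatFunc ℂ => f.num.natDegree) hc
  simp at this

theorem sX_notC (σ : RatFunc ℂ →ₐ[ℂ] RatFunc ℂ) : ¬ ∃ c, σ RatFunc.X = RatFunc.C c := by
  rintro ⟨c, hc⟩
  apply X_notC
  refine ⟨c, ?_⟩
  apply σ.toRingHom.injective
  have h1 : σ (RatFunc.C c) = RatFunc.C c := by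
    have := σ.commutes c
    exact this
  exact hc.trans h1.symm

theorem one_le_dg (σ : RatFunc ℂ →ₐ[ℂ] RatFunc ℂ) : 1 ≤ dg (σ RatFunc.X) := by
  rw [Nat.one_le_iff_ne_zero]
  intro h
  apply sX_notC σ
  rw [RatFunc.eq_C_iff]
  exact Nat.max_eq_zero_iff.mp h

theorem dg_mul (σ τ : RatFunc ℂ →ₐ[ℂ] RatFunc ℂ) :
    dg ((σ * τ) RatFunc.X) = dg (σ RatFunc.X) * dg (τ RatFunc.X) :=
  deg_subst' σ (τ RatFunc.X)

theorem dg_one : dg ((1 : RatFunc ℂ →ₐ[ℂ] RatFunc ℂ) RatFunc.X) = 1 := by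
  have h := dg_mul 1 1
  rw [one_mul] at h
  have h1 := one_le_dg 1
  nlinarith

theorem dg_pow (σ : RatFunc ℂ →ₐ[ℂ] RatFunc ℂ) (n : ℕ) :
    dg ((σ ^ n) RatFunc.X) = dg (σ RatFunc.X) ^ n := by
  induction n with
  | zero => rw [pow_zero, pow_zero, dg_one]
  | succ n ih => rw [pow_succ, pow_succ, dg_mul, ih]

theorem hom_inj (σ : RatFunc ℂ →ₐ[ℂ] RatFunc ℂ) : Function.Injective σ := σ.toRingHom.injective

theorem left_cancel (σ τ τ' : RatFunc ℂ →ₐ[ℂ] RatFunc ℂ) (h : σ * τ = σ * τ') : τ = τ' := by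
  apply hom_ext
  apply hom_inj σ
  exact DFunLike.congr_fun h RatFunc.X

/-- the character value -/
noncomputable def ev (d m : ℕ) : ℂ :=
  Complex.exp ((Real.log m / Real.log d : ℝ) * (2 * Real.pi * Complex.I))

theorem ev_mul (d m m' : ℕ) (h : 1 ≤ m) (h' : 1 ≤ m') : ev d (m * m') = ev d m * ev d m' := by
  unfold ev
  rw [← Complex.exp_add]
  congr 1
  have h1 : (m : ℝ) ≠ 0 := by positivity
  have h2 : (m' : ℝ) ≠ 0 := by positivity
  rw [Nat.cast_mul, Real.log_mul h1 h2, add_div]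
  push_cast
  ring

theorem ev_one (d : ℕ) : ev d 1 = 1 := by
  unfold ev
  simp

theorem ev_self (d : ℕ) (hd : 2 ≤ d) : ev d d = 1 := by
  unfold ev
  have h1 : Real.log d ≠ 0 := by
    apply ne_of_gt
    apply Real.log_pos
    exact_mod_cast hd
  rw [div_self h1]
  simp [Complex.exp_two_pi_mul_I]

theorem ev_pow (d : ℕ) (hd : 2 ≤ d) (n : ℕ) : ev d (d ^ n) = 1 := by
  induction n with
  | zero => rw [pow_zero, ev_one]
  | succ n ih =>
    rw [pow_succ, ev_mul _ _ _ (Nat.one_le_pow _ _ (by omega)) (by omega), ih, ev_self d hd,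
      one_mul]

theorem pow_of_ev (d m : ℕ) (hd : 2 ≤ d) (hm : 1 ≤ m) (h : ev d m = 1) : ∃ j : ℕ, m = d ^ j := by
  unfold ev at h
  rw [Complex.exp_eq_one_iff] at h
  obtain ⟨n, hn⟩ := h
  have hlog : 0 < Real.log d := by
    apply Real.log_pos
    exact_mod_cast hd
  have h2 : (Real.log m / Real.log d : ℝ) = n := by
    have h3 := mul_right_cancel₀ Complex.two_pi_I_ne_zero hn
    exact_mod_cast h3
  have hm1 : (1 : ℝ) ≤ m := by exact_mod_cast hm
  have h4 : (0 : ℝ) ≤ n := by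
    rw [← h2]
    exact div_nonneg (Real.log_nonneg hm1) hlog.le
  have h5 : 0 ≤ n := by exact_mod_cast h4
  obtain ⟨j, rfl⟩ := Int.eq_ofNat_of_zero_le h5
  refine ⟨j, ?_⟩
  rw [div_eq_iff hlog.ne'] at h2
  have h6 : Real.log m = Real.log ((d : ℝ) ^ j) := by
    rw [Real.log_pow, h2]
    push_cast
    ring
  have h7 : (m : ℝ) = (d : ℝ) ^ j := by
    apply Real.log_injOn_pos _ _ h6
    · exact Set.mem_Ioi.mpr (by linarith)
    · exact Set.mem_Ioi.mpr (by positivity)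
  exact_mod_cast h7

end UB2385

/-- (C0) degree is multiplicative: `deg (f ∘ g) = deg f * deg g`, where `σ` is the substitution `X ↦ g`. -/
theorem deg_subst (σ : RatFunc ℂ →ₐ[ℂ] RatFunc ℂ) (f : RatFunc ℂ) :
    max (σ f).num.natDegree (σ f).denom.natDegree =
      max (σ RatFunc.X).num.natDegree (σ RatFunc.X).denom.natDegree *
        max f.num.natDegree f.denom.natDegree := by
  exact UB2385.deg_subst' σ f

/-- (C1) structure theorem for the group `G_P`. Monoid structure on `RatFunc ℂ →ₐ[ℂ] RatFunc ℂ` is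
composition, `P` is the substitution `X ↦ P`; `q` is the quotient map of the centraliser onto `G_P`. -/
theorem upper_bound (P : RatFunc ℂ →ₐ[ℂ] RatFunc ℂ)
    (hd : 2 ≤ max (P RatFunc.X).num.natDegree (P RatFunc.X).denom.natDegree)
    (G : Type) [Group G] [Finite G] (q : (RatFunc ℂ →ₐ[ℂ] RatFunc ℂ) → G)
    (hmul : ∀ σ τ : RatFunc ℂ →ₐ[ℂ] RatFunc ℂ, σ * P = P * σ → τ * P = P * τ →
      q (σ * τ) = q σ * q τ)
    (hsurj : ∀ g : G, ∃ σ : RatFunc ℂ →ₐ[ℂ] RatFunc ℂ, σ * P = P * σ ∧ q σ = g)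
    (hker : ∀ σ τ : RatFunc ℂ →ₐ[ℂ] RatFunc ℂ, σ * P = P * σ → τ * P = P * τ →
      (q σ = q τ ↔ ∃ l₁ l₂ : ℕ, P ^ l₁ * σ = P ^ l₂ * τ)) :
    ∃ (K : Subgroup G) (_ : K.Normal), IsCyclic (G ⧸ K) ∧
      ∃ ρ : K →* (RatFunc ℂ ≃ₐ[ℂ] RatFunc ℂ), Function.Injective ρ := by
  classical
  set d : ℕ := UB2385.dg (P RatFunc.X) with hddef
  have hd' : 2 ≤ d := hd
  let Cent : (RatFunc ℂ →ₐ[ℂ] RatFunc ℂ) → Prop := fun σ => σ * P = P * σ
  let D : (RatFunc ℂ →ₐ[ℂ] RatFunc ℂ) → ℕ := fun σ => UB2385.dg (σ RatFunc.X)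
  have hDmul : ∀ σ τ, D (σ * τ) = D σ * D τ := UB2385.dg_mul
  have hDpow : ∀ σ n, D (σ ^ n) = D σ ^ n := UB2385.dg_pow
  have hDP : D P = d := rfl
  have hD1 : ∀ σ, 1 ≤ D σ := UB2385.one_le_dg
  have hC1 : Cent 1 := by show 1 * P = P * 1; rw [one_mul, mul_one]
  have hCm : ∀ σ τ, Cent σ → Cent τ → Cent (σ * τ) := by
    intro σ τ h1 h2
    show σ * τ * P = P * (σ * τ)
    rw [mul_assoc, h2, ← mul_assoc, h1, mul_assoc]
  have hCp : ∀ n, Cent (P ^ n) := by
    intro n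
    show P ^ n * P = P * P ^ n
    rw [← pow_succ, ← pow_succ']
  have hcommp : ∀ σ, Cent σ → ∀ n, σ * P ^ n = P ^ n * σ := by
    intro σ h n
    exact ((show Commute σ P from h).pow_right n).eq
  have hq1 : q 1 = 1 := by
    have h := hmul 1 1 hC1 hC1
    rw [mul_one] at h
    exact (left_eq_mul.mp h)
  have hqp : ∀ n, q (P ^ n) = 1 := by
    intro n
    rw [← hq1, hker _ _ (hCp n) hC1]
    exact ⟨0, n, by rw [pow_zero, one_mul, mul_one]⟩
  -- uniqueness
  have huniq : ∀ σ τ, Cent σ → Cent τ → q σ = q τ → D σ = D τ → σ = τ := by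
    intro σ τ hσ hτ h1 h2
    obtain ⟨l₁, l₂, h3⟩ := (hker σ τ hσ hτ).mp h1
    have h4 := congrArg D h3
    rw [hDmul, hDmul, hDpow, hDpow, h2, hDP] at h4
    have h5 := Nat.eq_of_mul_eq_mul_right (hD1 τ) h4
    have h6 : l₁ = l₂ := Nat.pow_right_injective hd' h5
    rw [h6] at h3
    exact UB2385.left_cancel _ _ _ h3
  -- the character
  choose s hs hsq using hsurj
  have hev : ∀ σ, Cent σ → UB2385.ev d (D σ) = UB2385.ev d (D (s (q σ))) := by
    intro σ hσ
    obtain ⟨l₁, l₂, h3⟩ := (hker σ (s (q σ)) hσ (hs _)).mp (hsq _).symm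
    have h4 := congrArg (fun τ => UB2385.ev d (D τ)) h3
    simp only [hDmul, hDpow, hDP] at h4
    rw [UB2385.ev_mul _ _ _ (Nat.one_le_pow _ _ (by omega)) (hD1 _),
      UB2385.ev_mul _ _ _ (Nat.one_le_pow _ _ (by omega)) (hD1 _), UB2385.ev_pow d hd',
      UB2385.ev_pow d hd', one_mul, one_mul] at h4
    exact h4
  let χ₀ : G →* ℂ :=
    { toFun := fun g => UB2385.ev d (D (s g))
      map_one' := by
        have h := hev 1 hC1
        rw [hq1] at h
        show UB2385.ev d (D (s 1)) = 1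
        rw [← h]
        show UB2385.ev d (UB2385.dg _) = 1
        rw [UB2385.dg_one, UB2385.ev_one]
      map_mul' := by
        intro g g'
        show UB2385.ev d (D (s (g * g'))) = UB2385.ev d (D (s g)) * UB2385.ev d (D (s g'))
        have h := hev (s g * s g') (hCm _ _ (hs g) (hs g'))
        rw [hmul _ _ (hs g) (hs g'), hsq, hsq] at h
        rw [← h, hDmul, UB2385.ev_mul _ _ _ (hD1 _) (hD1 _)] }
  let χ : G →* ℂˣ := χ₀.toHomUnits
  have hχ : ∀ g, ((χ g : ℂˣ) : ℂ) = UB2385.ev d (D (s g)) := fun g => rfl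
  have hcyc : IsCyclic (G ⧸ χ.ker) := by
    apply isCyclic_of_injective_ringHom ((Units.coeHom ℂ).comp (QuotientGroup.kerLift χ))
    intro a b hab
    apply QuotientGroup.kerLift_injective χ
    exact Units.ext hab
  refine ⟨χ.ker, inferInstance, hcyc, ?_⟩
  -- representatives of the kernel
  have hrep : ∀ k : χ.ker, ∃ j : ℕ, D (s k) = d ^ j := by
    intro k
    apply UB2385.pow_of_ev d _ hd' (hD1 _)
    rw [← hχ, MonoidHom.mem_ker.mp k.2]
    rfl
  choose j hj using hrep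
  have : Fintype χ.ker := Fintype.ofFinite _
  set n : ℕ := ∑ k : χ.ker, j k with hn
  have hjn : ∀ k, j k ≤ n := fun k => Finset.single_le_sum (fun _ _ => Nat.zero_le _)
    (Finset.mem_univ k)
  let t : χ.ker → (RatFunc ℂ →ₐ[ℂ] RatFunc ℂ) := fun k => P ^ (n - j k) * s k
  have htC : ∀ k, Cent (t k) := fun k => hCm _ _ (hCp _) (hs _)
  have htq : ∀ k, q (t k) = k := by
    intro k
    show q (P ^ (n - j k) * s k) = k
    rw [hmul _ _ (hCp _) (hs _), hqp, one_mul, hsq]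
  have htD : ∀ k, D (t k) = d ^ n := by
    intro k
    show D (P ^ (n - j k) * s k) = d ^ n
    rw [hDmul, hDpow, hj, hDP, ← pow_add, Nat.sub_add_cancel (hjn k)]
  set Q : RatFunc ℂ →ₐ[ℂ] RatFunc ℂ := P ^ n with hQ
  have hQC : Cent Q := hCp n
  have hQD : D Q = d ^ n := by rw [hQ, hDpow, hDP]
  have ht1 : t 1 = Q := by
    apply huniq _ _ (htC 1) hQC _ (by rw [htD, hQD])
    rw [htq, hqp]
    rfl
  have htt : ∀ l k : χ.ker, t l * t k = Q * t (l * k) := by
    intro l k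
    apply huniq _ _ (hCm _ _ (htC l) (htC k)) (hCm _ _ hQC (htC _))
    · rw [hmul _ _ (htC l) (htC k), hmul _ _ hQC (htC _), htq, htq, htq, hqp, one_mul]
      rfl
    · rw [hDmul (t l) (t k), hDmul Q (t (l * k)), htD, htD, htD, hQD]
  have htQ : ∀ l, t l * Q = Q * t l := fun l => hcommp _ (htC l) n
  -- the field
  set M : IntermediateField ℂ (RatFunc ℂ) :=
    IntermediateField.adjoin ℂ (Set.range fun k : χ.ker => t k RatFunc.X) with hM
  have hmap : ∀ l : χ.ker, M.map (t l) = M.map Q := by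
    intro l
    rw [hM, IntermediateField.adjoin_map, IntermediateField.adjoin_map]
    congr 1
    ext y
    constructor
    · rintro ⟨_, ⟨k, rfl⟩, rfl⟩
      refine ⟨t (l * k) RatFunc.X, ⟨l * k, rfl⟩, ?_⟩
      exact (DFunLike.congr_fun (htt l k) RatFunc.X).symm
    · rintro ⟨_, ⟨k, rfl⟩, rfl⟩
      refine ⟨t (l⁻¹ * k) RatFunc.X, ⟨l⁻¹ * k, rfl⟩, ?_⟩
      have h := DFunLike.congr_fun (htt l (l⁻¹ * k)) RatFunc.X
      rw [mul_inv_cancel_left] at h
      exact h
  have hQX : Q RatFunc.X ∈ M := by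
    rw [← ht1]
    exact IntermediateField.subset_adjoin _ _ ⟨1, rfl⟩
  have hMbot : M ≠ ⊥ := by
    intro h
    rw [h, IntermediateField.mem_bot] at hQX
    obtain ⟨c, hc⟩ := hQX
    exact UB2385.sX_notC Q ⟨c, hc.symm⟩
  let η : χ.ker → (M ≃ₐ[ℂ] M) := fun l =>
    (M.equivMap (t l)).trans ((IntermediateField.equivOfEq (hmap l)).trans (M.equivMap Q).symm)
  have hη : ∀ (l : χ.ker) (m : M), Q ((η l m : M) : RatFunc ℂ) = t l (m : RatFunc ℂ) := by
    intro l m
    have h1 : (M.equivMap Q) (η l m) =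
        (IntermediateField.equivOfEq (hmap l)) ((M.equivMap (t l)) m) := by
      show (M.equivMap Q) ((M.equivMap Q).symm _) = _
      rw [AlgEquiv.apply_symm_apply]
      rfl
    have h2 := congrArg (fun z : M.map Q => (z : RatFunc ℂ)) h1
    exact h2
  let Η : χ.ker →* (M ≃ₐ[ℂ] M) :=
    { toFun := η
      map_one' := by
        apply AlgEquiv.ext
        intro m
        apply Subtype.ext
        apply UB2385.hom_inj Q
        rw [hη, ht1]
        rfl
      map_mul' := by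
        intro l l'
        apply AlgEquiv.ext
        intro m
        apply Subtype.ext
        apply UB2385.hom_inj Q
        rw [hη]
        apply UB2385.hom_inj Q
        have h1 : Q ((((η l * η l') m : M)) : RatFunc ℂ) = t l ((η l' m : M) : RatFunc ℂ) :=
          hη l (η l' m)
        rw [h1]
        have h2 := DFunLike.congr_fun (htQ l) ((η l' m : M) : RatFunc ℂ)
        have h3 := DFunLike.congr_fun (htt l l') (m : RatFunc ℂ)
        have h2' : t l (Q ((η l' m : M) : RatFunc ℂ)) = Q (t l ((η l' m : M) : RatFunc ℂ)) := h2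
        rw [hη] at h2'
        have h3' : t l (t l' (m : RatFunc ℂ)) = Q (t (l * l') (m : RatFunc ℂ)) := h3
        rw [← h2', h3'] }
  refine ⟨(AlgEquiv.autCongr (RatFunc.Luroth.algEquiv hMbot).symm).toMonoidHom.comp Η, ?_⟩
  rw [MonoidHom.coe_comp]
  apply Function.Injective.comp
  · exact (AlgEquiv.autCongr (RatFunc.Luroth.algEquiv hMbot).symm).injective
  · rw [injective_iff_map_eq_one]
    intro l hl
    have h1 : ∀ m : M, Q (m : RatFunc ℂ) = t l (m : RatFunc ℂ) := by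
      intro m
      have h2 := hη l m
      have h3 : η l m = m := DFunLike.congr_fun hl m
      rw [h3] at h2
      exact h2
    have h4 := h1 ⟨_, hQX⟩
    have h5 : Q (Q RatFunc.X) = t l (Q RatFunc.X) := h4
    have h6 : t l (Q RatFunc.X) = Q (t l RatFunc.X) := DFunLike.congr_fun (htQ l) RatFunc.X
    rw [h6] at h5
    have h7 : Q = t l := UB2385.hom_ext _ _ (UB2385.hom_inj Q h5)
    have h8 := htq l
    rw [← h7, hqp] at h8
    exact Subtype.ext h8.symm

end Pool.Agent.Helper881.Cen.Upper
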