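import Mathlib

/-!
Definitions for MP_46dca5_an: centralisers of rational functions and the finite groups `G_P`.
-/

set_option autoImplicit false

open Polynomial

namespace Pool.Agent.Helper881.Gp

noncomputable section

/-- Composition `f ∘ g` of rational functions (for `g` nonconstant): substitute `g` into the numerator
and the denominator of `f`. -/
def comp (f g : RatFunc ℂ) : RatFunc ℂ := aeval g f.num / aeval g f.denom

/-- The degree of a rational function, as a self-map of the Riemann sphere. -/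
def deg (f : RatFunc ℂ) : ℕ := max f.num.natDegree f.denom.natDegree

/-- The `n`-th iterate `P^{∘ n}`, with `P^{∘ 0} = z`. -/
def iter (P : RatFunc ℂ) (n : ℕ) : RatFunc ℂ := (comp P)^[n] RatFunc.X

/-- `C(P)`: the nonconstant rational functions (Moebius transformations included) commuting
with `P`. -/
def Centralizer (P : RatFunc ℂ) : Set (RatFunc ℂ) :=
  {Q | 1 ≤ deg Q ∧ comp Q P = comp P Q}

/-- The relation `Q₁ ∼_P Q₂`. -/
def Sim (P Q₁ Q₂ : RatFunc ℂ) : Prop :=
  ∃ l₁ l₂ : ℕ, comp Q₁ (iter P l₁) = comp Q₂ (iter P l₂)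

/-- `G ≅ G_P = C(P)/∼_P`: there is a map `q` from `C(P)` onto `G` which turns composition into
multiplication and whose fibres are exactly the classes of `∼_P`. -/
def IsGP (P : RatFunc ℂ) (G : Type) [Group G] : Prop :=
  ∃ q : RatFunc ℂ → G,
    (∀ Q₁ ∈ Centralizer P, ∀ Q₂ ∈ Centralizer P, q (comp Q₁ Q₂) = q Q₁ * q Q₂) ∧
    (∀ g : G, ∃ Q ∈ Centralizer P, q Q = g) ∧
    (∀ Q₁ ∈ Centralizer P, ∀ Q₂ ∈ Centralizer P, q Q₁ = q Q₂ ↔ Sim P Q₁ Q₂)

/-- `P` is a Lattes map: there are an elliptic curve `W` over `ℂ` (a complex torus), a nonconstant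
meromorphic function `Θ` on `W` and a nonconstant holomorphic self-map of `W`, given by its pull-back
`L` on the function field of `W` (such self-maps are the affine ones), with `P ∘ Θ = Θ ∘ L`. -/
def IsLattes (P : RatFunc ℂ) : Prop :=
  ∃ W : WeierstrassCurve ℂ, W.IsElliptic ∧
    ∃ (Θ : W.toAffine.FunctionField)
      (L : W.toAffine.FunctionField →ₐ[ℂ] W.toAffine.FunctionField),
      Transcendental ℂ Θ ∧ L Θ = aeval Θ P.num / aeval Θ P.denom

/-- `P` is special: a Lattes map, or Moebius-conjugate (`μ ∘ P = F ∘ μ`, `deg μ = 1`) to one of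
`F = z^n, z^{-n}, T_n, -T_n` with `n ≥ 2`. -/
def IsSpecial (P : RatFunc ℂ) : Prop :=
  IsLattes P ∨
  ∃ μ : RatFunc ℂ, deg μ = 1 ∧ ∃ n : ℕ, 2 ≤ n ∧
    (comp μ P = comp (RatFunc.X ^ n) μ ∨
     comp μ P = comp ((RatFunc.X ^ n)⁻¹) μ ∨
     comp μ P = comp (algebraMap ℂ[X] (RatFunc ℂ) (Polynomial.Chebyshev.T ℂ (n : ℤ))) μ ∨
     comp μ P = comp (-(algebraMap ℂ[X] (RatFunc ℂ) (Polynomial.Chebyshev.T ℂ (n : ℤ)))) μ)

end

end Pool.Agent.Helper881.Gp
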