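import Mathlib
import Pool.Agent.Helper881.Cfd6
import Pool.Agent.Helper881.CenDefs
import Pool.Agent.Helper881.CenPgl
import Pool.Agent.Helper881.CenUpper
import Pool.Agent.Helper881.GpDefs

set_option autoImplicit false

open Polynomial

namespace Pool.Agent.Helper881.Cen.Hom

open Pool.Agent.Helper881.Gp

/-- a nonconstant rational function is transcendental -/
theorem trans_of_deg (x : RatFunc ℂ) (hx : 1 ≤ deg x) : Transcendental ℂ x := by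
  apply RatFunc.transcendental_of_ne_C
  rw [RatFunc.eq_C_iff]
  intro h
  have : deg x = 0 := by unfold deg; omega
  omega

theorem exists_end (x : RatFunc ℂ) (hx : 1 ≤ deg x) :
    ∃ σ : RatFunc ℂ →ₐ[ℂ] RatFunc ℂ, σ RatFunc.X = x :=
  Pool.Agent.Helper881.Cfd.exists_subst x (trans_of_deg x hx)

theorem hom_ext {K : Type} [Field K] [Algebra ℂ K] (f g : RatFunc ℂ →ₐ[ℂ] K)
    (h : f RatFunc.X = g RatFunc.X) : f = g :=
  Pool.Agent.Helper881.Cfd.hom_ext f g h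

theorem hom_eval {K : Type} [Field K] [Algebra ℂ K] (σ : RatFunc ℂ →ₐ[ℂ] K) (f : RatFunc ℂ) :
    σ f = aeval (σ RatFunc.X) f.num / aeval (σ RatFunc.X) f.denom := by
  conv_lhs => rw [← RatFunc.num_div_denom f]
  rw [map_div₀, Pool.Agent.Helper881.Cfd.hom_poly, Pool.Agent.Helper881.Cfd.hom_poly]

theorem comp_hom (f : RatFunc ℂ) (σ : RatFunc ℂ →ₐ[ℂ] RatFunc ℂ) :
    comp f (σ RatFunc.X) = σ f := (hom_eval σ f).symm

theorem one_le_deg (σ : RatFunc ℂ →ₐ[ℂ] RatFunc ℂ) : 1 ≤ deg (σ RatFunc.X) :=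
  Pool.Agent.Helper881.Cen.Upper.UB2385.one_le_dg σ

theorem deg_hom (σ : RatFunc ℂ →ₐ[ℂ] RatFunc ℂ) (f : RatFunc ℂ) :
    deg (σ f) = deg (σ RatFunc.X) * deg f :=
  Pool.Agent.Helper881.Cen.Upper.deg_subst σ f

theorem iter_hom (σ : RatFunc ℂ →ₐ[ℂ] RatFunc ℂ) (l : ℕ) :
    iter (σ RatFunc.X) l = (σ ^ l) RatFunc.X := by
  induction l with
  | zero => rfl
  | succ l ih =>
    unfold iter at ih ⊢
    rw [Function.iterate_succ_apply', ih, comp_hom, pow_succ]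
    rfl

theorem comm_iff (σ π : RatFunc ℂ →ₐ[ℂ] RatFunc ℂ) :
    comp (σ RatFunc.X) (π RatFunc.X) = comp (π RatFunc.X) (σ RatFunc.X) ↔ σ * π = π * σ := by
  rw [comp_hom, comp_hom]
  constructor
  · intro h
    exact (hom_ext _ _ h).symm
  · intro h
    exact (DFunLike.congr_fun h RatFunc.X).symm

theorem sim_iff (π σ τ : RatFunc ℂ →ₐ[ℂ] RatFunc ℂ) :
    Sim (π RatFunc.X) (σ RatFunc.X) (τ RatFunc.X) ↔ ∃ l₁ l₂ : ℕ, π ^ l₁ * σ = π ^ l₂ * τ := by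
  unfold Sim
  constructor
  · rintro ⟨l₁, l₂, h⟩
    refine ⟨l₁, l₂, hom_ext _ _ ?_⟩
    rw [iter_hom, iter_hom, comp_hom, comp_hom] at h
    exact h
  · rintro ⟨l₁, l₂, h⟩
    refine ⟨l₁, l₂, ?_⟩
    rw [iter_hom, iter_hom, comp_hom, comp_hom]
    exact DFunLike.congr_fun h RatFunc.X

/-- `IsGP` in terms of substitution homomorphisms. -/
theorem isGP_iff (π : RatFunc ℂ →ₐ[ℂ] RatFunc ℂ) (G : Type) [Group G] :
    IsGP (π RatFunc.X) G ↔ ∃ q : (RatFunc ℂ →ₐ[ℂ] RatFunc ℂ) → G,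
      (∀ σ τ : RatFunc ℂ →ₐ[ℂ] RatFunc ℂ, σ * π = π * σ → τ * π = π * τ →
        q (σ * τ) = q σ * q τ) ∧
      (∀ g : G, ∃ σ : RatFunc ℂ →ₐ[ℂ] RatFunc ℂ, σ * π = π * σ ∧ q σ = g) ∧
      (∀ σ τ : RatFunc ℂ →ₐ[ℂ] RatFunc ℂ, σ * π = π * σ → τ * π = π * τ →
        (q σ = q τ ↔ ∃ l₁ l₂ : ℕ, π ^ l₁ * σ = π ^ l₂ * τ)) := by
  classical
  have hmem : ∀ σ : RatFunc ℂ →ₐ[ℂ] RatFunc ℂ,
      σ RatFunc.X ∈ Centralizer (π RatFunc.X) ↔ σ * π = π * σ := by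
    intro σ
    unfold Centralizer
    rw [Set.mem_setOf_eq, comm_iff]
    exact ⟨fun h => h.2, fun h => ⟨one_le_deg σ, h⟩⟩
  constructor
  · rintro ⟨q, h1, h2, h3⟩
    refine ⟨fun σ => (q (σ RatFunc.X))⁻¹, ?_, ?_, ?_⟩
    · intro σ τ hσ hτ
      have h := h1 (τ RatFunc.X) ((hmem τ).2 hτ) (σ RatFunc.X) ((hmem σ).2 hσ)
      rw [comp_hom] at h
      show (q ((σ * τ) RatFunc.X))⁻¹ = (q (σ RatFunc.X))⁻¹ * (q (τ RatFunc.X))⁻¹
      rw [← mul_inv_rev, ← h]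
      rfl
    · intro g
      obtain ⟨Q, hQ, hq⟩ := h2 g⁻¹
      obtain ⟨σ, hσ⟩ := exists_end Q hQ.1
      refine ⟨σ, (hmem σ).1 (by rw [hσ]; exact hQ), ?_⟩
      show (q (σ RatFunc.X))⁻¹ = g
      rw [hσ, hq, inv_inv]
    · intro σ τ hσ hτ
      show (q (σ RatFunc.X))⁻¹ = (q (τ RatFunc.X))⁻¹ ↔ _
      rw [inv_inj, h3 _ ((hmem σ).2 hσ) _ ((hmem τ).2 hτ), sim_iff]
  · rintro ⟨q, h1, h2, h3⟩
    let E : RatFunc ℂ → (RatFunc ℂ →ₐ[ℂ] RatFunc ℂ) := fun x =>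
      if hx : 1 ≤ deg x then (exists_end x hx).choose else 1
    have hE : ∀ x, 1 ≤ deg x → E x RatFunc.X = x := by
      intro x hx
      simp only [E, dif_pos hx]
      exact (exists_end x hx).choose_spec
    have hE' : ∀ σ : RatFunc ℂ →ₐ[ℂ] RatFunc ℂ, E (σ RatFunc.X) = σ := by
      intro σ
      exact hom_ext _ _ (hE _ (one_le_deg σ))
    refine ⟨fun x => (q (E x))⁻¹, ?_, ?_, ?_⟩
    · intro Q₁ hQ₁ Q₂ hQ₂
      obtain ⟨σ, rfl⟩ := exists_end Q₁ hQ₁.1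
      obtain ⟨τ, rfl⟩ := exists_end Q₂ hQ₂.1
      show (q (E (comp (σ RatFunc.X) (τ RatFunc.X))))⁻¹ =
        (q (E (σ RatFunc.X)))⁻¹ * (q (E (τ RatFunc.X)))⁻¹
      rw [hE', hE', comp_hom]
      have : E (τ (σ RatFunc.X)) = τ * σ := hE' (τ * σ)
      rw [this, h1 τ σ ((hmem τ).1 hQ₂) ((hmem σ).1 hQ₁), mul_inv_rev]
    · intro g
      obtain ⟨σ, hσ, hq⟩ := h2 g⁻¹
      refine ⟨σ RatFunc.X, (hmem σ).2 hσ, ?_⟩
      show (q (E (σ RatFunc.X)))⁻¹ = g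
      rw [hE', hq, inv_inv]
    · intro Q₁ hQ₁ Q₂ hQ₂
      obtain ⟨σ, rfl⟩ := exists_end Q₁ hQ₁.1
      obtain ⟨τ, rfl⟩ := exists_end Q₂ hQ₂.1
      show (q (E (σ RatFunc.X)))⁻¹ = (q (E (τ RatFunc.X)))⁻¹ ↔ _
      rw [hE', hE', inv_inj, h3 _ _ ((hmem σ).1 hQ₁) ((hmem τ).1 hQ₂), sim_iff]

/-- a substitution of degree one is an automorphism given by a Moebius transformation -/
theorem moebius_of_deg_one (σ : RatFunc ℂ →ₐ[ℂ] RatFunc ℂ) (h : deg (σ RatFunc.X) = 1) :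
    ∃ s : RatFunc ℂ ≃ₐ[ℂ] RatFunc ℂ, ∀ f, σ f = s f := by
  have h1 : IntermediateField.adjoin ℂ ({σ RatFunc.X} : Set (RatFunc ℂ)) = ⊤ := by
    rw [← IntermediateField.finrank_eq_one_iff_eq_top, RatFunc.finrank_eq_max_natDegree]
    exact h
  have hsurj : Function.Surjective σ := by
    intro y
    have hy : y ∈ (⊤ : IntermediateField ℂ (RatFunc ℂ)) := trivial
    rw [← h1] at hy
    have h2 : IntermediateField.adjoin ℂ ({σ RatFunc.X} : Set (RatFunc ℂ)) ≤ σ.fieldRange := by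
      rw [IntermediateField.adjoin_simple_le_iff]
      exact ⟨RatFunc.X, rfl⟩
    exact h2 hy
  refine ⟨AlgEquiv.ofBijective σ ⟨σ.toRingHom.injective, hsurj⟩, ?_⟩
  intro f
  rfl

theorem nonspecial_of_hom (φ : RatFunc ℂ →ₐ[ℂ] RatFunc ℂ) (h : ¬ IsSpecialHom φ) :
    ¬ IsSpecial (φ RatFunc.X) := by
  intro hs
  apply h
  rcases hs with ⟨W, hW, Θ, L, hΘ, hL⟩ | ⟨μ, hμ, n, hn, hF⟩
  · left
    have hinj : Function.Injective (aeval (R := ℂ) Θ : ℂ[X] →ₐ[ℂ] W.toAffine.FunctionField) :=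
      transcendental_iff_injective.mp hΘ
    let θ : RatFunc ℂ →ₐ[ℂ] W.toAffine.FunctionField := RatFunc.liftAlgHom (aeval Θ)
      (nonZeroDivisors_le_comap_nonZeroDivisors_of_injective _ hinj)
    have hθ : θ RatFunc.X = Θ := by
      have h := RatFunc.liftAlgHom_apply_div (aeval Θ)
        (nonZeroDivisors_le_comap_nonZeroDivisors_of_injective _ hinj) X 1
      rw [map_one, div_one, map_one, div_one, aeval_X] at h
      rw [← RatFunc.algebraMap_X]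
      exact h
    refine ⟨W, hW, θ, L, hom_ext _ _ ?_⟩
    show L (θ RatFunc.X) = θ (φ RatFunc.X)
    rw [hθ, hL, hom_eval θ, hθ]
  · right
    obtain ⟨m, hm⟩ := exists_end μ (by omega)
    obtain ⟨s, hs⟩ := moebius_of_deg_one m (by rw [hm]; exact hμ)
    have hcomp : comp μ (φ RatFunc.X) = φ (s RatFunc.X) := by
      rw [comp_hom, ← hm, hs]
    have hF2 : ∀ F : RatFunc ℂ, comp F μ = s F := by
      intro F
      rw [← hm, comp_hom, hs]
    have key : ∀ F : RatFunc ℂ, comp μ (φ RatFunc.X) = comp F μ →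
        (s.symm.toAlgHom.comp (φ.comp s.toAlgHom)) RatFunc.X = F := by
      intro F hF
      rw [hcomp, hF2] at hF
      show s.symm (φ (s RatFunc.X)) = F
      rw [hF, AlgEquiv.symm_apply_apply]
    refine ⟨s.symm, s.symm.toAlgHom.comp (φ.comp s.toAlgHom), ?_, ?_⟩
    · apply AlgHom.ext
      intro f
      show s.symm (φ f) = s.symm (φ (s (s.symm f)))
      rw [AlgEquiv.apply_symm_apply]
    · rcases hF with hF | hF | hF | hF
      · left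
        refine ⟨(n : ℤ), ?_⟩
        rw [key _ hF, zpow_natCast]
      · left
        refine ⟨-(n : ℤ), ?_⟩
        rw [key _ hF, zpow_neg, zpow_natCast]
      · right
        refine ⟨(n : ℤ), 1, by norm_num, ?_⟩
        rw [key _ hF, map_one, one_mul]
      · right
        refine ⟨(n : ℤ), -1, by norm_num, ?_⟩
        rw [key _ hF, map_neg, map_one, neg_one_mul]

/-- (α) the structure of a finite group `G_P`. -/
theorem structure_of_GP (G : Type) [Group G] [Finite G] (P : RatFunc ℂ) (hP : 2 ≤ deg P)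
    (h : IsGP P G) :
    ∃ (K : Subgroup G) (_ : K.Normal), IsCyclic (G ⧸ K) ∧
      ∃ f : K →* Matrix.ProjGenLinGroup (Fin 2) ℂ, Function.Injective f := by
  obtain ⟨π, hπ⟩ := exists_end P (by omega)
  rw [← hπ] at h hP
  obtain ⟨q, h1, h2, h3⟩ := (isGP_iff π G).1 h
  obtain ⟨K, hK, hc, ρ, hρ⟩ := Pool.Agent.Helper881.Cen.Upper.upper_bound π hP G q h1 h2 h3
  obtain ⟨e⟩ := Pool.Agent.Helper881.Cen.Pgl.pgl_equiv
  refine ⟨K, hK, hc, e.symm.toMonoidHom.comp ρ, ?_⟩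
  intro x y hxy
  exact hρ (e.symm.injective hxy)

end Pool.Agent.Helper881.Cen.Hom
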