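import Mathlib

set_option autoImplicit false

namespace Pool.Agent.Helper881.Cen.Full


open Polynomial

namespace FB2459

/-- weight bound -/
def W (f : ℂ[X][X]) (w : ℕ) : Prop := ∀ i j : ℕ, w < i + j → (f.coeff i).coeff j = 0

lemma W.sub {f g : ℂ[X][X]} {w : ℕ} (hf : W f w) (hg : W g w) : W (f - g) w := by
  intro i j h
  rw [coeff_sub, coeff_sub, hf i j h, hg i j h, sub_zero]

lemma W.mul {f g : ℂ[X][X]} {w v : ℕ} (hf : W f w) (hg : W g v) : W (f * g) (w + v) := by
  intro i j h
  rw [coeff_mul, finsetSum_coeff]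
  apply Finset.sum_eq_zero
  intro x hx
  rw [coeff_mul]
  apply Finset.sum_eq_zero
  intro y hy
  have hx := Finset.HasAntidiagonal.mem_antidiagonal.mp hx
  have hy := Finset.HasAntidiagonal.mem_antidiagonal.mp hy
  by_cases h1 : w < x.1 + y.1
  · rw [hf _ _ h1, zero_mul]
  · rw [hg _ _ (by omega), mul_zero]

lemma W.mod {q : ℂ[X][X]} {p : ℕ} (hq : q.Monic) (hp : q.natDegree = p) (hW : W q p)
    (w : ℕ) : ∀ (d : ℕ) (f : ℂ[X][X]), f.natDegree ≤ d → W f w → W (f %ₘ q) w := by
  have key : ∀ (d : ℕ) (f : ℂ[X][X]), f.degree < d → W f w → W (f %ₘ q) w := by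
    intro d
    induction d with
    | zero =>
      intro f hf hw
      have : f = 0 := by
        by_contra h0
        have := zero_le_degree_iff.mpr h0
        exact absurd hf (not_lt.mpr (by simpa using this))
      subst this
      simpa using hw
    | succ d ih =>
      intro f hf hw
      by_cases hlt : f.degree < q.degree
      · rw [(modByMonic_eq_self_iff hq).mpr hlt]; exact hw
      · push Not at hlt
        have hf0 : f ≠ 0 := by
          rintro rfl
          rw [degree_zero] at hlt
          have := degree_eq_bot.mp (le_bot_iff.mp hlt)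
          exact hq.ne_zero this
        have hdl := div_wf_lemma ⟨hlt, hf0⟩ hq
        set g := f - q * (C (leadingCoeff f) * X ^ (natDegree f - natDegree q)) with hg
        have hgd : g.degree < d := by
          have h1 : f.degree ≤ (d : WithBot ℕ) := by
            rw [degree_le_iff_coeff_zero]
            intro m hm
            apply coeff_eq_zero_of_degree_lt
            refine lt_of_lt_of_le hf ?_
            have : (d : ℕ) < m := by exact_mod_cast hm
            exact_mod_cast this
          exact lt_of_lt_of_le hdl h1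
        have hle : q.natDegree ≤ f.natDegree := natDegree_le_natDegree hlt
        have hpw : p ≤ w := by
          have hl : f.leadingCoeff ≠ 0 := leadingCoeff_ne_zero.mpr hf0
          have : ∃ j, f.leadingCoeff.coeff j ≠ 0 := by
            by_contra hcon
            push Not at hcon
            exact hl (Polynomial.ext (by simpa using hcon))
          obtain ⟨j, hj⟩ := this
          have := mt (hw f.natDegree j) hj
          omega
        have hwg : W g w := by
          apply W.sub hw
          have h2 : W (C (leadingCoeff f) * X ^ (natDegree f - natDegree q)) (w - p) := by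
            intro i j hij
            rw [coeff_C_mul_X_pow]
            split_ifs with hi
            · exact hw _ _ (by omega)
            · simp
          have h3 := W.mul hW h2
          have : p + (w - p) = w := by omega
          rw [this] at h3
          exact h3
        have hmod : f %ₘ q = g %ₘ q := by
          apply modByMonic_eq_of_dvd_sub hq
          rw [hg]
          simp
        rw [hmod]
        exact ih g hgd hwg
  intro d f hf hw
  refine key (d + 1) f ?_ hw
  refine lt_of_le_of_lt degree_le_natDegree ?_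
  exact_mod_cast (by omega)

lemma W.map (A : ℂ[X]) : W (A.map C) A.natDegree := by
  intro i j h
  rw [coeff_map, coeff_C]
  split_ifs with hj
  · exact coeff_eq_zero_of_natDegree_lt (by omega)
  · rfl

lemma W.natDegree {f : ℂ[X][X]} {w : ℕ} (hf : W f w) (i : ℕ) : (f.coeff i).natDegree ≤ w := by
  rw [natDegree_le_iff_coeff_eq_zero]
  intro j hj
  exact hf i j (by omega)

end FB2459

open FB2459 in
/-- if `A = A₁/A₂` is not a rational function of `B = B₁/B₂`, the number of full fibres of `B` on which
`A` is constant (with multiplicity) is at most `2 deg A`. -/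
theorem full_bound (A₁ A₂ B₁ B₂ : ℂ[X]) (hA₂ : A₂ ≠ 0) (hB₂ : B₂ ≠ 0)
    (hdeg : B₂.natDegree < B₁.natDegree)
    (hnot : algebraMap ℂ[X] (RatFunc ℂ) A₁ / algebraMap ℂ[X] (RatFunc ℂ) A₂ ∉
      IntermediateField.adjoin ℂ
        ({algebraMap ℂ[X] (RatFunc ℂ) B₁ / algebraMap ℂ[X] (RatFunc ℂ) B₂} : Set (RatFunc ℂ)))
    (Y : Finset ℂ) (n : ℂ → ℕ) (a : ℂ → ℂ)
    (h : ∀ y ∈ Y, (B₁ - C y * B₂) ^ (n y) ∣ A₁ - C (a y) * A₂) :
    ∑ y ∈ Y, n y ≤ 2 * max A₁.natDegree A₂.natDegree := by
  classical
  have hB₁ : B₁ ≠ 0 := by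
    rintro rfl
    simp at hdeg
  have hlc : B₁.leadingCoeff ≠ 0 := leadingCoeff_ne_zero.mpr hB₁
  set p := B₁.natDegree with hp
  set m := max A₁.natDegree A₂.natDegree with hm
  set b : ℂ[X][X] := B₁.map C - C X * B₂.map C with hb
  set q : ℂ[X][X] := C (C B₁.leadingCoeff⁻¹) * b with hq
  have hbc : ∀ i, b.coeff i = C (B₁.coeff i) - X * C (B₂.coeff i) := by
    intro i
    rw [hb, coeff_sub, coeff_map, coeff_C_mul, coeff_map]
  have hqc : ∀ i, q.coeff i = C B₁.leadingCoeff⁻¹ * (C (B₁.coeff i) - X * C (B₂.coeff i)) := by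
    intro i
    rw [hq, coeff_C_mul, hbc]
  have hqW : W q p := by
    intro i j hij
    rw [hqc, coeff_C_mul, coeff_sub]
    have e1 : (C (B₁.coeff i)).coeff j = 0 := by
      rw [coeff_C]
      split_ifs with hj
      · exact coeff_eq_zero_of_natDegree_lt (by omega)
      · rfl
    have e2 : (X * C (B₂.coeff i)).coeff j = 0 := by
      rcases j with _ | j
      · simp
      · rw [coeff_X_mul, coeff_C]
        split_ifs with hj
        · exact coeff_eq_zero_of_natDegree_lt (by omega)
        · rfl
    rw [e1, e2]; simp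
  have hqp : q.coeff p = 1 := by
    rw [hqc, coeff_eq_zero_of_natDegree_lt hdeg]
    simp only [map_zero, mul_zero, sub_zero]
    rw [← C_mul, hp, coeff_natDegree, inv_mul_cancel₀ hlc, C_1]
  have hqd : q.natDegree ≤ p := by
    rw [natDegree_le_iff_coeff_eq_zero]
    intro i hi
    rw [hqc, coeff_eq_zero_of_natDegree_lt hi, coeff_eq_zero_of_natDegree_lt (lt_trans hdeg hi)]
    simp
  have hqm : q.Monic := monic_of_natDegree_le_of_coeff_eq_one p hqd hqp
  have hqn : q.natDegree = p := by
    apply le_antisymm hqd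
    apply le_natDegree_of_ne_zero
    rw [hqp]; exact one_ne_zero
  have hbq : q ∣ b := by
    refine ⟨C (C B₁.leadingCoeff), ?_⟩
    rw [hq, mul_assoc, mul_comm b, ← mul_assoc, ← C_mul, ← C_mul, inv_mul_cancel₀ hlc]
    simp
  set α : ℂ[X][X] := (A₁.map C) %ₘ q with hα
  set γ : ℂ[X][X] := (A₂.map C) %ₘ q with hγ
  have hαW : W α m := by
    have h1 := W.mod hqm hqn hqW A₁.natDegree _ _ le_rfl (W.map A₁)
    intro i j hij
    exact h1 i j (by omega)
  have hγW : W γ m := by
    have h1 := W.mod hqm hqn hqW A₂.natDegree _ _ le_rfl (W.map A₂)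
    intro i j hij
    exact h1 i j (by omega)
  -- divisibility
  have hdiv : ∀ y ∈ Y, ∀ i, (X - C y) ^ (n y) ∣ α.coeff i - C (a y) * γ.coeff i := by
    intro y hy i
    obtain ⟨H, hH⟩ := h y hy
    have h1 : (B₁ - C y * B₂).map C = C (X - C y) * B₂.map C + b := by
      rw [hb, Polynomial.map_sub, Polynomial.map_mul, map_C, C_sub]
      ring
    have h2 : (A₁ - C (a y) * A₂).map (C : ℂ →+* ℂ[X]) = A₁.map C - C (C (a y)) * A₂.map C := by
      rw [Polynomial.map_sub, Polynomial.map_mul, map_C]
    have h3 : b ∣ ((B₁ - C y * B₂).map (C : ℂ →+* ℂ[X])) ^ (n y) - (C (X - C y) * B₂.map C) ^ (n y) := by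
      have := sub_dvd_pow_sub_pow ((B₁ - C y * B₂).map (C : ℂ →+* ℂ[X])) (C (X - C y) * B₂.map C) (n y)
      refine dvd_trans ?_ this
      rw [h1]; simp
    have h4 : (A₁.map C - C (C (a y)) * A₂.map C) %ₘ q =
        (C ((X - C y) ^ (n y)) * ((B₂.map C) ^ (n y) * H.map C)) %ₘ q := by
      apply modByMonic_eq_of_dvd_sub hqm
      refine dvd_trans hbq ?_
      rw [← h2, hH, Polynomial.map_mul, Polynomial.map_pow]
      have : ((B₁ - C y * B₂).map (C : ℂ →+* ℂ[X])) ^ (n y) * H.map C
          - C ((X - C y) ^ (n y)) * ((B₂.map C) ^ (n y) * H.map C)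
          = (((B₁ - C y * B₂).map (C : ℂ →+* ℂ[X])) ^ (n y) - (C (X - C y) * B₂.map C) ^ (n y)) * H.map C := by
        rw [mul_pow, ← C_pow]
        ring
      rw [this]
      exact dvd_mul_of_dvd_left h3 _
    have h5 : α.coeff i - C (a y) * γ.coeff i = ((A₁.map C - C (C (a y)) * A₂.map C) %ₘ q).coeff i := by
      rw [sub_modByMonic, coeff_sub, ← smul_eq_C_mul (C (a y)) (p := A₂.map C), smul_modByMonic, coeff_smul, smul_eq_mul]
    rw [h5, h4, ← smul_eq_C_mul, smul_modByMonic, coeff_smul, smul_eq_mul]
    exact dvd_mul_right _ _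
  by_cases hM : ∀ i j, α.coeff i * γ.coeff j - α.coeff j * γ.coeff i = 0
  · exfalso
    apply hnot
    set B : RatFunc ℂ := algebraMap ℂ[X] (RatFunc ℂ) B₁ / algebraMap ℂ[X] (RatFunc ℂ) B₂ with hB
    have hB₂' : algebraMap ℂ[X] (RatFunc ℂ) B₂ ≠ 0 := by
      rw [Ne, FaithfulSMul.algebraMap_eq_zero_iff]; exact hB₂
    have hA₂' : algebraMap ℂ[X] (RatFunc ℂ) A₂ ≠ 0 := by
      rw [Ne, FaithfulSMul.algebraMap_eq_zero_iff]; exact hA₂
    let Φ : ℂ[X][X] →+* RatFunc ℂ := eval₂RingHom (aeval B).toRingHom (algebraMap ℂ[X] (RatFunc ℂ) X)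
    have hΦC : ∀ f : ℂ[X], Φ (C f) = aeval B f := by
      intro f
      simp [Φ]
    have hΦm : ∀ A : ℂ[X], Φ (A.map C) = algebraMap ℂ[X] (RatFunc ℂ) A := by
      intro A
      have : Φ.comp (mapRingHom (C : ℂ →+* ℂ[X])) = algebraMap ℂ[X] (RatFunc ℂ) := by
        apply Polynomial.ringHom_ext
        · intro c
          simp only [RingHom.comp_apply, coe_mapRingHom, map_C, hΦC, aeval_C]
          rw [IsScalarTower.algebraMap_apply ℂ ℂ[X] (RatFunc ℂ)]
          rfl
        · simp only [RingHom.comp_apply, coe_mapRingHom, map_X]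
          simp [Φ]
      have h2 := congrArg (fun g => g A) this
      simpa using h2
    have hΦb : Φ b = 0 := by
      rw [hb, map_sub, map_mul, hΦm, hΦm, hΦC, aeval_X, hB]
      field_simp
      ring
    have hΦq : Φ q = 0 := by
      rw [hq, map_mul, hΦb, mul_zero]
    have hΦα : Φ α = algebraMap ℂ[X] (RatFunc ℂ) A₁ := by
      have h1 := modByMonic_add_div (A₁.map (C : ℂ →+* ℂ[X])) q
      have h2 := congrArg Φ h1
      rw [map_add, map_mul, hΦq, zero_mul, add_zero, hΦm] at h2
      exact h2
    have hΦγ : Φ γ = algebraMap ℂ[X] (RatFunc ℂ) A₂ := by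
      have h1 := modByMonic_add_div (A₂.map (C : ℂ →+* ℂ[X])) q
      have h2 := congrArg Φ h1
      rw [map_add, map_mul, hΦq, zero_mul, add_zero, hΦm] at h2
      exact h2
    have hγ0 : γ ≠ 0 := by
      intro h0
      rw [h0, map_zero] at hΦγ
      exact hA₂' hΦγ.symm
    obtain ⟨j, hj⟩ : ∃ j, γ.coeff j ≠ 0 := by
      by_contra hcon
      push Not at hcon
      exact hγ0 (Polynomial.ext (by simpa using hcon))
    have heq : C (γ.coeff j) * α = C (α.coeff j) * γ := by
      ext1 i
      rw [coeff_C_mul, coeff_C_mul]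
      have := hM i j
      linear_combination this
    have heq2 := congrArg Φ heq
    rw [map_mul, map_mul, hΦα, hΦγ, hΦC, hΦC] at heq2
    have hnz : aeval B (γ.coeff j) ≠ 0 := by
      intro h0
      have hint : IsIntegral ℂ B := by
        have : IsAlgebraic ℂ B := ⟨_, hj, h0⟩
        exact this.isIntegral
      obtain ⟨c, hc⟩ : ∃ c : ℂ, algebraMap ℂ (RatFunc ℂ) c = B := by
        have hmd := IsAlgClosed.degree_eq_one_of_irreducible ℂ (minpoly.irreducible hint)
        obtain ⟨c, hc⟩ := minpoly.mem_range_of_degree_eq_one ℂ B hmd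
        exact ⟨c, hc⟩
      have h1 : algebraMap ℂ[X] (RatFunc ℂ) B₁ = algebraMap ℂ[X] (RatFunc ℂ) (C c * B₂) := by
        rw [map_mul]
        have : algebraMap ℂ[X] (RatFunc ℂ) (C c) = B := by
          rw [← hc, IsScalarTower.algebraMap_apply ℂ ℂ[X] (RatFunc ℂ)]; rfl
        rw [this, hB]
        field_simp
      have h2 : B₁ = C c * B₂ := FaithfulSMul.algebraMap_injective _ _ h1
      have h3 : B₁.natDegree ≤ B₂.natDegree := by
        rw [h2]; exact natDegree_C_mul_le _ _
      omega
    have hfin : algebraMap ℂ[X] (RatFunc ℂ) A₁ / algebraMap ℂ[X] (RatFunc ℂ) A₂ =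
        aeval B (α.coeff j) / aeval B (γ.coeff j) := by
      field_simp
      linear_combination heq2
    rw [hfin]
    apply div_mem
    · apply IntermediateField.algebra_adjoin_le_adjoin
      exact aeval_mem_adjoin_singleton ℂ B
    · apply IntermediateField.algebra_adjoin_le_adjoin
      exact aeval_mem_adjoin_singleton ℂ B
  · push Not at hM
    obtain ⟨i, j, hij⟩ := hM
    set M := α.coeff i * γ.coeff j - α.coeff j * γ.coeff i with hMdef
    have hMd : M.natDegree ≤ 2 * m := by
      rw [hMdef]
      refine le_trans (natDegree_sub_le _ _) (max_le ?_ ?_)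
      · refine le_trans natDegree_mul_le ?_
        have := hαW.natDegree i
        have := hγW.natDegree j
        omega
      · refine le_trans natDegree_mul_le ?_
        have := hαW.natDegree j
        have := hγW.natDegree i
        omega
    have hMdiv : ∀ y ∈ Y, (X - C y) ^ (n y) ∣ M := by
      intro y hy
      have h1 := hdiv y hy i
      have h2 := hdiv y hy j
      have : M = (α.coeff i - C (a y) * γ.coeff i) * γ.coeff j
          - (α.coeff j - C (a y) * γ.coeff j) * γ.coeff i := by
        rw [hMdef]; ring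
      rw [this]
      exact dvd_sub (dvd_mul_of_dvd_left h1 _) (dvd_mul_of_dvd_left h2 _)
    have hprod : (∏ y ∈ Y, (X - C y) ^ (n y)) ∣ M := by
      apply Finset.prod_dvd_of_coprime
      · intro x hx y hy hxy
        apply IsCoprime.pow
        exact isCoprime_X_sub_C_of_isUnit_sub (sub_ne_zero.mpr hxy).isUnit
      · exact hMdiv
    have hle := natDegree_le_of_dvd hprod hij
    rw [natDegree_prod_of_monic] at hle
    · have : ∑ y ∈ Y, ((X - C y) ^ (n y)).natDegree = ∑ y ∈ Y, n y := by
        apply Finset.sum_congr rfl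
        intro y _
        rw [natDegree_pow, natDegree_X_sub_C, mul_one]
      rw [this] at hle
      omega
    · intro y _
      exact (monic_X_sub_C y).pow _

end Pool.Agent.Helper881.Cen.Full
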