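import Mathlib

set_option autoImplicit false

namespace Pool.Agent.Helper881.Cen.Mult


open Polynomial

namespace MultBoundAux

/-- `P₁(T) - Y P₂(T)` over a ring `R` receiving `ℂ`. -/
noncomputable def ff {R : Type*} [CommRing R] (φ : ℂ →+* R) (Y : R) (P₁ P₂ : ℂ[X]) : R[X] :=
  P₁.map φ - C Y * P₂.map φ

theorem ff_map {R S : Type*} [CommRing R] [CommRing S] (φ : ℂ →+* R) (Y : R) (P₁ P₂ : ℂ[X])
    (ψ : R →+* S) : (ff φ Y P₁ P₂).map ψ = ff (ψ.comp φ) (ψ Y) P₁ P₂ := by
  unfold ff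
  rw [Polynomial.map_sub, Polynomial.map_mul, Polynomial.map_C, Polynomial.map_map,
    Polynomial.map_map]

theorem ff_natDegree_le {R : Type*} [CommRing R] (φ : ℂ →+* R) (Y : R) (P₁ P₂ : ℂ[X]) (n : ℕ)
    (h1 : P₁.natDegree ≤ n) (h2 : P₂.natDegree ≤ n) : (ff φ Y P₁ P₂).natDegree ≤ n := by
  unfold ff
  refine (natDegree_sub_le _ _).trans (max_le (natDegree_map_le.trans h1) ?_)
  exact (natDegree_C_mul_le _ _).trans (natDegree_map_le.trans h2)

theorem ff_natDegree {R : Type*} [CommRing R] [Nontrivial R] (φ : ℂ →+* R) (Y : R)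
    (P₁ P₂ : ℂ[X]) (h : P₂.natDegree < P₁.natDegree) :
    (ff φ Y P₁ P₂).natDegree = P₁.natDegree := by
  unfold ff
  have h1 : (P₁.map φ).natDegree = P₁.natDegree := natDegree_map φ
  rw [natDegree_sub_eq_left_of_natDegree_lt, h1]
  rw [h1]
  exact (natDegree_C_mul_le _ _).trans_lt (natDegree_map_le.trans_lt h)

theorem ff_leadingCoeff {R : Type*} [CommRing R] [Nontrivial R] (φ : ℂ →+* R) (Y : R)
    (P₁ P₂ : ℂ[X]) (h : P₂.natDegree < P₁.natDegree) :
    (ff φ Y P₁ P₂).leadingCoeff = φ P₁.leadingCoeff := by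
  rw [leadingCoeff, ff_natDegree φ Y P₁ P₂ h]
  unfold ff
  rw [coeff_sub, coeff_C_mul, coeff_map, coeff_map, coeff_eq_zero_of_natDegree_lt h, map_zero,
    mul_zero, sub_zero]
  rfl

theorem ff_eval {R : Type*} [CommRing R] (φ : ℂ →+* R) (Y t : R) (P₁ P₂ : ℂ[X]) :
    (ff φ Y P₁ P₂).eval t = P₁.eval₂ φ t - Y * P₂.eval₂ φ t := by
  unfold ff
  rw [eval_sub, eval_mul, eval_C, eval_map, eval_map]

/-- the embedding of constants -/
noncomputable def Cc : ℂ →+* ℂ[X][X] := (C : ℂ[X] →+* ℂ[X][X]).comp (C : ℂ →+* ℂ[X])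

/-- the resultant -/
noncomputable def GG (A₁ A₂ B₁ B₂ : ℂ[X]) : ℂ[X][X] :=
  resultant (ff Cc (C X) B₁ B₂) (ff Cc X A₁ A₂) B₁.natDegree (max A₁.natDegree A₂.natDegree)

theorem GG_map {S : Type*} [CommRing S] [IsDomain S] (A₁ A₂ B₁ B₂ : ℂ[X])
    (hdeg : B₂.natDegree < B₁.natDegree) (Ψ : ℂ[X][X] →+* S)
    (hs : (ff (Ψ.comp Cc) (Ψ (C X)) B₁ B₂).Splits) :
    Ψ (GG A₁ A₂ B₁ B₂) = (Ψ.comp Cc B₁.leadingCoeff) ^ (max A₁.natDegree A₂.natDegree) *
      ((ff (Ψ.comp Cc) (Ψ (C X)) B₁ B₂).roots.map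
        (fun t => A₁.eval₂ (Ψ.comp Cc) t - Ψ X * A₂.eval₂ (Ψ.comp Cc) t)).prod := by
  unfold GG
  rw [← resultant_map_map, ff_map, ff_map]
  have h1 := resultant_eq_prod_eval (ff (Ψ.comp Cc) (Ψ (C X)) B₁ B₂)
    (ff (Ψ.comp Cc) (Ψ X) A₁ A₂) (max A₁.natDegree A₂.natDegree)
    (ff_natDegree_le _ _ _ _ _ (le_max_left _ _) (le_max_right _ _)) hs
  rw [ff_natDegree _ _ _ _ hdeg, ff_leadingCoeff _ _ _ _ hdeg] at h1
  rw [h1]
  congr 2
  apply Multiset.map_congr rfl
  intro t _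
  exact ff_eval _ _ _ _ _

theorem GG_root {S : Type*} [CommRing S] (A₁ A₂ B₁ B₂ : ℂ[X])
    (hdeg : B₂.natDegree < B₁.natDegree) (Ψ : ℂ[X][X] →+* S) (T : S)
    (h1 : B₁.eval₂ (Ψ.comp Cc) T = Ψ (C X) * B₂.eval₂ (Ψ.comp Cc) T)
    (h2 : A₁.eval₂ (Ψ.comp Cc) T = Ψ X * A₂.eval₂ (Ψ.comp Cc) T) :
    Ψ (GG A₁ A₂ B₁ B₂) = 0 := by
  obtain ⟨p, q, -, -, h⟩ := exists_mul_add_mul_eq_C_resultant (ff Cc (C X) B₁ B₂)
    (ff Cc X A₁ A₂) (m := B₁.natDegree) (n := max A₁.natDegree A₂.natDegree)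
    (ff_natDegree_le _ _ _ _ _ le_rfl hdeg.le)
    (ff_natDegree_le _ _ _ _ _ (le_max_left _ _) (le_max_right _ _)) (Or.inl (by omega))
  have h3 := congrArg (fun r => (r.map Ψ).eval T) h
  simp only [Polynomial.map_add, Polynomial.map_mul, Polynomial.map_C, eval_add, eval_mul,
    eval_C, ff_map, ff_eval] at h3
  rw [h1, h2, sub_self, sub_self, zero_mul, zero_mul, add_zero] at h3
  unfold GG
  exact h3.symm

theorem pow_dvd_prod (A₁ A₂ : ℂ[X]) (a : ℂ) (s : Multiset ℂ) :
    (X - C a) ^ (s.filter (fun t => A₁.eval t = a * A₂.eval t)).card ∣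
      (s.map (fun t => (C (A₁.eval t) - X * C (A₂.eval t) : ℂ[X]))).prod := by
  induction s using Multiset.induction_on with
  | empty => simp
  | cons t s ih =>
    rw [Multiset.map_cons, Multiset.prod_cons]
    by_cases h : A₁.eval t = a * A₂.eval t
    · rw [Multiset.filter_cons_of_pos (p := fun t => A₁.eval t = a * A₂.eval t) s h, Multiset.card_cons, pow_succ, mul_comm]
      apply mul_dvd_mul _ ih
      rw [h]
      refine ⟨-C (A₂.eval t), ?_⟩
      rw [C_mul]
      ring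
    · rw [Multiset.filter_cons_of_neg (p := fun t => A₁.eval t = a * A₂.eval t) s h]
      exact dvd_mul_of_dvd_right ih _

theorem prod_ne_zero' (A₁ A₂ : ℂ[X]) (hA : IsCoprime A₁ A₂) (s : Multiset ℂ) :
    (s.map (fun t => (C (A₁.eval t) - X * C (A₂.eval t) : ℂ[X]))).prod ≠ 0 := by
  apply Multiset.prod_ne_zero
  intro h
  rw [Multiset.mem_map] at h
  obtain ⟨t, -, ht⟩ := h
  have h0 := congrArg (fun r => coeff r 0) ht
  have h1 := congrArg (fun r => coeff r 1) ht
  simp only [coeff_sub, coeff_C_zero, coeff_zero, mul_coeff_zero, coeff_X_zero, zero_mul,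
    sub_zero] at h0
  simp only [coeff_sub, coeff_zero, coeff_mul_C, coeff_X_one, one_mul, coeff_C_of_ne_zero (one_ne_zero),
    zero_sub, neg_eq_zero] at h1
  obtain ⟨u, v, huv⟩ := hA
  have h2 := congrArg (eval t) huv
  rw [eval_add, eval_mul, eval_mul, h0, h1, mul_zero, mul_zero, eval_one, add_zero] at h2
  exact zero_ne_one h2

end MultBoundAux

open MultBoundAux in
/-- multiplicity bound on a component of `R(x) = S(y)` (here `R = N/Q`, `S = S₁/S₂`), the component
being parametrised by `(A₁/A₂, B₁/B₂)`, which generate `ℂ(T)`. -/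
theorem mult_bound (N Q S₁ S₂ A₁ A₂ B₁ B₂ : ℂ[X]) (hA : IsCoprime A₁ A₂) (hB : IsCoprime B₁ B₂)
    (hdeg : B₂.natDegree < B₁.natDegree)
    (hgen : IntermediateField.adjoin ℂ
      ({algebraMap ℂ[X] (RatFunc ℂ) A₁ / algebraMap ℂ[X] (RatFunc ℂ) A₂,
        algebraMap ℂ[X] (RatFunc ℂ) B₁ / algebraMap ℂ[X] (RatFunc ℂ) B₂} : Set (RatFunc ℂ)) = ⊤)
    (hrel : aeval (algebraMap ℂ[X] (RatFunc ℂ) A₁ / algebraMap ℂ[X] (RatFunc ℂ) A₂) N *
        aeval (algebraMap ℂ[X] (RatFunc ℂ) B₁ / algebraMap ℂ[X] (RatFunc ℂ) B₂) S₂ =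
      aeval (algebraMap ℂ[X] (RatFunc ℂ) A₁ / algebraMap ℂ[X] (RatFunc ℂ) A₂) Q *
        aeval (algebraMap ℂ[X] (RatFunc ℂ) B₁ / algebraMap ℂ[X] (RatFunc ℂ) B₂) S₁)
    (y₀ c a : ℂ) (hS : S₁.eval y₀ = c * S₂.eval y₀) (hS₂ : S₂.eval y₀ ≠ 0)
    (hNQ : N - C c * Q ≠ 0) :
    (((B₁ - C y₀ * B₂).roots).filter (fun t => A₁.eval t = a * A₂.eval t)).card ≤
      (N - C c * Q).rootMultiplicity a := by
  classical
  -- degenerate case
  rcases eq_or_ne A₂ 0 with hA2 | hA2
  · have hempty : ((B₁ - C y₀ * B₂).roots).filter (fun t => A₁.eval t = a * A₂.eval t) = 0 := by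
      rw [Multiset.filter_eq_nil]
      intro t _ ht
      rw [hA2, eval_zero, mul_zero] at ht
      obtain ⟨u, v, huv⟩ := hA
      have h2 := congrArg (eval t) huv
      rw [eval_add, eval_mul, eval_mul, ht, hA2, eval_zero, mul_zero, mul_zero, eval_one,
        add_zero] at h2
      exact zero_ne_one h2
    rw [hempty, Multiset.card_zero]
    exact Nat.zero_le _
  have hB2 : B₂ ≠ 0 := by
    intro h
    rw [h, isCoprime_zero_right] at hB
    rw [h, natDegree_zero, natDegree_eq_zero_of_isUnit hB] at hdeg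
    exact lt_irrefl _ hdeg
  have hB1 : B₁ ≠ 0 := by
    intro h
    rw [h, natDegree_zero] at hdeg
    exact absurd hdeg (Nat.not_lt_zero _)
  set FF := RatFunc ℂ with hFF
  set a1 : FF := algebraMap ℂ[X] (RatFunc ℂ) A₁ with ha1
  set a2 : FF := algebraMap ℂ[X] (RatFunc ℂ) A₂ with ha2
  set b1 : FF := algebraMap ℂ[X] (RatFunc ℂ) B₁ with hb1
  set b2 : FF := algebraMap ℂ[X] (RatFunc ℂ) B₂ with hb2
  have ha2' : a2 ≠ 0 := RatFunc.algebraMap_ne_zero hA2
  have hb2' : b2 ≠ 0 := RatFunc.algebraMap_ne_zero hB2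
  obtain ⟨A, hAdef⟩ : ∃ A : FF, A = a1 / a2 := ⟨_, rfl⟩
  obtain ⟨B, hBdef⟩ : ∃ B : FF, B = b1 / b2 := ⟨_, rfl⟩
  rw [← hAdef, ← hBdef] at hgen hrel
  have hAm : a1 = A * a2 := by rw [hAdef, div_mul_cancel₀ _ ha2']
  have hBm : b1 = B * b2 := by rw [hBdef, div_mul_cancel₀ _ hb2']
  -- numerator and denominator degrees of B
  have hnd : max B.num.natDegree B.denom.natDegree = B₁.natDegree := by
    have h1 : B.num * B₂ = B₁ * B.denom := by
      have := RatFunc.num_div_denom B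
      rw [hBdef] at this
      rw [hBdef]
      exact (RatFunc.num_mul_eq_mul_denom_iff hB2).2 rfl
    have hn0 : B.num ≠ 0 := by
      rw [Ne, RatFunc.num_eq_zero_iff, hBdef, div_eq_zero_iff, not_or]
      exact ⟨RatFunc.algebraMap_ne_zero hB1, hb2'⟩
    have hd0 : B.denom ≠ 0 := B.denom_ne_zero
    have hdvd1 : B₂ ∣ B.denom := by
      have : B₂ ∣ B₁ * B.denom := ⟨B.num, by rw [← h1]; ring⟩
      exact hB.symm.dvd_of_dvd_mul_left this
    have hdvd2 : B.denom ∣ B₂ := by
      have : B.denom ∣ B.num * B₂ := ⟨B₁, by rw [h1]; ring⟩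
      exact B.isCoprime_num_denom.symm.dvd_of_dvd_mul_left this
    have hdd : B.denom.natDegree = B₂.natDegree :=
      le_antisymm (natDegree_le_of_dvd hdvd2 hB2) (natDegree_le_of_dvd hdvd1 hd0)
    have hnn : B.num.natDegree = B₁.natDegree := by
      have := congrArg natDegree h1
      rw [natDegree_mul hn0 hB2, natDegree_mul hB1 hd0, hdd] at this
      omega
    rw [hnn, hdd]
    exact max_eq_left hdeg.le
  have hBC : ¬ ∃ c, B = RatFunc.C c := by
    rintro ⟨c, hc⟩
    rw [hc, RatFunc.num_C, RatFunc.denom_C, natDegree_C, natDegree_one, max_self] at hnd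
    omega
  have htr : Transcendental ℂ B := B.transcendental_of_ne_C hBC
  -- the field k
  set k := IntermediateField.adjoin ℂ ({B} : Set FF) with hk
  have hfin : Module.finrank k FF = B₁.natDegree := by
    rw [← hnd]
    exact RatFunc.finrank_eq_max_natDegree B
  have hFfin : Module.Finite k FF := by
    apply Module.finite_of_finrank_pos
    rw [hfin]
    omega
  have hAint : IsIntegral k A := IsIntegral.of_finite k A
  have htop : IntermediateField.adjoin k ({A} : Set FF) = ⊤ := by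
    rw [← IntermediateField.restrictScalars_eq_top_iff (K := ℂ), IntermediateField.adjoin_adjoin_left,
      ← hgen]
    congr 1
    ext z
    simp only [Set.mem_union, Set.mem_singleton_iff, Set.mem_insert_iff]
    tauto
  have hmin : (minpoly k A).natDegree = B₁.natDegree := by
    rw [← IntermediateField.adjoin.finrank hAint, htop, IntermediateField.finrank_top', hfin]
  -- the maps
  have hBk : B ∈ k := IntermediateField.mem_adjoin_simple_self ℂ B
  set bk : ℂ[X] →+* k := (aeval (⟨B, hBk⟩ : k) : ℂ[X] →ₐ[ℂ] k).toRingHom with hbk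
  set bF : ℂ[X] →+* FF := (aeval B : ℂ[X] →ₐ[ℂ] FF).toRingHom with hbF
  have hcomp : (algebraMap k FF).comp bk = bF := by
    apply Polynomial.ringHom_ext
    · intro z
      simp [hbk, hbF, ← IsScalarTower.algebraMap_apply]
    · simp [hbk, hbF]
  have hbFinj : Function.Injective bF := by
    rw [injective_iff_map_eq_zero]
    intro p hp
    by_contra hne
    exact htr ⟨p, hne, hp⟩
  have hbkinj : Function.Injective bk := by
    intro x y hxy
    apply hbFinj
    rw [← hcomp, RingHom.comp_apply, RingHom.comp_apply, hxy]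
  set G : ℂ[X][X] := GG A₁ A₂ B₁ B₂ with hG
  set H : ℂ[X][X] := N.map C * C S₂ - Q.map C * C S₁ with hH
  -- specialisation
  set φ : ℂ[X][X] →+* ℂ[X] := mapRingHom (evalRingHom y₀) with hφ
  have hφC : φ.comp Cc = C := by
    apply RingHom.ext
    intro z
    simp [hφ, Cc]
  have hφY : φ (C X) = C y₀ := by simp [hφ]
  have hφX : φ X = X := by simp [hφ]
  have hffφ : ff (C : ℂ →+* ℂ[X]) (C y₀) B₁ B₂ = (B₁ - C y₀ * B₂).map C := by
    unfold ff
    rw [Polynomial.map_sub, Polynomial.map_mul, Polynomial.map_C]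
  have hGφ : φ G = C B₁.leadingCoeff ^ (max A₁.natDegree A₂.natDegree) *
      ((B₁ - C y₀ * B₂).roots.map (fun t => (C (A₁.eval t) - X * C (A₂.eval t) : ℂ[X]))).prod := by
    have hsp : (B₁ - C y₀ * B₂).Splits := IsAlgClosed.splits _
    have h1 := GG_map A₁ A₂ B₁ B₂ hdeg φ (by
      rw [hφC, hφY, hffφ]
      exact hsp.map C)
    rw [hφC, hφY, hφX, hffφ, hsp.roots_map, Multiset.map_map] at h1
    rw [hG, h1]
    congr 2
    apply Multiset.map_congr rfl
    intro t _
    simp only [Function.comp]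
    rw [eval₂_at_apply, eval₂_at_apply]
  have hGφ0 : φ G ≠ 0 := by
    rw [hGφ]
    apply mul_ne_zero
    · apply pow_ne_zero
      rw [Ne, C_eq_zero, leadingCoeff_eq_zero]
      exact hB1
    · exact prod_ne_zero' A₁ A₂ hA _
  have hG0 : G ≠ 0 := fun h => hGφ0 (by rw [h, map_zero])
  have hGdvd : (X - C a) ^ (((B₁ - C y₀ * B₂).roots).filter
      (fun t => A₁.eval t = a * A₂.eval t)).card ∣ φ G := by
    rw [hGφ]
    exact dvd_mul_of_dvd_right (pow_dvd_prod A₁ A₂ a _) _
  -- G_k kills A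
  have hΨ : ∀ (P : ℂ[X][X]), aeval A (P.map bk) = eval₂RingHom bF A P := by
    intro P
    rw [aeval_def, eval₂_map, hcomp]
    rfl
  have hΨC : (eval₂RingHom bF A).comp Cc = algebraMap ℂ FF := by
    apply RingHom.ext
    intro z
    simp [Cc, hbF]
  have hevT : ∀ P : ℂ[X], P.eval₂ (algebraMap ℂ FF) (RatFunc.X : FF) =
      algebraMap ℂ[X] (RatFunc ℂ) P := by
    intro P
    exact RatFunc.aeval_X_left_eq_algebraMap P
  have hGA : aeval A (G.map bk) = 0 := by
    rw [hΨ, hG]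
    apply GG_root A₁ A₂ B₁ B₂ hdeg (eval₂RingHom bF A) (RatFunc.X : FF)
    · rw [hΨC, hevT, hevT]
      have : (eval₂RingHom bF A) (C X) = B := by simp [hbF]
      rw [this]
      exact hBm
    · rw [hΨC, hevT, hevT]
      have : (eval₂RingHom bF A) X = A := by simp
      rw [this]
      exact hAm
  have hHA : aeval A (H.map bk) = 0 := by
    rw [hΨ, hH]
    have e1 : ∀ P : ℂ[X], (eval₂RingHom bF A) (P.map C) = aeval A P := by
      intro P
      rw [coe_eval₂RingHom, eval₂_map, aeval_def]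
      congr 1
      apply RingHom.ext
      intro z
      simp [hbF]
    have e2 : ∀ P : ℂ[X], (eval₂RingHom bF A) (C P) = aeval B P := by
      intro P
      simp [hbF]
    rw [map_sub, map_mul, map_mul, e1, e1, e2, e2, hrel, sub_self]
  have hGk0 : G.map bk ≠ 0 := by
    rw [Ne, Polynomial.map_eq_zero_iff hbkinj]
    exact hG0
  -- the degree bound
  have hGkdeg : (G.map bk).natDegree ≤ B₁.natDegree := by
    set Om := AlgebraicClosure FF with hOm
    set ω : k →+* Om := (algebraMap FF Om).comp (algebraMap k FF) with hω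
    have h1 : (G.map bk).natDegree = ((G.map bk).map ω).natDegree :=
      (natDegree_map (p := G.map bk) ω).symm
    rw [h1, Polynomial.map_map]
    set Ψ : ℂ[X][X] →+* Om[X] := mapRingHom (ω.comp bk) with hΨdef
    have h2 : G.map (ω.comp bk) = Ψ G := rfl
    rw [h2]
    set κ : ℂ →+* Om := (ω.comp bk).comp C with hκ
    have hΨC' : Ψ.comp Cc = (C : Om →+* Om[X]).comp κ := by
      apply RingHom.ext
      intro z
      simp [hΨdef, Cc, hκ]
    have hΨY : Ψ (C X) = C (ω (bk X)) := by simp [hΨdef]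
    have hΨX : Ψ X = X := by simp [hΨdef]
    have hff : ff ((C : Om →+* Om[X]).comp κ) (C (ω (bk X))) B₁ B₂ =
        (ff κ (ω (bk X)) B₁ B₂).map C := by
      rw [ff_map]
    have hsp : (ff κ (ω (bk X)) B₁ B₂).Splits := IsAlgClosed.splits _
    have h3 := GG_map A₁ A₂ B₁ B₂ hdeg Ψ (by
      rw [hΨC', hΨY, hff]
      exact hsp.map C)
    rw [hΨC', hΨY, hΨX, hff, hsp.roots_map, Multiset.map_map] at h3
    rw [hG, h3]
    have h4 : (((C : Om →+* Om[X]).comp κ) B₁.leadingCoeff ^ (max A₁.natDegree A₂.natDegree) : Om[X])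
        = C ((κ B₁.leadingCoeff) ^ (max A₁.natDegree A₂.natDegree)) := by
      rw [RingHom.comp_apply, C_pow]
    rw [h4]
    refine (natDegree_C_mul_le _ _).trans ?_
    refine (natDegree_multiset_prod_le _).trans ?_
    rw [Multiset.map_map]
    have h5 : (Multiset.map (natDegree ∘ ((fun t => eval₂ ((C : Om →+* Om[X]).comp κ) t A₁ -
        X * eval₂ ((C : Om →+* Om[X]).comp κ) t A₂) ∘ ⇑(C : Om →+* Om[X])))
        (ff κ (ω (bk X)) B₁ B₂).roots).sum ≤
        Multiset.card (Multiset.map (natDegree ∘ ((fun t => eval₂ ((C : Om →+* Om[X]).comp κ) t A₁ -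
        X * eval₂ ((C : Om →+* Om[X]).comp κ) t A₂) ∘ ⇑(C : Om →+* Om[X])))
        (ff κ (ω (bk X)) B₁ B₂).roots) • 1 := by
      apply Multiset.sum_le_card_nsmul
      intro d hd
      rw [Multiset.mem_map] at hd
      obtain ⟨t, -, rfl⟩ := hd
      simp only [Function.comp]
      have h6 : ∀ P : ℂ[X], eval₂ ((C : Om →+* Om[X]).comp κ) (C t) P = C (eval₂ κ t P) := by
        intro P
        rw [Polynomial.hom_eval₂]
      rw [h6, h6]
      refine (natDegree_sub_le _ _).trans (max_le ?_ ?_)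
      · rw [natDegree_C]; exact Nat.zero_le _
      · exact (natDegree_mul_le).trans (by rw [natDegree_C, natDegree_X])
    refine h5.trans ?_
    rw [Multiset.card_map, smul_eq_mul, mul_one]
    refine (card_roots' _).trans ?_
    rw [ff_natDegree _ _ _ _ hdeg]
  -- G_k divides H_k
  have hdvdk : G.map bk ∣ H.map bk := by
    obtain ⟨r, hr⟩ := minpoly.dvd k A hGA
    obtain ⟨s, hs⟩ := minpoly.dvd k A hHA
    have hm0 : minpoly k A ≠ 0 := minpoly.ne_zero hAint
    have hr0 : r ≠ 0 := by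
      rintro rfl
      rw [mul_zero] at hr
      exact hGk0 hr
    have hrdeg : r.natDegree = 0 := by
      have := congrArg natDegree hr
      rw [natDegree_mul hm0 hr0, hmin] at this
      omega
    obtain ⟨e, he⟩ := natDegree_eq_zero.1 hrdeg
    have he0 : e ≠ 0 := by
      rintro rfl
      rw [C_0] at he
      exact hr0 he.symm
    refine ⟨C e⁻¹ * s, ?_⟩
    rw [hr, hs, ← he]
    have : (C e * C e⁻¹ : k[X]) = 1 := by rw [← C_mul, mul_inv_cancel₀ he0, C_1]
    calc minpoly k A * s = minpoly k A * (C e * C e⁻¹) * s := by rw [this, mul_one]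
      _ = _ := by ring
  have hdvdF : G.map bF ∣ H.map bF := by
    rw [← hcomp, ← Polynomial.map_map, ← Polynomial.map_map]
    exact Polynomial.map_dvd _ hdvdk
  -- Gauss
  have hdvdK : G.map (algebraMap ℂ[X] (RatFunc ℂ)) ∣ H.map (algebraMap ℂ[X] (RatFunc ℂ)) := by
    have hj : (IsFractionRing.lift (K := RatFunc ℂ) hbFinj).comp (algebraMap ℂ[X] (RatFunc ℂ)) = bF := by
      apply RingHom.ext
      intro z
      rw [RingHom.comp_apply, IsFractionRing.lift_algebraMap]
    rw [← Polynomial.map_dvd_map' (IsFractionRing.lift (K := RatFunc ℂ) hbFinj), Polynomial.map_map,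
      Polynomial.map_map, hj]
    exact hdvdF
  have hprim : G.primPart ∣ H := by
    apply G.isPrimitive_primPart.dvd_of_fraction_map_dvd_fraction_map (K := RatFunc ℂ)
    exact (Polynomial.map_dvd _ G.primPart_dvd).trans hdvdK
  have hφH : φ H = C (S₂.eval y₀) * (N - C c * Q) := by
    have e1 : ∀ P : ℂ[X], φ (P.map C) = P := by
      intro P
      rw [hφ, coe_mapRingHom, Polynomial.map_map]
      have : (evalRingHom y₀).comp (C : ℂ →+* ℂ[X]) = RingHom.id ℂ := by
        apply RingHom.ext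
        intro z
        simp
      rw [this, Polynomial.map_id]
    have e2 : ∀ P : ℂ[X], φ (C P) = C (P.eval y₀) := by
      intro P
      simp [hφ]
    rw [hH, map_sub, map_mul, map_mul, e1, e1, e2, e2, hS, C_mul]
    ring
  have hunit : IsUnit (C (S₂.eval y₀) : ℂ[X]) := isUnit_C.2 (isUnit_iff_ne_zero.2 hS₂)
  have hfinal : φ G ∣ N - C c * Q := by
    have h1 : φ G.primPart ∣ φ H := map_dvd φ hprim
    rw [hφH] at h1
    have h2 : φ G.primPart ∣ N - C c * Q := by
      exact (hunit.dvd_mul_left).1 h1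
    have h3 : φ G = C (G.content.eval y₀) * φ G.primPart := by
      conv_lhs => rw [G.eq_C_content_mul_primPart]
      rw [map_mul]
      simp [hφ]
    have h4 : G.content.eval y₀ ≠ 0 := by
      intro h
      rw [h, C_0, zero_mul] at h3
      exact hGφ0 h3
    rw [h3]
    exact (IsUnit.mul_left_dvd (isUnit_C.2 (isUnit_iff_ne_zero.2 h4))).2 h2
  rw [le_rootMultiplicity_iff hNQ]
  exact hGdvd.trans hfinal

end Pool.Agent.Helper881.Cen.Mult
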