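import Mathlib
import Pool.Agent.Helper881.CenDefs
import Pool.Agent.Helper881.CenFibre
import Pool.Agent.Helper881.CenMult
import Pool.Agent.Helper881.CenFull

set_option autoImplicit false

namespace Pool.Agent.Helper881.Cen.LeftNorm

open Pool.Agent.Helper881.Cen.Fibre Pool.Agent.Helper881.Cen.Mult Pool.Agent.Helper881.Cen.Full


open Polynomial









namespace LFN

/-- local inequality, case `p' ≥ 4` -/
lemma loc1 (D : Finset ℂ) (al be : ℂ → ℕ) (P : ℂ → Prop) [DecidablePred P] (e q : ℕ)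
    (hq : 4 ≤ q) (he : 1 ≤ e) (hbe1 : ∀ t ∈ D, 1 ≤ be t) (hsum : ∑ t ∈ D, be t = q)
    (h3 : ∀ t ∈ D, P t → 3 * al t = e * be t) (h1 : ∀ t ∈ D, ¬ P t → al t = e * be t)
    (hk : ∑ t ∈ D with P t, be t ≤ 3) :
    2 * (q - 3) * ∑ t ∈ D with P t, al t ≤
      (q - 3) * ∑ t ∈ D, (be t - 1) + 4 * ∑ t ∈ D, (al t - 1) := by
  rcases Nat.lt_or_ge 1 e with he2 | he1
  · -- e ≥ 2
    have hs3 : 3 * ∑ t ∈ D with P t, al t = e * ∑ t ∈ D with P t, be t := by
      rw [Finset.mul_sum, Finset.mul_sum]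
      apply Finset.sum_congr rfl
      intro t ht
      rw [Finset.mem_filter] at ht
      exact h3 t ht.1 ht.2
    have hs : ∑ t ∈ D with P t, al t ≤ e := by nlinarith
    have hsplit := Finset.sum_filter_add_sum_filter_not D P be
    have hn : q - 3 ≤ ∑ t ∈ D with ¬ P t, be t := by omega
    have hal : (e - 1) * ∑ t ∈ D with ¬ P t, be t ≤ ∑ t ∈ D, (al t - 1) := by
      calc (e - 1) * ∑ t ∈ D with ¬ P t, be t
          = ∑ t ∈ D with ¬ P t, (e - 1) * be t := by rw [Finset.mul_sum]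
        _ ≤ ∑ t ∈ D with ¬ P t, (al t - 1) := by
            apply Finset.sum_le_sum
            intro t ht
            rw [Finset.mem_filter] at ht
            have hb := hbe1 t ht.1
            rw [h1 t ht.1 ht.2, Nat.sub_mul]
            omega
        _ ≤ ∑ t ∈ D, (al t - 1) := Finset.sum_le_sum_of_subset (Finset.filter_subset _ _)
    have h4 : (e - 1) * (q - 3) ≤ ∑ t ∈ D, (al t - 1) :=
      (Nat.mul_le_mul_left _ hn).trans hal
    have h5 : 2 * (q - 3) * ∑ t ∈ D with P t, al t ≤ 2 * (q - 3) * e :=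
      Nat.mul_le_mul_left _ hs
    have h6 : 2 * (q - 3) * e ≤ 4 * ((e - 1) * (q - 3)) := by
      obtain ⟨e', rfl⟩ : ∃ e', e = e' + 2 := ⟨e - 2, by omega⟩
      obtain ⟨q', rfl⟩ : ∃ q', q = q' + 3 := ⟨q - 3, by omega⟩
      simp only [Nat.add_sub_cancel]
      have : e' + 2 - 1 = e' + 1 := by omega
      rw [this]; nlinarith
    have h7 : 4 * ((e - 1) * (q - 3)) ≤ 4 * ∑ t ∈ D, (al t - 1) := Nat.mul_le_mul_left _ h4
    omega
  · have he' : e = 1 := by omega
    subst he'
    have h2 : 2 * ∑ t ∈ D with P t, al t ≤ ∑ t ∈ D, (be t - 1) := by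
      calc 2 * ∑ t ∈ D with P t, al t = ∑ t ∈ D with P t, 2 * al t := by rw [Finset.mul_sum]
        _ ≤ ∑ t ∈ D with P t, (be t - 1) := by
            apply Finset.sum_le_sum
            intro t ht
            rw [Finset.mem_filter] at ht
            have hb := hbe1 t ht.1
            have := h3 t ht.1 ht.2
            omega
        _ ≤ ∑ t ∈ D, (be t - 1) := Finset.sum_le_sum_of_subset (Finset.filter_subset _ _)
    have h5 : 2 * (q - 3) * ∑ t ∈ D with P t, al t ≤ (q - 3) * ∑ t ∈ D, (be t - 1) := by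
      calc 2 * (q - 3) * ∑ t ∈ D with P t, al t = (q - 3) * (2 * ∑ t ∈ D with P t, al t) := by ring
        _ ≤ _ := Nat.mul_le_mul_left _ h2
    omega

/-- local inequality, case `p' = 2, 3` -/
lemma loc2 (D : Finset ℂ) (al be : ℂ → ℕ) (P : ℂ → Prop) [DecidablePred P] (e q : ℕ)
    (hq : q ≤ 3) (he : 1 ≤ e) (hbe1 : ∀ t ∈ D, 1 ≤ be t) (hsum : ∑ t ∈ D, be t = q)
    (h3 : ∀ t ∈ D, P t → 3 * al t = e * be t) (h1 : ∀ t ∈ D, ¬ P t → al t = e * be t) :
    ∑ t ∈ D with P t, al t ≤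
      5 * (e / 3) * (if (∀ t ∈ D, P t) then 1 else 0) + ∑ t ∈ D, (be t - 1)
        + 2 * ∑ t ∈ D, (al t - 1) := by
  classical
  have hs3 : 3 * ∑ t ∈ D with P t, al t = e * ∑ t ∈ D with P t, be t := by
    rw [Finset.mul_sum, Finset.mul_sum]
    apply Finset.sum_congr rfl
    intro t ht
    rw [Finset.mem_filter] at ht
    exact h3 t ht.1 ht.2
  have hsplit := Finset.sum_filter_add_sum_filter_not D P be
  by_cases hfull : ∀ t ∈ D, P t
  · rw [if_pos hfull, mul_one]
    rcases Nat.lt_or_ge 2 e with he3 | he3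
    · have hk3 : ∑ t ∈ D with P t, be t ≤ 3 := by omega
      have hs : ∑ t ∈ D with P t, al t ≤ e := by nlinarith
      have : e ≤ 5 * (e / 3) := by omega
      omega
    · have : ∑ t ∈ D with P t, al t ≤ ∑ t ∈ D, (be t - 1) := by
        calc ∑ t ∈ D with P t, al t ≤ ∑ t ∈ D with P t, (be t - 1) := by
              apply Finset.sum_le_sum
              intro t ht
              rw [Finset.mem_filter] at ht
              have hb := hbe1 t ht.1
              have h := h3 t ht.1 ht.2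
              have hle : be t ≤ 3 := by
                have := Finset.single_le_sum (f := be) (fun i _ => Nat.zero_le _) ht.1
                omega
              interval_cases e <;> omega
          _ ≤ ∑ t ∈ D, (be t - 1) := Finset.sum_le_sum_of_subset (Finset.filter_subset _ _)
      omega
  · rw [if_neg hfull]
    push Not at hfull
    obtain ⟨t', ht', hPt'⟩ := hfull
    have hb' := hbe1 t' ht'
    have hle' : be t' ≤ ∑ t ∈ D with ¬ P t, be t :=
      Finset.single_le_sum (f := be) (fun i _ => Nat.zero_le _)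
        (Finset.mem_filter.2 ⟨ht', hPt'⟩)
    have hk2 : ∑ t ∈ D with P t, be t ≤ 2 := by omega
    rcases Nat.lt_or_ge 1 e with he2 | he1
    · have h4 : al t' - 1 ≤ ∑ t ∈ D, (al t - 1) :=
        Finset.single_le_sum (f := fun t => al t - 1) (fun i _ => Nat.zero_le _) ht'
      have h5 : e ≤ al t' := by rw [h1 t' ht' hPt']; nlinarith
      have h6 : 3 * ∑ t ∈ D with P t, al t ≤ 2 * e := by nlinarith
      omega
    · have he' : e = 1 := by omega
      subst he'
      have : ∑ t ∈ D with P t, al t = 0 := by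
        apply Finset.sum_eq_zero
        intro t ht
        have ht0 := ht
        rw [Finset.mem_filter] at ht
        have hb := hbe1 t ht.1
        have h := h3 t ht.1 ht.2
        have hle : be t ≤ ∑ t ∈ D with P t, be t :=
          Finset.single_le_sum (f := be) (fun i _ => Nat.zero_le _) ht0
        omega
      omega

open Classical in
theorem core (Z : Finset ℂ) (Y : ℂ → Finset ℂ) (D : ℂ → Finset ℂ) (al be : ℂ → ℕ) (xx : ℂ → ℂ)
    (e : ℂ → ℂ → ℕ) (p m m' q δ : ℕ)
    (hq : 2 ≤ q) (hpm : p * m' = m * q) (hm : 2 ≤ m) (hm' : 1 ≤ m') (hqp : q ≤ p)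
    (hZ : p ≤ Z.card + δ) (hp : 2 * δ + 4 ≤ p) (h15 : 15 ≤ Z.card)
    (he : ∀ a ∈ Z, ∀ y ∈ Y a, 1 ≤ e a y)
    (hbe1 : ∀ a ∈ Z, ∀ y ∈ Y a, ∀ t ∈ D y, 1 ≤ be t)
    (hsum : ∀ a ∈ Z, ∀ y ∈ Y a, ∑ t ∈ D y, be t = q)
    (h3 : ∀ a ∈ Z, ∀ y ∈ Y a, ∀ t ∈ D y, xx t = a → 3 * al t = e a y * be t)
    (h1 : ∀ a ∈ Z, ∀ y ∈ Y a, ∀ t ∈ D y, xx t ≠ a → al t = e a y * be t)
    (hk : ∀ a ∈ Z, ∀ y ∈ Y a, ∑ t ∈ D y with xx t = a, be t ≤ 3)
    (hal : ∀ a ∈ Z, ∑ y ∈ Y a, ∑ t ∈ D y with xx t = a, al t = m')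
    (hWA : ∑ a ∈ Z, ∑ y ∈ Y a, ∑ t ∈ D y, (al t - 1) + 2 ≤ 2 * m')
    (hWB : ∑ a ∈ Z, ∑ y ∈ Y a, ∑ t ∈ D y, (be t - 1) + 2 ≤ 2 * q)
    (hfull : ∑ a ∈ Z, ∑ y ∈ Y a, (e a y / 3) * (if ∀ t ∈ D y, xx t = a then 1 else 0) ≤ 2 * m') :
    False := by
  have hJ : ∑ a ∈ Z, ∑ y ∈ Y a, ∑ t ∈ D y with xx t = a, al t = Z.card * m' := by
    rw [Finset.sum_congr rfl hal, Finset.sum_const, smul_eq_mul]
  rcases Nat.lt_or_ge 3 q with hq4 | hq3
  · have h := Finset.sum_le_sum (fun a ha => Finset.sum_le_sum (fun y hy =>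
      loc1 (D y) al be (fun t => xx t = a) (e a y) q hq4 (he a ha y hy) (hbe1 a ha y hy)
        (hsum a ha y hy) (h3 a ha y hy) (h1 a ha y hy) (hk a ha y hy)) (s := Y a)) (s := Z)
    simp only [← Finset.mul_sum, Finset.sum_add_distrib] at h
    rw [hJ] at h
    obtain ⟨r, rfl⟩ : ∃ r, q = r + 4 := ⟨q - 4, by omega⟩
    have hr : r + 4 - 3 = r + 1 := by omega
    rw [hr] at h
    set SA := ∑ a ∈ Z, ∑ y ∈ Y a, ∑ t ∈ D y, (al t - 1) with hSA
    set SB := ∑ a ∈ Z, ∑ y ∈ Y a, ∑ t ∈ D y, (be t - 1) with hSB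
    set J := Z.card with hJd
    -- (r+1) * J * m' ≤ (r+1)(r+3) + 4 (m'-1)
    have h2 : (r + 1) * J * m' + 4 ≤ (r + 1) * (r + 3) + 4 * m' := by
      have h4 : (r + 1) * (SB + 2) ≤ (r + 1) * (2 * (r + 4)) := Nat.mul_le_mul_left _ hWB
      nlinarith
    clear h hJ hk hal h1 h3 hsum hbe1 he hfull
    rcases Nat.lt_or_ge 1 m' with hm2 | hm1
    · obtain ⟨n, rfl⟩ : ∃ n, m' = n + 2 := ⟨m' - 2, by omega⟩
      have hJ1 : p ≤ J + δ := hZ
      -- J (n+2) ≥ (p - δ)(n+2)
      have h5 : p * (n + 2) ≤ (J + δ) * (n + 2) := Nat.mul_le_mul_right _ hJ1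
      -- J(n+2) - (r+3) ≥ (n+1)(p-2δ) + 1
      obtain ⟨w, hw⟩ : ∃ w, p = 2 * δ + 4 + w := ⟨p - (2 * δ + 4), by omega⟩
      -- J (n+2) ≥ r + 4 + (n+1) * 4 - ...
      have h6 : (r + 3) + 4 * (n + 1) + 1 ≤ J * (n + 2) := by
        subst hw
        nlinarith [Nat.zero_le (n * δ), Nat.zero_le (n * w)]
      have h7 : (r + 1) * ((r + 3) + 4 * (n + 1) + 1) ≤ (r + 1) * (J * (n + 2)) :=
        Nat.mul_le_mul_left _ h6
      nlinarith [Nat.zero_le (r * n)]
    · have hm1' : m' = 1 := by omega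
      subst hm1'
      have h5 : (r + 1) * J ≤ (r + 1) * (r + 3) := by omega
      have h6 : J ≤ r + 3 := Nat.le_of_mul_le_mul_left h5 (by omega)
      have h7 : 2 * (r + 4) ≤ p := by
        rw [mul_one] at hpm; rw [hpm]; exact Nat.mul_le_mul_right _ hm
      omega
  · have h := Finset.sum_le_sum (fun a ha => Finset.sum_le_sum (fun y hy =>
      loc2 (D y) al be (fun t => xx t = a) (e a y) q hq3 (he a ha y hy) (hbe1 a ha y hy)
        (hsum a ha y hy) (h3 a ha y hy) (h1 a ha y hy)) (s := Y a)) (s := Z)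
    simp only [mul_assoc 5, ← Finset.mul_sum, Finset.sum_add_distrib] at h
    rw [hJ] at h
    have h14 : Z.card * m' ≤ 14 * m' := by omega
    have := Nat.le_of_mul_le_mul_right h14 hm'
    omega

end LFN
namespace LFN

/-- value of `P₁/P₂` at `t` -/
noncomputable def val (P₁ P₂ : ℂ[X]) (t : ℂ) : ℂ := P₁.eval t / P₂.eval t

/-- multiplicity of `P₁/P₂` at `t` -/
noncomputable def mu (P₁ P₂ : ℂ[X]) (t : ℂ) : ℕ :=
  rootMultiplicity t (P₁ - C (val P₁ P₂ t) * P₂)

lemma cop_eval {P₁ P₂ : ℂ[X]} (h : IsCoprime P₁ P₂) (t : ℂ) (h1 : P₁.eval t = 0)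
    (h2 : P₂.eval t = 0) : False := by
  obtain ⟨a, b, hab⟩ := h
  have := congrArg (eval t) hab
  simp [h1, h2] at this

lemma sub_ne_zero' {P₁ P₂ : ℂ[X]} (h : IsCoprime P₁ P₂) (hM : 1 ≤ max P₁.natDegree P₂.natDegree)
    (x : ℂ) : P₁ - C x * P₂ ≠ 0 := by
  intro h0
  have h1 : P₁ = C x * P₂ := sub_eq_zero.1 h0
  have hu : IsUnit P₂ := by
    have : IsCoprime P₂ P₂ := by
      rw [h1] at h
      exact h.of_mul_left_right
    exact isCoprime_self.1 this
  have hd : P₂.natDegree = 0 := natDegree_eq_zero_of_isUnit hu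
  have hd1 : P₁.natDegree ≤ P₂.natDegree := by
    rw [h1]; exact natDegree_C_mul_le _ _
  omega

lemma eval_eq_of_mem {P₁ P₂ : ℂ[X]} {y t : ℂ} (h : t ∈ (P₁ - C y * P₂).roots) :
    P₁.eval t = y * P₂.eval t := by
  have := (mem_roots'.1 h).2
  rw [IsRoot.def] at this
  simp only [eval_sub, eval_mul, eval_C] at this
  exact sub_eq_zero.1 this

lemma eval_ne_of_mem {P₁ P₂ : ℂ[X]} (hc : IsCoprime P₁ P₂) {y t : ℂ}
    (h : t ∈ (P₁ - C y * P₂).roots) : P₂.eval t ≠ 0 := by
  intro h0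
  have h1 := eval_eq_of_mem h
  rw [h0, mul_zero] at h1
  exact cop_eval hc t h1 h0

lemma val_of_mem {P₁ P₂ : ℂ[X]} (hc : IsCoprime P₁ P₂) {y t : ℂ}
    (h : t ∈ (P₁ - C y * P₂).roots) : val P₁ P₂ t = y := by
  rw [val, div_eq_iff (eval_ne_of_mem hc h), eval_eq_of_mem h]

lemma rm_factor {P₁ P₂ : ℂ[X]} (hc : IsCoprime P₁ P₂) (x t : ℂ) :
    rootMultiplicity t (P₁ - C x * P₂) = if val P₁ P₂ t = x then mu P₁ P₂ t else 0 := by
  split_ifs with h
  · rw [mu, h]
  · by_contra h0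
    have : 0 < rootMultiplicity t (P₁ - C x * P₂) := Nat.pos_of_ne_zero h0
    have hm : t ∈ (P₁ - C x * P₂).roots := by
      rw [← Multiset.count_pos, count_roots]; exact this
    exact h (val_of_mem hc hm)

lemma prod_ne {P₁ P₂ : ℂ[X]} (hc : IsCoprime P₁ P₂) (hM : 1 ≤ max P₁.natDegree P₂.natDegree)
    (s : Multiset ℂ) : ((s.map (fun x => P₁ - C x * P₂)).prod) ≠ 0 := by
  intro h0
  rw [Multiset.prod_eq_zero_iff, Multiset.mem_map] at h0
  obtain ⟨y, -, hy⟩ := h0
  exact sub_ne_zero' hc hM y hy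

lemma rm_prod {P₁ P₂ : ℂ[X]} (hc : IsCoprime P₁ P₂) (hM : 1 ≤ max P₁.natDegree P₂.natDegree)
    (s : Multiset ℂ) (t : ℂ) :
    rootMultiplicity t ((s.map (fun x => P₁ - C x * P₂)).prod) =
      s.count (val P₁ P₂ t) * mu P₁ P₂ t := by
  classical
  induction s using Multiset.induction_on with
  | empty =>
    simp
  | cons x s ih =>
    rw [Multiset.map_cons, Multiset.prod_cons, rootMultiplicity_mul, ih, rm_factor hc,
      Multiset.count_cons]
    · split_ifs with h
      · ring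
      · ring
    · exact mul_ne_zero (sub_ne_zero' hc hM x) (prod_ne hc hM s)

lemma natDegree_prod {P₁ P₂ : ℂ[X]} (hc : IsCoprime P₁ P₂)
    (hM : 1 ≤ max P₁.natDegree P₂.natDegree)
    (s : Multiset ℂ) : ((s.map (fun x => P₁ - C x * P₂)).prod).natDegree =
      (s.map (fun x => (P₁ - C x * P₂).natDegree)).sum := by
  rw [natDegree_multiset_prod, Multiset.map_map]
  · rfl
  · intro h0
    rw [Multiset.mem_map] at h0
    obtain ⟨y, -, hy⟩ := h0
    exact sub_ne_zero' hc hM y hy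

lemma natDegree_le' (P₁ P₂ : ℂ[X]) (x : ℂ) :
    (P₁ - C x * P₂).natDegree ≤ max P₁.natDegree P₂.natDegree := by
  refine (natDegree_sub_le _ _).trans ?_
  exact max_le_max le_rfl (natDegree_C_mul_le _ _)

lemma all_eq_of_sum (s : Multiset ℂ) (f : ℂ → ℕ) (M : ℕ) (hle : ∀ x ∈ s, f x ≤ M)
    (hsum : (s.map f).sum = s.card * M) : ∀ x ∈ s, f x = M := by
  intro x hx
  obtain ⟨s', rfl⟩ := Multiset.exists_cons_of_mem hx
  rw [Multiset.map_cons, Multiset.sum_cons, Multiset.card_cons] at hsum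
  have h1 : (s'.map f).sum ≤ s'.card * M := by
    have := Multiset.sum_le_card_nsmul (s'.map f) M (by
      intro z hz
      rw [Multiset.mem_map] at hz
      obtain ⟨w, hw, rfl⟩ := hz
      exact hle w (Multiset.mem_cons_of_mem hw))
    simpa using this
  have h2 := hle x hx
  nlinarith

lemma sum_mult (H : ℂ[X]) (s : Finset ℂ) (hs : s = H.roots.toFinset) :
    ∑ t ∈ s, rootMultiplicity t H = H.natDegree := by
  classical
  have := (IsAlgClosed.splits H).natDegree_eq_card_roots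
  rw [this, ← Multiset.toFinset_sum_count_eq]
  subst hs
  apply Finset.sum_congr
  · congr!
  · intro t _; rw [count_roots]

/-- the ramification bound -/
lemma ram_bound {P₁ P₂ : ℂ[X]} (hc : IsCoprime P₁ P₂)
    (hM : 1 ≤ max P₁.natDegree P₂.natDegree) (T : Finset ℂ) :
    ∑ t ∈ T, (mu P₁ P₂ t - 1) + 2 ≤ 2 * max P₁.natDegree P₂.natDegree := by
  classical
  set W := wronskian P₁ P₂ with hW
  have hW0 : W ≠ 0 := by
    intro h0
    rw [hW, hc.wronskian_eq_zero_iff] at h0
    have h1 := derivative_eq_zero.1 h0.1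
    have h2 := derivative_eq_zero.1 h0.2
    omega
  have hWx : ∀ x : ℂ, W = wronskian (P₁ - C x * P₂) P₂ := by
    intro x
    simp only [hW, wronskian, derivative_sub, derivative_mul, derivative_C, zero_mul, zero_add]
    ring
  have hdeg : W.natDegree + 2 ≤ 2 * max P₁.natDegree P₂.natDegree := by
    rcases eq_or_ne P₁.natDegree P₂.natDegree with he | hne
    · have hP2 : P₂ ≠ 0 := by
        rintro rfl
        simp at he
        rw [he] at hM; simp at hM
      have hl2 : P₂.leadingCoeff ≠ 0 := leadingCoeff_ne_zero.2 hP2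
      set x := P₁.leadingCoeff / P₂.leadingCoeff with hx
      have hx0 := hWx x
      have hlt : (P₁ - C x * P₂).natDegree < P₂.natDegree := by
        have hle := natDegree_le' P₁ P₂ x
        rw [he, max_self] at hle
        rcases hle.lt_or_eq with h | h
        · exact h
        · exfalso
          have hcoef : (P₁ - C x * P₂).coeff P₂.natDegree = 0 := by
            rw [coeff_sub, coeff_C_mul, ← leadingCoeff, ← he, ← leadingCoeff, hx,
              div_mul_cancel₀ _ hl2, sub_self]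
          rw [← h, ← leadingCoeff, leadingCoeff_eq_zero] at hcoef
          exact sub_ne_zero' hc hM x hcoef
      have h3 := natDegree_wronskian_lt_add (a := P₁ - C x * P₂) (b := P₂) (hx0 ▸ hW0)
      rw [← hx0] at h3
      omega
    · have h3 := natDegree_wronskian_lt_add (a := P₁) (b := P₂) hW0
      rw [← hW] at h3
      omega
  have hmu : ∀ t, mu P₁ P₂ t - 1 ≤ rootMultiplicity t W := by
    intro t
    rw [le_rootMultiplicity_iff hW0, hWx (val P₁ P₂ t), wronskian]
    have h1 : (X - C t) ^ mu P₁ P₂ t ∣ P₁ - C (val P₁ P₂ t) * P₂ := pow_rootMultiplicity_dvd _ _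
    apply dvd_sub
    · exact Dvd.dvd.mul_right ((pow_dvd_pow _ (Nat.sub_le _ _)).trans h1) _
    · exact Dvd.dvd.mul_right (pow_sub_one_dvd_derivative_of_pow_dvd h1) _
  have hsum : ∑ t ∈ T, (mu P₁ P₂ t - 1) ≤ W.natDegree := by
    calc ∑ t ∈ T, (mu P₁ P₂ t - 1) ≤ ∑ t ∈ T, rootMultiplicity t W :=
          Finset.sum_le_sum (fun t _ => hmu t)
      _ ≤ ∑ t ∈ T ∪ W.roots.toFinset, rootMultiplicity t W :=
          Finset.sum_le_sum_of_subset Finset.subset_union_left
      _ = ∑ t ∈ W.roots.toFinset, rootMultiplicity t W := by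
          symm
          apply Finset.sum_subset Finset.subset_union_right
          intro t _ ht
          rw [Multiset.mem_toFinset] at ht
          rw [← count_roots]
          exact Multiset.count_eq_zero_of_notMem ht
      _ = W.natDegree := sum_mult W _ rfl
  omega

end LFN

namespace LFN

lemma rel_fibre (N Q S₁ S₂ A₁ A₂ B₁ B₂ : ℂ[X]) (hNQ : IsCoprime N Q)
    (hS : IsCoprime S₁ S₂) (hA : IsCoprime A₁ A₂) (hB : IsCoprime B₁ B₂)
    (hNd : 1 ≤ max N.natDegree Q.natDegree)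
    (hAd : 1 ≤ max A₁.natDegree A₂.natDegree) (hSd : 1 ≤ max S₁.natDegree S₂.natDegree)
    (hBd : 1 ≤ max B₁.natDegree B₂.natDegree)
    (hrel : aeval (algebraMap ℂ[X] (RatFunc ℂ) A₁ / algebraMap ℂ[X] (RatFunc ℂ) A₂) N *
        aeval (algebraMap ℂ[X] (RatFunc ℂ) B₁ / algebraMap ℂ[X] (RatFunc ℂ) B₂) S₂ =
      aeval (algebraMap ℂ[X] (RatFunc ℂ) A₁ / algebraMap ℂ[X] (RatFunc ℂ) A₂) Q *
        aeval (algebraMap ℂ[X] (RatFunc ℂ) B₁ / algebraMap ℂ[X] (RatFunc ℂ) B₂) S₁) :
    max N.natDegree Q.natDegree * max A₁.natDegree A₂.natDegree =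
      max S₁.natDegree S₂.natDegree * max B₁.natDegree B₂.natDegree ∧
    ∀ c : ℂ, (N - C c * Q).natDegree = max N.natDegree Q.natDegree →
      (S₁ - C c * S₂).natDegree = max S₁.natDegree S₂.natDegree →
      ∃ u v : ℂ, u ≠ 0 ∧ v ≠ 0 ∧
        C u * (((N - C c * Q).roots).map (fun x => A₁ - C x * A₂)).prod =
        C v * (((S₁ - C c * S₂).roots).map (fun x => B₁ - C x * B₂)).prod := by
  obtain ⟨U, V, hUV, h1, h2, h3⟩ := comp_fibre N Q A₁ A₂ hNQ hA hNd hAd
  obtain ⟨U', V', hUV', h1', h2', h3'⟩ := comp_fibre S₁ S₂ B₁ B₂ hS hB hSd hBd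
  set α := algebraMap ℂ[X] (RatFunc ℂ) A₁ / algebraMap ℂ[X] (RatFunc ℂ) A₂
  set β := algebraMap ℂ[X] (RatFunc ℂ) B₁ / algebraMap ℂ[X] (RatFunc ℂ) B₂
  obtain ⟨s, r, hsr⟩ := hNQ
  obtain ⟨s', r', hsr'⟩ := hS
  have e1 : aeval α s * aeval α N + aeval α r * aeval α Q = 1 := by
    have := congrArg (aeval α) hsr
    simpa using this
  have e2 : aeval β s' * aeval β S₁ + aeval β r' * aeval β S₂ = 1 := by
    have := congrArg (aeval β) hsr'
    simpa using this
  set NA := aeval α N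
  set QA := aeval α Q
  set SB1 := aeval β S₁
  set SB2 := aeval β S₂
  set sA := aeval α s
  set rA := aeval α r
  set sB := aeval β s'
  set rB := aeval β r'
  set φ := algebraMap ℂ[X] (RatFunc ℂ)
  have hx : φ U * φ V' = φ U' * φ V := by
    have k1 : φ U = (sA * φ U + rA * φ V) * NA := by
      linear_combination (-φ U) * e1 + rA * h1
    have k2 : φ V = (sA * φ U + rA * φ V) * QA := by
      linear_combination (-φ V) * e1 - sA * h1
    have k3 : φ U' = (sB * φ U' + rB * φ V') * SB1 := by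
      linear_combination (-φ U') * e2 + rB * h1'
    have k4 : φ V' = (sB * φ U' + rB * φ V') * SB2 := by
      linear_combination (-φ V') * e2 - sB * h1'
    generalize sA * φ U + rA * φ V = κ at k1 k2
    generalize sB * φ U' + rB * φ V' = κ' at k3 k4
    rw [k1, k2, k3, k4]
    linear_combination κ * κ' * hrel
  have hx' : U * V' = U' * V := by
    apply IsFractionRing.injective ℂ[X] (RatFunc ℂ)
    rw [map_mul, map_mul]; exact hx
  obtain ⟨a, b, hab⟩ := hUV
  have hl1 : (a * U' + b * V') * U = U' := by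
    linear_combination U' * hab + b * hx'
  have hl2 : (a * U' + b * V') * V = V' := by
    linear_combination V' * hab - a * hx'
  set l := a * U' + b * V' with hl
  have hlu : IsUnit l := by
    obtain ⟨a', b', hab'⟩ := hUV'
    rw [← hl1, ← hl2] at hab'
    refine IsUnit.of_mul_eq_one (a' * U + b' * V) ?_
    linear_combination hab'
  obtain ⟨k, hk, hkl⟩ := Polynomial.isUnit_iff.1 hlu
  have hk0 : k ≠ 0 := hk.ne_zero
  rw [← hkl] at hl1 hl2
  refine ⟨?_, ?_⟩
  · rw [← h2, ← h2', ← hl1, ← hl2, natDegree_C_mul hk0, natDegree_C_mul hk0]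
  · intro c hc1 hc2
    have g1 := h3 c hc1
    have g2 := h3' c hc2
    refine ⟨k * (N - C c * Q).leadingCoeff, (S₁ - C c * S₂).leadingCoeff, ?_, ?_, ?_⟩
    · apply mul_ne_zero hk0
      rw [leadingCoeff_ne_zero]
      intro h0; rw [h0, natDegree_zero] at hc1; omega
    · rw [leadingCoeff_ne_zero]
      intro h0; rw [h0, natDegree_zero] at hc2; omega
    · rw [← g2, C_mul, mul_assoc, ← g1, ← hl1, ← hl2]; ring

lemma not_mem_of (A₁ A₂ B₁ B₂ : ℂ[X]) (hB : IsCoprime B₁ B₂)
    (hB2 : B₂ ≠ 0)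
    (hq : 2 ≤ B₁.natDegree)
    (hgen : IntermediateField.adjoin ℂ
      ({algebraMap ℂ[X] (RatFunc ℂ) A₁ / algebraMap ℂ[X] (RatFunc ℂ) A₂,
        algebraMap ℂ[X] (RatFunc ℂ) B₁ / algebraMap ℂ[X] (RatFunc ℂ) B₂} : Set (RatFunc ℂ)) = ⊤) :
    algebraMap ℂ[X] (RatFunc ℂ) A₁ / algebraMap ℂ[X] (RatFunc ℂ) A₂ ∉
      IntermediateField.adjoin ℂ
        ({algebraMap ℂ[X] (RatFunc ℂ) B₁ / algebraMap ℂ[X] (RatFunc ℂ) B₂} : Set (RatFunc ℂ)) := by
  intro hmem
  set α := algebraMap ℂ[X] (RatFunc ℂ) A₁ / algebraMap ℂ[X] (RatFunc ℂ) A₂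
  set β := algebraMap ℂ[X] (RatFunc ℂ) B₁ / algebraMap ℂ[X] (RatFunc ℂ) B₂ with hβ
  have htop : IntermediateField.adjoin ℂ ({β} : Set (RatFunc ℂ)) = ⊤ := by
    rw [eq_top_iff, ← hgen, IntermediateField.adjoin_le_iff]
    intro x hx
    rcases hx with rfl | hx
    · exact hmem
    · rw [Set.mem_singleton_iff] at hx
      subst hx
      exact IntermediateField.mem_adjoin_simple_self ℂ _
  have h1 := RatFunc.finrank_eq_max_natDegree β
  rw [htop, IntermediateField.finrank_top] at h1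
  have h2 : B₁ ∣ β.num := by
    have h3 := RatFunc.num_div_denom β
    have hd : algebraMap ℂ[X] (RatFunc ℂ) β.denom ≠ 0 := by
      intro h0
      exact β.denom_ne_zero ((IsFractionRing.injective ℂ[X] (RatFunc ℂ)) (by rw [h0, map_zero]))
    have hb : algebraMap ℂ[X] (RatFunc ℂ) B₂ ≠ 0 := by
      intro h0
      exact hB2 ((IsFractionRing.injective ℂ[X] (RatFunc ℂ)) (by rw [h0, map_zero]))
    have h4 : β.num * B₂ = B₁ * β.denom := by
      apply IsFractionRing.injective ℂ[X] (RatFunc ℂ)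
      rw [map_mul, map_mul]
      have h5 := h3.trans hβ
      rw [div_eq_div_iff hd hb] at h5
      exact h5
    exact hB.dvd_of_dvd_mul_right (h4 ▸ dvd_mul_right _ _)
  have hn0 : β.num ≠ 0 := by
    intro h0
    rw [h0] at h1
    rw [RatFunc.num_eq_zero_iff] at h0
    rw [hβ, div_eq_zero_iff] at h0
    rcases h0 with h0 | h0
    · have : B₁ = 0 := (IsFractionRing.injective ℂ[X] (RatFunc ℂ)) (by rw [h0, map_zero])
      rw [this, natDegree_zero] at hq; omega
    · exact hB2 ((IsFractionRing.injective ℂ[X] (RatFunc ℂ)) (by rw [h0, map_zero]))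
  have h6 := natDegree_le_of_dvd h2 hn0
  omega

end LFN

/-- TARGET (T2, normalised form).
`R = N/Q` has many good points, `R ∘ A = S ∘ B`, `A, B` generate the field, `deg S ≥ 2`,
`B(∞) = ∞`, `S(∞)` is not one of the good values: then `B` is a polynomial of degree one. -/
theorem left_factor_norm (N Q S₁ S₂ A₁ A₂ B₁ B₂ : ℂ[X]) (hNQ : IsCoprime N Q)
    (hS : IsCoprime S₁ S₂) (hA : IsCoprime A₁ A₂) (hB : IsCoprime B₁ B₂)
    (hAd : 1 ≤ max A₁.natDegree A₂.natDegree) (hSd : 2 ≤ max S₁.natDegree S₂.natDegree)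
    (hdeg : B₂.natDegree < B₁.natDegree)
    (hgen : IntermediateField.adjoin ℂ
      ({algebraMap ℂ[X] (RatFunc ℂ) A₁ / algebraMap ℂ[X] (RatFunc ℂ) A₂,
        algebraMap ℂ[X] (RatFunc ℂ) B₁ / algebraMap ℂ[X] (RatFunc ℂ) B₂} : Set (RatFunc ℂ)) = ⊤)
    (hrel : aeval (algebraMap ℂ[X] (RatFunc ℂ) A₁ / algebraMap ℂ[X] (RatFunc ℂ) A₂) N *
        aeval (algebraMap ℂ[X] (RatFunc ℂ) B₁ / algebraMap ℂ[X] (RatFunc ℂ) B₂) S₂ =
      aeval (algebraMap ℂ[X] (RatFunc ℂ) A₁ / algebraMap ℂ[X] (RatFunc ℂ) A₂) Q *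
        aeval (algebraMap ℂ[X] (RatFunc ℂ) B₁ / algebraMap ℂ[X] (RatFunc ℂ) B₂) S₁)
    (Z : Finset ℂ) (hgood : ∀ a ∈ Z, GoodPt N Q a)
    (hSinf : ∀ a ∈ Z, ∀ c : ℂ, (N - C c * Q).eval a = 0 →
      (S₁ - C c * S₂).natDegree = max S₁.natDegree S₂.natDegree)
    (δ : ℕ) (hZ : max N.natDegree Q.natDegree ≤ Z.card + δ)
    (hp : 2 * δ + 4 ≤ max N.natDegree Q.natDegree) (h15 : 15 ≤ Z.card) :
    B₁.natDegree = 1 := by
  classical
  by_contra hne
  have hq : 2 ≤ B₁.natDegree := by omega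
  set p := max N.natDegree Q.natDegree with hpdef
  set m := max S₁.natDegree S₂.natDegree with hmdef
  set m' := max A₁.natDegree A₂.natDegree with hm'def
  have hBmax : max B₁.natDegree B₂.natDegree = B₁.natDegree := max_eq_left hdeg.le
  set q := B₁.natDegree with hqdef
  have hBd : 1 ≤ max B₁.natDegree B₂.natDegree := by omega
  obtain ⟨hpm, hfib⟩ := LFN.rel_fibre N Q S₁ S₂ A₁ A₂ B₁ B₂ hNQ hS hA hB (by omega) hAd (by omega)
    hBd hrel
  rw [hBmax] at hpm
  -- choose `c`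
  choose! cc hc1 hc2 hc3 using hgood
  have hNe : ∀ a ∈ Z, N - C (cc a) * Q ≠ 0 := by
    intro a ha h0
    have := hc1 a ha
    rw [h0, natDegree_zero] at this; omega
  have hroot : ∀ a ∈ Z, (N - C (cc a) * Q).eval a = 0 := by
    intro a ha
    have : 0 < rootMultiplicity a (N - C (cc a) * Q) := by rw [hc2 a ha]; norm_num
    exact (rootMultiplicity_pos (hNe a ha)).1 this
  have hG : ∀ a ∈ Z, (S₁ - C (cc a) * S₂).natDegree = m := fun a ha =>
    hSinf a ha (cc a) (hroot a ha)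
  have hcinj : ∀ a ∈ Z, ∀ a' ∈ Z, cc a = cc a' → a = a' := by
    intro a ha a' ha' h
    by_contra hne'
    have h1 := hc3 a ha a' (fun h => hne' h.symm)
    rw [h, hc2 a' ha'] at h1
    omega
  set al : ℂ → ℕ := LFN.mu A₁ A₂ with hal
  set be : ℂ → ℕ := LFN.mu B₁ B₂ with hbe
  set xx : ℂ → ℂ := LFN.val A₁ A₂ with hxx
  set yy : ℂ → ℂ := LFN.val B₁ B₂ with hyy
  -- the multiplicity relation
  have hE : ∀ a ∈ Z, ∀ t, rootMultiplicity (xx t) (N - C (cc a) * Q) * al t =
      rootMultiplicity (yy t) (S₁ - C (cc a) * S₂) * be t := by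
    intro a ha t
    obtain ⟨u, v, hu, hv, huv⟩ := hfib (cc a) (hc1 a ha) (hG a ha)
    have h := congrArg (rootMultiplicity t) huv
    rw [rootMultiplicity_mul (mul_ne_zero (C_ne_zero.2 hu) (LFN.prod_ne hA hAd _)),
      rootMultiplicity_mul (mul_ne_zero (C_ne_zero.2 hv) (LFN.prod_ne hB hBd _)),
      rootMultiplicity_C, rootMultiplicity_C, LFN.rm_prod hA hAd, LFN.rm_prod hB hBd,
      count_roots, count_roots] at h
    simpa using h
  -- degrees
  have hBdeg : ∀ y, (B₁ - C y * B₂).natDegree = q := by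
    intro y
    rw [natDegree_sub_eq_left_of_natDegree_lt]
    exact (natDegree_C_mul_le _ _).trans_lt hdeg
  have hAdeg : ∀ a ∈ Z, (A₁ - C a * A₂).natDegree = m' := by
    intro a ha
    obtain ⟨u, v, hu, hv, huv⟩ := hfib (cc a) (hc1 a ha) (hG a ha)
    have h := congrArg natDegree huv
    rw [natDegree_C_mul hu, natDegree_C_mul hv, LFN.natDegree_prod hA hAd,
      LFN.natDegree_prod hB hBd] at h
    have hr : (((S₁ - C (cc a) * S₂).roots).map (fun x => (B₁ - C x * B₂).natDegree)).sum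
        = m * q := by
      rw [Multiset.map_congr rfl (fun x _ => hBdeg x), Multiset.map_const', Multiset.sum_replicate,
        smul_eq_mul, ← (IsAlgClosed.splits (S₁ - C (cc a) * S₂)).natDegree_eq_card_roots,
        hG a ha]
    rw [hr, ← hpm] at h
    have hcard : (N - C (cc a) * Q).roots.card = p := by
      rw [← (IsAlgClosed.splits (N - C (cc a) * Q)).natDegree_eq_card_roots, hc1 a ha]
    refine LFN.all_eq_of_sum _ (fun x => (A₁ - C x * A₂).natDegree) m'
      (fun x _ => LFN.natDegree_le' A₁ A₂ x) (by rw [h, hcard]) a ?_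
    rw [mem_roots (hNe a ha)]; exact hroot a ha
  -- the index sets
  set Y : ℂ → Finset ℂ := fun a => (S₁ - C (cc a) * S₂).roots.toFinset with hY
  set D : ℂ → Finset ℂ := fun y => (B₁ - C y * B₂).roots.toFinset with hD
  set e : ℂ → ℂ → ℕ := fun a y => rootMultiplicity y (S₁ - C (cc a) * S₂) with he
  have hyD : ∀ y, ∀ t ∈ D y, yy t = y := by
    intro y t ht
    rw [hD, Multiset.mem_toFinset] at ht
    exact LFN.val_of_mem hB ht
  have hbeD : ∀ y, ∀ t ∈ D y, be t = rootMultiplicity t (B₁ - C y * B₂) := by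
    intro y t ht
    rw [hbe, LFN.mu, ← hyy, hyD y t ht]
  have hbe1 : ∀ y, ∀ t ∈ D y, 1 ≤ be t := by
    intro y t ht
    rw [hbeD y t ht]
    rw [hD, Multiset.mem_toFinset, ← Multiset.count_pos, count_roots] at ht
    exact ht
  have hsumD : ∀ y, ∑ t ∈ D y, be t = q := by
    intro y
    rw [Finset.sum_congr rfl (hbeD y), LFN.sum_mult _ _ rfl, hBdeg]
  have he1 : ∀ a ∈ Z, ∀ y ∈ Y a, 1 ≤ e a y := by
    intro a _ y hy
    rw [hY, Multiset.mem_toFinset, ← Multiset.count_pos, count_roots] at hy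
    exact hy
  have hED : ∀ a ∈ Z, ∀ y ∈ Y a, ∀ t ∈ D y,
      rootMultiplicity (xx t) (N - C (cc a) * Q) * al t = e a y * be t := by
    intro a ha y _ t ht
    rw [hE a ha t, hyD y t ht]
  have hpos : ∀ a ∈ Z, ∀ y ∈ Y a, ∀ t ∈ D y,
      1 ≤ rootMultiplicity (xx t) (N - C (cc a) * Q) ∧ 1 ≤ al t := by
    intro a ha y hy t ht
    have h1 := hED a ha y hy t ht
    have h2 : 0 < e a y * be t := Nat.mul_pos (he1 a ha y hy) (hbe1 y t ht)
    rw [← h1] at h2
    exact ⟨Nat.pos_of_mul_pos_right h2, Nat.pos_of_mul_pos_left h2⟩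
  have h3 : ∀ a ∈ Z, ∀ y ∈ Y a, ∀ t ∈ D y, xx t = a → 3 * al t = e a y * be t := by
    intro a ha y hy t ht hx
    rw [← hED a ha y hy t ht, hx, hc2 a ha]
  have h1 : ∀ a ∈ Z, ∀ y ∈ Y a, ∀ t ∈ D y, xx t ≠ a → al t = e a y * be t := by
    intro a ha y hy t ht hx
    rw [← hED a ha y hy t ht]
    have g1 := hc3 a ha (xx t) hx
    have g2 := (hpos a ha y hy t ht).1
    have g3 : rootMultiplicity (xx t) (N - C (cc a) * Q) = 1 := by omega
    rw [g3, one_mul]
  have hA2 : ∀ a ∈ Z, ∀ y ∈ Y a, ∀ t ∈ D y, A₂.eval t ≠ 0 := by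
    intro a ha y hy t ht h0
    have g := (hpos a ha y hy t ht).2
    rw [hal, LFN.mu, ← count_roots] at g
    exact LFN.eval_ne_of_mem hA (Multiset.count_pos.1 g) h0
  have hval : ∀ a ∈ Z, ∀ y ∈ Y a, ∀ t ∈ D y, ∀ x, xx t = x ↔ A₁.eval t = x * A₂.eval t := by
    intro a ha y hy t ht x
    rw [hxx, LFN.val, div_eq_iff (hA2 a ha y hy t ht)]
  have hYm : ∀ a ∈ Z, ∀ y ∈ Y a, S₁.eval y = cc a * S₂.eval y ∧ S₂.eval y ≠ 0 := by
    intro a _ y hy
    rw [hY, Multiset.mem_toFinset] at hy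
    exact ⟨LFN.eval_eq_of_mem hy, LFN.eval_ne_of_mem hS hy⟩
  have hmb : ∀ a ∈ Z, ∀ y ∈ Y a, ∀ x, ∑ t ∈ D y with xx t = x, be t ≤
      rootMultiplicity x (N - C (cc a) * Q) := by
    intro a ha y hy x
    have g := mult_bound N Q S₁ S₂ A₁ A₂ B₁ B₂ hA hB hdeg hgen hrel y (cc a) x
      (hYm a ha y hy).1 (hYm a ha y hy).2 (hNe a ha)
    refine le_trans (le_of_eq ?_) g
    rw [← Multiset.toFinset_sum_count_eq]
    apply Finset.sum_congr
    · ext t
      simp only [Finset.mem_filter, Multiset.mem_toFinset, Multiset.mem_filter]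
      constructor
      · rintro ⟨ht, hx⟩
        refine ⟨Multiset.mem_toFinset.1 ht, (hval a ha y hy t ht x).1 hx⟩
      · rintro ⟨ht, hx⟩
        have ht' : t ∈ D y := Multiset.mem_toFinset.2 ht
        exact ⟨ht', (hval a ha y hy t ht' x).2 hx⟩
    · intro t ht
      simp only [Multiset.mem_toFinset, Multiset.mem_filter] at ht
      have ht' : t ∈ D y := Multiset.mem_toFinset.2 ht.1
      rw [Multiset.count_filter, if_pos ht.2, count_roots, hbeD y t ht']
  have hk : ∀ a ∈ Z, ∀ y ∈ Y a, ∑ t ∈ D y with xx t = a, be t ≤ 3 := by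
    intro a ha y hy
    have := hmb a ha y hy a
    rwa [hc2 a ha] at this
  have hYne : ∀ a ∈ Z, (Y a).Nonempty := by
    intro a ha
    have h0 : (S₁ - C (cc a) * S₂).roots.card = m := by
      rw [← (IsAlgClosed.splits (S₁ - C (cc a) * S₂)).natDegree_eq_card_roots, hG a ha]
    rw [hY]
    simp only [Multiset.toFinset_nonempty]
    intro h00
    rw [h00, Multiset.card_zero] at h0; omega
  have hDne : ∀ y, (D y).Nonempty := by
    intro y
    rw [Finset.nonempty_iff_ne_empty]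
    intro h00
    have := hsumD y
    rw [h00, Finset.sum_empty] at this; omega
  have hqp : q ≤ p := by
    obtain ⟨a, ha⟩ : Z.Nonempty := by
      rw [← Finset.card_pos]; omega
    obtain ⟨y, hy⟩ := hYne a ha
    have hmaps : ∀ t ∈ D y, xx t ∈ (N - C (cc a) * Q).roots.toFinset := by
      intro t ht
      rw [Multiset.mem_toFinset, ← Multiset.count_pos, count_roots]
      exact (hpos a ha y hy t ht).1
    calc q = ∑ t ∈ D y, be t := (hsumD y).symm
      _ = ∑ x ∈ (N - C (cc a) * Q).roots.toFinset, ∑ t ∈ D y with xx t = x, be t :=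
          (Finset.sum_fiberwise_of_maps_to hmaps be).symm
      _ ≤ ∑ x ∈ (N - C (cc a) * Q).roots.toFinset, rootMultiplicity x (N - C (cc a) * Q) :=
          Finset.sum_le_sum (fun x _ => hmb a ha y hy x)
      _ = p := by rw [LFN.sum_mult _ _ rfl, hc1 a ha]
  -- disjointness
  have hDdisj : ∀ y y' t, t ∈ D y → t ∈ D y' → y = y' := by
    intro y y' t h h'
    rw [← hyD y t h, hyD y' t h']
  have hYdisj : ∀ a ∈ Z, ∀ a' ∈ Z, ∀ y, y ∈ Y a → y ∈ Y a' → a = a' := by
    intro a ha a' ha' y h h'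
    apply hcinj a ha a' ha'
    have g1 := hYm a ha y h
    have g2 := hYm a' ha' y h'
    have g3 := g1.1.symm.trans g2.1
    exact mul_right_cancel₀ g1.2 g3
  have hbig : ∀ f : ℂ → ℕ, ∑ a ∈ Z, ∑ y ∈ Y a, ∑ t ∈ D y, f t =
      ∑ t ∈ Z.biUnion (fun a => (Y a).biUnion D), f t := by
    intro f
    rw [Finset.sum_biUnion]
    · apply Finset.sum_congr rfl
      intro a ha
      rw [Finset.sum_biUnion]
      intro y hy y' hy' hne'
      rw [Function.onFun, Finset.disjoint_left]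
      intro t ht ht'
      exact hne' (hDdisj y y' t ht ht')
    · intro a ha a' ha' hne'
      rw [Function.onFun, Finset.disjoint_left]
      intro t ht ht'
      rw [Finset.mem_biUnion] at ht ht'
      obtain ⟨y, hy, hty⟩ := ht
      obtain ⟨y', hy', hty'⟩ := ht'
      have := hDdisj y y' t hty hty'
      subst this
      exact hne' (hYdisj a ha a' ha' y hy hy')
  have hWA : ∑ a ∈ Z, ∑ y ∈ Y a, ∑ t ∈ D y, (al t - 1) + 2 ≤ 2 * m' := by
    rw [hbig (fun t => al t - 1)]
    exact LFN.ram_bound hA hAd _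
  have hWB : ∑ a ∈ Z, ∑ y ∈ Y a, ∑ t ∈ D y, (be t - 1) + 2 ≤ 2 * q := by
    rw [hbig (fun t => be t - 1)]
    have := LFN.ram_bound hB hBd (Z.biUnion (fun a => (Y a).biUnion D))
    rw [hBmax] at this
    exact this
  have hal2 : ∀ a ∈ Z, ∑ y ∈ Y a, ∑ t ∈ D y with xx t = a, al t = m' := by
    intro a ha
    rw [← Finset.sum_biUnion]
    · have hset : (Y a).biUnion (fun y => (D y).filter (fun t => xx t = a)) =
          (A₁ - C a * A₂).roots.toFinset := by
        ext t
        simp only [Finset.mem_biUnion, Finset.mem_filter, Multiset.mem_toFinset]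
        constructor
        · rintro ⟨y, hy, ht, hx⟩
          have g := (hpos a ha y hy t ht).2
          rw [hal, LFN.mu, ← hxx, hx, ← count_roots] at g
          exact Multiset.count_pos.1 g
        · intro ht
          have hx : xx t = a := LFN.val_of_mem hA ht
          have hal0 : 0 < al t := by
            rw [hal, LFN.mu, ← hxx, hx, ← count_roots]
            exact Multiset.count_pos.2 ht
          have g := hE a ha t
          rw [hx, hc2 a ha] at g
          have g2 : 0 < rootMultiplicity (yy t) (S₁ - C (cc a) * S₂) * be t := by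
            rw [← g]; omega
          refine ⟨yy t, ?_, ?_, hx⟩
          · rw [hY, Multiset.mem_toFinset, ← Multiset.count_pos, count_roots]
            exact Nat.pos_of_mul_pos_right g2
          · have g3 := Nat.pos_of_mul_pos_left g2
            rw [hbe, LFN.mu, ← hyy, ← count_roots] at g3
            rw [hD, Multiset.mem_toFinset]
            exact Multiset.count_pos.1 g3
      rw [hset, ← hAdeg a ha, ← LFN.sum_mult _ _ rfl]
      apply Finset.sum_congr rfl
      intro t ht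
      rw [Multiset.mem_toFinset] at ht
      rw [hal, LFN.mu, LFN.val_of_mem hA ht]
    · intro y hy y' hy' hne'
      rw [Function.onFun, Finset.disjoint_left]
      intro t ht ht'
      rw [Finset.mem_filter] at ht ht'
      exact hne' (hDdisj y y' t ht.1 ht'.1)
  -- full fibres
  have hA2ne : A₂ ≠ 0 := by
    rintro rfl
    obtain ⟨a, ha⟩ : Z.Nonempty := by
      rw [← Finset.card_pos]; omega
    obtain ⟨y, hy⟩ := hYne a ha
    obtain ⟨t, ht⟩ := hDne y
    exact hA2 a ha y hy t ht (by simp)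
  have hfull : ∑ a ∈ Z, ∑ y ∈ Y a, (e a y / 3) * (if ∀ t ∈ D y, xx t = a then 1 else 0)
      ≤ 2 * m' := by
    by_cases hB2 : B₂ = 0
    · -- then `B₁` is a unit
      exfalso
      rw [hB2] at hB
      have := natDegree_eq_zero_of_isUnit (isCoprime_zero_right.1 hB)
      omega
    have hnot := LFN.not_mem_of A₁ A₂ B₁ B₂ hB hB2 hq hgen
    set Yf : Finset ℂ := Z.biUnion (fun a => (Y a).filter (fun y => ∀ t ∈ D y, xx t = a)) with hYf
    set nn : ℂ → ℕ := fun y => LFN.mu S₁ S₂ y / 3 with hnn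
    set aa : ℂ → ℂ := fun y => xx (hDne y).choose with haa
    have g := full_bound A₁ A₂ B₁ B₂ hA2ne hB2 hdeg hnot Yf nn aa ?_
    · refine le_trans (le_of_eq ?_) g
      rw [hYf, Finset.sum_biUnion]
      · apply Finset.sum_congr rfl
        intro a ha
        rw [Finset.sum_filter]
        apply Finset.sum_congr rfl
        intro y hy
        have hee : e a y = LFN.mu S₁ S₂ y := by
          rw [he, LFN.mu]
          rw [hY, Multiset.mem_toFinset] at hy
          rw [LFN.val_of_mem hS hy]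
        rw [hee]
        split_ifs <;> simp [hnn]
      · intro a ha a' ha' hne'
        rw [Function.onFun, Finset.disjoint_left]
        intro y hy hy'
        rw [Finset.mem_filter] at hy hy'
        exact hne' (hYdisj a ha a' ha' y hy.1 hy'.1)
    · intro y hy
      rw [hYf, Finset.mem_biUnion] at hy
      obtain ⟨a, ha, hy⟩ := hy
      rw [Finset.mem_filter] at hy
      obtain ⟨hy, hfl⟩ := hy
      have haay : aa y = a := hfl _ (hDne y).choose_spec
      rw [haay]
      have hee : e a y = LFN.mu S₁ S₂ y := by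
        rw [he, LFN.mu]
        rw [hY, Multiset.mem_toFinset] at hy
        rw [LFN.val_of_mem hS hy]
      have hBne : B₁ - C y * B₂ ≠ 0 := LFN.sub_ne_zero' hB hBd y
      rw [IsAlgClosed.dvd_iff_roots_le_roots (pow_ne_zero _ hBne) (LFN.sub_ne_zero' hA hAd a),
        Multiset.le_iff_count]
      intro t
      rw [roots_pow, Multiset.count_nsmul, count_roots, count_roots]
      by_cases ht : t ∈ D y
      · rw [← hbeD y t ht]
        have g3 := h3 a ha y hy t ht (hfl t ht)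
        have g4 : rootMultiplicity t (A₁ - C a * A₂) = al t := by
          rw [hal, LFN.mu, ← hxx, hfl t ht]
        rw [g4, hnn]
        simp only
        rw [← hee]
        have g5 : 3 * (e a y / 3) ≤ e a y := Nat.mul_div_le _ _
        nlinarith [Nat.mul_le_mul_right (be t) g5]
      · have : rootMultiplicity t (B₁ - C y * B₂) = 0 := by
          rw [← count_roots]
          apply Multiset.count_eq_zero_of_notMem
          intro h; exact ht (Multiset.mem_toFinset.2 h)
        rw [this, mul_zero]; exact Nat.zero_le _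
  exact LFN.core Z Y D al be xx e p m m' q δ hq hpm hSd hAd hqp hZ hp h15 he1
    (fun a _ y _ => hbe1 y) (fun a _ y _ => hsumD y) h3 h1 hk hal2 hWA hWB hfull

end Pool.Agent.Helper881.Cen.LeftNorm
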