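import Mathlib
import Pool.Agent.Helper881.Cfd6
import Pool.Agent.Helper881.CenLeftNorm

set_option autoImplicit false

namespace Pool.Agent.Helper881.Cen.Left

open Pool.Agent.Helper881.Cen.LeftNorm


open Polynomial



namespace H59LF
open Pool.Agent.Helper881.Cfd

/-- Moebius change of a polynomial -/
noncomputable def mob (n : ℕ) (t : ℂ) (p : ℂ[X]) : ℂ[X] := reflect n (p.comp (X + C t))

theorem natDegree_shift (t : ℂ) (p : ℂ[X]) : (p.comp (X + C t)).natDegree = p.natDegree := by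
  rw [natDegree_comp, natDegree_X_add_C, mul_one]

theorem mob_aeval {K : Type} [Field K] [Algebra ℂ K] (z : K) (hz : z ≠ 0) (n : ℕ) (p : ℂ[X])
    (hp : p.natDegree ≤ n) (t : ℂ) :
    aeval z (mob n t p) = z ^ n * aeval (algebraMap ℂ K t + z⁻¹) p := by
  have h := aeval_reflect (z⁻¹) (inv_ne_zero hz) n (p.comp (X + C t)) (by rw [natDegree_shift]; exact hp)
  rw [inv_inv, aeval_comp, map_add, aeval_X, aeval_C, add_comm (z⁻¹)] at h
  rw [← h]
  show aeval z (reflect n (p.comp (X + C t))) = _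
  rw [inv_pow]
  have : z ^ n ≠ 0 := pow_ne_zero _ hz
  field_simp

theorem mob_coeff (n : ℕ) (t : ℂ) (p : ℂ[X]) : (mob n t p).coeff n = p.eval t := by
  unfold mob
  rw [coeff_reflect, revAt_le le_rfl, Nat.sub_self, coeff_zero_eq_eval_zero, eval_comp]
  simp

theorem mob_natDegree_le (n : ℕ) (t : ℂ) (p : ℂ[X]) (hp : p.natDegree ≤ n) :
    (mob n t p).natDegree ≤ n := by
  rw [natDegree_le_iff_coeff_eq_zero]
  intro i hi
  unfold mob
  rw [coeff_reflect, revAt_eq_self_of_lt hi]
  apply coeff_eq_zero_of_natDegree_lt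
  rw [natDegree_shift]
  exact lt_of_le_of_lt hp hi

theorem mob_coeff_zero (t : ℂ) (p : ℂ[X]) (hp : p ≠ 0) :
    (mob p.natDegree t p).coeff 0 ≠ 0 := by
  unfold mob
  rw [coeff_reflect, revAt_le (Nat.zero_le _), Nat.sub_zero]
  have h1 : (p.comp (X + C t)).coeff p.natDegree = (p.comp (X + C t)).leadingCoeff := by
    rw [leadingCoeff, natDegree_shift]
  rw [h1, leadingCoeff_comp (by rw [natDegree_X_add_C]; exact one_ne_zero)]
  simp [hp]

theorem mob_coprime (t : ℂ) (p q : ℂ[X]) (h : IsCoprime p q) (n : ℕ)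
    (hn : max p.natDegree q.natDegree = n) : IsCoprime (mob n t p) (mob n t q) := by
  rw [isCoprime_iff_aeval_ne_zero_of_isAlgClosed ℂ ℂ] at h ⊢
  intro a
  by_cases ha : a = 0
  · subst ha
    rw [coe_aeval_eq_eval, ← coeff_zero_eq_eval_zero, ← coeff_zero_eq_eval_zero]
    have hpq : (p ≠ 0 ∧ p.natDegree = n) ∨ (q ≠ 0 ∧ q.natDegree = n) := by
      rcases max_choice p.natDegree q.natDegree with h1 | h1
      · by_cases hp : p = 0
        · right
          have hq : q ≠ 0 := by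
            rcases h 0 with h2 | h2
            · rw [hp, map_zero] at h2; exact absurd rfl h2
            · intro h3; rw [h3, map_zero] at h2; exact h2 rfl
          refine ⟨hq, ?_⟩
          rw [hp, natDegree_zero] at hn h1
          omega
        · left; exact ⟨hp, by omega⟩
      · by_cases hq : q = 0
        · left
          have hp : p ≠ 0 := by
            rcases h 0 with h2 | h2
            · intro h3; rw [h3, map_zero] at h2; exact h2 rfl
            · rw [hq, map_zero] at h2; exact absurd rfl h2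
          refine ⟨hp, ?_⟩
          rw [hq, natDegree_zero] at hn h1
          omega
        · right; exact ⟨hq, by omega⟩
    rcases hpq with ⟨h1, rfl⟩ | ⟨h1, rfl⟩
    · left; exact mob_coeff_zero t p h1
    · right; exact mob_coeff_zero t q h1
  · rw [mob_aeval a ha n p (by omega), mob_aeval a ha n q (by omega)]
    rcases h (algebraMap ℂ ℂ t + a⁻¹) with h1 | h1
    · left; exact mul_ne_zero (pow_ne_zero _ ha) h1
    · right; exact mul_ne_zero (pow_ne_zero _ ha) h1

theorem trans_image (f : RatFunc ℂ →ₐ[ℂ] RatFunc ℂ) (x : RatFunc ℂ) (hx : Transcendental ℂ x) :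
    Transcendental ℂ (f x) := by
  rw [transcendental_iff] at hx ⊢
  intro p hp
  apply hx p
  rw [aeval_algHom_apply] at hp
  exact (map_eq_zero_iff f (RingHom.injective f.toRingHom)).mp hp

theorem trans_ne (x : RatFunc ℂ) (hx : Transcendental ℂ x) (t : ℂ) :
    x ≠ algebraMap ℂ (RatFunc ℂ) t := by
  intro h
  exact hx (h ▸ isAlgebraic_algebraMap t)

theorem trans_inv (x : RatFunc ℂ) (hx : Transcendental ℂ x) : Transcendental ℂ x⁻¹ := by
  intro h
  have := h.inv
  rw [inv_inv] at this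
  exact hx this

theorem trans_add (x : RatFunc ℂ) (hx : Transcendental ℂ x) (t : ℂ) :
    Transcendental ℂ (algebraMap ℂ (RatFunc ℂ) t + x) := by
  intro h
  have h1 := h.sub (isAlgebraic_algebraMap (A := RatFunc ℂ) t)
  rw [add_sub_cancel_left] at h1
  exact hx h1

theorem trans_sub (x : RatFunc ℂ) (hx : Transcendental ℂ x) (t : ℂ) :
    Transcendental ℂ (x - algebraMap ℂ (RatFunc ℂ) t) := by
  intro h
  have h1 := h.add (isAlgebraic_algebraMap (A := RatFunc ℂ) t)
  rw [sub_add_cancel] at h1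
  exact hx h1

/-- the Moebius automorphism `X ↦ t + 1/X` -/
theorem exists_mobEquiv (t : ℂ) : ∃ γ : RatFunc ℂ ≃ₐ[ℂ] RatFunc ℂ,
    γ RatFunc.X = algebraMap ℂ (RatFunc ℂ) t + (RatFunc.X)⁻¹ := by
  obtain ⟨f, hf⟩ := exists_subst (algebraMap ℂ (RatFunc ℂ) t + (RatFunc.X)⁻¹)
    (trans_add _ (trans_inv _ ratX_trans) t)
  obtain ⟨g, hg⟩ := exists_subst ((RatFunc.X - algebraMap ℂ (RatFunc ℂ) t)⁻¹)
    (trans_inv _ (trans_sub _ ratX_trans t))
  refine ⟨AlgEquiv.ofAlgHom f g ?_ ?_, hf⟩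
  · apply hom_ext
    rw [AlgHom.comp_apply, hg, map_inv₀, map_sub, hf, AlgHom.commutes, add_sub_cancel_left,
      inv_inv]
    rfl
  · apply hom_ext
    rw [AlgHom.comp_apply, hf, map_add, map_inv₀, hg, AlgHom.commutes, inv_inv,
      add_sub_cancel]
    rfl

theorem adjoin_pair_map (γ : RatFunc ℂ ≃ₐ[ℂ] RatFunc ℂ) (S : Set (RatFunc ℂ))
    (h : IntermediateField.adjoin ℂ S = ⊤) :
    IntermediateField.adjoin ℂ ((fun x => γ x) '' S) = ⊤ := by
  rw [eq_top_iff]
  intro x _
  have h1 := IntermediateField.adjoin_map ℂ S (γ : RatFunc ℂ →ₐ[ℂ] RatFunc ℂ)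
  have h2 : (γ : RatFunc ℂ →ₐ[ℂ] RatFunc ℂ) (γ.symm x) ∈
      (IntermediateField.adjoin ℂ S).map (γ : RatFunc ℂ →ₐ[ℂ] RatFunc ℂ) :=
    ⟨γ.symm x, by rw [h]; trivial, rfl⟩
  rw [h1] at h2
  have h3 : (γ : RatFunc ℂ →ₐ[ℂ] RatFunc ℂ) (γ.symm x) = x := γ.apply_symm_apply x
  rw [h3] at h2
  exact h2

theorem hom_div (f : RatFunc ℂ →ₐ[ℂ] RatFunc ℂ) (r : RatFunc ℂ) :
    f r = aeval (f RatFunc.X) r.num / aeval (f RatFunc.X) r.denom := by
  conv_lhs => rw [← RatFunc.num_div_denom r]
  rw [map_div₀, hom_poly, hom_poly]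

theorem aeval_ne (x : RatFunc ℂ) (hx : Transcendental ℂ x) (p : ℂ[X]) (hp : p ≠ 0) :
    aeval x p ≠ 0 := by
  intro h
  exact hp ((transcendental_iff.mp hx) p h)

theorem one_le_deg (w : RatFunc ℂ) (hw : Transcendental ℂ w) :
    1 ≤ max w.num.natDegree w.denom.natDegree := by
  by_contra h
  have h1 : w.num.natDegree = 0 ∧ w.denom.natDegree = 0 := by omega
  have h2 := (RatFunc.eq_C_iff (f := w)).mpr h1
  obtain ⟨c, hc⟩ := h2
  exact trans_ne w hw c (by rw [hc]; rfl)

/-- Moebius change giving a pole at infinity -/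
theorem exists_pole (w : RatFunc ℂ) (hw : Transcendental ℂ w) :
    ∃ (γ : RatFunc ℂ ≃ₐ[ℂ] RatFunc ℂ) (B₁ B₂ : ℂ[X]), IsCoprime B₁ B₂ ∧
      B₂.natDegree < B₁.natDegree ∧
      γ w = algebraMap ℂ[X] (RatFunc ℂ) B₁ / algebraMap ℂ[X] (RatFunc ℂ) B₂ := by
  have hdeg := one_le_deg w hw
  by_cases hd : w.denom.natDegree = 0
  · exact ⟨AlgEquiv.refl, w.num, w.denom, w.isCoprime_num_denom, by omega,
      (RatFunc.num_div_denom w).symm⟩
  · obtain ⟨t, ht⟩ := Complex.exists_root (f := w.denom)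
      (by rw [← natDegree_pos_iff_degree_pos]; omega)
    obtain ⟨γ, hγ⟩ := exists_mobEquiv t
    obtain ⟨n, hn⟩ : ∃ n, n = max w.num.natDegree w.denom.natDegree := ⟨_, rfl⟩
    rw [← hn] at hdeg
    have ht1 : eval t w.num ≠ 0 := by
      intro h0
      obtain ⟨u, v, huv⟩ := w.isCoprime_num_denom
      have := congrArg (eval t) huv
      rw [eval_add, eval_mul, eval_mul, h0, ht, mul_zero, mul_zero, add_zero, eval_one] at this
      exact zero_ne_one this
    refine ⟨γ, mob n t w.num, mob n t w.denom, mob_coprime t _ _ w.isCoprime_num_denom n hn.symm,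
      ?_, ?_⟩
    · have h1 : n ≤ (mob n t w.num).natDegree := by
        apply le_natDegree_of_ne_zero
        rw [mob_coeff]
        exact ht1
      have h2 : (mob n t w.denom).natDegree ≤ n := mob_natDegree_le _ _ _ (by omega)
      have h3 : (mob n t w.denom).natDegree ≠ n := by
        intro h4
        have h5 : (mob n t w.denom).leadingCoeff = 0 := by
          rw [leadingCoeff, h4, mob_coeff]
          exact ht
        rw [leadingCoeff_eq_zero] at h5
        rw [h5, natDegree_zero] at h4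
        omega
      omega
    · have h1 := hom_div (γ : RatFunc ℂ →ₐ[ℂ] RatFunc ℂ) w
      have h2 : (γ : RatFunc ℂ →ₐ[ℂ] RatFunc ℂ) RatFunc.X =
        algebraMap ℂ (RatFunc ℂ) t + (RatFunc.X)⁻¹ := hγ
      rw [h2] at h1
      have h3 : γ w = (γ : RatFunc ℂ →ₐ[ℂ] RatFunc ℂ) w := rfl
      rw [h3, h1, ← RatFunc.aeval_X_left_eq_algebraMap, ← RatFunc.aeval_X_left_eq_algebraMap,
        mob_aeval _ RatFunc.X_ne_zero _ _ (by omega), mob_aeval _ RatFunc.X_ne_zero _ _ (by omega),
        mul_div_mul_left _ _ (pow_ne_zero _ RatFunc.X_ne_zero)]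

theorem core (N Q : ℂ[X]) (hNQ : IsCoprime N Q) (Z : Finset ℂ) (hgood : ∀ a ∈ Z, GoodPt N Q a)
    (δ : ℕ) (hZ : max N.natDegree Q.natDegree ≤ Z.card + δ)
    (hp : 2 * δ + 4 ≤ max N.natDegree Q.natDegree) (h15 : 15 ≤ Z.card)
    (a b : RatFunc ℂ) (ha : Transcendental ℂ a) (hb : Transcendental ℂ b)
    (hgen : IntermediateField.adjoin ℂ ({a, b} : Set (RatFunc ℂ)) = ⊤)
    (s₁ s₂ : ℂ[X]) (hs : IsCoprime s₁ s₂) (hsd : 2 ≤ max s₁.natDegree s₂.natDegree)
    (hrel : aeval a N * aeval b s₂ = aeval a Q * aeval b s₁) :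
    IntermediateField.adjoin ℂ ({b} : Set (RatFunc ℂ)) = ⊤ := by
  classical
  obtain ⟨n, hn⟩ : ∃ n, n = max s₁.natDegree s₂.natDegree := ⟨_, rfl⟩
  -- choice of y
  have hne : ∀ c : ℂ, s₁ - C c * s₂ ≠ 0 := by
    intro c hc
    rw [sub_eq_zero] at hc
    have h1 : IsUnit s₂ := by
      rw [hc] at hs
      exact (isCoprime_self.mp (hs.of_mul_left_right))
    have h2 : s₂.natDegree = 0 := natDegree_eq_zero_of_isUnit h1
    have h3 : s₁.natDegree = 0 := by
      rw [hc]
      have := natDegree_C_mul_le c s₂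
      omega
    omega
  obtain ⟨y, hy⟩ : ∃ y : ℂ, ∀ x ∈ Z, ∀ c : ℂ, (N - C c * Q).eval x = 0 →
      (s₁ - C c * s₂).eval y ≠ 0 := by
    obtain ⟨y, hy⟩ := Infinite.exists_notMem_finset
      (Z.biUnion fun x => (s₁ - C (N.eval x / Q.eval x) * s₂).roots.toFinset)
    refine ⟨y, fun x hx c hc h0 => hy ?_⟩
    rw [Finset.mem_biUnion]
    refine ⟨x, hx, ?_⟩
    have hc' : N.eval x = c * Q.eval x := by
      rw [eval_sub, eval_mul, eval_C, sub_eq_zero] at hc
      exact hc
    have hQ : Q.eval x ≠ 0 := by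
      intro hQ0
      rw [hQ0, mul_zero] at hc'
      obtain ⟨u, v, huv⟩ := hNQ
      have := congrArg (eval x) huv
      rw [eval_add, eval_mul, eval_mul, hQ0, hc', mul_zero, mul_zero, add_zero, eval_one] at this
      exact zero_ne_one this
    have hcc : N.eval x / Q.eval x = c := by
      rw [hc', mul_div_cancel_right₀ _ hQ]
    rw [hcc, Multiset.mem_toFinset, mem_roots (hne c)]
    exact h0
  -- the new variable
  obtain ⟨w, hw⟩ : ∃ w, w = (b - algebraMap ℂ (RatFunc ℂ) y)⁻¹ := ⟨_, rfl⟩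
  have hwt : Transcendental ℂ w := by
    rw [hw]; exact trans_inv _ (trans_sub _ hb y)
  have hw0 : w ≠ 0 := by
    have := trans_ne w hwt 0
    rwa [map_zero] at this
  have hbw : b = algebraMap ℂ (RatFunc ℂ) y + w⁻¹ := by
    rw [hw, inv_inv]; ring
  have hrel2 : aeval a N * aeval w (mob n y s₂) = aeval a Q * aeval w (mob n y s₁) := by
    rw [mob_aeval w hw0 n s₂ (by omega), mob_aeval w hw0 n s₁ (by omega), ← hbw]
    linear_combination (w ^ n) * hrel
  obtain ⟨γ, B₁, B₂, hB, hBd, hγw⟩ := exists_pole w hwt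
  have hgen2 : IntermediateField.adjoin ℂ ({a, w} : Set (RatFunc ℂ)) = ⊤ := by
    rw [eq_top_iff, ← hgen, IntermediateField.adjoin_le_iff]
    rintro x (rfl | rfl)
    · exact IntermediateField.subset_adjoin _ _ (Or.inl rfl)
    · rw [hbw]
      exact add_mem (IntermediateField.algebraMap_mem _ y)
        (inv_mem (IntermediateField.subset_adjoin _ _ (Or.inr rfl)))
  have hgen3 := adjoin_pair_map γ _ hgen2
  rw [Set.image_pair] at hgen3
  have hrel3 : aeval (γ a) N * aeval (γ w) (mob n y s₂) =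
      aeval (γ a) Q * aeval (γ w) (mob n y s₁) := by
    have h := congrArg γ hrel2
    rw [map_mul, map_mul] at h
    have e : ∀ (x : RatFunc ℂ) (p : ℂ[X]), γ (aeval x p) = aeval (γ x) p := by
      intro x p
      exact (aeval_algHom_apply (γ : RatFunc ℂ →ₐ[ℂ] RatFunc ℂ) x p).symm
    rw [e, e, e, e] at h
    exact h
  have hat : Transcendental ℂ (γ a) := trans_image (γ : RatFunc ℂ →ₐ[ℂ] RatFunc ℂ) a ha
  have hdiva : algebraMap ℂ[X] (RatFunc ℂ) (γ a).num / algebraMap ℂ[X] (RatFunc ℂ) (γ a).denom =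
    γ a := RatFunc.num_div_denom _
  have hcn : ∀ c : ℂ, (mob n y s₁ - C c * mob n y s₂).coeff n = (s₁ - C c * s₂).eval y := by
    intro c
    rw [coeff_sub, coeff_C_mul, mob_coeff, mob_coeff, eval_sub, eval_mul, eval_C]
  have hle : ∀ c : ℂ, (mob n y s₁ - C c * mob n y s₂).natDegree ≤
      max (mob n y s₁).natDegree (mob n y s₂).natDegree := by
    intro c
    refine (natDegree_sub_le _ _).trans (max_le_max le_rfl (natDegree_C_mul_le _ _))
  have hm1 := mob_natDegree_le n y s₁ (by omega)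
  have hm2 := mob_natDegree_le n y s₂ (by omega)
  have hmax : max (mob n y s₁).natDegree (mob n y s₂).natDegree = n := by
    apply le_antisymm (max_le hm1 hm2)
    by_contra hlt
    push Not at hlt
    have h1 : (mob n y s₁).coeff n = 0 := coeff_eq_zero_of_natDegree_lt (by omega)
    have h2 : (mob n y s₂).coeff n = 0 := coeff_eq_zero_of_natDegree_lt (by omega)
    rw [mob_coeff] at h1 h2
    obtain ⟨u, v, huv⟩ := hs
    have := congrArg (eval y) huv
    rw [eval_add, eval_mul, eval_mul, h1, h2, mul_zero, mul_zero, add_zero, eval_one] at this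
    exact zero_ne_one this
  have key := left_factor_norm N Q (mob n y s₁) (mob n y s₂) (γ a).num (γ a).denom B₁ B₂ hNQ
    (mob_coprime y _ _ hs n hn.symm) (γ a).isCoprime_num_denom hB (one_le_deg _ hat)
    (by rw [hmax]; omega) hBd (by rw [hdiva, ← hγw]; exact hgen3)
    (by rw [hdiva, ← hγw]; exact hrel3) Z hgood
    (fun x hx c hc => by
      apply le_antisymm (hle c)
      rw [hmax]
      apply le_natDegree_of_ne_zero
      rw [hcn]
      exact hy x hx c hc) δ hZ hp h15
  -- γ w is a polynomial of degree one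
  have hB2 : B₂.natDegree = 0 := by omega
  obtain ⟨c₀, hc₀⟩ : ∃ c₀, B₂ = C c₀ := ⟨_, eq_C_of_natDegree_eq_zero hB2⟩
  obtain ⟨α, hα, β, hαβ⟩ := natDegree_eq_one.mp key
  have hXmem : RatFunc.X ∈ IntermediateField.adjoin ℂ ({γ w} : Set (RatFunc ℂ)) := by
    have h0 : c₀ ≠ 0 := by
      intro h0
      have : γ w = 0 := by rw [hγw, hc₀, h0, C_0, map_zero, div_zero]
      exact trans_ne (γ w) (trans_image (γ : RatFunc ℂ →ₐ[ℂ] RatFunc ℂ) w hwt) 0
        (by rw [this, map_zero])
    have h1 : algebraMap ℂ (RatFunc ℂ) α ≠ 0 := by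
      rw [Ne, map_eq_zero]; exact hα
    have h2 : algebraMap ℂ (RatFunc ℂ) c₀ ≠ 0 := by
      rw [Ne, map_eq_zero]; exact h0
    have h3 : RatFunc.X = (algebraMap ℂ (RatFunc ℂ) c₀ * γ w - algebraMap ℂ (RatFunc ℂ) β) /
        algebraMap ℂ (RatFunc ℂ) α := by
      have h4 : γ w = (algebraMap ℂ (RatFunc ℂ) α * RatFunc.X + algebraMap ℂ (RatFunc ℂ) β) /
          algebraMap ℂ (RatFunc ℂ) c₀ := by
        rw [hγw, ← hαβ, hc₀, ← RatFunc.aeval_X_left_eq_algebraMap,
          ← RatFunc.aeval_X_left_eq_algebraMap]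
        simp
      rw [h4]
      field_simp
      ring
    rw [h3]
    have hself : γ w ∈ IntermediateField.adjoin ℂ ({γ w} : Set (RatFunc ℂ)) :=
      IntermediateField.subset_adjoin _ _ rfl
    exact div_mem (sub_mem (mul_mem (IntermediateField.algebraMap_mem _ _) hself)
      (IntermediateField.algebraMap_mem _ _)) (IntermediateField.algebraMap_mem _ _)
  have htop1 : IntermediateField.adjoin ℂ ({γ w} : Set (RatFunc ℂ)) = ⊤ := by
    rw [eq_top_iff, ← RatFunc.adjoin_X, IntermediateField.adjoin_le_iff]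
    rintro x rfl
    exact hXmem
  have htop2 := adjoin_pair_map γ.symm _ htop1
  rw [Set.image_singleton, AlgEquiv.symm_apply_apply] at htop2
  rw [eq_top_iff, ← htop2, IntermediateField.adjoin_le_iff]
  rintro x rfl
  rw [hw]
  exact inv_mem (sub_mem (IntermediateField.subset_adjoin _ _ rfl)
    (IntermediateField.algebraMap_mem _ _))

end H59LF

open H59LF Pool.Agent.Helper881.Cfd in
/-- TARGET (T2, general form). `A R = R ∘ A`, `B (S X) = S ∘ B` (substitutions as algebra
homomorphisms): if `R ∘ A = S ∘ B` and `deg S ≥ 2` then `S = R ∘ T`. -/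
theorem left_factor (R : RatFunc ℂ) (Z : Finset ℂ) (hgood : ∀ a ∈ Z, GoodPt R.num R.denom a)
    (δ : ℕ) (hZ : max R.num.natDegree R.denom.natDegree ≤ Z.card + δ)
    (hp : 2 * δ + 4 ≤ max R.num.natDegree R.denom.natDegree) (h15 : 15 ≤ Z.card)
    (A B S : RatFunc ℂ →ₐ[ℂ] RatFunc ℂ)
    (hS : 2 ≤ max (S RatFunc.X).num.natDegree (S RatFunc.X).denom.natDegree)
    (h : A R = B (S RatFunc.X)) :
    ∃ T : RatFunc ℂ →ₐ[ℂ] RatFunc ℂ, S RatFunc.X = T R := by
  obtain ⟨E, hE⟩ : ∃ E, E = IntermediateField.adjoin ℂ ({A RatFunc.X, B RatFunc.X} :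
    Set (RatFunc ℂ)) := ⟨_, rfl⟩
  have hAt : Transcendental ℂ (A RatFunc.X) := trans_image A _ ratX_trans
  have hBt : Transcendental ℂ (B RatFunc.X) := trans_image B _ ratX_trans
  have hAE : A RatFunc.X ∈ E := by
    rw [hE]; exact IntermediateField.subset_adjoin _ _ (Or.inl rfl)
  have hBE : B RatFunc.X ∈ E := by
    rw [hE]; exact IntermediateField.subset_adjoin _ _ (Or.inr rfl)
  have hEbot : E ≠ ⊥ := by
    intro h0
    rw [h0, IntermediateField.mem_bot] at hAE
    obtain ⟨c, hc⟩ := hAE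
    exact trans_ne _ hAt c hc.symm
  obtain ⟨v, hv⟩ := exists_subst (RatFunc.Luroth.generator E)
    (RatFunc.Luroth.transcendental_generator hEbot)
  have hvinj : Function.Injective v := RingHom.injective v.toRingHom
  have hrange : (⊤ : IntermediateField ℂ (RatFunc ℂ)).map v = E := by
    rw [← RatFunc.adjoin_X, IntermediateField.adjoin_map, Set.image_singleton, hv]
    exact RatFunc.Luroth.eq_adjoin_generator.symm
  have hmem : ∀ x ∈ E, ∃ x', v x' = x := by
    intro x hx
    rw [← hrange] at hx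
    obtain ⟨x', -, hx'⟩ := hx
    exact ⟨x', hx'⟩
  obtain ⟨a, ha⟩ := hmem _ hAE
  obtain ⟨b, hb⟩ := hmem _ hBE
  have htr : ∀ x x' : RatFunc ℂ, v x' = x → Transcendental ℂ x → Transcendental ℂ x' := by
    intro x x' h1 h2 h3
    apply h2
    rw [← h1]
    exact h3.algHom v
  have hat : Transcendental ℂ a := htr _ _ ha hAt
  have hbt : Transcendental ℂ b := htr _ _ hb hBt
  obtain ⟨A', hA'⟩ := exists_subst a hat
  obtain ⟨B', hB'⟩ := exists_subst b hbt
  have hA : A = v.comp A' := hom_ext _ _ (by rw [AlgHom.comp_apply, hA', ha])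
  have hB : B = v.comp B' := hom_ext _ _ (by rw [AlgHom.comp_apply, hB', hb])
  have h' : A' R = B' (S RatFunc.X) := by
    apply hvinj
    rw [hA, hB] at h
    exact h
  have hgen : IntermediateField.adjoin ℂ ({a, b} : Set (RatFunc ℂ)) = ⊤ := by
    rw [eq_top_iff]
    intro x _
    have h1 : v x ∈ E := by
      rw [← hrange]
      exact ⟨x, trivial, rfl⟩
    have h2 : (IntermediateField.adjoin ℂ ({a, b} : Set (RatFunc ℂ))).map v = E := by
      rw [IntermediateField.adjoin_map, Set.image_pair, ha, hb, hE]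
    rw [← h2] at h1
    obtain ⟨x', hx', hx''⟩ := h1
    have : x' = x := hvinj hx''
    rw [← this]
    exact hx'
  have hrel : aeval a R.num * aeval b (S RatFunc.X).denom =
      aeval a R.denom * aeval b (S RatFunc.X).num := by
    have h1 := hom_div A' R
    have h2 := hom_div B' (S RatFunc.X)
    rw [h', h2, hA', hB'] at h1
    have h3 : aeval a R.denom ≠ 0 := aeval_ne a hat _ (RatFunc.denom_ne_zero R)
    have h4 : aeval b (S RatFunc.X).denom ≠ 0 := aeval_ne b hbt _ (RatFunc.denom_ne_zero _)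
    rw [div_eq_div_iff h4 h3] at h1
    linear_combination -h1
  have hcore := core R.num R.denom R.isCoprime_num_denom Z hgood δ hZ hp h15 a b hat hbt hgen
    (S RatFunc.X).num (S RatFunc.X).denom (S RatFunc.X).isCoprime_num_denom hS hrel
  have hsurj : Function.Surjective B' := by
    intro x
    have h1 : x ∈ (⊤ : IntermediateField ℂ (RatFunc ℂ)).map B' := by
      rw [← RatFunc.adjoin_X, IntermediateField.adjoin_map, Set.image_singleton, hB', hcore]
      trivial
    obtain ⟨x', -, hx'⟩ := h1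
    exact ⟨x', hx'⟩
  have hinj : Function.Injective B' := RingHom.injective B'.toRingHom
  let e : RatFunc ℂ ≃ₐ[ℂ] RatFunc ℂ := AlgEquiv.ofBijective B' ⟨hinj, hsurj⟩
  refine ⟨(e.symm : RatFunc ℂ →ₐ[ℂ] RatFunc ℂ).comp A', ?_⟩
  rw [AlgHom.comp_apply, h']
  exact (e.symm_apply_apply (S RatFunc.X)).symm

end Pool.Agent.Helper881.Cen.Left
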