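import Pool.Agent.Helper881.Cfd6

set_option autoImplicit false

open Polynomial

namespace Pool.Agent.Helper881.Cfd

noncomputable section

theorem no_lattes (φ : RatFunc ℂ →ₐ[ℂ] RatFunc ℂ)
    (hφ : φ RatFunc.X = algebraMap ℂ[X] (RatFunc ℂ) Np / algebraMap ℂ[X] (RatFunc ℂ) Qp)
    (W : WeierstrassCurve ℂ) (hW : W.IsElliptic)
    (θ : RatFunc ℂ →ₐ[ℂ] W.toAffine.FunctionField)
    (L : W.toAffine.FunctionField →ₐ[ℂ] W.toAffine.FunctionField)
    (h : L.comp θ = θ.comp φ) : False := by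
  have hΔ : W.Δ ≠ 0 := W.isUnit_Δ.ne_zero
  obtain ⟨D, x, y, E, halg⟩ := exists_ell W hΔ
  have _ : CharZero W.toAffine.FunctionField :=
    charZero_of_injective_algebraMap (algebraMap ℂ W.toAffine.FunctionField).injective
  have hDx : D x ≠ 0 := by
    rw [E.hDx]
    exact mul_ne_zero two_ne_zero E.y_ne_zero
  have htr : Transcendental ℂ (θ RatFunc.X) := by
    intro halg'
    apply ratX_trans
    exact (isAlgebraic_algHom_iff θ (RingHom.injective θ.toRingHom)).mp halg'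
  obtain ⟨c, hc⟩ := E.exists_const L
  exact no_semiconj D E.stable θ (D_ne_zero D x halg hDx _ htr) φ hφ L h c (hc _)

theorem no_power (φ : RatFunc ℂ →ₐ[ℂ] RatFunc ℂ)
    (hφ : φ RatFunc.X = algebraMap ℂ[X] (RatFunc ℂ) Np / algebraMap ℂ[X] (RatFunc ℂ) Qp)
    (θ ψ : RatFunc ℂ →ₐ[ℂ] RatFunc ℂ) (h : ψ.comp θ = θ.comp φ) (s : ℂ) (n : ℤ)
    (hψ : ψ RatFunc.X = algebraMap ℂ (RatFunc ℂ) s * RatFunc.X ^ n) : False := by
  obtain ⟨D, hD⟩ := exists_euler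
  have htr : Transcendental ℂ (θ RatFunc.X) := by
    intro halg'
    apply ratX_trans
    exact (isAlgebraic_algHom_iff θ (RingHom.injective θ.toRingHom)).mp halg'
  exact no_semiconj D (euler_stable D hD) θ
    (D_ne_zero D RatFunc.X alg_adjoin_X (by rw [hD]; exact RatFunc.X_ne_zero) _ htr)
    φ hφ ψ h n (euler_scale D hD ψ s n hψ _)

theorem no_cheb (φ : RatFunc ℂ →ₐ[ℂ] RatFunc ℂ)
    (hφ : φ RatFunc.X = algebraMap ℂ[X] (RatFunc ℂ) Np / algebraMap ℂ[X] (RatFunc ℂ) Qp)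
    (θ ψ : RatFunc ℂ →ₐ[ℂ] RatFunc ℂ) (h : ψ.comp θ = θ.comp φ) (s : ℂ) (n : ℤ) (hs : s ^ 2 = 1)
    (hψ : ψ RatFunc.X = algebraMap ℂ (RatFunc ℂ) s *
      algebraMap ℂ[X] (RatFunc ℂ) (Polynomial.Chebyshev.T ℂ n)) : False := by
  have hψinj : Function.Injective ψ := RingHom.injective ψ.toRingHom
  have hx0 : (RatFunc.X : RatFunc ℂ) ≠ 0 := RatFunc.X_ne_zero
  have hs0 : s ≠ 0 := by
    rintro rfl
    norm_num at hs
  have hsinv : s⁻¹ = s := by
    rw [inv_eq_of_mul_eq_one_left]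
    rw [← hs]; ring
  have hn : n ≠ 0 := by
    rintro rfl
    rw [Polynomial.Chebyshev.T_zero, map_one, mul_one] at hψ
    have h1 : ψ RatFunc.X = ψ (algebraMap ℂ (RatFunc ℂ) s) := by rw [hψ, AlgHom.commutes]
    have h2 := hψinj h1
    apply ratX_trans
    rw [h2]
    exact isAlgebraic_algebraMap s
  have h2 : (2 : RatFunc ℂ) ≠ 0 := by
    have : (algebraMap ℂ (RatFunc ℂ) 2) ≠ 0 := by
      rw [Ne, map_eq_zero]; norm_num
    rwa [map_ofNat] at this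
  -- the Joukowski substitution
  have htrJ : Transcendental ℂ ((RatFunc.X + RatFunc.X⁻¹) / 2 : RatFunc ℂ) := by
    intro halg
    apply ratX_trans
    set w : RatFunc ℂ := (RatFunc.X + RatFunc.X⁻¹) / 2 with hw
    have hw2 : IsAlgebraic ℂ (w ^ 2 - 1) := (halg.pow 2).sub isAlgebraic_one
    have hsq : ((RatFunc.X - RatFunc.X⁻¹) / 2 : RatFunc ℂ) ^ 2 = w ^ 2 - 1 := by
      rw [hw]
      field_simp
      ring
    rw [← hsq] at hw2
    have hv := IsAlgebraic.of_pow two_pos hw2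
    have : (RatFunc.X : RatFunc ℂ) = w + (RatFunc.X - RatFunc.X⁻¹) / 2 := by
      rw [hw]; field_simp; ring
    rw [this]
    exact halg.add hv
  obtain ⟨χ, hχ⟩ := exists_subst _ htrJ
  -- the monomial map
  have htrM : Transcendental ℂ (algebraMap ℂ (RatFunc ℂ) s * RatFunc.X ^ n) := by
    intro halg
    apply ratX_trans
    have h3 : (RatFunc.X : RatFunc ℂ) ^ n = algebraMap ℂ (RatFunc ℂ) s⁻¹ *
        (algebraMap ℂ (RatFunc ℂ) s * RatFunc.X ^ n) := by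
      rw [← mul_assoc, ← map_mul, inv_mul_cancel₀ hs0, map_one, one_mul]
    have h4 : IsAlgebraic ℂ ((RatFunc.X : RatFunc ℂ) ^ n) := by
      rw [h3]
      exact (isAlgebraic_algebraMap s⁻¹).mul halg
    obtain ⟨m, hm⟩ := Int.eq_nat_or_neg n
    have hm0 : 0 < m := by
      rcases hm with ⟨rfl | rfl⟩ <;> omega
    rcases hm with rfl | rfl
    · rw [zpow_natCast] at h4
      exact IsAlgebraic.of_pow hm0 h4
    · rw [zpow_neg, zpow_natCast] at h4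
      have h5 := h4.inv
      rw [inv_inv] at h5
      exact IsAlgebraic.of_pow hm0 h5
  obtain ⟨L, hL⟩ := exists_subst _ htrM
  have hLX : L RatFunc.X⁻¹ = algebraMap ℂ (RatFunc ℂ) s * (RatFunc.X ^ n)⁻¹ := by
    rw [map_inv₀, hL, mul_inv, ← map_inv₀, hsinv]
  have hcomp : L.comp χ = χ.comp ψ := by
    apply hom_ext
    rw [AlgHom.comp_apply, AlgHom.comp_apply, hχ, hψ, map_div₀, map_add, hL, hLX, map_ofNat,
      map_mul, AlgHom.commutes, hom_poly, hχ, cheb_joukowski _ hx0]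
    ring
  refine no_power φ hφ (χ.comp θ) L ?_ s n hL
  rw [← AlgHom.comp_assoc, hcomp, AlgHom.comp_assoc, h, AlgHom.comp_assoc]

theorem nonspecial (φ : RatFunc ℂ →ₐ[ℂ] RatFunc ℂ)
    (hφ : φ RatFunc.X = algebraMap ℂ[X] (RatFunc ℂ) Np / algebraMap ℂ[X] (RatFunc ℂ) Qp) :
    ¬ ((∃ W : WeierstrassCurve ℂ, W.IsElliptic ∧
          ∃ (θ : RatFunc ℂ →ₐ[ℂ] W.toAffine.FunctionField)
            (L : W.toAffine.FunctionField →ₐ[ℂ] W.toAffine.FunctionField),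
            L.comp θ = θ.comp φ) ∨
       (∃ (σ : RatFunc ℂ ≃ₐ[ℂ] RatFunc ℂ) (ψ : RatFunc ℂ →ₐ[ℂ] RatFunc ℂ),
          σ.toAlgHom.comp φ = ψ.comp σ.toAlgHom ∧
          ((∃ n : ℤ, ψ RatFunc.X = RatFunc.X ^ n) ∨
           (∃ (n : ℤ) (s : ℂ), s ^ 2 = 1 ∧
              ψ RatFunc.X = algebraMap ℂ (RatFunc ℂ) s *
                algebraMap (Polynomial ℂ) (RatFunc ℂ) (Polynomial.Chebyshev.T ℂ n))))) := by
  rintro (⟨W, hW, θ, L, h⟩ | ⟨σ, ψ, h, ⟨n, hψ⟩ | ⟨n, s, hs, hψ⟩⟩)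
  · exact no_lattes φ hφ W hW θ L h
  · exact no_power φ hφ σ.toAlgHom ψ h.symm 1 n (by rw [hψ, map_one, one_mul])
  · exact no_cheb φ hφ σ.toAlgHom ψ h.symm s n hs hψ

end

end Pool.Agent.Helper881.Cfd
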