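import Mathlib
import Pool.Agent.Helper881.Cfd7
import Pool.Agent.Helper881.CenDefs

set_option autoImplicit false

namespace Pool.Agent.Helper881.Cen.Special

open Pool.Agent.Helper881.Cfd


open Polynomial



namespace Pool.Agent.Helper881.Cfd

noncomputable section

/-- numerator of the derivative -/
def Wr (N Q : ℂ[X]) : ℂ[X] := derivative N * Q - N * derivative Q

/-- the relation obtained from a semiconjugacy -/
def Rel (N Q : ℂ[X]) : Prop := ∃ (a : ℂ[X]) (d : ℕ) (κ : ℂ), a ≠ 0 ∧ 1 ≤ d ∧ κ ≠ 0 ∧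
    aeval (algebraMap ℂ[X] (RatFunc ℂ) N / algebraMap ℂ[X] (RatFunc ℂ) Q) a =
      algebraMap ℂ (RatFunc ℂ) κ *
        (algebraMap ℂ[X] (RatFunc ℂ) (Wr N Q) / algebraMap ℂ[X] (RatFunc ℂ) Q ^ 2) ^ d *
        algebraMap ℂ[X] (RatFunc ℂ) a

theorem rel_semiconj (N Q : ℂ[X]) (hQ : Q ≠ 0) (hW : Wr N Q ≠ 0) {K : Type} [Field K] [Algebra ℂ K]
    (D : Derivation ℂ K K)
    (H1 : ∀ V : ValuationSubring K, (∀ c : ℂ, algebraMap ℂ K c ∈ V) → ∀ f ∈ V, D f ∈ V)
    (θ : RatFunc ℂ →ₐ[ℂ] K)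
    (hne : D (θ RatFunc.X) ≠ 0)
    (φ : RatFunc ℂ →ₐ[ℂ] RatFunc ℂ)
    (hφ : φ RatFunc.X = algebraMap ℂ[X] (RatFunc ℂ) N / algebraMap ℂ[X] (RatFunc ℂ) Q)
    (L : K →ₐ[ℂ] K) (hL : L.comp θ = θ.comp φ)
    (c : ℂ) (hD : D (L (θ RatFunc.X)) = algebraMap ℂ K c * L (D (θ RatFunc.X))) : Rel N Q := by
  set F := algebraMap ℂ[X] (RatFunc ℂ) with hF
  have hinj : Function.Injective F := RatFunc.algebraMap_injective ℂ
  have hQ0 : F Q ≠ 0 := by
    rw [Ne, map_eq_zero_iff _ hinj]; exact hQ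
  set x₀ := θ RatFunc.X with hx₀
  set h := D x₀ with hh
  have hθF : ∀ p : ℂ[X], θ (F p) = aeval x₀ p := by
    intro p
    have : (θ.comp (IsScalarTower.toAlgHom ℂ ℂ[X] (RatFunc ℂ))) = aeval x₀ := by
      apply Polynomial.algHom_ext
      simp [hx₀]
    exact DFunLike.congr_fun this p
  have hφF : ∀ p : ℂ[X], φ (F p) = aeval (F N / F Q) p := by
    intro p
    have : (φ.comp (IsScalarTower.toAlgHom ℂ ℂ[X] (RatFunc ℂ))) = aeval (F N / F Q) := by
      apply Polynomial.algHom_ext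
      simp [hφ]
    exact DFunLike.congr_fun this p
  letI : Algebra (RatFunc ℂ) K := θ.toRingHom.toAlgebra
  letI : Algebra ℂ[X] K := (θ.toRingHom.comp F).toAlgebra
  haveI : IsScalarTower ℂ[X] (RatFunc ℂ) K := IsScalarTower.of_algebraMap_eq (fun _ => rfl)
  have halg : ∀ u : RatFunc ℂ, algebraMap (RatFunc ℂ) K u = θ u := fun _ => rfl
  have halg' : ∀ p : ℂ[X], algebraMap ℂ[X] K p = aeval x₀ p := fun p => hθF p
  -- integrality
  have hint : IsIntegral ℂ[X] h := by
    by_contra hcon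
    have hnot : h ∉ (integralClosure ℂ[X] K).toSubring := hcon
    obtain ⟨V, hV, hhV⟩ := Subring.exists_le_valuationSubring_of_isIntegrallyClosedIn hnot
    apply hhV
    apply H1
    · intro r
      apply hV
      have : algebraMap ℂ K r = algebraMap ℂ[X] K (C r) := by
        rw [halg', aeval_C]
      rw [this]
      exact (integralClosure ℂ[X] K).algebraMap_mem _
    · apply hV
      have : x₀ = algebraMap ℂ[X] K X := by
        rw [halg', aeval_X]
      rw [this]
      exact (integralClosure ℂ[X] K).algebraMap_mem _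
  have hint' : IsIntegral (RatFunc ℂ) h := hint.tower_top
  -- derivative
  have hLx : L x₀ = aeval x₀ N / aeval x₀ Q := by
    have := DFunLike.congr_fun hL RatFunc.X
    simp only [AlgHom.comp_apply] at this
    rw [hφ, map_div₀, hθF, hθF] at this
    exact this
  have hQK : aeval x₀ Q ≠ 0 := by
    rw [← hθF]
    exact (map_ne_zero_iff θ (RingHom.injective θ.toRingHom)).mpr hQ0
  have hWK : aeval x₀ (Wr N Q) ≠ 0 := by
    rw [← hθF]
    refine (map_ne_zero_iff θ (RingHom.injective θ.toRingHom)).mpr ?_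
    rw [Ne, map_eq_zero_iff _ hinj]; exact hW
  have hDL : D (L x₀) = aeval x₀ (Wr N Q) / aeval x₀ Q ^ 2 * h := by
    rw [hLx, Derivation.leibniz_div, Derivation.map_aeval, Derivation.map_aeval, Wr]
    simp only [smul_eq_mul, map_sub, map_mul]
    field_simp
    try ring
  have hc : c ≠ 0 := by
    rintro rfl
    rw [hDL, map_zero, zero_mul] at hD
    exact mul_ne_zero (div_ne_zero hWK (pow_ne_zero _ hQK)) hne hD
  set γ : RatFunc ℂ := algebraMap ℂ (RatFunc ℂ) c⁻¹ * (F (Wr N Q) / F Q ^ 2) with hγ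
  have hγ0 : γ ≠ 0 := by
    rw [hγ]
    refine mul_ne_zero ?_ (div_ne_zero ?_ (pow_ne_zero _ hQ0))
    · rw [Ne, map_eq_zero]; exact inv_ne_zero hc
    · rw [Ne, map_eq_zero_iff _ hinj]; exact hW
  have hLh : L h = algebraMap (RatFunc ℂ) K γ * h := by
    have h1 : algebraMap (RatFunc ℂ) K γ = algebraMap ℂ K c⁻¹ * (aeval x₀ (Wr N Q) / aeval x₀ Q ^ 2) := by
      rw [halg, hγ, map_mul, map_div₀, map_pow, hθF, hθF]
      congr 1
      exact θ.commutes _
    rw [h1, mul_assoc, ← hDL, hD, ← mul_assoc, ← map_mul, inv_mul_cancel₀ hc, map_one, one_mul]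
  have hscale := minpoly_scale (k := RatFunc ℂ) (K := K) φ.toRingHom L.toRingHom
    (fun u => DFunLike.congr_fun hL u) h hint' γ hγ0 hLh
  have hmp : minpoly (RatFunc ℂ) h = (minpoly ℂ[X] h).map F :=
    minpoly.isIntegrallyClosed_eq_field_fractions' (RatFunc ℂ) hint
  set a := (minpoly ℂ[X] h).coeff 0 with ha
  have hcoef : (minpoly (RatFunc ℂ) h).coeff 0 = F a := by
    rw [hmp, coeff_map]
  have ha0 : a ≠ 0 := by
    intro h0
    rw [h0, map_zero] at hcoef
    exact minpoly.coeff_zero_ne_zero hint' hne hcoef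
  rw [hcoef] at hscale
  have hd : 1 ≤ (minpoly (RatFunc ℂ) h).natDegree := minpoly.natDegree_pos hint'
  refine ⟨a, (minpoly (RatFunc ℂ) h).natDegree, c⁻¹ ^ (minpoly (RatFunc ℂ) h).natDegree, ha0, hd,
    pow_ne_zero _ (inv_ne_zero hc), ?_⟩
  rw [← hφF]
  refine hscale.trans ?_
  rw [hγ, mul_pow, map_pow]

theorem rel_lattes (N Q : ℂ[X]) (hQ : Q ≠ 0) (hWr : Wr N Q ≠ 0) (φ : RatFunc ℂ →ₐ[ℂ] RatFunc ℂ)
    (hφ : φ RatFunc.X = algebraMap ℂ[X] (RatFunc ℂ) N / algebraMap ℂ[X] (RatFunc ℂ) Q)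
    (W : WeierstrassCurve ℂ) (hW : W.IsElliptic)
    (θ : RatFunc ℂ →ₐ[ℂ] W.toAffine.FunctionField)
    (L : W.toAffine.FunctionField →ₐ[ℂ] W.toAffine.FunctionField)
    (h : L.comp θ = θ.comp φ) : Rel N Q := by
  have hΔ : W.Δ ≠ 0 := W.isUnit_Δ.ne_zero
  obtain ⟨D, x, y, E, halg⟩ := exists_ell W hΔ
  have _ : CharZero W.toAffine.FunctionField :=
    charZero_of_injective_algebraMap (algebraMap ℂ W.toAffine.FunctionField).injective
  have hDx : D x ≠ 0 := by
    rw [E.hDx]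
    exact mul_ne_zero two_ne_zero E.y_ne_zero
  have htr : Transcendental ℂ (θ RatFunc.X) := by
    intro halg'
    apply ratX_trans
    exact (isAlgebraic_algHom_iff θ (RingHom.injective θ.toRingHom)).mp halg'
  obtain ⟨c, hc⟩ := E.exists_const L
  exact rel_semiconj N Q hQ hWr D E.stable θ (D_ne_zero D x halg hDx _ htr) φ hφ L h c (hc _)

theorem rel_power (N Q : ℂ[X]) (hQ : Q ≠ 0) (hWr : Wr N Q ≠ 0) (φ : RatFunc ℂ →ₐ[ℂ] RatFunc ℂ)
    (hφ : φ RatFunc.X = algebraMap ℂ[X] (RatFunc ℂ) N / algebraMap ℂ[X] (RatFunc ℂ) Q)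
    (θ ψ : RatFunc ℂ →ₐ[ℂ] RatFunc ℂ) (h : ψ.comp θ = θ.comp φ) (s : ℂ) (n : ℤ)
    (hψ : ψ RatFunc.X = algebraMap ℂ (RatFunc ℂ) s * RatFunc.X ^ n) : Rel N Q := by
  obtain ⟨D, hD⟩ := exists_euler
  have htr : Transcendental ℂ (θ RatFunc.X) := by
    intro halg'
    apply ratX_trans
    exact (isAlgebraic_algHom_iff θ (RingHom.injective θ.toRingHom)).mp halg'
  exact rel_semiconj N Q hQ hWr D (euler_stable D hD) θ
    (D_ne_zero D RatFunc.X alg_adjoin_X (by rw [hD]; exact RatFunc.X_ne_zero) _ htr)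
    φ hφ ψ h n (euler_scale D hD ψ s n hψ _)

theorem rel_cheb (N Q : ℂ[X]) (hQ : Q ≠ 0) (hWr : Wr N Q ≠ 0) (φ : RatFunc ℂ →ₐ[ℂ] RatFunc ℂ)
    (hφ : φ RatFunc.X = algebraMap ℂ[X] (RatFunc ℂ) N / algebraMap ℂ[X] (RatFunc ℂ) Q)
    (θ ψ : RatFunc ℂ →ₐ[ℂ] RatFunc ℂ) (h : ψ.comp θ = θ.comp φ) (s : ℂ) (n : ℤ) (hs : s ^ 2 = 1)
    (hψ : ψ RatFunc.X = algebraMap ℂ (RatFunc ℂ) s *
      algebraMap ℂ[X] (RatFunc ℂ) (Polynomial.Chebyshev.T ℂ n)) : Rel N Q := by
  have hψinj : Function.Injective ψ := RingHom.injective ψ.toRingHom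
  have hx0 : (RatFunc.X : RatFunc ℂ) ≠ 0 := RatFunc.X_ne_zero
  have hs0 : s ≠ 0 := by
    rintro rfl
    norm_num at hs
  have hsinv : s⁻¹ = s := by
    rw [inv_eq_of_mul_eq_one_left]
    rw [← hs]; ring
  have hn : n ≠ 0 := by
    rintro rfl
    rw [Polynomial.Chebyshev.T_zero, map_one, mul_one] at hψ
    have h1 : ψ RatFunc.X = ψ (algebraMap ℂ (RatFunc ℂ) s) := by rw [hψ, AlgHom.commutes]
    have h2 := hψinj h1
    apply ratX_trans
    rw [h2]
    exact isAlgebraic_algebraMap s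
  have h2 : (2 : RatFunc ℂ) ≠ 0 := by
    have : (algebraMap ℂ (RatFunc ℂ) 2) ≠ 0 := by
      rw [Ne, map_eq_zero]; norm_num
    rwa [map_ofNat] at this
  -- the Joukowski substitution
  have htrJ : Transcendental ℂ ((RatFunc.X + RatFunc.X⁻¹) / 2 : RatFunc ℂ) := by
    intro halg
    apply ratX_trans
    set w : RatFunc ℂ := (RatFunc.X + RatFunc.X⁻¹) / 2 with hw
    have hw2 : IsAlgebraic ℂ (w ^ 2 - 1) := (halg.pow 2).sub isAlgebraic_one
    have hsq : ((RatFunc.X - RatFunc.X⁻¹) / 2 : RatFunc ℂ) ^ 2 = w ^ 2 - 1 := by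
      rw [hw]
      field_simp
      ring
    rw [← hsq] at hw2
    have hv := IsAlgebraic.of_pow two_pos hw2
    have : (RatFunc.X : RatFunc ℂ) = w + (RatFunc.X - RatFunc.X⁻¹) / 2 := by
      rw [hw]; field_simp; ring
    rw [this]
    exact halg.add hv
  obtain ⟨χ, hχ⟩ := exists_subst _ htrJ
  -- the monomial map
  have htrM : Transcendental ℂ (algebraMap ℂ (RatFunc ℂ) s * RatFunc.X ^ n) := by
    intro halg
    apply ratX_trans
    have h3 : (RatFunc.X : RatFunc ℂ) ^ n = algebraMap ℂ (RatFunc ℂ) s⁻¹ *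
        (algebraMap ℂ (RatFunc ℂ) s * RatFunc.X ^ n) := by
      rw [← mul_assoc, ← map_mul, inv_mul_cancel₀ hs0, map_one, one_mul]
    have h4 : IsAlgebraic ℂ ((RatFunc.X : RatFunc ℂ) ^ n) := by
      rw [h3]
      exact (isAlgebraic_algebraMap s⁻¹).mul halg
    obtain ⟨m, hm⟩ := Int.eq_nat_or_neg n
    have hm0 : 0 < m := by
      rcases hm with ⟨rfl | rfl⟩ <;> omega
    rcases hm with rfl | rfl
    · rw [zpow_natCast] at h4
      exact IsAlgebraic.of_pow hm0 h4
    · rw [zpow_neg, zpow_natCast] at h4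
      have h5 := h4.inv
      rw [inv_inv] at h5
      exact IsAlgebraic.of_pow hm0 h5
  obtain ⟨L, hL⟩ := exists_subst _ htrM
  have hLX : L RatFunc.X⁻¹ = algebraMap ℂ (RatFunc ℂ) s * (RatFunc.X ^ n)⁻¹ := by
    rw [map_inv₀, hL, mul_inv, ← map_inv₀, hsinv]
  have hcomp : L.comp χ = χ.comp ψ := by
    apply hom_ext
    rw [AlgHom.comp_apply, AlgHom.comp_apply, hχ, hψ, map_div₀, map_add, hL, hLX, map_ofNat,
      map_mul, AlgHom.commutes, hom_poly, hχ, cheb_joukowski _ hx0]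
    ring
  refine rel_power N Q hQ hWr φ hφ (χ.comp θ) L ?_ s n hL
  rw [← AlgHom.comp_assoc, hcomp, AlgHom.comp_assoc, h, AlgHom.comp_assoc]

/-- evaluation of the relation -/
theorem rel_eval (N Q : ℂ[X]) (hQ : Q ≠ 0) (a : ℂ[X]) (d : ℕ) (κ : ℂ)
    (h : aeval (algebraMap ℂ[X] (RatFunc ℂ) N / algebraMap ℂ[X] (RatFunc ℂ) Q) a =
      algebraMap ℂ (RatFunc ℂ) κ *
        (algebraMap ℂ[X] (RatFunc ℂ) (Wr N Q) / algebraMap ℂ[X] (RatFunc ℂ) Q ^ 2) ^ d *
        algebraMap ℂ[X] (RatFunc ℂ) a) (z c : ℂ) (hz : Q.eval z ≠ 0)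
    (hc : N.eval z = c * Q.eval z) :
    a.eval c * (Q.eval z) ^ (2 * d) = κ * ((Wr N Q).eval z) ^ d * a.eval z := by
  set F := algebraMap ℂ[X] (RatFunc ℂ) with hF
  have hinj : Function.Injective F := RatFunc.algebraMap_injective ℂ
  have hFQ : F Q ≠ 0 := by
    rw [Ne, map_eq_zero_iff _ hinj]; exact hQ
  set n := a.natDegree with hn
  set A : ℂ[X] := ∑ i ∈ Finset.range (n + 1), C (a.coeff i) * N ^ i * Q ^ (n - i) with hA
  have hFA : F A = F Q ^ n * aeval (F N / F Q) a := by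
    rw [hA, map_sum, aeval_eq_sum_range, Finset.mul_sum]
    refine Finset.sum_congr rfl fun i hi => ?_
    have hi' : i ≤ n := Nat.lt_succ_iff.1 (Finset.mem_range.1 hi)
    have hC : F (C (a.coeff i)) = algebraMap ℂ (RatFunc ℂ) (a.coeff i) := by
      rw [hF]
      exact (IsScalarTower.algebraMap_apply ℂ ℂ[X] (RatFunc ℂ) (a.coeff i)).symm
    rw [map_mul, map_mul, map_pow, map_pow, hC, Algebra.smul_def, div_pow]
    have : F Q ^ n = F Q ^ i * F Q ^ (n - i) := by rw [← pow_add, Nat.add_sub_cancel' hi']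
    rw [this]
    field_simp
  have hpoly : A * Q ^ (2 * d) = C κ * (Wr N Q) ^ d * a * Q ^ n := by
    apply hinj
    have hC : F (C κ) = algebraMap ℂ (RatFunc ℂ) κ :=
      (IsScalarTower.algebraMap_apply ℂ ℂ[X] (RatFunc ℂ) κ).symm
    rw [map_mul, hFA, h, map_mul, map_mul, map_mul, hC, map_pow, map_pow, map_pow, div_pow,
      ← pow_mul]
    field_simp
  have hAz : A.eval z = (Q.eval z) ^ n * a.eval c := by
    rw [hA, eval_finsetSum, eval_eq_sum_range (p := a) c, Finset.mul_sum]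
    refine Finset.sum_congr rfl fun i hi => ?_
    have hi' : i ≤ n := Nat.lt_succ_iff.1 (Finset.mem_range.1 hi)
    simp only [eval_mul, eval_C, eval_pow]
    rw [hc]
    have : Q.eval z ^ n = Q.eval z ^ i * Q.eval z ^ (n - i) := by
      rw [← pow_add, Nat.add_sub_cancel' hi']
    rw [this]
    ring
  have hev := congrArg (eval z) hpoly
  simp only [eval_mul, eval_C, eval_pow] at hev
  rw [hAz] at hev
  have hne : (Q.eval z) ^ n ≠ 0 := pow_ne_zero _ hz
  apply mul_left_cancel₀ hne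
  linear_combination hev

theorem Wr_shift (N Q : ℂ[X]) (c : ℂ) : Wr N Q = Wr (N - C c * Q) Q := by
  unfold Wr
  simp only [derivative_sub, derivative_mul, derivative_C, zero_mul, zero_add]
  ring

theorem Wr_ne_zero (N Q : ℂ[X]) (hcop : IsCoprime N Q) (hD : 1 ≤ max N.natDegree Q.natDegree) :
    Wr N Q ≠ 0 := by
  intro h
  unfold Wr at h
  rw [sub_eq_zero] at h
  have h1 : Q ∣ derivative Q := by
    have : Q ∣ N * derivative Q := by rw [← h]; exact dvd_mul_left _ _
    exact hcop.symm.dvd_of_dvd_mul_left this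
  have h2 : N ∣ derivative N := by
    have : N ∣ derivative N * Q := by rw [h]; exact dvd_mul_right _ _
    exact hcop.dvd_of_dvd_mul_right this
  have h3 := derivative_eq_zero.1 (dvd_derivative_iff.1 h1)
  have h4 := derivative_eq_zero.1 (dvd_derivative_iff.1 h2)
  rw [h3, h4] at hD
  simp at hD

theorem Wr_natDegree_of_ne (N Q : ℂ[X]) (h : N.natDegree ≠ Q.natDegree) :
    (Wr N Q).natDegree ≤ 2 * max N.natDegree Q.natDegree - 2 := by
  have h1 : (Wr N Q).natDegree ≤ N.natDegree + Q.natDegree - 1 := by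
    unfold Wr
    refine (natDegree_sub_le _ _).trans (max_le ?_ ?_)
    · by_cases hN : N.natDegree = 0
      · rw [eq_C_of_natDegree_eq_zero hN]; simp
      · have := natDegree_derivative_le N
        have := natDegree_mul_le (p := derivative N) (q := Q)
        omega
    · by_cases hQ : Q.natDegree = 0
      · rw [eq_C_of_natDegree_eq_zero hQ]; simp
      · have := natDegree_derivative_le Q
        have := natDegree_mul_le (p := N) (q := derivative Q)
        omega
  rcases lt_or_gt_of_ne h with h | h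
  · rw [max_eq_right h.le]; omega
  · rw [max_eq_left h.le]; omega

theorem Wr_natDegree (N Q : ℂ[X]) (hD : 1 ≤ max N.natDegree Q.natDegree) :
    (Wr N Q).natDegree ≤ 2 * max N.natDegree Q.natDegree - 2 := by
  by_cases h : N.natDegree = Q.natDegree
  · have hQ : 1 ≤ Q.natDegree := by rw [h, max_self] at hD; exact hD
    have hlQ : Q.leadingCoeff ≠ 0 := by
      rw [Ne, leadingCoeff_eq_zero]
      rintro rfl
      simp at hQ
    set c := N.leadingCoeff / Q.leadingCoeff with hc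
    rw [Wr_shift N Q c]
    have hlt : (N - C c * Q).natDegree < Q.natDegree := by
      have hle : (N - C c * Q).natDegree ≤ Q.natDegree := by
        refine (natDegree_sub_le _ _).trans (max_le h.le ?_)
        exact natDegree_C_mul_le _ _
      refine lt_of_le_of_ne hle fun heq => ?_
      have hco : (N - C c * Q).coeff Q.natDegree = 0 := by
        rw [coeff_sub, coeff_C_mul, ← h, coeff_natDegree, h, coeff_natDegree, hc,
          div_mul_cancel₀ _ hlQ, sub_self]
      rw [← heq, coeff_natDegree, leadingCoeff_eq_zero] at hco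
      rw [hco, natDegree_zero] at heq
      omega
    have h2 := Wr_natDegree_of_ne (N - C c * Q) Q hlt.ne
    rw [max_eq_right hlt.le] at h2
    rw [h, max_self]
    exact h2
  · exact Wr_natDegree_of_ne N Q h

theorem Wr_mult (N Q : ℂ[X]) (hN : N ≠ 0) (hW : Wr N Q ≠ 0) (z : ℂ) :
    rootMultiplicity z N - 1 ≤ rootMultiplicity z (Wr N Q) := by
  rw [le_rootMultiplicity_iff hW]
  have h1 : (X - C z) ^ (rootMultiplicity z N) ∣ N := pow_rootMultiplicity_dvd N z
  have h2 : (X - C z) ^ (rootMultiplicity z N - 1) ∣ N :=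
    (pow_dvd_pow _ (Nat.sub_le _ _)).trans h1
  have h3 : (X - C z) ^ (rootMultiplicity z N - 1) ∣ derivative N := by
    obtain ⟨g, hg⟩ := h1
    rcases Nat.eq_zero_or_pos (rootMultiplicity z N) with h0 | h0
    · rw [h0]; simp
    · conv_rhs => rw [hg]
      rw [derivative_mul, derivative_X_sub_C_pow]
      apply dvd_add
      · exact (Dvd.intro_left _ rfl).mul_right _
      · exact (pow_dvd_pow _ (Nat.sub_le _ _)).mul_right _
  unfold Wr
  exact dvd_sub (h3.mul_right _) (h2.mul_right _)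

theorem count_special (N Q : ℂ[X]) (hcop : IsCoprime N Q)
    (hD : 2 ≤ max N.natDegree Q.natDegree) (hrel : Rel N Q)
    (T : Finset ℂ) (hT : 7 ≤ T.card)
    (hcv : ∀ c ∈ T, ∃ z : ℂ, Q.eval z ≠ 0 ∧ N.eval z = c * Q.eval z ∧ (Wr N Q).eval z = 0) :
    False := by
  classical
  obtain ⟨a, d, κ, ha, hd, hκ, hr⟩ := hrel
  set D := max N.natDegree Q.natDegree with hDdef
  have hQ : Q ≠ 0 := by
    rintro rfl
    rw [isCoprime_zero_right] at hcop
    have := natDegree_eq_zero_of_isUnit hcop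
    rw [hDdef, this] at hD
    simp at hD
  have hW : Wr N Q ≠ 0 := Wr_ne_zero N Q hcop (by omega)
  have hWd : (Wr N Q).natDegree ≤ 2 * D - 2 := Wr_natDegree N Q (by omega)
  have hev := rel_eval N Q hQ a d κ hr
  set S : Finset ℂ := a.roots.toFinset with hS
  have hmemS : ∀ c, c ∈ S ↔ a.eval c = 0 := by
    intro c
    rw [hS, Multiset.mem_toFinset, mem_roots ha, IsRoot.def]
  have hTS : T ⊆ S := by
    intro c hc
    obtain ⟨z, hz, hzc, hWz⟩ := hcv c hc
    rw [hmemS]
    have h1 := hev z c hz hzc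
    rw [hWz, zero_pow (by omega), mul_zero, zero_mul] at h1
    exact (mul_eq_zero.1 h1).resolve_right (pow_ne_zero _ hz)
  have hScard : 7 ≤ S.card := hT.trans (Finset.card_le_card hTS)
  -- nonvanishing of Q at the roots
  have hQz : ∀ z c, (N - C c * Q).eval z = 0 → Q.eval z ≠ 0 ∧ N.eval z = c * Q.eval z := by
    intro z c h
    have h1 : N.eval z = c * Q.eval z := by
      simp only [eval_sub, eval_mul, eval_C] at h
      linear_combination h
    refine ⟨?_, h1⟩
    intro h0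
    obtain ⟨u, v, huv⟩ := hcop
    have := congrArg (eval z) huv
    simp only [eval_add, eval_mul, eval_one] at this
    rw [h1, h0] at this
    simp at this
  have hback : ∀ c ∈ S, ∀ z, (N - C c * Q).eval z = 0 → (Wr N Q).eval z ≠ 0 → z ∈ S := by
    intro c hc z hz hWz
    obtain ⟨h1, h2⟩ := hQz z c hz
    rw [hmemS] at hc ⊢
    have h3 := hev z c h1 h2
    rw [hc, zero_mul] at h3
    have h4 := (mul_eq_zero.1 h3.symm).resolve_left (mul_ne_zero hκ (pow_ne_zero _ hWz))
    exact h4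
  have hNc : ∀ c, N - C c * Q ≠ 0 := by
    intro c h0
    apply hW
    rw [Wr_shift N Q c, h0]
    simp [Wr]
  set R : ℂ → Finset ℂ := fun c => (N - C c * Q).roots.toFinset with hR
  have hmemR : ∀ c z, z ∈ R c ↔ (N - C c * Q).eval z = 0 := by
    intro c z
    rw [hR, Multiset.mem_toFinset, mem_roots (hNc c), IsRoot.def]
  have hdisj : (↑S : Set ℂ).PairwiseDisjoint R := by
    intro c _ c' _ hcc
    rw [Function.onFun, Finset.disjoint_left]
    intro z hz hz'
    rw [hmemR] at hz hz'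
    obtain ⟨h1, h2⟩ := hQz z c hz
    obtain ⟨-, h3⟩ := hQz z c' hz'
    apply hcc
    exact mul_right_cancel₀ h1 (h2.symm.trans h3)
  -- degrees
  have hdeg : ∀ c, (N - C c * Q).natDegree = ∑ z ∈ R c, rootMultiplicity z (N - C c * Q) := by
    intro c
    have h1 : (N - C c * Q).natDegree = (N - C c * Q).roots.card :=
      (IsAlgClosed.splits (N - C c * Q)).natDegree_eq_card_roots
    rw [h1, ← Multiset.toFinset_sum_count_eq]
    exact Finset.sum_congr rfl fun z _ => count_roots _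
  have hmult : ∀ c, ∀ z ∈ R c, rootMultiplicity z (N - C c * Q) ≤
      (if (Wr N Q).eval z ≠ 0 then 1 else 0) + 2 * rootMultiplicity z (Wr N Q) := by
    intro c z _
    have h1 := Wr_mult (N - C c * Q) Q (hNc c) (by rw [← Wr_shift]; exact hW) z
    rw [← Wr_shift] at h1
    by_cases h0 : (Wr N Q).eval z = 0
    · have h2 : 0 < rootMultiplicity z (Wr N Q) := (rootMultiplicity_pos hW).2 h0
      rw [if_neg (by simpa using h0)]
      omega
    · rw [if_pos h0]
      have h2 : rootMultiplicity z (Wr N Q) = 0 := rootMultiplicity_eq_zero h0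
      omega
  set U := S.biUnion R with hU
  have hsum : ∑ c ∈ S, (N - C c * Q).natDegree ≤
      (∑ z ∈ U, if (Wr N Q).eval z ≠ 0 then 1 else 0) + 2 * ∑ z ∈ U, rootMultiplicity z (Wr N Q) := by
    calc ∑ c ∈ S, (N - C c * Q).natDegree
        = ∑ c ∈ S, ∑ z ∈ R c, rootMultiplicity z (N - C c * Q) :=
          Finset.sum_congr rfl fun c _ => hdeg c
      _ ≤ ∑ c ∈ S, ∑ z ∈ R c, ((if (Wr N Q).eval z ≠ 0 then 1 else 0) +
            2 * rootMultiplicity z (Wr N Q)) :=
          Finset.sum_le_sum fun c _ => Finset.sum_le_sum fun z hz => hmult c z hz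
      _ = ∑ z ∈ U, ((if (Wr N Q).eval z ≠ 0 then 1 else 0) +
            2 * rootMultiplicity z (Wr N Q)) := (Finset.sum_biUnion hdisj).symm
      _ = _ := by rw [Finset.sum_add_distrib, Finset.mul_sum]
  have hfirst : (∑ z ∈ U, if (Wr N Q).eval z ≠ 0 then 1 else 0) ≤ S.card := by
    rw [← Finset.card_filter]
    apply Finset.card_le_card
    intro z hz
    obtain ⟨hz1, hz2⟩ := Finset.mem_filter.1 hz
    obtain ⟨c, hc, hzc⟩ := Finset.mem_biUnion.1 hz1
    exact hback c hc z ((hmemR c z).1 hzc) hz2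
  have hsecond : ∑ z ∈ U, rootMultiplicity z (Wr N Q) ≤ (Wr N Q).natDegree := by
    calc ∑ z ∈ U, rootMultiplicity z (Wr N Q)
        ≤ ∑ z ∈ (Wr N Q).roots.toFinset, rootMultiplicity z (Wr N Q) := by
          apply Finset.sum_le_sum_of_ne_zero
          intro z _ hz
          rw [Multiset.mem_toFinset, mem_roots hW]
          exact (rootMultiplicity_pos hW).1 (Nat.pos_of_ne_zero hz)
      _ = (Wr N Q).roots.card := by
          rw [← Multiset.toFinset_sum_count_eq]
          exact Finset.sum_congr rfl fun z _ => (count_roots _).symm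
      _ ≤ _ := card_roots' _
  -- lower bound
  set c0 : ℂ := N.coeff D / Q.coeff D with hc0
  have hlow : ∀ c, c ≠ c0 → D ≤ (N - C c * Q).natDegree := by
    intro c hc
    apply le_natDegree_of_ne_zero
    rw [coeff_sub, coeff_C_mul]
    intro h0
    by_cases hQD : Q.coeff D = 0
    · rw [hQD, mul_zero, sub_zero] at h0
      have hDpos : D ≠ 0 := by omega
      rcases max_choice N.natDegree Q.natDegree with hm | hm
      · rw [← hDdef] at hm
        rw [hm, coeff_natDegree, leadingCoeff_eq_zero] at h0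
        rw [h0, natDegree_zero] at hm
        exact hDpos hm
      · rw [← hDdef] at hm
        rw [hm, coeff_natDegree, leadingCoeff_eq_zero] at hQD
        exact hQ hQD
    · apply hc
      rw [hc0, eq_div_iff hQD]
      linear_combination -h0
  have hbelow : (S.card - 1) * D ≤ ∑ c ∈ S, (N - C c * Q).natDegree := by
    calc (S.card - 1) * D ≤ (S.erase c0).card * D := by
          apply Nat.mul_le_mul_right
          exact Finset.pred_card_le_card_erase
      _ = ∑ c ∈ S.erase c0, D := by rw [Finset.sum_const, smul_eq_mul]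
      _ ≤ ∑ c ∈ S.erase c0, (N - C c * Q).natDegree :=
          Finset.sum_le_sum fun c hc => hlow c (Finset.ne_of_mem_erase hc)
      _ ≤ ∑ c ∈ S, (N - C c * Q).natDegree :=
          Finset.sum_le_sum_of_subset (Finset.erase_subset _ _)
  have hfin : (S.card - 1) * D ≤ S.card + 2 * (2 * D - 2) := by omega
  obtain ⟨s, hs⟩ : ∃ s, S.card = s + 7 := ⟨S.card - 7, by omega⟩
  obtain ⟨e, he⟩ : ∃ e, D = e + 2 := ⟨D - 2, by omega⟩
  rw [hs, he] at hfin
  have h6 : s + 7 - 1 = s + 6 := by omega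
  have h7 : 2 * (e + 2) - 2 = 2 * e + 2 := by omega
  rw [h6, h7] at hfin
  nlinarith

end

end Pool.Agent.Helper881.Cfd

/-- (D1) a special rational map of degree `≥ 2` has at most six finite critical values attained
at finite critical points. -/
theorem nonspecial_of_critical_values (φ : RatFunc ℂ →ₐ[ℂ] RatFunc ℂ)
    (hd : 2 ≤ max (φ RatFunc.X).num.natDegree (φ RatFunc.X).denom.natDegree)
    (T : Finset ℂ) (hT : 7 ≤ T.card)
    (hcv : ∀ c ∈ T, ∃ z : ℂ, (φ RatFunc.X).denom.eval z ≠ 0 ∧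
      (φ RatFunc.X).num.eval z = c * (φ RatFunc.X).denom.eval z ∧
      (derivative (φ RatFunc.X).num * (φ RatFunc.X).denom -
        (φ RatFunc.X).num * derivative (φ RatFunc.X).denom).eval z = 0) :
    ¬ IsSpecialHom φ := by
  intro hsp
  have hcop : IsCoprime (φ RatFunc.X).num (φ RatFunc.X).denom := RatFunc.isCoprime_num_denom _
  have hQ : (φ RatFunc.X).denom ≠ 0 := RatFunc.denom_ne_zero _
  have hW : Pool.Agent.Helper881.Cfd.Wr (φ RatFunc.X).num (φ RatFunc.X).denom ≠ 0 :=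
    Pool.Agent.Helper881.Cfd.Wr_ne_zero _ _ hcop (by omega)
  have hφ : φ RatFunc.X = algebraMap ℂ[X] (RatFunc ℂ) (φ RatFunc.X).num /
      algebraMap ℂ[X] (RatFunc ℂ) (φ RatFunc.X).denom := (RatFunc.num_div_denom _).symm
  have hrel : Pool.Agent.Helper881.Cfd.Rel (φ RatFunc.X).num (φ RatFunc.X).denom := by
    rcases hsp with (⟨W, hWe, θ, L, h⟩ | ⟨σ, ψ, h, ⟨n, hψ⟩ | ⟨n, s, hs, hψ⟩⟩)
    · exact Pool.Agent.Helper881.Cfd.rel_lattes _ _ hQ hW φ hφ W hWe θ L h
    · exact Pool.Agent.Helper881.Cfd.rel_power _ _ hQ hW φ hφ σ.toAlgHom ψ h.symm 1 n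
        (by rw [hψ, map_one, one_mul])
    · exact Pool.Agent.Helper881.Cfd.rel_cheb _ _ hQ hW φ hφ σ.toAlgHom ψ h.symm s n hs hψ
  exact Pool.Agent.Helper881.Cfd.count_special _ _ hcop hd hrel T hT hcv

end Pool.Agent.Helper881.Cen.Special
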