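import Mathlib
import Pool.Agent.Helper881.CenDefs

set_option autoImplicit false

namespace Pool.Agent.Helper881.Cen.Triple


open Polynomial



namespace HalleyAux

noncomputable abbrev al (p : ℂ[X]) : RatFunc ℂ := algebraMap ℂ[X] (RatFunc ℂ) p

/-- `g` is regular at `z` with value `v` -/
def Val (z : ℂ) (g : RatFunc ℂ) (v : ℂ) : Prop :=
  ∃ p q : ℂ[X], q.eval z ≠ 0 ∧ g = al p / al q ∧ p.eval z = v * q.eval z

theorem al_ne {q : ℂ[X]} {z : ℂ} (h : q.eval z ≠ 0) : al q ≠ 0 := by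
  apply RatFunc.algebraMap_ne_zero
  rintro rfl
  simp at h

theorem al_inj {p q : ℂ[X]} (h : al p = al q) : p = q := RatFunc.algebraMap_injective ℂ h

theorem val_al (z : ℂ) (p : ℂ[X]) : Val z (al p) (p.eval z) :=
  ⟨p, 1, by simp, by simp [al], by simp⟩

theorem val_add {z : ℂ} {g g' : RatFunc ℂ} {v v' : ℂ} (h : Val z g v) (h' : Val z g' v') :
    Val z (g + g') (v + v') := by
  obtain ⟨p, q, hq, rfl, hv⟩ := h
  obtain ⟨p', q', hq', rfl, hv'⟩ := h'
  refine ⟨p * q' + p' * q, q * q', ?_, ?_, ?_⟩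
  · rw [eval_mul]; exact mul_ne_zero hq hq'
  · have h1 := al_ne hq
    have h2 := al_ne hq'
    simp only [al, map_add, map_mul] at *
    field_simp
  · simp only [eval_add, eval_mul, hv, hv']; ring

theorem val_mul {z : ℂ} {g g' : RatFunc ℂ} {v v' : ℂ} (h : Val z g v) (h' : Val z g' v') :
    Val z (g * g') (v * v') := by
  obtain ⟨p, q, hq, rfl, hv⟩ := h
  obtain ⟨p', q', hq', rfl, hv'⟩ := h'
  refine ⟨p * p', q * q', ?_, ?_, ?_⟩
  · rw [eval_mul]; exact mul_ne_zero hq hq'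
  · simp only [al, map_mul]
    rw [div_mul_div_comm]
  · simp only [eval_mul, hv, hv']; ring

theorem val_const (z c : ℂ) : Val z (al (C c)) c := by
  have := val_al z (C c)
  simpa using this

theorem val_two (z : ℂ) : Val z (2 : RatFunc ℂ) 2 := by
  have h1 : Val z (1 : RatFunc ℂ) 1 := ⟨1, 1, by simp, by simp [al], by simp⟩
  have h2 := val_add h1 h1
  rwa [one_add_one_eq_two, one_add_one_eq_two] at h2

theorem val_neg {z : ℂ} {g : RatFunc ℂ} {v : ℂ} (h : Val z g v) : Val z (-g) (-v) := by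
  obtain ⟨p, q, hq, rfl, hv⟩ := h
  refine ⟨-p, q, hq, ?_, ?_⟩
  · simp only [al, map_neg]; exact (neg_div _ _).symm
  · simp [hv]

theorem val_sub {z : ℂ} {g g' : RatFunc ℂ} {v v' : ℂ} (h : Val z g v) (h' : Val z g' v') :
    Val z (g - g') (v - v') := by
  rw [sub_eq_add_neg, sub_eq_add_neg]
  exact val_add h (val_neg h')

theorem val_pow {z : ℂ} {g : RatFunc ℂ} {v : ℂ} (h : Val z g v) : Val z (g ^ 2) (v ^ 2) := by
  rw [pow_two, pow_two]; exact val_mul h h

theorem val_ne {z : ℂ} {g : RatFunc ℂ} {v : ℂ} (h : Val z g v) (hv : v ≠ 0) : g ≠ 0 := by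
  obtain ⟨p, q, hq, rfl, hp⟩ := h
  have : p.eval z ≠ 0 := by rw [hp]; exact mul_ne_zero hv hq
  exact div_ne_zero (al_ne this) (al_ne hq)

theorem val_inv {z : ℂ} {g : RatFunc ℂ} {v : ℂ} (h : Val z g v) (hv : v ≠ 0) :
    Val z g⁻¹ v⁻¹ := by
  obtain ⟨p, q, hq, rfl, hp⟩ := h
  have : p.eval z ≠ 0 := by rw [hp]; exact mul_ne_zero hv hq
  refine ⟨q, p, this, by rw [inv_div], ?_⟩
  rw [hp]; field_simp

theorem val_unique {z : ℂ} {g : RatFunc ℂ} {v v' : ℂ} (h : Val z g v) (h' : Val z g v') :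
    v = v' := by
  obtain ⟨p, q, hq, rfl, hp⟩ := h
  obtain ⟨p', q', hq', he, hp'⟩ := h'
  rw [div_eq_div_iff (al_ne hq) (al_ne hq')] at he
  have h1 : p * q' = p' * q := by
    apply al_inj
    simp only [al, map_mul] at *
    exact he
  have h2 := congrArg (eval z) h1
  rw [eval_mul, eval_mul, hp, hp'] at h2
  have h3 : (v - v') * (q.eval z * q'.eval z) = 0 := by linear_combination h2
  rcases mul_eq_zero.1 h3 with h | h
  · exact sub_eq_zero.1 h
  · exact absurd h (mul_ne_zero hq hq')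

theorem val_of_denom {z : ℂ} {g : RatFunc ℂ} (h : g.denom.eval z ≠ 0) :
    Val z g (g.num.eval z / g.denom.eval z) :=
  ⟨g.num, g.denom, h, (RatFunc.num_div_denom g).symm, by field_simp⟩

theorem denom_of_val {z : ℂ} {g : RatFunc ℂ} {v : ℂ} (h : Val z g v) : g.denom.eval z ≠ 0 := by
  obtain ⟨p, q, hq, hg, -⟩ := h
  have hq0 : q ≠ 0 := by rintro rfl; simp at hq
  obtain ⟨r, hr⟩ := (RatFunc.denom_dvd hq0).2 ⟨p, hg⟩
  intro h0
  apply hq
  rw [hr, eval_mul, h0, zero_mul]

theorem D_al (D : Derivation ℂ (RatFunc ℂ) (RatFunc ℂ)) (hD : D RatFunc.X = 1) (p : ℂ[X]) :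
    D (al p) = al (derivative p) := by
  have h1 : al p = aeval (RatFunc.X : RatFunc ℂ) p := by
    rw [RatFunc.aeval_X_left_eq_algebraMap]
  rw [h1, Derivation.map_aeval, hD, smul_eq_mul, mul_one, RatFunc.aeval_X_left_eq_algebraMap]

theorem val_D (D : Derivation ℂ (RatFunc ℂ) (RatFunc ℂ)) (hD : D RatFunc.X = 1) {z : ℂ}
    {p q : ℂ[X]} (hq : q.eval z ≠ 0) :
    Val z (D (al p / al q))
      ((derivative p * q - p * derivative q).eval z / (q.eval z) ^ 2) := by
  refine ⟨derivative p * q - p * derivative q, q ^ 2, ?_, ?_, ?_⟩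
  · rw [eval_pow]; exact pow_ne_zero 2 hq
  · rw [Derivation.leibniz_div, D_al D hD, D_al D hD]
    have := al_ne hq
    simp only [al, map_sub, map_mul, map_pow, smul_eq_mul] at *
    field_simp
  · rw [eval_pow]; field_simp

theorem val_D' (D : Derivation ℂ (RatFunc ℂ) (RatFunc ℂ)) (hD : D RatFunc.X = 1) {z : ℂ}
    {g : RatFunc ℂ} {v : ℂ} (h : Val z g v) : ∃ v', Val z (D g) v' := by
  obtain ⟨p, q, hq, rfl, -⟩ := h
  exact ⟨_, val_D D hD hq⟩

theorem val_zero_factor {z : ℂ} {g : RatFunc ℂ} (h : Val z g 0) :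
    ∃ g' v', Val z g' v' ∧ g = al (X - C z) * g' := by
  obtain ⟨p, q, hq, rfl, hp⟩ := h
  rw [zero_mul] at hp
  obtain ⟨r, hr⟩ := dvd_iff_isRoot.2 hp
  refine ⟨al r / al q, r.eval z / q.eval z, ⟨r, q, hq, rfl, by field_simp⟩, ?_⟩
  rw [hr]
  simp only [al, map_mul]
  rw [mul_div_assoc]

end HalleyAux

open HalleyAux

/-- (M) at a simple zero `z` of `f` (with `R₁` regular and unramified at `z`) the Halley map takes the
value `R₁(z)` with multiplicity at least three. -/
theorem halley_triple (D : Derivation ℂ (RatFunc ℂ) (RatFunc ℂ)) (hD : D RatFunc.X = 1)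
    (f R₁ : RatFunc ℂ) (z : ℂ) (hfz : f.denom.eval z ≠ 0) (hf0 : f.num.eval z = 0)
    (hf1 : (derivative f.num).eval z ≠ 0) (hRz : R₁.denom.eval z ≠ 0)
    (hR1 : (derivative R₁.num * R₁.denom - R₁.num * derivative R₁.denom).eval z ≠ 0) :
    (D (D f) / D f - 2 * D f / f - D (D R₁) / D R₁ ≠ 0) ∧
    (halley D f R₁).denom.eval z ≠ 0 ∧
    (X - C z) ^ 3 ∣ (halley D f R₁).num -
      C (R₁.num.eval z / R₁.denom.eval z) * (halley D f R₁).denom := by
  set c : ℂ := R₁.num.eval z / R₁.denom.eval z with hc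
  set x : RatFunc ℂ := al (X - C z) with hx
  have hx0 : x ≠ 0 := RatFunc.algebraMap_ne_zero (X_sub_C_ne_zero z)
  have hDx : D x = 1 := by
    rw [hx, D_al D hD]; simp [al]
  have hvx : Val z x 0 := by
    have h1 := val_al z (X - C z)
    have e : (X - C z : ℂ[X]).eval z = 0 := by simp
    rwa [e] at h1
  -- f
  have hvf : Val z f 0 := by
    have := val_of_denom hfz
    rwa [hf0, zero_div] at this
  obtain ⟨F, vF, hF, hfF⟩ := val_zero_factor hvf
  -- D f
  have hDf : Val z (D f) ((derivative f.num * f.denom - f.num * derivative f.denom).eval z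
      / (f.denom.eval z) ^ 2) := by
    have := val_D D hD (p := f.num) hfz
    rwa [al, al, RatFunc.num_div_denom] at this
  have hDfne : (derivative f.num * f.denom - f.num * derivative f.denom).eval z
      / (f.denom.eval z) ^ 2 ≠ 0 := by
    rw [eval_sub, eval_mul, eval_mul, hf0, zero_mul, sub_zero]
    exact div_ne_zero (mul_ne_zero hf1 hfz) (pow_ne_zero 2 hfz)
  -- R
  have hvR : Val z R₁ c := val_of_denom hRz
  have hvh : Val z (R₁ - al (C c)) 0 := by
    have := val_sub hvR (val_const z c)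
    rwa [sub_self] at this
  obtain ⟨H, vH, hH, hhH⟩ := val_zero_factor hvh
  have hDR : Val z (D R₁) ((derivative R₁.num * R₁.denom - R₁.num * derivative R₁.denom).eval z
      / (R₁.denom.eval z) ^ 2) := by
    have := val_D D hD (p := R₁.num) hRz
    rwa [al, al, RatFunc.num_div_denom] at this
  have hDRne : (derivative R₁.num * R₁.denom - R₁.num * derivative R₁.denom).eval z
      / (R₁.denom.eval z) ^ 2 ≠ 0 := div_ne_zero hR1 (pow_ne_zero 2 hRz)
  rw [← hx] at hfF hhH
  obtain ⟨vF1, hF1⟩ := val_D' D hD hF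
  obtain ⟨vF2, hF2⟩ := val_D' D hD hF1
  obtain ⟨vH1, hH1⟩ := val_D' D hD hH
  obtain ⟨vH2, hH2⟩ := val_D' D hD hH1
  have ef : D f = F + x * D F := by
    rw [hfF, Derivation.leibniz, hDx, smul_eq_mul, smul_eq_mul]; ring
  have eff : D (D f) = 2 * D F + x * D (D F) := by
    rw [ef, map_add, Derivation.leibniz, hDx, smul_eq_mul, smul_eq_mul]; ring
  have hDc : D (al (C c)) = 0 := by rw [D_al D hD]; simp [al]
  have eh : D R₁ = H + x * D H := by
    have h1 : R₁ = x * H + al (C c) := by rw [← hhH]; ring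
    rw [h1, map_add, hDc, Derivation.leibniz, hDx, smul_eq_mul, smul_eq_mul]; ring
  have ehh : D (D R₁) = 2 * D H + x * D (D H) := by
    rw [eh, map_add, Derivation.leibniz, hDx, smul_eq_mul, smul_eq_mul]; ring
  -- values of F, H
  have hvF : vF ≠ 0 := by
    have h1 : Val z (D f) (vF + 0 * vF1) := by
      rw [ef]; exact val_add hF (val_mul hvx hF1)
    have h2 := val_unique hDf h1
    rw [zero_mul, add_zero] at h2
    rw [← h2]; exact hDfne
  have hvH : vH ≠ 0 := by
    have h1 : Val z (D R₁) (vH + 0 * vH1) := by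
      rw [eh]; exact val_add hH (val_mul hvx hH1)
    have h2 := val_unique hDR h1
    rw [zero_mul, add_zero] at h2
    rw [← h2]; exact hDRne
  have hFne : F ≠ 0 := val_ne hF hvF
  have hfne : f ≠ 0 := by rw [hfF]; exact mul_ne_zero hx0 hFne
  have hf'ne : D f ≠ 0 := val_ne hDf hDfne
  have hh'ne : D R₁ ≠ 0 := val_ne hDR hDRne
  -- denominator
  set den : RatFunc ℂ := f * D (D f) * D R₁ - 2 * (D f) ^ 2 * D R₁ - f * D f * D (D R₁) with hden
  obtain ⟨vff, hvff⟩ := val_D' D hD hDf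
  obtain ⟨vRR, hvRR⟩ := val_D' D hD hDR
  have hvden : ∃ v, v ≠ 0 ∧ Val z den v := by
    refine ⟨_, ?_, val_sub (val_sub (val_mul (val_mul hvf hvff) hDR)
      (val_mul (val_mul (val_two z) (val_pow hDf)) hDR)) (val_mul (val_mul hvf hDf) hvRR)⟩
    rw [zero_mul, zero_mul, zero_mul, zero_mul, zero_sub, sub_zero]
    exact neg_ne_zero.2 (mul_ne_zero (mul_ne_zero two_ne_zero (pow_ne_zero 2 hDfne)) hDRne)
  obtain ⟨vd, hvd, hvden⟩ := hvden
  have hden0 : den ≠ 0 := val_ne hvden hvd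
  have hLam : D (D f) / D f - 2 * D f / f - D (D R₁) / D R₁ = den / (f * D f * D R₁) := by
    rw [hden]
    field_simp
  have hLam0 : D (D f) / D f - 2 * D f / f - D (D R₁) / D R₁ ≠ 0 := by
    rw [hLam]
    exact div_ne_zero hden0 (mul_ne_zero (mul_ne_zero hfne hf'ne) hh'ne)
  set G0 : RatFunc ℂ := -2 * (D F) ^ 2 * H ^ 2 + F * D (D F) * H ^ 2 + 2 * F ^ 2 * (D H) ^ 2
    - F ^ 2 * H * D (D H) + x * (-2 * (D F) ^ 2 * H * D H + F * D (D F) * H * D H
      + 2 * F * D F * (D H) ^ 2 - F * D F * H * D (D H)) with hG0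
  have hhal : halley D f R₁ = al (C c) + x ^ 3 * (G0 / den) := by
    unfold halley
    rw [hLam]
    have h1 : R₁ = x * H + al (C c) := by rw [← hhH]; ring
    have h2 : 2 * D R₁ / (den / (f * D f * D R₁)) = 2 * (D R₁) ^ 2 * f * D f / den := by
      field_simp
    rw [h2]
    have h3 : x * H * den + 2 * (D R₁) ^ 2 * f * D f = x ^ 3 * G0 := by
      rw [hden, hG0, ehh, eh, eff, ef, hfF]
      ring
    have h4 : R₁ + 2 * (D R₁) ^ 2 * f * D f / den
        = al (C c) + (x * H * den + 2 * (D R₁) ^ 2 * f * D f) / den := by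
      nth_rewrite 1 [h1]
      field_simp
      ring
    rw [h4, h3, mul_div_assoc]
  have hvG0 : ∃ v, Val z G0 v := by
    rw [hG0]
    have c1 := val_neg (val_two z)
    exact ⟨_, val_add (val_sub (val_add (val_add (val_mul (val_mul c1 (val_pow hF1)) (val_pow hH))
      (val_mul (val_mul hF hF2) (val_pow hH))) (val_mul (val_mul (val_two z) (val_pow hF)) (val_pow hH1)))
      (val_mul (val_mul (val_pow hF) hH) hH2))
      (val_mul hvx (val_sub (val_add (val_add (val_mul (val_mul (val_mul c1 (val_pow hF1)) hH) hH1)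
        (val_mul (val_mul (val_mul hF hF2) hH) hH1))
        (val_mul (val_mul (val_mul (val_two z) hF) hF1) (val_pow hH1)))
        (val_mul (val_mul (val_mul hF hF1) hH) hH2)))⟩
  obtain ⟨vG0, hvG0⟩ := hvG0
  have hvG : Val z (G0 / den) (vG0 * vd⁻¹) := by
    rw [div_eq_mul_inv]; exact val_mul hvG0 (val_inv hvden hvd)
  obtain ⟨p, q, hq, hpq, -⟩ := hvG
  have hhal2 : halley D f R₁ = al (C c * q + (X - C z) ^ 3 * p) / al q := by
    rw [hhal, hpq, hx]
    have := al_ne hq
    simp only [al, map_add, map_mul, map_pow] at *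
    field_simp
  have hq0 : q ≠ 0 := by rintro rfl; simp at hq
  refine ⟨hLam0, ?_, ?_⟩
  · exact denom_of_val (v := (C c * q + (X - C z) ^ 3 * p).eval z / q.eval z)
      ⟨_, q, hq, hhal2, by field_simp⟩
  · have h1 := (RatFunc.num_mul_eq_mul_denom_iff hq0).2 hhal2
    have h2 : q * ((halley D f R₁).num - C c * (halley D f R₁).denom)
        = (X - C z) ^ 3 * (p * (halley D f R₁).denom) := by
      linear_combination h1
    have hcop : IsCoprime ((X - C z) ^ 3) q := by
      apply IsCoprime.pow_left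
      refine (Polynomial.irreducible_X_sub_C z).coprime_iff_not_dvd.2 ?_
      intro hdvd
      exact hq (dvd_iff_isRoot.1 hdvd)
    exact hcop.dvd_of_dvd_mul_left (h2 ▸ Dvd.intro _ rfl)

end Pool.Agent.Helper881.Cen.Triple
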