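import Mathlib
import Pool.Agent.Helper881.Cfd6
import Pool.Agent.Helper881.CenConic
import Pool.Agent.Helper881.CenPgl

set_option autoImplicit false

namespace Pool.Agent.Helper881.Cen.Twist

open Pool.Agent.Helper881.Cen.Conic Pool.Agent.Helper881.Cen.Pgl


open Polynomial





namespace TW

theorem descent {K : Type} [Group K] [Finite K] {F : Type} [Field F] (σ : K → (F →* F))
    (hσ : Function.Injective σ) {M : Type} [AddCommGroup M] [Module F M] (T : K → M →+ M)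
    (hT1 : ∀ e, T 1 e = e) (hTm : ∀ k l e, T (k * l) e = T k (T l e))
    (hTs : ∀ k f e, T k (f • e) = σ k f • T k e)
    (l : M →ₗ[F] F) (hl : ∀ u, (∀ k, T k u = u) → l u = 0) : l = 0 := by
  cases nonempty_fintype K
  apply LinearMap.ext
  intro e
  have h1 : ∀ f : F, ∑ k, l (T k e) * σ k f = 0 := by
    intro f
    have h2 := hl (∑ k, T k (f • e)) ?_
    · rw [map_sum] at h2
      rw [← h2]
      apply Finset.sum_congr rfl
      intro k _
      rw [hTs, map_smul, smul_eq_mul, mul_comm]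
    · intro k'
      rw [map_sum]
      simp only [← hTm]
      exact Fintype.sum_equiv (Equiv.mulLeft k') _ _ (fun k => rfl)
  have hli := (linearIndependent_monoidHom F F).comp σ hσ
  rw [Fintype.linearIndependent_iff] at hli
  have h3 := hli (fun k => l (T k e)) ?_ 1
  · rw [hT1] at h3
    exact h3
  · funext f
    simpa [Finset.sum_apply] using h1 f

theorem conic_fixed (E : IntermediateField ℂ (RatFunc ℂ)) (hE : E ≠ ⊥) (a b : RatFunc ℂ)
    (ha : a ∈ E) (hb : b ∈ E) :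
    ∃ x y z : RatFunc ℂ, x ∈ E ∧ y ∈ E ∧ z ∈ E ∧ (x ≠ 0 ∨ y ≠ 0 ∨ z ≠ 0) ∧
      x ^ 2 = a * y ^ 2 + b * z ^ 2 := by
  let e := RatFunc.Luroth.algEquiv hE
  obtain ⟨x, y, z, h, he⟩ := conic_solvable (e.symm ⟨a, ha⟩) (e.symm ⟨b, hb⟩)
  refine ⟨e x, e y, e z, (e x).2, (e y).2, (e z).2, ?_, ?_⟩
  · rcases h with h | h | h
    · left
      intro h0
      apply h
      have : e x = 0 := Subtype.ext h0
      exact (map_eq_zero_iff e e.injective).1 this
    · right; left
      intro h0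
      apply h
      have : e y = 0 := Subtype.ext h0
      exact (map_eq_zero_iff e e.injective).1 this
    · right; right
      intro h0
      apply h
      have : e z = 0 := Subtype.ext h0
      exact (map_eq_zero_iff e e.injective).1 this
  · have h1 := congrArg e he
    simp only [map_pow, map_add, map_mul, AlgEquiv.apply_symm_apply] at h1
    have h2 := congrArg Subtype.val h1
    simpa using h2

theorem quad_zero (α β γ : ℂ) (h : algebraMap ℂ (RatFunc ℂ) α * RatFunc.X ^ 2 +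
    algebraMap ℂ (RatFunc ℂ) β * RatFunc.X + algebraMap ℂ (RatFunc ℂ) γ = 0) :
    α = 0 ∧ β = 0 ∧ γ = 0 := by
  have h1 : algebraMap ℂ[X] (RatFunc ℂ) (C α * X ^ 2 + C β * X + C γ) = 0 := by
    simpa using h
  have h2 := (map_eq_zero_iff _ (RatFunc.algebraMap_injective ℂ)).1 h1
  refine ⟨?_, ?_, ?_⟩
  · have := congrArg (fun p => Polynomial.coeff p 2) h2
    simpa [Polynomial.coeff_X, Polynomial.coeff_C] using this
  · have := congrArg (fun p => Polynomial.coeff p 1) h2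
    simpa [Polynomial.coeff_X, Polynomial.coeff_C] using this
  · have := congrArg (fun p => Polynomial.coeff p 0) h2
    simpa [Polynomial.coeff_X, Polynomial.coeff_C] using this

theorem fixed_ne_bot {K : Type} [Group K] [Finite K] (ρ : K →* (RatFunc ℂ ≃ₐ[ℂ] RatFunc ℂ)) :
    IntermediateField.fixedField ρ.range ≠ ⊥ := by
  intro h
  cases nonempty_fintype K
  set P : (RatFunc ℂ)[X] := ∏ k : K, (X - C (ρ k RatFunc.X)) with hPdef
  have hP : ∀ l, P.map ((ρ l : RatFunc ℂ ≃ₐ[ℂ] RatFunc ℂ) : RatFunc ℂ →+* RatFunc ℂ) = P := by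
    intro l
    rw [hPdef, Polynomial.map_prod]
    simp only [Polynomial.map_sub, map_X, map_C]
    refine Fintype.prod_equiv (Equiv.mulLeft l) _ _ (fun k => ?_)
    simp only [Equiv.coe_mulLeft, map_mul]
    rfl
  have hlift : P ∈ Polynomial.lifts (algebraMap ℂ (RatFunc ℂ)) := by
    rw [Polynomial.lifts_iff_coeff_lifts]
    intro n
    have h1 : P.coeff n ∈ (IntermediateField.fixedField ρ.range) := by
      rw [IntermediateField.mem_fixedField_iff]
      rintro _ ⟨l, rfl⟩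
      have h2 := congrArg (fun p => Polynomial.coeff p n) (hP l)
      simp only [Polynomial.coeff_map] at h2
      exact h2
    rw [h, IntermediateField.mem_bot] at h1
    exact h1
  obtain ⟨P0, hP0⟩ := hlift
  have hne : P ≠ 0 := by
    rw [hPdef]
    exact (Polynomial.monic_prod_of_monic _ _ (fun k _ => monic_X_sub_C _)).ne_zero
  have h3 : Polynomial.aeval (RatFunc.X : RatFunc ℂ) P0 = 0 := by
    have h4 : P.eval RatFunc.X = 0 := by
      rw [hPdef, Polynomial.eval_prod]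
      apply Finset.prod_eq_zero (Finset.mem_univ (1 : K))
      simp
    rw [← hP0] at h4
    rw [Polynomial.aeval_def, Polynomial.eval₂_eq_eval_map]
    exact h4
  have h5 : P0 ≠ 0 := by
    rintro rfl
    apply hne
    rw [← hP0]; simp
  exact RatFunc.transcendental_X ⟨P0, h5, h3⟩


open Matrix in
/-- elimination lemma for proportional matrices -/
theorem prop_mat (A P : Matrix (Fin 2) (Fin 2) ℂ) (hA : A.det ≠ 0) (hP : P.det ≠ 0)
    (h : (algebraMap ℂ (RatFunc ℂ) (P 0 0) * RatFunc.X + algebraMap ℂ (RatFunc ℂ) (P 0 1)) *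
        (algebraMap ℂ (RatFunc ℂ) (A 1 0) * RatFunc.X + algebraMap ℂ (RatFunc ℂ) (A 1 1)) =
      (algebraMap ℂ (RatFunc ℂ) (A 0 0) * RatFunc.X + algebraMap ℂ (RatFunc ℂ) (A 0 1)) *
        (algebraMap ℂ (RatFunc ℂ) (P 1 0) * RatFunc.X + algebraMap ℂ (RatFunc ℂ) (P 1 1))) :
    ∃ s : ℂ, s ≠ 0 ∧ A = s • P := by
  have h1 := quad_zero (P 0 0 * A 1 0 - A 0 0 * P 1 0)
    (P 0 0 * A 1 1 + P 0 1 * A 1 0 - A 0 0 * P 1 1 - A 0 1 * P 1 0)
    (P 0 1 * A 1 1 - A 0 1 * P 1 1) (by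
      simp only [map_sub, map_mul, map_add]
      linear_combination h)
  obtain ⟨e1, e2, e3⟩ := h1
  rw [Matrix.det_fin_two] at hA hP
  have f1 : P 0 0 * A 0 1 - P 0 1 * A 0 0 = 0 := by
    have : (P 0 0 * A 0 1 - P 0 1 * A 0 0) * (P 0 0 * P 1 1 - P 0 1 * P 1 0) = 0 := by
      linear_combination (P 0 0 * P 0 1) * e2 - (P 0 1) ^ 2 * e1 - (P 0 0) ^ 2 * e3
    exact (mul_eq_zero.1 this).resolve_right hP
  have f2 : P 1 0 * A 1 1 - P 1 1 * A 1 0 = 0 := by
    have : (P 1 0 * A 1 1 - P 1 1 * A 1 0) * (P 0 0 * P 1 1 - P 0 1 * P 1 0) = 0 := by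
      linear_combination (P 1 0 * P 1 1) * e2 - (P 1 1) ^ 2 * e1 - (P 1 0) ^ 2 * e3
    exact (mul_eq_zero.1 this).resolve_right hP
  have f3 : P 1 0 * A 0 1 - P 0 1 * A 1 0 = 0 := by
    have : (P 1 0 * A 0 1 - P 0 1 * A 1 0) * (P 0 0 * P 1 1 - P 0 1 * P 1 0) = 0 := by
      linear_combination (P 0 1 * P 1 0) * e2 - (P 0 1 * P 1 1) * e1 - (P 0 0 * P 1 0) * e3
    exact (mul_eq_zero.1 this).resolve_right hP
  have f4 : A 0 0 * P 1 1 - A 0 1 * P 1 0 = P 0 0 * A 1 1 - P 0 1 * A 1 0 := by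
    linear_combination (-1) * e2 - 2 * f3
  -- A = s P with s = (A00 P11 - A01 P10)/det P
  refine ⟨(A 0 0 * P 1 1 - A 0 1 * P 1 0) / (P 0 0 * P 1 1 - P 0 1 * P 1 0), ?_, ?_⟩
  · intro h0
    have h0' : A 0 0 * P 1 1 - A 0 1 * P 1 0 = 0 := by
      rcases div_eq_zero_iff.1 h0 with h | h
      · exact h
      · exact absurd h hP
    apply hA
    have : (A 0 0 * A 1 1 - A 0 1 * A 1 0) * (P 0 0 * P 1 1 - P 0 1 * P 1 0) = 0 := by
      have g : (A 0 0 * A 1 1 - A 0 1 * A 1 0) * (P 0 0 * P 1 1 - P 0 1 * P 1 0) =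
        (A 0 0 * P 1 1 - A 0 1 * P 1 0) * (P 0 0 * A 1 1 - P 0 1 * A 1 0) +
        (P 0 0 * A 0 1 - P 0 1 * A 0 0) * (P 1 0 * A 1 1 - P 1 1 * A 1 0) := by ring
      rw [g, h0', f1]; ring
    exact (mul_eq_zero.1 this).resolve_right hP
  · ext i j
    rw [Matrix.smul_apply, smul_eq_mul, div_mul_eq_mul_div, eq_div_iff hP]
    fin_cases i <;> fin_cases j <;> simp only [Fin.zero_eta, Fin.mk_one, Fin.isValue]
    · linear_combination (P 1 0) * f1
    · linear_combination (P 1 1) * f1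
    · linear_combination (-(P 0 0)) * f2 - (P 1 0) * (f4)
    · linear_combination (-(P 0 1)) * f2 - (P 1 1) * (f4)

open Matrix

/-- constants -/
noncomputable abbrev cc : ℂ →+* RatFunc ℂ := algebraMap ℂ (RatFunc ℂ)

/-- twisted invariant matrices -/
def Inv {K : Type} [Group K] (ρ : K →* (RatFunc ℂ ≃ₐ[ℂ] RatFunc ℂ))
    (A : K → Matrix (Fin 2) (Fin 2) ℂ) (N : Matrix (Fin 2) (Fin 2) (RatFunc ℂ)) : Prop :=
  ∀ k, N.map (ρ k) * (A k).map cc = (A k).map cc * N

section
variable {K : Type} [Group K] {ρ : K →* (RatFunc ℂ ≃ₐ[ℂ] RatFunc ℂ)}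
    {A : K → Matrix (Fin 2) (Fin 2) ℂ} {N M : Matrix (Fin 2) (Fin 2) (RatFunc ℂ)}

theorem map_cc_mul (P Q : Matrix (Fin 2) (Fin 2) ℂ) : (P * Q).map cc = P.map cc * Q.map cc :=
  Matrix.map_mul

theorem map_rho_mul (σ : RatFunc ℂ ≃ₐ[ℂ] RatFunc ℂ) (P Q : Matrix (Fin 2) (Fin 2) (RatFunc ℂ)) :
    (P * Q).map σ = P.map σ * Q.map σ := by
  ext i j
  simp [Matrix.mul_apply]

theorem map_rho_cc (σ : RatFunc ℂ ≃ₐ[ℂ] RatFunc ℂ) (P : Matrix (Fin 2) (Fin 2) ℂ) :
    (P.map cc).map σ = P.map cc := by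
  ext i j
  exact σ.commutes _

theorem map_cc_smul (s : ℂ) (P : Matrix (Fin 2) (Fin 2) ℂ) : (s • P).map cc = cc s • P.map cc := by
  ext i j
  simp

theorem Inv.one : Inv ρ A 1 := by
  intro k
  have : (1 : Matrix (Fin 2) (Fin 2) (RatFunc ℂ)).map (ρ k) = 1 := by
    ext i j
    simp [Matrix.one_apply, apply_ite (ρ k)]
  rw [this, one_mul, mul_one]

theorem Inv.add (hN : Inv ρ A N) (hM : Inv ρ A M) : Inv ρ A (N + M) := by
  intro k
  have : (N + M).map (ρ k) = N.map (ρ k) + M.map (ρ k) := by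
    ext i j
    simp
  rw [this, add_mul, mul_add, hN k, hM k]

theorem Inv.sub (hN : Inv ρ A N) (hM : Inv ρ A M) : Inv ρ A (N - M) := by
  intro k
  have : (N - M).map (ρ k) = N.map (ρ k) - M.map (ρ k) := by
    ext i j
    simp
  rw [this, sub_mul, mul_sub, hN k, hM k]

theorem Inv.mul (hN : Inv ρ A N) (hM : Inv ρ A M) : Inv ρ A (N * M) := by
  intro k
  rw [map_rho_mul, mul_assoc, hM k, ← mul_assoc, hN k, mul_assoc]

theorem Inv.smul {f : RatFunc ℂ} (hf : ∀ k, ρ k f = f) (hN : Inv ρ A N) : Inv ρ A (f • N) := by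
  intro k
  have : (f • N).map (ρ k) = f • N.map (ρ k) := by
    ext i j
    simp [hf k]
  rw [this, smul_mul_assoc, mul_smul_comm, hN k]

theorem Inv.det (hA : ∀ k, (A k).det ≠ 0) (hN : Inv ρ A N) (k : K) : ρ k N.det = N.det := by
  have h1 : (N.map (ρ k)).det = ρ k N.det := by
    rw [Matrix.det_fin_two, Matrix.det_fin_two]
    simp
  have h2 : ((A k).map cc).det ≠ 0 := by
    rw [← RingHom.mapMatrix_apply, ← RingHom.map_det]
    intro h
    exact hA k ((map_eq_zero_iff cc (algebraMap ℂ (RatFunc ℂ)).injective).1 h)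
  have h3 := congrArg Matrix.det (hN k)
  rw [Matrix.det_mul, Matrix.det_mul, mul_comm] at h3
  rw [← h1]
  exact mul_left_cancel₀ h2 h3

theorem Inv.conj (hA : ∀ k, (A k).det ≠ 0) (hN : Inv ρ A N) (k : K) :
    N.map (ρ k) = (A k).map cc * N * ((A k)⁻¹).map cc := by
  rw [← hN k, mul_assoc, ← map_cc_mul, Matrix.mul_nonsing_inv _ (isUnit_iff_ne_zero.2 (hA k))]
  have : (1 : Matrix (Fin 2) (Fin 2) ℂ).map cc = 1 := by
    ext i j
    simp [Matrix.one_apply, apply_ite cc]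
  rw [this, mul_one]

theorem Inv.trace (hA : ∀ k, (A k).det ≠ 0) (hN : Inv ρ A N) (k : K) : ρ k N.trace = N.trace := by
  have h1 : (N.map (ρ k)).trace = ρ k N.trace := by
    rw [Matrix.trace_fin_two, Matrix.trace_fin_two]
    simp
  rw [← h1, hN.conj hA k, Matrix.trace_mul_comm, ← mul_assoc, ← map_cc_mul,
    Matrix.nonsing_inv_mul _ (isUnit_iff_ne_zero.2 (hA k))]
  have : (1 : Matrix (Fin 2) (Fin 2) ℂ).map cc = 1 := by
    ext i j
    simp [Matrix.one_apply, apply_ite cc]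
  rw [this, one_mul]

/-- solutions of the projective equation -/
def Sol (ρ : K →* (RatFunc ℂ ≃ₐ[ℂ] RatFunc ℂ)) (A : K → Matrix (Fin 2) (Fin 2) ℂ)
    (v : Fin 2 → RatFunc ℂ) : Prop :=
  ∀ k, ρ k (v 0) * (((A k).map cc) *ᵥ v) 1 = ρ k (v 1) * (((A k).map cc) *ᵥ v) 0

theorem Sol.mul {v : Fin 2 → RatFunc ℂ} (hv : Sol ρ A v) (hN : Inv ρ A N) :
    Sol ρ A (N *ᵥ v) := by
  intro k
  have h1 : ((A k).map cc) *ᵥ (N *ᵥ v) = (N.map (ρ k)) *ᵥ (((A k).map cc) *ᵥ v) := by
    rw [Matrix.mulVec_mulVec, ← hN k, ← Matrix.mulVec_mulVec]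
  have h2 := hv k
  rw [h1]
  set w := ((A k).map cc) *ᵥ v with hw
  simp only [Matrix.mulVec, dotProduct, Fin.sum_univ_two, Matrix.map_apply, map_add, map_mul]
  linear_combination (ρ k (N 0 0) * ρ k (N 1 1) - ρ k (N 0 1) * ρ k (N 1 0)) * h2

theorem Sol.of_col (hN : Inv ρ A N) (hdet : N.det = 0) (β : Fin 2) :
    Sol ρ A (fun i => N i β) := by
  intro k
  have h1 : ∀ i, (((A k).map cc) *ᵥ (fun i => N i β)) i = (N.map (ρ k) * (A k).map cc) i β := by
    intro i
    rw [hN k]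
    rfl
  rw [h1, h1]
  have h2 : ρ k (N 0 0) * ρ k (N 1 1) - ρ k (N 0 1) * ρ k (N 1 0) = 0 := by
    rw [← map_mul, ← map_mul, ← map_sub, ← Matrix.det_fin_two, hdet, map_zero]
  simp only [Matrix.mul_apply, Fin.sum_univ_two, Matrix.map_apply]
  fin_cases β
  · simp only [Fin.zero_eta, Fin.isValue]
    linear_combination (cc (A k 1 0)) * h2
  · simp only [Fin.mk_one, Fin.isValue]
    linear_combination (-(cc (A k 0 1))) * h2

end

theorem exists_inv {K : Type} [Group K] [Finite K] (ρ : K →* (RatFunc ℂ ≃ₐ[ℂ] RatFunc ℂ))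
    (hρ : Function.Injective ρ) (A : K → Matrix (Fin 2) (Fin 2) ℂ) (hA : ∀ k, (A k).det ≠ 0)
    (hmul : ∀ k l, ∃ s : ℂ, s ≠ 0 ∧ A (k * l) = s • (A l * A k))
    (hone : ∃ s : ℂ, s ≠ 0 ∧ A 1 = s • (1 : Matrix (Fin 2) (Fin 2) ℂ))
    (l : Matrix (Fin 2) (Fin 2) (RatFunc ℂ) →ₗ[RatFunc ℂ] RatFunc ℂ) (hl : l ≠ 0) :
    ∃ N, Inv ρ A N ∧ l N ≠ 0 := by
  by_contra hcon
  push Not at hcon
  apply hl
  let T : K → Matrix (Fin 2) (Fin 2) (RatFunc ℂ) →+ Matrix (Fin 2) (Fin 2) (RatFunc ℂ) := fun k =>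
    AddMonoidHom.mk' (fun N => ((A k)⁻¹).map cc * N.map (ρ k) * (A k).map cc) (by
      intro N M
      have : (N + M).map (ρ k) = N.map (ρ k) + M.map (ρ k) := by
        ext i j
        simp
      rw [this, mul_add, add_mul])
  have hTdef : ∀ k N, T k N = ((A k)⁻¹).map cc * N.map (ρ k) * (A k).map cc := fun _ _ => rfl
  refine descent (fun k => ((ρ k : RatFunc ℂ ≃ₐ[ℂ] RatFunc ℂ) : RatFunc ℂ →* RatFunc ℂ)) ?_ T ?_ ?_ ?_ l ?_
  · intro k k' h
    apply hρ
    apply AlgEquiv.ext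
    intro x
    exact DFunLike.congr_fun h x
  · intro N
    obtain ⟨s, hs, h1⟩ := hone
    rw [hTdef, h1]
    have e1 : N.map (ρ 1) = N := by
      ext i j
      simp
    have e2 : (s • (1 : Matrix (Fin 2) (Fin 2) ℂ)).map cc = cc s • 1 := by
      ext i j
      by_cases h : i = j <;> simp [Matrix.one_apply, h]
    have e3 : ((s • (1 : Matrix (Fin 2) (Fin 2) ℂ))⁻¹).map cc = cc s⁻¹ • 1 := by
      have : (s • (1 : Matrix (Fin 2) (Fin 2) ℂ))⁻¹ = s⁻¹ • 1 := by
        apply Matrix.inv_eq_right_inv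
        rw [smul_mul_smul_comm, mul_inv_cancel₀ hs, one_mul, one_smul]
      rw [this]
      ext i j
      by_cases h : i = j <;> simp [Matrix.one_apply, h]
    rw [e1, e2, e3, smul_mul_assoc, one_mul, smul_mul_smul_comm, mul_one, ← map_mul,
      inv_mul_cancel₀ hs, map_one, one_smul]
  · intro k k' N
    obtain ⟨s, hs, h1⟩ := hmul k k'
    rw [hTdef, hTdef, hTdef, h1]
    have e1 : N.map (ρ (k * k')) = (N.map (ρ k')).map (ρ k) := by
      ext i j
      simp
    have e2 : (s • (A k' * A k)).map cc = cc s • ((A k').map cc * (A k).map cc) := by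
      rw [← map_cc_mul, map_cc_smul]
    have e3 : ((s • (A k' * A k))⁻¹).map cc = cc s⁻¹ • (((A k)⁻¹).map cc * ((A k')⁻¹).map cc) := by
      have : (s • (A k' * A k))⁻¹ = s⁻¹ • ((A k)⁻¹ * (A k')⁻¹) := by
        apply Matrix.inv_eq_right_inv
        rw [smul_mul_smul_comm, mul_inv_cancel₀ hs, one_smul, mul_assoc, ← mul_assoc (A k),
          Matrix.mul_nonsing_inv _ (isUnit_iff_ne_zero.2 (hA k)), one_mul,
          Matrix.mul_nonsing_inv _ (isUnit_iff_ne_zero.2 (hA k'))]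
      rw [this, ← map_cc_mul, map_cc_smul]
    rw [e1, e2, e3, map_rho_mul, map_rho_mul, map_rho_cc, map_rho_cc, smul_mul_assoc,
      smul_mul_smul_comm, ← map_mul, inv_mul_cancel₀ hs, map_one, one_smul]
    simp only [mul_assoc]
  · intro k f N
    rw [hTdef, hTdef]
    have : (f • N).map (ρ k) = ρ k f • N.map (ρ k) := by
      ext i j
      simp
    rw [this, mul_smul_comm, smul_mul_assoc]
    rfl
  · intro N hN
    apply hcon
    intro k
    have h1 := hN k
    rw [hTdef] at h1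
    have h2 : (A k).map cc * (((A k)⁻¹).map cc * N.map (ρ k) * (A k).map cc) = (A k).map cc * N := by
      rw [h1]
    rw [← h2, ← mul_assoc, ← mul_assoc, ← map_cc_mul,
      Matrix.mul_nonsing_inv _ (isUnit_iff_ne_zero.2 (hA k))]
    have : (1 : Matrix (Fin 2) (Fin 2) ℂ).map cc = 1 := by
      ext i j
      simp [Matrix.one_apply, apply_ite cc]
    rw [this, one_mul]

theorem cz : (2 : RatFunc ℂ) ≠ 0 := by
  have : CharZero (RatFunc ℂ) :=
    charZero_of_injective_algebraMap (algebraMap ℂ (RatFunc ℂ)).injective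
  exact two_ne_zero

theorem det_combo {F : Type} [Field F] (i u : Matrix (Fin 2) (Fin 2) F) (h : i 1 1 = - i 0 0)
    (x y z : F) : (x • (1 : Matrix (Fin 2) (Fin 2) F) + y • i + z • (u * i - i * u)).det =
      x ^ 2 + y ^ 2 * i.det + z ^ 2 * (u * i - i * u).det := by
  simp only [Matrix.det_fin_two, Matrix.add_apply, Matrix.smul_apply, Matrix.sub_apply,
    Matrix.mul_apply, Fin.sum_univ_two, smul_eq_mul, h, Matrix.one_apply_eq]
  simp
  ring

theorem combo_ne {F : Type} [Field F] (h2 : (2 : F) ≠ 0) (i u : Matrix (Fin 2) (Fin 2) F)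
    (h : i 1 1 = - i 0 0) (x y z : F) (hi : i.det ≠ 0) (hj : (u * i - i * u) 0 0 ≠ 0)
    (h0 : x • (1 : Matrix (Fin 2) (Fin 2) F) + y • i + z • (u * i - i * u) = 0) :
    x = 0 ∧ y = 0 ∧ z = 0 := by
  have e00 := congrFun (congrFun h0 0) 0
  have e11 := congrFun (congrFun h0 1) 1
  have e01 := congrFun (congrFun h0 0) 1
  have e10 := congrFun (congrFun h0 1) 0
  rw [Matrix.det_fin_two] at hi
  simp [Matrix.mul_apply, Fin.sum_univ_two, h] at e00 e11 e01 e10 hi hj
  have hx : x = 0 := by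
    have : 2 * x = 0 := by linear_combination e00 + e11
    exact (mul_eq_zero.1 this).resolve_left h2
  rw [hx] at e00
  have hy : y = 0 := by
    have : y * (2 * (-(i 0 0 * i 0 0) - i 0 1 * i 1 0)) = 0 := by
      linear_combination (-2 * i 0 0) * e00 - (i 1 0) * e01 - (i 0 1) * e10
    rcases mul_eq_zero.1 this with h | h
    · exact h
    · rcases mul_eq_zero.1 h with h | h
      · exact absurd h h2
      · exact absurd h hi
  refine ⟨hx, hy, ?_⟩
  rw [hy] at e00
  have : z * (u 0 0 * i 0 0 + u 0 1 * i 1 0 - (i 0 0 * u 0 0 + i 0 1 * u 1 0)) = 0 := by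
    linear_combination e00
  exact (mul_eq_zero.1 this).resolve_right hj

theorem exists_singular {K : Type} [Group K] [Finite K] (ρ : K →* (RatFunc ℂ ≃ₐ[ℂ] RatFunc ℂ))
    (hρ : Function.Injective ρ) (A : K → Matrix (Fin 2) (Fin 2) ℂ) (hA : ∀ k, (A k).det ≠ 0)
    (hmul : ∀ k l, ∃ s : ℂ, s ≠ 0 ∧ A (k * l) = s • (A l * A k))
    (hone : ∃ s : ℂ, s ≠ 0 ∧ A 1 = s • (1 : Matrix (Fin 2) (Fin 2) ℂ)) :
    ∃ n, Inv ρ A n ∧ n ≠ 0 ∧ n.det = 0 := by
  let l1 : Matrix (Fin 2) (Fin 2) (RatFunc ℂ) →ₗ[RatFunc ℂ] RatFunc ℂ :=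
    { toFun := fun N => N 0 1
      map_add' := fun _ _ => rfl
      map_smul' := fun _ _ => rfl }
  have hl1 : l1 ≠ 0 := by
    intro h
    have h1 : l1 (Matrix.of ![![0, 1], ![0, 0]]) = 0 := by rw [h]; rfl
    have h2 : l1 (Matrix.of ![![0, 1], ![0, 0]]) = 1 := rfl
    rw [h2] at h1
    exact one_ne_zero h1
  obtain ⟨s, hs, hs01⟩ := exists_inv ρ hρ A hA hmul hone l1 hl1
  replace hs01 : s 0 1 ≠ 0 := hs01
  obtain ⟨i, hidef⟩ : ∃ i, i = s - (s.trace / 2) • (1 : Matrix (Fin 2) (Fin 2) (RatFunc ℂ)) := ⟨_, rfl⟩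
  have hi : Inv ρ A i := by
    rw [hidef]
    refine hs.sub (Inv.smul ?_ Inv.one)
    intro k
    rw [map_div₀, hs.trace hA k, map_ofNat]
  have hi11 : i 1 1 = - i 0 0 := by
    have h2 := cz
    rw [hidef]
    simp [Matrix.trace_fin_two]
    field_simp
    ring
  have hi01 : i 0 1 ≠ 0 := by
    rw [hidef]
    simpa using hs01
  by_cases hdi : i.det = 0
  · refine ⟨i, hi, ?_, hdi⟩
    intro h
    rw [h] at hi01
    exact hi01 rfl
  let l2 : Matrix (Fin 2) (Fin 2) (RatFunc ℂ) →ₗ[RatFunc ℂ] RatFunc ℂ :=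
    { toFun := fun N => (N * i - i * N) 0 0
      map_add' := fun N M => by
        simp only [add_mul, mul_add, Matrix.sub_apply, Matrix.add_apply]
        ring
      map_smul' := fun c N => by
        simp only [smul_mul_assoc, mul_smul_comm, Matrix.sub_apply, Matrix.smul_apply, smul_eq_mul,
          RingHom.id_apply]
        ring }
  have hl2 : l2 ≠ 0 := by
    intro h
    have h1 : l2 (Matrix.of ![![0, 0], ![1, 0]]) = 0 := by rw [h]; rfl
    have h2 : l2 (Matrix.of ![![0, 0], ![1, 0]]) = - i 0 1 := by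
      show ((Matrix.of ![![0, 0], ![1, 0]] : Matrix (Fin 2) (Fin 2) (RatFunc ℂ)) * i -
        i * (Matrix.of ![![0, 0], ![1, 0]] : Matrix (Fin 2) (Fin 2) (RatFunc ℂ))) 0 0 = _
      rw [Matrix.sub_apply, Matrix.mul_apply, Matrix.mul_apply, Fin.sum_univ_two, Fin.sum_univ_two]
      simp
    rw [h2, neg_eq_zero] at h1
    exact hi01 h1
  obtain ⟨u, hu, hu0⟩ := exists_inv ρ hρ A hA hmul hone l2 hl2
  replace hu0 : (u * i - i * u) 0 0 ≠ 0 := hu0
  have hj : Inv ρ A (u * i - i * u) := (hu.mul hi).sub (hi.mul hu)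
  have hmem : ∀ x : RatFunc ℂ, x ∈ IntermediateField.fixedField ρ.range ↔ ∀ k, ρ k x = x := by
    intro x
    rw [IntermediateField.mem_fixedField_iff]
    constructor
    · intro h k; exact h _ ⟨k, rfl⟩
    · rintro h _ ⟨k, rfl⟩; exact h k
  obtain ⟨x, y, z, hx, hy, hz, hne, he⟩ := conic_fixed (IntermediateField.fixedField ρ.range)
    (fixed_ne_bot ρ) (-i.det) (-(u * i - i * u).det)
    (by rw [hmem]; intro k; rw [map_neg, hi.det hA k])
    (by rw [hmem]; intro k; rw [map_neg, hj.det hA k])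
  rw [hmem] at hx hy hz
  refine ⟨x • 1 + y • i + z • (u * i - i * u), ?_, ?_, ?_⟩
  · exact ((Inv.one.smul hx).add (hi.smul hy)).add (hj.smul hz)
  · intro h0
    obtain ⟨h1, h2, h3⟩ := combo_ne cz i u hi11 x y z hdi hu0 h0
    rcases hne with h | h | h
    · exact h h1
    · exact h h2
    · exact h h3
  · rw [det_combo i u hi11, he]
    ring

theorem core {K : Type} [Group K] [Finite K] (ρ : K →* (RatFunc ℂ ≃ₐ[ℂ] RatFunc ℂ))
    (hρ : Function.Injective ρ) (A : K → Matrix (Fin 2) (Fin 2) ℂ) (hA : ∀ k, (A k).det ≠ 0)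
    (hmul : ∀ k l, ∃ s : ℂ, s ≠ 0 ∧ A (k * l) = s • (A l * A k))
    (hone : ∃ s : ℂ, s ≠ 0 ∧ A 1 = s • (1 : Matrix (Fin 2) (Fin 2) ℂ)) :
    ∃ y : RatFunc ℂ, (∀ c : ℂ, y ≠ cc c) ∧
      ∀ k, ρ k y * (cc (A k 1 0) * y + cc (A k 1 1)) = cc (A k 0 0) * y + cc (A k 0 1) := by
  by_contra hcon
  have hinj : Function.Injective cc := (algebraMap ℂ (RatFunc ℂ)).injective
  -- every solution is constant
  have hconst : ∀ v : Fin 2 → RatFunc ℂ, Sol ρ A v →
      ∃ (α : RatFunc ℂ) (c d : ℂ), v 0 = α * cc c ∧ v 1 = α * cc d := by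
    intro v hv
    by_cases h1 : v 1 = 0
    · exact ⟨v 0, 1, 0, by simp, by simp [h1]⟩
    · by_cases h2 : ∃ c : ℂ, v 0 / v 1 = cc c
      · obtain ⟨c, hc⟩ := h2
        refine ⟨v 1, c, 1, ?_, by simp⟩
        rw [← hc, mul_div_cancel₀ _ h1]
      · exfalso
        push Not at h2
        apply hcon
        refine ⟨v 0 / v 1, h2, ?_⟩
        intro k
        have h3 := hv k
        simp only [Matrix.mulVec, dotProduct, Fin.sum_univ_two, Matrix.map_apply] at h3
        have h4 : ρ k (v 1) ≠ 0 := by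
          intro h; exact h1 ((map_eq_zero_iff (ρ k) (ρ k).injective).1 h)
        rw [map_div₀]
        field_simp
        linear_combination h3
  -- a first solution
  obtain ⟨n, hn, hn0, hdet⟩ := exists_singular ρ hρ A hA hmul hone
  obtain ⟨β, hβ⟩ : ∃ β, (fun i => n i β) ≠ 0 := by
    by_contra h
    push Not at h
    apply hn0
    ext i j
    exact congrFun (h j) i
  set v : Fin 2 → RatFunc ℂ := fun i => n i β with hvdef
  have hv : Sol ρ A v := Sol.of_col hn hdet β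
  -- a second one
  let l : Matrix (Fin 2) (Fin 2) (RatFunc ℂ) →ₗ[RatFunc ℂ] RatFunc ℂ :=
    { toFun := fun N => v 0 * (N 1 0 * v 0 + N 1 1 * v 1) - v 1 * (N 0 0 * v 0 + N 0 1 * v 1)
      map_add' := fun N M => by
        simp only [Matrix.add_apply]
        ring
      map_smul' := fun c N => by
        simp only [Matrix.smul_apply, smul_eq_mul, RingHom.id_apply]
        ring }
  have hl : l ≠ 0 := by
    intro h
    apply hβ
    have h1 : v 0 * (v 0) = 0 := by
      have e1 : l (Matrix.of ![![0, 0], ![1, 0]]) = 0 := by rw [h]; rfl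
      have e2 : l (Matrix.of ![![0, 0], ![1, 0]]) =
        v 0 * ((1 : RatFunc ℂ) * v 0 + 0 * v 1) - v 1 * (0 * v 0 + 0 * v 1) := rfl
      rw [e2] at e1
      linear_combination e1
    have h2 : v 1 * (v 1) = 0 := by
      have e1 : l (Matrix.of ![![0, 1], ![0, 0]]) = 0 := by rw [h]; rfl
      have e2 : l (Matrix.of ![![0, 1], ![0, 0]]) =
        v 0 * ((0 : RatFunc ℂ) * v 0 + 0 * v 1) - v 1 * (0 * v 0 + 1 * v 1) := rfl
      rw [e2] at e1
      linear_combination -e1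
    funext i
    fin_cases i
    · exact mul_self_eq_zero.1 h1
    · exact mul_self_eq_zero.1 h2
  obtain ⟨M, hM, hlM⟩ := exists_inv ρ hρ A hA hmul hone l hl
  set w : Fin 2 → RatFunc ℂ := M *ᵥ v with hwdef
  have hw : Sol ρ A w := hv.mul hM
  have hdvw : v 0 * w 1 - v 1 * w 0 ≠ 0 := by
    have : l M = v 0 * w 1 - v 1 * w 0 := by
      show v 0 * (M 1 0 * v 0 + M 1 1 * v 1) - v 1 * (M 0 0 * v 0 + M 0 1 * v 1) = _
      simp only [hwdef, Matrix.mulVec, dotProduct, Fin.sum_univ_two]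
    rw [← this]; exact hlM
  have hcomb : ∀ t : RatFunc ℂ, (∀ k, ρ k t = t) → Sol ρ A (fun i => v i + t * w i) := by
    intro t ht
    have h1 : (fun i => v i + t * w i) = (1 + t • M) *ᵥ v := by
      rw [Matrix.add_mulVec, Matrix.one_mulVec, Matrix.smul_mulVec]
      funext i
      rw [Pi.add_apply, Pi.smul_apply, smul_eq_mul]
    rw [h1]
    exact hv.mul (Inv.one.add (hM.smul ht))
  -- the nonconstant fixed element
  obtain ⟨t0, ht0, ht0c⟩ : ∃ t0 : RatFunc ℂ, (∀ k, ρ k t0 = t0) ∧ ∀ c : ℂ, t0 ≠ cc c := by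
    refine ⟨RatFunc.Luroth.generator (IntermediateField.fixedField ρ.range), ?_, ?_⟩
    · intro k
      have := RatFunc.Luroth.generator_mem (E := IntermediateField.fixedField ρ.range)
      rw [IntermediateField.mem_fixedField_iff] at this
      exact this _ ⟨k, rfl⟩
    · intro c hc
      exact RatFunc.Luroth.generator_spec (fixed_ne_bot ρ) ⟨c, hc.symm⟩
  obtain ⟨α, c1, d1, a1, a2⟩ := hconst v hv
  obtain ⟨γ, c2, d2, b1, b2⟩ := hconst w hw
  have hα : α ≠ 0 := by
    rintro rfl; apply hdvw; rw [a1, a2]; ring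
  have hγ : γ ≠ 0 := by
    rintro rfl; apply hdvw; rw [b1, b2]; ring
  have hδ : c1 * d2 - d1 * c2 ≠ 0 := by
    intro h
    apply hdvw
    rw [a1, a2, b1, b2]
    have : cc (c1 * d2 - d1 * c2) = 0 := by rw [h, map_zero]
    rw [map_sub, map_mul, map_mul] at this
    linear_combination (α * γ) * this
  -- key: ratio is constant
  have key : ∀ t : RatFunc ℂ, (∀ k, ρ k t = t) → ∃ X Y : ℂ, Y ≠ 0 ∧ α * cc X = t * γ * cc Y := by
    intro t ht
    obtain ⟨ε, c3, d3, g1, g2⟩ := hconst _ (hcomb t ht)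
    simp only [a1, a2, b1, b2] at g1 g2
    refine ⟨c1 * d3 - d1 * c3, d2 * c3 - c2 * d3, ?_, ?_⟩
    · intro hY
      -- then alpha X = 0
      have h1 : α * cc (c1 * d3 - d1 * c3) = t * γ * cc (d2 * c3 - c2 * d3) := by
        simp only [map_sub, map_mul]
        linear_combination (cc d3) * g1 - (cc c3) * g2
      rw [hY, map_zero, mul_zero] at h1
      have h2 : c1 * d3 - d1 * c3 = 0 := by
        have := (mul_eq_zero.1 h1).resolve_left hα
        exact (map_eq_zero_iff cc hinj).1 this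
      have h3 : c3 = 0 := by
        have : c3 * (c1 * d2 - d1 * c2) = 0 := by linear_combination c1 * hY + c2 * h2
        exact (mul_eq_zero.1 this).resolve_right hδ
      have h4 : d3 = 0 := by
        have : d3 * (c1 * d2 - d1 * c2) = 0 := by linear_combination d1 * hY + d2 * h2
        exact (mul_eq_zero.1 this).resolve_right hδ
      rw [h3, map_zero, mul_zero] at g1
      rw [h4, map_zero, mul_zero] at g2
      have h5 : α * cc (c1 * d2 - d1 * c2) = 0 := by
        simp only [map_sub, map_mul]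
        linear_combination (cc d2) * g1 - (cc c2) * g2
      rcases mul_eq_zero.1 h5 with h | h
      · exact hα h
      · exact hδ ((map_eq_zero_iff cc hinj).1 h)
    · simp only [map_sub, map_mul]
      linear_combination (cc d3) * g1 - (cc c3) * g2
  obtain ⟨X1, Y1, hY1, k1⟩ := key 1 (fun k => map_one _)
  obtain ⟨X2, Y2, hY2, k2⟩ := key t0 ht0
  have hX1 : X1 ≠ 0 := by
    rintro rfl
    rw [map_zero, mul_zero, one_mul] at k1
    rcases mul_eq_zero.1 k1.symm with h | h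
    · exact hγ h
    · exact hY1 ((map_eq_zero_iff cc hinj).1 h)
  apply ht0c (X2 * Y1 / (X1 * Y2))
  have hcX1 : cc X1 ≠ 0 := fun h => hX1 ((map_eq_zero_iff cc hinj).1 h)
  have hcY2 : cc Y2 ≠ 0 := fun h => hY2 ((map_eq_zero_iff cc hinj).1 h)
  rw [map_div₀, map_mul, map_mul, eq_div_iff (mul_ne_zero hcX1 hcY2)]
  have : α * γ * (t0 * (cc X1 * cc Y2)) = α * γ * (cc X2 * cc Y1) := by
    linear_combination (t0 * γ * cc Y2) * k1 - (γ * cc Y1) * k2
  exact mul_left_cancel₀ (mul_ne_zero hα hγ) this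

end TW

/-- TARGET 
For a finite group `K` acting faithfully on `ℂ(X)` and any automorphism `φ` of `K` there is a
`φ`-twisted equivariant substitution `τ`. -/
theorem exists_twisted (K : Type) [Group K] [Finite K]
    (ρ : K →* (RatFunc ℂ ≃ₐ[ℂ] RatFunc ℂ)) (hρ : Function.Injective ρ) (φ : K ≃* K) :
    ∃ τ : RatFunc ℂ →ₐ[ℂ] RatFunc ℂ, ∀ (k : K) (f : RatFunc ℂ), ρ k (τ f) = τ (ρ (φ k) f) := by
  choose a b c d hdet hden hX using fun k => aut_moebius (ρ (φ k))
  set A : K → Matrix (Fin 2) (Fin 2) ℂ := fun k => !![a k, b k; c k, d k] with hA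
  have hAdet : ∀ k, (A k).det ≠ 0 := by
    intro k
    rw [hA, Matrix.det_fin_two]
    exact hdet k
  have hX' : ∀ k, ρ (φ k) RatFunc.X * (TW.cc (c k) * RatFunc.X + TW.cc (d k)) =
      TW.cc (a k) * RatFunc.X + TW.cc (b k) := by
    intro k
    rw [hX k, div_mul_cancel₀ _ (hden k)]
  have hmul : ∀ k l, ∃ s : ℂ, s ≠ 0 ∧ A (k * l) = s • (A l * A k) := by
    intro k l
    apply TW.prop_mat
    · exact hAdet _
    · rw [Matrix.det_mul]
      exact mul_ne_zero (hAdet l) (hAdet k)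
    · have h1 := hX' (k * l)
      have h3 := hX' k
      have h2 : ρ (φ (k * l)) RatFunc.X * (TW.cc (c l) * ρ (φ k) RatFunc.X + TW.cc (d l)) =
          TW.cc (a l) * ρ (φ k) RatFunc.X + TW.cc (b l) := by
        have h4 := congrArg (ρ (φ k)) (hX' l)
        simp only [map_mul, map_add] at h4
        have h5 : ∀ z : ℂ, ρ (φ k) (TW.cc z) = TW.cc z := fun z => (ρ (φ k)).commutes z
        rw [h5, h5, h5, h5] at h4
        rw [map_mul φ, map_mul ρ]
        exact h4
      have p00 : (A l * A k) 0 0 = a l * a k + b l * c k := by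
        simp [hA, Matrix.mul_apply, Fin.sum_univ_two]
      have p01 : (A l * A k) 0 1 = a l * b k + b l * d k := by
        simp [hA, Matrix.mul_apply, Fin.sum_univ_two]
      have p10 : (A l * A k) 1 0 = c l * a k + d l * c k := by
        simp [hA, Matrix.mul_apply, Fin.sum_univ_two]
      have p11 : (A l * A k) 1 1 = c l * b k + d l * d k := by
        simp [hA, Matrix.mul_apply, Fin.sum_univ_two]
      rw [p00, p01, p10, p11]
      change (TW.cc (a l * a k + b l * c k) * RatFunc.X + TW.cc (a l * b k + b l * d k)) *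
        (TW.cc (c (k * l)) * RatFunc.X + TW.cc (d (k * l))) =
        (TW.cc (a (k * l)) * RatFunc.X + TW.cc (b (k * l))) *
        (TW.cc (c l * a k + d l * c k) * RatFunc.X + TW.cc (c l * b k + d l * d k))
      simp only [map_add, map_mul TW.cc]
      generalize ρ (φ (k * l)) RatFunc.X = Z at h1 h2
      generalize ρ (φ k) RatFunc.X = z at h2 h3
      linear_combination (-(TW.cc (a l)) * (TW.cc (c (k * l)) * RatFunc.X + TW.cc (d (k * l))) +
        (TW.cc (a (k * l)) * RatFunc.X + TW.cc (b (k * l))) * TW.cc (c l)) * h3 -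
        (TW.cc (c k) * RatFunc.X + TW.cc (d k)) * (TW.cc (c (k * l)) * RatFunc.X + TW.cc (d (k * l))) * h2 +
        (TW.cc (c l) * z + TW.cc (d l)) * (TW.cc (c k) * RatFunc.X + TW.cc (d k)) * h1
  have hone : ∃ s : ℂ, s ≠ 0 ∧ A 1 = s • (1 : Matrix (Fin 2) (Fin 2) ℂ) := by
    have h1 := hX' 1
    rw [map_one φ, map_one ρ, AlgEquiv.one_apply] at h1
    obtain ⟨e1, e2, e3⟩ := TW.quad_zero (c 1) (d 1 - a 1) (-(b 1)) (by
      simp only [map_sub, map_neg]
      linear_combination h1)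
    have e2' : d 1 = a 1 := sub_eq_zero.1 e2
    have e3' : b 1 = 0 := neg_eq_zero.1 e3
    refine ⟨a 1, ?_, ?_⟩
    · intro h
      apply hdet 1
      rw [h, e1]; ring
    · rw [hA]
      ext i j
      fin_cases i <;> fin_cases j <;> simp [e1, e2', e3']
  obtain ⟨y, hy, hyk⟩ := TW.core ρ hρ A hAdet hmul hone
  have hyt : Transcendental ℂ y := by
    apply RatFunc.transcendental_of_ne_C
    rintro ⟨z, hz⟩
    exact hy z hz
  obtain ⟨τ, hτ⟩ := Pool.Agent.Helper881.Cfd.exists_subst y hyt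
  refine ⟨τ, ?_⟩
  intro k f
  have hcomp : ((ρ k : RatFunc ℂ ≃ₐ[ℂ] RatFunc ℂ) : RatFunc ℂ →ₐ[ℂ] RatFunc ℂ).comp τ =
      τ.comp ((ρ (φ k) : RatFunc ℂ ≃ₐ[ℂ] RatFunc ℂ) : RatFunc ℂ →ₐ[ℂ] RatFunc ℂ) := by
    apply Pool.Agent.Helper881.Cfd.hom_ext
    show ρ k (τ RatFunc.X) = τ (ρ (φ k) RatFunc.X)
    rw [hX k, map_div₀, map_add, map_add, map_mul, map_mul, AlgHom.commutes, AlgHom.commutes,
      AlgHom.commutes, AlgHom.commutes, hτ]
    have h1 := hyk k
    have hne : TW.cc (c k) * y + TW.cc (d k) ≠ 0 := by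
      intro h
      by_cases hc : c k = 0
      · rw [hc, map_zero, zero_mul, zero_add] at h
        have hd : d k = 0 := (map_eq_zero_iff TW.cc (algebraMap ℂ (RatFunc ℂ)).injective).1 h
        apply hdet k
        rw [hc, hd]; ring
      · apply hy (-(d k) / c k)
        have hc' : TW.cc (c k) ≠ 0 := fun h' =>
          hc ((map_eq_zero_iff TW.cc (algebraMap ℂ (RatFunc ℂ)).injective).1 h')
        rw [map_div₀, eq_div_iff hc', map_neg]
        linear_combination h
    rw [eq_div_iff hne]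
    exact h1
  exact DFunLike.congr_fun hcomp f

end Pool.Agent.Helper881.Cen.Twist
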