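import Mathlib
import Pool.Agent.Helper881.CenDefs

set_option autoImplicit false

namespace Pool.Agent.Helper881.Cen.Zeros


open Polynomial

theorem frac_aux {K : Type*} [Field K] (a b c e : K) (hb : b ≠ 0) (m : ℕ) :
    (a / b) ^ (m + 2) + c * (a / b) ^ (m + 1) + e =
      (a ^ (m + 2) + c * a ^ (m + 1) * b + e * b ^ (m + 2)) / b ^ (m + 2) := by
  rw [eq_div_iff (pow_ne_zero _ hb), div_pow, div_pow, add_mul, add_mul,
    div_mul_cancel₀ _ (pow_ne_zero _ hb)]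
  congr 2
  rw [pow_succ b (m + 1)]
  have : b ^ (m + 1) ≠ 0 := pow_ne_zero _ hb
  field_simp

/-- The zeros of `f = ψ^n + α ψ^(n-1) + β`, `ψ = ψ₁/ψ₂`: there are `n * natDegree ψ₁` of them and they
are simple. -/
theorem simple_zeros (ψ₁ ψ₂ : ℂ[X]) (hψ : IsCoprime ψ₁ ψ₂) (hlt : ψ₂.natDegree < ψ₁.natDegree)
    (n : ℕ) (hn : 2 ≤ n) (α β : ℂ)
    (hz : ∀ z : ℂ, (ψ₁ ^ n + C α * ψ₁ ^ (n - 1) * ψ₂ + C β * ψ₂ ^ n).eval z = 0 →
      (derivative ψ₁ * ψ₂ - ψ₁ * derivative ψ₂).eval z ≠ 0 ∧ ψ₂.eval z ≠ 0 ∧ ψ₁.eval z ≠ 0 ∧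
        (n : ℂ) * ψ₁.eval z + ((n : ℂ) - 1) * α * ψ₂.eval z ≠ 0)
    (f : RatFunc ℂ)
    (hf : f = (algebraMap ℂ[X] (RatFunc ℂ) ψ₁ / algebraMap ℂ[X] (RatFunc ℂ) ψ₂) ^ n +
      algebraMap ℂ (RatFunc ℂ) α *
        (algebraMap ℂ[X] (RatFunc ℂ) ψ₁ / algebraMap ℂ[X] (RatFunc ℂ) ψ₂) ^ (n - 1) +
      algebraMap ℂ (RatFunc ℂ) β) :
    ∃ Z : Finset ℂ, Z.card = n * ψ₁.natDegree ∧
      (∀ z ∈ Z, (ψ₁ ^ n + C α * ψ₁ ^ (n - 1) * ψ₂ + C β * ψ₂ ^ n).eval z = 0) ∧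
      ∀ z ∈ Z, f.denom.eval z ≠ 0 ∧ f.num.eval z = 0 ∧ (derivative f.num).eval z ≠ 0 := by
  classical
  set P : ℂ[X] := ψ₁ ^ n + C α * ψ₁ ^ (n - 1) * ψ₂ + C β * ψ₂ ^ n with hP
  obtain ⟨m, rfl⟩ : ∃ m, n = m + 2 := ⟨n - 2, by omega⟩
  have hm1 : m + 2 - 1 = m + 1 := by omega
  rw [hm1] at hP hf
  have hψ₂ : ψ₂ ≠ 0 := by
    rintro rfl
    rw [isCoprime_zero_right] at hψ
    have := natDegree_eq_zero_of_isUnit hψ
    omega
  have hψ₁ : ψ₁ ≠ 0 := by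
    rintro rfl
    simp at hlt
  -- degree
  have hdeg : P.natDegree = (m + 2) * ψ₁.natDegree := by
    have h1 : (ψ₁ ^ (m + 2)).natDegree = (m + 2) * ψ₁.natDegree := natDegree_pow _ _
    have h2 : (C α * ψ₁ ^ (m + 1) * ψ₂).natDegree ≤ (m + 1) * ψ₁.natDegree + ψ₂.natDegree := by
      refine (natDegree_mul_le).trans ?_
      refine add_le_add ?_ le_rfl
      exact (natDegree_C_mul_le _ _).trans (natDegree_pow_le)
    have h3 : (C β * ψ₂ ^ (m + 2)).natDegree ≤ (m + 2) * ψ₂.natDegree :=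
      (natDegree_C_mul_le _ _).trans (natDegree_pow_le)
    have h4 : (C α * ψ₁ ^ (m + 1) * ψ₂ + C β * ψ₂ ^ (m + 2)).natDegree < (ψ₁ ^ (m + 2)).natDegree := by
      rw [h1]
      refine (natDegree_add_le _ _).trans_lt (max_lt ?_ ?_)
      · refine h2.trans_lt ?_
        have e : (m + 2) * ψ₁.natDegree = (m + 1) * ψ₁.natDegree + ψ₁.natDegree := by ring
        rw [e]
        omega
      · refine h3.trans_lt ?_
        exact Nat.mul_lt_mul_of_pos_left hlt (by omega)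
    rw [hP, add_assoc, natDegree_add_eq_left_of_natDegree_lt h4, h1]
  have hP0 : P ≠ 0 := by
    intro h0
    rw [h0, natDegree_zero] at hdeg
    have : 0 < (m + 2) * ψ₁.natDegree := Nat.mul_pos (by omega) (by omega)
    omega
  -- simple zeros
  have hder : derivative P * ψ₂ - ((m + 2 : ℕ) : ℂ[X]) * P * derivative ψ₂ =
      ψ₁ ^ m * (derivative ψ₁ * ψ₂ - ψ₁ * derivative ψ₂) *
        (((m + 2 : ℕ) : ℂ[X]) * ψ₁ + ((m + 1 : ℕ) : ℂ[X]) * C α * ψ₂) := by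
    rw [hP]
    simp only [derivative_add, derivative_mul, derivative_C, derivative_pow, Nat.add_sub_cancel,
      show m + 2 - 1 = m + 1 by omega, map_natCast]
    push_cast
    ring
  have hsimple : ∀ z, P.eval z = 0 → (derivative P).eval z ≠ 0 := by
    intro z hz0 hd
    obtain ⟨w1, w2, w3, w4⟩ := hz z hz0
    have h1 := congrArg (Polynomial.eval z) hder
    rw [eval_sub, eval_mul, eval_mul, eval_mul, hd, hz0, eval_mul, eval_mul, eval_pow,
      eval_add, eval_mul, eval_mul, eval_mul, eval_natCast, eval_natCast, eval_C] at h1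
    have h2 : ψ₁.eval z ^ m * (derivative ψ₁ * ψ₂ - ψ₁ * derivative ψ₂).eval z *
        (((m + 2 : ℕ) : ℂ) * ψ₁.eval z + ((m + 1 : ℕ) : ℂ) * α * ψ₂.eval z) = 0 := by
      rw [← h1]
      ring
    have h3 : ((m + 2 : ℕ) : ℂ) * ψ₁.eval z + ((m + 1 : ℕ) : ℂ) * α * ψ₂.eval z ≠ 0 := by
      have e : (((m + 2 : ℕ) : ℂ) - 1) = ((m + 1 : ℕ) : ℂ) := by push_cast; ring
      rw [e] at w4
      exact w4
    exact mul_ne_zero (mul_ne_zero (pow_ne_zero _ w3) w1) h3 h2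
  have hnodup : P.roots.Nodup := by
    rw [Multiset.nodup_iff_count_le_one]
    intro z
    rw [count_roots]
    by_contra hcon
    push Not at hcon
    obtain ⟨h1, h2⟩ := (one_lt_rootMultiplicity_iff_isRoot hP0).mp hcon
    exact hsimple z h1 h2
  have hcard : Multiset.card P.roots = (m + 2) * ψ₁.natDegree := by
    rw [← hdeg]
    exact (IsAlgClosed.splits P).natDegree_eq_card_roots.symm
  have hroot : ∀ z ∈ P.roots.toFinset, P.eval z = 0 := by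
    intro z hz'
    rw [Multiset.mem_toFinset] at hz'
    exact isRoot_of_mem_roots hz'
  -- `f` in lowest terms
  have hQ0 : ψ₂ ^ (m + 2) ≠ 0 := pow_ne_zero _ hψ₂
  have hfP : f = algebraMap ℂ[X] (RatFunc ℂ) P / algebraMap ℂ[X] (RatFunc ℂ) (ψ₂ ^ (m + 2)) := by
    have h2 : algebraMap ℂ[X] (RatFunc ℂ) ψ₂ ≠ 0 := RatFunc.algebraMap_ne_zero hψ₂
    have hα : algebraMap ℂ[X] (RatFunc ℂ) (C α) = algebraMap ℂ (RatFunc ℂ) α := by
      rw [RatFunc.algebraMap_C]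
      rfl
    have hβ : algebraMap ℂ[X] (RatFunc ℂ) (C β) = algebraMap ℂ (RatFunc ℂ) β := by
      rw [RatFunc.algebraMap_C]
      rfl
    rw [hf, hP, map_add, map_add, map_mul, map_mul, map_mul, map_pow, map_pow, map_pow, hα, hβ]
    exact frac_aux _ _ _ _ h2 m
  have hnum : f.num * ψ₂ ^ (m + 2) = P * f.denom := (RatFunc.num_mul_eq_mul_denom_iff hQ0).mpr hfP
  have hcop : IsCoprime P (ψ₂ ^ (m + 2)) := by
    apply IsCoprime.pow_right
    have h1 : IsCoprime (ψ₁ ^ (m + 2)) ψ₂ := hψ.pow_left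
    have e : P = ψ₁ ^ (m + 2) + ψ₂ * (C α * ψ₁ ^ (m + 1) + C β * ψ₂ ^ (m + 1)) := by
      rw [hP]
      ring
    rw [e]
    exact h1.add_mul_left_left _
  have hdvd1 : P ∣ f.num := by
    apply hcop.dvd_of_dvd_mul_right
    rw [hnum]
    exact dvd_mul_right _ _
  have hdvd2 : f.num ∣ P := by
    rw [hfP]
    exact RatFunc.num_div_dvd P hQ0
  have hdvd3 : f.denom ∣ ψ₂ ^ (m + 2) := by
    rw [hfP]
    exact RatFunc.denom_div_dvd P _
  refine ⟨P.roots.toFinset, ?_, hroot, ?_⟩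
  · rw [Multiset.toFinset_card_of_nodup hnodup, hcard]
  · intro z hz'
    have hz0 := hroot z hz'
    obtain ⟨w1, w2, w3, w4⟩ := hz z hz0
    obtain ⟨v, hv⟩ := hdvd1
    have hn0 : f.num.eval z = 0 := by
      rw [hv, eval_mul, hz0, zero_mul]
    refine ⟨?_, hn0, ?_⟩
    · intro h0
      obtain ⟨u, hu⟩ := hdvd3
      have h1 := congrArg (Polynomial.eval z) hu
      rw [eval_pow, eval_mul, h0, zero_mul] at h1
      exact w2 (pow_eq_zero_iff (by omega) |>.mp h1)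
    · intro h0
      obtain ⟨w, hw⟩ := hdvd2
      apply hsimple z hz0
      rw [hw, derivative_mul, eval_add, eval_mul, eval_mul, h0, hn0]
      ring

end Pool.Agent.Helper881.Cen.Zeros
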