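import Mathlib
import Pool.Agent.Helper881.Cfd6
import Pool.Agent.Helper881.CenDefs
import Pool.Agent.Helper881.CenUpper

set_option autoImplicit false

namespace Pool.Agent.Helper881.Cen.Realize


open Polynomial



/-- (given) degree is multiplicative. -/
theorem deg_subst (σ : RatFunc ℂ →ₐ[ℂ] RatFunc ℂ) (f : RatFunc ℂ) :
    rdeg (σ f) = rdeg (σ RatFunc.X) * rdeg f :=
  Pool.Agent.Helper881.Cen.Upper.deg_subst σ f

/-- conjugation by `r ^ j` -/
def realize_cj {G : Type} [Group G] (K : Subgroup G) [hK : K.Normal] (r : G) (j : ℕ) (l : K) : K :=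
  ⟨r ^ j * (l : G) * (r ^ j)⁻¹, hK.conj_mem _ l.2 _⟩

/-- abstract version -/
theorem realize_abs {E : Type} [Monoid E] (deg : E → ℕ)
    (hdm : ∀ σ τ, deg (σ * τ) = deg σ * deg τ) (hd1 : ∀ σ, 1 ≤ deg σ)
    (hlc : ∀ σ a b : E, σ * a = σ * b → a = b)
    (G : Type) [Group G] [Finite G] (K : Subgroup G) [K.Normal] (r : G)
    (hr : ∀ g : G, ∃ (k : K) (j : ℕ), g = k * r ^ j)
    (ρ : K →* E) (hρ : Function.Injective ρ)
    (φ : K ≃* K) (hφ : ∀ k : K, ((φ k : K) : G) = r⁻¹ * k * r)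
    (R : E) (hR : 2 ≤ deg R)
    (H1 : ∀ (k : K), ρ k * R = R * ρ (φ k))
    (H2 : ∀ A A' : E, A * R = A' * R → A = A')
    (H3 : ∀ A B S : E, 2 ≤ deg S → A * R = B * S → ∃ T : E, S = T * R)
    (H4 : ∀ μ ν : E, deg μ = 1 → deg ν = 1 → R * μ = ν * R → ∃ k : K, ν = ρ k) :
    ∃ P V : E, P = V * R ∧ 2 ≤ deg P ∧
      ∃ q : E → G,
        (∀ σ τ : E, σ * P = P * σ → τ * P = P * τ → q (σ * τ) = q σ * q τ) ∧
        (∀ g : G, ∃ σ : E, σ * P = P * σ ∧ q σ = g) ∧
        (∀ σ τ : E, σ * P = P * σ → τ * P = P * τ →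
          (q σ = q τ ↔ ∃ l₁ l₂ : ℕ, P ^ l₁ * σ = P ^ l₂ * τ)) := by
  classical
  have hd_one : deg 1 = 1 := by
    have h1 := hdm 1 1
    rw [mul_one] at h1
    have h2 := hd1 1
    nlinarith
  have hd_rho : ∀ k : K, deg (ρ k) = 1 := by
    intro k
    have h1 := hdm (ρ k) (ρ k⁻¹)
    rw [← map_mul, mul_inv_cancel, map_one, hd_one] at h1
    exact Nat.eq_one_of_mul_eq_one_right h1.symm
  have hd_pow : ∀ (σ : E) (n : ℕ), deg (σ ^ n) = deg σ ^ n := by
    intro σ n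
    induction n with
    | zero => rw [pow_zero, pow_zero, hd_one]
    | succ n ih => rw [pow_succ, pow_succ, hdm, ih]
  have hcj_zero : ∀ l : K, realize_cj K r 0 l = l := by
    intro l
    apply Subtype.ext
    simp [realize_cj]
  have hcj_one : ∀ l : K, R * ρ l = ρ (realize_cj K r 1 l) * R := by
    intro l
    rw [H1]
    congr 2
    apply Subtype.ext
    rw [hφ]
    simp only [realize_cj, pow_one]
    group
  have hcomm : ∀ (j : ℕ) (l : K), R ^ j * ρ l = ρ (realize_cj K r j l) * R ^ j := by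
    intro j
    induction j with
    | zero => intro l; rw [hcj_zero, pow_zero, one_mul, mul_one]
    | succ j ih =>
      intro l
      rw [pow_succ, mul_assoc, hcj_one, ← mul_assoc, ih, mul_assoc]
      congr 2
      apply Subtype.ext
      simp only [realize_cj, pow_one]
      group
  have hmulrep : ∀ (k l : K) (i j : ℕ), (ρ k * R ^ i) * (ρ l * R ^ j) =
      ρ (k * realize_cj K r i l) * R ^ (i + j) := by
    intro k l i j
    rw [mul_assoc, ← mul_assoc (R ^ i), hcomm, map_mul, pow_add]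
    simp only [mul_assoc]
  -- the order
  set a := orderOf (QuotientGroup.mk r : G ⧸ K) with ha
  have ha0 : 0 < a := orderOf_pos _
  have hmem : ∀ i : ℕ, r ^ i ∈ K ↔ a ∣ i := by
    intro i
    rw [ha, orderOf_dvd_iff_pow_eq_one, ← QuotientGroup.mk_pow, QuotientGroup.eq_one_iff]
  have hra : r ^ a ∈ K := (hmem a).2 dvd_rfl
  set k1 : K := ⟨(r ^ a)⁻¹, K.inv_mem hra⟩ with hk1
  set P : E := ρ k1 * R ^ a with hP
  have hPV : P = (ρ k1 * R ^ (a - 1)) * R := by
    rw [hP, mul_assoc, ← pow_succ, Nat.sub_add_cancel ha0]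
  have hdP : deg P = deg R ^ a := by
    rw [hP, hdm, hd_rho, hd_pow, one_mul]
  have hdP2 : 2 ≤ deg P := by
    rw [hdP]
    calc 2 ≤ deg R := hR
      _ = deg R ^ 1 := (pow_one _).symm
      _ ≤ deg R ^ a := Nat.pow_le_pow_right (by omega) ha0
  -- `P` commutes with `ρ k` and `R`
  have hPρ : ∀ k : K, ρ k * P = P * ρ k := by
    intro k
    rw [hP, ← mul_assoc, ← map_mul, mul_assoc, hcomm, ← mul_assoc, ← map_mul]
    congr 2
    apply Subtype.ext
    simp only [realize_cj, hk1, Subgroup.coe_mul]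
    group
  have hPR : R * P = P * R := by
    rw [hP, ← mul_assoc, hcj_one, mul_assoc, mul_assoc, ← pow_succ, ← pow_succ']
    congr 2
    apply Subtype.ext
    simp only [realize_cj, hk1]
    group
  have hPRj : ∀ j : ℕ, R ^ j * P = P * R ^ j := by
    intro j
    exact ((show Commute R P from hPR).pow_left j)
  have hPrep : ∀ (k : K) (j : ℕ), (ρ k * R ^ j) * P = P * (ρ k * R ^ j) := by
    intro k j
    rw [mul_assoc, hPRj, ← mul_assoc, hPρ, mul_assoc]
  -- the centraliser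
  have hcent : ∀ (n : ℕ) (σ : E), deg σ ≤ n → σ * P = P * σ → ∃ (k : K) (j : ℕ), σ = ρ k * R ^ j := by
    intro n
    induction n with
    | zero =>
      intro σ h1 _
      have := hd1 σ
      omega
    | succ n ih =>
      intro σ h1 h2
      by_cases hσ : 2 ≤ deg σ
      · have e1 : (σ * (ρ k1 * R ^ (a - 1))) * R = P * σ := by
          rw [mul_assoc, ← hPV, h2]
        obtain ⟨T, hT⟩ := H3 _ _ _ hσ e1
        have e2 : T * P = P * T := by
          apply H2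
          rw [mul_assoc, ← hPR, ← mul_assoc, ← hT, h2, hT, ← mul_assoc]
        have e3 : deg σ = deg T * deg R := by rw [hT, hdm]
        have e4 : deg T ≤ n := by
          have := hd1 T
          nlinarith
        obtain ⟨k, j, hkj⟩ := ih T e4 e2
        exact ⟨k, j + 1, by rw [hT, hkj, pow_succ, mul_assoc]⟩
      · have hσ1 : deg σ = 1 := by
          have := hd1 σ
          omega
        have e0 : 2 ≤ deg (R * σ) := by rw [hdm, hσ1, mul_one]; exact hR
        have e1 : (σ * (ρ k1 * R ^ (a - 1))) * R = (ρ k1 * R ^ (a - 1)) * (R * σ) := by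
          rw [mul_assoc, ← hPV, h2, ← mul_assoc, ← hPV]
        obtain ⟨T, hT⟩ := H3 _ _ _ e0 e1
        have e3 : deg T = 1 := by
          have h4 : deg (R * σ) = deg T * deg R := by rw [hT, hdm]
          rw [hdm, hσ1, mul_one] at h4
          have h5 : deg R * 1 = deg R * deg T := by rw [mul_one, mul_comm]; exact h4
          exact (Nat.eq_of_mul_eq_mul_left (by omega) h5).symm
        obtain ⟨k, hk⟩ := H4 σ T hσ1 e3 hT
        refine ⟨φ k, 0, ?_⟩
        rw [pow_zero, mul_one]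
        apply hlc R
        rw [hT, hk, H1]
  have hRcancel : ∀ (j : ℕ) (A A' : E), A * R ^ j = A' * R ^ j → A = A' := by
    intro j
    induction j with
    | zero => intro A A' h; rwa [pow_zero, mul_one, mul_one] at h
    | succ j ih =>
      intro A A' h
      rw [pow_succ, ← mul_assoc, ← mul_assoc] at h
      exact ih _ _ (H2 _ _ h)
  have huniq : ∀ (k k' : K) (j j' : ℕ), ρ k * R ^ j = ρ k' * R ^ j' → k = k' ∧ j = j' := by
    intro k k' j j' h
    have h1 := congrArg deg h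
    rw [hdm, hdm, hd_rho, hd_rho, one_mul, one_mul, hd_pow, hd_pow] at h1
    have h2 : j = j' := Nat.pow_right_injective hR h1
    subst h2
    exact ⟨hρ (hRcancel j _ _ h), rfl⟩
  set q : E → G := fun σ => if h : ∃ (kj : K × ℕ), σ = ρ kj.1 * R ^ kj.2 then
    (h.choose.1 : G) * r ^ h.choose.2 else 1 with hq
  have hqrep : ∀ (k : K) (j : ℕ), q (ρ k * R ^ j) = (k : G) * r ^ j := by
    intro k j
    have h : ∃ (kj : K × ℕ), ρ k * R ^ j = ρ kj.1 * R ^ kj.2 := ⟨(k, j), rfl⟩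
    have h1 : q (ρ k * R ^ j) = (h.choose.1 : G) * r ^ h.choose.2 := by
      rw [hq]
      simp only
      rw [dif_pos h]
    have h2 := huniq _ _ _ _ h.choose_spec
    rw [h1, ← h2.1, ← h2.2]
  have hqmul : ∀ σ τ : E, σ * P = P * σ → τ * P = P * τ → q (σ * τ) = q σ * q τ := by
    intro σ τ hσ hτ
    obtain ⟨k, i, rfl⟩ := hcent _ σ le_rfl hσ
    obtain ⟨l, j, rfl⟩ := hcent _ τ le_rfl hτ
    rw [hmulrep, hqrep, hqrep, hqrep, Subgroup.coe_mul]
    simp only [realize_cj]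
    rw [pow_add]
    group
  have hqP : q P = 1 := by
    rw [hP, hqrep]
    simp [hk1]
  have hcomP : ∀ (s : ℕ) (τ : E), τ * P = P * τ → (P ^ s * τ) * P = P * (P ^ s * τ) := by
    intro s τ hτ
    have h1 : Commute (P ^ s) P := (Commute.refl P).pow_left s
    have h2 : Commute τ P := hτ
    exact h1.mul_left h2
  have hqPs : ∀ (s : ℕ) (τ : E), τ * P = P * τ → q (P ^ s * τ) = q τ := by
    intro s
    induction s with
    | zero => intro τ _; rw [pow_zero, one_mul]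
    | succ s ih =>
      intro τ hτ
      rw [pow_succ', mul_assoc, hqmul P _ rfl (hcomP s τ hτ), hqP, one_mul, ih τ hτ]
  -- key: same value and ordered exponents
  have hkey : ∀ (k k' : K) (i j : ℕ), (k : G) * r ^ i = (k' : G) * r ^ j → j ≤ i →
      ∃ s : ℕ, P ^ s * (ρ k' * R ^ j) = ρ k * R ^ i := by
    intro k k' i j h hij
    have h1 : a ∣ i - j := by
      rw [← hmem]
      have h2 : r ^ i = r ^ (i - j) * r ^ j := by rw [← pow_add, Nat.sub_add_cancel hij]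
      rw [h2, ← mul_assoc] at h
      have h3 := mul_right_cancel h
      have h4 : r ^ (i - j) = (k : G)⁻¹ * (k' : G) := by rw [← h3]; group
      rw [h4]
      exact K.mul_mem (K.inv_mem k.2) k'.2
    obtain ⟨s, hs⟩ := h1
    have hi : i = j + a * s := by omega
    refine ⟨s, ?_⟩
    obtain ⟨k'', m, hm⟩ := hcent _ (P ^ s * (ρ k' * R ^ j)) le_rfl (hcomP s _ (hPrep k' j))
    have hdeg := congrArg deg hm
    rw [hdm, hd_pow, hdP, hdm, hd_rho, hd_pow, hdm, hd_rho, hd_pow, one_mul, one_mul, ← pow_mul,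
      ← pow_add] at hdeg
    have hm2 : a * s + j = m := Nat.pow_right_injective hR hdeg
    have hm3 : m = i := by omega
    have hqq := hqPs s _ (hPrep k' j)
    rw [hm, hqrep, hqrep, ← h, hm3] at hqq
    have hkk : k'' = k := Subtype.ext (mul_right_cancel hqq)
    rw [hm, hkk, hm3]
  refine ⟨P, ρ k1 * R ^ (a - 1), hPV, hdP2, q, hqmul, ?_, ?_⟩
  · intro g
    obtain ⟨k, j, hg⟩ := hr g
    exact ⟨ρ k * R ^ j, hPrep k j, by rw [hqrep, hg]⟩
  · intro σ τ hσ hτ
    constructor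
    · intro h
      obtain ⟨k, i, rfl⟩ := hcent _ σ le_rfl hσ
      obtain ⟨k', j, rfl⟩ := hcent _ τ le_rfl hτ
      rw [hqrep, hqrep] at h
      rcases le_total j i with hij | hij
      · obtain ⟨s, hs⟩ := hkey k k' i j h hij
        exact ⟨0, s, by rw [pow_zero, one_mul, hs]⟩
      · obtain ⟨s, hs⟩ := hkey k' k j i h.symm hij
        exact ⟨s, 0, by rw [pow_zero, one_mul, hs]⟩
    · rintro ⟨l1, l2, h⟩
      have h1 := congrArg q h
      rwa [hqPs l1 σ hσ, hqPs l2 τ hτ] at h1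

theorem realize_rdeg_pos (σ : RatFunc ℂ →ₐ[ℂ] RatFunc ℂ) : 1 ≤ rdeg (σ RatFunc.X) := by
  by_contra hcon
  have h0 : rdeg (σ RatFunc.X) = 0 := by omega
  unfold rdeg at h0
  have h1 : (σ RatFunc.X).num.natDegree = 0 := by omega
  have h2 : (σ RatFunc.X).denom.natDegree = 0 := by omega
  obtain ⟨a, ha⟩ := Polynomial.natDegree_eq_zero.1 h1
  obtain ⟨b, hb⟩ := Polynomial.natDegree_eq_zero.1 h2
  have h3 : σ RatFunc.X = algebraMap ℂ (RatFunc ℂ) (a / b) := by
    rw [← RatFunc.num_div_denom (σ RatFunc.X), ← ha, ← hb, map_div₀,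
      RatFunc.algebraMap_C, RatFunc.algebraMap_C]
    rfl
  rw [← AlgHom.commutes σ] at h3
  have h4 : (RatFunc.X : RatFunc ℂ) = algebraMap ℂ (RatFunc ℂ) (a / b) :=
    (σ : RatFunc ℂ →+* RatFunc ℂ).injective h3
  have h5 : Transcendental ℂ (RatFunc.X : RatFunc ℂ) := RatFunc.transcendental_X
  rw [h4] at h5
  exact h5 (isAlgebraic_algebraMap _)

/-- TARGET: group-theoretic realisation. Monoid structure on `RatFunc ℂ →ₐ[ℂ] RatFunc ℂ` is
composition. From a rational function `R` with the cancellation properties `H2, H3, H4` and the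
equivariance `H1` one gets `P` (substitution `Π`) whose centraliser modulo `∼_P` is `G`. -/
theorem realize_end (G : Type) [Group G] [Finite G] (K : Subgroup G) [K.Normal] (r : G)
    (hr : ∀ g : G, ∃ (k : K) (j : ℕ), g = k * r ^ j)
    (ρ : K →* (RatFunc ℂ ≃ₐ[ℂ] RatFunc ℂ)) (hρ : Function.Injective ρ)
    (φ : K ≃* K) (hφ : ∀ k : K, ((φ k : K) : G) = r⁻¹ * k * r)
    (R : RatFunc ℂ →ₐ[ℂ] RatFunc ℂ) (hR : 2 ≤ rdeg (R RatFunc.X))
    (H1 : ∀ (k : K) (f : RatFunc ℂ), ρ k (R f) = R (ρ (φ k) f))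
    (H2 : ∀ A A' : RatFunc ℂ →ₐ[ℂ] RatFunc ℂ, A (R RatFunc.X) = A' (R RatFunc.X) → A = A')
    (H3 : ∀ A B S : RatFunc ℂ →ₐ[ℂ] RatFunc ℂ, 2 ≤ rdeg (S RatFunc.X) →
      A (R RatFunc.X) = B (S RatFunc.X) →
      ∃ T : RatFunc ℂ →ₐ[ℂ] RatFunc ℂ, S RatFunc.X = T (R RatFunc.X))
    (H4 : ∀ μ ν : RatFunc ℂ →ₐ[ℂ] RatFunc ℂ, rdeg (μ RatFunc.X) = 1 → rdeg (ν RatFunc.X) = 1 →
      R (μ RatFunc.X) = ν (R RatFunc.X) → ∃ k : K, ∀ f, ν f = ρ k f) :
    ∃ P V : RatFunc ℂ →ₐ[ℂ] RatFunc ℂ, P RatFunc.X = V (R RatFunc.X) ∧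
      2 ≤ rdeg (P RatFunc.X) ∧
      ∃ q : (RatFunc ℂ →ₐ[ℂ] RatFunc ℂ) → G,
        (∀ σ τ : RatFunc ℂ →ₐ[ℂ] RatFunc ℂ, σ * P = P * σ → τ * P = P * τ →
          q (σ * τ) = q σ * q τ) ∧
        (∀ g : G, ∃ σ : RatFunc ℂ →ₐ[ℂ] RatFunc ℂ, σ * P = P * σ ∧ q σ = g) ∧
        (∀ σ τ : RatFunc ℂ →ₐ[ℂ] RatFunc ℂ, σ * P = P * σ → τ * P = P * τ →
          (q σ = q τ ↔ ∃ l₁ l₂ : ℕ, P ^ l₁ * σ = P ^ l₂ * τ)) := by
  have hext : ∀ σ τ : RatFunc ℂ →ₐ[ℂ] RatFunc ℂ, σ RatFunc.X = τ RatFunc.X → σ = τ :=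
    fun σ τ h => Pool.Agent.Helper881.Cfd.hom_ext σ τ h
  let ρ' : K →* (RatFunc ℂ →ₐ[ℂ] RatFunc ℂ) :=
    { toFun := fun k => (ρ k : RatFunc ℂ →ₐ[ℂ] RatFunc ℂ)
      map_one' := by rw [map_one]; rfl
      map_mul' := fun k l => by rw [map_mul]; rfl }
  have hρ'a : ∀ (k : K) (f : RatFunc ℂ), ρ' k f = ρ k f := fun k f => rfl
  obtain ⟨P, V, h1, h2, q, h3, h4, h5⟩ := realize_abs
    (E := RatFunc ℂ →ₐ[ℂ] RatFunc ℂ) (fun σ => rdeg (σ RatFunc.X))
    (fun σ τ => deg_subst σ (τ RatFunc.X)) realize_rdeg_pos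
    (fun σ a b h => AlgHom.ext (fun x => by
      have h1 : σ (a x) = σ (b x) := DFunLike.congr_fun h x
      exact (σ : RatFunc ℂ →+* RatFunc ℂ).injective h1))
    G K r hr ρ'
    (by
      intro k l hkl
      apply hρ
      apply AlgEquiv.ext
      intro f
      have : ρ' k f = ρ' l f := by rw [hkl]
      exact this)
    φ hφ R hR
    (fun k => AlgHom.ext (fun f => H1 k f))
    (fun A A' h => H2 A A' (DFunLike.congr_fun h RatFunc.X))
    (fun A B S hS h => by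
      obtain ⟨T, hT⟩ := H3 A B S hS (DFunLike.congr_fun h RatFunc.X)
      exact ⟨T, hext _ _ hT⟩)
    (fun μ ν hμ hν h => by
      obtain ⟨k, hk⟩ := H4 μ ν hμ hν (DFunLike.congr_fun h RatFunc.X)
      exact ⟨k, AlgHom.ext hk⟩)
  exact ⟨P, V, DFunLike.congr_fun h1 RatFunc.X, h2, q, h3, h4, h5⟩

end Pool.Agent.Helper881.Cen.Realize
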