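import Mathlib
import Pool.Agent.Helper881.CenDefs
import Pool.Agent.Helper881.CenHom
import Pool.Agent.Helper881.CenRealize
import Pool.Agent.Helper881.CenSpecial
import Pool.Agent.Helper881.CenExists
import Pool.Agent.Helper881.CenCrit
import Pool.Agent.Helper881.GpDefs

set_option autoImplicit false

open Polynomial

namespace Pool.Agent.Helper881.Cen.Main

open Pool.Agent.Helper881.Cen.Exists Pool.Agent.Helper881.Cen.Crit
open Pool.Agent.Helper881.Gp

/-- every finite group with a normal subgroup embeddable in `PGL₂(ℂ)` and cyclic quotient is a `G_P`. -/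
theorem realization (G : Type) [Group G] [Finite G] (K : Subgroup G) [K.Normal]
    (hcyc : IsCyclic (G ⧸ K)) (f : K →* Matrix.ProjGenLinGroup (Fin 2) ℂ)
    (hf : Function.Injective f) :
    ∃ P : RatFunc ℂ, 2 ≤ deg P ∧ ¬ IsSpecial P ∧ IsGP P G := by
  classical
  obtain ⟨e⟩ := Pgl.pgl_equiv
  set ρ : K →* (RatFunc ℂ ≃ₐ[ℂ] RatFunc ℂ) := e.toMonoidHom.comp f with hρdef
  have hρ : Function.Injective ρ := fun x y hxy => hf (e.injective hxy)
  obtain ⟨x, hx⟩ := hcyc.exists_generator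
  obtain ⟨r, rfl⟩ := QuotientGroup.mk_surjective x
  have hr : ∀ g : G, ∃ (k : K) (j : ℕ), g = k * r ^ j := by
    intro g
    have h1 := hx (g : G ⧸ K)
    rw [← mem_powers_iff_mem_zpowers] at h1
    obtain ⟨j, hj⟩ := h1
    have h2 : ((r ^ j : G) : G ⧸ K) = (g : G ⧸ K) := hj
    have h3 : g * (r ^ j)⁻¹ ∈ K := by
      have h4 : ((g * (r ^ j)⁻¹ : G) : G ⧸ K) = 1 := by
        rw [QuotientGroup.mk_mul, QuotientGroup.mk_inv, ← h2, mul_inv_cancel]
      exact (QuotientGroup.eq_one_iff _).1 h4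
    exact ⟨⟨g * (r ^ j)⁻¹, h3⟩, j, by simp⟩
  set φ : K ≃* K := (MulAut.conjNormal r⁻¹ : MulAut K) with hφdef
  have hφ : ∀ k : K, ((φ k : K) : G) = r⁻¹ * k * r := by
    intro k
    have := MulAut.conjNormal_apply r⁻¹ k
    rw [inv_inv] at this
    exact this
  obtain ⟨R, hR, H1, H2, H3, H4, Z, hZ, hgood⟩ := exists_R K ρ hρ φ
  obtain ⟨P, V, hPV, hP2, hq⟩ := Realize.realize_end G K r hr ρ hρ φ hφ R hR H1 H2 H3 H4
  refine ⟨P RatFunc.X, hP2, ?_, (Hom.isGP_iff P G).2 hq⟩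
  apply Hom.nonspecial_of_hom
  obtain ⟨T, hT, hcv⟩ := many_critical_values (R RatFunc.X) Z hZ hgood V
  rw [← hPV] at hcv
  exact Special.nonspecial_of_critical_values P hP2 T hT hcv

/-- the classification -/
theorem classification (G : Type) [Group G] [Finite G] :
    (∃ P : RatFunc ℂ, 2 ≤ deg P ∧ ¬ IsSpecial P ∧ IsGP P G) ↔
      ∃ (K : Subgroup G) (_ : K.Normal), IsCyclic (G ⧸ K) ∧
        ∃ f : K →* Matrix.ProjGenLinGroup (Fin 2) ℂ, Function.Injective f := by
  constructor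
  · rintro ⟨P, hP, -, h⟩
    exact Hom.structure_of_GP G P hP h
  · rintro ⟨K, hK, hcyc, f, hf⟩
    exact realization G K hcyc f hf

end Pool.Agent.Helper881.Cen.Main
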