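import Mathlib
import Pool.Agent.Helper881.Cfd6
import Pool.Agent.Helper881.CenDefs

set_option autoImplicit false

namespace Pool.Agent.Helper881.Cen.Rigid


open Polynomial

set_option linter.unusedVariables false
set_option maxHeartbeats 4000000

namespace PsiRigid

/-- Mason-Stothers in a convenient form -/
theorem ms {A B Cc y : ℂ[X]} (hA : A ≠ 0) (hB : B ≠ 0) (hC : Cc ≠ 0) (hAB : IsCoprime A B)
    (hs : A + B + Cc = 0) (hy : y ≠ 0) (hd : ∃ m, A * B * Cc ∣ y ^ m)
    (hpos : 0 < A.natDegree ∨ 0 < B.natDegree) :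
    A.natDegree + 1 ≤ y.natDegree ∧ B.natDegree + 1 ≤ y.natDegree := by
  classical
  have h1 : UniqueFactorizationMonoid.radical (A * B * Cc) ∣ y :=
    (UniqueFactorizationMonoid.exists_dvd_pow_iff_radical_dvd
      (mul_ne_zero (mul_ne_zero hA hB) hC)).1 hd
  have h2 := natDegree_le_of_dvd h1 hy
  rcases Polynomial.abc hA hB hC hAB hs with h | h
  · exact ⟨h.1.trans h2, h.2.1.trans h2⟩
  · exfalso
    have e1 := Polynomial.derivative_eq_zero.1 h.1
    have e2 := Polynomial.derivative_eq_zero.1 h.2.1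
    omega

variable {a b c e : ℂ[X]} {α β : ℂ}

theorem unit_of_const {p : ℂ[X]} (hp : p ≠ 0) (h : p.natDegree = 0) : IsUnit p := by
  rw [Polynomial.isUnit_iff_degree_eq_zero, Polynomial.degree_eq_natDegree hp, h]; rfl

/-- basic facts for a coprime pair that is not constant -/
theorem facts (hab : IsCoprime a b) (hb : b ≠ 0) (hα : α ≠ 0)
    (hk : 1 ≤ max a.natDegree b.natDegree) :
    a ≠ 0 ∧ a + C α * b ≠ 0 ∧ IsCoprime (a + C α * b) b ∧ IsCoprime a (a + C α * b) := by
  refine ⟨?_, ?_, ?_, ?_⟩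
  · rintro rfl
    rw [isCoprime_zero_left] at hab
    have := natDegree_eq_zero_of_isUnit hab
    simp [this] at hk
  · intro h
    have h1 : b ∣ a := by
      rw [eq_neg_of_add_eq_zero_left h]
      exact (dvd_mul_left b _).neg_right
    have h2 : IsUnit b := hab.isUnit_of_dvd' h1 dvd_rfl
    have h3 := natDegree_eq_zero_of_isUnit h2
    have h4 : a.natDegree = 0 := by
      rw [eq_neg_of_add_eq_zero_left h, natDegree_neg, natDegree_C_mul hα, h3]
    simp [h3, h4] at hk
  · exact hab.add_mul_right_left (C α)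
  · have hu : IsUnit (C α : ℂ[X]) := isUnit_C.2 (isUnit_iff_ne_zero.2 hα)
    have h1 : IsCoprime a (C α * b) := (isCoprime_mul_unit_left_right hu a b).2 hab
    have := h1.add_mul_left_right 1
    simpa [add_comm] using this

theorem deg_big (hab : IsCoprime a b) (hb : b ≠ 0) (hα : α ≠ 0)
    (hk : 1 ≤ max a.natDegree b.natDegree) (n : ℕ) (hn : 1 ≤ n) :
    n * max a.natDegree b.natDegree ≤
      max ((a ^ (n - 1) * (a + C α * b)).natDegree) ((b ^ n).natDegree) := by
  obtain ⟨h1, h2, -, -⟩ := facts hab hb hα hk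
  rw [natDegree_mul (pow_ne_zero _ h1) h2, natDegree_pow, natDegree_pow]
  by_cases h : a.natDegree ≤ b.natDegree
  · rw [max_eq_right h]; exact le_max_right _ _
  · push Not at h
    rw [max_eq_left h.le]
    have h3 : (a + C α * b).natDegree = a.natDegree :=
      natDegree_add_eq_left_of_natDegree_lt (by rwa [natDegree_C_mul hα])
    rw [h3]
    refine le_trans (le_of_eq ?_) (le_max_left _ _)
    obtain ⟨m, rfl⟩ : ∃ m, n = m + 1 := ⟨n - 1, by omega⟩
    simp [add_mul]

theorem deg_lin_le (hα : α ≠ 0) : (a + C α * b).natDegree ≤ max a.natDegree b.natDegree := by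
  refine (natDegree_add_le _ _).trans ?_
  rw [natDegree_C_mul hα]

/-- step A : `d' = 0` -/
theorem stepA (hab : IsCoprime a b) (hb : b ≠ 0) (he : e ≠ 0) (hα : α ≠ 0)
    (hk : 1 ≤ max a.natDegree b.natDegree) (n : ℕ) (hn : 2 * max a.natDegree b.natDegree + 3 ≤ n)
    (s t : ℂ) (ht : t ≠ 0)
    (h : e ^ n = C s * b ^ n + C t * (a ^ (n - 1) * (a + C α * b))) : False := by
  obtain ⟨ha, hab', hc1, hc2⟩ := facts hab hb hα hk
  set k := max a.natDegree b.natDegree with hkdef
  have hlin : (a + C α * b).natDegree ≤ k := deg_lin_le hα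
  have hak : a.natDegree ≤ k := le_max_left _ _
  have hbk : b.natDegree ≤ k := le_max_right _ _
  have hbig := deg_big hab hb hα hk n (by omega)
  rw [← hkdef] at hbig
  have hSne : a ^ (n - 1) * (a + C α * b) ≠ 0 := mul_ne_zero (pow_ne_zero _ ha) hab'
  -- degree of e
  have hSdeg : (a ^ (n - 1) * (a + C α * b)).natDegree ≤ n * k := by
    rw [natDegree_mul (pow_ne_zero _ ha) hab', natDegree_pow]
    have : (n - 1) * a.natDegree ≤ (n - 1) * k := Nat.mul_le_mul_left _ hak
    have e1 : (n - 1) * k + k = n * k := by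
      obtain ⟨m, rfl⟩ : ∃ m, n = m + 1 := ⟨n - 1, by omega⟩
      simp [add_mul]
    omega
  have hedeg : e.natDegree ≤ k := by
    have h1 : (e ^ n).natDegree ≤ n * k := by
      rw [h]
      refine (natDegree_add_le _ _).trans (max_le ?_ ?_)
      · refine (natDegree_C_mul_le _ _).trans ?_
        rw [natDegree_pow]
        exact Nat.mul_le_mul_left _ hbk
      · exact (natDegree_C_mul_le _ _).trans hSdeg
    rw [natDegree_pow] at h1
    exact Nat.le_of_mul_le_mul_left h1 (by omega)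
  by_cases hs : s = 0
  · rw [hs, C_0, zero_mul, zero_add] at h
    have hu : IsUnit (C t : ℂ[X]) := isUnit_C.2 (isUnit_iff_ne_zero.2 ht)
    have h3 : (C t * a ^ (n - 1)) * (a + C α * b) = e ^ n := by rw [h]; ring
    have hcop : IsCoprime (C t * a ^ (n - 1)) (a + C α * b) :=
      (isCoprime_mul_unit_left_left hu _ _).2 hc2.pow_left
    obtain ⟨x, hx⟩ := exists_associated_pow_of_mul_eq_pow' hcop h3
    have h3' : (a + C α * b) * (C t * a ^ (n - 1)) = e ^ n := by rw [h]; ring
    obtain ⟨y, hy⟩ := exists_associated_pow_of_mul_eq_pow' hcop.symm h3'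
    have hx1 : n * x.natDegree = (n - 1) * a.natDegree := by
      have := natDegree_eq_of_degree_eq (degree_eq_degree_of_associated hx)
      rw [natDegree_pow, natDegree_C_mul ht, natDegree_pow] at this
      exact this
    have hy1 : n * y.natDegree = (a + C α * b).natDegree := by
      have := natDegree_eq_of_degree_eq (degree_eq_degree_of_associated hy)
      rw [natDegree_pow] at this
      exact this
    have hy2 : y.natDegree = 0 := by
      by_contra hne
      have : n * 1 ≤ n * y.natDegree := Nat.mul_le_mul_left _ (Nat.pos_of_ne_zero hne)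
      omega
    rw [hy2, mul_zero] at hy1
    have hx2 : a.natDegree = 0 := by
      have h5 : n ∣ (n - 1) * a.natDegree := ⟨_, hx1.symm⟩
      have h6 : Nat.Coprime n (n - 1) := by
        have : n = (n - 1) + 1 := by omega
        rw [this]; simp
      have h7 : n ∣ a.natDegree := h6.dvd_of_dvd_mul_left h5
      by_contra hne
      have := Nat.le_of_dvd (Nat.pos_of_ne_zero hne) h7
      omega
    -- b constant
    have h8 : b.natDegree = 0 := by
      have h9 : C α * b = (a + C α * b) - a := by ring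
      have h10 : (C α * b).natDegree ≤ max (a + C α * b).natDegree a.natDegree := by
        conv_lhs => rw [h9]
        exact natDegree_sub_le _ _
      rw [natDegree_C_mul hα, ← hy1, hx2] at h10
      simpa using h10
    omega
  · have hA : C s * b ^ n ≠ 0 := mul_ne_zero (C_ne_zero.2 hs) (pow_ne_zero _ hb)
    have hB : C t * (a ^ (n - 1) * (a + C α * b)) ≠ 0 := mul_ne_zero (C_ne_zero.2 ht) hSne
    have hC : -(e ^ n) ≠ 0 := neg_ne_zero.2 (pow_ne_zero _ he)
    have hus : IsUnit (C s : ℂ[X]) := isUnit_C.2 (isUnit_iff_ne_zero.2 hs)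
    have hut : IsUnit (C t : ℂ[X]) := isUnit_C.2 (isUnit_iff_ne_zero.2 ht)
    have hcop : IsCoprime (C s * b ^ n) (C t * (a ^ (n - 1) * (a + C α * b))) := by
      rw [isCoprime_mul_unit_left_left hus, isCoprime_mul_unit_left_right hut]
      exact IsCoprime.mul_right (hab.symm.pow) (hc1.symm.pow_left)
    have hy : b * a * (a + C α * b) * e ≠ 0 :=
      mul_ne_zero (mul_ne_zero (mul_ne_zero hb ha) hab') he
    have hd : ∃ m, (C s * b ^ n) * (C t * (a ^ (n - 1) * (a + C α * b))) * (-(e ^ n)) ∣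
        (b * a * (a + C α * b) * e) ^ m := by
      refine ⟨n, ?_⟩
      obtain ⟨m, rfl⟩ : ∃ m, n = m + 1 := ⟨n - 1, by omega⟩
      have h20 : (b * a * (a + C α * b) * e) ^ (m + 1) =
          (b ^ (m + 1) * (a ^ m * (a + C α * b)) * e ^ (m + 1)) * (a * (a + C α * b) ^ m) := by
        generalize a + C α * b = q
        simp only [mul_pow]; ring
      rw [h20]
      refine Dvd.dvd.mul_right ?_ _
      have h21 : (C s * b ^ (m + 1)) * (C t * (a ^ (m + 1 - 1) * (a + C α * b))) * (-(e ^ (m + 1)))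
          = (C (-(s * t))) * (b ^ (m + 1) * (a ^ m * (a + C α * b)) * e ^ (m + 1)) := by
        simp only [Nat.add_sub_cancel, C_neg, C_mul]; ring
      rw [h21]
      have hu2 : IsUnit (C (-(s * t)) : ℂ[X]) :=
        isUnit_C.2 (isUnit_iff_ne_zero.2 (neg_ne_zero.2 (mul_ne_zero hs ht)))
      exact (hu2.mul_left_dvd).2 dvd_rfl
    have hsum : C s * b ^ n + C t * (a ^ (n - 1) * (a + C α * b)) + -(e ^ n) = 0 := by
      rw [h]; ring
    have hdy : (b * a * (a + C α * b) * e).natDegree ≤ 4 * k := by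
      refine natDegree_mul_le.trans ?_
      have h1 : (b * a * (a + C α * b)).natDegree ≤ 3 * k := by
        refine natDegree_mul_le.trans ?_
        have h2 : (b * a).natDegree ≤ 2 * k := natDegree_mul_le.trans (by omega)
        omega
      omega
    have hdA : (C s * b ^ n).natDegree = (b ^ n).natDegree := natDegree_C_mul hs
    have hdB : (C t * (a ^ (n - 1) * (a + C α * b))).natDegree =
      (a ^ (n - 1) * (a + C α * b)).natDegree := natDegree_C_mul ht
    have hnk : 5 * k ≤ n * k := Nat.mul_le_mul_right _ (by omega)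
    have hpos : 0 < (C s * b ^ n).natDegree ∨
        0 < (C t * (a ^ (n - 1) * (a + C α * b))).natDegree := by
      rw [hdA, hdB]
      rcases le_max_iff.1 hbig with h | h
      · right; omega
      · left; omega
    have := ms hA hB hC hcop hsum hy hd hpos
    rw [hdA, hdB] at this
    rcases le_max_iff.1 hbig with h | h <;> omega

/-- step B -/
theorem stepB (hab : IsCoprime a b) (hb : b ≠ 0) (hα : α ≠ 0)
    (hk : 1 ≤ max a.natDegree b.natDegree) (n : ℕ) (hn : 2 * max a.natDegree b.natDegree + 3 ≤ n)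
    (l s : ℂ) (hl : l ≠ 0) (hcb : IsCoprime c b)
    (h : c ^ (n - 1) * (c + C α * b) = C l * (a ^ (n - 1) * (a + C α * b)) + C s * b ^ n) :
    s = 0 := by
  by_contra hs
  obtain ⟨ha, hab', hc1, hc2⟩ := facts hab hb hα hk
  set k := max a.natDegree b.natDegree with hkdef
  have hlin : (a + C α * b).natDegree ≤ k := deg_lin_le hα
  have hak : a.natDegree ≤ k := le_max_left _ _
  have hbk : b.natDegree ≤ k := le_max_right _ _
  have hbig := deg_big hab hb hα hk n (by omega)
  rw [← hkdef] at hbig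
  have hSne : a ^ (n - 1) * (a + C α * b) ≠ 0 := mul_ne_zero (pow_ne_zero _ ha) hab'
  have e1 : (n - 1) * k + k = n * k := by
    obtain ⟨m, rfl⟩ : ∃ m, n = m + 1 := ⟨n - 1, by omega⟩
    simp [add_mul]
  have hSdeg : (a ^ (n - 1) * (a + C α * b)).natDegree ≤ n * k := by
    rw [natDegree_mul (pow_ne_zero _ ha) hab', natDegree_pow]
    have : (n - 1) * a.natDegree ≤ (n - 1) * k := Nat.mul_le_mul_left _ hak
    omega
  have hA : C s * b ^ n ≠ 0 := mul_ne_zero (C_ne_zero.2 hs) (pow_ne_zero _ hb)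
  have hB : C l * (a ^ (n - 1) * (a + C α * b)) ≠ 0 := mul_ne_zero (C_ne_zero.2 hl) hSne
  have hus : IsUnit (C s : ℂ[X]) := isUnit_C.2 (isUnit_iff_ne_zero.2 hs)
  have hul : IsUnit (C l : ℂ[X]) := isUnit_C.2 (isUnit_iff_ne_zero.2 hl)
  have hcop : IsCoprime (C s * b ^ n) (C l * (a ^ (n - 1) * (a + C α * b))) := by
    rw [isCoprime_mul_unit_left_left hus, isCoprime_mul_unit_left_right hul]
    exact IsCoprime.mul_right (hab.symm.pow) (hc1.symm.pow_left)
  have hdA : (C s * b ^ n).natDegree = (b ^ n).natDegree := natDegree_C_mul hs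
  have hdB : (C l * (a ^ (n - 1) * (a + C α * b))).natDegree =
    (a ^ (n - 1) * (a + C α * b)).natDegree := natDegree_C_mul hl
  have hnk : 5 * k ≤ n * k := Nat.mul_le_mul_right _ (by omega)
  have hpos : 0 < (C s * b ^ n).natDegree ∨
      0 < (C l * (a ^ (n - 1) * (a + C α * b))).natDegree := by
    rw [hdA, hdB]
    rcases le_max_iff.1 hbig with h | h
    · right; omega
    · left; omega
  have hTne : c ^ (n - 1) * (c + C α * b) ≠ 0 := by
    intro h0
    rw [h0] at h
    have h1 : C s * b ^ n = -(C l * (a ^ (n - 1) * (a + C α * b))) := by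
      linear_combination -h
    have h2 : IsUnit (C s * b ^ n) := by
      apply hcop.isUnit_of_dvd' dvd_rfl
      rw [h1]; exact (dvd_neg).1 (by simp)
    have h3 : IsUnit (C l * (a ^ (n - 1) * (a + C α * b))) := by
      rw [h1] at h2; exact (IsUnit.neg_iff _).1 h2
    have h4 := natDegree_eq_zero_of_isUnit h2
    have h5 := natDegree_eq_zero_of_isUnit h3
    omega
  have hcne : c ≠ 0 := by
    rintro rfl
    apply hTne
    rw [zero_pow (by omega), zero_mul]
  have hc'ne : c + C α * b ≠ 0 := right_ne_zero_of_mul hTne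
  have hTdeg : (c ^ (n - 1) * (c + C α * b)).natDegree ≤ n * k := by
    rw [h]
    refine (natDegree_add_le _ _).trans (max_le ?_ ?_)
    · exact (natDegree_C_mul_le _ _).trans hSdeg
    · refine (natDegree_C_mul_le _ _).trans ?_
      rw [natDegree_pow]
      exact Nat.mul_le_mul_left _ hbk
  have hck : c.natDegree ≤ k := by
    by_contra hlt
    push Not at hlt
    have h3 : (c + C α * b).natDegree = c.natDegree :=
      natDegree_add_eq_left_of_natDegree_lt (by rw [natDegree_C_mul hα]; omega)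
    rw [natDegree_mul (pow_ne_zero _ hcne) hc'ne, natDegree_pow, h3] at hTdeg
    have : (n - 1) * k ≤ (n - 1) * c.natDegree := Nat.mul_le_mul_left _ hlt.le
    omega
  have hlin' : (c + C α * b).natDegree ≤ k := by
    refine (deg_lin_le hα).trans (max_le hck hbk)
  have hC : -(c ^ (n - 1) * (c + C α * b)) ≠ 0 := neg_ne_zero.2 hTne
  have hy : b * a * (a + C α * b) * c * (c + C α * b) ≠ 0 :=
    mul_ne_zero (mul_ne_zero (mul_ne_zero (mul_ne_zero hb ha) hab') hcne) hc'ne
  have hd : ∃ m, (C s * b ^ n) * (C l * (a ^ (n - 1) * (a + C α * b))) *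
      (-(c ^ (n - 1) * (c + C α * b))) ∣
      (b * a * (a + C α * b) * c * (c + C α * b)) ^ m := by
    refine ⟨n, ?_⟩
    obtain ⟨m, rfl⟩ : ∃ m, n = m + 1 := ⟨n - 1, by omega⟩
    have h20 : (b * a * (a + C α * b) * c * (c + C α * b)) ^ (m + 1) =
        (b ^ (m + 1) * (a ^ m * (a + C α * b)) * (c ^ m * (c + C α * b))) *
          (a * (a + C α * b) ^ m * c * (c + C α * b) ^ m) := by
      generalize a + C α * b = q
      generalize c + C α * b = r
      simp only [mul_pow]; ring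
    rw [h20]
    refine Dvd.dvd.mul_right ?_ _
    have h21 : (C s * b ^ (m + 1)) * (C l * (a ^ (m + 1 - 1) * (a + C α * b))) *
        (-(c ^ (m + 1 - 1) * (c + C α * b)))
        = (C (-(s * l))) * (b ^ (m + 1) * (a ^ m * (a + C α * b)) *
          (c ^ m * (c + C α * b))) := by
      simp only [Nat.add_sub_cancel, C_neg, C_mul]; ring
    rw [h21]
    have hu2 : IsUnit (C (-(s * l)) : ℂ[X]) :=
      isUnit_C.2 (isUnit_iff_ne_zero.2 (neg_ne_zero.2 (mul_ne_zero hs hl)))
    exact (hu2.mul_left_dvd).2 dvd_rfl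
  have hsum : C s * b ^ n + C l * (a ^ (n - 1) * (a + C α * b)) +
      -(c ^ (n - 1) * (c + C α * b)) = 0 := by
    rw [h]; ring
  have hdy : (b * a * (a + C α * b) * c * (c + C α * b)).natDegree ≤ 5 * k := by
    refine natDegree_mul_le.trans ?_
    have h0 : (b * a * (a + C α * b) * c).natDegree ≤ 4 * k := by
      refine natDegree_mul_le.trans ?_
      have h1 : (b * a * (a + C α * b)).natDegree ≤ 3 * k := by
        refine natDegree_mul_le.trans ?_
        have h2 : (b * a).natDegree ≤ 2 * k := natDegree_mul_le.trans (by omega)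
        omega
      omega
    omega
  have := ms hA hB hC hcop hsum hy hd hpos
  rw [hdA, hdB] at this
  rcases le_max_iff.1 hbig with h | h <;> omega

theorem gcd_split {a c : ℂ[X]} (ha : a ≠ 0) (hc : c ≠ 0) : ∃ g a' c' : ℂ[X], g ≠ 0 ∧
    IsCoprime a' c' ∧ a = g * a' ∧ c = g * c' := by
  classical
  have hg : EuclideanDomain.gcd a c ≠ 0 := by
    intro h0
    exact ha (EuclideanDomain.gcd_eq_zero_iff.1 h0).1
  obtain ⟨a', ha'⟩ := EuclideanDomain.gcd_dvd_left a c
  obtain ⟨c', hc'⟩ := EuclideanDomain.gcd_dvd_right a c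
  refine ⟨EuclideanDomain.gcd a c, a', c', hg, ?_, ha', hc'⟩
  have h1 := EuclideanDomain.gcd_eq_gcd_ab a c
  refine ⟨EuclideanDomain.gcdA a c, EuclideanDomain.gcdB a c, ?_⟩
  apply mul_left_cancel₀ hg
  calc EuclideanDomain.gcd a c * (EuclideanDomain.gcdA a c * a' + EuclideanDomain.gcdB a c * c')
      = (EuclideanDomain.gcd a c * a') * EuclideanDomain.gcdA a c +
        (EuclideanDomain.gcd a c * c') * EuclideanDomain.gcdB a c := by ring
    _ = a * EuclideanDomain.gcdA a c + c * EuclideanDomain.gcdB a c := by rw [← ha', ← hc']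
    _ = EuclideanDomain.gcd a c * 1 := by rw [← h1, mul_one]

/-- step C -/
theorem stepC (hab : IsCoprime a b) (hb : b ≠ 0) (hα : α ≠ 0)
    (hk : 1 ≤ max a.natDegree b.natDegree) (n : ℕ) (hn : 2 * max a.natDegree b.natDegree + 3 ≤ n)
    (h : c ^ (n - 1) * (c + C α * b) = a ^ (n - 1) * (a + C α * b)) : c = a := by
  classical
  obtain ⟨ha, hab', hc1, hc2⟩ := facts hab hb hα hk
  set k := max a.natDegree b.natDegree with hkdef
  have hlin : (a + C α * b).natDegree ≤ k := deg_lin_le hα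
  have hak : a.natDegree ≤ k := le_max_left _ _
  have hbk : b.natDegree ≤ k := le_max_right _ _
  have hSne : a ^ (n - 1) * (a + C α * b) ≠ 0 := mul_ne_zero (pow_ne_zero _ ha) hab'
  have hTne : c ^ (n - 1) * (c + C α * b) ≠ 0 := by rw [h]; exact hSne
  have hcne : c ≠ 0 := by
    rintro rfl
    apply hTne
    rw [zero_pow (by omega), zero_mul]
  have hc'ne : c + C α * b ≠ 0 := right_ne_zero_of_mul hTne
  have e1 : (n - 1) * k + k = n * k := by
    obtain ⟨m, rfl⟩ : ∃ m, n = m + 1 := ⟨n - 1, by omega⟩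
    simp [add_mul]
  have hck : c.natDegree ≤ k := by
    by_contra hlt
    push Not at hlt
    have h3 : (c + C α * b).natDegree = c.natDegree :=
      natDegree_add_eq_left_of_natDegree_lt (by rw [natDegree_C_mul hα]; omega)
    have h4 := congrArg natDegree h
    rw [natDegree_mul (pow_ne_zero _ hcne) hc'ne, natDegree_pow, h3,
      natDegree_mul (pow_ne_zero _ ha) hab', natDegree_pow] at h4
    have h5 : (n - 1) * k ≤ (n - 1) * c.natDegree := Nat.mul_le_mul_left _ hlt.le
    have h6 : (n - 1) * a.natDegree ≤ (n - 1) * k := Nat.mul_le_mul_left _ hak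
    omega
  have hlin' : (c + C α * b).natDegree ≤ k := by
    refine (deg_lin_le hα).trans (max_le hck hbk)
  obtain ⟨g, a', c', hg0, hcop, hag, hcg⟩ := gcd_split ha hcne
  have ha'0 : a' ≠ 0 := by rintro rfl; simp at hag; exact ha hag
  have hc'0 : c' ≠ 0 := by rintro rfl; simp at hcg; exact hcne hcg
  have h1 : c' ^ (n - 1) * (c + C α * b) = a' ^ (n - 1) * (a + C α * b) := by
    have h2 : g ^ (n - 1) * (c' ^ (n - 1) * (c + C α * b)) =
        g ^ (n - 1) * (a' ^ (n - 1) * (a + C α * b)) := by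
      calc g ^ (n - 1) * (c' ^ (n - 1) * (c + C α * b)) = (g * c') ^ (n - 1) * (c + C α * b) := by
            rw [mul_pow]; ring
        _ = c ^ (n - 1) * (c + C α * b) := by rw [← hcg]
        _ = a ^ (n - 1) * (a + C α * b) := h
        _ = (g * a') ^ (n - 1) * (a + C α * b) := by rw [← hag]
        _ = _ := by rw [mul_pow]; ring
    exact mul_left_cancel₀ (pow_ne_zero _ hg0) h2
  have hda : a' ^ (n - 1) ∣ c + C α * b := by
    have : a' ^ (n - 1) ∣ c' ^ (n - 1) * (c + C α * b) := ⟨_, h1⟩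
    exact (hcop.pow).dvd_of_dvd_mul_left this
  have hdc : c' ^ (n - 1) ∣ a + C α * b := by
    have : c' ^ (n - 1) ∣ a' ^ (n - 1) * (a + C α * b) := ⟨_, h1.symm⟩
    exact (hcop.symm.pow).dvd_of_dvd_mul_left this
  have ha'd : a'.natDegree = 0 := by
    have h2 := natDegree_le_of_dvd hda hc'ne
    rw [natDegree_pow] at h2
    by_contra hne
    have : (n - 1) * 1 ≤ (n - 1) * a'.natDegree :=
      Nat.mul_le_mul_left _ (Nat.pos_of_ne_zero hne)
    omega
  have hc'd : c'.natDegree = 0 := by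
    have h2 := natDegree_le_of_dvd hdc hab'
    rw [natDegree_pow] at h2
    by_contra hne
    have : (n - 1) * 1 ≤ (n - 1) * c'.natDegree :=
      Nat.mul_le_mul_left _ (Nat.pos_of_ne_zero hne)
    omega
  obtain ⟨A, hA⟩ := natDegree_eq_zero.1 ha'd
  obtain ⟨B, hB⟩ := natDegree_eq_zero.1 hc'd
  have hA0 : A ≠ 0 := by rintro rfl; simp at hA; exact ha'0 hA.symm
  have hB0 : B ≠ 0 := by rintro rfl; simp at hB; exact hc'0 hB.symm
  -- c = κ a
  obtain ⟨κ, hκ⟩ : ∃ κ : ℂ, c = C κ * a := by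
    refine ⟨B / A, ?_⟩
    rw [hcg, hag, ← hA, ← hB]
    have : (C (B / A) : ℂ[X]) * C A = C B := by rw [← C_mul, div_mul_cancel₀ _ hA0]
    rw [← this]; ring
  -- not proportional
  have hnp : ∀ x y : ℂ, C x * a = C y * b → x = 0 ∧ y = 0 := by
    intro x y hxy
    by_cases hx : x = 0
    · subst hx
      simp only [C_0, zero_mul] at hxy
      refine ⟨rfl, ?_⟩
      by_contra hy
      exact (mul_ne_zero (C_ne_zero.2 hy) hb) hxy.symm
    · exfalso
      have hux : IsUnit (C x : ℂ[X]) := isUnit_C.2 (isUnit_iff_ne_zero.2 hx)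
      have h2 : b ∣ a := (hux.dvd_mul_left).1 ⟨C y, by rw [hxy]; ring⟩
      have h3 : IsUnit b := hab.isUnit_of_dvd' h2 dvd_rfl
      have h4 := natDegree_eq_zero_of_isUnit h3
      have h5 : (C x * a).natDegree ≤ b.natDegree := by
        rw [hxy]; exact natDegree_C_mul_le _ _
      rw [natDegree_C_mul hx] at h5
      omega
  have h3 : C (κ ^ (n - 1)) * (C κ * a + C α * b) = a + C α * b := by
    have h2 : a ^ (n - 1) * (C (κ ^ (n - 1)) * (C κ * a + C α * b)) =
        a ^ (n - 1) * (a + C α * b) := by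
      rw [← h, hκ, mul_pow, ← C_pow]; ring
    exact mul_left_cancel₀ (pow_ne_zero _ ha) h2
  have h4 : C (κ ^ (n - 1) * κ - 1) * a = C (α - κ ^ (n - 1) * α) * b := by
    simp only [C_sub, C_mul, C_1]
    linear_combination h3
  obtain ⟨h5, h6⟩ := hnp _ _ h4
  have h7 : κ ^ (n - 1) = 1 := by
    have : α * (1 - κ ^ (n - 1)) = 0 := by linear_combination h6
    rcases mul_eq_zero.1 this with h | h
    · exact absurd h hα
    · linear_combination -h
  have h8 : κ = 1 := by
    rw [h7, one_mul] at h5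
    linear_combination h5
  rw [hκ, h8, C_1, one_mul]


/-- polynomial form -/
theorem poly_rigid (hab : IsCoprime a b) (hb : b ≠ 0) (hce : IsCoprime c e) (he : e ≠ 0)
    (hα : α ≠ 0) (hβ : β ≠ 0)
    (hk : 1 ≤ max a.natDegree b.natDegree) (n : ℕ) (hn : 2 * max a.natDegree b.natDegree + 3 ≤ n)
    (l c' d' : ℂ) (hl : l ≠ 0) (hc' : c' ≠ 0)
    (h1 : c ^ (n - 1) * (c + C α * e) + C β * e ^ n =
      C l * (a ^ (n - 1) * (a + C α * b) + C β * b ^ n))
    (h2 : e ^ n = C l * (C c' * b ^ n + C d' * (a ^ (n - 1) * (a + C α * b) + C β * b ^ n))) :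
    ∃ ρ : ℂ, ρ ≠ 0 ∧ c = C ρ * a ∧ e = C ρ * b := by
  have hd' : d' = 0 := by
    by_contra hd'
    refine stepA hab hb he hα hk n hn (l * (c' + d' * β)) (l * d') (mul_ne_zero hl hd') ?_
    rw [h2]
    simp only [C_mul, C_add]; ring
  rw [hd', C_0, zero_mul, add_zero] at h2
  -- e = ρ b
  have hul : IsUnit (C l * C c' : ℂ[X]) := by
    rw [← C_mul]; exact isUnit_C.2 (isUnit_iff_ne_zero.2 (mul_ne_zero hl hc'))
  have hn0 : n ≠ 0 := by omega
  have hass : Associated e b := by
    have h3 : Associated (e ^ n) (b ^ n) := by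
      have : e ^ n = b ^ n * (C l * C c') := by rw [h2]; ring
      rw [this]
      exact (associated_mul_unit_right _ _ hul).symm
    exact (Associated.pow_iff hn0).1 h3
  obtain ⟨ρ, hρ0, hρ⟩ : ∃ ρ : ℂ, ρ ≠ 0 ∧ e = C ρ * b := by
    obtain ⟨u, hu⟩ := hass.symm
    obtain ⟨r, hr, hru⟩ := Polynomial.isUnit_iff.1 u.isUnit
    refine ⟨r, hr.ne_zero, ?_⟩
    rw [← hu, ← hru]; ring
  have hρn : ρ ^ n = l * c' := by
    rw [hρ, mul_pow, ← C_pow] at h2
    have h3 : C (ρ ^ n) * b ^ n = C (l * c') * b ^ n := by rw [h2, C_mul]; ring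
    exact C_injective (mul_right_cancel₀ (pow_ne_zero _ hb) h3)
  -- c = ρ c₁
  obtain ⟨c₁, hc₁⟩ : ∃ c₁ : ℂ[X], c = C ρ * c₁ := by
    refine ⟨C ρ⁻¹ * c, ?_⟩
    rw [← mul_assoc, ← C_mul, mul_inv_cancel₀ hρ0, C_1, one_mul]
  have hρn' : ρ ^ (n - 1) * ρ = ρ ^ n := by
    rw [← pow_succ]; congr 1; omega
  have h3 : C (ρ ^ n) * (c₁ ^ (n - 1) * (c₁ + C α * b)) =
      C l * (a ^ (n - 1) * (a + C α * b)) + C (l * β - β * ρ ^ n) * b ^ n := by
    have h4 : c ^ (n - 1) * (c + C α * e) = C (ρ ^ n) * (c₁ ^ (n - 1) * (c₁ + C α * b)) := by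
      rw [hc₁, hρ, ← hρn', mul_pow]
      simp only [C_mul, C_pow]; ring
    have h5 : e ^ n = C (ρ ^ n) * b ^ n := by rw [hρ, mul_pow, C_pow]
    rw [h4, h5] at h1
    simp only [C_sub, C_mul]
    linear_combination h1
  have hρn0 : ρ ^ n ≠ 0 := pow_ne_zero _ hρ0
  have h4 : c₁ ^ (n - 1) * (c₁ + C α * b) =
      C ((ρ ^ n)⁻¹ * l) * (a ^ (n - 1) * (a + C α * b)) +
        C ((ρ ^ n)⁻¹ * (l * β - β * ρ ^ n)) * b ^ n := by
    have h5 : (C (ρ ^ n) : ℂ[X]) ≠ 0 := C_ne_zero.2 hρn0
    apply mul_left_cancel₀ h5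
    rw [h3]
    have h6 : ∀ x : ℂ, (C (ρ ^ n) : ℂ[X]) * C ((ρ ^ n)⁻¹ * x) = C x := fun x => by
      rw [← C_mul, mul_inv_cancel_left₀ hρn0]
    have h7 := h6 l
    have h8 := h6 (l * β - β * ρ ^ n)
    linear_combination -(a ^ (n - 1) * (a + C α * b)) * h7 - b ^ n * h8
  have hcb : IsCoprime c₁ b := by
    have hu : IsUnit (C ρ : ℂ[X]) := isUnit_C.2 (isUnit_iff_ne_zero.2 hρ0)
    rw [hc₁, hρ] at hce
    rwa [isCoprime_mul_unit_left_left hu, isCoprime_mul_unit_left_right hu] at hce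
  have h5 := stepB hab hb hα hk n hn _ _ (mul_ne_zero (inv_ne_zero hρn0) hl) hcb h4
  have h6 : ρ ^ n = l := by
    have h7 : l * β - β * ρ ^ n = 0 := (mul_eq_zero.1 h5).resolve_left (inv_ne_zero hρn0)
    have h8 : β * (l - ρ ^ n) = 0 := by linear_combination h7
    have h9 := (mul_eq_zero.1 h8).resolve_left hβ
    linear_combination -h9
  rw [h5, C_0, zero_mul, add_zero, ← h6, inv_mul_cancel₀ hρn0, C_1, one_mul] at h4
  have h7 := stepC hab hb hα hk n hn h4
  exact ⟨ρ, hρ0, by rw [hc₁, h7], hρ⟩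

end PsiRigid

open PsiRigid

/-- rational function form -/
theorem rat_rigid (u v : RatFunc ℂ) (hk : 1 ≤ max u.num.natDegree u.denom.natDegree) (n : ℕ)
    (hn : 2 * max u.num.natDegree u.denom.natDegree + 3 ≤ n) (α β : ℂ) (hα : α ≠ 0) (hβ : β ≠ 0)
    (c' d' : ℂ) (hc' : c' ≠ 0)
    (h : (v ^ n + algebraMap ℂ (RatFunc ℂ) α * v ^ (n - 1) + algebraMap ℂ (RatFunc ℂ) β)⁻¹ =
      algebraMap ℂ (RatFunc ℂ) c' *
        (u ^ n + algebraMap ℂ (RatFunc ℂ) α * u ^ (n - 1) + algebraMap ℂ (RatFunc ℂ) β)⁻¹ +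
      algebraMap ℂ (RatFunc ℂ) d') :
    v = u := by
  have hab := u.isCoprime_num_denom
  have hce := v.isCoprime_num_denom
  have hb := u.denom_ne_zero
  have he := v.denom_ne_zero
  obtain ⟨ha, hab', hc1, hc2⟩ := facts hab hb hα hk
  have hu := u.num_div_denom
  have hv := v.num_div_denom
  set a := u.num with hadef
  set b := u.denom with hbdef
  set c := v.num with hcdef
  set e := v.denom with hedef
  let φ := algebraMap ℂ[X] (RatFunc ℂ)
  have hφ : Function.Injective φ := IsFractionRing.injective ℂ[X] (RatFunc ℂ)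
  have hφb : φ b ≠ 0 := (map_ne_zero_iff φ hφ).2 hb
  have hφe : φ e ≠ 0 := (map_ne_zero_iff φ hφ).2 he
  have hC : ∀ x : ℂ, algebraMap ℂ (RatFunc ℂ) x = φ (C x) := fun x => by
    rw [IsScalarTower.algebraMap_apply ℂ ℂ[X] (RatFunc ℂ)]; rfl
  have key : ∀ (p q : ℂ[X]), φ q ≠ 0 → ∀ w : RatFunc ℂ, φ p / φ q = w →
      w ^ n + algebraMap ℂ (RatFunc ℂ) α * w ^ (n - 1) + algebraMap ℂ (RatFunc ℂ) β =
      φ (p ^ (n - 1) * (p + C α * q) + C β * q ^ n) / φ q ^ n := by
    intro p q hq w hw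
    rw [← hw, hC, hC]
    simp only [map_add, map_mul, map_pow]
    obtain ⟨m, rfl⟩ : ∃ m, n = m + 1 := ⟨n - 1, by omega⟩
    simp only [Nat.add_sub_cancel, div_pow]
    field_simp
    ring
  rw [key c e hφe v hv, key a b hφb u hu, hC, hC, inv_div, inv_div] at h
  have hU : a ^ (n - 1) * (a + C α * b) + C β * b ^ n ≠ 0 := by
    intro h0
    have h1 : b ∣ a ^ (n - 1) * (a + C α * b) := by
      have : a ^ (n - 1) * (a + C α * b) = -(C β * b ^ n) := by linear_combination h0
      rw [this]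
      exact ((dvd_pow_self b (by omega)).mul_left _).neg_right
    have h2 : IsUnit b := by
      refine IsCoprime.isUnit_of_dvd' (IsCoprime.mul_right (hab.symm.pow_right (n := n - 1))
        hc1.symm) dvd_rfl h1
    have h3 : a ∣ C β * b ^ n := by
      have : C β * b ^ n = -(a ^ (n - 1) * (a + C α * b)) := by linear_combination h0
      rw [this]
      exact ((dvd_pow_self a (by omega)).mul_right _).neg_right
    have h4 : IsUnit (C β * b ^ n) :=
      (isUnit_C.2 (isUnit_iff_ne_zero.2 hβ)).mul (h2.pow n)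
    have h5 : IsUnit a := isUnit_of_dvd_unit h3 h4
    have := natDegree_eq_zero_of_isUnit h2
    have := natDegree_eq_zero_of_isUnit h5
    omega
  have hUb : IsCoprime (a ^ (n - 1) * (a + C α * b) + C β * b ^ n) (b ^ n) := by
    have h1 : IsCoprime (a ^ (n - 1) * (a + C α * b)) (b ^ n) :=
      IsCoprime.mul_left hab.pow (hc1.pow_right)
    simpa [mul_comm] using h1.add_mul_right_left (C β)
  have hφU : φ (a ^ (n - 1) * (a + C α * b) + C β * b ^ n) ≠ 0 := (map_ne_zero_iff φ hφ).2 hU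
  have hbig := deg_big hab hb hα hk n (by omega)
  have hVe : IsCoprime (c ^ (n - 1) * (c + C α * e) + C β * e ^ n) (e ^ n) := by
    have h0 : IsCoprime (c + C α * e) e := hce.add_mul_right_left (C α)
    have h1 : IsCoprime (c ^ (n - 1) * (c + C α * e)) (e ^ n) :=
      IsCoprime.mul_left hce.pow (h0.pow_right)
    simpa [mul_comm] using h1.add_mul_right_left (C β)
  obtain ⟨U, hUdef⟩ : ∃ U, U = a ^ (n - 1) * (a + C α * b) + C β * b ^ n := ⟨_, rfl⟩
  obtain ⟨V, hVdef⟩ : ∃ V, V = c ^ (n - 1) * (c + C α * e) + C β * e ^ n := ⟨_, rfl⟩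
  rw [← hUdef] at h hU hUb hφU
  rw [← hVdef] at h hVe
  have huc : IsUnit (C c' : ℂ[X]) := isUnit_C.2 (isUnit_iff_ne_zero.2 hc')
  have hV : V ≠ 0 := by
    intro h0
    rw [h0, map_zero, div_zero] at h
    have h1 : C c' * b ^ n + C d' * U = 0 := by
      apply hφ
      rw [map_add, map_mul, map_mul, map_pow, map_zero]
      calc φ (C c') * φ b ^ n + φ (C d') * φ U =
          (φ (C c') * (φ b ^ n / φ U) + φ (C d')) * φ U := by
            field_simp
        _ = 0 := by rw [← h, zero_mul]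
    have hd0 : d' ≠ 0 := by
      rintro rfl
      rw [C_0, zero_mul, add_zero] at h1
      exact (mul_ne_zero (C_ne_zero.2 hc') (pow_ne_zero n hb)) h1
    have hud : IsUnit (C d' : ℂ[X]) := isUnit_C.2 (isUnit_iff_ne_zero.2 hd0)
    have h2 : b ^ n ∣ U := by
      refine (hud.dvd_mul_left).1 ⟨-C c', ?_⟩
      linear_combination h1
    have h3 : U ∣ b ^ n := by
      refine (huc.dvd_mul_left).1 ⟨-C d', ?_⟩
      linear_combination h1
    have h4 : IsUnit (b ^ n) := hUb.isUnit_of_dvd' h2 dvd_rfl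
    have h5 : IsUnit U := hUb.isUnit_of_dvd' dvd_rfl h3
    have h6 := natDegree_eq_zero_of_isUnit h4
    have h7 := natDegree_eq_zero_of_isUnit h5
    have h8 : (a ^ (n - 1) * (a + C α * b)).natDegree = 0 := by
      have h9 : a ^ (n - 1) * (a + C α * b) = U - C β * b ^ n := by rw [hUdef]; ring
      have h10 : (U - C β * b ^ n).natDegree ≤ max U.natDegree (C β * b ^ n).natDegree :=
        natDegree_sub_le _ _
      rw [h9]
      rw [natDegree_C_mul hβ, h6, h7] at h10
      simpa using h10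
    rw [h6, h8] at hbig
    have : 1 * 1 ≤ n * max a.natDegree b.natDegree := Nat.mul_le_mul (by omega) hk
    simp at hbig
    omega
  have hφV : φ V ≠ 0 := (map_ne_zero_iff φ hφ).2 hV
  have hW : e ^ n * U = (C c' * b ^ n + C d' * U) * V := by
    apply hφ
    simp only [map_add, map_mul, map_pow]
    calc φ e ^ n * φ U = (φ e ^ n / φ V) * (φ U * φ V) := by field_simp
      _ = (φ (C c') * (φ b ^ n / φ U) + φ (C d')) * (φ U * φ V) := by rw [h]
      _ = _ := by field_simp
  have hWU : IsCoprime (C c' * b ^ n + C d' * U) U := by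
    have h1 : IsCoprime (C c' * b ^ n) U := (isCoprime_mul_unit_left_left huc _ _).2 hUb.symm
    exact h1.add_mul_right_left (C d')
  have hd1 : V ∣ U := by
    have : V ∣ e ^ n * U := ⟨C c' * b ^ n + C d' * U, by rw [hW]; ring⟩
    exact hVe.dvd_of_dvd_mul_left this
  have hd2 : U ∣ V := by
    have : U ∣ (C c' * b ^ n + C d' * U) * V := ⟨e ^ n, by rw [← hW]; ring⟩
    exact hWU.symm.dvd_of_dvd_mul_left this
  obtain ⟨l, hl, hlV⟩ : ∃ l : ℂ, l ≠ 0 ∧ V = C l * U := by
    obtain ⟨w, hw⟩ := associated_of_dvd_dvd hd2 hd1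
    obtain ⟨r, hr, hru⟩ := Polynomial.isUnit_iff.1 w.isUnit
    exact ⟨r, hr.ne_zero, by rw [← hw, ← hru]; ring⟩
  have he2 : e ^ n = C l * (C c' * b ^ n + C d' * U) := by
    apply mul_right_cancel₀ hU
    rw [hW, hlV]; ring
  rw [hUdef] at he2
  have hlV' : c ^ (n - 1) * (c + C α * e) + C β * e ^ n =
      C l * (a ^ (n - 1) * (a + C α * b) + C β * b ^ n) := by rw [← hVdef, ← hUdef, hlV]
  obtain ⟨ρ, hρ, hca, heb⟩ := poly_rigid hab hb hce he hα hβ hk n hn l c' d' hl hc' hlV' he2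
  have hφρ : φ (C ρ) ≠ 0 := (map_ne_zero_iff φ hφ).2 (C_ne_zero.2 hρ)
  rw [← hv, ← hu, hca, heb]
  change φ (C ρ * a) / φ (C ρ * b) = φ a / φ b
  rw [map_mul, map_mul, mul_div_mul_left _ _ hφρ]

/-- (P3) rigidity of `f = ψ^n + α ψ^(n-1) + β`: a Moebius substitution `ν` transforming `1/f` affinely
fixes `ψ`. -/
theorem psi_rigid (ψ : RatFunc ℂ) (hψ : 1 ≤ max ψ.num.natDegree ψ.denom.natDegree) (n : ℕ)
    (hn : 2 * max ψ.num.natDegree ψ.denom.natDegree + 3 ≤ n) (α β : ℂ) (hα : α ≠ 0) (hβ : β ≠ 0)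
    (ν : RatFunc ℂ →ₐ[ℂ] RatFunc ℂ)
    (hν : max (ν RatFunc.X).num.natDegree (ν RatFunc.X).denom.natDegree = 1)
    (c' d' : ℂ) (hc' : c' ≠ 0)
    (h : (ν (ψ ^ n + algebraMap ℂ (RatFunc ℂ) α * ψ ^ (n - 1) + algebraMap ℂ (RatFunc ℂ) β))⁻¹ =
      algebraMap ℂ (RatFunc ℂ) c' *
        (ψ ^ n + algebraMap ℂ (RatFunc ℂ) α * ψ ^ (n - 1) + algebraMap ℂ (RatFunc ℂ) β)⁻¹ +
      algebraMap ℂ (RatFunc ℂ) d') :
    ν ψ = ψ := by
  refine rat_rigid ψ (ν ψ) hψ n hn α β hα hβ c' d' hc' ?_
  rw [← h]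
  simp only [map_add, map_mul, map_pow, AlgHom.commutes]

end Pool.Agent.Helper881.Cen.Rigid
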