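import Pool.Agent.Helper881.Cfd1

set_option autoImplicit false

open Polynomial

namespace Pool.Agent.Helper881.Cfd

noncomputable section

lemma minpoly_scale {k K : Type} [Field k] [Field K] [Algebra k K] (τ : k →+* k) (L : K →+* K)
    (hL : ∀ u, L (algebraMap k K u) = algebraMap k K (τ u)) (h : K) (hint : IsIntegral k h)
    (γ : k) (hγ : γ ≠ 0) (hLh : L h = algebraMap k K γ * h) :
    τ ((minpoly k h).coeff 0) = γ ^ (minpoly k h).natDegree * (minpoly k h).coeff 0 := by
  set M := minpoly k h with hM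
  have hMmonic : M.Monic := minpoly.monic hint
  set M₂ : k[X] := (M.map τ).comp (C γ * X) with hM₂
  have hroot : aeval h M₂ = 0 := by
    rw [hM₂, aeval_comp]
    simp only [map_mul, aeval_C, aeval_X]
    rw [← hLh]
    have h1 : aeval (L h) (M.map τ) = L (aeval h M) := by
      rw [aeval_def, eval₂_map, aeval_def, hom_eval₂]
      congr 1
      ext u
      simp [hL]
    rw [h1, hM, minpoly.aeval, map_zero]
  have hdvd : M ∣ M₂ := minpoly.dvd k h hroot
  obtain ⟨q, hq⟩ := hdvd
  have hdegX : (C γ * X : k[X]).natDegree = 1 := by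
    rw [natDegree_C_mul hγ, natDegree_X]
  have hdeg2 : M₂.natDegree = M.natDegree := by
    rw [hM₂, natDegree_comp, hdegX, mul_one, natDegree_map]
  have hlead2 : M₂.leadingCoeff = γ ^ M.natDegree := by
    rw [hM₂, leadingCoeff_comp (by rw [hdegX]; exact one_ne_zero), natDegree_map,
      leadingCoeff_map, hMmonic.leadingCoeff, map_one, one_mul, leadingCoeff_mul,
      leadingCoeff_C, leadingCoeff_X, mul_one]
  have hM₂0 : M₂ ≠ 0 := by
    rw [Ne, ← leadingCoeff_eq_zero, hlead2]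
    exact pow_ne_zero _ hγ
  have hq0 : q ≠ 0 := by
    rintro rfl
    rw [mul_zero] at hq
    exact hM₂0 hq
  have hqdeg : q.natDegree = 0 := by
    have := congrArg natDegree hq
    rw [hdeg2, natDegree_mul hMmonic.ne_zero hq0] at this
    omega
  rw [eq_C_of_natDegree_eq_zero hqdeg] at hq
  have hlead : q.coeff 0 = γ ^ M.natDegree := by
    have := congrArg leadingCoeff hq
    rw [hlead2, leadingCoeff_mul, hMmonic.leadingCoeff, one_mul, leadingCoeff_C] at this
    exact this.symm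
  have hc0 := congrArg (fun p => coeff p 0) hq
  simp only [coeff_mul_C] at hc0
  rw [hlead, coeff_zero_eq_eval_zero, hM₂, eval_comp] at hc0
  simp only [eval_mul, eval_C, eval_X, mul_zero] at hc0
  rw [← coeff_zero_eq_eval_zero, coeff_map] at hc0
  rw [hc0, mul_comm]

theorem no_semiconj {K : Type} [Field K] [Algebra ℂ K] (D : Derivation ℂ K K)
    (H1 : ∀ V : ValuationSubring K, (∀ c : ℂ, algebraMap ℂ K c ∈ V) → ∀ f ∈ V, D f ∈ V)
    (θ : RatFunc ℂ →ₐ[ℂ] K)
    (hne : D (θ RatFunc.X) ≠ 0)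
    (φ : RatFunc ℂ →ₐ[ℂ] RatFunc ℂ)
    (hφ : φ RatFunc.X = algebraMap ℂ[X] (RatFunc ℂ) Np / algebraMap ℂ[X] (RatFunc ℂ) Qp)
    (L : K →ₐ[ℂ] K) (hL : L.comp θ = θ.comp φ)
    (c : ℂ) (hD : D (L (θ RatFunc.X)) = algebraMap ℂ K c * L (D (θ RatFunc.X))) : False := by
  set F := algebraMap ℂ[X] (RatFunc ℂ) with hF
  have hinj : Function.Injective F := RatFunc.algebraMap_injective ℂ
  have hQ0 : F Qp ≠ 0 := by
    rw [Ne, map_eq_zero_iff _ hinj]; exact Qp_ne_zero
  set x₀ := θ RatFunc.X with hx₀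
  set h := D x₀ with hh
  have hθF : ∀ p : ℂ[X], θ (F p) = aeval x₀ p := by
    intro p
    have : (θ.comp (IsScalarTower.toAlgHom ℂ ℂ[X] (RatFunc ℂ))) = aeval x₀ := by
      apply Polynomial.algHom_ext
      simp [hx₀]
    exact DFunLike.congr_fun this p
  have hφF : ∀ p : ℂ[X], φ (F p) = aeval (F Np / F Qp) p := by
    intro p
    have : (φ.comp (IsScalarTower.toAlgHom ℂ ℂ[X] (RatFunc ℂ))) = aeval (F Np / F Qp) := by
      apply Polynomial.algHom_ext
      simp [hφ]
    exact DFunLike.congr_fun this p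
  letI : Algebra (RatFunc ℂ) K := θ.toRingHom.toAlgebra
  letI : Algebra ℂ[X] K := (θ.toRingHom.comp F).toAlgebra
  haveI : IsScalarTower ℂ[X] (RatFunc ℂ) K := IsScalarTower.of_algebraMap_eq (fun _ => rfl)
  have halg : ∀ u : RatFunc ℂ, algebraMap (RatFunc ℂ) K u = θ u := fun _ => rfl
  have halg' : ∀ p : ℂ[X], algebraMap ℂ[X] K p = aeval x₀ p := fun p => hθF p
  -- integrality
  have hint : IsIntegral ℂ[X] h := by
    by_contra hcon
    have hnot : h ∉ (integralClosure ℂ[X] K).toSubring := hcon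
    obtain ⟨V, hV, hhV⟩ := Subring.exists_le_valuationSubring_of_isIntegrallyClosedIn hnot
    apply hhV
    apply H1
    · intro r
      apply hV
      have : algebraMap ℂ K r = algebraMap ℂ[X] K (C r) := by
        rw [halg', aeval_C]
      rw [this]
      exact (integralClosure ℂ[X] K).algebraMap_mem _
    · apply hV
      have : x₀ = algebraMap ℂ[X] K X := by
        rw [halg', aeval_X]
      rw [this]
      exact (integralClosure ℂ[X] K).algebraMap_mem _
  have hint' : IsIntegral (RatFunc ℂ) h := hint.tower_top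
  -- derivative
  have hLx : L x₀ = aeval x₀ Np / aeval x₀ Qp := by
    have := DFunLike.congr_fun hL RatFunc.X
    simp only [AlgHom.comp_apply] at this
    rw [hφ, map_div₀, hθF, hθF] at this
    exact this
  have hQK : aeval x₀ Qp ≠ 0 := by
    rw [← hθF]
    exact (map_ne_zero_iff θ (RingHom.injective θ.toRingHom)).mpr hQ0
  have hWK : aeval x₀ Wp ≠ 0 := by
    rw [← hθF]
    refine (map_ne_zero_iff θ (RingHom.injective θ.toRingHom)).mpr ?_
    rw [Ne, map_eq_zero_iff _ hinj]; exact Wp_ne_zero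
  have hDL : D (L x₀) = aeval x₀ Wp / aeval x₀ Qp ^ 2 * h := by
    rw [hLx, Derivation.leibniz_div, Derivation.map_aeval, Derivation.map_aeval, Wp_eq]
    simp only [smul_eq_mul, map_sub, map_mul]
    field_simp
    try ring
  have hc : c ≠ 0 := by
    rintro rfl
    rw [hDL, map_zero, zero_mul] at hD
    exact mul_ne_zero (div_ne_zero hWK (pow_ne_zero _ hQK)) hne hD
  set γ : RatFunc ℂ := algebraMap ℂ (RatFunc ℂ) c⁻¹ * (F Wp / F Qp ^ 2) with hγ
  have hγ0 : γ ≠ 0 := by
    rw [hγ]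
    refine mul_ne_zero ?_ (div_ne_zero ?_ (pow_ne_zero _ hQ0))
    · rw [Ne, map_eq_zero]; exact inv_ne_zero hc
    · rw [Ne, map_eq_zero_iff _ hinj]; exact Wp_ne_zero
  have hLh : L h = algebraMap (RatFunc ℂ) K γ * h := by
    have h1 : algebraMap (RatFunc ℂ) K γ = algebraMap ℂ K c⁻¹ * (aeval x₀ Wp / aeval x₀ Qp ^ 2) := by
      rw [halg, hγ, map_mul, map_div₀, map_pow, hθF, hθF]
      congr 1
      exact θ.commutes _
    rw [h1, mul_assoc, ← hDL, hD, ← mul_assoc, ← map_mul, inv_mul_cancel₀ hc, map_one, one_mul]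
  have hscale := minpoly_scale (k := RatFunc ℂ) (K := K) φ.toRingHom L.toRingHom
    (fun u => DFunLike.congr_fun hL u) h hint' γ hγ0 hLh
  have hmp : minpoly (RatFunc ℂ) h = (minpoly ℂ[X] h).map F :=
    minpoly.isIntegrallyClosed_eq_field_fractions' (RatFunc ℂ) hint
  set a := (minpoly ℂ[X] h).coeff 0 with ha
  have hcoef : (minpoly (RatFunc ℂ) h).coeff 0 = F a := by
    rw [hmp, coeff_map]
  have ha0 : a ≠ 0 := by
    intro h0
    rw [h0, map_zero] at hcoef
    exact minpoly.coeff_zero_ne_zero hint' hne hcoef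
  rw [hcoef] at hscale
  have hd : 1 ≤ (minpoly (RatFunc ℂ) h).natDegree := minpoly.natDegree_pos hint'
  refine alg_key a ha0 _ hd (c⁻¹ ^ (minpoly (RatFunc ℂ) h).natDegree) ?_
  rw [← hφF]
  refine hscale.trans ?_
  rw [hγ, mul_pow, map_pow]

end

end Pool.Agent.Helper881.Cfd
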