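import Pool.Agent.Helper881.Cfd3

set_option autoImplicit false

open Polynomial

namespace Pool.Agent.Helper881.Cfd

noncomputable section

section infinity

variable {K : Type} [Field K] [Algebra ℂ K]

lemma aeval_reflect (u : K) (hu : u ≠ 0) (N : ℕ) (p : ℂ[X]) (hp : p.natDegree ≤ N) :
    aeval u⁻¹ (reflect N p) * u ^ N = aeval u p := by
  let _ : Invertible u := invertibleOfNonzero hu
  have h := eval₂_reflect_mul_pow (algebraMap ℂ K) u N p hp
  rw [invOf_eq_inv] at h
  exact h

lemma aeval_inv_ne_zero {x : K} (hxt : ∀ r : ℂ[X], r ≠ 0 → aeval x r ≠ 0) :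
    ∀ r : ℂ[X], r ≠ 0 → aeval x⁻¹ r ≠ 0 := by
  intro r hr h0
  have hx0 : x ≠ 0 := by
    have := hxt X X_ne_zero
    simpa using this
  have h1 := aeval_reflect x⁻¹ (inv_ne_zero hx0) r.natDegree r le_rfl
  rw [h0, inv_inv] at h1
  rcases mul_eq_zero.mp h1 with h2 | h2
  · exact hxt _ (by rwa [Ne, reflect_eq_zero_iff]) h2
  · exact pow_ne_zero _ (inv_ne_zero hx0) h2

/-- the cubic -/
def cub (β γ δ : ℂ) : ℂ[X] := C 4 * X ^ 3 + C β * X ^ 2 + C γ * X + C δ
/-- its reversed quartic -/
def qua (β γ δ : ℂ) : ℂ[X] := C 4 * X + C β * X ^ 2 + C γ * X ^ 3 + C δ * X ^ 4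

lemma am4 : algebraMap ℂ K 4 = 4 := map_ofNat _ 4
lemma am3 : algebraMap ℂ K 3 = 3 := map_ofNat _ 3
lemma am2 : algebraMap ℂ K 2 = 2 := map_ofNat _ 2

lemma aeval_cub (β γ δ : ℂ) (x : K) : aeval x (cub β γ δ) =
    4 * x ^ 3 + algebraMap ℂ K β * x ^ 2 + algebraMap ℂ K γ * x + algebraMap ℂ K δ := by
  unfold cub
  simp [am4]

lemma aeval_qua (β γ δ : ℂ) (x : K) : aeval x (qua β γ δ) =
    4 * x + algebraMap ℂ K β * x ^ 2 + algebraMap ℂ K γ * x ^ 3 + algebraMap ℂ K δ * x ^ 4 := by
  unfold qua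
  simp [am4]

lemma aeval_cub' (β γ δ : ℂ) (x : K) : aeval x (derivative (cub β γ δ)) =
    12 * x ^ 2 + 2 * algebraMap ℂ K β * x + algebraMap ℂ K γ := by
  unfold cub
  simp [am4, am2]
  ring

lemma aeval_qua' (β γ δ : ℂ) (x : K) : aeval x (derivative (qua β γ δ)) =
    4 + 2 * algebraMap ℂ K β * x + 3 * algebraMap ℂ K γ * x ^ 2 +
      4 * algebraMap ℂ K δ * x ^ 3 := by
  unfold qua
  simp [am4, am3, am2]
  ring

lemma eval_zero_qua' (β γ δ : ℂ) : eval 0 (derivative (qua β γ δ)) = 4 := by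
  unfold qua
  simp

end infinity

section elliptic

variable {K : Type} [Field K] [Algebra ℂ K]

/-- data of the function field of a curve `y² = cubic`, with its invariant derivation -/
structure Ell (D : Derivation ℂ K K) (β γ δ : ℂ) (x y : K) : Prop where
  hxt : ∀ r : ℂ[X], r ≠ 0 → aeval x r ≠ 0
  hy : y ^ 2 = aeval x (cub β γ δ)
  hcop : IsCoprime (cub β γ δ) (derivative (cub β γ δ))
  hrep : ∀ f : K, ∃ p q r : ℂ[X], r ≠ 0 ∧ f * aeval x r = aeval x p + aeval x q * y
  hDx : D x = 2 * y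
  hDy : D y = aeval x (derivative (cub β γ δ))

lemma cub_ne_zero (β γ δ : ℂ) : cub β γ δ ≠ 0 := by
  intro h
  have h1 : (cub β γ δ).coeff 3 = 4 := by
    unfold cub
    simp [coeff_X_pow, coeff_X, coeff_C]
  rw [h] at h1
  simp at h1

variable {D : Derivation ℂ K K} {β γ δ : ℂ} {x y : K}

lemma Ell.y_ne_zero (E : Ell D β γ δ x y) : y ≠ 0 := by
  intro h0
  have := E.hy
  rw [h0, zero_pow two_ne_zero] at this
  exact E.hxt _ (cub_ne_zero β γ δ) this.symm

lemma Ell.x_ne_zero (E : Ell D β γ δ x y) : x ≠ 0 := by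
  have := E.hxt X X_ne_zero
  simpa using this

/-- relation at infinity -/
lemma inf_rel {ξ η : K} (hξ : ξ ≠ 0) (hη : η ^ 2 = aeval ξ (cub β γ δ)) :
    (η * (ξ⁻¹) ^ 2) ^ 2 = aeval ξ⁻¹ (qua β γ δ) := by
  rw [aeval_cub] at hη
  rw [aeval_qua, mul_pow, hη]
  field_simp

/-- derivatives at infinity -/
lemma inf_deriv {ξ η G : K} (hξ : ξ ≠ 0) (hη : η ^ 2 = aeval ξ (cub β γ δ))
    (h1 : D ξ = 2 * η * G) (h2 : D η = aeval ξ (derivative (cub β γ δ)) * G) :
    D ξ⁻¹ = -2 * (η * (ξ⁻¹) ^ 2) * G ∧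
      D (η * (ξ⁻¹) ^ 2) = -(aeval ξ⁻¹ (derivative (qua β γ δ))) * G := by
  have h3 : D ξ⁻¹ = -2 * (η * (ξ⁻¹) ^ 2) * G := by
    rw [Derivation.leibniz_inv, smul_eq_mul, h1]
    ring
  refine ⟨h3, ?_⟩
  rw [Derivation.leibniz, Derivation.leibniz_pow, h3, h2, aeval_qua', aeval_cub']
  rw [aeval_cub] at hη
  simp only [smul_eq_mul, nsmul_eq_mul]
  norm_num
  field_simp
  linear_combination (-4 * G) * hη

lemma Ell.stable (E : Ell D β γ δ x y) (V : ValuationSubring K)
    (hV : ∀ c : ℂ, algebraMap ℂ K c ∈ V) : ∀ f ∈ V, D f ∈ V := by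
  by_cases hx : x ∈ V
  · have hyV : y ∈ V := by
      rw [← V.valuation_le_one_iff]
      have h1 : V.valuation (y ^ 2) ≤ 1 := by
        rw [E.hy]
        exact (V.valuation_le_one_iff _).mpr (aeval_mem V hV hx _)
      rw [map_pow] at h1
      exact (pow_le_one_iff two_ne_zero).mp h1
    have h2V : (2 : K) ∈ V := by
      have := hV 2
      rwa [map_ofNat] at this
    refine chart_stable D (cub β γ δ) x y E.y_ne_zero E.hy E.hrep E.hxt V hV hx ?_ ?_ ?_
    · rw [E.hDx]
      exact V.mul_mem _ _ h2V hyV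
    · rw [E.hDy]
      exact aeval_mem V hV hx _
    · intro a _
      by_contra hcon
      push Not at hcon
      obtain ⟨u, v, huv⟩ := E.hcop
      have := congrArg (eval a) huv
      rw [eval_add, eval_mul, eval_mul, hcon.1, hcon.2, mul_zero, mul_zero, add_zero,
        eval_one] at this
      exact zero_ne_one this
  · have hx0 := E.x_ne_zero
    have hw : V.valuation x⁻¹ < 1 := by
      rw [← ValuationSubring.mem_nonunits_iff, ValuationSubring.inv_mem_nonunits_iff]
      exact Or.inr hx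
    have hwV : x⁻¹ ∈ V := (V.valuation_le_one_iff _).mp hw.le
    set t : K := y * (x⁻¹) ^ 2 with ht
    have htsq : t ^ 2 = aeval x⁻¹ (qua β γ δ) := inf_rel hx0 E.hy
    have htV : t ∈ V := by
      rw [← V.valuation_le_one_iff]
      have h1 : V.valuation (t ^ 2) ≤ 1 := by
        rw [htsq]
        exact (V.valuation_le_one_iff _).mpr (aeval_mem V hV hwV _)
      rw [map_pow] at h1
      exact (pow_le_one_iff two_ne_zero).mp h1
    have hd := inf_deriv (D := D) (G := 1) hx0 E.hy (by rw [E.hDx, mul_one])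
      (by rw [E.hDy, mul_one])
    rw [← ht, mul_one, mul_one] at hd
    have h2V : (-2 : K) ∈ V := by
      have := hV (-2)
      rwa [map_neg, map_ofNat] at this
    refine chart_stable D (qua β γ δ) x⁻¹ t (mul_ne_zero E.y_ne_zero
      (pow_ne_zero _ (inv_ne_zero hx0))) htsq ?_ (aeval_inv_ne_zero E.hxt) V hV hwV ?_ ?_ ?_
    · intro f
      obtain ⟨p, q, r, hr, hf⟩ := E.hrep f
      set N := max p.natDegree (max q.natDegree r.natDegree) with hN
      have hp := aeval_reflect x hx0 N p (le_max_left _ _)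
      have hq := aeval_reflect x hx0 N q ((le_max_left _ _).trans (le_max_right _ _))
      have hr' := aeval_reflect x hx0 N r ((le_max_right _ _).trans (le_max_right _ _))
      refine ⟨X ^ 2 * reflect N p, reflect N q, X ^ 2 * reflect N r,
        mul_ne_zero (pow_ne_zero _ X_ne_zero) (by rwa [Ne, reflect_eq_zero_iff]), ?_⟩
      rw [← hp, ← hq, ← hr'] at hf
      simp only [map_mul, map_pow, aeval_X]
      have hxN : x ^ N ≠ 0 := pow_ne_zero _ hx0
      apply mul_left_cancel₀ hxN
      rw [ht]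
      linear_combination (x⁻¹) ^ 2 * hf
    · rw [hd.1]
      exact V.mul_mem _ _ h2V htV
    · rw [hd.2]
      exact V.neg_mem _ (aeval_mem V hV hwV _)
    · intro a ha
      have ha0 : a = 0 := by
        by_contra hne
        have := val_lt_iff_const V hV ha hne
        rw [this] at hw
        exact lt_irrefl _ hw
      right
      rw [ha0, eval_zero_qua']
      norm_num

theorem Ell.exists_const (E : Ell D β γ δ x y) (L : K →ₐ[ℂ] K) :
    ∃ c : ℂ, ∀ f : K, D (L f) = algebraMap ℂ K c * L (D f) := by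
  have _ : CharZero K := charZero_of_injective_algebraMap (algebraMap ℂ K).injective
  have hLinj : Function.Injective L := RingHom.injective L.toRingHom
  set ξ := L x with hξ
  set η := L y with hη
  have hξ0 : ξ ≠ 0 := (map_ne_zero_iff L hLinj).mpr E.x_ne_zero
  have hη0 : η ≠ 0 := (map_ne_zero_iff L hLinj).mpr E.y_ne_zero
  have hLa : ∀ p : ℂ[X], L (aeval x p) = aeval ξ p := by
    intro p
    rw [hξ, ← Polynomial.aeval_algHom_apply]
  have hrel : η ^ 2 = aeval ξ (cub β γ δ) := by
    rw [hη, ← map_pow, E.hy, hLa]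
  set G : K := D ξ / (2 * η) with hG
  have h2η : (2 : K) * η ≠ 0 := mul_ne_zero two_ne_zero hη0
  have hDξ : D ξ = 2 * η * G := by
    rw [hG]; field_simp
  have hDη : D η = aeval ξ (derivative (cub β γ δ)) * G := by
    have h1 : D (η ^ 2) = D (aeval ξ (cub β γ δ)) := by rw [hrel]
    rw [Derivation.leibniz_pow, Derivation.map_aeval, hDξ] at h1
    simp only [smul_eq_mul, nsmul_eq_mul] at h1
    norm_num at h1
    apply mul_left_cancel₀ h2η
    linear_combination h1
  have hGint : IsIntegral ℂ G := by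
    by_contra hcon
    have hnot : G ∉ (integralClosure ℂ K).toSubring := hcon
    obtain ⟨V, hV, hGV⟩ := Subring.exists_le_valuationSubring_of_isIntegrallyClosedIn hnot
    have hVc : ∀ c : ℂ, algebraMap ℂ K c ∈ V := fun c =>
      hV ((integralClosure ℂ K).algebraMap_mem c)
    have hstab := E.stable V hVc
    apply hGV
    by_cases hξV : ξ ∈ V
    · have hηV : η ∈ V := by
        rw [← V.valuation_le_one_iff]
        have h1 : V.valuation (η ^ 2) ≤ 1 := by
          rw [hrel]
          exact (V.valuation_le_one_iff _).mpr (aeval_mem V hVc hξV _)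
        rw [map_pow] at h1
        exact (pow_le_one_iff two_ne_zero).mp h1
      obtain ⟨u, v, huv⟩ := E.hcop
      have h1 := congrArg (aeval ξ) huv
      rw [map_add, map_mul, map_mul, map_one, ← hrel] at h1
      have h2 : G = algebraMap ℂ K (1/2) * aeval ξ u * η * D ξ + aeval ξ v * D η := by
        rw [hDξ, hDη, map_div₀, map_one, map_ofNat]
        have h3 : (1 : K) / 2 * aeval ξ u * η * (2 * η * G) = aeval ξ u * η ^ 2 * G := by
          ring
        rw [h3]
        linear_combination (-G) * h1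
      rw [h2]
      exact V.add_mem _ _ (V.mul_mem _ _ (V.mul_mem _ _ (V.mul_mem _ _ (hVc _)
        (aeval_mem V hVc hξV u)) hηV) (hstab _ hξV))
        (V.mul_mem _ _ (aeval_mem V hVc hξV v) (hstab _ hηV))
    · have hw : V.valuation ξ⁻¹ < 1 := by
        rw [← ValuationSubring.mem_nonunits_iff, ValuationSubring.inv_mem_nonunits_iff]
        exact Or.inr hξV
      have hwV : ξ⁻¹ ∈ V := (V.valuation_le_one_iff _).mp hw.le
      have htsq := inf_rel hξ0 hrel
      have htV : η * (ξ⁻¹) ^ 2 ∈ V := by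
        rw [← V.valuation_le_one_iff]
        have h1 : V.valuation ((η * (ξ⁻¹) ^ 2) ^ 2) ≤ 1 := by
          rw [htsq]
          exact (V.valuation_le_one_iff _).mpr (aeval_mem V hVc hwV _)
        rw [map_pow] at h1
        exact (pow_le_one_iff two_ne_zero).mp h1
      have hd := (inf_deriv (D := D) hξ0 hrel hDξ hDη).2
      have h3 := hstab _ htV
      rw [hd] at h3
      have h4 : V.valuation (aeval ξ⁻¹ (derivative (qua β γ δ))) = 1 := by
        have h5 := val_aeval_sub V hVc hwV (a := 0) (by rw [map_zero, sub_zero]; exact hw)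
          (derivative (qua β γ δ))
        rw [eval_zero_qua'] at h5
        exact val_lt_iff_const V hVc h5 (by norm_num)
      rw [← V.valuation_le_one_iff, map_mul, Valuation.map_neg, h4, one_mul] at h3
      exact (V.valuation_le_one_iff _).mp h3
  obtain ⟨c, hc⟩ : G ∈ (algebraMap ℂ K).range :=
    hGint.mem_range_algebraMap_of_minpoly_splits (IsAlgClosed.splits _)
  refine ⟨c, ?_⟩
  rw [hc]
  have eq_x : D (L x) = G * L (D x) := by
    rw [E.hDx, map_mul, map_ofNat, ← hξ, ← hη, hDξ]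
    ring
  have eq_y : D (L y) = G * L (D y) := by
    rw [E.hDy, hLa, ← hη, hDη]
    ring
  have eq_p : ∀ p : ℂ[X], D (L (aeval x p)) = G * L (D (aeval x p)) := by
    intro p
    rw [hLa, Derivation.map_aeval, Derivation.map_aeval, smul_eq_mul, smul_eq_mul, map_mul, hLa,
      ← hξ] at *
    rw [eq_x]
    ring
  intro f
  obtain ⟨p, q, r, hr, hf⟩ := E.hrep f
  have h1 : D (L (f * aeval x r)) = G * L (D (f * aeval x r)) := by
    rw [hf, map_add, map_add, map_mul, Derivation.leibniz, map_add D, map_add L, eq_p,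
      Derivation.leibniz, eq_p, eq_y]
    simp only [smul_eq_mul, map_add, map_mul]
    ring
  rw [map_mul, Derivation.leibniz, Derivation.leibniz, eq_p] at h1
  simp only [smul_eq_mul, map_add, map_mul] at h1
  have h2 : L (aeval x r) ≠ 0 := (map_ne_zero_iff L hLinj).mpr (E.hxt r hr)
  apply mul_left_cancel₀ h2
  linear_combination h1

end elliptic

end

end Pool.Agent.Helper881.Cfd
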