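import Mathlib

set_option autoImplicit false

/-!
The sextic p = (x^2 y - 4 x y^2 - x + 5 y)^2 - 4 (x y - 1) has a smooth irreducible rational zero set
in the affine plane, and it is a factor of no field generator.
The quadratic differential (dx dy)^2 / p has its only pole along p = 0, so on the generic fibre of a
field generator divisible by p it would be a nonzero quadratic differential without poles on a
projective line, which does not exist.
-/

namespace Pool.Agent.Helper881.FieldGen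


section Local

variable {L : Type*} [Field L] [Algebra ℂ L] {Γ : Type*} [LinearOrderedCommGroupWithZero Γ]

/-- the bracket of two derivations -/
def J (D₁ D₂ : Derivation ℂ L L) (a b : L) : L := D₁ a * D₂ b - D₂ a * D₁ b

/-- the sextic -/
def P (x y : L) : L := (x ^ 2 * y - 4 * x * y ^ 2 - x + 5 * y) ^ 2 - 4 * (x * y - 1)

lemma J_mul_right (D₁ D₂ : Derivation ℂ L L) (a b c : L) :
    J D₁ D₂ a (b * c) = b * J D₁ D₂ a c + c * J D₁ D₂ a b := by
  simp only [J, Derivation.leibniz, smul_eq_mul]; ring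

lemma J_mul_left (D₁ D₂ : Derivation ℂ L L) (a b c : L) :
    J D₁ D₂ (a * b) c = a * J D₁ D₂ b c + b * J D₁ D₂ a c := by
  simp only [J, Derivation.leibniz, smul_eq_mul]; ring

lemma J_self (D₁ D₂ : Derivation ℂ L L) (a : L) : J D₁ D₂ a a = 0 := by
  simp only [J]; ring

lemma J_swap (D₁ D₂ : Derivation ℂ L L) (a b : L) : J D₁ D₂ a b = - J D₁ D₂ b a := by
  simp only [J]; ring

lemma J_add_right (D₁ D₂ : Derivation ℂ L L) (a b c : L) :
    J D₁ D₂ a (b + c) = J D₁ D₂ a b + J D₁ D₂ a c := by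
  simp only [J, map_add]; ring

lemma J_sub_right (D₁ D₂ : Derivation ℂ L L) (a b c : L) :
    J D₁ D₂ a (b - c) = J D₁ D₂ a b - J D₁ D₂ a c := by
  simp only [J, map_sub]; ring

lemma J_inv_left (D₁ D₂ : Derivation ℂ L L) (a b : L) :
    J D₁ D₂ a⁻¹ b = - a⁻¹ ^ 2 * J D₁ D₂ a b := by
  simp only [J, Derivation.leibniz_inv, smul_eq_mul]; ring

lemma J_inv_right (D₁ D₂ : Derivation ℂ L L) (a b : L) :
    J D₁ D₂ a b⁻¹ = - b⁻¹ ^ 2 * J D₁ D₂ a b := by
  simp only [J, Derivation.leibniz_inv, smul_eq_mul]; ring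

lemma J_one_right (D₁ D₂ : Derivation ℂ L L) (a : L) : J D₁ D₂ a 1 = 0 := by
  simp [J]

lemma J_ofNat_right (D₁ D₂ : Derivation ℂ L L) (a : L) (n : ℕ) [n.AtLeastTwo] :
    J D₁ D₂ a (OfNat.ofNat n : L) = 0 := by
  have h1 : D₁ (OfNat.ofNat n : L) = 0 := D₁.map_natCast n
  have h2 : D₂ (OfNat.ofNat n : L) = 0 := D₂.map_natCast n
  simp [J, h1, h2]

lemma J_pow_right (D₁ D₂ : Derivation ℂ L L) (a b : L) (n : ℕ) :
    J D₁ D₂ a (b ^ n) = n * b ^ (n - 1) * J D₁ D₂ a b := by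
  simp only [J, Derivation.leibniz_pow, smul_eq_mul, nsmul_eq_mul]; ring

lemma smooth_step (D₁ D₂ : Derivation ℂ L L) (v : Valuation L Γ)
    (h0 : ∀ a b, v a ≤ 1 → v b ≤ 1 → v (J D₁ D₂ a b) ≤ 1)
    (hL : ∀ a b, v a < 1 → v (J D₁ D₂ a b) ≤ v b)
    (ξ κ G G' : L) (hξ : v ξ < 1) (hκ : v κ ≤ 1)
    (hJ : J D₁ D₂ ξ G = G' * J D₁ D₂ ξ κ) (hG' : v G < 1 → v G' = 1) :
    v (J D₁ D₂ ξ κ) ^ 2 ≤ v G := by
  rcases lt_or_ge (v G) 1 with h | h
  · have h1 := hL ξ G hξ
    rw [hJ, map_mul, hG' h, one_mul] at h1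
    calc v (J D₁ D₂ ξ κ) ^ 2 ≤ v G ^ 2 := pow_le_pow_left' h1 2
      _ = v G * v G := sq _
      _ ≤ v G * 1 := mul_le_mul' le_rfl h.le
      _ = v G := mul_one _
  · have h1 := h0 ξ κ hξ.le hκ
    calc v (J D₁ D₂ ξ κ) ^ 2 ≤ 1 := pow_le_one' h1 2
      _ ≤ v G := h

omit [Algebra ℂ L] in
/-- dominated square -/
lemma dom_sq (v : Valuation L Γ) (t ξ B : L) (h : v ξ < v t) (hB : v B ≤ 1) :
    v (t ^ 2 + ξ ^ 2 * B) = v t ^ 2 := by
  have : v (ξ ^ 2 * B) < v (t ^ 2) := by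
    rw [map_mul, map_pow, map_pow]
    calc v ξ ^ 2 * v B ≤ v ξ ^ 2 * 1 := mul_le_mul' le_rfl hB
      _ = v ξ ^ 2 := mul_one _
      _ < v t ^ 2 := pow_lt_pow_left₀ h zero_le two_ne_zero
  rw [Valuation.map_add_eq_of_lt_left _ this, map_pow]

omit [Algebra ℂ L] in
lemma unit_add (v : Valuation L Γ) (a b : L) (ha : v a = 1) (hb : v b < 1) : v (a + b) = 1 := by
  rw [Valuation.map_add_eq_of_lt_left _ (by rw [ha]; exact hb), ha]

omit [Algebra ℂ L] in
lemma small_mul (v : Valuation L Γ) (a b : L) (ha : v a < 1) (hb : v b ≤ 1) : v (a * b) < 1 := by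
  rw [map_mul]
  exact lt_of_le_of_lt (mul_le_mul' le_rfl hb) (by rwa [mul_one])

omit [Algebra ℂ L] in
lemma v_eq_one_of_sq (v : Valuation L Γ) (a : L) (ha : v a ≤ 1) (h : v (a ^ 2) = 1) :
    v a = 1 := by
  rcases ha.lt_or_eq with h1 | h1
  · exfalso
    have := pow_lt_one₀ zero_le h1 two_ne_zero
    rw [map_pow] at h
    exact this.ne h
  · exact h1

/-- the chart at the A-point -/
lemma chartA (D₁ D₂ : Derivation ℂ L L) (v : Valuation L Γ)
    (hn : ∀ c : ℂ, c ≠ 0 → v (algebraMap ℂ L c) = 1)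
    (h0 : ∀ a b, v a ≤ 1 → v b ≤ 1 → v (J D₁ D₂ a b) ≤ 1)
    (hL : ∀ a b, v a < 1 → v (J D₁ D₂ a b) ≤ v b)
    (ξ θ : L) (hξ : v ξ < 1) (hθ : v θ ≤ 1) :
    v (J D₁ D₂ ξ θ) ^ 2 ≤
      v ((θ + ξ ^ 2 * (1 + θ) * (1 - 4 * θ)) ^ 2 - 4 * ξ ^ 2 * θ) := by
  -- integral elements
  let O := v.integer
  let ξ' : O := ⟨ξ, hξ.le⟩
  let θ' : O := ⟨θ, hθ⟩
  rcases hθ.lt_or_eq with hθ1 | hθ1
  swap
  · -- θ unit
    have e : (θ + ξ ^ 2 * (1 + θ) * (1 - 4 * θ)) ^ 2 - 4 * ξ ^ 2 * θ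
        = θ ^ 2 + ξ * (ξ * (2 * θ * (1 + θ) * (1 - 4 * θ) + ξ ^ 2 * ((1 + θ) * (1 - 4 * θ)) ^ 2
          - 4 * θ)) := by ring
    have hB : v (ξ * (2 * θ * (1 + θ) * (1 - 4 * θ) + ξ ^ 2 * ((1 + θ) * (1 - 4 * θ)) ^ 2
          - 4 * θ)) ≤ 1 :=
      (ξ' * (2 * θ' * (1 + θ') * (1 - 4 * θ') + ξ' ^ 2 * ((1 + θ') * (1 - 4 * θ')) ^ 2
          - 4 * θ')).2
    rw [e, unit_add v _ _ (by rw [map_pow, hθ1, one_pow]) (small_mul v _ _ hξ hB)]
    exact pow_le_one' (h0 _ _ hξ.le hθ) 2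
  rcases lt_or_ge (v (ξ ^ 2)) (v θ) with h1 | h1
  · -- θ dominates ξ ^ 2
    have hθ0 : θ ≠ 0 := by
      rintro rfl
      simp at h1
    have e : (θ + ξ ^ 2 * (1 + θ) * (1 - 4 * θ)) ^ 2 - 4 * ξ ^ 2 * θ
        = θ ^ 2 * (1 + (ξ ^ 2 / θ) * (2 * (1 + θ) * (1 - 4 * θ) +
          (ξ ^ 2 / θ) * ((1 + θ) * (1 - 4 * θ)) ^ 2 - 4)) := by
      field_simp
      ring
    have hτ : v (ξ ^ 2 / θ) < 1 := by
      rw [map_div₀]
      exact (div_lt_one₀ (by simpa [zero_lt_iff] using hθ0)).2 h1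
    let τ' : O := ⟨ξ ^ 2 / θ, hτ.le⟩
    have hB : v (2 * (1 + θ) * (1 - 4 * θ) +
          (ξ ^ 2 / θ) * ((1 + θ) * (1 - 4 * θ)) ^ 2 - 4) ≤ 1 :=
      (2 * (1 + θ') * (1 - 4 * θ') + τ' * ((1 + θ') * (1 - 4 * θ')) ^ 2 - 4).2
    rw [e, map_mul, unit_add v _ _ (map_one v) (small_mul v _ _ hτ hB), mul_one, map_pow]
    exact pow_le_pow_left' (hL ξ θ hξ) 2
  · -- θ = ξ ^ 2 z
    rcases eq_or_ne ξ 0 with hξ0 | hξ0
    · subst hξ0
      have : θ = 0 := by simpa using h1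
      subst this
      simp [J]
    have hz : v (θ / ξ ^ 2) ≤ 1 := by
      rw [map_div₀]
      exact div_le_one_of_le₀ h1 zero_le
    obtain ⟨z, hzdef⟩ : ∃ z, z = θ / ξ ^ 2 := ⟨_, rfl⟩
    rw [← hzdef] at hz
    have hθz : θ = ξ ^ 2 * z := by rw [hzdef]; field_simp
    let z' : O := ⟨z, hz⟩
    have eJ : J D₁ D₂ ξ θ = ξ ^ 2 * J D₁ D₂ ξ z := by
      rw [hθz, J_mul_right, J_pow_right, J_self]; ring
    obtain ⟨S, hS⟩ : ∃ S, S = 2 * (1 + z) * (-3 * z - 4 * z ^ 2 * ξ ^ 2)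
        + ξ ^ 2 * (-3 * z - 4 * z ^ 2 * ξ ^ 2) ^ 2 := ⟨_, rfl⟩
    have hS1 : v S ≤ 1 := by
      rw [hS]
      exact (2 * (1 + z') * (-3 * z' - 4 * z' ^ 2 * ξ' ^ 2)
        + ξ' ^ 2 * (-3 * z' - 4 * z' ^ 2 * ξ' ^ 2) ^ 2).2
    have eR : (θ + ξ ^ 2 * (1 + θ) * (1 - 4 * θ)) ^ 2 - 4 * ξ ^ 2 * θ
        = (ξ ^ 2) ^ 2 * ((1 - z) ^ 2 + ξ ^ 2 * S) := by
      rw [hθz, hS]; ring
    rw [eR, eJ, map_mul, map_mul, mul_pow, map_pow v (ξ ^ 2)]
    refine mul_le_mul' le_rfl ?_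
    have hω : v (1 - z) ≤ 1 := (1 - z' : O).2
    have eJ2 : J D₁ D₂ ξ z = - J D₁ D₂ ξ (1 - z) := by
      rw [J_sub_right, J_one_right]; ring
    rcases lt_or_ge (v ξ) (v (1 - z)) with h2 | h2
    · rw [dom_sq v _ _ _ h2 hS1, eJ2, Valuation.map_neg]
      exact pow_le_pow_left' (hL _ _ hξ) 2
    · -- 1 - z = ξ κ
      have hκ : v ((1 - z) / ξ) ≤ 1 := by
        rw [map_div₀]
        exact div_le_one_of_le₀ h2 zero_le
      obtain ⟨κ, hκdef⟩ : ∃ κ, κ = (1 - z) / ξ := ⟨_, rfl⟩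
      rw [← hκdef] at hκ
      have hzκ : z = 1 - ξ * κ := by rw [hκdef]; field_simp; ring
      let κ' : O := ⟨κ, hκ⟩
      have e3 : (1 - z) ^ 2 + ξ ^ 2 * S = ξ ^ 2 * (κ ^ 2 + S) := by
        rw [hzκ]; ring
      have eJ3 : J D₁ D₂ ξ z = - (ξ * J D₁ D₂ ξ κ) := by
        rw [hzκ, J_sub_right, J_one_right, J_mul_right, J_self]; ring
      rw [e3, eJ3, Valuation.map_neg, map_mul, map_mul, mul_pow, map_pow v ξ]
      refine mul_le_mul' le_rfl ?_
      -- smooth step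
      obtain ⟨T, hT⟩ : ∃ T, T = 2 * κ + (-ξ) * (2 * (-3 * z - 4 * z ^ 2 * ξ ^ 2)
        + 2 * (1 + z) * (-3 - 8 * z * ξ ^ 2) + ξ ^ 2 * (2 * (-3 * z - 4 * z ^ 2 * ξ ^ 2)
          * (-3 - 8 * z * ξ ^ 2))) := ⟨_, rfl⟩
      refine smooth_step D₁ D₂ v h0 hL ξ κ (κ ^ 2 + S) T hξ hκ ?_ ?_
      · have e4 : J D₁ D₂ ξ S = (2 * (-3 * z - 4 * z ^ 2 * ξ ^ 2)
        + 2 * (1 + z) * (-3 - 8 * z * ξ ^ 2) + ξ ^ 2 * (2 * (-3 * z - 4 * z ^ 2 * ξ ^ 2)
          * (-3 - 8 * z * ξ ^ 2))) * J D₁ D₂ ξ z := by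
          rw [hS]
          simp only [J, map_add, map_sub, map_neg, Derivation.leibniz, Derivation.leibniz_pow,
            smul_eq_mul, nsmul_eq_mul, Derivation.map_one_eq_zero]
          have a1 : D₁ (2 : L) = 0 := D₁.map_natCast 2
          have a2 : D₂ (2 : L) = 0 := D₂.map_natCast 2
          have b1 : D₁ (3 : L) = 0 := D₁.map_natCast 3
          have b2 : D₂ (3 : L) = 0 := D₂.map_natCast 3
          have c1 : D₁ (4 : L) = 0 := D₁.map_natCast 4
          have c2 : D₂ (4 : L) = 0 := D₂.map_natCast 4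
          rw [a1, a2, b1, b2, c1, c2]
          push_cast
          ring
        rw [J_add_right, J_pow_right, e4, eJ3, hT]
        push_cast
        ring
      · intro hG
        have hW : v (ξ * (6 * κ * (z + 2) + ξ * (-8 * (1 + z) * z ^ 2
            + (-3 * z - 4 * z ^ 2 * ξ ^ 2) ^ 2))) < 1 := by
          refine small_mul v _ _ hξ ?_
          exact (6 * κ' * (z' + 2) + ξ' * (-8 * (1 + z') * z' ^ 2
            + (-3 * z' - 4 * z' ^ 2 * ξ' ^ 2) ^ 2)).2
        have e5 : κ ^ 2 = 12 + ((κ ^ 2 + S) - (ξ * (6 * κ * (z + 2) + ξ * (-8 * (1 + z) * z ^ 2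
            + (-3 * z - 4 * z ^ 2 * ξ ^ 2) ^ 2)))) := by
          have : κ * ξ = 1 - z := by rw [hzκ]; ring
          rw [hS]
          linear_combination (6 * (z + 2)) * this
        have h12 : v (12 : L) = 1 := by
          have := hn 12 (by norm_num)
          rwa [map_ofNat] at this
        have h2' : v (2 : L) = 1 := by
          have := hn 2 (by norm_num)
          rwa [map_ofNat] at this
        have hκ2 : v (κ ^ 2) = 1 := by
          rw [e5]
          exact unit_add v _ _ h12 (lt_of_le_of_lt (Valuation.map_sub _ _ _) (max_lt hG hW))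
        have hκ1 : v κ = 1 := v_eq_one_of_sq v κ hκ hκ2
        rw [hT]
        refine unit_add v _ _ (by rw [map_mul, h2', hκ1, one_mul]) (small_mul v _ _ (by rwa [Valuation.map_neg]) ?_)
        exact (2 * (-3 * z' - 4 * z' ^ 2 * ξ' ^ 2)
        + 2 * (1 + z') * (-3 - 8 * z' * ξ' ^ 2) + ξ' ^ 2 * (2 * (-3 * z' - 4 * z' ^ 2 * ξ' ^ 2)
          * (-3 - 8 * z' * ξ' ^ 2))).2

omit [Algebra ℂ L] in
lemma v_sub_lt (v : Valuation L Γ) (a b : L) (ha : v a < 1) (hb : v b < 1) : v (a - b) < 1 :=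
  lt_of_le_of_lt (Valuation.map_sub _ _ _) (max_lt ha hb)

/-- the chart at the B-point -/
lemma chartB (D₁ D₂ : Derivation ℂ L L) (v : Valuation L Γ)
    (hn : ∀ c : ℂ, c ≠ 0 → v (algebraMap ℂ L c) = 1)
    (h0 : ∀ a b, v a ≤ 1 → v b ≤ 1 → v (J D₁ D₂ a b) ≤ 1)
    (hL : ∀ a b, v a < 1 → v (J D₁ D₂ a b) ≤ v b)
    (ζ θ : L) (hζ : v ζ < 1) (hθ : v θ ≤ 1) :
    v (J D₁ D₂ ζ θ) ^ 2 ≤
      v (((1 - 4 * θ) + ζ ^ 2 * θ * (1 + θ)) ^ 2 - 4 * ζ ^ 2 * θ) := by
  have h4 : v (4 : L) = 1 := by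
    have := hn 4 (by norm_num)
    rwa [map_ofNat] at this
  have h2' : v (2 : L) = 1 := by
    have := hn 2 (by norm_num)
    rwa [map_ofNat] at this
  have hq1 : v ((4 : L)⁻¹) = 1 := by rw [map_inv₀, h4, inv_one]
  have h40 : (4 : L) ≠ 0 := by
    intro h
    rw [h, map_zero] at h4
    exact zero_ne_one h4
  let O := v.integer
  let ζ' : O := ⟨ζ, hζ.le⟩
  let θ' : O := ⟨θ, hθ⟩
  let q' : O := ⟨(4 : L)⁻¹, hq1.le⟩
  obtain ⟨φ, hφdef⟩ : ∃ φ, φ = 1 - 4 * θ := ⟨_, rfl⟩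
  have hφ : v φ ≤ 1 := by
    rw [hφdef]
    exact (1 - 4 * θ').2
  obtain ⟨B, hB⟩ : ∃ B, B = 2 * φ * (θ * (1 + θ)) + ζ ^ 2 * (θ * (1 + θ)) ^ 2 - 4 * θ := ⟨_, rfl⟩
  let φ' : O := ⟨φ, hφ⟩
  have hB1 : v B ≤ 1 := by
    rw [hB]
    exact (2 * φ' * (θ' * (1 + θ')) + ζ' ^ 2 * (θ' * (1 + θ')) ^ 2 - 4 * θ').2
  have eR : ((1 - 4 * θ) + ζ ^ 2 * θ * (1 + θ)) ^ 2 - 4 * ζ ^ 2 * θ = φ ^ 2 + ζ ^ 2 * B := by
    rw [hB, hφdef]; ring
  have hθφ : θ = (4 : L)⁻¹ * (1 - φ) := by rw [hφdef]; field_simp; ring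
  have eJ : J D₁ D₂ ζ φ = - (4 * J D₁ D₂ ζ θ) := by
    rw [hφdef, J_sub_right, J_one_right, J_mul_right, J_ofNat_right]; ring
  have eJv : v (J D₁ D₂ ζ θ) = v (J D₁ D₂ ζ φ) := by
    rw [eJ, Valuation.map_neg, map_mul, h4, one_mul]
  rw [eR, eJv]
  rcases hφ.lt_or_eq with hφ1 | hφ1
  swap
  · have e : φ ^ 2 + ζ ^ 2 * B = φ ^ 2 + ζ * (ζ * B) := by ring
    let B' : O := ⟨B, hB1⟩
    have hB2 : v (ζ * B) ≤ 1 := (ζ' * B').2
    rw [e, unit_add v _ _ (by rw [map_pow, hφ1, one_pow]) (small_mul v _ _ hζ hB2)]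
    exact pow_le_one' (h0 _ _ hζ.le hφ) 2
  rcases lt_or_ge (v ζ) (v φ) with h1 | h1
  · rw [dom_sq v _ _ _ h1 hB1]
    exact pow_le_pow_left' (hL _ _ hζ) 2
  · rcases eq_or_ne ζ 0 with hζ0 | hζ0
    · subst hζ0
      have : φ = 0 := by simpa using h1
      rw [this]
      simp [J]
    have hψ : v (φ / ζ) ≤ 1 := by
      rw [map_div₀]
      exact div_le_one_of_le₀ h1 zero_le
    obtain ⟨ψ, hψdef⟩ : ∃ ψ, ψ = φ / ζ := ⟨_, rfl⟩
    rw [← hψdef] at hψ
    have hφψ : φ = ζ * ψ := by rw [hψdef]; field_simp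
    let ψ' : O := ⟨ψ, hψ⟩
    have e3 : φ ^ 2 + ζ ^ 2 * B = ζ ^ 2 * (ψ ^ 2 + B) := by rw [hφψ]; ring
    have eJ3 : J D₁ D₂ ζ φ = ζ * J D₁ D₂ ζ ψ := by
      rw [hφψ, J_mul_right, J_self]; ring
    have e4 : J D₁ D₂ ζ θ = - ((4 : L)⁻¹ * (ζ * J D₁ D₂ ζ ψ)) := by
      rw [← eJ3, eJ]; field_simp
    rw [e3, eJ3, map_mul, map_mul, mul_pow, map_pow v ζ]
    refine mul_le_mul' le_rfl ?_
    have hG' : ψ ^ 2 + B = (ψ + ζ * (θ * (1 + θ))) ^ 2 - 4 * θ := by
      rw [hB, hφψ]; ring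
    obtain ⟨T, hT⟩ : ∃ T, T = 2 * ψ + ζ * (2 * (θ * (1 + θ)) -
      2 * (ψ + ζ * (θ * (1 + θ))) * (4 : L)⁻¹ * ζ * (1 + 2 * θ) + 1) := ⟨_, rfl⟩
    refine smooth_step D₁ D₂ v h0 hL ζ ψ (ψ ^ 2 + B) T hζ hψ ?_ ?_
    · have e5 : J D₁ D₂ ζ (ζ * (θ * (1 + θ))) = ζ * ((1 + 2 * θ) * J D₁ D₂ ζ θ) := by
        rw [J_mul_right, J_mul_right, J_self, J_add_right, J_one_right]; ring
      rw [hG', J_sub_right, J_pow_right, J_add_right, e5, J_mul_right, J_ofNat_right, e4, hT]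
      push_cast
      field_simp
      ring
    · intro hG
      have hW : v (ζ * (2 * ψ * (θ * (1 + θ)) + ζ * (θ * (1 + θ)) ^ 2 + ψ)) < 1 := by
        refine small_mul v _ _ hζ ?_
        exact (2 * ψ' * (θ' * (1 + θ')) + ζ' * (θ' * (1 + θ')) ^ 2 + ψ').2
      have e6 : ψ ^ 2 = 1 + ((ψ ^ 2 + B) - ζ * (2 * ψ * (θ * (1 + θ)) + ζ * (θ * (1 + θ)) ^ 2 + ψ))
          := by
        have : 4 * θ = 1 - ζ * ψ := by rw [← hφψ, hφdef]; ring
        rw [hB, hφψ]
        linear_combination this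
      have hψ2 : v (ψ ^ 2) = 1 := by
        rw [e6]
        exact unit_add v _ _ (map_one v) (v_sub_lt v _ _ hG hW)
      have hψ1 : v ψ = 1 := v_eq_one_of_sq v ψ hψ hψ2
      rw [hT]
      refine unit_add v _ _ (by rw [map_mul, h2', hψ1, one_mul]) (small_mul v _ _ hζ ?_)
      exact (2 * (θ' * (1 + θ')) -
      2 * (ψ' + ζ' * (θ' * (1 + θ'))) * q' * ζ' * (1 + 2 * θ') + 1).2

/-- the chart at the C-point -/
lemma chartC (D₁ D₂ : Derivation ℂ L L) (v : Valuation L Γ)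
    (hn : ∀ c : ℂ, c ≠ 0 → v (algebraMap ℂ L c) = 1)
    (h0 : ∀ a b, v a ≤ 1 → v b ≤ 1 → v (J D₁ D₂ a b) ≤ 1)
    (hL : ∀ a b, v a < 1 → v (J D₁ D₂ a b) ≤ v b)
    (ζ ω : L) (hζ : v ζ < 1) (hω : v ω ≤ 1) :
    v (J D₁ D₂ ζ ω) ^ 2 ≤
      v (((1 + 4 * ω) + ω * (ω - 1) * ζ ^ 2) ^ 2 - 16 - 4 * (ω - 1) * ζ ^ 2) := by
  let O := v.integer
  let ζ' : O := ⟨ζ, hζ.le⟩
  let ω' : O := ⟨ω, hω⟩
  have h16 : v (16 : L) = 1 := by
    have := hn 16 (by norm_num)
    rwa [map_ofNat] at this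
  have h8 : v (8 : L) = 1 := by
    have := hn 8 (by norm_num)
    rwa [map_ofNat] at this
  obtain ⟨T, hT⟩ : ∃ T, T = 8 * (1 + 4 * ω) + ζ * (ζ * (8 * ω * (ω - 1) + 2 * ((1 + 4 * ω) +
    ω * (ω - 1) * ζ ^ 2) * (2 * ω - 1) - 4)) := ⟨_, rfl⟩
  refine smooth_step D₁ D₂ v h0 hL ζ ω _ T hζ hω ?_ ?_
  · have a1 : D₁ (4 : L) = 0 := D₁.map_natCast 4
    have a2 : D₂ (4 : L) = 0 := D₂.map_natCast 4
    have b1 : D₁ (16 : L) = 0 := D₁.map_natCast 16
    have b2 : D₂ (16 : L) = 0 := D₂.map_natCast 16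
    rw [hT]
    simp only [J, map_add, map_sub, Derivation.leibniz, Derivation.leibniz_pow,
            smul_eq_mul, nsmul_eq_mul, Derivation.map_one_eq_zero, a1, a2, b1, b2]
    push_cast
    ring
  · intro hG
    have hW : v (ζ * (ζ * (2 * (1 + 4 * ω) * (ω * (ω - 1)) + (ω * (ω - 1)) ^ 2 * ζ ^ 2
        - 4 * (ω - 1)))) < 1 := by
      refine small_mul v _ _ hζ ?_
      exact (ζ' * (2 * (1 + 4 * ω') * (ω' * (ω' - 1)) + (ω' * (ω' - 1)) ^ 2 * ζ' ^ 2
        - 4 * (ω' - 1))).2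
    have e6 : (1 + 4 * ω) ^ 2 = 16 + ((((1 + 4 * ω) + ω * (ω - 1) * ζ ^ 2) ^ 2 - 16
        - 4 * (ω - 1) * ζ ^ 2) - (ζ * (ζ * (2 * (1 + 4 * ω) * (ω * (ω - 1))
        + (ω * (ω - 1)) ^ 2 * ζ ^ 2 - 4 * (ω - 1))))) := by ring
    have h2 : v ((1 + 4 * ω) ^ 2) = 1 := by
      rw [e6]
      exact unit_add v _ _ h16 (v_sub_lt v _ _ hG hW)
    have h1 : v (1 + 4 * ω) = 1 := v_eq_one_of_sq v _ (1 + 4 * ω' : O).2 h2
    rw [hT]
    refine unit_add v _ _ (by rw [map_mul, h8, h1, one_mul]) (small_mul v _ _ hζ ?_)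
    exact (ζ' * (8 * ω' * (ω' - 1) + 2 * ((1 + 4 * ω') +
    ω' * (ω' - 1) * ζ' ^ 2) * (2 * ω' - 1) - 4)).2

/-- The local bound: the pluri-form has no pole at a place whose centre is at infinity. -/
theorem local_bound (D₁ D₂ : Derivation ℂ L L) (v : Valuation L Γ)
    (hn : ∀ c : ℂ, c ≠ 0 → v (algebraMap ℂ L c) = 1)
    (h0 : ∀ a b, v a ≤ 1 → v b ≤ 1 → v (J D₁ D₂ a b) ≤ 1)
    (hL : ∀ a b, v a < 1 → v (J D₁ D₂ a b) ≤ v b)
    (x y : L) (hxy : v x ≤ 1 → v y ≤ 1 → 1 ≤ v (P x y)) :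
    v (J D₁ D₂ x y) ^ 2 ≤ v (P x y) := by
  have h4 : v (4 : L) = 1 := by
    have := hn 4 (by norm_num)
    rwa [map_ofNat] at this
  have h16 : v (16 : L) = 1 := by
    have := hn 16 (by norm_num)
    rwa [map_ofNat] at this
  by_cases hx1 : v x ≤ 1 ∧ v y ≤ 1
  · exact (pow_le_one' (h0 _ _ hx1.1 hx1.2) 2).trans (hxy hx1.1 hx1.2)
  rcases le_or_gt (v (x * y - 1)) 1 with hθ | hθ
  · -- θ is integral
    rcases lt_or_ge 1 (v x) with hx | hx
    · have hx0 : x ≠ 0 := by rintro rfl; simp at hx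
      have hξ : v x⁻¹ < 1 := by rw [map_inv₀]; exact inv_lt_one_of_one_lt₀ hx
      have eJ : J D₁ D₂ x y = - (x * J D₁ D₂ x⁻¹ (x * y - 1)) := by
        rw [J_inv_left, J_sub_right, J_one_right, J_mul_right, J_self]
        field_simp
        ring
      have eP : P x y = x ^ 2 * ((((x * y - 1)) + x⁻¹ ^ 2 * (1 + (x * y - 1)) *
          (1 - 4 * (x * y - 1))) ^ 2 - 4 * x⁻¹ ^ 2 * (x * y - 1)) := by
        rw [P]
        field_simp
        ring
      rw [eJ, eP, Valuation.map_neg, map_mul, map_mul, mul_pow, map_pow v x]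
      exact mul_le_mul' le_rfl (chartA D₁ D₂ v hn h0 hL _ _ hξ hθ)
    · have hy : 1 < v y := by
        by_contra h
        exact hx1 ⟨hx, not_lt.1 h⟩
      have hy0 : y ≠ 0 := by rintro rfl; simp at hy
      have hζ : v y⁻¹ < 1 := by rw [map_inv₀]; exact inv_lt_one_of_one_lt₀ hy
      have eJ : J D₁ D₂ x y = y * J D₁ D₂ y⁻¹ (x * y - 1) := by
        rw [J_inv_left, J_sub_right, J_one_right, J_mul_right, J_self, J_swap D₁ D₂ y x]
        field_simp
        ring
      have eP : P x y = y ^ 2 * (((1 - 4 * (x * y - 1)) + y⁻¹ ^ 2 * (x * y - 1) *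
          (1 + (x * y - 1))) ^ 2 - 4 * y⁻¹ ^ 2 * (x * y - 1)) := by
        rw [P]
        field_simp
        ring
      rw [eJ, eP, map_mul, map_mul, mul_pow, map_pow v y]
      exact mul_le_mul' le_rfl (chartB D₁ D₂ v hn h0 hL _ _ hζ hθ)
  · -- θ has a pole
    have hxyv : 1 < v (x * y) := by
      by_contra h
      have : v (x * y - 1) ≤ 1 :=
        (Valuation.map_sub _ _ _).trans (max_le (not_lt.1 h) (map_one v).le)
      exact absurd this (not_le.2 hθ)
    have hx0 : x ≠ 0 := by rintro rfl; simp at hxyv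
    have hy0 : y ≠ 0 := by rintro rfl; simp at hxyv
    have hε : v (x * y)⁻¹ < 1 := by rw [map_inv₀]; exact inv_lt_one_of_one_lt₀ hxyv
    let O := v.integer
    let ε' : O := ⟨(x * y)⁻¹, hε.le⟩
    rcases le_or_gt (v y) (v x) with hc | hc
    · have hx : 1 < v x := by
        by_contra h
        rw [map_mul] at hxyv
        exact absurd (mul_le_one' (not_lt.1 h) (hc.trans (not_lt.1 h))) (not_le.2 hxyv)
      have hξ : v x⁻¹ < 1 := by rw [map_inv₀]; exact inv_lt_one_of_one_lt₀ hx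
      let ξ' : O := ⟨x⁻¹, hξ.le⟩
      have hr : v (y / x) ≤ 1 := by
        rw [map_div₀]
        exact div_le_one_of_le₀ hc zero_le
      let r' : O := ⟨y / x, hr⟩
      have hr4 : v (1 - 4 * (y / x)) ≤ 1 := (1 - 4 * r').2
      rcases hr4.lt_or_eq with hr5 | hr5
      swap
      · -- generic point at infinity
        have eP : P x y = (x ^ 2 * y) ^ 2 * ((1 - 4 * (y / x)) ^ 2 + ((x * y)⁻¹ * (
            (-2 + (x * y)⁻¹) * (1 - 4 * (y / x)) ^ 2 - 4 * (1 - (x * y)⁻¹) * x⁻¹ ^ 2)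
            + x⁻¹ * (x⁻¹ * (2 * (1 - (x * y)⁻¹) * (1 - 4 * (y / x)) + x⁻¹ ^ 2)))) := by
          rw [P]
          field_simp
          ring
        have hs : v ((x * y)⁻¹ * (
            (-2 + (x * y)⁻¹) * (1 - 4 * (y / x)) ^ 2 - 4 * (1 - (x * y)⁻¹) * x⁻¹ ^ 2)
            + x⁻¹ * (x⁻¹ * (2 * (1 - (x * y)⁻¹) * (1 - 4 * (y / x)) + x⁻¹ ^ 2))) < 1 := by
          refine lt_of_le_of_lt (Valuation.map_add _ _ _) (max_lt (small_mul v _ _ hε ?_)
            (small_mul v _ _ hξ ?_))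
          · exact ((-2 + ε') * (1 - 4 * r') ^ 2 - 4 * (1 - ε') * ξ' ^ 2).2
          · exact (ξ' * (2 * (1 - ε') * (1 - 4 * r') + ξ' ^ 2)).2
        have eJ : J D₁ D₂ x y = - (x ^ 2 * J D₁ D₂ x⁻¹ y) := by
          rw [J_inv_left]; field_simp
        rw [eP, map_mul, unit_add v _ _ (by rw [map_pow, hr5, one_pow]) hs, mul_one, map_pow,
          eJ, Valuation.map_neg, map_mul, map_mul]
        exact pow_le_pow_left' (mul_le_mul' le_rfl (hL _ _ hξ)) 2
      · -- the C point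
        have hr1 : v (y / x) = 1 := by
          have e : y / x = (4 : L)⁻¹ * (1 - (1 - 4 * (y / x))) := by
            have h40 : (4 : L) ≠ 0 := by
              intro h
              rw [h, map_zero] at h4
              exact zero_ne_one h4
            field_simp
            ring
          rw [e, map_mul, map_inv₀, h4, inv_one, one_mul, sub_eq_add_neg]
          exact unit_add v _ _ (map_one v) (by rwa [Valuation.map_neg])
        have hvxy : v y = v x := by
          rw [map_div₀, div_eq_one_iff_eq ((Valuation.ne_zero_iff v).2 hx0)] at hr1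
          exact hr1
        have hy : 1 < v y := by rw [hvxy]; exact hx
        have hζ : v y⁻¹ < 1 := by rw [map_inv₀]; exact inv_lt_one_of_one_lt₀ hy
        let ζ' : O := ⟨y⁻¹, hζ.le⟩
        obtain ⟨w, hw⟩ : ∃ w, w = x - 4 * y := ⟨_, rfl⟩
        have hxw : x = 4 * y + w := by rw [hw]; ring
        have eJw : J D₁ D₂ x y = y ^ 2 * J D₁ D₂ y⁻¹ w := by
          rw [J_inv_left, hw, J_sub_right, J_mul_right, J_ofNat_right, J_self,
            J_swap D₁ D₂ y x]
          field_simp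
          ring
        rcases le_or_gt (v (w * y)) 1 with hω | hω
        · have eJ : J D₁ D₂ x y = y * J D₁ D₂ y⁻¹ (w * y) := by
            rw [eJw, J_mul_right D₁ D₂ y⁻¹ w y, J_inv_left D₁ D₂ y y, J_self]
            ring
          have eP : P x y = y ^ 2 * (((1 + 4 * (w * y)) + (w * y) * ((w * y) - 1) * y⁻¹ ^ 2) ^ 2
              - 16 - 4 * ((w * y) - 1) * y⁻¹ ^ 2) := by
            rw [P, hxw]
            field_simp
            ring
          rw [eJ, eP, map_mul, map_mul, mul_pow, map_pow v y]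
          exact mul_le_mul' le_rfl (chartC D₁ D₂ v hn h0 hL _ _ hζ hω)
        · have hw0 : w ≠ 0 := by rintro rfl; simp at hω
          have hωi : v (w * y)⁻¹ < 1 := by rw [map_inv₀]; exact inv_lt_one_of_one_lt₀ hω
          let o' : O := ⟨(w * y)⁻¹, hωi.le⟩
          have hs1 : v (x / y) = 1 := by
            rw [map_div₀, hvxy, div_self ((Valuation.ne_zero_iff v).2 hx0)]
          let s' : O := ⟨x / y, hs1.le⟩
          have eP : P x y = (y ^ 2 * w) ^ 2 * ((x / y) ^ 2 + (y⁻¹ * (y⁻¹ * (-2 * (x / y) +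
              y⁻¹ ^ 2)) + (w * y)⁻¹ * (2 * (x / y - y⁻¹ ^ 2) + (w * y)⁻¹
              - 4 * (x / y - y⁻¹ ^ 2) * (w * y)⁻¹))) := by
            rw [P, hxw]
            field_simp
            ring
          have hs : v (y⁻¹ * (y⁻¹ * (-2 * (x / y) +
              y⁻¹ ^ 2)) + (w * y)⁻¹ * (2 * (x / y - y⁻¹ ^ 2) + (w * y)⁻¹
              - 4 * (x / y - y⁻¹ ^ 2) * (w * y)⁻¹)) < 1 := by
            refine lt_of_le_of_lt (Valuation.map_add _ _ _) (max_lt (small_mul v _ _ hζ ?_)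
              (small_mul v _ _ hωi ?_))
            · exact (ζ' * (-2 * s' + ζ' ^ 2)).2
            · exact (2 * (s' - ζ' ^ 2) + o' - 4 * (s' - ζ' ^ 2) * o').2
          rw [eP, map_mul, unit_add v _ _ (by rw [map_pow, hs1, one_pow]) hs, mul_one, map_pow,
            eJw, map_mul, map_mul]
          exact pow_le_pow_left' (mul_le_mul' le_rfl (hL _ _ hζ)) 2
    · have hy : 1 < v y := by
        by_contra h
        rw [map_mul] at hxyv
        exact absurd (mul_le_one' (hc.le.trans (not_lt.1 h)) (not_lt.1 h)) (not_le.2 hxyv)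
      have hζ : v y⁻¹ < 1 := by rw [map_inv₀]; exact inv_lt_one_of_one_lt₀ hy
      let ζ' : O := ⟨y⁻¹, hζ.le⟩
      have hr : v (x / y) < 1 := by
        rw [map_div₀]
        exact (div_lt_one₀ (by simpa [zero_lt_iff] using hy0)).2 hc
      let r' : O := ⟨x / y, hr.le⟩
      have eP : P x y = (x * y ^ 2) ^ 2 * (16 + (x / y * (x / y - 8) + (x * y)⁻¹ * (
          (-2 + (x * y)⁻¹) * (x / y - 4) ^ 2 + 2 * (1 - (x * y)⁻¹) * (x / y - 4) + (x * y)⁻¹
          - 4 * (1 - (x * y)⁻¹) * y⁻¹ ^ 2))) := by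
        rw [P]
        field_simp
        ring
      have hs : v (x / y * (x / y - 8) + (x * y)⁻¹ * (
          (-2 + (x * y)⁻¹) * (x / y - 4) ^ 2 + 2 * (1 - (x * y)⁻¹) * (x / y - 4) + (x * y)⁻¹
          - 4 * (1 - (x * y)⁻¹) * y⁻¹ ^ 2)) < 1 := by
        refine lt_of_le_of_lt (Valuation.map_add _ _ _) (max_lt (small_mul v _ _ hr ?_)
            (small_mul v _ _ hε ?_))
        · exact (r' - 8).2
        · exact ((-2 + ε') * (r' - 4) ^ 2 + 2 * (1 - ε') * (r' - 4) + ε'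
            - 4 * (1 - ε') * ζ' ^ 2).2
      have eJ : J D₁ D₂ x y = y ^ 2 * J D₁ D₂ y⁻¹ x := by
        rw [J_inv_left, J_swap D₁ D₂ y x]; field_simp
      rw [eP, map_mul, unit_add v _ _ h16 hs, mul_one, map_pow, eJ, map_mul, map_mul, map_pow]
      have := hL _ x hζ
      calc (v y ^ 2 * v (J D₁ D₂ y⁻¹ x)) ^ 2 ≤ (v y ^ 2 * v x) ^ 2 :=
            pow_le_pow_left' (mul_le_mul' le_rfl this) 2
        _ = (v x * v y ^ 2) ^ 2 := by rw [mul_comm]

end Local
section Places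

open Polynomial

variable {K F : Type*} [Field K] [Field F] [Algebra K F] [Algebra ℂ F]

lemma D1_aeval (g : F) (D₁ : Derivation ℂ F F)
    (hK1 : ∀ a : K, ∃ b : K, D₁ (algebraMap K F a) = algebraMap K F b) (h1 : D₁ g = 0)
    (f : K[X]) : ∃ f' : K[X], D₁ (aeval g f) = aeval g f' := by
  induction f using Polynomial.induction_on' with
  | add p q hp hq =>
    obtain ⟨p', hp'⟩ := hp
    obtain ⟨q', hq'⟩ := hq
    exact ⟨p' + q', by rw [map_add, map_add, hp', hq', map_add]⟩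
  | monomial n a =>
    obtain ⟨b, hb⟩ := hK1 a
    refine ⟨monomial n b, ?_⟩
    rw [aeval_monomial, aeval_monomial, Derivation.leibniz, Derivation.leibniz_pow, h1, hb]
    simp [mul_comm]

lemma D2_aeval (g : F) (D₂ : Derivation ℂ F F)
    (hK2 : ∀ a : K, D₂ (algebraMap K F a) = 0) (h2 : D₂ g = 1)
    (f : K[X]) : D₂ (aeval g f) = aeval g (derivative f) := by
  induction f using Polynomial.induction_on' with
  | add p q hp hq => rw [map_add, map_add, hp, hq, map_add, map_add]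
  | monomial n a =>
    rw [aeval_monomial, Derivation.leibniz, Derivation.leibniz_pow, h2, hK2,
      derivative_monomial, aeval_monomial]
    simp
    ring

theorem exists_place (g : F) (hg : Transcendental K g)
    (htop : IntermediateField.adjoin K {g} = ⊤) (D₁ D₂ : Derivation ℂ F F)
    (hK1 : ∀ a : K, ∃ b : K, D₁ (algebraMap K F a) = algebraMap K F b)
    (hK2 : ∀ a : K, D₂ (algebraMap K F a) = 0) (h1 : D₁ g = 0) (h2 : D₂ g = 1)
    (π : K[X]) (hπ : Irreducible π) :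
    ∃ v : Valuation F (WithZero (Multiplicative ℤ)), (∀ f : K[X], v (aeval g f) ≤ 1) ∧
      (∀ f : K[X], v (aeval g f) < 1 ↔ π ∣ f) ∧
      (∀ a b, v a ≤ 1 → v b ≤ 1 → v (J D₁ D₂ a b) ≤ 1) ∧
      (∀ a b, v a < 1 → v (J D₁ D₂ a b) ≤ v b) := by
  let _ : Algebra K[X] F := (aeval g : K[X] →ₐ[K] F).toRingHom.toAlgebra
  have hmap : ∀ f : K[X], algebraMap K[X] F f = aeval g f := fun f => rfl
  have hinj : Function.Injective (algebraMap K[X] F) := by
    have := transcendental_iff_injective.1 hg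
    exact this
  have : FaithfulSMul K[X] F := (faithfulSMul_iff_algebraMap_injective K[X] F).2 hinj
  have : IsFractionRing K[X] F := by
    refine IsFractionRing.of_field K[X] F fun z => ?_
    have hz : z ∈ IntermediateField.adjoin K {g} := by rw [htop]; trivial
    obtain ⟨r, s, hrs⟩ := (IntermediateField.mem_adjoin_simple_iff K z).1 hz
    exact ⟨r, s, by rw [hmap, hmap]; exact hrs⟩
  have hprime : (Ideal.span {π} : Ideal K[X]).IsPrime :=
    (Ideal.span_singleton_prime hπ.ne_zero).2 hπ.prime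
  let w : IsDedekindDomain.HeightOneSpectrum K[X] :=
    ⟨Ideal.span {π}, hprime, by simpa using hπ.ne_zero⟩
  let v := w.valuation F
  have hv1 : ∀ f : K[X], v (aeval g f) ≤ 1 := fun f => w.valuation_le_one f
  have hv2 : ∀ f : K[X], v (aeval g f) < 1 ↔ π ∣ f := fun f => by
    have := w.valuation_lt_one_iff_mem (K := F) f
    rw [← hmap]
    refine this.trans ?_
    exact Ideal.mem_span_singleton
  have hv3 : ∀ f : K[X], ¬ π ∣ f → v (aeval g f) = 1 := fun f hf =>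
    le_antisymm (hv1 f) (not_lt.1 fun h => hf ((hv2 f).1 h))
  have hred : ∀ a : F, v a ≤ 1 → ∃ r s : K[X], ¬ π ∣ s ∧ a = aeval g r / aeval g s := by
    intro a ha
    refine ⟨IsFractionRing.num K[X] a, IsFractionRing.den K[X] a, ?_, ?_⟩
    · intro hd
      have hn : ¬ π ∣ IsFractionRing.num K[X] a := fun hn =>
        hπ.not_isUnit (IsFractionRing.num_den_reduced K[X] a hn hd)
      have e := IsFractionRing.mk'_num_den' K[X] a
      rw [← e, map_div₀, hmap, hmap, hv3 _ hn] at ha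
      have hd' := (hv2 _).2 hd
      have hd0 : v (aeval g (IsFractionRing.den K[X] a : K[X])) ≠ 0 := by
        rw [Valuation.ne_zero_iff, ← hmap]
        exact (map_ne_zero_iff _ hinj).2 (nonZeroDivisors.coe_ne_zero _)
      rw [div_le_one₀ (zero_lt_iff.2 hd0)] at ha
      exact absurd hd' (not_lt.2 ha)
    · exact (IsFractionRing.mk'_num_den' K[X] a).symm
  refine ⟨v, hv1, hv2, ?_, ?_⟩
  · intro a b ha hb
    have key : ∀ (D : Derivation ℂ F F), (∀ f : K[X], ∃ f' : K[X], D (aeval g f) = aeval g f') →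
        ∀ c, v c ≤ 1 → v (D c) ≤ 1 := by
      intro D hD c hc
      obtain ⟨r, s, hs, rfl⟩ := hred c hc
      obtain ⟨r', hr'⟩ := hD r
      obtain ⟨s', hs'⟩ := hD s
      rw [Derivation.leibniz_div, hr', hs', smul_eq_mul, smul_eq_mul, smul_eq_mul, map_mul,
        map_pow, map_inv₀, hv3 s hs, inv_one, one_pow, one_mul, ← map_mul, ← map_mul, ← map_sub]
      exact hv1 _
    have k1 := key D₁ (D1_aeval g D₁ hK1 h1)
    have k2 := key D₂ (fun f => ⟨_, D2_aeval g D₂ hK2 h2 f⟩)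
    rw [J]
    refine (Valuation.map_sub _ _ _).trans (max_le ?_ ?_)
    · rw [map_mul]; exact mul_le_one' (k1 a ha) (k2 b hb)
    · rw [map_mul]; exact mul_le_one' (k2 a ha) (k1 b hb)
  · have hJ0 : ∀ a b, v a ≤ 1 → v b ≤ 1 → v (J D₁ D₂ a b) ≤ 1 := by
      intro a b ha hb
      have key : ∀ (D : Derivation ℂ F F), (∀ f : K[X], ∃ f' : K[X], D (aeval g f) = aeval g f') →
          ∀ c, v c ≤ 1 → v (D c) ≤ 1 := by
        intro D hD c hc
        obtain ⟨r, s, hs, rfl⟩ := hred c hc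
        obtain ⟨r', hr'⟩ := hD r
        obtain ⟨s', hs'⟩ := hD s
        rw [Derivation.leibniz_div, hr', hs', smul_eq_mul, smul_eq_mul, smul_eq_mul, map_mul,
          map_pow, map_inv₀, hv3 s hs, inv_one, one_pow, one_mul, ← map_mul, ← map_mul, ← map_sub]
        exact hv1 _
      have k1 := key D₁ (D1_aeval g D₁ hK1 h1)
      have k2 := key D₂ (fun f => ⟨_, D2_aeval g D₂ hK2 h2 f⟩)
      rw [J]
      refine (Valuation.map_sub _ _ _).trans (max_le ?_ ?_)
      · rw [map_mul]; exact mul_le_one' (k1 a ha) (k2 b hb)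
      · rw [map_mul]; exact mul_le_one' (k2 a ha) (k1 b hb)
    intro a b ha
    rcases eq_or_ne b 0 with rfl | hb0
    · simp [J]
    obtain ⟨r, s, hs, hrs⟩ := hred a ha.le
    have hr : π ∣ r := by
      rw [← hv2]
      rw [hrs, map_div₀, hv3 s hs, div_one] at ha
      exact ha
    obtain ⟨r0, rfl⟩ := hr
    obtain ⟨a0, ha0⟩ : ∃ a0, a0 = aeval g r0 / aeval g s := ⟨_, rfl⟩
    have ha0v : v a0 ≤ 1 := by
      rw [ha0, map_div₀, hv3 s hs, div_one]; exact hv1 _
    have haa : a = aeval g π * a0 := by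
      rw [hrs, ha0, map_mul]; ring
    -- polynomials
    have hpol : ∀ f : K[X], f ≠ 0 → v (J D₁ D₂ a (aeval g f)) ≤ v (aeval g f) := by
      intro f hf
      obtain ⟨n, f0, hf0, rfl⟩ := WfDvdMonoid.max_power_factor hf hπ
      have e : J D₁ D₂ a (aeval g (π ^ n * f0)) = (aeval g π) ^ n * (
          aeval g π * J D₁ D₂ a0 (aeval g f0) + n * (aeval g f0 * J D₁ D₂ a0 (aeval g π))
          + a0 * J D₁ D₂ (aeval g π) (aeval g f0)) := by
        rw [haa, map_mul, map_pow, J_mul_left, J_mul_right, J_mul_right, J_pow_right, J_pow_right,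
          J_self]
        rcases n with _ | n
        · simp
        · push_cast
          ring
      have hE : v (aeval g π * J D₁ D₂ a0 (aeval g f0) + n * (aeval g f0 * J D₁ D₂ a0 (aeval g π))
          + a0 * J D₁ D₂ (aeval g π) (aeval g f0)) ≤ 1 := by
        have x1 : v (aeval g π) ≤ 1 := hv1 _
        have x2 : v (aeval g f0) ≤ 1 := hv1 _
        have x3 := hJ0 a0 (aeval g f0) ha0v (hv1 _)
        have x4 := hJ0 a0 (aeval g π) ha0v (hv1 _)
        have x5 := hJ0 (aeval g π) (aeval g f0) (hv1 _) (hv1 _)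
        let O := v.integer
        let y1 : O := ⟨_, x1⟩
        let y2 : O := ⟨_, x2⟩
        let y3 : O := ⟨_, x3⟩
        let y4 : O := ⟨_, x4⟩
        let y5 : O := ⟨_, x5⟩
        let y0 : O := ⟨_, ha0v⟩
        exact (y1 * y3 + n * (y2 * y4) + y0 * y5).2
      have e' : v (aeval g (π ^ n * f0)) = v (aeval g π) ^ n := by
        rw [map_mul (aeval g), map_mul v, hv3 f0 hf0, mul_one, map_pow (aeval g), map_pow v]
      rw [e, e', map_mul v, map_pow v]
      calc v (aeval g π) ^ n * _ ≤ v (aeval g π) ^ n * 1 := mul_le_mul' le_rfl hE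
        _ = _ := mul_one _
    -- general element
    have hbn := IsFractionRing.mk'_num_den' K[X] b
    obtain ⟨p, hp⟩ : ∃ p, p = IsFractionRing.num K[X] b := ⟨_, rfl⟩
    obtain ⟨q, hq⟩ : ∃ q, q = (IsFractionRing.den K[X] b : K[X]) := ⟨_, rfl⟩
    rw [← hp, ← hq, hmap, hmap] at hbn
    have hq0 : q ≠ 0 := by rw [hq]; exact nonZeroDivisors.coe_ne_zero _
    have hp0 : p ≠ 0 := by
      rintro rfl
      rw [map_zero, zero_div] at hbn
      exact hb0 hbn.symm
    have hq0' : aeval g q ≠ 0 := by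
      rw [← hmap]; exact (map_ne_zero_iff _ hinj).2 hq0
    have e : J D₁ D₂ a b = (aeval g q)⁻¹ ^ 2 * (aeval g q * J D₁ D₂ a (aeval g p)
        - aeval g p * J D₁ D₂ a (aeval g q)) := by
      rw [← hbn]
      simp only [J, Derivation.leibniz_div, smul_eq_mul]
      ring
    have hvq : v (aeval g q) ≠ 0 := (Valuation.ne_zero_iff _).2 hq0'
    rw [e, map_mul, map_pow, map_inv₀, ← hbn, map_div₀]
    have h3 : v (aeval g q * J D₁ D₂ a (aeval g p) - aeval g p * J D₁ D₂ a (aeval g q)) ≤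
        v (aeval g q) * v (aeval g p) := by
      refine (Valuation.map_sub _ _ _).trans (max_le ?_ ?_)
      · rw [map_mul]; exact mul_le_mul' le_rfl (hpol p hp0)
      · rw [map_mul, mul_comm (v (aeval g q))]; exact mul_le_mul' le_rfl (hpol q hq0)
    calc (v (aeval g q))⁻¹ ^ 2 * _ ≤ (v (aeval g q))⁻¹ ^ 2 * (v (aeval g q) * v (aeval g p)) :=
          mul_le_mul' le_rfl h3
      _ = v (aeval g p) / v (aeval g q) := by
          field_simp


lemma exists_reduced (g : F) (hg : Transcendental K g)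
    (htop : IntermediateField.adjoin K {g} = ⊤) (h : F) :
    ∃ r s : K[X], aeval g s ≠ 0 ∧ IsRelPrime r s ∧ h = aeval g r / aeval g s := by
  let _ : Algebra K[X] F := (aeval g : K[X] →ₐ[K] F).toRingHom.toAlgebra
  have hmap : ∀ f : K[X], algebraMap K[X] F f = aeval g f := fun f => rfl
  have hinj : Function.Injective (algebraMap K[X] F) := by
    have := transcendental_iff_injective.1 hg
    exact this
  have : FaithfulSMul K[X] F := (faithfulSMul_iff_algebraMap_injective K[X] F).2 hinj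
  have : IsFractionRing K[X] F := by
    refine IsFractionRing.of_field K[X] F fun z => ?_
    have hz : z ∈ IntermediateField.adjoin K {g} := by rw [htop]; trivial
    obtain ⟨r, s, hrs⟩ := (IntermediateField.mem_adjoin_simple_iff K z).1 hz
    exact ⟨r, s, by rw [hmap, hmap]; exact hrs⟩
  refine ⟨IsFractionRing.num K[X] h, IsFractionRing.den K[X] h, ?_,
    IsFractionRing.num_den_reduced K[X] h, (IsFractionRing.mk'_num_den' K[X] h).symm⟩
  rw [← hmap]
  exact (map_ne_zero_iff _ hinj).2 (nonZeroDivisors.coe_ne_zero _)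

lemma kill_adjoin (S : Set F) (D : Derivation ℂ F F) (hS : ∀ s ∈ S, D s = 0) (z : F)
    (hz : z ∈ IntermediateField.adjoin ℂ S) : D z = 0 := by
  induction hz using IntermediateField.adjoin_induction with
  | mem x hx => exact hS x hx
  | algebraMap c => exact D.map_algebraMap c
  | add x y _ _ hx hy => rw [map_add, hx, hy, add_zero]
  | inv x _ hx => rw [Derivation.leibniz_inv, hx, smul_zero]
  | mul x y _ _ hx hy => rw [Derivation.leibniz, hx, hy, smul_zero, smul_zero, add_zero]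

lemma v_aeval_le {Γ : Type*} [LinearOrderedCommGroupWithZero Γ] (v : Valuation F Γ)
    (hn : ∀ c : ℂ, c ≠ 0 → v (algebraMap ℂ F c) = 1) (x y : F) (hx : v x ≤ 1) (hy : v y ≤ 1)
    (q : MvPolynomial (Fin 2) ℂ) : v (MvPolynomial.aeval ![x, y] q) ≤ 1 := by
  induction q using MvPolynomial.induction_on with
  | C c =>
    rw [MvPolynomial.aeval_C]
    rcases eq_or_ne c 0 with rfl | hc
    · simp
    · exact (hn c hc).le
  | add p q hp hq =>
    rw [map_add]
    exact (Valuation.map_add _ _ _).trans (max_le hp hq)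
  | mul_X p i hp =>
    rw [map_mul, map_mul, MvPolynomial.aeval_X]
    refine mul_le_one' hp ?_
    fin_cases i
    · simpa using hx
    · simpa using hy

theorem no_generator (d0 d1 : Derivation ℂ F F) (x y : F) (h0x : d0 x = 1) (h0y : d0 y = 0)
    (h1x : d1 x = 0) (h1y : d1 y = 1) (hP : P x y ≠ 0) (q : MvPolynomial (Fin 2) ℂ) (g : F)
    (hadj : IntermediateField.adjoin ℂ {P x y * MvPolynomial.aeval ![x, y] q, g} = ⊤) :
    False := by
  obtain ⟨u, hu⟩ : ∃ u, u = P x y * MvPolynomial.aeval ![x, y] q := ⟨_, rfl⟩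
  rw [← hu] at hadj
  have hmem : ∀ z : F, z ∈ IntermediateField.adjoin ℂ {u, g} := fun z => by
    rw [hadj]; trivial
  obtain ⟨w, hw⟩ : ∃ w, w = J d0 d1 u g := ⟨_, rfl⟩
  have hw0 : w ≠ 0 := by
    intro h0
    have hJ : d0 u * d1 g - d1 u * d0 g = 0 := by
      rw [← h0, hw, J]
    have key : ∀ D : Derivation ℂ F F, D u = 0 → D g = 0 → ∀ z, D z = 0 := by
      intro D hDu hDg z
      refine kill_adjoin {u, g} D ?_ z (hmem z)
      rintro s (rfl | rfl)
      · exact hDu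
      · exact hDg
    have k1 := key (d0 u • d1 - d1 u • d0) (by simp; ring) (by simpa using hJ)
    have k2 := key (d0 g • d1 - d1 g • d0)
      (by simp; linear_combination -hJ) (by simp; ring)
    have a1 := k1 x
    have a2 := k1 y
    have b1 := k2 x
    have b2 := k2 y
    simp [h0x, h0y, h1x, h1y] at a1 a2 b1 b2
    have := key d0 a2 b2 x
    rw [h0x] at this
    exact one_ne_zero this
  let K := IntermediateField.adjoin ℂ {u}
  let D₁ : Derivation ℂ F F := w⁻¹ • (d1 g • d0 - d0 g • d1)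
  let D₂ : Derivation ℂ F F := w⁻¹ • (d0 u • d1 - d1 u • d0)
  have hD1 : ∀ a, D₁ a = w⁻¹ * (d1 g * d0 a - d0 g * d1 a) := fun a => rfl
  have hD2 : ∀ a, D₂ a = w⁻¹ * (d0 u * d1 a - d1 u * d0 a) := fun a => rfl
  have hw' : w = d0 u * d1 g - d1 u * d0 g := by rw [hw, J]
  have hD1u : D₁ u = 1 := by
    rw [hD1, inv_mul_eq_one₀ hw0, hw']; ring
  have hD1g : D₁ g = 0 := by rw [hD1]; ring
  have hD2u : D₂ u = 0 := by rw [hD2]; ring
  have hD2g : D₂ g = 1 := by
    rw [hD2, inv_mul_eq_one₀ hw0, hw']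
  have hK1 : ∀ a : K, ∃ b : K, D₁ (algebraMap K F a) = algebraMap K F b := by
    intro a
    suffices h : D₁ (a : F) ∈ K from ⟨⟨_, h⟩, rfl⟩
    obtain ⟨a, ha⟩ := a
    change D₁ a ∈ K
    induction ha using IntermediateField.adjoin_induction with
    | mem x hx =>
      rw [Set.mem_singleton_iff] at hx
      rw [hx, hD1u]; exact K.one_mem
    | algebraMap c => rw [D₁.map_algebraMap]; exact K.zero_mem
    | add x y _ _ hx hy => rw [map_add]; exact K.add_mem hx hy
    | inv x hx' hx =>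
      rw [Derivation.leibniz_inv, smul_eq_mul]
      exact K.mul_mem (K.neg_mem (pow_mem (K.inv_mem hx') 2)) hx
    | mul x y hx' hy' hx hy =>
      rw [Derivation.leibniz, smul_eq_mul, smul_eq_mul]
      exact K.add_mem (K.mul_mem hx' hy) (K.mul_mem hy' hx)
  have hK2 : ∀ a : K, D₂ (algebraMap K F a) = 0 := by
    intro a
    refine kill_adjoin {u} D₂ ?_ _ a.2
    intro s hs
    rw [Set.mem_singleton_iff] at hs
    rw [hs, hD2u]
  have hg : Transcendental K g := by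
    intro halg
    have hint : IsIntegral K g := halg.isIntegral
    have h1 : aeval g (derivative (minpoly K g)) = 0 := by
      rw [← D2_aeval g D₂ hK2 hD2g, minpoly.aeval, map_zero]
    have h2 : derivative (minpoly K g) = 0 := by
      by_contra hne
      have := minpoly.degree_le_of_ne_zero K g hne h1
      exact absurd this (not_le.2 (degree_derivative_lt (minpoly.ne_zero hint)))
    have h3 := derivative_eq_zero.1 h2
    exact absurd h3 (minpoly.natDegree_pos hint).ne'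
  have htop : IntermediateField.adjoin K {g} = ⊤ := by
    rw [← IntermediateField.restrictScalars_eq_top_iff (K := ℂ),
      IntermediateField.adjoin_adjoin_left]
    exact hadj
  -- general facts on a place
  have hJJ : ∀ a b, J D₁ D₂ a b = w⁻¹ * J d0 d1 a b := by
    intro a b
    simp only [J, hD1, hD2]
    rw [hw']
    have : d0 u * d1 g - d1 u * d0 g ≠ 0 := by rw [← hw']; exact hw0
    field_simp
    ring
  have hJxy : J D₁ D₂ x y = w⁻¹ := by
    rw [hJJ, J, h0x, h0y, h1x, h1y]; ring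
  have hu0 : u ≠ 0 := by
    rintro rfl
    rw [hw'] at hw0
    simp at hw0
  have hplace : ∀ (t : F) (E₁ E₂ : Derivation ℂ F F) (v : Valuation F (WithZero (Multiplicative ℤ)))
      (π : K[X]), Irreducible π → (∀ f : K[X], v (aeval t f) ≤ 1) →
      (∀ f : K[X], v (aeval t f) < 1 ↔ π ∣ f) →
      (∀ a b, v a ≤ 1 → v b ≤ 1 → v (J E₁ E₂ a b) ≤ 1) →
      (∀ a b, v a < 1 → v (J E₁ E₂ a b) ≤ v b) → v (J E₁ E₂ x y) ^ 2 ≤ v (P x y) := by
    intro t E₁ E₂ v π hπ hv1 hv2 hv3 hv4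
    have hk : ∀ k : K, k ≠ 0 → v (k : F) = 1 := by
      intro k hk0
      have e : (k : F) = aeval t (C k : K[X]) := by rw [aeval_C]; rfl
      rw [e]
      refine le_antisymm (hv1 _) (not_lt.1 fun hlt => ?_)
      rw [hv2] at hlt
      exact hπ.not_isUnit (isUnit_of_dvd_unit hlt (isUnit_C.2 (isUnit_iff_ne_zero.2 hk0)))
    have hn : ∀ c : ℂ, c ≠ 0 → v (algebraMap ℂ F c) = 1 := by
      intro c hc
      have := hk (algebraMap ℂ K c) (by simpa using hc)
      exact this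
    refine local_bound E₁ E₂ v hn hv3 hv4 x y fun hx hy => ?_
    have hQ : v (MvPolynomial.aeval ![x, y] q) ≤ 1 := v_aeval_le v hn x y hx hy q
    have hvu : v u = 1 := hk ⟨u, IntermediateField.mem_adjoin_simple_self ℂ u⟩ (by
      intro h
      exact hu0 (congrArg Subtype.val h))
    by_contra hlt
    rw [not_le] at hlt
    rw [hu, map_mul] at hvu
    have : v (P x y) * v (MvPolynomial.aeval ![x, y] q) < 1 := by
      calc v (P x y) * v (MvPolynomial.aeval ![x, y] q) ≤ v (P x y) * 1 :=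
            mul_le_mul' le_rfl hQ
        _ = v (P x y) := mul_one _
        _ < 1 := hlt
    exact this.ne hvu
  -- the function h
  obtain ⟨h, hh⟩ : ∃ h, h = w⁻¹ ^ 2 / P x y := ⟨_, rfl⟩
  have hh0 : h ≠ 0 := by
    rw [hh]; exact div_ne_zero (pow_ne_zero 2 (inv_ne_zero hw0)) hP
  obtain ⟨r, s, hs0, hrel, hrs⟩ := exists_reduced g hg htop h
  have hsu : IsUnit s := by
    by_contra hsu
    have hs00 : s ≠ 0 := by
      rintro rfl
      simp at hs0
    obtain ⟨π, hπ, hπs⟩ := WfDvdMonoid.exists_irreducible_factor hsu hs00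
    obtain ⟨v, hv1, hv2, hv3, hv4⟩ := exists_place g hg htop D₁ D₂ hK1 hK2 hD1g hD2g π hπ
    have h1 := hplace g D₁ D₂ v π hπ hv1 hv2 hv3 hv4
    rw [hJxy] at h1
    have hvP : v (P x y) ≠ 0 := (Valuation.ne_zero_iff v).2 hP
    have hvh : v h ≤ 1 := by
      rw [hh, map_div₀, map_pow, div_le_one₀ (zero_lt_iff.2 hvP)]
      exact h1
    have hr : ¬ π ∣ r := fun hr => hπ.not_isUnit (hrel hr hπs)
    have hvr : v (aeval g r) = 1 := le_antisymm (hv1 _) (not_lt.1 fun hlt => hr ((hv2 _).1 hlt))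
    have hvs : v (aeval g s) < 1 := (hv2 _).2 hπs
    rw [hrs, map_div₀, hvr, div_le_one₀ (zero_lt_iff.2 ((Valuation.ne_zero_iff v).2 hs0))] at hvh
    exact absurd hvs (not_lt.2 hvh)
  -- h is a polynomial in g
  obtain ⟨H, hH⟩ : ∃ H : K[X], h = aeval g H := by
    obtain ⟨c, hc⟩ := hsu.exists_right_inv
    refine ⟨r * c, ?_⟩
    have : aeval g s * aeval g c = 1 := by rw [← map_mul, hc, map_one]
    rw [hrs, map_mul, eq_comm, div_eq_mul_inv, ← eq_inv_of_mul_eq_one_right this]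
  have hH0 : H ≠ 0 := by
    rintro rfl
    rw [map_zero] at hH
    exact hh0 hH
  have hg0 : g ≠ 0 := by
    rintro rfl
    simp at hD2g
  -- the place at infinity
  have hg' : Transcendental K g⁻¹ := by
    intro halg
    have := halg.inv
    rw [inv_inv] at this
    exact hg this
  have htop' : IntermediateField.adjoin K {g⁻¹} = ⊤ := by
    rw [eq_top_iff, ← htop, IntermediateField.adjoin_simple_le_iff]
    have := (IntermediateField.adjoin K {g⁻¹}).inv_mem (IntermediateField.mem_adjoin_simple_self K g⁻¹)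
    rwa [inv_inv] at this
  have hX : Irreducible (X : K[X]) := irreducible_X
  obtain ⟨v, hv1, hv2, hv3, hv4⟩ := exists_place g⁻¹ hg' htop' D₁ ((-g ^ 2) • D₂) hK1
    (fun a => by rw [Derivation.smul_apply, hK2, smul_zero])
    (by rw [Derivation.leibniz_inv, hD1g, smul_zero])
    (by rw [Derivation.smul_apply, Derivation.leibniz_inv, hD2g]; simp; field_simp) X hX
  have h1 := hplace g⁻¹ D₁ ((-g ^ 2) • D₂) v X hX hv1 hv2 hv3 hv4
  have hJ' : J D₁ ((-g ^ 2) • D₂) x y = -g ^ 2 * w⁻¹ := by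
    rw [← hJxy]
    simp only [J, Derivation.smul_apply, smul_eq_mul]
    ring
  have hgi : v g⁻¹ < 1 := by
    have := (hv2 X).2 dvd_rfl
    rwa [aeval_X] at this
  have hgv : 1 < v g := by
    rw [map_inv₀] at hgi
    exact (inv_lt_one₀ (zero_lt_iff.2 ((Valuation.ne_zero_iff v).2 hg0))).1 hgi
  have hvP : v (P x y) ≠ 0 := (Valuation.ne_zero_iff v).2 hP
  have h2 : v (g ^ 4 * h) ≤ 1 := by
    have e : g ^ 4 * h = (-g ^ 2 * w⁻¹) ^ 2 / P x y := by rw [hh]; ring
    rw [e, map_div₀, map_pow, div_le_one₀ (zero_lt_iff.2 hvP), ← hJ']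
    exact h1
  have h3 : aeval g H = aeval g⁻¹ H.reverse * g ^ H.natDegree := by
    let _ := invertibleOfNonzero hg0
    have := eval₂_reverse_mul_pow (algebraMap K F) g H
    rw [invOf_eq_inv] at this
    rw [aeval_def, aeval_def, this]
  have h4 : v (aeval g⁻¹ H.reverse) = 1 := by
    refine le_antisymm (hv1 _) (not_lt.1 fun hlt => ?_)
    rw [hv2, X_dvd_iff, coeff_zero_reverse] at hlt
    exact hH0 (leadingCoeff_eq_zero.1 hlt)
  have h5 : 1 < v (g ^ 4 * h) := by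
    rw [hH, h3, map_mul, map_mul, h4, one_mul, map_pow, map_pow]
    have a1 : 1 < v g ^ 4 := one_lt_pow₀ hgv (by norm_num)
    have a2 : 1 ≤ v g ^ H.natDegree := one_le_pow₀ hgv.le
    calc (1 : WithZero (Multiplicative ℤ)) < v g ^ 4 := a1
      _ = v g ^ 4 * 1 := (mul_one _).symm
      _ ≤ v g ^ 4 * v g ^ H.natDegree := mul_le_mul' le_rfl a2
  exact absurd h2 (not_le.2 h5)

end Places



section Extend

variable {A F : Type*} [CommRing A] [IsDomain A] [Field F] [Algebra A F] [IsFractionRing A F]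
  [Algebra ℂ A] [Algebra ℂ F] [IsScalarTower ℂ A F]

open TrivSqZeroExt in
theorem exists_extend (D : Derivation ℂ A A) :
    ∃ D' : Derivation ℂ F F, ∀ a, D' (algebraMap A F a) = algebraMap A F (D a) := by
  let φ : A →ₐ[ℂ] TrivSqZeroExt F F :=
    { toFun := fun a => inl (algebraMap A F a) + inr (algebraMap A F (D a))
      map_one' := by simp
      map_mul' := by
        intro a b
        ext
        · simp only [fst_add, fst_inl, fst_inr, fst_mul, map_mul, add_zero]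
        · simp only [snd_add, snd_inl, snd_inr, snd_mul, fst_add, fst_inl, fst_inr, map_mul,
            Derivation.leibniz, smul_eq_mul, map_add, MulOpposite.smul_eq_mul_unop,
            MulOpposite.unop_op, zero_add, add_zero]
          ring
      map_zero' := by simp
      map_add' := by
        intro a b
        ext
        · simp only [fst_add, fst_inl, fst_inr, map_add, add_zero]
        · simp only [snd_add, snd_inl, snd_inr, map_add, zero_add]
      commutes' := by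
        intro c
        rw [algebraMap_eq_inl', ← IsScalarTower.algebraMap_apply ℂ A F]
        simp }
  have hφ1 : ∀ a, (φ a).fst = algebraMap A F a := fun a => by
    change (inl (algebraMap A F a) + inr (algebraMap A F (D a)) : TrivSqZeroExt F F).fst = _
    simp only [fst_add, fst_inl, fst_inr, add_zero]
  have hφ2 : ∀ a, (φ a).snd = algebraMap A F (D a) := fun a => by
    change (inl (algebraMap A F a) + inr (algebraMap A F (D a)) : TrivSqZeroExt F F).snd = _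
    simp only [snd_add, snd_inl, snd_inr, zero_add]
  have hφ : ∀ s : nonZeroDivisors A, IsUnit (φ s) := by
    intro s
    rw [TrivSqZeroExt.isUnit_iff_isUnit_fst, hφ1, isUnit_iff_ne_zero]
    exact IsLocalization.to_map_ne_zero_of_mem_nonZeroDivisors F le_rfl s.2
  let ψ : F →ₐ[ℂ] TrivSqZeroExt F F := IsLocalization.liftAlgHom (M := nonZeroDivisors A) (f := φ) hφ
  have hψ : ∀ a, ψ (algebraMap A F a) = φ a := fun a => by
    simp [ψ]
  have hfst : ∀ z, (ψ z).fst = z := by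
    intro z
    obtain ⟨a, b, hb, rfl⟩ := IsFractionRing.div_surjective (A := A) z
    have hb0 : algebraMap A F b ≠ 0 := IsLocalization.to_map_ne_zero_of_mem_nonZeroDivisors F le_rfl hb
    have h1 : ψ (algebraMap A F a / algebraMap A F b) * ψ (algebraMap A F b) = ψ (algebraMap A F a) := by
      rw [← map_mul, div_mul_cancel₀ _ hb0]
    have h2 := congrArg TrivSqZeroExt.fst h1
    rw [TrivSqZeroExt.fst_mul, hψ, hψ, hφ1, hφ1] at h2
    rw [eq_div_iff hb0, h2]
  refine ⟨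
    { toFun := fun z => (ψ z).snd
      map_add' := fun a b => by rw [map_add, snd_add]
      map_smul' := fun c a => by rw [map_smul, snd_smul]; rfl
      map_one_eq_zero' := by
        change (ψ 1).snd = 0
        rw [map_one, snd_one]
      leibniz' := fun a b => by
        change (ψ (a * b)).snd = a • (ψ b).snd + b • (ψ a).snd
        rw [map_mul, snd_mul, hfst, hfst]
        simp only [smul_eq_mul, MulOpposite.smul_eq_mul_unop, MulOpposite.unop_op]
        ring }, ?_⟩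
  intro a
  change (ψ (algebraMap A F a)).snd = _
  rw [hψ, hφ2]

end Extend


noncomputable section Rational2

open MvPolynomial

/-- the sextic as a polynomial -/
def p : MvPolynomial (Fin 2) ℂ :=
  (X 0 ^ 2 * X 1 - 4 * X 0 * X 1 ^ 2 - X 0 + 5 * X 1) ^ 2 - 4 * (X 0 * X 1 - 1)

lemma smooth (v : Fin 2 → ℂ) (hv : eval v p = 0) :
    eval v (pderiv 0 p) ≠ 0 ∨ eval v (pderiv 1 p) ≠ 0 := by
  by_contra hcon
  rw [not_or, not_not, not_not] at hcon
  obtain ⟨h1, h2⟩ := hcon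
  obtain ⟨a, ha⟩ : ∃ a, a = v 0 := ⟨_, rfl⟩
  obtain ⟨b, hb⟩ : ∃ b, b = v 1 := ⟨_, rfl⟩
  have e4 : (4 : MvPolynomial (Fin 2) ℂ) = C 4 := (map_ofNat C 4).symm
  have e5 : (5 : MvPolynomial (Fin 2) ℂ) = C 5 := (map_ofNat C 5).symm
  rw [p, e4, e5] at hv h1 h2
  simp only [map_sub, map_add, map_mul, map_pow, Derivation.leibniz, Derivation.leibniz_pow,
    pderiv_X_self, pderiv_C, eval_X, eval_C, map_one, smul_eq_mul, nsmul_eq_mul,
    pderiv_X_of_ne (show (1 : Fin 2) ≠ 0 by decide), pderiv_X_of_ne (show (0 : Fin 2) ≠ 1 by decide),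
    map_zero, ← ha, ← hb, pderiv_one, map_natCast] at hv h1 h2
  push_cast at hv h1 h2
  have hv' : (a ^ 2 * b - 4 * a * b ^ 2 - a + 5 * b) ^ 2 - 4 * (a * b - 1) = 0 := by
    linear_combination hv
  have h1' : (a ^ 2 * b - 4 * a * b ^ 2 - a + 5 * b) * (2 * a * b - 4 * b ^ 2 - 1) - 2 * b = 0 := by
    linear_combination h1 / 2
  have h2' : (a ^ 2 * b - 4 * a * b ^ 2 - a + 5 * b) * (a ^ 2 - 8 * a * b + 5) - 2 * a = 0 := by
    linear_combination h2 / 2
  have hf : a ^ 2 * b - 4 * a * b ^ 2 - a + 5 * b ≠ 0 := by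
    intro hf
    rw [hf] at hv' h1' h2'
    have hb0 : b = 0 := by linear_combination -h1' / 2
    rw [hb0] at hv'
    norm_num at hv'
  have hfs : (a ^ 2 * b - 4 * a * b ^ 2 - a + 5 * b) * (a ^ 2 * b + 4 * a * b ^ 2 - a - 5 * b)
      = 0 := by
    linear_combination a * h1' - b * h2'
  have hs : a ^ 2 * b + 4 * a * b ^ 2 - a - 5 * b = 0 := (mul_eq_zero.1 hfs).resolve_left hf
  have h3 : (a * b - 1) ^ 2 * (4 * (a * b) - 1) = 0 := by
    linear_combination (a ^ 2 * b + 4 * a * b ^ 2 - a - 5 * b) / 4 * hs - hv' / 4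
  rcases mul_eq_zero.1 h3 with h4 | h4
  · have h5 : a * b - 1 = 0 := pow_eq_zero_iff (two_ne_zero) |>.1 h4
    rw [h5] at hv'
    have : (a ^ 2 * b - 4 * a * b ^ 2 - a + 5 * b) ^ 2 = 0 := by linear_combination hv'
    exact hf (pow_eq_zero_iff (two_ne_zero) |>.1 this)
  · have hab : a * b = 1 / 4 := by linear_combination h4 / 4
    have hb' : b = -3 / 16 * a := by
      linear_combination -1 / 4 * hs + (a / 4 + b) * hab
    have ha2 : a ^ 2 = -4 / 3 := by
      rw [hb'] at hab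
      linear_combination -16 / 3 * hab
    have ha0 : a = 0 := by
      have hf' : a ^ 2 * b - 4 * a * b ^ 2 - a + 5 * b = - 3 / 2 * a := by
        linear_combination (a - 4 * b) * hab + 4 * hb'
      rw [hf'] at h2'
      linear_combination -2 / 9 * h2' - (a / 3) * (ha2 - 8 * hab)
    rw [ha0] at hab
    norm_num at hab


/-- the parameter -/
abbrev T : RatFunc ℂ := RatFunc.X

def Xf : RatFunc ℂ := (T ^ 2 + 9) * (T ^ 2 - 1) / (2 * T * (T ^ 2 - 3))

def Yf : RatFunc ℂ := (T ^ 2 - 3) * (T ^ 2 + 1) / (8 * T * (T ^ 2 - 1))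

lemma T_ne : T ≠ 0 := RatFunc.X_ne_zero

lemma Tsq_sub_ne (c : ℂ) : T ^ 2 - RatFunc.C c ≠ 0 := by
  have h : T ^ 2 - RatFunc.C c = algebraMap (Polynomial ℂ) (RatFunc ℂ)
      (Polynomial.X ^ 2 - Polynomial.C c) := by
    simp
  rw [h, map_ne_zero_iff _ (RatFunc.algebraMap_injective ℂ)]
  exact Polynomial.X_pow_sub_C_ne_zero (by norm_num) c

lemma T3 : T ^ 2 - 3 ≠ 0 := by
  have := Tsq_sub_ne 3
  rwa [map_ofNat] at this

lemma T1 : T ^ 2 - 1 ≠ 0 := by
  have := Tsq_sub_ne 1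
  rwa [map_one] at this

lemma f_eq : Xf ^ 2 * Yf - 4 * Xf * Yf ^ 2 - Xf + 5 * Yf = (T ^ 2 - 3) / (2 * T) := by
  have h0 := T_ne
  have h1 := T1
  have h3 := T3
  rw [Xf, Yf]
  field_simp
  ring

lemma XY_eq : Xf * Yf - 1 = ((T ^ 2 - 3) / (4 * T)) ^ 2 := by
  have h0 := T_ne
  have h1 := T1
  have h3 := T3
  rw [Xf, Yf]
  field_simp
  ring

lemma T_eq : T = Xf - 2 / (Xf ^ 2 * Yf - 4 * Xf * Yf ^ 2 - Xf + 5 * Yf) +
    (Xf ^ 2 * Yf - 4 * Xf * Yf ^ 2 - Xf + 5 * Yf) := by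
  rw [f_eq]
  have h0 := T_ne
  have h3 := T3
  rw [Xf]
  field_simp
  ring

lemma adjoin_eq_top : IntermediateField.adjoin ℂ {Yf, Xf} = ⊤ := by
  rw [eq_top_iff, ← RatFunc.adjoin_X, IntermediateField.adjoin_simple_le_iff]
  have hx : Xf ∈ IntermediateField.adjoin ℂ {Yf, Xf} :=
    IntermediateField.subset_adjoin _ _ (by simp)
  have hy : Yf ∈ IntermediateField.adjoin ℂ {Yf, Xf} :=
    IntermediateField.subset_adjoin _ _ (by simp)
  have hn : ∀ n : ℕ, (n : RatFunc ℂ) ∈ IntermediateField.adjoin ℂ {Yf, Xf} := fun n =>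
    natCast_mem _ n
  have h2 : (2 : RatFunc ℂ) ∈ IntermediateField.adjoin ℂ {Yf, Xf} := by exact_mod_cast hn 2
  have h4 : (4 : RatFunc ℂ) ∈ IntermediateField.adjoin ℂ {Yf, Xf} := by exact_mod_cast hn 4
  have h5 : (5 : RatFunc ℂ) ∈ IntermediateField.adjoin ℂ {Yf, Xf} := by exact_mod_cast hn 5
  have hf : Xf ^ 2 * Yf - 4 * Xf * Yf ^ 2 - Xf + 5 * Yf ∈ IntermediateField.adjoin ℂ {Yf, Xf} :=
    add_mem (sub_mem (sub_mem (mul_mem (pow_mem hx 2) hy)
      (mul_mem (mul_mem h4 hx) (pow_mem hy 2))) hx) (mul_mem h5 hy)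
  rw [show (RatFunc.X : RatFunc ℂ) = _ from T_eq]
  exact add_mem (sub_mem hx (div_mem h2 hf)) hf

lemma finrank_ge : 4 ≤ Module.finrank (IntermediateField.adjoin ℂ {Yf}) (RatFunc ℂ) := by
  rw [RatFunc.finrank_eq_max_natDegree]
  refine le_max_of_le_left ?_
  have hc : Polynomial.C (1 / 96 : ℂ) * 96 = 1 := by
    have : (96 : Polynomial ℂ) = Polynomial.C 96 := (map_ofNat Polynomial.C 96).symm
    rw [this, ← map_mul]
    norm_num
  have hcop : IsCoprime ((Polynomial.X ^ 2 - 3) * (Polynomial.X ^ 2 + 1) : Polynomial ℂ)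
      (8 * Polynomial.X * (Polynomial.X ^ 2 - 1)) :=
    ⟨Polynomial.C (1 / 96 : ℂ) * (8 * Polynomial.X ^ 2 - 32),
      Polynomial.C (1 / 96 : ℂ) * (5 * Polynomial.X - Polynomial.X ^ 3), by
        linear_combination hc⟩
  have hD0 : (8 * Polynomial.X * (Polynomial.X ^ 2 - 1) : Polynomial ℂ) ≠ 0 := by
    have : (Polynomial.X ^ 2 - Polynomial.C 1 : Polynomial ℂ) ≠ 0 :=
      Polynomial.X_pow_sub_C_ne_zero (by norm_num) 1
    rw [map_one] at this
    exact mul_ne_zero (mul_ne_zero (by norm_num) Polynomial.X_ne_zero) this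
  have hY : Yf = algebraMap (Polynomial ℂ) (RatFunc ℂ)
      ((Polynomial.X ^ 2 - 3) * (Polynomial.X ^ 2 + 1)) /
      algebraMap (Polynomial ℂ) (RatFunc ℂ) (8 * Polynomial.X * (Polynomial.X ^ 2 - 1)) := by
    rw [Yf]
    simp only [map_mul, map_sub, map_add, map_pow, map_one, map_ofNat, RatFunc.algebraMap_X]
  have h1 := (RatFunc.num_mul_eq_mul_denom_iff hD0).2 hY
  have h2 : ((Polynomial.X ^ 2 - 3) * (Polynomial.X ^ 2 + 1) : Polynomial ℂ) ∣ Yf.num :=
    hcop.dvd_of_dvd_mul_right (Dvd.intro _ h1.symm)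
  have hY0 : Yf ≠ 0 := by
    have h1 : T ^ 2 + 1 ≠ 0 := by
      have := Tsq_sub_ne (-1)
      rwa [map_neg, map_one, sub_neg_eq_add] at this
    rw [Yf]
    exact div_ne_zero (mul_ne_zero T3 h1) (mul_ne_zero (mul_ne_zero (by norm_num) T_ne) T1)
  have h3 := Polynomial.natDegree_le_of_dvd h2 (RatFunc.num_ne_zero hY0)
  have h4 : ((Polynomial.X ^ 2 - 3) * (Polynomial.X ^ 2 + 1) : Polynomial ℂ).natDegree = 4 := by
    compute_degree!
  rw [h4] at h3
  exact h3


/-- coefficient ring -/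
abbrev R := MvPolynomial (Fin 1) ℂ

def ρ : R →ₐ[ℂ] RatFunc ℂ := aeval (fun _ => Yf)

def φ : MvPolynomial (Fin 2) ℂ →ₐ[ℂ] RatFunc ℂ := aeval ![Xf, Yf]

lemma phi_eq (q : MvPolynomial (Fin 2) ℂ) :
    φ q = Polynomial.eval₂ (ρ : R →+* RatFunc ℂ) Xf (finSuccEquiv ℂ 1 q) := by
  induction q using MvPolynomial.induction_on with
  | C c =>
    rw [φ, aeval_C]
    have : finSuccEquiv ℂ 1 (C c) = Polynomial.C (C c) := by simp [finSuccEquiv_apply]
    rw [this, Polynomial.eval₂_C, AlgHom.coe_toRingHom, ρ, aeval_C]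
  | add p q hp hq => rw [map_add, map_add, hp, hq, Polynomial.eval₂_add]
  | mul_X p i hp =>
    rw [map_mul, map_mul, hp, Polynomial.eval₂_mul]
    congr 1
    rw [φ, aeval_X]
    fin_cases i
    · simp [finSuccEquiv_X_zero]
    · have : finSuccEquiv ℂ 1 (X ((0 : Fin 1).succ)) = Polynomial.C (X 0) :=
        finSuccEquiv_X_succ
      change Yf = Polynomial.eval₂ _ _ (finSuccEquiv ℂ 1 (X ((0 : Fin 1).succ)))
      rw [this, Polynomial.eval₂_C, AlgHom.coe_toRingHom, ρ, aeval_X]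

lemma phi_p : φ p = 0 := by
  have h : φ p = (Xf ^ 2 * Yf - 4 * Xf * Yf ^ 2 - Xf + 5 * Yf) ^ 2 - 4 * (Xf * Yf - 1) := by
    simp [φ, p]
  rw [h, f_eq, XY_eq]
  have h0 := T_ne
  field_simp
  ring

/-- p as a polynomial in the first variable -/
def phat : Polynomial R := finSuccEquiv ℂ 1 p

lemma phat_eq : phat = Polynomial.C (X 0 ^ 2) * Polynomial.X ^ 4
    + Polynomial.C (-8 * X 0 ^ 3 - 2 * X 0) * Polynomial.X ^ 3
    + Polynomial.C (16 * X 0 ^ 4 + 18 * X 0 ^ 2 + 1) * Polynomial.X ^ 2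
    + Polynomial.C (-40 * X 0 ^ 3 - 14 * X 0) * Polynomial.X
    + Polynomial.C (25 * X 0 ^ 2 + 4) := by
  have h0 : finSuccEquiv ℂ 1 (X 0) = Polynomial.X := finSuccEquiv_X_zero
  have h1 : finSuccEquiv ℂ 1 (X 1) = Polynomial.C (X 0) := finSuccEquiv_X_succ (j := (0 : Fin 1))
  rw [phat, p]
  simp only [map_sub, map_mul, map_pow, map_add, map_ofNat, map_one, h0, h1, map_neg]
  ring

lemma phat_natDegree : phat.natDegree = 4 := by
  rw [phat_eq]
  have : (X 0 : R) ^ 2 ≠ 0 := pow_ne_zero 2 (X_ne_zero 0)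
  compute_degree!

lemma phat_primitive : phat.IsPrimitive := by
  intro r hr
  have h := Polynomial.C_dvd_iff_dvd_coeff r phat |>.1 hr
  have h4 := h 4
  have h0 := h 0
  have e4 : phat.coeff 4 = X 0 ^ 2 := by
    rw [phat_eq]
    simp only [Polynomial.coeff_add, Polynomial.coeff_C_mul, Polynomial.coeff_X_pow,
      Polynomial.coeff_X, Polynomial.coeff_C]
    norm_num
  have e0 : phat.coeff 0 = 25 * X 0 ^ 2 + 4 := by
    rw [phat_eq]
    simp only [Polynomial.coeff_add, Polynomial.coeff_C_mul, Polynomial.coeff_X_pow,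
      Polynomial.coeff_X, Polynomial.coeff_C]
    norm_num
  rw [e4] at h4
  rw [e0] at h0
  have h5 : r ∣ 4 := by
    have := dvd_sub h0 (dvd_mul_of_dvd_right h4 25)
    rwa [add_sub_cancel_left] at this
  refine isUnit_of_dvd_unit h5 ?_
  have : (4 : R) = C 4 := (map_ofNat C 4).symm
  rw [this]
  exact IsUnit.map C (isUnit_iff_ne_zero.2 (by norm_num))


lemma Yf_transcendental : Transcendental ℂ Yf := by
  refine RatFunc.transcendental_of_ne_C Yf ?_
  rintro ⟨c, hc⟩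
  have h := finrank_ge
  rw [RatFunc.finrank_eq_max_natDegree, hc] at h
  simp at h

/-- the coefficient map to the subfield -/
def ρE : R →ₐ[ℂ] IntermediateField.adjoin ℂ {Yf} :=
  aeval (fun _ => ⟨Yf, IntermediateField.mem_adjoin_simple_self ℂ Yf⟩)

lemma ρE_coe (r : R) : (ρE r : RatFunc ℂ) = ρ r := by
  induction r using MvPolynomial.induction_on with
  | C c => rw [ρE, ρ, aeval_C, aeval_C]; rfl
  | add p q hp hq => rw [map_add, map_add, ← hp, ← hq]; rfl
  | mul_X p i hp =>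
    rw [map_mul, map_mul, ← hp, ρE, ρ, aeval_X, aeval_X]; rfl

lemma ρ_injective : Function.Injective ρ := by
  have h := Yf_transcendental
  have h2 : AlgebraicIndependent ℂ (fun _ : Fin 1 => Yf) :=
    algebraicIndependent_unique_type_iff.2 h
  exact h2

lemma ρE_injective : Function.Injective ρE := by
  intro a b hab
  apply ρ_injective
  rw [← ρE_coe, ← ρE_coe, hab]

lemma hmin (a : Polynomial R) (ha : a ≠ 0)
    (h : Polynomial.eval₂ (ρ : R →+* RatFunc ℂ) Xf a = 0) : 4 ≤ a.natDegree := by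
  have hE : Polynomial.aeval Xf (a.map (ρE : R →+* IntermediateField.adjoin ℂ {Yf})) = 0 := by
    rw [Polynomial.aeval_def, Polynomial.eval₂_map]
    rw [← h]
    congr 1
    ext r <;> simp [ρE_coe, IntermediateField.algebraMap_apply]
  have hne : a.map (ρE : R →+* IntermediateField.adjoin ℂ {Yf}) ≠ 0 := by
    rw [Ne, Polynomial.map_eq_zero_iff]
    · exact ha
    · exact ρE_injective
  have hint : IsIntegral (IntermediateField.adjoin ℂ {Yf}) Xf := by
    refine IsAlgebraic.isIntegral ⟨_, hne, hE⟩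
  have htop : IntermediateField.adjoin (IntermediateField.adjoin ℂ {Yf}) {Xf} = ⊤ := by
    rw [← IntermediateField.restrictScalars_eq_top_iff (K := ℂ),
      IntermediateField.adjoin_adjoin_left]
    exact adjoin_eq_top
  have h1 : (minpoly (IntermediateField.adjoin ℂ {Yf}) Xf).natDegree ≤ a.natDegree :=
    (Polynomial.natDegree_le_natDegree (minpoly.degree_le_of_ne_zero _ _ hne hE)).trans Polynomial.natDegree_map_le
  have h2 := IntermediateField.adjoin.finrank hint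
  rw [htop, IntermediateField.finrank_top'] at h2
  rw [← h2] at h1
  exact finrank_ge.trans h1


lemma eval_phat : Polynomial.eval₂ (ρ : R →+* RatFunc ℂ) Xf phat = 0 := by
  rw [phat, ← phi_eq, phi_p]

lemma phat_ne : phat ≠ 0 := by
  intro h
  have := phat_natDegree
  rw [h] at this
  simp at this

lemma phat_irreducible : Irreducible phat := by
  refine ⟨?_, ?_⟩
  · intro hu
    have := Polynomial.natDegree_eq_zero_of_isUnit hu
    rw [phat_natDegree] at this
    omega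
  · have key : ∀ a b : Polynomial R, phat = a * b →
        Polynomial.eval₂ (ρ : R →+* RatFunc ℂ) Xf a = 0 → IsUnit b := by
      intro a b hab ha
      have ha0 : a ≠ 0 := by
        rintro rfl
        exact phat_ne (by rw [hab, zero_mul])
      have hb0 : b ≠ 0 := by
        rintro rfl
        exact phat_ne (by rw [hab, mul_zero])
      have h4 := hmin a ha0 ha
      have hd := phat_natDegree
      rw [hab, Polynomial.natDegree_mul ha0 hb0] at hd
      have hb : b.natDegree = 0 := by omega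
      rw [Polynomial.eq_C_of_natDegree_eq_zero hb]
      refine IsUnit.map Polynomial.C (phat_primitive _ ?_)
      rw [← Polynomial.eq_C_of_natDegree_eq_zero hb, hab]
      exact dvd_mul_left _ _
    intro a b hab
    have h := eval_phat
    rw [hab, Polynomial.eval₂_mul] at h
    rcases mul_eq_zero.1 h with h1 | h1
    · exact Or.inr (key a b hab h1)
    · exact Or.inl (key b a (by rw [hab, mul_comm]) h1)

lemma p_irreducible : Irreducible p := by
  have h := phat_irreducible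
  rw [phat] at h
  exact (MulEquiv.irreducible_iff (finSuccEquiv ℂ 1)).1 h

lemma phat_dvd_aux {K : Type*} [Field K] [Algebra R K] [IsFractionRing R K] (a : Polynomial R)
    (h : Polynomial.eval₂ (ρ : R →+* RatFunc ℂ) Xf a = 0) :
    phat.map (algebraMap R K) ∣ a.map (algebraMap R K) := by
  let σ : K →+* RatFunc ℂ := IsFractionRing.lift (g := (ρ : R →+* RatFunc ℂ)) ρ_injective
  have hσ : σ.comp (algebraMap R K) = (ρ : R →+* RatFunc ℂ) := by
    ext r
    · simp [σ]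
    · simp [σ]
  have hK : Irreducible (phat.map (algebraMap R K)) :=
    (Polynomial.IsPrimitive.irreducible_iff_irreducible_map_fraction_map phat_primitive).1
      phat_irreducible
  rcases dvd_or_isCoprime (phat.map (algebraMap R K)) (a.map (algebraMap R K)) hK with hd | hcop
  · exact hd
  exfalso
  obtain ⟨s, t, hst⟩ := hcop
  have := congrArg (Polynomial.eval₂ σ Xf) hst
  rw [Polynomial.eval₂_add, Polynomial.eval₂_mul, Polynomial.eval₂_mul, Polynomial.eval₂_map,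
    Polynomial.eval₂_map, hσ, h, eval_phat, Polynomial.eval₂_one, mul_zero, mul_zero,
    add_zero] at this
  exact zero_ne_one this

lemma phat_dvd (a : Polynomial R) (h : Polynomial.eval₂ (ρ : R →+* RatFunc ℂ) Xf a = 0) :
    phat ∣ a :=
  Polynomial.IsPrimitive.dvd_of_fraction_map_dvd_fraction_map (K := FractionRing R)
    phat_primitive (phat_dvd_aux a h)

lemma ker_phi (q : MvPolynomial (Fin 2) ℂ) (hq : φ q = 0) : q ∈ Ideal.span {p} := by
  rw [phi_eq] at hq
  obtain ⟨c, hc⟩ := phat_dvd _ hq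
  rw [Ideal.mem_span_singleton]
  refine ⟨(finSuccEquiv ℂ 1).symm c, ?_⟩
  apply (finSuccEquiv ℂ 1).injective
  rw [hc, map_mul, AlgEquiv.apply_symm_apply, phat]

theorem rational : Nonempty (FractionRing (MvPolynomial (Fin 2) ℂ ⧸ Ideal.span {p}) ≃ₐ[ℂ]
    RatFunc ℂ) := by
  have hprime : (Ideal.span {p} : Ideal (MvPolynomial (Fin 2) ℂ)).IsPrime :=
    (Ideal.span_singleton_prime p_irreducible.ne_zero).2 p_irreducible.prime
  let B := MvPolynomial (Fin 2) ℂ ⧸ Ideal.span {p}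
  have : IsDomain B := Ideal.Quotient.isDomain _
  let Φ : B →ₐ[ℂ] RatFunc ℂ := Ideal.Quotient.liftₐ (Ideal.span {p}) φ (by
    intro a ha
    obtain ⟨c, rfl⟩ := Ideal.mem_span_singleton.1 ha
    rw [map_mul, phi_p, zero_mul])
  have hΦ : ∀ q, Φ (Ideal.Quotient.mk _ q) = φ q := fun q => rfl
  have hinj : Function.Injective Φ := by
    rw [injective_iff_map_eq_zero]
    intro b hb
    obtain ⟨q, rfl⟩ := Ideal.Quotient.mk_surjective b
    rw [hΦ] at hb
    exact Ideal.Quotient.eq_zero_iff_mem.2 (ker_phi q hb)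
  let Ψ : FractionRing B →ₐ[ℂ] RatFunc ℂ := IsFractionRing.liftAlgHom (g := Φ) hinj
  have hΨ : ∀ b : B, Ψ (algebraMap B (FractionRing B) b) = Φ b := fun b => by
    simp [Ψ]
  refine ⟨AlgEquiv.ofBijective Ψ ⟨RingHom.injective _, ?_⟩⟩
  have htop : Ψ.fieldRange = ⊤ := by
    rw [eq_top_iff, ← adjoin_eq_top, IntermediateField.adjoin_le_iff]
    rintro z (rfl | rfl)
    · refine ⟨algebraMap B (FractionRing B) (Ideal.Quotient.mk _ (X 1)), ?_⟩
      change Ψ _ = _
      rw [hΨ, hΦ, φ, aeval_X]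
      rfl
    · refine ⟨algebraMap B (FractionRing B) (Ideal.Quotient.mk _ (X 0)), ?_⟩
      change Ψ _ = _
      rw [hΨ, hΦ, φ, aeval_X]
      rfl
  intro z
  have hz : z ∈ Ψ.fieldRange := by rw [htop]; trivial
  exact hz

end Rational2

section Aux

open MvPolynomial

lemma alg_eq (x y : FractionRing (MvPolynomial (Fin 2) ℂ))
    (hx : x = algebraMap (MvPolynomial (Fin 2) ℂ) (FractionRing (MvPolynomial (Fin 2) ℂ)) (X 0))
    (hy : y = algebraMap (MvPolynomial (Fin 2) ℂ) (FractionRing (MvPolynomial (Fin 2) ℂ)) (X 1))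
    (q : MvPolynomial (Fin 2) ℂ) :
    algebraMap (MvPolynomial (Fin 2) ℂ) (FractionRing (MvPolynomial (Fin 2) ℂ)) q
      = aeval ![x, y] q := by
  induction q using MvPolynomial.induction_on with
  | C c =>
    rw [aeval_C, ← MvPolynomial.algebraMap_eq, ← IsScalarTower.algebraMap_apply]
  | add a b ha hb => rw [map_add, map_add, ha, hb]
  | mul_X a i ha =>
    rw [map_mul, map_mul, ha, aeval_X]
    congr 1
    fin_cases i
    · exact hx.symm
    · exact hy.symm

end Aux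

section Final

open MvPolynomial

theorem main (q : MvPolynomial (Fin 2) ℂ) (g : FractionRing (MvPolynomial (Fin 2) ℂ))
    (hadj : IntermediateField.adjoin ℂ
      ({algebraMap (MvPolynomial (Fin 2) ℂ) (FractionRing (MvPolynomial (Fin 2) ℂ)) (p * q), g} :
        Set (FractionRing (MvPolynomial (Fin 2) ℂ))) = ⊤) : False := by
  obtain ⟨d0, hd0⟩ := exists_extend (A := MvPolynomial (Fin 2) ℂ)
    (F := FractionRing (MvPolynomial (Fin 2) ℂ)) (pderiv 0)
  obtain ⟨d1, hd1⟩ := exists_extend (A := MvPolynomial (Fin 2) ℂ)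
    (F := FractionRing (MvPolynomial (Fin 2) ℂ)) (pderiv 1)
  obtain ⟨x, hx⟩ : ∃ x, x = algebraMap (MvPolynomial (Fin 2) ℂ)
    (FractionRing (MvPolynomial (Fin 2) ℂ)) (X 0) := ⟨_, rfl⟩
  obtain ⟨y, hy⟩ : ∃ y, y = algebraMap (MvPolynomial (Fin 2) ℂ)
    (FractionRing (MvPolynomial (Fin 2) ℂ)) (X 1) := ⟨_, rfl⟩
  have hp : algebraMap (MvPolynomial (Fin 2) ℂ) (FractionRing (MvPolynomial (Fin 2) ℂ)) p
      = P x y := by
    rw [p, P, hx, hy]
    simp only [map_sub, map_add, map_mul, map_pow, map_ofNat, map_one]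
  have hq : algebraMap (MvPolynomial (Fin 2) ℂ) (FractionRing (MvPolynomial (Fin 2) ℂ)) q
      = aeval ![x, y] q := by
    exact alg_eq x y hx hy q
  rw [map_mul, hp, hq] at hadj
  refine no_generator d0 d1 x y ?_ ?_ ?_ ?_ ?_ q g hadj
  · rw [hx, hd0, pderiv_X_self, map_one]
  · rw [hy, hd0, pderiv_X_of_ne (by decide), map_zero]
  · rw [hx, hd1, pderiv_X_of_ne (by decide), map_zero]
  · rw [hy, hd1, pderiv_X_self, map_one]
  · rw [← hp]
    intro h
    rw [map_eq_zero_iff _ (IsFractionRing.injective _ _)] at h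
    exact p_irreducible.ne_zero h

end Final

end Pool.Agent.Helper881.FieldGen
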