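import Mathlib

namespace Pool.Agent.Helper881.FOM

open Module

/-- degree bound for fixed fields -/
theorem fixed_degree {B F : Type} [Field B] [Field F] [Algebra B F] {E : Type} [Group E]
    (π : E →* (F ≃ₐ[B] F)) (G : Subgroup E) (hG : G.index ≠ 0) (K L : IntermediateField B F)
    (hK : ∀ x, x ∈ K ↔ ∀ e, π e x = x) (hL : ∀ x ∈ L, ∀ g ∈ G, π g x = x) (hKL : K ≤ L) :
    IntermediateField.relrank K L ≤ (G.index : Cardinal) := by
  classical
  let act : MulSemiringAction E F :=
    { smul := fun g x => π g x
      one_smul := fun x => by show π 1 x = x; rw [map_one]; rfl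
      mul_smul := fun a b x => by show π (a * b) x = π a (π b x); rw [map_mul]; rfl
      smul_zero := fun a => map_zero (π a)
      smul_add := fun a x y => map_add (π a) x y
      smul_one := fun a => map_one (π a)
      smul_mul := fun a x y => map_mul (π a) x y }
  have hsm : ∀ (g : E) (x : F), g • x = π g x := fun _ _ => rfl
  have hKs : K.toSubfield = FixedPoints.subfield E F := by
    ext x
    constructor
    · intro hx g
      exact (hK x).mp hx g
    · intro hx
      exact (hK x).mpr fun e => hx e
  have hle : FixedPoints.subfield E F ≤ L.toSubfield := by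
    rw [← hKs]; exact hKL
  unfold IntermediateField.relrank
  rw [hKs, Subfield.relrank_eq_rank_of_le hle]
  have hGf : G.FiniteIndex := ⟨hG⟩
  have hfin : Finite (E ⧸ G) := Subgroup.finite_quotient_of_finiteIndex
  have hft : Fintype (E ⧸ G) := Fintype.ofFinite _
  refine rank_le fun s hs => ?_
  let j : (Subfield.extendScalars hle) →ₗ[FixedPoints.subfield E F] F :=
    (Subfield.extendScalars hle).val.toLinearMap
  have hj : Function.Injective j := Subtype.val_injective
  have h1 : LinearIndependent (FixedPoints.subfield E F) (fun i : s => j (i : _)) :=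
    hs.map' j (LinearMap.ker_eq_bot.mpr hj)
  let s' : Finset F := s.image j
  have hs' : LinearIndepOn (FixedPoints.subfield E F) id (s' : Set F) := by
    have h2 : (s' : Set F) = Set.range (fun i : s => j (i : _)) := by
      ext x
      simp [s']
    rw [h2]
    exact h1.linearIndepOn_id
  have h3 := FixedPoints.linearIndependent_smul_of_linearIndependent E F hs'
  have hcard : s'.card = s.card := Finset.card_image_of_injective _ hj
  rw [← hcard]
  -- factor through the cosets
  let Φ : (E ⧸ G → F) →ₗ[F] (E → F) := LinearMap.funLeft F F (QuotientGroup.mk)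
  have hmem : ∀ x : s', (x : F) ∈ L := by
    intro x
    obtain ⟨y, _, hy⟩ := Finset.mem_image.mp x.2
    rw [← hy]
    exact y.2
  let u : s' → (E ⧸ G → F) := fun x q =>
    Quotient.liftOn' q (fun e => π e (x : F)) (fun a b hab => by
      have h4 : a⁻¹ * b ∈ G := QuotientGroup.leftRel_apply.mp hab
      have h5 := hL _ (hmem x) _ h4
      show π a x = π b x
      have h6 : b = a * (a⁻¹ * b) := by group
      rw [h6, map_mul, AlgEquiv.mul_apply, h5])
  have hu : LinearIndependent F u := by
    apply LinearIndependent.of_comp Φ
    have h7 : (Φ ∘ u) = fun x : (s' : Set F) => MulAction.toFun E F (x : F) := by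
      funext x e
      rfl
    rw [h7]
    exact h3
  have h8 := hu.fintype_card_le_finrank
  rw [Fintype.card_coe, Module.finrank_fintype_fun_eq_card] at h8
  rw [Subgroup.index, Nat.card_eq_fintype_card]
  exact h8

end Pool.Agent.Helper881.FOM
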