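import Mathlib

/-!
Definitions for the statement about fields of moduli and fields of definition of
endomorphisms of projective space over the algebraic numbers.
-/

namespace Pool.Agent.Helper881.FOM

open MvPolynomial

/-- The field of algebraic numbers. -/
abbrev Qbar : Type := AlgebraicClosure ℚ

/-- Tuples `(f_0, ..., f_N)` of polynomials in `N + 1` variables over `Qbar`. -/
abbrev Tuple (N : ℕ) : Type := Fin (N + 1) → MvPolynomial (Fin (N + 1)) Qbar

/-- `f` is a lift of a degree `d` morphism of projective `N`-space: all `f_i` are homogeneous of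
degree `d` and they have no common zero besides the origin. -/
def IsLift (N d : ℕ) (f : Tuple N) : Prop :=
  (∀ i, (f i).IsHomogeneous d) ∧
    ∀ x : Fin (N + 1) → Qbar, (∀ i, eval x (f i) = 0) → x = 0

/-- The conjugate `φ⁻¹ ∘ f ∘ φ` by an invertible matrix `φ`. -/
noncomputable def conj {N : ℕ} (φ : GL (Fin (N + 1)) Qbar) (f : Tuple N) : Tuple N := fun i =>
  ∑ j, C ((φ⁻¹).val i j) * bind₁ (fun k => ∑ l, C (φ.val k l) * X l) (f j)

/-- The Galois conjugate `f^σ`: apply `σ` to all coefficients. -/
noncomputable def galConj {N : ℕ} (σ : Qbar ≃ₐ[ℚ] Qbar) (f : Tuple N) : Tuple N := fun i =>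
  map (σ : Qbar →+* Qbar) (f i)

/-- Two tuples are equal up to a nonzero scalar, so they define the same morphism. -/
def SameMap {N : ℕ} (f g : Tuple N) : Prop := ∃ c : Qbar, c ≠ 0 ∧ ∀ i, g i = C c * f i

/-- The morphism defined by `g` is conjugate to the morphism defined by `f` under
`PGL_{N+1}(Qbar)`: `g = φ⁻¹ ∘ f ∘ φ` up to a scalar. -/
def IsConjugate {N : ℕ} (f g : Tuple N) : Prop :=
  ∃ φ : GL (Fin (N + 1)) Qbar, SameMap (conj φ f) g

/-- The field of moduli `K_f`: the fixed field of the set of all `σ` in `Gal(Qbar/ℚ)` such that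
`f^σ` is conjugate to `f`. -/
def fieldOfModuli {N : ℕ} (f : Tuple N) : IntermediateField ℚ Qbar where
  carrier := {x | ∀ σ : Qbar ≃ₐ[ℚ] Qbar, IsConjugate f (galConj σ f) → σ x = x}
  mul_mem' := fun {x y} hx hy σ hσ => by rw [map_mul, hx σ hσ, hy σ hσ]
  one_mem' := fun σ _ => map_one σ
  add_mem' := fun {x y} hx hy σ hσ => by rw [map_add, hx σ hσ, hy σ hσ]
  zero_mem' := fun σ _ => map_zero σ
  algebraMap_mem' := fun r σ _ => σ.commutes r
  inv_mem' := fun x hx σ hσ => by rw [map_inv₀, hx σ hσ]

/-- `L` is a field of definition of `f`: some `PGL_{N+1}(Qbar)`-conjugate of the morphism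
defined by `f` has a lift all of whose coefficients are in `L`. -/
def IsFieldOfDefinition {N : ℕ} (f : Tuple N) (L : IntermediateField ℚ Qbar) : Prop :=
  ∃ g : Tuple N, IsConjugate f g ∧ ∀ i m, coeff m (g i) ∈ L

end Pool.Agent.Helper881.FOM
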