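import Mathlib

namespace Pool.Agent.Helper881.FOM

open Module

theorem torus_add {A : Type} [AddCommGroup A] [DivisibleBy A ℤ] {n : ℕ} {S Γ : Type}
    (a : S → A) (q : S → Fin n → ℤ) (σ : Γ → A →+ A) (c : Γ → Fin n → A)
    (h : ∀ γ s, σ γ (a s) = (∑ i, q s i • c γ i) + a s) :
    ∃ t : Fin n → A, ∀ s γ, σ γ (∑ i, q s i • t i + a s) = ∑ i, q s i • t i + a s := by
  classical
  let Q : (S →₀ ℤ) →ₗ[ℤ] (Fin n → ℤ) := Finsupp.linearCombination ℤ q
  let α : (S →₀ ℤ) →ₗ[ℤ] A := Finsupp.linearCombination ℤ a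
  obtain ⟨r, hr⟩ := Module.projective_lifting_property Q.rangeRestrict
    (LinearMap.id : LinearMap.range Q →ₗ[ℤ] LinearMap.range Q) Q.surjective_rangeRestrict
  obtain ⟨τ, hτ⟩ := (Module.Baer.of_divisible A).extension_property
    (LinearMap.range Q).subtype (LinearMap.range Q).injective_subtype (-(α ∘ₗ r))
  have hτs : ∀ v : Fin n → ℤ, ∑ i, v i • τ (Pi.single i 1) = τ v := by
    intro v
    conv_rhs => rw [← (LinearMap.sum_single_apply (fun _ => ℤ) v)]
    rw [map_sum]
    refine Finset.sum_congr rfl fun i _ => ?_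
    rw [← map_smul]
    congr 1
    ext j
    by_cases hj : j = i
    · subst hj; simp
    · simp [hj]
  refine ⟨fun i => τ (Pi.single i 1), fun s γ => ?_⟩
  have hqs : Q (Finsupp.single s 1) = q s := by
    simp [Q]
  have has : α (Finsupp.single s 1) = a s := by
    simp [α]
  have hqm : q s ∈ LinearMap.range Q := ⟨_, hqs⟩
  have h1 : ∑ i, q s i • τ (Pi.single i 1) + a s =
      α (Finsupp.single s 1 - r ⟨q s, hqm⟩) := by
    rw [hτs, map_sub, has]
    have h2 := congrArg (fun f : LinearMap.range Q →ₗ[ℤ] A => f ⟨q s, hqm⟩) hτ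
    simp only [LinearMap.comp_apply, LinearMap.neg_apply, Submodule.subtype_apply] at h2
    rw [h2]
    abel
  have h3 : ∀ z : S →₀ ℤ, σ γ (α z) = (∑ i, Q z i • c γ i) + α z := by
    intro z
    induction z using Finsupp.induction_linear with
    | zero => simp
    | add x y hx hy =>
      rw [map_add, map_add, hx, hy, map_add]
      simp only [Pi.add_apply, add_smul, Finset.sum_add_distrib]
      abel
    | single s m =>
      have e1 : α (Finsupp.single s m) = m • a s := by simp [α]
      have e2 : Q (Finsupp.single s m) = m • q s := by simp [Q]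
      rw [e1, e2, map_zsmul, h, smul_add, Finset.smul_sum]
      simp only [Pi.smul_apply, smul_eq_mul, mul_smul]
  have h4 : Q (Finsupp.single s 1 - r ⟨q s, hqm⟩) = 0 := by
    rw [map_sub, hqs, sub_eq_zero]
    have h5 := congrArg (fun f : LinearMap.range Q →ₗ[ℤ] LinearMap.range Q =>
      ((f ⟨q s, hqm⟩ : LinearMap.range Q) : Fin n → ℤ)) hr
    simpa using h5.symm
  rw [h1, h3, h4]
  simp

/-- the torus step, in the multiplicative group of an algebraically closed field -/
theorem torus_units {F : Type} [Field F] [IsAlgClosed F] {n : ℕ} {S Γ : Type}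
    (a : S → Fˣ) (q : S → Fin n → ℤ) (σ : Γ → Fˣ →* Fˣ) (c : Γ → Fin n → Fˣ)
    (h : ∀ γ s, σ γ (a s) = (∏ i, c γ i ^ q s i) * a s) :
    ∃ t : Fin n → Fˣ, ∀ s γ, σ γ ((∏ i, t i ^ q s i) * a s) = (∏ i, t i ^ q s i) * a s := by
  have hdiv : ∀ {m : ℤ}, m ≠ 0 → Function.Surjective (fun x : Additive Fˣ => m • x) := by
    intro m hm x
    have hpos : 0 < m.natAbs := Int.natAbs_pos.mpr hm
    obtain ⟨y, hy⟩ := IsAlgClosed.exists_pow_nat_eq (((Additive.toMul x : Fˣ)) : F) hpos
    have hy0 : y ≠ 0 := by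
      rintro rfl
      rw [zero_pow hpos.ne'] at hy
      exact (Units.ne_zero _) hy.symm
    have hyu : (Units.mk0 y hy0) ^ m.natAbs = Additive.toMul x := by
      apply Units.ext
      simpa using hy
    rcases Int.natAbs_eq m with h1 | h1
    · refine ⟨Additive.ofMul (Units.mk0 y hy0), ?_⟩
      show m • Additive.ofMul (Units.mk0 y hy0) = x
      rw [← ofMul_zpow, h1, zpow_natCast, hyu]
      rfl
    · refine ⟨Additive.ofMul (Units.mk0 y hy0)⁻¹, ?_⟩
      show m • Additive.ofMul (Units.mk0 y hy0)⁻¹ = x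
      rw [← ofMul_zpow, h1, zpow_neg, inv_zpow, inv_inv, zpow_natCast, hyu]
      rfl
  let _ : DivisibleBy (Additive Fˣ) ℤ := divisibleByOfSMulRightSurj _ _ hdiv
  obtain ⟨t, ht⟩ := torus_add (A := Additive Fˣ) (fun s => Additive.ofMul (a s)) q
    (fun γ => MonoidHom.toAdditive (σ γ)) (fun γ i => Additive.ofMul (c γ i)) (by
      intro γ s
      have := congrArg Additive.ofMul (h γ s)
      rw [ofMul_mul, ofMul_prod] at this
      simpa using this)
  refine ⟨fun i => Additive.toMul (t i), fun s γ => ?_⟩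
  have := congrArg Additive.toMul (ht s γ)
  have e : ∀ w : Additive Fˣ,
    Additive.toMul ((MonoidHom.toAdditive (σ γ)) w) = σ γ (Additive.toMul w) := fun _ => rfl
  rw [e, toMul_add, toMul_sum] at this
  simp only [toMul_zsmul, toMul_ofMul] at this
  exact this

end Pool.Agent.Helper881.FOM
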