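import Pool.Agent.Helper881.FomEval
import Pool.Agent.Helper881.FomTor

open Module

namespace Pool.Agent.Helper881.FOM

open MvPolynomial

theorem bind_scale_monomial {n : ℕ} (c : Fin n → Qbar) (s : Fin n →₀ ℕ) (a : Qbar) :
    bind₁ (fun k => C (c k) * X k) (monomial s a) =
      monomial s ((∏ k, c k ^ s k) * a) := by
  rw [bind₁_monomial]
  have h0 : ∏ i ∈ s.support, (C (c i) * X i : MvPolynomial (Fin n) Qbar) ^ s i =
      ∏ i, (C (c i) * X i : MvPolynomial (Fin n) Qbar) ^ s i :=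
    Finset.prod_subset (Finset.subset_univ _) fun i _ hi => by
      rw [Finsupp.notMem_support_iff.mp hi, pow_zero]
  rw [h0]
  simp only [mul_pow, Finset.prod_mul_distrib]
  have h1 : (∏ x, (C (c x) : MvPolynomial (Fin n) Qbar) ^ s x) = C (∏ k, c k ^ s k) := by
    rw [map_prod]; exact Finset.prod_congr rfl fun k _ => (map_pow _ _ _).symm
  have h2 : (∏ x, (X x : MvPolynomial (Fin n) Qbar) ^ s x) = monomial s 1 := by
    rw [monomial_eq, Finsupp.prod_fintype _ _ (fun i => pow_zero _)]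
    simp
  rw [h1, h2, ← mul_assoc, ← map_mul, C_mul_monomial, mul_one, mul_comm a]

theorem coeff_bind_scale {n : ℕ} (c : Fin n → Qbar) (p : MvPolynomial (Fin n) Qbar)
    (m : Fin n →₀ ℕ) :
    coeff m (bind₁ (fun k => C (c k) * X k) p) = (∏ k, c k ^ m k) * coeff m p := by
  classical
  induction p using MvPolynomial.induction_on' with
  | monomial s a =>
    rw [bind_scale_monomial, coeff_monomial, coeff_monomial]
    by_cases h : s = m
    · subst h; simp
    · simp [h]
  | add p q hp hq => rw [map_add, coeff_add, hp, hq, coeff_add, mul_add]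

/-- descent of a tuple to the fixed field of a family of automorphisms which act by
semilinear diagonal maps -/
theorem descend {N : ℕ} (f : Tuple N)
    (w : Basis (Fin (N + 1)) Qbar (Fin (N + 1) → Qbar)) {Γ : Type}
    (σ : Γ → (Qbar ≃ₐ[ℚ] Qbar)) (h : Γ → (Fin (N + 1) → Qbar) → (Fin (N + 1) → Qbar))
    (hadd : ∀ γ x y, h γ (x + y) = h γ x + h γ y)
    (hsmul : ∀ γ (a : Qbar) x, h γ (a • x) = σ γ a • h γ x)
    (hcomm : ∀ γ x i, eval (h γ x) (f i) = h γ (fun j => eval x (f j)) i)
    (hdiag : ∀ γ i, ∃ c : Qbar, c ≠ 0 ∧ h γ (w i) = c • w i) :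
    ∃ φ : GL (Fin (N + 1)) Qbar, ∀ i m γ, σ γ (coeff m (conj φ f i)) = coeff m (conj φ f i) := by
  classical
  choose c hc0 hc using hdiag
  have hzero : ∀ γ, h γ 0 = 0 := by
    intro γ
    have := hadd γ 0 0
    rw [add_zero] at this
    exact left_eq_add.mp this
  have hsum : ∀ γ (s : Finset (Fin (N + 1))) (u : Fin (N + 1) → (Fin (N + 1) → Qbar)),
      h γ (∑ i ∈ s, u i) = ∑ i ∈ s, h γ (u i) := by
    intro γ s u
    induction s using Finset.induction_on with
    | empty => simp [hzero]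
    | insert a s ha ih => rw [Finset.sum_insert ha, Finset.sum_insert ha, hadd, ih]
  let Wm : Matrix (Fin (N + 1)) (Fin (N + 1)) Qbar := Matrix.of fun k i => w i k
  have hWu : IsUnit Wm := by
    rw [← Matrix.linearIndependent_cols_iff_isUnit]
    exact w.linearIndependent
  obtain ⟨W, hW⟩ := hWu
  have hWx : ∀ x : Fin (N + 1) → Qbar, W.val.mulVec x = ∑ i, x i • w i := by
    intro x
    rw [hW]
    funext k
    simp [Matrix.mulVec, dotProduct, Wm, mul_comm]
  have hinj : ∀ x y, W.val.mulVec x = W.val.mulVec y → x = y := by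
    intro x y hxy
    have := congrArg ((W⁻¹).val.mulVec) hxy
    rwa [Matrix.mulVec_mulVec, Matrix.mulVec_mulVec, ← Units.val_mul, inv_mul_cancel,
      Units.val_one, Matrix.one_mulVec, Matrix.one_mulVec] at this
  have hhW : ∀ γ x, h γ (W.val.mulVec x) = W.val.mulVec (fun i => c γ i * σ γ (x i)) := by
    intro γ x
    rw [hWx, hWx, hsum]
    refine Finset.sum_congr rfl fun i _ => ?_
    rw [hsmul, hc, smul_smul, mul_comm]
  set g : Tuple N := conj W f with hg
  have key : ∀ γ x i, eval (fun k => c γ k * σ γ (x k)) (g i) = c γ i * σ γ (eval x (g i)) := by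
    intro γ x
    have h1 : (fun i => eval (fun k => c γ k * σ γ (x k)) (g i)) =
        fun i => c γ i * σ γ (eval x (g i)) := by
      apply hinj
      rw [← hhW γ (fun i => eval x (g i)), hg, mulVec_conj, mulVec_conj]
      funext j
      rw [← hhW, hcomm]
    exact fun i => congrFun h1 i
  have hcoef : ∀ γ i m, c γ i * σ γ (coeff m (g i)) = (∏ k, c γ k ^ m k) * coeff m (g i) := by
    intro γ i m
    have h1 : bind₁ (fun k => C (c γ k) * X k) (g i) = C (c γ i) * galConj (σ γ) g i := by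
      apply MvPolynomial.funext
      intro y
      have hy : y = fun k => σ γ ((σ γ).symm (y k)) := by
        funext k; exact ((σ γ).apply_symm_apply _).symm
      rw [map_mul, eval_C, eval_bind]
      conv_rhs => rw [hy, eval_galConj]
      rw [← key]
      congr 2
      funext k
      rw [map_mul, eval_C, eval_X, AlgEquiv.apply_symm_apply]
    have h2 := congrArg (coeff m) h1
    rw [coeff_bind_scale, coeff_C_mul] at h2
    rw [h2]
    congr 1
  -- torus step
  let S := {p : Fin (N + 1) × (Fin (N + 1) →₀ ℕ) // coeff p.2 (g p.1) ≠ 0}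
  obtain ⟨t, ht⟩ := torus_units (F := Qbar) (S := S) (Γ := Γ)
    (fun s => Units.mk0 (coeff s.1.2 (g s.1.1)) s.2)
    (fun s k => (s.1.2 k : ℤ) - if k = s.1.1 then 1 else 0)
    (fun γ => Units.map ((σ γ : Qbar →+* Qbar) : Qbar →* Qbar))
    (fun γ k => Units.mk0 (c γ k) (hc0 γ k)) (by
      intro γ s
      apply Units.ext
      have h1 := hcoef γ s.1.1 s.1.2
      simp only [Units.coe_map, Units.val_mul, Units.val_mk0, Units.coe_prod,
        Units.val_zpow_eq_zpow_val]
      show σ γ (coeff s.1.2 (g s.1.1)) = _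
      have h2 : ∏ k, c γ k ^ ((s.1.2 k : ℤ) - if k = s.1.1 then 1 else 0) =
          (∏ k, c γ k ^ (s.1.2 k)) * (c γ s.1.1)⁻¹ := by
        have h3 : ∀ k, c γ k ^ ((s.1.2 k : ℤ) - if k = s.1.1 then 1 else 0) =
            c γ k ^ (s.1.2 k) * (if k = s.1.1 then (c γ k)⁻¹ else 1) := by
          intro k
          rw [zpow_sub₀ (hc0 γ k), zpow_natCast, div_eq_mul_inv]
          by_cases hk : k = s.1.1 <;> simp [hk]
        rw [Finset.prod_congr rfl fun k _ => h3 k, Finset.prod_mul_distrib]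
        simp
      rw [h2, mul_right_comm, ← h1, mul_comm (c γ s.1.1), mul_inv_cancel_right₀ (hc0 γ _)])
  have hDu : IsUnit (Matrix.diagonal fun k => ((t k : Qbarˣ) : Qbar)) := by
    rw [Matrix.isUnit_iff_isUnit_det, Matrix.det_diagonal]
    exact IsUnit.mk0 _ (Finset.prod_ne_zero_iff.mpr fun k _ => (t k).ne_zero)
  obtain ⟨Dm, hD⟩ := hDu
  have hDx : ∀ x : Fin (N + 1) → Qbar, Dm.val.mulVec x = fun k => (t k : Qbar) * x k := by
    intro x
    rw [hD]
    funext k
    rw [Matrix.mulVec_diagonal]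
  have hconj : ∀ i, conj (W * Dm) f i =
      C ((t i : Qbar)⁻¹) * bind₁ (fun k => C (t k : Qbar) * X k) (g i) := by
    intro i
    apply MvPolynomial.funext
    intro x
    have h1 := mulVec_conj (W * Dm) f x
    have h2 := mulVec_conj W f (Dm.val.mulVec x)
    rw [Units.val_mul, ← Matrix.mulVec_mulVec, ← Matrix.mulVec_mulVec, ← h2] at h1
    have h3 := hinj _ _ h1
    rw [hDx] at h3
    have h4 := congrFun h3 i
    rw [map_mul, eval_C, eval_bind]
    have h5 : (fun k => eval x (C (t k : Qbar) * X k)) = Dm.val.mulVec x := by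
      rw [hDx]
      funext k
      rw [map_mul, eval_C, eval_X]
    rw [h5, hg, ← h4, ← mul_assoc, inv_mul_cancel₀ (t i).ne_zero, one_mul]
  refine ⟨W * Dm, fun i m γ => ?_⟩
  rw [hconj, coeff_C_mul, coeff_bind_scale]
  by_cases h0 : coeff m (g i) = 0
  · rw [h0, mul_zero, mul_zero, map_zero]
  have h1 := congrArg Units.val (ht ⟨(i, m), h0⟩ γ)
  simp only [Units.coe_map, Units.val_mul, Units.val_mk0, Units.coe_prod,
    Units.val_zpow_eq_zpow_val] at h1
  have h2 : ∏ k, ((t k : Qbarˣ) : Qbar) ^ ((m k : ℤ) - if k = i then 1 else 0) =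
      (∏ k, ((t k : Qbarˣ) : Qbar) ^ (m k)) * ((t i : Qbarˣ) : Qbar)⁻¹ := by
    have h3 : ∀ k, ((t k : Qbarˣ) : Qbar) ^ ((m k : ℤ) - if k = i then 1 else 0) =
        ((t k : Qbarˣ) : Qbar) ^ (m k) * (if k = i then ((t k : Qbarˣ) : Qbar)⁻¹ else 1) := by
      intro k
      rw [zpow_sub₀ (t k).ne_zero, zpow_natCast, div_eq_mul_inv]
      by_cases hk : k = i <;> simp [hk]
    rw [Finset.prod_congr rfl fun k _ => h3 k, Finset.prod_mul_distrib]
    simp
  rw [h2] at h1
  have h4 : ((t i : Qbarˣ) : Qbar)⁻¹ * ((∏ k, ((t k : Qbarˣ) : Qbar) ^ m k) * coeff m (g i)) =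
      (∏ k, ((t k : Qbarˣ) : Qbar) ^ m k) * ((t i : Qbarˣ) : Qbar)⁻¹ * coeff m (g i) := by
    ring
  rw [h4]
  exact h1

end Pool.Agent.Helper881.FOM
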