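import Pool.Agent.Helper881.FomDefs

namespace Pool.Agent.Helper881.FOM

open MvPolynomial

theorem eval_bind {n : ℕ} (x : Fin n → Qbar) (g : Fin n → MvPolynomial (Fin n) Qbar)
    (p : MvPolynomial (Fin n) Qbar) :
    eval x (bind₁ g p) = eval (fun k => eval x (g k)) p := by
  have := eval₂Hom_bind₁ (RingHom.id Qbar) x g p
  exact this

theorem eval_conj {N : ℕ} (φ : GL (Fin (N + 1)) Qbar) (f : Tuple N) (x : Fin (N + 1) → Qbar)
    (i : Fin (N + 1)) :
    eval x (conj φ f i) =
      ((φ⁻¹).val.mulVec (fun j => eval (φ.val.mulVec x) (f j))) i := by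
  unfold conj
  rw [map_sum]
  simp only [Matrix.mulVec, dotProduct]
  refine Finset.sum_congr rfl fun j _ => ?_
  rw [map_mul, eval_C, eval_bind]
  congr 2
  congr 1
  funext k
  rw [map_sum]
  exact Finset.sum_congr rfl fun l _ => by rw [map_mul, eval_C, eval_X]

theorem mulVec_conj {N : ℕ} (φ : GL (Fin (N + 1)) Qbar) (f : Tuple N)
    (x : Fin (N + 1) → Qbar) :
    φ.val.mulVec (fun i => eval x (conj φ f i)) = fun j => eval (φ.val.mulVec x) (f j) := by
  have h : (fun i => eval x (conj φ f i)) =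
      (φ⁻¹).val.mulVec (fun j => eval (φ.val.mulVec x) (f j)) := by
    funext i; exact eval_conj φ f x i
  rw [h, Matrix.mulVec_mulVec, ← Units.val_mul, mul_inv_cancel, Units.val_one, Matrix.one_mulVec]

theorem eval_galConj {N : ℕ} (σ : Qbar ≃ₐ[ℚ] Qbar) (f : Tuple N) (x : Fin (N + 1) → Qbar)
    (i : Fin (N + 1)) :
    eval (fun k => σ (x k)) (galConj σ f i) = σ (eval x (f i)) := by
  unfold galConj
  rw [eval_map]
  have := (MvPolynomial.eval₂_comp_left (σ : Qbar →+* Qbar) (RingHom.id Qbar) x (f i))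
  rw [RingHom.comp_id] at this
  exact this.symm

end Pool.Agent.Helper881.FOM
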