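import Pool.Agent.Helper881.FomWt

open Module

namespace Pool.Agent.Helper881.FOM

open Pool.Agent.Helper881.FM

variable {B F : Type} [Field B] [Field F] [Algebra B F]
variable {E : Type} [Group E] {π : E →* (F ≃ₐ[B] F)} {V : Type} [AddCommGroup V] [Module F V]

/-- action by conjugation on the subgroups of a normal subgroup -/
@[reducible] def conjAction (N : Subgroup E) [N.Normal] : MulAction E (Subgroup N) where
  smul g K := K.map (MulAut.conjNormal g : MulAut N).toMonoidHom
  one_smul K := by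
    show K.map (MulAut.conjNormal 1 : MulAut N).toMonoidHom = K
    rw [map_one]
    exact Subgroup.map_id K
  mul_smul a b K := by
    show K.map (MulAut.conjNormal (a * b) : MulAut N).toMonoidHom =
      (K.map (MulAut.conjNormal b : MulAut N).toMonoidHom).map
        (MulAut.conjNormal a : MulAut N).toMonoidHom
    rw [map_mul, Subgroup.map_map]
    rfl

theorem act_conj (ρ : SR π V) (g : E) (b : π.ker) (v : V) :
    ρ.act ((MulAut.conjNormal g b : π.ker) : E) v = ρ.act g (ρ.act (b : E) (ρ.act g⁻¹ v)) := by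
  rw [MulAut.conjNormal_apply, ρ.mul, ρ.mul]

theorem exists_good [CharZero F] [IsAlgClosed F] [Finite π.ker] [FiniteDimensional F V]
    (ρ : SR π V) (J : ℕ)
    (hfaith : ∀ e, π e = 1 → (∀ v, ρ.act e v = v) → e = 1)
    (hJ : ∃ A : Subgroup π.ker, (∀ a ∈ A, ∀ b ∈ A, a * b = b * a) ∧ A.index ≤ J) :
    ∃ (H : Subgroup E) (M : Subgroup π.ker), (∀ a ∈ M, ∀ b ∈ M, a * b = b * a) ∧
      H.index ≠ 0 ∧
      H.index ≤ (finrank F V) ^ (finrank F V) * (2 ^ (J * J ^ J)) ^ (2 ^ (J * J ^ J)) ∧
      (∀ h ∈ H, ∀ b ∈ M, (MulAut.conjNormal h b : π.ker) ∈ M) ∧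
      (∀ h ∈ H, ∀ hk : h ∈ π.ker, (⟨h, hk⟩ : π.ker) ∈ M) ∧
      (∃ S0 : Finset V, ∀ e, (∀ v ∈ S0, ρ.act e v = v) → e ∈ H) := by
  classical
  obtain ⟨A0, hA0, hA0J⟩ := hJ
  obtain ⟨A, hA, hAi, hAc⟩ := exists_char_abelian J A0 hA0 hA0J
  obtain ⟨M, hAM, hM, hMs⟩ := exists_self_centralizing A hA
  -- first subgroup
  let _ := conjAction (π.ker)
  have hsm : ∀ (g : E) (K : Subgroup π.ker), g • K =
      K.map (MulAut.conjNormal g : MulAut π.ker).toMonoidHom := fun _ _ => rfl
  have hcard : {K : Subgroup π.ker | A ≤ K}.ncard ≤ 2 ^ (J * J ^ J) :=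
    (card_subgroups_above A).trans (Nat.pow_le_pow_right (by norm_num) hAi)
  obtain ⟨H1, _, hH1a, hH1b, hH1c, hH1d⟩ := stab_bound (⊤ : Subgroup E)
    {K : Subgroup π.ker | A ≤ K} (Set.toFinite _) (2 ^ (J * J ^ J)) hcard (by
      intro g _ K hK a ha
      rw [hsm, Subgroup.mem_map]
      refine ⟨(MulAut.conjNormal g : MulAut π.ker).symm a, hK (hAc _ a ha), ?_⟩
      exact MulEquiv.apply_symm_apply _ a)
  rw [Subgroup.relIndex_top_right] at hH1a hH1b
  have hH1M : ∀ h ∈ H1, ∀ b ∈ M, (MulAut.conjNormal h b : π.ker) ∈ M := by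
    intro h hh b hb
    have h1 := hH1c h hh M hAM
    rw [hsm] at h1
    have h2 : (MulAut.conjNormal h b : π.ker) ∈
      M.map (MulAut.conjNormal h : MulAut π.ker).toMonoidHom := ⟨b, hb, rfl⟩
    rwa [h1] at h2
  -- second subgroup
  obtain ⟨hwf, hwc⟩ := wts_card ρ M hM
  let _ := subAction ρ
  have hsm2 : ∀ (g : E) (W : Submodule F V), g • W = smulSub ρ g W := fun _ _ => rfl
  have hwstab : ∀ g ∈ H1, ∀ W ∈ wts ρ M, g • W ∈ wts ρ M := by
    rintro g hg _ ⟨hne, χ, rfl⟩
    have hgi : g⁻¹ ∈ H1 := H1.inv_mem hg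
    refine ⟨?_, fun b => π g (χ ⟨_, hH1M g⁻¹ hgi b b.2⟩), ?_⟩
    · obtain ⟨v, hv, hv0⟩ := (Submodule.ne_bot_iff _).mp hne
      refine (Submodule.ne_bot_iff _).mpr ⟨ρ.act g v, ?_, ?_⟩
      · rw [hsm2, mem_smulSub, ρ.inv_act]; exact hv
      · intro h0
        exact hv0 (ρ.injective g (h0.trans (ρ.zero g).symm))
    · ext v
      rw [hsm2, mem_smulSub, mem_wt, mem_wt]
      constructor
      · intro h b
        have h1 := h ⟨_, hH1M g⁻¹ hgi b b.2⟩
        simp only [act_conj, inv_inv, ρ.act_inv] at h1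
        have h2 := congrArg (ρ.act g) h1
        rw [ρ.act_inv, ρ.smul, ρ.act_inv] at h2
        exact h2
      · intro h b
        have h1 := h ⟨_, hH1M g hg b b.2⟩
        simp only [act_conj] at h1
        have h3 : (⟨_, hH1M g⁻¹ hgi _ (hH1M g hg b b.2)⟩ : M) = b := by
          apply Subtype.ext
          show (MulAut.conjNormal g⁻¹ (MulAut.conjNormal g (b : π.ker)) : π.ker) = b
          rw [← MulAut.mul_apply, ← map_mul, inv_mul_cancel, map_one, MulAut.one_apply]
        rw [h3] at h1
        have h2 := congrArg (ρ.act g⁻¹) h1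
        rw [ρ.inv_act, ρ.smul] at h2
        rw [h2]
        congr 1
        rw [map_inv]
        exact (π g).symm_apply_apply _
  obtain ⟨H2, hH2le, hH2a, hH2b, hH2c, hH2d⟩ := stab_bound H1 (wts ρ M) hwf (finrank F V) hwc
    hwstab
  refine ⟨H2, M, hM, ?_, ?_, fun h hh => hH1M h (hH2le hh), ?_, ?_⟩
  · rw [← Subgroup.relIndex_mul_index hH2le]
    exact mul_ne_zero hH2a hH1a
  · rw [← Subgroup.relIndex_mul_index hH2le]
    exact Nat.mul_le_mul hH2b hH1b
  · intro h hh hk
    apply hMs
    intro b hb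
    have hlin : lin ρ ⟨h, hk⟩ * lin ρ b = lin ρ b * lin ρ ⟨h, hk⟩ := by
      have htop := wt_top ρ M hM
      ext v
      have hv : v ∈ ⨆ χ, wt ρ M χ := by rw [htop]; trivial
      refine Submodule.iSup_induction (wt ρ M)
        (motive := fun v => (lin ρ ⟨h, hk⟩ * lin ρ b) v = (lin ρ b * lin ρ ⟨h, hk⟩) v)
        hv ?_ (by simp) (fun x y hx hy => by rw [map_add, map_add, hx, hy])
      intro χ x hx
      by_cases hb0 : wt ρ M χ = ⊥
      · rw [hb0, Submodule.mem_bot] at hx
        rw [hx]; simp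
      have h1 : h • wt ρ M χ = wt ρ M χ := hH2c h hh _ ⟨hb0, χ, rfl⟩
      have h2 : ρ.act h x ∈ wt ρ M χ := by
        rw [← h1, hsm2, mem_smulSub, ρ.inv_act]; exact hx
      rw [mem_wt] at hx h2
      show ρ.act h (ρ.act b x) = ρ.act b (ρ.act h x)
      have h3 := hx ⟨b, hb⟩
      have h4 := h2 ⟨b, hb⟩
      simp only at h3 h4
      rw [h3, h4, ρ.smul]
      rw [show π h = 1 from hk]
      rfl
    rw [← map_mul, ← map_mul] at hlin
    apply mul_left_cancel (a := ((b * ⟨h, hk⟩ : π.ker))⁻¹)
    rw [inv_mul_cancel]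
    apply Subtype.ext
    refine hfaith _ (MonoidHom.mem_ker.mp (Subtype.property _)) ?_
    intro v
    have h6 : (lin ρ ((b * ⟨h, hk⟩ : π.ker)⁻¹ * (⟨h, hk⟩ * b))) v = v := by
      rw [map_mul, hlin, ← map_mul, inv_mul_cancel, map_one]; rfl
    exact h6
  · -- openness
    let b := Module.finBasis F V
    have : Fintype π.ker := Fintype.ofFinite _
    have hfg : ∀ W : Submodule F V, ∃ s : Finset V, Submodule.span F (s : Set V) = W := fun W =>
      (IsNoetherian.noetherian W)
    choose gen hgen using hfg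
    refine ⟨Finset.image b Finset.univ ∪
      Finset.image (fun p : π.ker × Fin (finrank F V) => ρ.act (p.1 : E) (b p.2)) Finset.univ ∪
      hwf.toFinset.biUnion gen, ?_⟩
    intro e he
    have he1 : ∀ i, ρ.act e (b i) = b i := fun i => he _ (by simp)
    have he2 : ∀ (x : π.ker) i, ρ.act e (ρ.act (x : E) (b i)) = ρ.act (x : E) (b i) :=
      fun x i => he _ (by
        apply Finset.mem_union_left
        apply Finset.mem_union_right
        exact Finset.mem_image.mpr ⟨(x, i), Finset.mem_univ _, rfl⟩)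
    have he3 : ∀ W ∈ wts ρ M, ∀ v ∈ gen W, ρ.act e v = v := fun W hW v hv => he _ (by
      apply Finset.mem_union_right
      exact Finset.mem_biUnion.mpr ⟨W, by simpa using hW, hv⟩)
    have hcomm : ∀ x : π.ker, MulAut.conjNormal e x = x := by
      intro x
      have h1 : ∀ v, ρ.act ((MulAut.conjNormal e x : π.ker) : E) v = ρ.act (x : E) v := by
        intro v
        have h2 : lin ρ (MulAut.conjNormal e x) = lin ρ x := by
          apply b.ext
          intro i
          show ρ.act ((MulAut.conjNormal e x : π.ker) : E) (b i) = ρ.act (x : E) (b i)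
          rw [act_conj]
          have h3 : ρ.act e⁻¹ (b i) = b i := by
            have := ρ.inv_act e (b i)
            rwa [he1] at this
          rw [h3, he2]
        exact congrArg (fun f : Module.End F V => f v) h2
      apply mul_left_cancel (a := x⁻¹)
      rw [inv_mul_cancel]
      apply Subtype.ext
      refine hfaith _ (MonoidHom.mem_ker.mp (Subtype.property _)) ?_
      intro v
      show ρ.act ((x : E)⁻¹ * ((MulAut.conjNormal e x : π.ker) : E)) v = v
      rw [ρ.mul, h1, ρ.inv_act]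
    have heH1 : e ∈ H1 := by
      apply hH1d e trivial
      intro K _
      rw [hsm]
      ext x
      rw [Subgroup.mem_map]
      constructor
      · rintro ⟨y, hy, rfl⟩
        show MulAut.conjNormal e y ∈ K
        rw [hcomm y]; exact hy
      · intro hx
        exact ⟨x, hx, hcomm x⟩
    apply hH2d e heH1
    intro W hW
    have hsub : ∀ f : E, (∀ v ∈ gen W, ρ.act f v = v) → ∀ v ∈ W, ρ.act f v ∈ W := by
      intro f hf v hv
      rw [← hgen W] at hv
      induction hv using Submodule.span_induction with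
      | mem x hx =>
        rw [hf x hx, ← hgen W]
        exact Submodule.subset_span hx
      | zero => rw [ρ.zero]; exact W.zero_mem
      | add x y _ _ hx hy => rw [ρ.add]; exact W.add_mem hx hy
      | smul a x _ hx => rw [ρ.smul]; exact W.smul_mem _ hx
    rw [hsm2]
    ext v
    rw [mem_smulSub]
    constructor
    · intro hv
      have := hsub e (he3 W hW) _ hv
      rwa [ρ.act_inv] at this
    · intro hv
      apply hsub e⁻¹ _ v hv
      intro x hx
      have := ρ.inv_act e x
      rwa [he3 W hW x hx] at this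

end Pool.Agent.Helper881.FOM
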