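import Mathlib

namespace Pool.Agent.Helper881.FOM

open Subgroup

/-- a group permuting a small set has a subgroup of small index fixing the set pointwise -/
theorem stab_bound {G X : Type} [Group G] [MulAction G X] (K : Subgroup G) (S : Set X)
    (hS : S.Finite) (c : ℕ) (hc : S.ncard ≤ c) (hst : ∀ g ∈ K, ∀ s ∈ S, g • s ∈ S) :
    ∃ H : Subgroup G, H ≤ K ∧ H.relIndex K ≠ 0 ∧ H.relIndex K ≤ c ^ c ∧
      (∀ h ∈ H, ∀ s ∈ S, h • s = s) ∧ (∀ h ∈ K, (∀ s ∈ S, h • s = s) → h ∈ H) := by
  classical
  have hfin : Finite S := hS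
  have : Fintype S := Fintype.ofFinite S
  have hcard : Fintype.card S ≤ c := by
    rw [← Nat.card_eq_fintype_card, Nat.card_coe_set_eq]
    exact hc
  have key : ∀ s : S, (MulAction.stabilizer G (s : X)).relIndex K ≠ 0 ∧
      (MulAction.stabilizer G (s : X)).relIndex K ≤ c := by
    intro s
    have h1 : (MulAction.stabilizer G (s : X)).relIndex K =
        (MulAction.orbit K (s : X)).ncard := by
      rw [← MulAction.index_stabilizer, Subgroup.relIndex]
      congr 1
    have h2 : MulAction.orbit K (s : X) ⊆ S := by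
      rintro _ ⟨g, rfl⟩
      exact hst g g.2 s s.2
    rw [h1]
    refine ⟨?_, (Set.ncard_le_ncard h2 hS).trans hc⟩
    have h3 : (MulAction.orbit K (s : X)).Finite := hS.subset h2
    exact (Set.ncard_pos h3).mpr ⟨_, MulAction.mem_orbit_self _⟩ |>.ne'
  refine ⟨K ⊓ ⨅ s : S, MulAction.stabilizer G (s : X), inf_le_left, ?_, ?_, ?_, ?_⟩
  · rw [inf_relIndex_left]
    exact relIndex_iInf_ne_zero fun s => (key s).1
  · rw [inf_relIndex_left]
    refine (relIndex_iInf_le _).trans ?_
    calc ∏ s : S, (MulAction.stabilizer G (s : X)).relIndex K ≤ ∏ _s : S, c :=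
          Finset.prod_le_prod' fun s _ => (key s).2
      _ = c ^ Fintype.card S := by simp
      _ ≤ c ^ c := by
          rcases Nat.eq_zero_or_pos c with h | h
          · subst h
            have : Fintype.card S = 0 := by omega
            rw [this]
          · exact Nat.pow_le_pow_right h hcard
  · rintro h ⟨_, hh⟩ s hs
    have := (Subgroup.mem_iInf.mp hh) ⟨s, hs⟩
    exact this
  · intro h hK hh
    refine ⟨hK, Subgroup.mem_iInf.mpr fun s => hh s s.2⟩

/-- a finite group with an abelian subgroup of small index has a characteristic one -/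
theorem exists_char_abelian {N : Type} [Group N] [Finite N] (J : ℕ)
    (B : Subgroup N) (hB : ∀ a ∈ B, ∀ b ∈ B, a * b = b * a) (hJ : B.index ≤ J) :
    ∃ A : Subgroup N, (∀ a ∈ A, ∀ b ∈ A, a * b = b * a) ∧ A.index ≤ J * J ^ J ∧
      ∀ (φ : N ≃* N), ∀ a ∈ A, φ a ∈ A := by
  classical
  let Y : Set N := {y | (centralizer {y}).index ≤ J}
  have hBY : (B : Set N) ⊆ Y := by
    intro b hb
    have h1 : B ≤ centralizer {b} := by
      intro x hx
      rw [mem_centralizer_singleton_iff]
      exact hB x hx b hb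
    have h2 : B.index ≠ 0 := Subgroup.index_ne_zero_of_finite
    exact (Nat.le_of_dvd (Nat.pos_of_ne_zero h2) (index_dvd_of_le h1)).trans hJ
  have hJ1 : 1 ≤ J := by
    have h2 : B.index ≠ 0 := Subgroup.index_ne_zero_of_finite
    omega
  refine ⟨closure Y ⊓ centralizer Y, ?_, ?_, ?_⟩
  · rintro a ⟨ha, _⟩ b ⟨_, hb⟩
    have h1 : closure Y ≤ centralizer (centralizer Y) := closure_le_centralizer_centralizer Y
    have := h1 ha
    rw [mem_centralizer_iff] at this
    exact (this b hb).symm
  · have : Fintype (N ⧸ B) := Fintype.ofFinite _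
    let K : N ⧸ B → Subgroup N := fun q =>
      if h : ∃ y ∈ Y, (y : N ⧸ B) = q then centralizer {h.choose} else ⊤
    have hK : ∀ q, (K q).index ≤ J := by
      intro q
      by_cases h : ∃ y ∈ Y, (y : N ⧸ B) = q
      · simp only [K, dif_pos h]
        exact h.choose_spec.1
      · simp only [K, dif_neg h, index_top]
        exact hJ1
    have hle : B ⊓ ⨅ q, K q ≤ closure Y ⊓ centralizer Y := by
      rintro x ⟨hxB, hxK⟩
      refine ⟨subset_closure (hBY hxB), ?_⟩
      show x ∈ centralizer Y
      rw [mem_centralizer_iff]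
      intro y hy
      have h : ∃ y' ∈ Y, (y' : N ⧸ B) = y := ⟨y, hy, rfl⟩
      have h1 : x ∈ K y := (Subgroup.mem_iInf.mp hxK) y
      simp only [K, dif_pos h] at h1
      rw [mem_centralizer_singleton_iff] at h1
      have h2 : h.choose⁻¹ * y ∈ B := QuotientGroup.eq.mp h.choose_spec.2
      have h3 := hB _ h2 x hxB
      have h4 : y = h.choose * (h.choose⁻¹ * y) := by group
      rw [h4, mul_assoc, h3, ← mul_assoc, ← h1, mul_assoc]
    have hidx : (B ⊓ ⨅ q, K q).index ≤ J * J ^ J := by
      refine index_inf_le.trans (Nat.mul_le_mul hJ ?_)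
      refine (index_iInf_le _).trans ?_
      calc ∏ q, (K q).index ≤ ∏ _q : N ⧸ B, J := Finset.prod_le_prod' fun q _ => hK q
        _ = J ^ Fintype.card (N ⧸ B) := by simp
        _ ≤ J ^ J := by
            apply Nat.pow_le_pow_right hJ1
            rw [← Nat.card_eq_fintype_card]
            exact hJ
    refine le_trans ?_ hidx
    exact Nat.le_of_dvd (Nat.pos_of_ne_zero Subgroup.index_ne_zero_of_finite)
      (index_dvd_of_le hle)
  · intro φ a ha
    have hY : ∀ (ψ : N ≃* N), ∀ y ∈ Y, ψ y ∈ Y := by
      intro ψ y hy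
      have h1 : centralizer {ψ y} = (centralizer {y}).map ψ.toMonoidHom := by
        ext x
        rw [mem_centralizer_singleton_iff, Subgroup.mem_map]
        constructor
        · intro h
          refine ⟨ψ.symm x, ?_, by simp⟩
          rw [mem_centralizer_singleton_iff]
          apply ψ.injective
          simpa using h
        · rintro ⟨z, hz, rfl⟩
          rw [mem_centralizer_singleton_iff] at hz
          have := congrArg ψ hz
          simpa using this
      show (centralizer {ψ y}).index ≤ J
      rw [h1]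
      have h2 : ((centralizer {y}).map ψ.toMonoidHom).index = (centralizer {y}).index :=
        index_map_equiv _ ψ
      rw [h2]
      exact hy
    refine ⟨?_, ?_⟩
    · have h1 : closure Y ≤ (closure Y).comap φ.toMonoidHom := by
        rw [closure_le]
        intro y hy
        exact subset_closure (hY φ y hy)
      exact h1 ha.1
    · show φ a ∈ centralizer Y
      rw [mem_centralizer_iff]
      intro y hy
      have h1 : φ.symm y ∈ Y := hY φ.symm y hy
      have h2 := (mem_centralizer_iff.mp ha.2) _ h1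
      have h3 := congrArg φ h2
      simpa using h3

/-- extension of an abelian subgroup to a self-centralising one -/
theorem exists_self_centralizing {N : Type} [Group N] [Finite N] (A : Subgroup N)
    (hA : ∀ a ∈ A, ∀ b ∈ A, a * b = b * a) :
    ∃ M : Subgroup N, A ≤ M ∧ (∀ a ∈ M, ∀ b ∈ M, a * b = b * a) ∧
      ∀ x, (∀ b ∈ M, x * b = b * x) → x ∈ M := by
  classical
  have hfin : Finite (Subgroup N) := inferInstance
  obtain ⟨M, hM⟩ := (Set.toFinite {M : Subgroup N | A ≤ M ∧
    ∀ a ∈ M, ∀ b ∈ M, a * b = b * a}).exists_maximal ⟨A, le_rfl, hA⟩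
  refine ⟨M, hM.prop.1, hM.prop.2, ?_⟩
  intro x hx
  have hcomm : ∀ a ∈ (M : Set N) ∪ {x}, ∀ b ∈ (M : Set N) ∪ {x}, a * b = b * a := by
    rintro a (ha | ha) b (hb | hb)
    · exact hM.prop.2 a ha b hb
    · rw [Set.mem_singleton_iff.mp hb]; exact (hx a ha).symm
    · rw [Set.mem_singleton_iff.mp ha]; exact hx b hb
    · rw [Set.mem_singleton_iff.mp ha, Set.mem_singleton_iff.mp hb]
  have hle : M ≤ closure ((M : Set N) ∪ {x}) := fun m hm => subset_closure (Or.inl hm)
  have hmem : closure ((M : Set N) ∪ {x}) ∈ {M : Subgroup N | A ≤ M ∧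
      ∀ a ∈ M, ∀ b ∈ M, a * b = b * a} := by
    refine ⟨hM.prop.1.trans hle, ?_⟩
    have h1 : closure ((M : Set N) ∪ {x}) ≤ centralizer ((M : Set N) ∪ {x}) := by
      rw [closure_le]
      intro a ha
      show a ∈ centralizer _
      rw [mem_centralizer_iff]
      intro b hb
      exact hcomm b hb a ha
    have h2 : closure ((M : Set N) ∪ {x}) ≤
        centralizer (centralizer ((M : Set N) ∪ {x})) :=
      closure_le_centralizer_centralizer _
    intro a ha b hb
    exact (mem_centralizer_iff.mp (h2 ha) b (h1 hb)).symm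
  exact hM.le_of_ge hmem hle (subset_closure (Or.inr rfl))

/-- number of subgroups above a subgroup of finite index -/
theorem card_subgroups_above {N : Type} [Group N] [Finite N] (A : Subgroup N) :
    {K : Subgroup N | A ≤ K}.ncard ≤ 2 ^ A.index := by
  classical
  have : Fintype (N ⧸ A) := Fintype.ofFinite _
  have h1 : (Set.univ : Set (Set (N ⧸ A))).ncard = 2 ^ A.index := by
    rw [Set.ncard_univ, Nat.card_eq_fintype_card, Fintype.card_set, ← Nat.card_eq_fintype_card]
    rfl
  rw [← h1]
  refine Set.ncard_le_ncard_of_injOn (fun K => (QuotientGroup.mk '' (K : Set N) : Set (N ⧸ A)))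
    (fun _ _ => Set.mem_univ _) ?_ (Set.toFinite _)
  intro K hK K' hK' h
  have key : ∀ K K' : Subgroup N, A ≤ K' →
      (QuotientGroup.mk '' (K : Set N) : Set (N ⧸ A)) = QuotientGroup.mk '' (K' : Set N) →
      K ≤ K' := by
    intro K K' hK' h x hx
    have h1 : (x : N ⧸ A) ∈ (QuotientGroup.mk '' (K' : Set N) : Set (N ⧸ A)) := by
      rw [← h]; exact ⟨x, hx, rfl⟩
    obtain ⟨y, hy, hxy⟩ := h1
    have h2 : y⁻¹ * x ∈ A := QuotientGroup.eq.mp hxy
    have h3 : x = y * (y⁻¹ * x) := by group
    rw [h3]
    exact K'.mul_mem hy (hK' h2)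
  exact le_antisymm (key K K' hK' h) (key K' K hK h.symm)

end Pool.Agent.Helper881.FOM
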