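import Pool.Agent.Helper881.FmSpeiser
import Pool.Agent.Helper881.FomGroup

open Module

namespace Pool.Agent.Helper881.FOM

open Pool.Agent.Helper881.FM

variable {B F : Type} [Field B] [Field F] [Algebra B F]
variable {E : Type} [Group E] {π : E →* (F ≃ₐ[B] F)} {V : Type} [AddCommGroup V] [Module F V]

/-- the linear maps given by the kernel -/
def lin (ρ : SR π V) : π.ker →* Module.End F V where
  toFun e :=
    { toFun := ρ.act e
      map_add' := ρ.add e
      map_smul' := fun a v => by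
        rw [ρ.smul, (show π (e : E) = 1 from e.2)]; rfl }
  map_one' := by ext v; exact ρ.one v
  map_mul' a b := by ext v; exact ρ.mul a b v

theorem lin_apply (ρ : SR π V) (e : π.ker) (v : V) : lin ρ e v = ρ.act e v := rfl

/-- image of a submodule -/
def smulSub (ρ : SR π V) (e : E) (W : Submodule F V) : Submodule F V where
  carrier := {v | ρ.act e⁻¹ v ∈ W}
  add_mem' := by
    intro v w hv hw
    show ρ.act e⁻¹ (v + w) ∈ W
    rw [ρ.add]; exact W.add_mem hv hw
  zero_mem' := by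
    show ρ.act e⁻¹ 0 ∈ W
    rw [ρ.zero]; exact W.zero_mem
  smul_mem' := by
    intro a v hv
    show ρ.act e⁻¹ (a • v) ∈ W
    rw [ρ.smul]; exact W.smul_mem _ hv

/-- action on submodules -/
@[reducible] def subAction (ρ : SR π V) : MulAction E (Submodule F V) where
  smul := smulSub ρ
  one_smul W := by
    ext v
    show ρ.act 1⁻¹ v ∈ W ↔ v ∈ W
    rw [inv_one, ρ.one]
  mul_smul a b W := by
    ext v
    show ρ.act (a * b)⁻¹ v ∈ W ↔ ρ.act b⁻¹ (ρ.act a⁻¹ v) ∈ W
    rw [mul_inv_rev, ρ.mul]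

theorem mem_smulSub {ρ : SR π V} {e : E} {W : Submodule F V} {v : V} :
    v ∈ smulSub ρ e W ↔ ρ.act e⁻¹ v ∈ W := Iff.rfl

/-- joint eigenspaces of a subgroup of the kernel -/
def wt (ρ : SR π V) (M : Subgroup π.ker) (χ : M → F) : Submodule F V :=
  ⨅ b : M, (lin ρ (b : π.ker)).eigenspace (χ b)

theorem mem_wt {ρ : SR π V} {M : Subgroup π.ker} {χ : M → F} {v : V} :
    v ∈ wt ρ M χ ↔ ∀ b : M, ρ.act ((b : π.ker) : E) v = χ b • v := by
  unfold wt
  simp only [Submodule.mem_iInf, Module.End.mem_eigenspace_iff]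
  rfl

variable [CharZero F] [Finite π.ker] [FiniteDimensional F V]

theorem gen_eq (ρ : SR π V) (b : π.ker) (μ : F) :
    (lin ρ b).maxGenEigenspace μ = (lin ρ b).eigenspace μ := by
  have hm : 0 < Nat.card π.ker := Nat.card_pos
  have hm0 : ((Nat.card π.ker : ℕ) : F) ≠ 0 := by exact_mod_cast hm.ne'
  have hsep : (Polynomial.X ^ (Nat.card π.ker) - 1 : Polynomial F).Separable :=
    Polynomial.X_pow_sub_one_separable_iff.mpr hm0
  have h0 : Polynomial.aeval (lin ρ b) (Polynomial.X ^ (Nat.card π.ker) - 1 : Polynomial F) = 0 := by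
    rw [map_sub, map_pow, Polynomial.aeval_X, ← map_pow, pow_card_eq_one', map_one, map_one,
      sub_self]
  have hss := Module.End.isSemisimple_of_squarefree_aeval_eq_zero hsep.squarefree h0
  exact (Module.End.isFinitelySemisimple_iff_isSemisimple.mpr hss).maxGenEigenspace_eq_eigenspace μ

theorem wt_gen (ρ : SR π V) (M : Subgroup π.ker) (χ : M → F) :
    wt ρ M χ = ⨅ b : M, (lin ρ (b : π.ker)).maxGenEigenspace (χ b) := by
  unfold wt
  exact iInf_congr fun b => (gen_eq ρ b (χ b)).symm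

theorem wt_indep (ρ : SR π V) (M : Subgroup π.ker) (hM : ∀ a ∈ M, ∀ b ∈ M, a * b = b * a) :
    iSupIndep (wt ρ M) := by
  have h := Module.End.independent_iInf_maxGenEigenspace_of_forall_mapsTo
    (fun b : M => lin ρ (b : π.ker)) (fun i j φ => Module.End.mapsTo_maxGenEigenspace_of_comm (by
      show lin ρ j * lin ρ i = lin ρ i * lin ρ j
      rw [← map_mul, ← map_mul, hM _ j.2 _ i.2]) φ)
  have h2 : wt ρ M = fun χ : M → F => ⨅ b : M, (lin ρ (b : π.ker)).maxGenEigenspace (χ b) :=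
    funext fun χ => wt_gen ρ M χ
  rw [h2]
  exact h

theorem wt_top [IsAlgClosed F] (ρ : SR π V) (M : Subgroup π.ker)
    (hM : ∀ a ∈ M, ∀ b ∈ M, a * b = b * a) : ⨆ χ, wt ρ M χ = ⊤ := by
  have h := Module.End.iSup_iInf_maxGenEigenspace_eq_top_of_forall_mapsTo
    (fun b : M => lin ρ (b : π.ker)) (fun i j φ => Module.End.mapsTo_maxGenEigenspace_of_comm (by
      show lin ρ j * lin ρ i = lin ρ i * lin ρ j
      rw [← map_mul, ← map_mul, hM _ j.2 _ i.2]) φ)
    (fun i => Module.End.iSup_maxGenEigenspace_eq_top _)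
  rw [← h]
  exact iSup_congr fun χ => wt_gen ρ M χ

/-- the set of nonzero joint eigenspaces -/
def wts (ρ : SR π V) (M : Subgroup π.ker) : Set (Submodule F V) :=
  {W | W ≠ ⊥ ∧ ∃ χ, W = wt ρ M χ}

theorem wts_card (ρ : SR π V) (M : Subgroup π.ker) (hM : ∀ a ∈ M, ∀ b ∈ M, a * b = b * a) :
    (wts ρ M).Finite ∧ (wts ρ M).ncard ≤ finrank F V := by
  classical
  have hi := wt_indep ρ M hM
  have hf : Fintype {χ // wt ρ M χ ≠ ⊥} := hi.fintypeNeBotOfFiniteDimensional
  have hle := hi.subtype_ne_bot_le_finrank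
  have heq : wts ρ M = Set.range (fun χ : {χ // wt ρ M χ ≠ ⊥} => wt ρ M χ) := by
    ext W
    constructor
    · rintro ⟨h1, χ, rfl⟩
      exact ⟨⟨χ, h1⟩, rfl⟩
    · rintro ⟨⟨χ, h1⟩, rfl⟩
      exact ⟨h1, χ, rfl⟩
  rw [heq]
  refine ⟨Set.finite_range _, ?_⟩
  rw [← Set.image_univ]
  refine (Set.ncard_image_le Set.finite_univ).trans ?_
  rw [Set.ncard_univ, Nat.card_eq_fintype_card]
  exact hle

end Pool.Agent.Helper881.FOM
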