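import Mathlib

set_option autoImplicit false

namespace Pool.Agent.Helper881.Ls

open Finset

variable {k n : ℕ}

/-- The set of positions at which two tuples agree. -/
def ag (f g : Fin k → Fin n) : Finset (Fin k) := univ.filter (fun i => f i = g i)

lemma mem_ag {f g : Fin k → Fin n} {i : Fin k} : i ∈ ag f g ↔ f i = g i := by
  simp [ag]

lemma ag_comm (f g : Fin k → Fin n) : ag f g = ag g f := by
  ext i; simp [ag, eq_comm]

lemma ag_self (f : Fin k → Fin n) : ag f f = univ := by
  ext i; simp [ag]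

lemma ag_eq_univ {f g : Fin k → Fin n} : ag f g = univ ↔ f = g := by
  constructor
  · intro h
    funext i
    have : i ∈ ag f g := by rw [h]; exact mem_univ i
    exact mem_ag.1 this
  · rintro rfl
    exact ag_self f

/-- The patterns realised as agreement sets of two distinct members. -/
noncomputable def re (T : Finset (Fin k → Fin n)) : Finset (Finset (Fin k)) := by
  classical
  exact univ.filter (fun I => ∃ f ∈ T, ∃ g ∈ T, f ≠ g ∧ ag f g = I)

lemma mem_re {T : Finset (Fin k → Fin n)} {I : Finset (Fin k)} :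
    I ∈ re T ↔ ∃ f ∈ T, ∃ g ∈ T, f ≠ g ∧ ag f g = I := by
  classical
  simp [re]

lemma re_mono {T T' : Finset (Fin k → Fin n)} (h : T' ⊆ T) : re T' ⊆ re T := by
  intro I hI
  rw [mem_re] at hI ⊢
  obtain ⟨f, hf, g, hg, h1, h2⟩ := hI
  exact ⟨f, h hf, g, h hg, h1, h2⟩

lemma ne_univ_of_mem_re {T : Finset (Fin k → Fin n)} {I : Finset (Fin k)} (h : I ∈ re T) :
    I ≠ univ := by
  obtain ⟨f, _, g, _, h1, h2⟩ := mem_re.1 h
  intro hI
  rw [hI] at h2
  exact h1 (ag_eq_univ.1 h2)

/-- `T` contains a star with `s` members at the restriction of `f` to `I`. -/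
def Star (s : ℕ) (T : Finset (Fin k → Fin n)) (I : Finset (Fin k)) (f : Fin k → Fin n) : Prop :=
  ∃ S : Finset (Fin k → Fin n), S ⊆ T ∧ S.card = s ∧ (∀ g ∈ S, I ⊆ ag g f) ∧
    (∀ g ∈ S, ∀ h ∈ S, g ≠ h → ag g h = I)

lemma peel (s : ℕ) (U : Finset (Finset (Fin k))) : ∀ (N : ℕ) (T : Finset (Fin k → Fin n)),
    T.card = N →
    ∃ (T' : Finset (Fin k → Fin n)) (r : (Fin k → Fin n) → Finset (Fin k)), T' ⊆ T ∧
      (∀ f ∈ T', ∀ I ∈ U, Star s T' I f) ∧
      (∀ f ∈ T \ T', r f ∈ U) ∧
      (∀ I ∈ U, ∀ f ∈ (T \ T').filter (fun g => r g = I),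
          ¬ Star s ((T \ T').filter (fun g => r g = I)) I f) := by
  classical
  intro N
  induction N with
  | zero =>
    intro T hT
    have : T = ∅ := Finset.card_eq_zero.1 hT
    subst this
    exact ⟨∅, fun _ => ∅, by simp, by simp, by simp, by simp⟩
  | succ N ih =>
    intro T hT
    by_cases hst : ∀ f ∈ T, ∀ I ∈ U, Star s T I f
    · exact ⟨T, fun _ => ∅, subset_rfl, hst, by simp, by simp⟩
    · push Not at hst
      obtain ⟨f, hf, I, hI, hns⟩ := hst
      obtain ⟨T', r, h1, h2, h3, h4⟩ := ih (T.erase f) (by rw [Finset.card_erase_of_mem hf, hT]; rfl)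
      have hfT' : f ∉ T' := fun h => (Finset.notMem_erase f T) (h1 h)
      refine ⟨T', Function.update r f I, h1.trans (Finset.erase_subset _ _), h2, ?_, ?_⟩
      · intro g hg
        by_cases hgf : g = f
        · subst hgf
          simpa using hI
        · rw [Function.update_of_ne hgf]
          apply h3
          rw [Finset.mem_sdiff] at hg ⊢
          exact ⟨Finset.mem_erase.2 ⟨hgf, hg.1⟩, hg.2⟩
      · intro J hJ g hg hstar
        obtain ⟨S, hS, hSc, hSg, hSp⟩ := hstar
        rw [Finset.mem_filter] at hg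
        have hST : S ⊆ T := fun x hx => (Finset.mem_sdiff.1 (Finset.mem_filter.1 (hS hx)).1).1
        by_cases hfS : f ∈ S
        · have hfJ : I = J := by
            have := (Finset.mem_filter.1 (hS hfS)).2
            simpa using this
          subst hfJ
          apply hns
          refine ⟨S, hST, hSc, ?_, hSp⟩
          intro h hh i hi
          have e1 := mem_ag.1 (hSg h hh hi)
          have e2 := mem_ag.1 (hSg f hfS hi)
          exact mem_ag.2 (e1.trans e2.symm)
        · by_cases hgf : g = f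
          · subst hgf
            have hfJ : I = J := by simpa using hg.2
            subst hfJ
            exact hns ⟨S, hST, hSc, hSg, hSp⟩
          · have hg' : g ∈ ((T.erase f) \ T').filter (fun g => r g = J) := by
              rw [Finset.mem_filter, Finset.mem_sdiff, Finset.mem_erase]
              have := hg.2
              rw [Function.update_of_ne hgf] at this
              exact ⟨⟨⟨hgf, (Finset.mem_sdiff.1 hg.1).1⟩, (Finset.mem_sdiff.1 hg.1).2⟩, this⟩
            apply h4 J hJ g hg'
            refine ⟨S, ?_, hSc, hSg, hSp⟩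
            intro x hx
            have hxf : x ≠ f := fun h => hfS (h ▸ hx)
            have hx' := Finset.mem_filter.1 (hS hx)
            rw [Function.update_of_ne hxf] at hx'
            rw [Finset.mem_filter, Finset.mem_sdiff, Finset.mem_erase]
            exact ⟨⟨⟨hxf, (Finset.mem_sdiff.1 hx'.1).1⟩, (Finset.mem_sdiff.1 hx'.1).2⟩, hx'.2⟩

/-- One class: no star, so a positive proportion avoids the pattern. -/
lemma kill_class (s : ℕ) (D : Finset (Fin k → Fin n)) (I : Finset (Fin k)) (hI : I ≠ univ)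
    (hcl : ∀ f ∈ D, ∀ g ∈ D, I ⊆ ag f g) (hns : ∀ f ∈ D, ¬ Star s D I f) :
    ∃ E ⊆ D, D.card ≤ (s * k) * E.card ∧ ∀ g ∈ E, ∀ h ∈ E, g ≠ h → ag g h ≠ I := by
  classical
  rcases D.eq_empty_or_nonempty with hD | hD
  · exact ⟨∅, by simp, by simp [hD], by simp⟩
  obtain ⟨f, hf⟩ := hD
  -- a largest pairwise-I subset
  let P : Finset (Finset (Fin k → Fin n)) :=
    D.powerset.filter (fun S => ∀ g ∈ S, ∀ h ∈ S, g ≠ h → ag g h = I)
  have hP : P.Nonempty := ⟨∅, by simp [P]⟩
  obtain ⟨S, hSP, hSmax⟩ := P.exists_max_image Finset.card hP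
  have hSD : S ⊆ D := Finset.mem_powerset.1 (Finset.mem_filter.1 hSP).1
  have hSp := (Finset.mem_filter.1 hSP).2
  have hScard : S.card < s := by
    by_contra hcon
    push Not at hcon
    obtain ⟨S', hS', hS'c⟩ := Finset.exists_subset_card_eq hcon
    apply hns f hf
    exact ⟨S', hS'.trans hSD, hS'c, fun g hg => hcl g (hSD (hS' hg)) f hf,
      fun g hg h hh => hSp g (hS' hg) h (hS' hh)⟩
  obtain ⟨j0, hj0⟩ : ∃ j, j ∉ I := by
    by_contra hcon
    push Not at hcon
    exact hI (Finset.eq_univ_iff_forall.2 hcon)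
  have hcov : ∀ g ∈ D, ∃ h ∈ S, ∃ j, j ∉ I ∧ g j = h j := by
    intro g hg
    by_cases hgS : g ∈ S
    · exact ⟨g, hgS, j0, hj0, rfl⟩
    · by_contra hcon
      push Not at hcon
      have hins : insert g S ∈ P := by
        rw [Finset.mem_filter, Finset.mem_powerset]
        refine ⟨Finset.insert_subset hg hSD, ?_⟩
        have key : ∀ h ∈ S, ag g h = I := by
          intro h hh
          apply Finset.Subset.antisymm
          · intro j hj
            by_contra hjI
            exact hcon h hh j hjI (mem_ag.1 hj)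
          · exact hcl g hg h (hSD hh)
        intro a ha b hb hab
        rcases Finset.mem_insert.1 ha with hag | haS
        · rcases Finset.mem_insert.1 hb with hbg | hbS
          · exact absurd (hag.trans hbg.symm) hab
          · rw [hag]; exact key b hbS
        · rcases Finset.mem_insert.1 hb with hbg | hbS
          · rw [hbg, ag_comm]; exact key a haS
          · exact hSp a haS b hbS hab
      have := hSmax _ hins
      rw [Finset.card_insert_of_notMem hgS] at this
      omega
  let Q : Finset ((Fin k → Fin n) × Fin k) := S ×ˢ Iᶜ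
  let E : (Fin k → Fin n) × Fin k → Finset (Fin k → Fin n) :=
    fun p => D.filter (fun g => g p.2 = p.1 p.2)
  have hQ : Q.Nonempty := by
    obtain ⟨h, hh, j, hj, _⟩ := hcov f hf
    exact ⟨(h, j), by simp [Q, hh, hj]⟩
  obtain ⟨p, hpQ, hpmax⟩ := Q.exists_max_image (fun p => (E p).card) hQ
  refine ⟨E p, Finset.filter_subset _ _, ?_, ?_⟩
  · have h1 : D ⊆ Q.biUnion E := by
      intro g hg
      obtain ⟨h, hh, j, hj, he⟩ := hcov g hg
      rw [Finset.mem_biUnion]
      exact ⟨(h, j), by simp [Q, hh, hj], by simp [E, hg, he]⟩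
    calc D.card ≤ (Q.biUnion E).card := Finset.card_le_card h1
      _ ≤ ∑ q ∈ Q, (E q).card := Finset.card_biUnion_le
      _ ≤ ∑ _q ∈ Q, (E p).card := Finset.sum_le_sum (fun q hq => hpmax q hq)
      _ = Q.card * (E p).card := by simp
      _ ≤ (s * k) * (E p).card := by
          apply Nat.mul_le_mul_right
          have : Q.card = S.card * (Iᶜ).card := Finset.card_product _ _
          rw [this]
          apply Nat.mul_le_mul hScard.le
          calc (Iᶜ).card ≤ (univ : Finset (Fin k)).card := Finset.card_le_card (Finset.subset_univ _)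
            _ = k := by simp
  · intro g hg h hh _ hag
    have e1 : g p.2 = p.1 p.2 := (Finset.mem_filter.1 hg).2
    have e2 : h p.2 = p.1 p.2 := (Finset.mem_filter.1 hh).2
    have : p.2 ∈ ag g h := mem_ag.2 (e1.trans e2.symm)
    rw [hag] at this
    have hp2 : p.2 ∉ I := by
      have := (Finset.mem_product.1 hpQ).2
      simpa using this
    exact hp2 this

lemma kill (s : ℕ) (D : Finset (Fin k → Fin n)) (I : Finset (Fin k)) (hI : I ≠ univ)
    (hns : ∀ f ∈ D, ¬ Star s D I f) :
    ∃ E ⊆ D, D.card ≤ (s * k) * E.card ∧ I ∉ re E := by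
  classical
  let rho : (Fin k → Fin n) → (I → Fin n) := fun g i => g i
  have hrho : ∀ f g, rho f = rho g ↔ I ⊆ ag f g := by
    intro f g
    constructor
    · intro h i hi
      exact mem_ag.2 (congrFun h ⟨i, hi⟩)
    · intro h
      funext i
      exact mem_ag.1 (h i.2)
  have hclass : ∀ v : I → Fin n, ∃ E ⊆ D.filter (fun g => rho g = v),
      (D.filter (fun g => rho g = v)).card ≤ (s * k) * E.card ∧
      ∀ g ∈ E, ∀ h ∈ E, g ≠ h → ag g h ≠ I := by
    intro v
    apply kill_class s _ I hI
    · intro f hf g hg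
      rw [← hrho]
      rw [(Finset.mem_filter.1 hf).2, (Finset.mem_filter.1 hg).2]
    · intro f hf hst
      obtain ⟨S, hS, h2, h3, h4⟩ := hst
      exact hns f (Finset.mem_filter.1 hf).1 ⟨S, hS.trans (Finset.filter_subset _ _), h2, h3, h4⟩
  choose E hE1 hE2 hE3 using hclass
  refine ⟨(D.image rho).biUnion E, ?_, ?_, ?_⟩
  · intro g hg
    obtain ⟨v, _, hgv⟩ := Finset.mem_biUnion.1 hg
    exact (Finset.mem_filter.1 (hE1 v hgv)).1
  · have hdis : ∀ v ∈ D.image rho, ∀ w ∈ D.image rho, v ≠ w → Disjoint (E v) (E w) := by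
      intro v _ w _ hvw
      rw [Finset.disjoint_left]
      intro g hg hg'
      exact hvw ((Finset.mem_filter.1 (hE1 v hg)).2.symm.trans (Finset.mem_filter.1 (hE1 w hg')).2)
    rw [Finset.card_biUnion hdis, Finset.mul_sum]
    rw [Finset.card_eq_sum_card_image rho D]
    apply Finset.sum_le_sum
    intro v _
    exact hE2 v
  · rw [mem_re]
    rintro ⟨g, hg, h, hh, hgh, hag⟩
    obtain ⟨v, _, hgv⟩ := Finset.mem_biUnion.1 hg
    obtain ⟨w, _, hhw⟩ := Finset.mem_biUnion.1 hh
    have e : rho g = rho h := (hrho g h).2 (by rw [hag])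
    have hvw : v = w := by
      rw [← (Finset.mem_filter.1 (hE1 v hgv)).2, ← (Finset.mem_filter.1 (hE1 w hhw)).2, e]
    subst hvw
    exact hE3 v g hgv h hhw hgh hag

lemma furedi (s : ℕ) (hs : 1 ≤ s) (hk : 1 ≤ k) : ∀ (N : ℕ) (T : Finset (Fin k → Fin n)),
    (re T).card ≤ N →
    ∃ T' ⊆ T, T.card ≤ (2 * 2 ^ (2 ^ k) * (s * k)) ^ N * 2 * T'.card ∧
      ∀ f ∈ T', ∀ I ∈ re T', Star s T' I f := by
  classical
  intro N
  have hc : 1 ≤ 2 * 2 ^ (2 ^ k) * (s * k) :=
    Nat.one_le_iff_ne_zero.2 (by positivity)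
  induction N with
  | zero =>
    intro T hT
    refine ⟨T, subset_rfl, by rw [pow_zero]; omega, ?_⟩
    intro f _ I hI
    have : re T = ∅ := Finset.card_eq_zero.1 (by omega)
    rw [this] at hI
    exact absurd hI (Finset.notMem_empty _)
  | succ N ih =>
    intro T hT
    obtain ⟨T', r, h1, h2, h3, h4⟩ := peel s (re T) T.card T rfl
    by_cases hbig : T.card ≤ 2 * T'.card
    · refine ⟨T', h1, ?_, fun f hf I hI => h2 f hf I (re_mono h1 hI)⟩
      calc T.card ≤ 1 * 2 * T'.card := by omega
        _ ≤ _ := by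
          apply Nat.mul_le_mul_right
          apply Nat.mul_le_mul_right
          exact Nat.one_le_pow _ _ hc
    · push Not at hbig
      have hsd : (T \ T').card = T.card - T'.card := Finset.card_sdiff_of_subset h1
      have hle : T'.card ≤ T.card := Finset.card_le_card h1
      have hne : (T \ T').Nonempty := by
        rw [← Finset.card_pos]; omega
      have hU : (re T).Nonempty := by
        obtain ⟨f, hf⟩ := hne
        exact ⟨r f, h3 f hf⟩
      obtain ⟨I, hI, hmax⟩ := (re T).exists_max_image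
        (fun I => ((T \ T').filter (fun g => r g = I)).card) hU
      have hsum : (T \ T').card = ∑ J ∈ re T, ((T \ T').filter (fun g => r g = J)).card :=
        Finset.card_eq_sum_card_fiberwise (fun f hf => h3 f hf)
      have hb : (T \ T').card ≤ 2 ^ (2 ^ k) * ((T \ T').filter (fun g => r g = I)).card := by
        rw [hsum]
        calc ∑ J ∈ re T, ((T \ T').filter (fun g => r g = J)).card
            ≤ ∑ _J ∈ re T, ((T \ T').filter (fun g => r g = I)).card :=
              Finset.sum_le_sum (fun J hJ => hmax J hJ)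
          _ = (re T).card * ((T \ T').filter (fun g => r g = I)).card := by simp
          _ ≤ _ := by
            apply Nat.mul_le_mul_right
            calc (re T).card ≤ (univ : Finset (Finset (Fin k))).card :=
                  Finset.card_le_card (Finset.subset_univ _)
              _ = 2 ^ k := by simp
              _ ≤ 2 ^ (2 ^ k) := Nat.pow_le_pow_right (by norm_num) (Nat.lt_two_pow_self).le
      have hIu : I ≠ univ := ne_univ_of_mem_re hI
      obtain ⟨E, hE1, hE2, hE3⟩ := kill s _ I hIu (h4 I hI)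
      have hET : E ⊆ T := fun x hx => (Finset.mem_sdiff.1 (Finset.mem_filter.1 (hE1 hx)).1).1
      have hcard : (re E).card ≤ N := by
        have : re E ⊆ (re T).erase I := by
          intro J hJ
          rw [Finset.mem_erase]
          refine ⟨?_, re_mono hET hJ⟩
          rintro rfl
          exact hE3 hJ
        have h5 := Finset.card_le_card this
        rw [Finset.card_erase_of_mem hI] at h5
        have : 0 < (re T).card := Finset.card_pos.2 hU
        omega
      obtain ⟨W, hW1, hW2, hW3⟩ := ih E hcard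
      refine ⟨W, hW1.trans hET, ?_, hW3⟩
      calc T.card ≤ 2 * (T \ T').card := by omega
        _ ≤ 2 * (2 ^ (2 ^ k) * ((T \ T').filter (fun g => r g = I)).card) :=
            Nat.mul_le_mul_left _ hb
        _ ≤ 2 * (2 ^ (2 ^ k) * ((s * k) * E.card)) :=
            Nat.mul_le_mul_left _ (Nat.mul_le_mul_left _ hE2)
        _ ≤ 2 * (2 ^ (2 ^ k) * ((s * k) * ((2 * 2 ^ (2 ^ k) * (s * k)) ^ N * 2 * W.card))) :=
            Nat.mul_le_mul_left _ (Nat.mul_le_mul_left _ (Nat.mul_le_mul_left _ hW2))
        _ = (2 * 2 ^ (2 ^ k) * (s * k)) ^ (N + 1) * 2 * W.card := by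
            rw [pow_succ]; ring

lemma select (S : Finset (Fin k → Fin n)) (I : Finset (Fin k))
    (hS : ∀ g ∈ S, ∀ h ∈ S, g ≠ h → ag g h = I) (hc : 2 * k < S.card)
    (a b : Fin k → Fin n) : ∃ g ∈ S, ∀ j, j ∉ I → g j ≠ a j ∧ g j ≠ b j := by
  classical
  by_contra hcon
  push Not at hcon
  have hcon' : ∀ g : Fin k → Fin n, ∃ p : Fin k × Bool, g ∈ S →
      (p.1 ∉ I ∧ g p.1 = (if p.2 then a p.1 else b p.1)) := by
    intro g
    by_cases hg : g ∈ S
    · obtain ⟨j, hj, h⟩ := hcon g hg
      by_cases hga : g j = a j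
      · exact ⟨(j, true), fun _ => ⟨hj, by simpa using hga⟩⟩
      · exact ⟨(j, false), fun _ => ⟨hj, by simpa using h hga⟩⟩
    · rcases S.eq_empty_or_nonempty with h | h
      · simp [h] at hc
      · obtain ⟨g0, hg0⟩ := h
        obtain ⟨j, _, _⟩ := hcon g0 hg0
        exact ⟨(j, true), fun h => absurd h hg⟩
  choose φ hφ using hcon'
  have hinj : Set.InjOn φ (S : Set (Fin k → Fin n)) := by
    intro g hg h hh he
    by_contra hne
    have h1 := hφ g hg
    have h2 := hφ h hh
    rw [← he] at h2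
    have : (φ g).1 ∈ ag g h := mem_ag.2 (h1.2.trans h2.2.symm)
    rw [hS g hg h hh hne] at this
    exact h1.1 this
  have := Finset.card_le_card_of_injOn φ (fun _ _ => Finset.mem_univ _) hinj
  simp at this
  omega

lemma closed_re (T : Finset (Fin k → Fin n))
    (hT : ∀ f ∈ T, ∀ I ∈ re T, Star (2 * k + 1) T I f) :
    ∀ I ∈ re T, ∀ I' ∈ re T, I ∩ I' ∈ re T := by
  classical
  intro I hI I' hI'
  obtain ⟨f, hf, _⟩ := mem_re.1 hI
  obtain ⟨S, hS1, hS2, hS3, hS4⟩ := hT f hf I hI
  obtain ⟨S', hS1', hS2', hS3', hS4'⟩ := hT f hf I' hI'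
  obtain ⟨g, hg, hg2⟩ := select S I hS4 (by omega) f f
  obtain ⟨h, hh, hh2⟩ := select S' I' hS4' (by omega) f g
  have hgI : ∀ j ∈ I, g j = f j := fun j hj => mem_ag.1 (hS3 g hg hj)
  have hhI : ∀ j ∈ I', h j = f j := fun j hj => mem_ag.1 (hS3' h hh hj)
  have hag : ag g h = I ∩ I' := by
    ext j
    rw [mem_ag, Finset.mem_inter]
    constructor
    · intro e
      by_cases hjI' : j ∈ I'
      · refine ⟨?_, hjI'⟩
        by_contra hjI
        exact (hg2 j hjI).1 (e.trans (hhI j hjI'))
      · exact absurd e.symm (hh2 j hjI').2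
    · rintro ⟨h1, h2⟩
      rw [hgI j h1, hhI j h2]
  rw [mem_re]
  refine ⟨g, hS1 hg, h, hS1' hh, ?_, hag⟩
  rintro rfl
  rw [ag_self] at hag
  exact ne_univ_of_mem_re hI (Finset.eq_univ_of_forall (fun i => by
    have : i ∈ I ∩ I' := by rw [← hag]; exact mem_univ i
    exact (Finset.mem_inter.1 this).1))

/-- Structure theorem: every finite set of tuples contains a proportional subset whose
agreement patterns are closed under intersection. -/
theorem structure_thm (k : ℕ) (hk : 1 ≤ k) : ∃ C : ℕ, 1 ≤ C ∧ ∀ (n : ℕ) (T : Finset (Fin k → Fin n)),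
    ∃ T' ⊆ T, T.card ≤ C * T'.card ∧ ∀ I ∈ re T', ∀ I' ∈ re T', I ∩ I' ∈ re T' := by
  classical
  refine ⟨(2 * 2 ^ (2 ^ k) * ((2 * k + 1) * k)) ^ (2 ^ k) * 2, Nat.one_le_iff_ne_zero.2 (by positivity), ?_⟩
  intro n T
  obtain ⟨T', h1, h2, h3⟩ := furedi (n := n) (2 * k + 1) (by omega) hk (2 ^ k) T (by
    calc (re T).card ≤ (univ : Finset (Finset (Fin k))).card :=
          Finset.card_le_card (Finset.subset_univ _)
      _ = 2 ^ k := by simp)
  exact ⟨T', h1, h2, closed_re T' h3⟩

end Pool.Agent.Helper881.Ls
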