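import Pool.Agent.Helper881.LsA

set_option autoImplicit false

namespace Pool.Agent.Helper881.Ls

open Finset

variable {k n : ℕ}

/-- `T` is a set of tuples all of whose agreement patterns lie in `J`. -/
def Ok (J : Finset (Finset (Fin k))) (T : Finset (Fin k → Fin n)) : Prop :=
  ∀ f ∈ T, ∀ g ∈ T, f ≠ g → ag f g ∈ J

/-- The largest size of a set of tuples over `Fin n` with agreement patterns in `J`. -/
noncomputable def R (J : Finset (Finset (Fin k))) (n : ℕ) : ℕ :=
  sSup {s : ℕ | ∃ T : Finset (Fin k → Fin n), T.card = s ∧ Ok J T}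

lemma bdd (J : Finset (Finset (Fin k))) (n : ℕ) :
    BddAbove {s : ℕ | ∃ T : Finset (Fin k → Fin n), T.card = s ∧ Ok J T} := by
  refine ⟨n ^ k, ?_⟩
  rintro s ⟨T, rfl, _⟩
  calc T.card ≤ (univ : Finset (Fin k → Fin n)).card := Finset.card_le_card (Finset.subset_univ _)
    _ = n ^ k := by simp

lemma ex_R (J : Finset (Finset (Fin k))) (n : ℕ) :
    ∃ T : Finset (Fin k → Fin n), T.card = R J n ∧ Ok J T := by
  have h : R J n ∈ {s : ℕ | ∃ T : Finset (Fin k → Fin n), T.card = s ∧ Ok J T} := by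
    apply Nat.sSup_mem
    · exact ⟨0, ∅, by simp, by intro f hf; simp at hf⟩
    · exact bdd J n
  exact h

lemma le_R {J : Finset (Finset (Fin k))} {T : Finset (Fin k → Fin n)} (h : Ok J T) :
    T.card ≤ R J n := le_csSup (bdd J n) ⟨T, rfl, h⟩

lemma R_le_pow (J : Finset (Finset (Fin k))) (n : ℕ) : R J n ≤ n ^ k := by
  obtain ⟨T, hT, _⟩ := ex_R J n
  rw [← hT]
  calc T.card ≤ (univ : Finset (Fin k → Fin n)).card := Finset.card_le_card (Finset.subset_univ _)
    _ = n ^ k := by simp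

lemma R_mono (J : Finset (Finset (Fin k))) {a b : ℕ} (h : a ≤ b) : R J a ≤ R J b := by
  classical
  obtain ⟨T, hT, hok⟩ := ex_R J a
  rw [← hT]
  have hinj : Function.Injective (fun (f : Fin k → Fin a) (i : Fin k) => Fin.castLE h (f i)) := by
    intro f g e
    funext i
    exact Fin.castLE_injective h (congrFun e i)
  rw [← Finset.card_image_of_injective T hinj]
  apply le_R
  intro f hf g hg hfg
  obtain ⟨f', hf', rfl⟩ := Finset.mem_image.1 hf
  obtain ⟨g', hg', rfl⟩ := Finset.mem_image.1 hg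
  have : ag (fun i => Fin.castLE h (f' i)) (fun i => Fin.castLE h (g' i)) = ag f' g' := by
    ext i
    simp [mem_ag, Fin.ext_iff]
  rw [this]
  exact hok f' hf' g' hg' (fun e => hfg (by rw [e]))

lemma one_le_R (J : Finset (Finset (Fin k))) {n : ℕ} (hn : 1 ≤ n) : 1 ≤ R J n := by
  classical
  have : (({fun _ => ⟨0, hn⟩} : Finset (Fin k → Fin n))).card ≤ R J n := by
    apply le_R
    intro f hf g hg hfg
    rw [Finset.mem_singleton] at hf hg
    exact absurd (hf.trans hg.symm) hfg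
  simpa using this

/-- The pattern family is closed under intersection. -/
def Cl (J : Finset (Finset (Fin k))) : Prop := ∀ I ∈ J, ∀ I' ∈ J, I ∩ I' ∈ J

lemma R_mul {J : Finset (Finset (Fin k))} (hJ : Cl J) (a b : ℕ) :
    R J a * R J b ≤ R J (a * b) := by
  classical
  obtain ⟨T, hT, hok⟩ := ex_R J a
  obtain ⟨T', hT', hok'⟩ := ex_R J b
  rw [← hT, ← hT', ← Finset.card_product]
  let Φ : (Fin k → Fin a) × (Fin k → Fin b) → (Fin k → Fin (a * b)) :=
    fun p i => finProdFinEquiv (p.1 i, p.2 i)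
  have hinj : Function.Injective Φ := by
    intro p q e
    have h1 : ∀ i, (p.1 i, p.2 i) = (q.1 i, q.2 i) := fun i =>
      finProdFinEquiv.injective (congrFun e i)
    exact Prod.ext (funext fun i => (Prod.mk.inj (h1 i)).1)
      (funext fun i => (Prod.mk.inj (h1 i)).2)
  rw [← Finset.card_image_of_injective _ hinj]
  apply le_R
  intro f hf g hg hfg
  obtain ⟨p, hp, rfl⟩ := Finset.mem_image.1 hf
  obtain ⟨q, hq, rfl⟩ := Finset.mem_image.1 hg
  have hag : ag (Φ p) (Φ q) = ag p.1 q.1 ∩ ag p.2 q.2 := by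
    ext i
    rw [Finset.mem_inter, mem_ag, mem_ag, mem_ag]
    simp only [Φ]
    rw [finProdFinEquiv.injective.eq_iff, Prod.mk.injEq]
  rw [hag]
  rw [Finset.mem_product] at hp hq
  by_cases h1 : p.1 = q.1
  · by_cases h2 : p.2 = q.2
    · exact absurd (by rw [Prod.ext h1 h2]) hfg
    · rw [h1, ag_self, Finset.univ_inter]
      exact hok' _ hp.2 _ hq.2 h2
  · by_cases h2 : p.2 = q.2
    · rw [h2, ag_self, Finset.inter_univ]
      exact hok _ hp.1 _ hq.1 h1
    · exact hJ _ (hok _ hp.1 _ hq.1 h1) _ (hok' _ hp.2 _ hq.2 h2)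

lemma R_pow {J : Finset (Finset (Fin k))} (hJ : Cl J) (a t : ℕ) :
    R J a ^ t ≤ R J (a ^ t) := by
  induction t with
  | zero => simpa using one_le_R J (le_refl 1)
  | succ t ih =>
    rw [pow_succ, pow_succ]
    exact (Nat.mul_le_mul_right _ ih).trans (R_mul hJ _ _)

/-- The exponent of a pattern family. -/
noncomputable def al (J : Finset (Finset (Fin k))) : ℝ :=
  sSup {x : ℝ | ∃ n : ℕ, 2 ≤ n ∧ x = Real.log (R J n) / Real.log n}

lemma al_bdd (J : Finset (Finset (Fin k))) :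
    BddAbove {x : ℝ | ∃ n : ℕ, 2 ≤ n ∧ x = Real.log (R J n) / Real.log n} := by
  refine ⟨k, ?_⟩
  rintro x ⟨n, hn, rfl⟩
  have hlog : 0 < Real.log n := Real.log_pos (by exact_mod_cast hn)
  rw [div_le_iff₀ hlog, ← Real.log_pow]
  apply Real.log_le_log
  · exact_mod_cast one_le_R J (by omega)
  · exact_mod_cast R_le_pow J n

lemma R_le_rpow (J : Finset (Finset (Fin k))) {n : ℕ} (hn : 1 ≤ n) :
    (R J n : ℝ) ≤ (n : ℝ) ^ al J := by
  rcases Nat.lt_or_ge n 2 with h | h
  · have : n = 1 := by omega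
    subst this
    have := R_le_pow J 1
    simp at this
    simpa using (show (R J 1 : ℝ) ≤ 1 by exact_mod_cast this)
  · have hlog : 0 < Real.log n := Real.log_pos (by exact_mod_cast h)
    have h1 : Real.log (R J n) / Real.log n ≤ al J := le_csSup (al_bdd J) ⟨n, h, rfl⟩
    rw [div_le_iff₀ hlog] at h1
    have hR : (0 : ℝ) < R J n := by exact_mod_cast one_le_R J hn
    have hn0 : (0 : ℝ) < n := by exact_mod_cast hn
    rw [Real.rpow_def_of_pos hn0, ← Real.log_le_iff_le_exp hR]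
    linarith

/-- Lower bound up to an arbitrarily small loss in the exponent. -/
lemma R_ge {J : Finset (Finset (Fin k))} (hJ : Cl J) {β : ℝ} (hβ : β < al J) (hβ0 : 0 ≤ β) :
    ∃ c : ℝ, 0 < c ∧ ∀ n : ℕ, 1 ≤ n → c * (n : ℝ) ^ β ≤ R J n := by
  have hne : {x : ℝ | ∃ n : ℕ, 2 ≤ n ∧ x = Real.log (R J n) / Real.log n}.Nonempty :=
    ⟨_, 2, le_rfl, rfl⟩
  obtain ⟨x, ⟨a, ha, rfl⟩, hx⟩ := exists_lt_of_lt_csSup hne hβ
  have hloga : 0 < Real.log a := Real.log_pos (by exact_mod_cast ha)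
  have ha0 : (0 : ℝ) < a := by positivity
  have hRa : (0 : ℝ) < R J a := by exact_mod_cast one_le_R J (by omega)
  have hRa' : (a : ℝ) ^ β ≤ R J a := by
    rw [lt_div_iff₀ hloga] at hx
    rw [Real.rpow_def_of_pos ha0, ← Real.le_log_iff_exp_le hRa]
    linarith
  refine ⟨((a : ℝ) ^ β)⁻¹, by positivity, ?_⟩
  intro n hn
  set t := Nat.log a n with ht
  have h1 : a ^ t ≤ n := Nat.pow_log_le_self a (by omega)
  have h2 : n < a ^ (t + 1) := Nat.lt_pow_succ_log_self (by omega) n
  have h3 : (R J a : ℝ) ^ t ≤ R J n := by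
    calc (R J a : ℝ) ^ t = ((R J a ^ t : ℕ) : ℝ) := by push_cast; rfl
      _ ≤ (R J (a ^ t) : ℝ) := by exact_mod_cast R_pow hJ a t
      _ ≤ R J n := by exact_mod_cast R_mono J h1
  have h4 : (n : ℝ) ^ β ≤ ((a : ℝ) ^ β) ^ (t + 1) := by
    rw [← Real.rpow_natCast ((a : ℝ) ^ β) (t + 1), ← Real.rpow_mul ha0.le, mul_comm β,
      Real.rpow_mul ha0.le, Real.rpow_natCast]
    apply Real.rpow_le_rpow (by positivity) _ hβ0
    exact_mod_cast h2.le
  have h5 : (0 : ℝ) < (a : ℝ) ^ β := by positivity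
  calc ((a : ℝ) ^ β)⁻¹ * (n : ℝ) ^ β ≤ ((a : ℝ) ^ β)⁻¹ * ((a : ℝ) ^ β) ^ (t + 1) := by
        apply mul_le_mul_of_nonneg_left h4 (by positivity)
    _ = ((a : ℝ) ^ β) ^ t := by
        rw [pow_succ]; field_simp
    _ ≤ (R J a : ℝ) ^ t := by
        apply pow_le_pow_left₀ h5.le hRa'
    _ ≤ R J n := h3

/-- The family with a single pattern has exponent at least one. -/
lemma one_le_al {J : Finset (Finset (Fin k))} {I : Finset (Fin k)} (hI : I ∈ J) (hIu : I ≠ univ) :
    1 ≤ al J := by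
  classical
  have h2 : 2 ≤ R J 2 := by
    let F : Fin 2 → (Fin k → Fin 2) := fun c i => if i ∈ I then 0 else c
    obtain ⟨j, hj⟩ : ∃ j, j ∉ I := by
      by_contra hcon
      push Not at hcon
      exact hIu (Finset.eq_univ_iff_forall.2 hcon)
    have hinj : Function.Injective F := by
      intro c d e
      have := congrFun e j
      simpa [F, hj] using this
    have h := le_R (J := J) (T := univ.image F) (by
      intro f hf g hg hfg
      obtain ⟨c, _, rfl⟩ := Finset.mem_image.1 hf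
      obtain ⟨d, _, rfl⟩ := Finset.mem_image.1 hg
      have hcd : c ≠ d := fun e => hfg (by rw [e])
      have : ag (F c) (F d) = I := by
        ext i
        rw [mem_ag]
        by_cases hi : i ∈ I
        · simp [F, hi]
        · simp [F, hi, hcd]
      rw [this]; exact hI)
    rw [Finset.card_image_of_injective _ hinj] at h
    simpa using h
  have hlog : 0 < Real.log (2 : ℕ) := Real.log_pos (by norm_num)
  refine le_trans ?_ (le_csSup (al_bdd J) ⟨2, le_rfl, rfl⟩)
  rw [le_div_iff₀ hlog, one_mul]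
  apply Real.log_le_log (by norm_num)
  exact_mod_cast h2

end Pool.Agent.Helper881.Ls
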