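import Pool.Agent.Helper881.LsB

set_option autoImplicit false

namespace Pool.Agent.Helper881.Ls

open Finset

variable {k n : ℕ}

/-- `m(n,k,L)`, exactly as in the frozen statement. -/
noncomputable def mL (k : ℕ) (L : Finset ℕ) (n : ℕ) : ℕ :=
  sSup {s : ℕ | ∃ F : Finset (Finset (Fin n)), F.card = s ∧
              (∀ A ∈ F, A.card = k) ∧
              ∀ A ∈ F, ∀ B ∈ F, A ≠ B → (A ∩ B).card ∈ L}

lemma mL_bdd (k : ℕ) (L : Finset ℕ) (n : ℕ) :
    BddAbove {s : ℕ | ∃ F : Finset (Finset (Fin n)), F.card = s ∧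
              (∀ A ∈ F, A.card = k) ∧
              ∀ A ∈ F, ∀ B ∈ F, A ≠ B → (A ∩ B).card ∈ L} := by
  refine ⟨2 ^ n, ?_⟩
  rintro s ⟨F, rfl, _⟩
  calc F.card ≤ (univ : Finset (Finset (Fin n))).card := Finset.card_le_card (Finset.subset_univ _)
    _ = 2 ^ n := by simp

lemma ex_mL (k : ℕ) (L : Finset ℕ) (n : ℕ) :
    ∃ F : Finset (Finset (Fin n)), F.card = mL k L n ∧
              (∀ A ∈ F, A.card = k) ∧
              ∀ A ∈ F, ∀ B ∈ F, A ≠ B → (A ∩ B).card ∈ L := by
  have h : mL k L n ∈ {s : ℕ | ∃ F : Finset (Finset (Fin n)), F.card = s ∧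
              (∀ A ∈ F, A.card = k) ∧
              ∀ A ∈ F, ∀ B ∈ F, A ≠ B → (A ∩ B).card ∈ L} := by
    apply Nat.sSup_mem
    · exact ⟨0, ∅, by simp, by simp, by simp⟩
    · exact mL_bdd k L n
  exact h

lemma le_mL {k : ℕ} {L : Finset ℕ} {F : Finset (Finset (Fin n))} (h1 : ∀ A ∈ F, A.card = k)
    (h2 : ∀ A ∈ F, ∀ B ∈ F, A ≠ B → (A ∩ B).card ∈ L) : F.card ≤ mL k L n :=
  le_csSup (mL_bdd k L n) ⟨F, rfl, h1, h2⟩

/-- A tuple whose `i`-th entry has colour `i`: intersections correspond to agreements. -/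
lemma card_inter (χ : Fin n → Fin k) {f g : Fin k → Fin n} (hf : ∀ i, χ (f i) = i)
    (hg : ∀ i, χ (g i) = i) : ((univ.image f) ∩ (univ.image g)).card = (ag f g).card := by
  classical
  have hinj : Function.Injective f := by
    intro i j e
    rw [← hf i, ← hf j, e]
  rw [← Finset.card_image_of_injective (ag f g) hinj]
  congr 1
  ext a
  rw [Finset.mem_inter, Finset.mem_image, Finset.mem_image, Finset.mem_image]
  constructor
  · rintro ⟨⟨i, _, rfl⟩, ⟨j, _, hj⟩⟩
    have : j = i := by rw [← hg j, ← hf i, hj]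
    subst this
    exact ⟨j, mem_ag.2 hj.symm, rfl⟩
  · rintro ⟨i, hi, rfl⟩
    exact ⟨⟨i, mem_univ _, rfl⟩, ⟨i, mem_univ _, (mem_ag.1 hi).symm⟩⟩

/-- From a uniform family to tuples: some colouring keeps a `k^{-k}` proportion. -/
lemma exists_colouring (hk : 1 ≤ k) (F : Finset (Finset (Fin n))) (hF : ∀ A ∈ F, A.card = k) :
    ∃ (χ : Fin n → Fin k) (T : Finset (Fin k → Fin n)), F.card ≤ k ^ k * T.card ∧
      (∀ f ∈ T, ∀ i, χ (f i) = i) ∧ (∀ f ∈ T, univ.image f ∈ F) := by
  classical
  rcases F.eq_empty_or_nonempty with hE | hE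
  · exact ⟨fun _ => ⟨0, hk⟩, ∅, by simp [hE], by simp, by simp⟩
  obtain ⟨A0, hA0⟩ := hE
  have hA0c := hF A0 hA0
  have hA0n : A0.Nonempty := by rw [← Finset.card_pos]; omega
  haveI : Nonempty (Fin n) := ⟨hA0n.choose⟩
  have hex : ∀ A : Finset (Fin n), ∃ f : Fin k → Fin n, A ∈ F →
      Function.Injective f ∧ univ.image f = A := by
    intro A
    by_cases hA : A ∈ F
    · refine ⟨A.orderEmbOfFin (hF A hA), fun _ => ⟨(A.orderEmbOfFin (hF A hA)).injective, ?_⟩⟩
      ext a
      simp only [Finset.mem_image, Finset.mem_univ, true_and]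
      constructor
      · rintro ⟨i, rfl⟩
        exact Finset.orderEmbOfFin_mem A (hF A hA) i
      · intro ha
        have := Finset.range_orderEmbOfFin A (hF A hA)
        have h2 : a ∈ Set.range (A.orderEmbOfFin (hF A hA)) := by rw [this]; exact ha
        exact h2
    · exact ⟨fun _ => Classical.arbitrary _, fun h => absurd h hA⟩
  choose t ht using hex
  -- number of colourings compatible with a given injective tuple
  have hcount : ∀ A ∈ F, k ^ n ≤ k ^ k *
      ((univ : Finset (Fin n → Fin k)).filter (fun χ => ∀ i, χ (t A i) = i)).card := by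
    intro A hA
    have hinjt := (ht A hA).1
    let ov : (Fin n → Fin k) → (Fin n → Fin k) := fun χ a =>
      if h : ∃ i, t A i = a then h.choose else χ a
    have hov : ∀ χ i, ov χ (t A i) = i := by
      intro χ i
      have h : ∃ j, t A j = t A i := ⟨i, rfl⟩
      simp only [ov, dif_pos h]
      exact hinjt h.choose_spec
    let Ψ : (Fin n → Fin k) → (Fin k → Fin k) × (Fin n → Fin k) := fun χ =>
      (fun i => χ (t A i), ov χ)
    have hΨ : Function.Injective Ψ := by
      intro χ χ' e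
      have e1 := congrArg Prod.fst e
      have e2 := congrArg Prod.snd e
      funext a
      by_cases h : ∃ i, t A i = a
      · obtain ⟨i, rfl⟩ := h
        exact congrFun e1 i
      · have := congrFun e2 a
        simp only [Ψ, ov, dif_neg h] at this
        exact this
    have := Finset.card_le_card_of_injOn (s := (univ : Finset (Fin n → Fin k)))
      (t := (univ : Finset (Fin k → Fin k)) ×ˢ
        ((univ : Finset (Fin n → Fin k)).filter (fun χ => ∀ i, χ (t A i) = i)))
      Ψ (by
        intro χ _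
        rw [Finset.mem_coe, Finset.mem_product]
        refine ⟨mem_univ _, ?_⟩
        rw [Finset.mem_filter]
        exact ⟨mem_univ _, hov χ⟩) (hΨ.injOn)
    rw [Finset.card_product] at this
    simpa using this
  let G : (Fin n → Fin k) → Finset (Finset (Fin n)) := fun χ =>
    F.filter (fun A => ∀ i, χ (t A i) = i)
  have hne : (univ : Finset (Fin n → Fin k)).Nonempty := ⟨fun _ => ⟨0, hk⟩, mem_univ _⟩
  obtain ⟨χ, _, hmax⟩ := (univ : Finset (Fin n → Fin k)).exists_max_image (fun χ => (G χ).card) hne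
  have hdc : ∑ A ∈ F, ((univ : Finset (Fin n → Fin k)).filter (fun χ => ∀ i, χ (t A i) = i)).card
      = ∑ χ : Fin n → Fin k, (G χ).card := by
    simp only [G, Finset.card_filter]
    rw [Finset.sum_comm]
  have hmain : F.card * k ^ n ≤ (k ^ k * (G χ).card) * k ^ n := by
    calc F.card * k ^ n = ∑ _A ∈ F, k ^ n := by simp
      _ ≤ ∑ A ∈ F, k ^ k *
        ((univ : Finset (Fin n → Fin k)).filter (fun χ => ∀ i, χ (t A i) = i)).card :=
          Finset.sum_le_sum hcount
      _ = k ^ k * ∑ χ : Fin n → Fin k, (G χ).card := by rw [← Finset.mul_sum, hdc]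
      _ ≤ k ^ k * ∑ _χ : Fin n → Fin k, (G χ).card := by
          apply Nat.mul_le_mul_left
          exact Finset.sum_le_sum (fun ψ _ => hmax ψ (mem_univ _))
      _ = (k ^ k * (G χ).card) * k ^ n := by simp; ring
  have hmain' : F.card ≤ k ^ k * (G χ).card :=
    Nat.le_of_mul_le_mul_right hmain (by positivity)
  refine ⟨χ, (G χ).image t, ?_, ?_, ?_⟩
  · rw [Finset.card_image_of_injOn]
    · exact hmain'
    · intro A hA B hB e
      have hA' := (Finset.mem_filter.1 hA).1
      have hB' := (Finset.mem_filter.1 hB).1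
      rw [← (ht A hA').2, ← (ht B hB').2, e]
  · intro f hf i
    obtain ⟨A, hA, rfl⟩ := Finset.mem_image.1 hf
    exact (Finset.mem_filter.1 hA).2 i
  · intro f hf
    obtain ⟨A, hA, rfl⟩ := Finset.mem_image.1 hf
    rw [(ht A (Finset.mem_filter.1 hA).1).2]
    exact (Finset.mem_filter.1 hA).1

/-- Admissible pattern families for `L`. -/
def Adm (L : Finset ℕ) (J : Finset (Finset (Fin k))) : Prop := Cl J ∧ ∀ I ∈ J, I.card ∈ L

/-- Upper bound for `m(n,k,L)` by the pattern families. -/
lemma mL_le (hk : 1 ≤ k) : ∃ C : ℕ, 1 ≤ C ∧ ∀ (L : Finset ℕ) (n : ℕ),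
    ∃ J : Finset (Finset (Fin k)), Adm L J ∧ mL k L n ≤ C * R J n := by
  classical
  obtain ⟨C, hC, hst⟩ := structure_thm k hk
  refine ⟨k ^ k * C, Nat.one_le_iff_ne_zero.2 (by positivity), ?_⟩
  intro L n
  obtain ⟨F, hFc, hFk, hFL⟩ := ex_mL k L n
  obtain ⟨χ, T, hT1, hT2, hT3⟩ := exists_colouring hk F hFk
  obtain ⟨T', hT'1, hT'2, hT'3⟩ := hst n T
  refine ⟨re T', ⟨hT'3, ?_⟩, ?_⟩
  · intro I hI
    obtain ⟨f, hf, g, hg, hfg, hag⟩ := mem_re.1 hI
    have hf' := hT'1 hf
    have hg' := hT'1 hg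
    rw [← hag, ← card_inter χ (hT2 f hf') (hT2 g hg')]
    apply hFL _ (hT3 f hf') _ (hT3 g hg')
    intro e
    have h1 := card_inter χ (hT2 f hf') (hT2 g hg')
    rw [e, Finset.inter_self, hFk _ (hT3 g hg')] at h1
    have : ag f g = univ := by
      apply Finset.eq_univ_of_card
      rw [← h1]; simp
    exact hfg (ag_eq_univ.1 this)
  · rw [← hFc]
    calc F.card ≤ k ^ k * T.card := hT1
      _ ≤ k ^ k * (C * T'.card) := Nat.mul_le_mul_left _ hT'2
      _ ≤ k ^ k * (C * R (re T') n) := by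
          apply Nat.mul_le_mul_left
          apply Nat.mul_le_mul_left
          apply le_R
          intro f hf g hg hfg
          exact mem_re.2 ⟨f, hf, g, hg, hfg, rfl⟩
      _ = k ^ k * C * R (re T') n := by ring

/-- Lower bound for `m(n,k,L)` by the pattern families. -/
lemma le_mL_R {L : Finset ℕ} {J : Finset (Finset (Fin k))} (hJ : ∀ I ∈ J, I.card ∈ L)
    (hk : 1 ≤ k) (n : ℕ) : R J (n / k) ≤ mL k L n := by
  classical
  obtain ⟨T, hT, hok⟩ := ex_R J (n / k)
  rw [← hT]
  have hle : k * (n / k) ≤ n := Nat.mul_div_le n k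
  let e : Fin k × Fin (n / k) → Fin n := fun p => Fin.castLE hle (finProdFinEquiv p)
  have he : Function.Injective e := by
    intro p q h
    exact finProdFinEquiv.injective (Fin.castLE_injective hle h)
  let Φ : (Fin k → Fin (n / k)) → Finset (Fin n) := fun f => univ.image (fun i => e (i, f i))
  have hinj : ∀ f : Fin k → Fin (n / k), Function.Injective (fun i => e (i, f i)) := by
    intro f i j h
    exact (Prod.mk.inj (he h)).1
  have hint : ∀ f g, Φ f ∩ Φ g = (ag f g).image (fun i => e (i, f i)) := by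
    intro f g
    ext a
    simp only [Φ, Finset.mem_inter, Finset.mem_image, Finset.mem_univ, true_and]
    constructor
    · rintro ⟨⟨i, rfl⟩, ⟨j, hj⟩⟩
      have h := Prod.mk.inj (he hj)
      obtain ⟨h1, h2⟩ := h
      subst h1
      exact ⟨j, mem_ag.2 h2.symm, rfl⟩
    · rintro ⟨i, hi, rfl⟩
      exact ⟨⟨i, rfl⟩, ⟨i, by rw [mem_ag.1 hi]⟩⟩
  have hcard : ∀ f g, (Φ f ∩ Φ g).card = (ag f g).card := by
    intro f g
    rw [hint, Finset.card_image_of_injective _ (hinj f)]
  have hΦ : Function.Injective Φ := by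
    intro f g h
    have h1 := hcard f g
    rw [h, Finset.inter_self] at h1
    have h2 : (Φ g).card = k := by
      simp only [Φ]
      rw [Finset.card_image_of_injective _ (hinj g)]
      simp
    rw [h2] at h1
    have : ag f g = univ := by
      apply Finset.eq_univ_of_card
      rw [← h1]; simp
    exact ag_eq_univ.1 this
  rw [← Finset.card_image_of_injective T hΦ]
  apply le_mL
  · intro A hA
    obtain ⟨f, _, rfl⟩ := Finset.mem_image.1 hA
    simp only [Φ]
    rw [Finset.card_image_of_injective _ (hinj f)]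
    simp
  · intro A hA B hB hAB
    obtain ⟨f, hf, rfl⟩ := Finset.mem_image.1 hA
    obtain ⟨g, hg, rfl⟩ := Finset.mem_image.1 hB
    rw [hcard]
    exact hJ _ (hok f hf g hg (fun h => hAB (by rw [h])))

end Pool.Agent.Helper881.Ls
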