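import Pool.Agent.Helper881.LsC

set_option autoImplicit false

namespace Pool.Agent.Helper881.Ls

open Finset Filter Topology

theorem main (k : ℕ) (L : Finset ℕ) (hL : L.Nonempty) (hLk : L ⊆ Finset.range k) :
    ∃ α : ℝ, 1 ≤ α ∧
      (∃ C : ℝ, 0 < C ∧ ∀ n : ℕ, 1 ≤ n → (mL k L n : ℝ) ≤ C * (n : ℝ) ^ α) ∧
      (∀ β : ℝ, β < α → ∃ c : ℝ, 0 < c ∧ ∀ n : ℕ, k ≤ n → c * (n : ℝ) ^ β ≤ (mL k L n : ℝ)) := by
  classical
  obtain ⟨l, hl⟩ := hL
  have hlk : l < k := Finset.mem_range.1 (hLk hl)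
  have hk : 1 ≤ k := by omega
  -- the admissible pattern families
  let A : Finset (Finset (Finset (Fin k))) := univ.filter (fun J => Adm L J)
  obtain ⟨I0, _, hI0⟩ := Finset.exists_subset_card_eq
    (s := (univ : Finset (Fin k))) (n := l) (by simpa using hlk.le)
  have hJ0 : Adm L ({I0} : Finset (Finset (Fin k))) := by
    refine ⟨?_, ?_⟩
    · intro I hI I' hI'
      rw [Finset.mem_singleton] at hI hI' ⊢
      rw [hI, hI', Finset.inter_self]
    · intro I hI
      rw [Finset.mem_singleton] at hI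
      rw [hI, hI0]; exact hl
  have hI0u : I0 ≠ univ := by
    intro h
    rw [h] at hI0
    simp at hI0
    omega
  have hA : A.Nonempty := ⟨{I0}, by simp [A, hJ0]⟩
  obtain ⟨J, hJA, hJmax⟩ := A.exists_max_image (fun J => al J) hA
  have hJ : Adm L J := (Finset.mem_filter.1 hJA).2
  have h1 : 1 ≤ al J := by
    refine le_trans ?_ (hJmax {I0} (by simp [A, hJ0]))
    exact one_le_al (Finset.mem_singleton_self I0) hI0u
  refine ⟨al J, h1, ?_, ?_⟩
  · obtain ⟨C, hC, hub⟩ := mL_le (k := k) hk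
    refine ⟨C, by exact_mod_cast hC, ?_⟩
    intro n hn
    obtain ⟨J', hJ', hle⟩ := hub L n
    have h2 : al J' ≤ al J := hJmax J' (by simp [A, hJ'])
    have hn1 : (1 : ℝ) ≤ n := by exact_mod_cast hn
    calc (mL k L n : ℝ) ≤ C * R J' n := by exact_mod_cast hle
      _ ≤ C * (n : ℝ) ^ al J' := by
          apply mul_le_mul_of_nonneg_left (R_le_rpow J' hn) (by positivity)
      _ ≤ C * (n : ℝ) ^ al J := by
          apply mul_le_mul_of_nonneg_left _ (by positivity)
          exact Real.rpow_le_rpow_of_exponent_le hn1 h2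
  · intro β hβ
    -- we may enlarge β
    set β' := max β 0 with hβ'
    have hβ'1 : β' < al J := max_lt hβ (by linarith)
    obtain ⟨c, hc, hlow⟩ := R_ge hJ.1 hβ'1 (le_max_right _ _)
    have hk0 : (0 : ℝ) < k := by exact_mod_cast hk
    refine ⟨c * ((2 * k : ℝ) ^ β')⁻¹, by positivity, ?_⟩
    intro n hn
    have hq : 1 ≤ n / k := (Nat.one_le_div_iff (by omega)).2 hn
    have hn1 : (1 : ℝ) ≤ n := by exact_mod_cast (by omega : 1 ≤ n)
    have h3 : (n : ℝ) ≤ 2 * k * ((n / k : ℕ) : ℝ) := by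
      have : n < k * (n / k) + k := by
        have := Nat.div_add_mod n k
        have h4 := Nat.mod_lt n (show 0 < k by omega)
        omega
      have h5 : n ≤ 2 * k * (n / k) := by nlinarith
      exact_mod_cast h5
    have h4 : (n : ℝ) ^ β' ≤ (2 * k : ℝ) ^ β' * ((n / k : ℕ) : ℝ) ^ β' := by
      rw [← Real.mul_rpow (by positivity) (by positivity)]
      exact Real.rpow_le_rpow (by positivity) h3 (le_max_right _ _)
    calc c * ((2 * k : ℝ) ^ β')⁻¹ * (n : ℝ) ^ β
        ≤ c * ((2 * k : ℝ) ^ β')⁻¹ * (n : ℝ) ^ β' := by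
          apply mul_le_mul_of_nonneg_left _ (by positivity)
          exact Real.rpow_le_rpow_of_exponent_le hn1 (le_max_left _ _)
      _ ≤ c * ((2 * k : ℝ) ^ β')⁻¹ * ((2 * k : ℝ) ^ β' * ((n / k : ℕ) : ℝ) ^ β') := by
          apply mul_le_mul_of_nonneg_left h4 (by positivity)
      _ = c * ((n / k : ℕ) : ℝ) ^ β' := by
          have : (2 * k : ℝ) ^ β' ≠ 0 := by positivity
          field_simp
      _ ≤ R J (n / k) := hlow _ hq
      _ ≤ (mL k L n : ℝ) := by exact_mod_cast le_mL_R hJ.2 hk n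

theorem main' (k : ℕ) (L : Finset ℕ) (hL : L.Nonempty) (hLk : L ⊆ Finset.range k) :
    ∃ α : ℝ, 1 ≤ α ∧
      (∃ C : ℝ, 0 < C ∧ ∀ n : ℕ, 1 ≤ n → (mL k L n : ℝ) ≤ C * (n : ℝ) ^ α) ∧
      (∀ β : ℝ, β < α → ∃ c : ℝ, 0 < c ∧ ∀ n : ℕ, k ≤ n → c * (n : ℝ) ^ β ≤ (mL k L n : ℝ)) ∧
      Tendsto (fun n : ℕ => Real.log (mL k L n) / Real.log n) atTop (𝓝 α) := by
  obtain ⟨α, h1, ⟨C, hC, hub⟩, hlow⟩ := main k L hL hLk
  refine ⟨α, h1, ⟨C, hC, hub⟩, hlow, ?_⟩
  have hlogt : Tendsto (fun n : ℕ => Real.log (n : ℝ)) atTop atTop :=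
    Real.tendsto_log_atTop.comp tendsto_natCast_atTop_atTop
  rw [Metric.tendsto_atTop]
  intro ε hε
  -- upper side
  obtain ⟨c, hc, hc2⟩ := hlow (α - ε / 2) (by linarith)
  have hdiv : ∀ x : ℝ, Tendsto (fun n : ℕ => x / Real.log (n : ℝ)) atTop (𝓝 0) := by
    intro x
    exact hlogt.const_div_atTop x
  obtain ⟨N1, hN1⟩ := Metric.tendsto_atTop.1 (hdiv (Real.log C)) ε hε
  obtain ⟨N2, hN2⟩ := Metric.tendsto_atTop.1 (hdiv (Real.log c)) (ε / 2) (by linarith)
  refine ⟨max (max N1 N2) (max k 2), ?_⟩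
  intro n hn
  have hn1 : N1 ≤ n := le_trans (le_trans (le_max_left _ _) (le_max_left _ _)) hn
  have hn2 : N2 ≤ n := le_trans (le_trans (le_max_right _ _) (le_max_left _ _)) hn
  have hnk : k ≤ n := le_trans (le_trans (le_max_left _ _) (le_max_right _ _)) hn
  have hn3 : 2 ≤ n := le_trans (le_trans (le_max_right _ _) (le_max_right _ _)) hn
  have hn0 : (0 : ℝ) < n := by positivity
  have hlog : 0 < Real.log n := Real.log_pos (by exact_mod_cast hn3)
  have hlo := hc2 n hnk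
  have hpos : (0 : ℝ) < mL k L n := lt_of_lt_of_le (by positivity) hlo
  have hup := hub n (by omega)
  have e1 : Real.log (mL k L n) ≤ Real.log C + α * Real.log n := by
    have := Real.log_le_log hpos hup
    rwa [Real.log_mul (by positivity) (by positivity), Real.log_rpow hn0] at this
  have e2 : Real.log c + (α - ε / 2) * Real.log n ≤ Real.log (mL k L n) := by
    have := Real.log_le_log (by positivity) hlo
    rwa [Real.log_mul (by positivity) (by positivity), Real.log_rpow hn0] at this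
  have f1 := hN1 n hn1
  have f2 := hN2 n hn2
  rw [Real.dist_eq, sub_zero] at f1 f2
  rw [Real.dist_eq, abs_lt]
  have g1 := (abs_lt.1 f1).2
  have g2 := (abs_lt.1 f2).1
  rw [div_lt_iff₀ hlog] at g1
  rw [lt_div_iff₀ hlog] at g2
  constructor
  · rw [lt_sub_iff_add_lt, lt_div_iff₀ hlog]
    nlinarith
  · rw [sub_lt_iff_lt_add, div_lt_iff₀ hlog]
    nlinarith

end Pool.Agent.Helper881.Ls
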