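import Pool.Agent.Helper881.LsC

set_option autoImplicit false

namespace Pool.Agent.Helper881.Ls

open Finset

variable {k : ℕ}

/-- Lower bound of full order from one good alphabet. -/
lemma order_of_R {L : Finset ℕ} {J : Finset (Finset (Fin k))} (hJ : Cl J)
    (hL : ∀ I ∈ J, I.card ∈ L) (hk : 1 ≤ k) {q s : ℕ} (hq : 2 ≤ q) (h : q ^ s ≤ R J q) :
    ∃ c : ℝ, 0 < c ∧ ∀ n : ℕ, k ≤ n → c * (n : ℝ) ^ s ≤ (mL k L n : ℝ) := by
  have hq0 : (0 : ℝ) < q := by positivity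
  have hk0 : (0 : ℝ) < k := by exact_mod_cast hk
  refine ⟨((2 * k * q : ℝ) ^ s)⁻¹, by positivity, ?_⟩
  intro n hn
  have hd : 1 ≤ n / k := (Nat.one_le_div_iff (by omega)).2 hn
  set t := Nat.log q (n / k) with ht
  have h1 : q ^ t ≤ n / k := Nat.pow_log_le_self q (by omega)
  have h2 : n / k < q ^ (t + 1) := Nat.lt_pow_succ_log_self (by omega) _
  have h3 : n < k * (n / k) + k := by
    have := Nat.div_add_mod n k
    have h4 := Nat.mod_lt n (show 0 < k by omega)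
    omega
  have h5 : n ≤ 2 * k * q * q ^ t := by
    have h6 : n / k ≤ q * q ^ t := by rw [pow_succ] at h2; nlinarith
    have h7 : k * (n / k) + k ≤ 2 * k * (n / k) := by nlinarith
    calc n ≤ 2 * k * (n / k) := by omega
      _ ≤ 2 * k * (q * q ^ t) := Nat.mul_le_mul_left _ h6
      _ = 2 * k * q * q ^ t := by ring
  have h8 : (q ^ t) ^ s ≤ mL k L n := by
    calc (q ^ t) ^ s = (q ^ s) ^ t := by rw [← pow_mul, ← pow_mul, mul_comm]
      _ ≤ (R J q) ^ t := Nat.pow_le_pow_left h t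
      _ ≤ R J (q ^ t) := R_pow hJ q t
      _ ≤ R J (n / k) := R_mono J h1
      _ ≤ mL k L n := le_mL_R hL hk n
  have h9 : (n : ℝ) ^ s ≤ (2 * k * q : ℝ) ^ s * ((q : ℝ) ^ t) ^ s := by
    rw [← mul_pow]
    apply pow_le_pow_left₀ (by positivity)
    exact_mod_cast h5
  calc ((2 * k * q : ℝ) ^ s)⁻¹ * (n : ℝ) ^ s
      ≤ ((2 * k * q : ℝ) ^ s)⁻¹ * ((2 * k * q : ℝ) ^ s * ((q : ℝ) ^ t) ^ s) := by
        apply mul_le_mul_of_nonneg_left h9 (by positivity)
    _ = ((q : ℝ) ^ t) ^ s := by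
        have : (2 * k * q : ℝ) ^ s ≠ 0 := by positivity
        field_simp
    _ ≤ (mL k L n : ℝ) := by exact_mod_cast h8

/-- The functional `x ↦ a · x`. -/
def dl {s : ℕ} {K : Type} [Field K] (a : Fin s → K) : (Fin s → K) →ₗ[K] K where
  toFun x := a ⬝ᵥ x
  map_add' x y := dotProduct_add a x y
  map_smul' c x := by simp [dotProduct_smul]

lemma dl_apply {s : ℕ} {K : Type} [Field K] (a x : Fin s → K) : dl a x = a ⬝ᵥ x := rfl

lemma dl_ker {s : ℕ} {K : Type} [Field K] {a : Fin s → K} (h : LinearMap.ker (dl a) = ⊤) :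
    a = 0 := by
  classical
  rw [LinearMap.ker_eq_top] at h
  funext j
  have := LinearMap.congr_fun h (Pi.single j 1)
  simpa [dl_apply] using this

/-- Sufficient condition: a vector configuration over a finite field. -/
theorem order_of_vectors {L : Finset ℕ} (hL : L.Nonempty) (hLk : L ⊆ Finset.range k) {s : ℕ}
    {K : Type} [Field K] [Fintype K] (v : Fin k → (Fin s → K))
    (h : ∀ W : Submodule K (Fin s → K), W ≠ ⊤ →
      ∀ A : Finset (Fin k), (∀ i, i ∈ A ↔ v i ∈ W) → A.card ∈ L) :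
    ∃ c : ℝ, 0 < c ∧ ∀ n : ℕ, k ≤ n → c * (n : ℝ) ^ s ≤ (mL k L n : ℝ) := by
  classical
  obtain ⟨l, hl⟩ := hL
  have hlk : l < k := Finset.mem_range.1 (hLk hl)
  have hk : 1 ≤ k := by omega
  let J : Finset (Finset (Fin k)) := univ.filter (fun I =>
    ∃ W : Submodule K (Fin s → K), W ≠ ⊤ ∧ ∀ i, i ∈ I ↔ v i ∈ W)
  have hJmem : ∀ I, I ∈ J ↔ ∃ W : Submodule K (Fin s → K), W ≠ ⊤ ∧ ∀ i, i ∈ I ↔ v i ∈ W := by
    intro I; simp [J]
  have hJcl : Cl J := by
    intro I hI I' hI'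
    obtain ⟨W, hW, hWI⟩ := (hJmem I).1 hI
    obtain ⟨W', hW', hWI'⟩ := (hJmem I').1 hI'
    refine (hJmem _).2 ⟨W ⊓ W', ?_, ?_⟩
    · intro e
      apply hW
      rw [eq_top_iff, ← e]
      exact inf_le_left
    · intro i
      rw [Finset.mem_inter, hWI, hWI', Submodule.mem_inf]
  have hJL : ∀ I ∈ J, I.card ∈ L := by
    intro I hI
    obtain ⟨W, hW, hWI⟩ := (hJmem I).1 hI
    exact h W hW I hWI
  have hJu : ∀ I ∈ J, I ≠ univ := by
    intro I hI e
    have h1 := hLk (hJL I hI)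
    rw [e, Finset.mem_range] at h1
    simp at h1
  set q := Fintype.card K with hq
  have hq2 : 2 ≤ q := Fintype.one_lt_card
  let e : K ≃ Fin q := Fintype.equivFin K
  let Φ : (Fin s → K) → (Fin k → Fin q) := fun a i => e (a ⬝ᵥ v i)
  have hag : ∀ a b, a ≠ b → ag (Φ a) (Φ b) ∈ J := by
    intro a b hab
    refine (hJmem _).2 ⟨LinearMap.ker (dl (a - b)), ?_, ?_⟩
    · intro htop
      exact hab (sub_eq_zero.1 (dl_ker htop))
    · intro i
      rw [mem_ag, LinearMap.mem_ker, dl_apply, sub_dotProduct, sub_eq_zero]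
      simp only [Φ, EmbeddingLike.apply_eq_iff_eq]
  have hinj : Function.Injective Φ := by
    intro a b hab
    by_contra hne
    exact hJu _ (hag a b hne) (ag_eq_univ.2 hab)
  apply order_of_R hJcl hJL hk hq2
  have hT : (univ.image Φ).card = q ^ s := by
    rw [Finset.card_image_of_injective _ hinj]
    simp [hq]
  rw [← hT]
  apply le_R
  intro f hf g hg hfg
  obtain ⟨a, _, rfl⟩ := Finset.mem_image.1 hf
  obtain ⟨b, _, rfl⟩ := Finset.mem_image.1 hg
  exact hag a b (fun e => hfg (by rw [e]))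

end Pool.Agent.Helper881.Ls
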