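import Pool.Agent.Helper881.LsE

set_option autoImplicit false

namespace Pool.Agent.Helper881.Ls

open Finset

lemma exists_dl {s : ℕ} {K : Type} [Field K] (f : (Fin s → K) →ₗ[K] K) : ∃ a, f = dl a := by
  classical
  refine ⟨fun j => f (Pi.single j 1), ?_⟩
  apply LinearMap.pi_ext'
  intro j
  ext
  simp [dl_apply]

/-- The zero set of the functional `a` among the vectors `v`. -/
def zr {k s : ℕ} (v : Fin k → (Fin s → ZMod 3)) (a : Fin s → ZMod 3) : Finset (Fin k) :=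
  univ.filter (fun i => a ⬝ᵥ v i = 0)

lemma mem_zr {k s : ℕ} {v : Fin k → (Fin s → ZMod 3)} {a : Fin s → ZMod 3} {i : Fin k} :
    i ∈ zr v a ↔ a ⬝ᵥ v i = 0 := by simp [zr]

lemma four (x y : ZMod 3) : x = 0 ∨ y = 0 ∨ x + y = 0 ∨ x - y = 0 := by
  revert x y; decide

lemma golay {k s M : ℕ} (v : Fin k → (Fin s → ZMod 3)) (hM : ∀ a, a ≠ 0 → (zr v a).card ≤ M)
    (W : Submodule (ZMod 3) (Fin s → ZMod 3)) (hW : W ≠ ⊤) (A : Finset (Fin k))
    (hA : ∀ i, i ∈ A ↔ v i ∈ W) :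
    (∃ a, a ≠ 0 ∧ A = zr v a) ∨ 3 * A.card + k ≤ 4 * M := by
  classical
  have : Fact (Nat.Prime 3) := ⟨by norm_num⟩
  obtain ⟨f, hf, hWf⟩ := Submodule.exists_le_ker_of_lt_top W (lt_top_iff_ne_top.2 hW)
  obtain ⟨a, rfl⟩ := exists_dl f
  have ha : a ≠ 0 := by
    rintro rfl
    apply hf
    ext; simp [dl_apply]
  by_cases hex : LinearMap.ker (dl a) ≤ W
  · left
    refine ⟨a, ha, ?_⟩
    ext i
    rw [hA, mem_zr, le_antisymm hWf hex, LinearMap.mem_ker, dl_apply]
  · right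
    obtain ⟨x, hx, hxW⟩ := SetLike.not_le_iff_exists.1 hex
    obtain ⟨g, hgx, hWg⟩ := Submodule.exists_le_ker_of_notMem hxW
    obtain ⟨b, rfl⟩ := exists_dl g
    rw [LinearMap.mem_ker, dl_apply] at hx
    rw [dl_apply] at hgx
    have hb : b ≠ 0 := by
      rintro rfl
      simp at hgx
    have hab : a + b ≠ 0 := by
      intro e
      have : (a + b) ⬝ᵥ x = 0 := by rw [e]; simp
      rw [add_dotProduct, hx, zero_add] at this
      exact hgx this
    have hab' : a - b ≠ 0 := by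
      intro e
      have : (a - b) ⬝ᵥ x = 0 := by rw [e]; simp
      rw [sub_dotProduct, hx, zero_sub, neg_eq_zero] at this
      exact hgx this
    have hAa : ∀ i ∈ A, a ⬝ᵥ v i = 0 := by
      intro i hi
      have := hWf ((hA i).1 hi)
      rwa [LinearMap.mem_ker, dl_apply] at this
    have hAb : ∀ i ∈ A, b ⬝ᵥ v i = 0 := by
      intro i hi
      have := hWg ((hA i).1 hi)
      rwa [LinearMap.mem_ker, dl_apply] at this
    have h1 := hM a ha
    have h2 := hM b hb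
    have h3 := hM _ hab
    have h4 := hM _ hab'
    have key : 3 * A.card + k ≤
        (zr v a).card + (zr v b).card + (zr v (a + b)).card + (zr v (a - b)).card := by
      have e1 : ∀ c, (zr v c).card = ∑ i : Fin k, if c ⬝ᵥ v i = 0 then 1 else 0 := by
        intro c; simp [zr]
      have e2 : A.card = ∑ i : Fin k, if i ∈ A then 1 else 0 := by simp
      have e3 : 3 * A.card + k = ∑ i : Fin k, (3 * (if i ∈ A then 1 else 0) + 1) := by
        rw [Finset.sum_add_distrib, ← Finset.mul_sum, ← e2]; simp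
      rw [e1, e1, e1, e1, e3]
      rw [← Finset.sum_add_distrib, ← Finset.sum_add_distrib, ← Finset.sum_add_distrib]
      apply Finset.sum_le_sum
      intro i _
      by_cases hi : i ∈ A
      · have x1 := hAa i hi
        have x2 := hAb i hi
        simp [hi, x1, x2, add_dotProduct, sub_dotProduct]
      · rw [add_dotProduct, sub_dotProduct]
        rcases four (a ⬝ᵥ v i) (b ⬝ᵥ v i) with h | h | h | h <;> simp [hi, h] <;> omega
    omega

/-- The columns of a generator matrix of the `[11,5,6]` ternary code. -/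
def v11 : Fin 11 → (Fin 5 → ZMod 3) :=
  ![![2,1,1,2,0], ![1,0,0,0,0], ![0,1,0,0,0], ![0,0,1,0,0], ![0,0,0,1,0], ![0,0,0,0,1],
    ![1,1,1,1,1], ![2,2,0,1,1], ![0,1,2,1,2], ![1,2,1,0,2], ![1,0,2,2,1]]

/-- The columns of a generator matrix of the extended ternary Golay code. -/
def v12 : Fin 12 → (Fin 6 → ZMod 3) :=
  ![![1,0,0,0,0,0], ![0,1,0,0,0,0], ![0,0,1,0,0,0], ![0,0,0,1,0,0], ![0,0,0,0,1,0],
    ![0,0,0,0,0,1], ![0,1,1,1,1,1], ![1,0,1,2,2,1], ![1,1,0,1,2,2], ![1,2,1,0,1,2],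
    ![1,2,2,1,0,1], ![1,1,2,2,1,0]]

lemma w11 : ∀ a : Fin 5 → ZMod 3, a ≠ 0 → ((zr v11 a).card = 5 ∨ (zr v11 a).card = 2) := by
  decide +kernel

lemma w12 : ∀ a : Fin 6 → ZMod 3, a ≠ 0 →
    ((zr v12 a).card = 6 ∨ (zr v12 a).card = 3 ∨ (zr v12 a).card = 0) := by
  decide +kernel

theorem order11 : ∃ c : ℝ, 0 < c ∧ ∀ n : ℕ, 11 ≤ n →
    c * (n : ℝ) ^ 5 ≤ (mL 11 {0, 1, 2, 3, 5} n : ℝ) := by
  have : Fact (Nat.Prime 3) := ⟨by norm_num⟩
  apply order_of_vectors (K := ZMod 3) ⟨0, by simp⟩ (by decide) v11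
  intro W hW A hA
  rcases golay v11 (M := 5) (fun a ha => by rcases w11 a ha with h | h <;> omega) W hW A hA with
    ⟨a, ha, rfl⟩ | h
  · rcases w11 a ha with h | h <;> simp [h]
  · have : A.card ≤ 3 := by omega
    interval_cases A.card <;> simp

theorem order12 : ∃ c : ℝ, 0 < c ∧ ∀ n : ℕ, 12 ≤ n →
    c * (n : ℝ) ^ 6 ≤ (mL 12 {0, 1, 2, 3, 4, 6} n : ℝ) := by
  have : Fact (Nat.Prime 3) := ⟨by norm_num⟩
  apply order_of_vectors (K := ZMod 3) ⟨0, by simp⟩ (by decide) v12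
  intro W hW A hA
  rcases golay v12 (M := 6) (fun a ha => by rcases w12 a ha with h | h | h <;> omega) W hW A hA with
    ⟨a, ha, rfl⟩ | h
  · rcases w12 a ha with h | h | h <;> simp [h]
  · have : A.card ≤ 4 := by omega
    interval_cases A.card <;> simp

end Pool.Agent.Helper881.Ls
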