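import Pool.Agent.Helper881.LsC

set_option autoImplicit false

namespace Pool.Agent.Helper881.Ls

open Finset

variable {k : ℕ}

/-- `X` generates `B` in `J`: `X ⊆ B` and every member of `J` containing `X` contains `B`. -/
def Gen (J : Finset (Finset (Fin k))) (X B : Finset (Fin k)) : Prop :=
  X ⊆ B ∧ ∀ D ∈ J, X ⊆ D → B ⊆ D

/-- `X` is a key: no member of `J` contains it. -/
def Key (J : Finset (Finset (Fin k))) (X : Finset (Fin k)) : Prop := ∀ D ∈ J, ¬ X ⊆ D

lemma R_le_key {J : Finset (Finset (Fin k))} {X : Finset (Fin k)} (hX : Key J X) (n : ℕ) :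
    R J n ≤ n ^ X.card := by
  classical
  obtain ⟨T, hT, hok⟩ := ex_R J n
  rw [← hT]
  have : T.card ≤ (univ : Finset (X → Fin n)).card := by
    apply Finset.card_le_card_of_injOn (fun f (i : X) => f i.1) (fun f _ => by simp)
    intro f hf g hg hfg
    by_contra hne
    apply hX _ (hok f hf g hg hne)
    intro i hi
    exact mem_ag.2 (congrFun hfg ⟨i, hi⟩)
  simpa using this

/-- The closure of a set contained in some member. -/
lemma exists_cl {J : Finset (Finset (Fin k))} (hJ : Cl J) {X : Finset (Fin k)}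
    (hX : ¬ Key J X) : ∃ B ∈ J, Gen J X B := by
  classical
  unfold Key at hX
  push Not at hX
  let S := J.filter (fun D => X ⊆ D)
  have hS : S.Nonempty := by
    obtain ⟨D, hD, hXD⟩ := hX
    exact ⟨D, by simp [S, hD, hXD]⟩
  obtain ⟨B, hB, hmin⟩ := S.exists_min_image (fun D => D.card) hS
  obtain ⟨hBJ, hXB⟩ := Finset.mem_filter.1 hB
  refine ⟨B, hBJ, hXB, ?_⟩
  intro D hD hXD
  have h1 : B ∩ D ∈ S := by
    simp only [S, Finset.mem_filter]
    exact ⟨hJ _ hBJ _ hD, Finset.subset_inter hXB hXD⟩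
  have h2 := hmin _ h1
  have h3 : B ∩ D = B := Finset.eq_of_subset_of_card_le Finset.inter_subset_left h2
  rw [← h3]
  exact Finset.inter_subset_right

/-- Number of elements of `L` below `a`. -/
def ix (L : Finset ℕ) (a : ℕ) : ℕ := (L.filter (fun l => l < a)).card

lemma ix_lt {L : Finset ℕ} {a b : ℕ} (ha : a ∈ L) (hab : a < b) : ix L a + 1 ≤ ix L b := by
  unfold ix
  have : insert a (L.filter (fun l => l < a)) ⊆ L.filter (fun l => l < b) := by
    intro l hl
    rw [Finset.mem_insert, Finset.mem_filter] at hl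
    rw [Finset.mem_filter]
    rcases hl with rfl | ⟨h1, h2⟩
    · exact ⟨ha, hab⟩
    · exact ⟨h1, h2.trans hab⟩
  have h2 := Finset.card_le_card this
  rwa [Finset.card_insert_of_notMem (by simp)] at h2

lemma ix_lt_card {L : Finset ℕ} {a : ℕ} (ha : a ∈ L) : ix L a < L.card := by
  unfold ix
  apply Finset.card_lt_card
  refine ⟨Finset.filter_subset _ _, ?_⟩
  intro h
  have := h ha
  simp at this

/-- Every generated member extends to a key. -/
lemma ext_key {L : Finset ℕ} (hLk : L ⊆ Finset.range k) {J : Finset (Finset (Fin k))}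
    (hJ : Cl J) (hL : ∀ I ∈ J, I.card ∈ L) : ∀ (N : ℕ) (B X : Finset (Fin k)), B ∈ J →
    Gen J X B → L.card - ix L B.card ≤ N → ∃ Y, Key J Y ∧ Y.card ≤ X.card + N := by
  classical
  intro N
  induction N with
  | zero =>
    intro B X hB _ hN
    have := ix_lt_card (hL B hB)
    omega
  | succ N ih =>
    intro B X hB hX hN
    have hBu : ∃ x, x ∉ B := by
      by_contra h
      push Not at h
      have h1 := hLk (hL B hB)
      rw [Finset.eq_univ_of_forall h, Finset.mem_range] at h1
      simp at h1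
    obtain ⟨x, hx⟩ := hBu
    have hc : (insert x X).card ≤ X.card + 1 := Finset.card_insert_le _ _
    by_cases hk : Key J (insert x X)
    · exact ⟨_, hk, by omega⟩
    · obtain ⟨B', hB', hG⟩ := exists_cl hJ hk
      have h1 : B ⊆ B' := hX.2 B' hB' ((Finset.subset_insert _ _).trans hG.1)
      have h2 : x ∈ B' := hG.1 (Finset.mem_insert_self _ _)
      have h3 : B.card < B'.card := Finset.card_lt_card ⟨h1, fun h => hx (h h2)⟩
      have h4 := ix_lt (hL B hB) h3
      have h5 := ix_lt_card (hL B hB)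
      obtain ⟨Y, hY, hYc⟩ := ih B' _ hB' hG (by omega)
      exact ⟨Y, hY, by omega⟩

/-- There is always a key of size at most `|L|`. -/
lemma exists_key {L : Finset ℕ} (hLk : L ⊆ Finset.range k) {J : Finset (Finset (Fin k))}
    (hJ : Cl J) (hL : ∀ I ∈ J, I.card ∈ L) : ∃ Y, Key J Y ∧ Y.card ≤ L.card := by
  classical
  by_cases hk : Key J ∅
  · exact ⟨∅, hk, by simp⟩
  · obtain ⟨B, hB, hG⟩ := exists_cl hJ hk
    obtain ⟨Y, hY, hc⟩ := ext_key hLk hJ hL (L.card - ix L B.card) B ∅ hB hG le_rfl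
    exact ⟨Y, hY, by simp at hc; omega⟩

/-- A member of `J` is generated by at most `ix` many points. -/
lemma exists_gen {L : Finset ℕ} {J : Finset (Finset (Fin k))}
    (hJ : Cl J) (hL : ∀ I ∈ J, I.card ∈ L) : ∀ (N : ℕ) (A : Finset (Fin k)), A ∈ J →
    A.card ≤ N → ∃ X, Gen J X A ∧ X.card ≤ ix L A.card := by
  classical
  intro N
  induction N with
  | zero =>
    intro A hA hN
    refine ⟨∅, ⟨by simp, ?_⟩, by simp⟩
    intro D _ _
    have : A = ∅ := by rw [← Finset.card_eq_zero]; omega
    rw [this]; simp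
  | succ N ih =>
    intro A hA hN
    by_cases hmin : Gen J ∅ A
    · exact ⟨∅, hmin, by simp⟩
    · -- choose a maximal proper member below A
      let S := J.filter (fun D => D ⊂ A)
      have hS : S.Nonempty := by
        unfold Gen at hmin
        push Not at hmin
        obtain ⟨D, hD, _, hAD⟩ := hmin (by simp)
        refine ⟨A ∩ D, ?_⟩
        simp only [S, Finset.mem_filter]
        refine ⟨hJ _ hA _ hD, Finset.inter_subset_left, ?_⟩
        intro h
        exact hAD (h.trans Finset.inter_subset_right)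
      obtain ⟨C, hC, hmax⟩ := S.exists_max_image (fun D => D.card) hS
      obtain ⟨hCJ, hCA⟩ := Finset.mem_filter.1 hC
      have hlt := Finset.card_lt_card hCA
      obtain ⟨X, hX, hXc⟩ := ih C hCJ (by omega)
      obtain ⟨x, hxA, hxC⟩ := Finset.exists_of_ssubset hCA
      refine ⟨insert x X, ⟨?_, ?_⟩, ?_⟩
      · intro y hy
        rcases Finset.mem_insert.1 hy with rfl | hy
        · exact hxA
        · exact hCA.1 (hX.1 hy)
      · intro D hD hXD
        by_contra hAD
        have h1 : A ∩ D ∈ S := by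
          simp only [S, Finset.mem_filter]
          refine ⟨hJ _ hA _ hD, Finset.inter_subset_left, ?_⟩
          intro h
          exact hAD (h.trans Finset.inter_subset_right)
        have h2 := hmax _ h1
        have h3 : C ⊂ A ∩ D := by
          refine ⟨Finset.subset_inter hCA.1
            (hX.2 D hD ((Finset.subset_insert _ _).trans hXD)), ?_⟩
          intro h
          exact hxC (h (Finset.mem_inter.2 ⟨hxA, hXD (Finset.mem_insert_self _ _)⟩))
        have h4 := Finset.card_lt_card h3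
        omega
      · have h1 : (insert x X).card ≤ X.card + 1 := Finset.card_insert_le _ _
        have h2 := ix_lt (hL C hCJ) hlt
        omega

/-- `J` is the family of proper flats of a perfect matroid design on `Fin k` whose flat sizes
are the elements of `L` (and `k`). -/
structure PMD (k : ℕ) (L : Finset ℕ) (J : Finset (Finset (Fin k))) : Prop where
  inter : ∀ A ∈ J, ∀ B ∈ J, A ∩ B ∈ J
  card : ∀ A ∈ J, A.card ∈ L
  bot : ∃ A ∈ J, ∀ l ∈ L, A.card ≤ l
  cover : ∀ A ∈ J, ∀ x, x ∉ A → ∀ l ∈ L, A.card < l → (∀ l' ∈ L, A.card < l' → l ≤ l') →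
    ∃ B ∈ J, insert x A ⊆ B ∧ B.card = l

/-- If every key of `J` has at least `|L|` elements then `J` is a perfect matroid design. -/
lemma pmd_of_keys {L : Finset ℕ} (hL0 : L.Nonempty) (hLk : L ⊆ Finset.range k)
    {J : Finset (Finset (Fin k))} (hJ : Cl J) (hL : ∀ I ∈ J, I.card ∈ L)
    (hkey : ∀ X, Key J X → L.card ≤ X.card) : PMD k L J := by
  classical
  have hLc : 1 ≤ L.card := Finset.card_pos.2 hL0
  refine ⟨hJ, hL, ?_, ?_⟩
  · have h0 : ¬ Key J ∅ := fun h => by have := hkey _ h; simp at this; simp [this] at hL0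
    obtain ⟨B, hB, hG⟩ := exists_cl hJ h0
    refine ⟨B, hB, ?_⟩
    intro l hl
    by_contra hlt
    push Not at hlt
    have h1 := ix_lt hl hlt
    obtain ⟨Y, hY, hYc⟩ := ext_key hLk hJ hL (L.card - ix L B.card) B ∅ hB hG le_rfl
    have h2 := hkey Y hY
    simp at hYc
    omega
  · intro A hA x hx l hl hAl hnext
    obtain ⟨X, hX, hXc⟩ := exists_gen hJ hL A.card A hA le_rfl
    have h1 := ix_lt (hL A hA) hAl
    have h2 := ix_lt_card hl
    have hc : (insert x X).card ≤ X.card + 1 := Finset.card_insert_le _ _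
    have hnk : ¬ Key J (insert x X) := fun h => by have := hkey _ h; omega
    obtain ⟨B, hB, hG⟩ := exists_cl hJ hnk
    have hAB : A ⊆ B := hX.2 B hB ((Finset.subset_insert _ _).trans hG.1)
    have hxB : x ∈ B := hG.1 (Finset.mem_insert_self _ _)
    have hlt : A.card < B.card := Finset.card_lt_card ⟨hAB, fun h => hx (h hxB)⟩
    refine ⟨B, hB, ?_, ?_⟩
    · intro y hy
      rcases Finset.mem_insert.1 hy with rfl | hy
      · exact hxB
      · exact hAB hy
    · have h3 := hnext _ (hL B hB) hlt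
      rcases eq_or_lt_of_le h3 with h4 | h4
      · exact h4.symm
      · exfalso
        have h5 := ix_lt hl h4
        obtain ⟨Y, hY, hYc⟩ := ext_key hLk hJ hL (L.card - ix L B.card) B _ hB hG le_rfl
        have h6 := hkey Y hY
        have h7 := ix_lt_card (hL B hB)
        omega

/-- Either there is a perfect matroid design, or the order drops by one. -/
theorem dichotomy {L : Finset ℕ} (hL0 : L.Nonempty) (hLk : L ⊆ Finset.range k) :
    (∃ J, PMD k L J) ∨ ∃ C : ℝ, 0 < C ∧ ∀ n : ℕ, 1 ≤ n →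
      (mL k L n : ℝ) ≤ C * (n : ℝ) ^ (L.card - 1) := by
  classical
  by_cases hex : ∃ J, PMD k L J
  · exact Or.inl hex
  · right
    obtain ⟨l, hl⟩ := hL0
    have hlk : l < k := Finset.mem_range.1 (hLk hl)
    obtain ⟨C, hC, hub⟩ := mL_le (k := k) (by omega)
    refine ⟨C, by exact_mod_cast hC, ?_⟩
    intro n hn
    obtain ⟨J, hJ, hle⟩ := hub L n
    have hX : ∃ X, Key J X ∧ X.card < L.card := by
      by_contra h
      push Not at h
      exact hex ⟨J, pmd_of_keys ⟨l, hl⟩ hLk hJ.1 hJ.2 h⟩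
    obtain ⟨X, hX, hXc⟩ := hX
    have h1 : R J n ≤ n ^ (L.card - 1) :=
      (R_le_key hX n).trans (Nat.pow_le_pow_right hn (by omega))
    have h2 : mL k L n ≤ C * n ^ (L.card - 1) := hle.trans (Nat.mul_le_mul_left _ h1)
    exact_mod_cast h2

/-- The general upper bound. -/
theorem upper {L : Finset ℕ} (hL0 : L.Nonempty) (hLk : L ⊆ Finset.range k) :
    ∃ C : ℝ, 0 < C ∧ ∀ n : ℕ, 1 ≤ n → (mL k L n : ℝ) ≤ C * (n : ℝ) ^ L.card := by
  classical
  obtain ⟨l, hl⟩ := hL0
  have hlk : l < k := Finset.mem_range.1 (hLk hl)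
  obtain ⟨C, hC, hub⟩ := mL_le (k := k) (by omega)
  refine ⟨C, by exact_mod_cast hC, ?_⟩
  intro n hn
  obtain ⟨J, hJ, hle⟩ := hub L n
  obtain ⟨X, hX, hXc⟩ := exists_key hLk hJ.1 hJ.2
  have h1 : R J n ≤ n ^ L.card := (R_le_key hX n).trans (Nat.pow_le_pow_right hn hXc)
  have h2 : mL k L n ≤ C * n ^ L.card := hle.trans (Nat.mul_le_mul_left _ h1)
  exact_mod_cast h2

end Pool.Agent.Helper881.Ls
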