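import Pool.Agent.Helper881.StabDefs

open MeasureTheory MvPolynomial

namespace Pool.Agent.Helper881.Stab

theorem eval_smul_hom {σ : Type*} {P : MvPolynomial σ ℂ} {k : ℕ} (hP : P.IsHomogeneous k)
    (a : ℂ) (v : σ → ℂ) : eval (a • v) P = a ^ k * eval v P := by
  rw [eval_eq, eval_eq, Finset.mul_sum]
  refine Finset.sum_congr rfl fun m hm => ?_
  have h1 : m.degree = k := by
    by_contra h
    exact (mem_support_iff.mp hm) (hP.coeff_eq_zero h)
  have h2 : ∏ i ∈ m.support, (a • v) i ^ m i = a ^ k * ∏ i ∈ m.support, v i ^ m i := by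
    rw [← h1, Finsupp.degree_apply, ← Finset.prod_pow_eq_pow_sum, ← Finset.prod_mul_distrib]
    refine Finset.prod_congr rfl fun i _ => ?_
    simp [mul_pow]
  rw [h2]; ring

theorem lin_smul_vec {N d : ℕ} {F : Tuple N} (hF : ∀ i, (F i).IsHomogeneous d) (a : ℂ) (v : Vec N) :
    lin F (a • v) = a ^ d • lin F v := by
  funext i
  simp only [lin, Pi.smul_apply, smul_eq_mul]
  exact eval_smul_hom (hF i) a v

theorem lin_smul_tuple {N : ℕ} (F : Tuple N) (c : ℂ) (v : Vec N) :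
    lin (c • F) v = c • lin F v := by
  funext i
  simp [lin, MvPolynomial.smul_eval]

theorem rep_mk {N : ℕ} (v : Vec N) (hv : v ≠ 0) :
    ∃ a : ℂ, a ≠ 0 ∧ (Projectivization.mk ℂ v hv).rep = a • v := by
  obtain ⟨a, ha⟩ := Projectivization.exists_smul_eq_mk_rep ℂ v hv
  exact ⟨a, a.ne_zero, by rw [← ha]; rfl⟩

theorem mk_smul_eq {N : ℕ} (v : Vec N) (a : ℂ) (ha : a ≠ 0) (hv : v ≠ 0) (h : a • v ≠ 0) :
    Projectivization.mk ℂ (a • v) h = Projectivization.mk ℂ v hv := by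
  rw [Projectivization.mk_eq_mk_iff']
  exact ⟨a, rfl⟩

theorem projMap_mk {N d : ℕ} {F : Tuple N} (hF : IsLift N d F) (v : Vec N) (hv : v ≠ 0)
    (h : lin F v ≠ 0) :
    projMap F (Projectivization.mk ℂ v hv) = Projectivization.mk ℂ (lin F v) h := by
  obtain ⟨a, ha, hrep⟩ := rep_mk v hv
  have h1 : lin F (Projectivization.mk ℂ v hv).rep = a ^ d • lin F v := by
    rw [hrep, lin_smul_vec hF.homog]
  have h2 : lin F (Projectivization.mk ℂ v hv).rep ≠ 0 := by
    rw [h1]; exact smul_ne_zero (pow_ne_zero _ ha) h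
  rw [projMap, dif_pos h2]
  rw [Projectivization.mk_eq_mk_iff']
  exact ⟨a ^ d, h1.symm⟩

theorem lin_ne_zero {N d : ℕ} {F : Tuple N} (hF : IsLift N d F) {v : Vec N} (hv : v ≠ 0) :
    lin F v ≠ 0 := fun h => hv (hF.eq_zero v h)

theorem IsLift.smul {N d : ℕ} {F : Tuple N} (hF : IsLift N d F) {c : ℂ} (hc : c ≠ 0) :
    IsLift N d (c • F) := by
  refine ⟨fun i => ?_, fun z hz => ?_⟩
  · have := (hF.homog i).C_mul c
    simpa [MvPolynomial.smul_eq_C_mul] using this
  · rw [lin_smul_tuple] at hz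
    exact hF.eq_zero z ((smul_eq_zero.mp hz).resolve_left hc)

theorem projMap_smul {N d : ℕ} {F : Tuple N} (hF : IsLift N d F) {c : ℂ} (hc : c ≠ 0) :
    projMap (c • F) = projMap F := by
  funext p
  induction p using Projectivization.ind with
  | h v hv =>
    have h1 := lin_ne_zero hF hv
    have h2 := lin_ne_zero (hF.smul hc) hv
    rw [projMap_mk hF v hv h1, projMap_mk (hF.smul hc) v hv h2]
    rw [Projectivization.mk_eq_mk_iff']
    exact ⟨c, by rw [lin_smul_tuple]⟩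

theorem eval_rep_mk {N k : ℕ} {P : MvPolynomial (Fin (N + 1)) ℂ} (hP : P.IsHomogeneous k)
    (v : Vec N) (hv : v ≠ 0) :
    eval (Projectivization.mk ℂ v hv).rep P = 0 ↔ eval v P = 0 := by
  obtain ⟨a, ha, hrep⟩ := rep_mk v hv
  rw [hrep, eval_smul_hom hP]
  simp [pow_ne_zero _ ha]

theorem hnorm_smul {N : ℕ} (a : ℂ) (v : Vec N) : hnorm (a • v) = ‖a‖ * hnorm v := by
  unfold hnorm
  have : ∑ i, ‖(a • v) i‖ ^ 2 = ‖a‖ ^ 2 * ∑ i, ‖v i‖ ^ 2 := by
    rw [Finset.mul_sum]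
    refine Finset.sum_congr rfl fun i _ => ?_
    simp [mul_pow]
  rw [this, Real.sqrt_mul (by positivity), Real.sqrt_sq (norm_nonneg a)]

theorem hnorm_pos {N : ℕ} {v : Vec N} (hv : v ≠ 0) : 0 < hnorm v := by
  unfold hnorm
  apply Real.sqrt_pos.mpr
  obtain ⟨i, hi⟩ := Function.ne_iff.mp hv
  have h1 : 0 < ‖v i‖ ^ 2 := by
    have : v i ≠ 0 := by simpa using hi
    positivity
  exact lt_of_lt_of_le h1 (Finset.single_le_sum (f := fun i => ‖v i‖ ^ 2)
    (fun j _ => by positivity) (Finset.mem_univ i))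

theorem jacDet_smul_vec {N d : ℕ} {F : Tuple N} (hF : ∀ i, (F i).IsHomogeneous d) (a : ℂ)
    (v : Vec N) : jacDet F (a • v) = a ^ ((d - 1) * (N + 1)) * jacDet F v := by
  unfold jacDet
  have : (Matrix.of fun i j : Fin (N + 1) => eval (a • v) (pderiv j (F i))) =
      a ^ (d - 1) • (Matrix.of fun i j : Fin (N + 1) => eval v (pderiv j (F i))) := by
    ext i j
    simp only [Matrix.of_apply, Matrix.smul_apply, smul_eq_mul]
    exact eval_smul_hom ((hF i).pderiv) a v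
  rw [this, Matrix.det_smul, Fintype.card_fin, pow_mul]

theorem jacDet_smul_tuple {N : ℕ} (F : Tuple N) (c : ℂ) (v : Vec N) :
    jacDet (c • F) v = c ^ (N + 1) * jacDet F v := by
  unfold jacDet
  have : (Matrix.of fun i j : Fin (N + 1) => eval v (pderiv j ((c • F) i))) =
      c • (Matrix.of fun i j : Fin (N + 1) => eval v (pderiv j (F i))) := by
    ext i j
    simp [MvPolynomial.smul_eval]
  rw [this, Matrix.det_smul, Fintype.card_fin]

/-- the expression inside the logarithm of `logJac` -/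
noncomputable def jacFS {N : ℕ} (d : ℕ) (F : Tuple N) (v : Vec N) : ℝ :=
  ‖jacDet F v‖ * hnorm v ^ (N + 1) / (d * hnorm (lin F v) ^ (N + 1))

theorem jacFS_smul_vec {N d : ℕ} (hd : 1 ≤ d) {F : Tuple N} (hF : ∀ i, (F i).IsHomogeneous d) {a : ℂ}
    (ha : a ≠ 0) (v : Vec N) : jacFS d F (a • v) = jacFS d F v := by
  unfold jacFS
  have ha' : ‖a‖ ≠ 0 := by simpa using ha
  rw [jacDet_smul_vec hF, lin_smul_vec hF, hnorm_smul, hnorm_smul, norm_mul, norm_pow, norm_pow,
    mul_pow, mul_pow]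
  have h1 : (‖a‖ ^ d) ^ (N + 1) = ‖a‖ ^ ((d - 1) * (N + 1)) * ‖a‖ ^ (N + 1) := by
    rw [← pow_mul, ← pow_add]
    congr 1
    obtain ⟨e, rfl⟩ : ∃ e, d = e + 1 := ⟨d - 1, by omega⟩
    simp; ring
  rw [h1]
  by_cases h0 : (d : ℝ) * hnorm (lin F v) ^ (N + 1) = 0
  · rw [h0]
    have : (d : ℝ) * (‖a‖ ^ ((d - 1) * (N + 1)) * ‖a‖ ^ (N + 1) * hnorm (lin F v) ^ (N + 1)) =
      (‖a‖ ^ ((d - 1) * (N + 1)) * ‖a‖ ^ (N + 1)) * ((d : ℝ) * hnorm (lin F v) ^ (N + 1)) := by ring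
    rw [this, h0]; simp
  · field_simp

theorem logJac_mk {N d : ℕ} (hd : 1 ≤ d) {F : Tuple N} (hF : ∀ i, (F i).IsHomogeneous d)
    (v : Vec N) (hv : v ≠ 0) :
    logJac d F (Projectivization.mk ℂ v hv) = Real.log (jacFS d F v) := by
  obtain ⟨a, ha, hrep⟩ := rep_mk v hv
  show Real.log (jacFS d F (Projectivization.mk ℂ v hv).rep) = _
  rw [hrep, jacFS_smul_vec hd hF ha]

theorem logJac_smul {N d : ℕ} (F : Tuple N) {c : ℂ} (hc : c ≠ 0) :
    logJac d (c • F) = logJac d F := by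
  funext p
  unfold logJac
  have hc' : ‖c‖ ≠ 0 := by simpa using hc
  rw [jacDet_smul_tuple, lin_smul_tuple, hnorm_smul, norm_mul, norm_pow, mul_pow]
  congr 1
  by_cases h0 : (d : ℝ) * hnorm (lin F p.rep) ^ (N + 1) = 0
  · rw [h0]
    have : (d : ℝ) * (‖c‖ ^ (N + 1) * hnorm (lin F p.rep) ^ (N + 1)) =
      ‖c‖ ^ (N + 1) * ((d : ℝ) * hnorm (lin F p.rep) ^ (N + 1)) := by ring
    rw [this, h0]; simp
  · field_simp

theorem IsEquilibrium.smul {N d : ℕ} {F : Tuple N} (hF : IsLift N d F) {c : ℂ} (hc : c ≠ 0)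
    {μ : Measure (PSpace N)} (h : IsEquilibrium N d F μ) : IsEquilibrium N d (c • F) μ :=
  ⟨h.prob, h.no_mass, by rw [projMap_smul hF hc]; exact h.jacobian⟩

theorem IsLyapunovSum.smul {N d : ℕ} {F : Tuple N} (hF : IsLift N d F) {c : ℂ} (hc : c ≠ 0)
    {L : ℝ} (h : IsLyapunovSum N d F L) : IsLyapunovSum N d (c • F) L := by
  obtain ⟨μ, h1, h2, h3⟩ := h
  exact ⟨μ, h1.smul hF hc, by rw [logJac_smul F hc]; exact h2, by rw [logJac_smul F hc]; exact h3⟩

theorem critSet_smul {N : ℕ} (F : Tuple N) {c : ℂ} (hc : c ≠ 0) :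
    critSet (c • F) = critSet F := by
  ext p
  simp [critSet, jacDet_smul_tuple, hc]

theorem IsPCF_smul {N d : ℕ} {F : Tuple N} (hF : IsLift N d F) {c : ℂ} (hc : c ≠ 0) :
    IsPCF (c • F) ↔ IsPCF F := by
  unfold IsPCF
  rw [projMap_smul hF hc, critSet_smul F hc]

theorem IsLattes_smul {N d : ℕ} {F : Tuple N} (hF : IsLift N d F) {c : ℂ} (hc : c ≠ 0) :
    IsLattes (c • F) ↔ IsLattes F := by
  unfold IsLattes
  rw [projMap_smul hF hc]

/-- Measurability of functions out of projective space. -/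
theorem measurable_of_comp_mk' {N : ℕ} {β : Type*} [MeasurableSpace β] {g : PSpace N → β}
    (h : Measurable (fun v : {v : Vec N // v ≠ 0} => g (Projectivization.mk' ℂ v))) :
    Measurable g := by
  intro s hs
  exact h hs

theorem measurable_mk' {N : ℕ} : Measurable (Projectivization.mk' ℂ :
    {v : Vec N // v ≠ 0} → PSpace N) := by
  intro s hs
  exact hs

theorem measurable_lin {N : ℕ} (F : Tuple N) : Measurable (lin F) := by
  refine measurable_pi_lambda _ fun i => ?_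
  exact (MvPolynomial.continuous_eval (F i)).measurable

theorem measurable_projMap {N d : ℕ} {F : Tuple N} (hF : IsLift N d F) :
    Measurable (projMap F) := by
  apply measurable_of_comp_mk'
  have h1 : (fun v : {v : Vec N // v ≠ 0} => projMap F (Projectivization.mk' ℂ v)) =
      fun v => Projectivization.mk' ℂ (⟨lin F v.1, lin_ne_zero hF v.2⟩ : {v : Vec N // v ≠ 0}) := by
    funext v
    rw [Projectivization.mk'_eq_mk, Projectivization.mk'_eq_mk,
      projMap_mk hF v.1 v.2 (lin_ne_zero hF v.2)]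
  rw [h1]
  exact measurable_mk'.comp (Measurable.subtype_mk ((measurable_lin F).comp measurable_subtype_coe))

end Pool.Agent.Helper881.Stab
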