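import Pool.Agent.Helper881.StabInt

open MeasureTheory Filter Topology Set

namespace Pool.Agent.Helper881.Stab

theorem det_smul_one (a : ℂ) : (a • (1 : ℂ →L[ℝ] ℂ)).det = ‖a‖ ^ 2 := by
  have h : ((a • (1 : ℂ →L[ℝ] ℂ) : ℂ →L[ℝ] ℂ) : ℂ →ₗ[ℝ] ℂ) = Algebra.lmul ℝ ℂ a := by
    ext <;> simp
  rw [ContinuousLinearMap.det, h, ← Algebra.norm_apply, Algebra.norm_complex_apply,
    Complex.normSq_eq_norm_sq]

theorem Qf_eq (l z : ℂ) : Qf l z = 4 * wd l z := by unfold Qf wd; ring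

theorem wd_finite (l : ℂ) : {z : ℂ | wd l z = 0}.Finite := by
  refine Set.Finite.subset (s := {0, 1, l}) (by simp) fun z hz => ?_
  rcases mul_eq_zero.mp (show z * (z - 1) * (z - l) = 0 from hz) with h | h
  · rcases mul_eq_zero.mp h with h | h
    · simp [h]
    · simp [sub_eq_zero.mp h]
  · simp [sub_eq_zero.mp h]

theorem wd_ne_ae (l : ℂ) : ∀ᵐ z : ℂ, wd l z ≠ 0 := by
  have := (wd_finite l).measure_zero volume
  exact measure_eq_zero_iff_ae_notMem.mp this

theorem sq_finite (w : ℂ) : {z : ℂ | z ^ 2 = w}.Finite := by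
  refine Set.Finite.subset (s := {csq w, -csq w}) (by simp) fun z hz => ?_
  have h1 : (z - csq w) * (z + csq w) = 0 := by
    have := csq_sq w
    have hz' : z ^ 2 = w := hz
    linear_combination hz' - this
  rcases mul_eq_zero.mp h1 with h | h
  · simp [sub_eq_zero.mp h]
  · simp [eq_neg_of_add_eq_zero_left h]

theorem JF_finite (l : ℂ) : {v : ℂ | JF l v 1 = 0}.Finite := by
  have h1 := sq_finite l
  have h2 : {v : ℂ | (v - 1) ^ 2 = 1 - l}.Finite :=
    (sq_finite (1 - l)).preimage (sub_left_injective (b := (1 : ℂ))).injOn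
  have h3 : {v : ℂ | (v - l) ^ 2 = l ^ 2 - l}.Finite :=
    (sq_finite (l ^ 2 - l)).preimage (sub_left_injective (b := l)).injOn
  refine (h1.union (h2.union h3)).subset fun v hv => ?_
  have hv' : 16 * (v ^ 2 - l * 1 ^ 2) * (v ^ 2 - 2 * v * 1 + l * 1 ^ 2) *
    (v ^ 2 - 2 * l * v * 1 + l * 1 ^ 2) = 0 := hv
  rcases mul_eq_zero.mp hv' with h | h
  · rcases mul_eq_zero.mp h with h | h
    · rcases mul_eq_zero.mp h with h | h
      · norm_num at h
      · left
        show v ^ 2 = l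
        linear_combination h
    · right; left
      show (v - 1) ^ 2 = 1 - l
      linear_combination h
  · right; right
    show (v - l) ^ 2 = l ^ 2 - l
    linear_combination h

theorem wd_ff_ne_ae (l : ℂ) : ∀ᵐ v : ℂ, wd l (ff l v) ≠ 0 := by
  have h1 := wd_ne_ae l
  have h2 : ∀ᵐ v : ℂ, JF l v 1 ≠ 0 :=
    measure_eq_zero_iff_ae_notMem.mp ((JF_finite l).measure_zero volume)
  filter_upwards [h1, h2] with v h1 h2 h3
  have hQ : Qf l v ≠ 0 := by rw [Qf_eq]; simpa using h1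
  have h4 := dff_sq hQ
  rw [h3, mul_zero] at h4
  rcases mul_eq_zero.mp h4 with h | h
  · have : dff l v = 0 := pow_eq_zero_iff (two_ne_zero) |>.mp h
    unfold dff at this
    rcases div_eq_zero_iff.mp this with h | h
    · exact h2 h
    · exact hQ (by simpa using h)
  · exact h1 h

theorem measurable_Qf (l : ℂ) : Measurable (Qf l) := by
  have : Qf l = fun z => 4 * wd l z := funext (Qf_eq l)
  rw [this]; exact (measurable_wd l).const_mul 4

theorem measurable_ff (l : ℂ) : Measurable (ff l) := by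
  unfold ff
  have : Measurable (Pf l) := by
    unfold Pf; exact ((measurable_id.pow_const 2).sub_const l).pow_const 2
  exact this.div (measurable_Qf l)

/-- the density -/
noncomputable def dens (l z : ℂ) : ENNReal := ENNReal.ofReal (‖wd l z‖⁻¹)

theorem measurable_dens (l : ℂ) : Measurable (dens l) := by
  unfold dens
  exact ((measurable_wd l).norm.inv).ennreal_ofReal

/-- the piece of the plane where the branch `b` is the inverse of `ff` -/
def Ep (l : ℂ) (b : Bool × Bool) : Set ℂ :=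
  {v | Qf l v ≠ 0 ∧ wd l (ff l v) ≠ 0 ∧ v = sL l b (ff l v)}

theorem measurableSet_Ep (l : ℂ) (b : Bool × Bool) : MeasurableSet (Ep l b) := by
  have h1 : MeasurableSet {v : ℂ | Qf l v ≠ 0} :=
    (measurableSet_eq_fun (measurable_Qf l) measurable_const).compl
  have h2 : MeasurableSet {v : ℂ | wd l (ff l v) ≠ 0} :=
    (measurableSet_eq_fun ((measurable_wd l).comp (measurable_ff l)) measurable_const).compl
  have h3 : MeasurableSet {v : ℂ | v = sL l b (ff l v)} :=
    measurableSet_eq_fun measurable_id ((measurable_sL l b).comp (measurable_ff l))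
  exact h1.inter (h2.inter h3)

theorem ff_image_Ep {l : ℂ} (h0 : l ≠ 0) (h1 : l ≠ 1) (b : Bool × Bool) :
    ff l '' Ep l b = {a | wd l a ≠ 0} := by
  ext a
  constructor
  · rintro ⟨v, hv, rfl⟩
    exact hv.2.1
  · intro ha
    refine ⟨sL l b a, ⟨Qf_sL h0 h1 a b, ?_, ?_⟩, ff_sL h0 h1 a b⟩
    · rw [ff_sL h0 h1 a b]; exact ha
    · rw [ff_sL h0 h1 a b]

theorem Ep_injOn (l : ℂ) (b : Bool × Bool) : InjOn (ff l) (Ep l b) := by
  intro v hv w hw h
  rw [hv.2.2, hw.2.2, h]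

theorem Ep_disjoint {l : ℂ} (h0 : l ≠ 0) (h1 : l ≠ 1) :
    Pairwise (Function.onFun Disjoint (Ep l)) := by
  intro b c hbc
  refine Set.disjoint_left.mpr fun v hv hw => ?_
  exact hbc (sL_inj h0 h1 hv.2.1 (show sL l b (ff l v) = sL l c (ff l v) by
    rw [← hv.2.2, ← hw.2.2]))

theorem Ep_cover {l : ℂ} : (⋃ b, Ep l b) =ᵐ[volume] (univ : Set ℂ) := by
  refine eventuallyEq_univ.mpr ?_
  filter_upwards [wd_ne_ae l, wd_ff_ne_ae l] with v h1 h2
  have hQ : Qf l v ≠ 0 := by rw [Qf_eq]; simpa using h1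
  obtain ⟨b, hb⟩ := exists_sL hQ rfl
  exact mem_iUnion.mpr ⟨b, hQ, h2, hb⟩

theorem dens_rel {l v : ℂ} (hQ : Qf l v ≠ 0) (hw : wd l (ff l v) ≠ 0) :
    ENNReal.ofReal (‖dff l v‖ ^ 2) * dens l (ff l v) = 4 * dens l v := by
  have hwv : wd l v ≠ 0 := by rw [Qf_eq] at hQ; simpa using hQ
  unfold dens
  have h4 : (4 : ENNReal) = ENNReal.ofReal 4 := by norm_num
  rw [h4, ← ENNReal.ofReal_mul (by positivity), ← ENNReal.ofReal_mul (by positivity)]
  congr 1
  have h := dff_sq hQ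
  have h' : ‖dff l v‖ ^ 2 * ‖wd l v‖ = 4 * ‖wd l (ff l v)‖ := by
    rw [← norm_pow, ← norm_mul, h, norm_mul]; simp
  have n1 : ‖wd l v‖ ≠ 0 := by simpa using hwv
  have n2 : ‖wd l (ff l v)‖ ≠ 0 := by simpa using hw
  field_simp
  linarith

theorem lint_sL_one {l : ℂ} (h0 : l ≠ 0) (h1 : l ≠ 1) (χ : ℂ → ENNReal) (b : Bool × Bool) :
    ∫⁻ a, dens l a * χ (sL l b a) = ∫⁻ v in Ep l b, 4 * (dens l v * χ v) := by
  have e1 : (ff l '' Ep l b) =ᵐ[volume] (univ : Set ℂ) := by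
    rw [ff_image_Ep h0 h1]
    exact eventuallyEq_univ.mpr (wd_ne_ae l)
  rw [← setLIntegral_univ, ← setLIntegral_congr e1]
  rw [lintegral_image_eq_lintegral_abs_det_fderiv_mul volume (measurableSet_Ep l b)
    (f' := fun v => dff l v • (1 : ℂ →L[ℝ] ℂ))
    (fun v hv => (hasDerivAt_ff hv.1).complexToReal_fderiv.hasFDerivWithinAt) (Ep_injOn l b)]
  refine setLIntegral_congr_fun (measurableSet_Ep l b) fun v hv => ?_
  rw [det_smul_one, abs_of_nonneg (by positivity), ← hv.2.2, ← mul_assoc, dens_rel hv.1 hv.2.1,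
    mul_assoc]

theorem lint_sL {l : ℂ} (h0 : l ≠ 0) (h1 : l ≠ 1) (χ : ℂ → ENNReal) (hχ : Measurable χ) :
    ∑ b : Bool × Bool, ∫⁻ a, dens l a * χ (sL l b a) = 4 * ∫⁻ v, dens l v * χ v := by
  simp_rw [lint_sL_one h0 h1 χ]
  rw [← tsum_fintype (L := .unconditional _), ← lintegral_iUnion (fun b => measurableSet_Ep l b) (Ep_disjoint h0 h1),
    setLIntegral_congr Ep_cover, setLIntegral_univ, lintegral_const_mul]
  exact (measurable_dens l).mul hχ

/-- the unnormalised measure -/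
noncomputable def mu0 (l : ℂ) : Measure ℂ := volume.withDensity (dens l)

theorem lint_mu0 (l : ℂ) (χ : ℂ → ENNReal) (hχ : Measurable χ) :
    ∫⁻ a, χ a ∂(mu0 l) = ∫⁻ a, dens l a * χ a := by
  unfold mu0
  rw [lintegral_withDensity_eq_lintegral_mul _ (measurable_dens l) hχ]
  rfl

theorem lint_mu0_sL {l : ℂ} (h0 : l ≠ 0) (h1 : l ≠ 1) (χ : ℂ → ENNReal) (hχ : Measurable χ) :
    ∑ b : Bool × Bool, ∫⁻ a, χ (sL l b a) ∂(mu0 l) = 4 * ∫⁻ v, χ v ∂(mu0 l) := by
  rw [lint_mu0 l χ hχ, ← lint_sL h0 h1 χ hχ]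
  refine Finset.sum_congr rfl fun b _ => ?_
  exact lint_mu0 l _ (hχ.comp (measurable_sL l b))

theorem mu0_univ_lt {l : ℂ} (h0 : l ≠ 0) (h1 : l ≠ 1) : mu0 l univ < ⊤ := by
  unfold mu0 dens
  rw [withDensity_apply _ MeasurableSet.univ, setLIntegral_univ]
  have h := (integrable_wd_inv h0 h1).2
  rw [hasFiniteIntegral_iff_ofReal (Eventually.of_forall fun z => by positivity)] at h
  exact h

theorem mu0_univ_pos (l : ℂ) : mu0 l univ ≠ 0 := by
  intro h
  unfold mu0 at h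
  rw [withDensity_apply _ MeasurableSet.univ, setLIntegral_univ,
    lintegral_eq_zero_iff (measurable_dens l)] at h
  have h2 : ∀ᵐ z : ℂ, False := by
    filter_upwards [h, wd_ne_ae l] with z h hz
    have : dens l z ≠ 0 := by
      unfold dens
      simpa using hz
    exact this h
  rw [ae_iff] at h2
  simp at h2

/-- the normalised measure -/
noncomputable def muL (l : ℂ) : Measure ℂ := (mu0 l univ)⁻¹ • mu0 l

theorem muL_prob {l : ℂ} (h0 : l ≠ 0) (h1 : l ≠ 1) : IsProbabilityMeasure (muL l) := by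
  refine ⟨?_⟩
  rw [muL, Measure.smul_apply, smul_eq_mul,
    ENNReal.inv_mul_cancel (mu0_univ_pos l) (mu0_univ_lt h0 h1).ne]

theorem lint_muL_sL {l : ℂ} (h0 : l ≠ 0) (h1 : l ≠ 1) (χ : ℂ → ENNReal) (hχ : Measurable χ) :
    ∑ b : Bool × Bool, ∫⁻ a, χ (sL l b a) ∂(muL l) = 4 * ∫⁻ v, χ v ∂(muL l) := by
  unfold muL
  simp_rw [lintegral_smul_measure, smul_eq_mul]
  rw [← Finset.mul_sum, lint_mu0_sL h0 h1 χ hχ]
  ring

theorem muL_ac (l : ℂ) : muL l ≪ (volume : Measure ℂ) := by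
  unfold muL mu0
  exact Measure.AbsolutelyContinuous.trans (Measure.smul_absolutelyContinuous)
    (withDensity_absolutelyContinuous _ _)

theorem integrable_muL_of {l : ℂ} (h0 : l ≠ 0) (h1 : l ≠ 1) {g : ℂ → ℝ} (hg : Measurable g)
    (h : Integrable (fun z => |g z| * ‖wd l z‖⁻¹)) : Integrable g (muL l) := by
  unfold muL
  apply Integrable.smul_measure _ (by simpa using mu0_univ_pos l)
  refine ⟨hg.aestronglyMeasurable, ?_⟩
  rw [hasFiniteIntegral_iff_enorm, lint_mu0 l _ hg.enorm]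
  have h2 := h.2
  rw [hasFiniteIntegral_iff_ofReal (Eventually.of_forall fun z => by positivity)] at h2
  refine lt_of_le_of_lt (le_of_eq ?_) h2
  refine lintegral_congr fun z => ?_
  rw [Real.enorm_eq_ofReal_abs, dens, ENNReal.ofReal_mul (abs_nonneg _), mul_comm]

theorem integrable_muL_log_wd {l : ℂ} (h0 : l ≠ 0) (h1 : l ≠ 1) :
    Integrable (fun z => Real.log ‖wd l z‖) (muL l) :=
  integrable_muL_of h0 h1 (Real.measurable_log.comp (measurable_wd l).norm)
    (integrable_log_wd h0 h1)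

theorem integrable_muL_log_Nz {l : ℂ} (h0 : l ≠ 0) (h1 : l ≠ 1) :
    Integrable (fun z => Real.log (Nz z)) (muL l) :=
  integrable_muL_of h0 h1 (Real.measurable_log.comp measurable_Nz) (integrable_log_Nz h0 h1)

end Pool.Agent.Helper881.Stab
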