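import Mathlib

open MeasureTheory Filter Topology

namespace Pool.Agent.Helper881.Stab

noncomputable def ee (s : UnitAddCircle) : ℂ := (AddCircle.toCircle s : ℂ)

theorem ee_add (s t : UnitAddCircle) : ee (s + t) = ee s * ee t := by
  simp [ee, AddCircle.toCircle_add]

theorem ee_nsmul (n : ℕ) (s : UnitAddCircle) : ee (n • s) = ee s ^ n := by
  simp [ee, AddCircle.toCircle_nsmul]

theorem norm_ee (s : UnitAddCircle) : ‖ee s‖ = 1 := by simp [ee]

theorem ee_ne_zero (s : UnitAddCircle) : ee s ≠ 0 := by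
  intro h
  have := norm_ee s
  rw [h] at this
  simp at this

theorem continuous_ee : Continuous ee :=
  continuous_subtype_val.comp AddCircle.continuous_toCircle

theorem ee_injective : Function.Injective ee := by
  intro s t h
  exact AddCircle.injective_toCircle one_ne_zero (Circle.ext h)

theorem ee_coe (x : ℝ) : ee (x : UnitAddCircle) = Complex.exp (2 * Real.pi * x * Complex.I) := by
  simp only [ee, AddCircle.toCircle_apply_mk, Circle.coe_exp]
  congr 1
  push_cast
  ring

theorem ee_surj (w : ℂ) (hw : ‖w‖ = 1) : ∃ a : UnitAddCircle, ee a = w := by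
  refine ⟨((w.arg / (2 * Real.pi) : ℝ) : UnitAddCircle), ?_⟩
  rw [ee_coe]
  have h : (2 * Real.pi * ((w.arg / (2 * Real.pi) : ℝ) : ℂ) * Complex.I) = w.arg * Complex.I := by
    push_cast
    have : (Real.pi : ℂ) ≠ 0 := by exact_mod_cast Real.pi_ne_zero
    field_simp
  rw [h]
  have := Complex.norm_mul_exp_arg_mul_I w
  rw [hw] at this
  simpa using this

noncomputable def half : UnitAddCircle := ((1 / 2 : ℝ) : UnitAddCircle)

theorem two_half : 2 • half = 0 := by
  have : (2 • half : UnitAddCircle) = ((2 • (1 / 2 : ℝ) : ℝ) : UnitAddCircle) := by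
    rw [half, ← AddCircle.coe_nsmul]
  rw [this]
  have : (2 • (1 / 2 : ℝ) : ℝ) = 1 := by norm_num
  rw [this]
  exact AddCircle.coe_period 1

theorem ee_half : ee half = -1 := by
  rw [half, ee_coe]
  have : (2 * Real.pi * ((1 / 2 : ℝ) : ℂ) * Complex.I) = Real.pi * Complex.I := by
    push_cast; ring
  rw [this, Complex.exp_pi_mul_I]

noncomputable def sg (t : UnitAddCircle) : ℝ :=
  if 0 < (ee t).im ∨ ((ee t).im = 0 ∧ 0 < (ee t).re) then 1 else -1

theorem sg_sq (t : UnitAddCircle) : sg t ^ 2 = 1 := by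
  unfold sg; split_ifs <;> norm_num

theorem sg_abs (t : UnitAddCircle) : |sg t| = 1 := by
  unfold sg; split_ifs <;> norm_num

theorem sg_half (t : UnitAddCircle) : sg (t + half) = -sg t := by
  have h : ee (t + half) = -ee t := by rw [ee_add, ee_half]; ring
  unfold sg
  rw [h]
  simp only [Complex.neg_im, Complex.neg_re]
  have h0 : ee t ≠ 0 := ee_ne_zero t
  have h1 : ¬ ((ee t).re = 0 ∧ (ee t).im = 0) := by
    rintro ⟨a, b⟩
    exact h0 (Complex.ext a b)
  rcases lt_trichotomy (ee t).im 0 with hi | hi | hi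
  · rw [if_pos (Or.inl (by linarith)), if_neg]
    · norm_num
    · rintro (h | ⟨h, _⟩) <;> linarith
  · have hr : (ee t).re ≠ 0 := fun h => h1 ⟨h, hi⟩
    rcases lt_or_gt_of_ne hr with hr | hr
    · rw [if_pos (Or.inr ⟨by linarith, by linarith⟩), if_neg]
      · norm_num
      · rintro (h | ⟨_, h⟩) <;> linarith
    · rw [if_neg, if_pos (Or.inr ⟨hi, hr⟩)]
      rintro (h | ⟨_, h⟩) <;> linarith
  · rw [if_neg, if_pos (Or.inl hi)]
    rintro (h | ⟨h, _⟩) <;> linarith

theorem measurable_sg : Measurable sg := by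
  unfold sg
  refine Measurable.ite ?_ measurable_const measurable_const
  have him : Measurable fun t : UnitAddCircle => (ee t).im :=
    (Complex.continuous_im.comp continuous_ee).measurable
  have hre : Measurable fun t : UnitAddCircle => (ee t).re :=
    (Complex.continuous_re.comp continuous_ee).measurable
  exact (measurableSet_lt measurable_const him).union
    ((measurableSet_eq_fun him measurable_const).inter (measurableSet_lt measurable_const hre))

noncomputable def cN : ℕ → UnitAddCircle → ℝ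
  | 0, _ => 0
  | n + 1, t => sg t * Real.sqrt (6 + cN n (2 • t))

theorem abs_cN (n : ℕ) : ∀ t, |cN n t| ≤ 3 := by
  induction n with
  | zero => intro t; simp [cN]
  | succ n ih =>
    intro t
    rw [cN, abs_mul, sg_abs, one_mul, abs_of_nonneg (Real.sqrt_nonneg _)]
    have h := abs_le.mp (ih (2 • t))
    rw [show (3 : ℝ) = Real.sqrt 9 by
      rw [show (9 : ℝ) = 3 ^ 2 by norm_num, Real.sqrt_sq (by norm_num)]]
    apply Real.sqrt_le_sqrt
    linarith [h.2]

theorem sqrt_lip {a b : ℝ} (ha : 1 ≤ a) (hb : 1 ≤ b) :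
    |Real.sqrt a - Real.sqrt b| ≤ |a - b| / 2 := by
  have h1 : 1 ≤ Real.sqrt a := Real.one_le_sqrt.mpr ha
  have h2 : 1 ≤ Real.sqrt b := Real.one_le_sqrt.mpr hb
  have h3 : a - b = (Real.sqrt a - Real.sqrt b) * (Real.sqrt a + Real.sqrt b) := by
    have e1 := Real.sq_sqrt (show (0 : ℝ) ≤ a by linarith)
    have e2 := Real.sq_sqrt (show (0 : ℝ) ≤ b by linarith)
    nlinarith
  have h4 : |a - b| = |Real.sqrt a - Real.sqrt b| * (Real.sqrt a + Real.sqrt b) := by
    rw [h3, abs_mul, abs_of_nonneg (by linarith : 0 ≤ Real.sqrt a + Real.sqrt b)]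
  have h5 := abs_nonneg (Real.sqrt a - Real.sqrt b)
  nlinarith

theorem cN_step (n : ℕ) : ∀ t, |cN n t - cN (n + 1) t| ≤ 3 / 2 ^ n := by
  induction n with
  | zero =>
    intro t
    have := abs_cN 1 t
    simp only [cN] at this ⊢
    simpa using this
  | succ n ih =>
    intro t
    have h1 := abs_le.mp (abs_cN n (2 • t))
    have h2 := abs_le.mp (abs_cN (n + 1) (2 • t))
    have h3 := ih (2 • t)
    have e1 : cN (n + 1) t - cN (n + 1 + 1) t = sg t * (Real.sqrt (6 + cN n (2 • t)) -
        Real.sqrt (6 + cN (n + 1) (2 • t))) := by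
      rw [cN, cN]; ring
    rw [e1, abs_mul, sg_abs, one_mul]
    refine (sqrt_lip (by linarith [h1.1]) (by linarith [h2.1])).trans ?_
    have e2 : (6 + cN n (2 • t)) - (6 + cN (n + 1) (2 • t)) =
      cN n (2 • t) - cN (n + 1) (2 • t) := by ring
    rw [e2]
    calc |cN n (2 • t) - cN (n + 1) (2 • t)| / 2 ≤ (3 / 2 ^ n) / 2 := by linarith
      _ = 3 / 2 ^ (n + 1) := by rw [pow_succ]; field_simp

theorem measurable_cN (n : ℕ) : Measurable (cN n) := by
  induction n with
  | zero => exact measurable_const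
  | succ n ih =>
    have h2 : Measurable fun t : UnitAddCircle => 2 • t := (continuous_nsmul 2).measurable
    exact measurable_sg.mul ((measurable_const.add (ih.comp h2)).sqrt)

theorem exists_c : ∃ c : UnitAddCircle → ℝ, Measurable c ∧ (∀ t, |c t| ≤ 3) ∧
    (∀ t, c t ^ 2 = 6 + c (2 • t)) ∧ (∀ t, c (t + half) = -c t) := by
  have hc : ∀ t, ∃ x, Tendsto (fun n => cN n t) atTop (𝓝 x) := by
    intro t
    apply cauchySeq_tendsto_of_complete
    apply cauchySeq_of_le_geometric (1 / 2) 3 (by norm_num)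
    intro n
    rw [Real.dist_eq]
    refine (cN_step n t).trans (le_of_eq ?_)
    rw [one_div, inv_pow]; rfl
  choose c hc using hc
  have hmeas : Measurable c := measurable_of_tendsto_metrizable measurable_cN
    (tendsto_pi_nhds.mpr hc)
  have hle : ∀ t, |c t| ≤ 3 := fun t =>
    le_of_tendsto ((hc t).abs) (Eventually.of_forall fun n => abs_cN n t)
  have heq : ∀ t, c t = sg t * Real.sqrt (6 + c (2 • t)) := by
    intro t
    have h1 : Tendsto (fun n => cN (n + 1) t) atTop (𝓝 (c t)) :=
      (hc t).comp (tendsto_add_atTop_nat 1)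
    have h2 : Tendsto (fun n => cN (n + 1) t) atTop (𝓝 (sg t * Real.sqrt (6 + c (2 • t)))) := by
      show Tendsto (fun n => sg t * Real.sqrt (6 + cN n (2 • t))) atTop _
      exact (tendsto_const_nhds).mul ((Real.continuous_sqrt.tendsto _).comp
        (tendsto_const_nhds.add (hc (2 • t))))
    exact tendsto_nhds_unique h1 h2
  refine ⟨c, hmeas, hle, fun t => ?_, fun t => ?_⟩
  · rw [heq t, mul_pow, sg_sq, one_mul, Real.sq_sqrt]
    linarith [(abs_le.mp (hle (2 • t))).1]
  · rw [heq (t + half), heq t, sg_half, smul_add, two_half, add_zero]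
    ring

/-! ### integrals on the circle -/

theorem lint_two (g : UnitAddCircle → ENNReal) (hg : Measurable g) :
    ∫⁻ t, g (2 • t) = ∫⁻ t, g t :=
  (AddCircle.ergodic_nsmul (T := 1) (n := 2) (by norm_num)).toMeasurePreserving.lintegral_comp hg

theorem lint_four_add (a : UnitAddCircle) (g : UnitAddCircle → ENNReal) (hg : Measurable g) :
    ∫⁻ t, g (4 • t + a) = ∫⁻ t, g t :=
  (AddCircle.ergodic_nsmul_add (T := 1) a (n := 4)
    (by norm_num)).toMeasurePreserving.lintegral_comp hg

theorem lint_add (a : UnitAddCircle) (g : UnitAddCircle → ENNReal) :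
    ∫⁻ t, g (t + a) = ∫⁻ t, g t := lintegral_add_right_eq_self g a

/-- a complex square root -/
noncomputable def csq (w : ℂ) : ℂ := w ^ ((2 : ℂ)⁻¹)

theorem csq_sq (w : ℂ) : csq w ^ 2 = w := by
  have := Complex.cpow_nat_inv_pow w (n := 2) (by norm_num)
  simpa only [csq, Nat.cast_ofNat] using this

theorem measurable_csq : Measurable csq := by
  unfold csq
  exact Measurable.pow_const measurable_id _

/-- a complex fourth root -/
noncomputable def cqr (w : ℂ) : ℂ := w ^ ((4 : ℂ)⁻¹)

theorem cqr_pow (w : ℂ) : cqr w ^ 4 = w := by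
  have := Complex.cpow_nat_inv_pow w (n := 4) (by norm_num)
  simpa only [cqr, Nat.cast_ofNat] using this

theorem measurable_cqr : Measurable cqr := by
  unfold cqr
  exact Measurable.pow_const measurable_id _

/-- sum over the two square roots is independent of the choice -/
theorem sum_csq (χ : ℂ → ENNReal) {w ρ : ℂ} (h : ρ ^ 2 = w) :
    χ (csq w) + χ (-csq w) = χ ρ + χ (-ρ) := by
  have h1 : (csq w - ρ) * (csq w + ρ) = 0 := by
    have := csq_sq w
    linear_combination this - h
  rcases mul_eq_zero.mp h1 with h2 | h2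
  · rw [sub_eq_zero.mp h2]
  · rw [eq_neg_of_add_eq_zero_left h2, neg_neg, add_comm]

/-- sum over the four fourth roots is independent of the choice -/
theorem sum_cqr (χ : ℂ → ENNReal) {w ρ : ℂ} (h : ρ ^ 4 = w) :
    ∑ k : Fin 4, χ (Complex.I ^ (k : ℕ) * cqr w) = ∑ k : Fin 4, χ (Complex.I ^ (k : ℕ) * ρ) := by
  have hI : Complex.I ^ 2 = -1 := Complex.I_sq
  have hI3 : Complex.I ^ 3 = -Complex.I := by rw [pow_succ, hI]; ring
  have h1 : (cqr w - ρ) * (cqr w + ρ) * ((cqr w - Complex.I * ρ) * (cqr w + Complex.I * ρ)) = 0 := by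
    have := cqr_pow w
    have e : (cqr w - Complex.I * ρ) * (cqr w + Complex.I * ρ) = cqr w ^ 2 + ρ ^ 2 := by
      linear_combination -ρ ^ 2 * hI
    rw [e]
    linear_combination this - h
  simp only [Fin.sum_univ_four, Fin.val_zero, Fin.val_one, Fin.val_two, Fin.isValue]
  have e3 : ((3 : Fin 4) : ℕ) = 3 := rfl
  rw [e3, hI, hI3]
  simp only [pow_zero, pow_one, one_mul]
  rcases mul_eq_zero.mp h1 with h2 | h2
  · rcases mul_eq_zero.mp h2 with h3 | h3
    · rw [sub_eq_zero.mp h3]
    · rw [eq_neg_of_add_eq_zero_left h3]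
      have a1 : Complex.I * -ρ = -Complex.I * ρ := by ring
      have a2 : -1 * -ρ = ρ := by ring
      have a3 : -Complex.I * -ρ = Complex.I * ρ := by ring
      have a4 : -ρ = -1 * ρ := by ring
      rw [a1, a2, a3, a4]
      abel
  · rcases mul_eq_zero.mp h2 with h3 | h3
    · rw [sub_eq_zero.mp h3]
      have a1 : Complex.I * (Complex.I * ρ) = -1 * ρ := by linear_combination ρ * hI
      have a2 : -1 * (Complex.I * ρ) = -Complex.I * ρ := by ring
      have a3 : -Complex.I * (Complex.I * ρ) = ρ := by linear_combination -ρ * hI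
      rw [a1, a2, a3]
      abel
    · rw [eq_neg_of_add_eq_zero_left h3]
      have a1 : Complex.I * -(Complex.I * ρ) = ρ := by linear_combination -ρ * hI
      have a2 : -1 * -(Complex.I * ρ) = Complex.I * ρ := by ring
      have a3 : -Complex.I * -(Complex.I * ρ) = -1 * ρ := by linear_combination ρ * hI
      have a4 : -(Complex.I * ρ) = -Complex.I * ρ := by ring
      rw [a1, a2, a3, a4]
      abel

/-- the balanced measure identity for `z ↦ z^2 - 6`. -/
theorem lint_csq {c : UnitAddCircle → ℝ} (hm : Measurable c) (h2 : ∀ t, c t ^ 2 = 6 + c (2 • t))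
    (hh : ∀ t, c (t + half) = -c t) (χ : ℂ → ENNReal) (hχ : Measurable χ) :
    ∫⁻ t, (χ (csq (6 + c t)) + χ (-csq (6 + c t))) = 2 * ∫⁻ t, χ (c t) := by
  have hmc : Measurable fun t => ((c t : ℝ) : ℂ) := Complex.measurable_ofReal.comp hm
  have hg : Measurable fun t : UnitAddCircle => χ (csq (6 + c t)) + χ (-csq (6 + c t)) := by
    have : Measurable fun t : UnitAddCircle => csq (6 + c t) :=
      measurable_csq.comp (measurable_const.add hmc)
    exact (hχ.comp this).add (hχ.comp this.neg)
  rw [← lint_two _ hg]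
  have e1 : ∀ t : UnitAddCircle, χ (csq (6 + c (2 • t))) + χ (-csq (6 + c (2 • t))) =
      χ (c t) + χ (c (t + half)) := by
    intro t
    have : ((c t : ℝ) : ℂ) ^ 2 = 6 + c (2 • t) := by
      have := h2 t
      exact_mod_cast this
    rw [sum_csq χ this, hh]
    push_cast
    rfl
  simp_rw [e1]
  have hg1 : Measurable fun t => χ (c t) := hχ.comp hmc
  rw [lintegral_add_left hg1, lint_add half (fun t => χ (c t))]
  ring

/-- the four preimages under `((y^2-6)^2-6)` -/
noncomputable def gs (b : Bool × Bool) (y : ℂ) : ℂ :=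
  (if b.1 then 1 else -1) * csq (6 + (if b.2 then 1 else -1) * csq (6 + y))

theorem measurable_gs (b : Bool × Bool) : Measurable (gs b) := by
  unfold gs
  exact measurable_const.mul (measurable_csq.comp (measurable_const.add
    (measurable_const.mul (measurable_csq.comp (measurable_const.add measurable_id)))))

theorem lint_gs {c : UnitAddCircle → ℝ} (hm : Measurable c) (h2 : ∀ t, c t ^ 2 = 6 + c (2 • t))
    (hh : ∀ t, c (t + half) = -c t) (χ : ℂ → ENNReal) (hχ : Measurable χ) :
    ∑ b : Bool × Bool, ∫⁻ t, χ (gs b (c t)) = 4 * ∫⁻ t, χ (c t) := by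
  have hmc : Measurable fun t => ((c t : ℝ) : ℂ) := Complex.measurable_ofReal.comp hm
  have hm0 : ∀ b : Bool × Bool, Measurable fun t => χ (gs b (c t)) := fun b =>
    hχ.comp ((measurable_gs b).comp hmc)
  rw [← lintegral_finsetSum _ (fun b _ => hm0 b)]
  have e1 : ∀ t : UnitAddCircle, ∑ b : Bool × Bool, χ (gs b (c t)) =
      (fun y => χ (csq (6 + y)) + χ (-csq (6 + y))) (csq (6 + c t)) +
      (fun y => χ (csq (6 + y)) + χ (-csq (6 + y))) (-csq (6 + c t)) := by
    intro t
    rw [Fintype.sum_prod_type]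
    simp [gs]
    abel
  simp_rw [e1]
  have hχ1 : Measurable fun y : ℂ => χ (csq (6 + y)) + χ (-csq (6 + y)) := by
    have : Measurable fun y : ℂ => csq (6 + y) :=
      measurable_csq.comp (measurable_const.add measurable_id)
    exact (hχ.comp this).add (hχ.comp this.neg)
  rw [lint_csq hm h2 hh _ hχ1, lint_csq hm h2 hh _ hχ, ← mul_assoc]
  norm_num

/-- the phase integral -/
theorem lint_phase (χ : ℂ → ENNReal) (hχ : Measurable χ) {r r' : ℝ} (q : ℂ) (hr : 0 < r)
    (hq : q ≠ 0) (h : r' = ‖q‖ * r ^ 4) :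
    ∑ k : Fin 4, ∫⁻ s : UnitAddCircle, χ (Complex.I ^ (k : ℕ) * cqr (r' * ee s / q)) =
      4 * ∫⁻ s : UnitAddCircle, χ (r * ee s) := by
  have hme : Measurable ee := continuous_ee.measurable
  have hm1 : ∀ k : Fin 4, Measurable fun s : UnitAddCircle =>
      χ (Complex.I ^ (k : ℕ) * cqr (r' * ee s / q)) := fun k =>
    hχ.comp (measurable_const.mul (measurable_cqr.comp ((measurable_const.mul hme).div_const q)))
  rw [← lintegral_finsetSum _ (fun k _ => hm1 k)]
  have hq' : (‖q‖ : ℂ) ≠ 0 := by simpa using hq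
  obtain ⟨a, ha⟩ := ee_surj (q / ‖q‖) (by
    rw [norm_div, Complex.norm_real, norm_norm, div_self]; simpa using hq)
  have hm2 : Measurable fun s : UnitAddCircle =>
      ∑ k : Fin 4, χ (Complex.I ^ (k : ℕ) * cqr (r' * ee s / q)) :=
    Finset.measurable_sum _ fun k _ => hm1 k
  rw [← lint_four_add a _ hm2]
  have e1 : ∀ s : UnitAddCircle,
      ∑ k : Fin 4, χ (Complex.I ^ (k : ℕ) * cqr (r' * ee (4 • s + a) / q)) =
      ∑ k : Fin 4, χ (Complex.I ^ (k : ℕ) * (r * ee s)) := by
    intro s
    apply sum_cqr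
    rw [ee_add, ee_nsmul, ha, h]
    push_cast
    field_simp
  simp_rw [e1]
  have hm3 : ∀ k : Fin 4, Measurable fun s : UnitAddCircle =>
      χ (Complex.I ^ (k : ℕ) * (r * ee s)) := fun k =>
    hχ.comp (measurable_const.mul (measurable_const.mul hme))
  rw [lintegral_finsetSum _ (fun k _ => hm3 k)]
  have e2 : ∀ k : Fin 4, ∫⁻ s : UnitAddCircle, χ (Complex.I ^ (k : ℕ) * (r * ee s)) =
      ∫⁻ s : UnitAddCircle, χ (r * ee s) := by
    intro k
    obtain ⟨b, hb⟩ := ee_surj (Complex.I ^ (k : ℕ)) (by simp)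
    rw [← lint_add b (fun s => χ (r * ee s))]
    refine lintegral_congr fun s => ?_
    rw [ee_add, hb]
    congr 1
    ring
  simp_rw [e2]
  simp

end Pool.Agent.Helper881.Stab
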