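import Mathlib

open MeasureTheory MvPolynomial

namespace Pool.Agent.Helper881.Stab

/-- Vectors of homogeneous coordinates on the projective space of dimension `N`. -/
abbrev Vec (N : ℕ) : Type := Fin (N + 1) → ℂ

/-- Tuples `(F_0, …, F_N)` of polynomials in `N + 1` variables, i.e. coefficient vectors. -/
abbrev Tuple (N : ℕ) : Type := Fin (N + 1) → MvPolynomial (Fin (N + 1)) ℂ

/-- The complex projective space of dimension `N`. -/
abbrev PSpace (N : ℕ) : Type := Projectivization ℂ (Vec N)

/-- The Borel sigma-algebra of projective space: a set is measurable when its cone of nonzero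
vectors is Borel. -/
noncomputable instance instMeasurableSpacePSpace (N : ℕ) : MeasurableSpace (PSpace N) :=
  MeasurableSpace.map (Projectivization.mk' ℂ) (inferInstance : MeasurableSpace {v : Vec N // v ≠ 0})

/-- The polynomial map of `ℂ^(N+1)` given by a tuple. -/
noncomputable def lin {N : ℕ} (F : Tuple N) (z : Vec N) : Vec N := fun i => eval z (F i)

/-- `F` is (the lift of) a holomorphic endomorphism of projective space of algebraic degree `d`:
all components are homogeneous of degree `d` and their only common zero is `0`. -/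
structure IsLift (N d : ℕ) (F : Tuple N) : Prop where
  homog : ∀ i, (F i).IsHomogeneous d
  eq_zero : ∀ z : Vec N, lin F z = 0 → z = 0

/-- The endomorphism of projective space with lift `F`. -/
noncomputable def projMap {N : ℕ} (F : Tuple N) (p : PSpace N) : PSpace N :=
  open Classical in
  if h : lin F p.rep ≠ 0 then Projectivization.mk ℂ (lin F p.rep) h else p

/-- Algebraic subsets of projective space: common zero loci of homogeneous polynomials. -/
def IsAlgebraicSet {N : ℕ} (Z : Set (PSpace N)) : Prop :=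
  ∃ S : Set (MvPolynomial (Fin (N + 1)) ℂ), (∀ P ∈ S, ∃ k, P.IsHomogeneous k) ∧
    Z = {p | ∀ P ∈ S, eval p.rep P = 0}

/-- The equilibrium measure of the endomorphism with lift `F` of degree `d`: the probability
measure on projective space which gives no mass to proper algebraic subsets and has constant
Jacobian `d ^ N` (that is, `f^* μ = d ^ N μ`). -/
structure IsEquilibrium (N d : ℕ) (F : Tuple N) (μ : Measure (PSpace N)) : Prop where
  prob : IsProbabilityMeasure μ
  no_mass : ∀ Z : Set (PSpace N), IsAlgebraicSet Z → Z ≠ Set.univ → μ Z = 0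
  jacobian : ∀ A : Set (PSpace N), MeasurableSet A → Set.InjOn (projMap F) A →
    μ (projMap F '' A) = (d : ENNReal) ^ N * μ A

/-- The Jacobian determinant of the polynomial map of `ℂ^(N+1)` given by `F`. -/
noncomputable def jacDet {N : ℕ} (F : Tuple N) (z : Vec N) : ℂ :=
  (Matrix.of fun i j : Fin (N + 1) => eval z (pderiv j (F i))).det

/-- The standard hermitian norm on `ℂ^(N+1)`. -/
noncomputable def hnorm {N : ℕ} (z : Vec N) : ℝ := Real.sqrt (∑ i, ‖z i‖ ^ 2)

/-- `log |det df(p)|`, the complex Jacobian of the endomorphism `f` with lift `F` of degree `d`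
being taken with respect to the Fubini-Study metric. -/
noncomputable def logJac {N : ℕ} (d : ℕ) (F : Tuple N) (p : PSpace N) : ℝ :=
  Real.log (‖jacDet F p.rep‖ * hnorm p.rep ^ (N + 1) / (d * hnorm (lin F p.rep) ^ (N + 1)))

/-- `L` is the sum of the Lyapunov exponents of the endomorphism with lift `F` with respect to its
equilibrium measure. -/
def IsLyapunovSum (N d : ℕ) (F : Tuple N) (L : ℝ) : Prop :=
  ∃ μ : Measure (PSpace N), IsEquilibrium N d F μ ∧ Integrable (logJac d F) μ ∧
    L = ∫ p, logJac d F p ∂μ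

/-- Value at a coefficient vector of a polynomial in the coefficients. -/
noncomputable def coeffEval {N : ℕ} (F : Tuple N)
    (P : MvPolynomial (Fin (N + 1) × (Fin (N + 1) →₀ ℕ)) ℂ) : ℂ :=
  eval (fun q : Fin (N + 1) × (Fin (N + 1) →₀ ℕ) => coeff q.2 (F q.1)) P

/-- An algebraic family of endomorphisms of `ℙ^N` of degree `d`, given by the cone `V` of the lifts
of its members: a Zariski closed irreducible subset of the space of lifts, stable under
multiplication by nonzero scalars, and of positive dimension as a subset of `End`, i.e. containing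
infinitely many pairwise non-proportional lifts. -/
structure IsAlgebraicFamily (N d : ℕ) (V : Set (Tuple N)) : Prop where
  isLift : ∀ F ∈ V, IsLift N d F
  smul_mem : ∀ F ∈ V, ∀ c : ℂ, c ≠ 0 → c • F ∈ V
  closed : ∃ E : Set (MvPolynomial (Fin (N + 1) × (Fin (N + 1) →₀ ℕ)) ℂ),
    V = {F | IsLift N d F ∧ ∀ P ∈ E, coeffEval F P = 0}
  irreducible : ∀ P Q : MvPolynomial (Fin (N + 1) × (Fin (N + 1) →₀ ℕ)) ℂ,
    (∀ F ∈ V, coeffEval F P * coeffEval F Q = 0) →
      (∀ F ∈ V, coeffEval F P = 0) ∨ (∀ F ∈ V, coeffEval F Q = 0)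
  pos_dim : ∃ W : Set (Tuple N), W ⊆ V ∧ W.Infinite ∧
    ∀ F ∈ W, ∀ G ∈ W, F ≠ G → ∀ c : ℂ, G ≠ c • F

/-- The family is dynamically stable: the sum of the Lyapunov exponents with respect to the
equilibrium measure is a pluriharmonic function on the family (it is harmonic along every
holomorphic disc of the family). -/
def IsStable (N d : ℕ) (V : Set (Tuple N)) : Prop :=
  ∃ L : Tuple N → ℝ, (∀ F ∈ V, IsLyapunovSum N d F (L F)) ∧
    ∀ (Ω : Set ℂ) (γ : ℂ → Tuple N), IsOpen Ω → (∀ t ∈ Ω, γ t ∈ V) →
      (∀ (i : Fin (N + 1)) (m : Fin (N + 1) →₀ ℕ),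
        DifferentiableOn ℂ (fun t => coeff m (γ t i)) Ω) →
      InnerProductSpace.HarmonicOnNhd (fun t => L (γ t)) Ω

/-- Two endomorphisms of `ℙ^N`, given by lifts, are conjugate under `PGL_(N+1)`. -/
def IsConj {N : ℕ} (F G : Tuple N) : Prop :=
  ∃ A : Matrix.GeneralLinearGroup (Fin (N + 1)) ℂ, ∃ c : ℂ, c ≠ 0 ∧
    ∀ z : Vec N, lin G (A.1.mulVec z) = c • A.1.mulVec (lin F z)

/-- All members of the family are conjugate. -/
def IsIsotrivial {N : ℕ} (V : Set (Tuple N)) : Prop := ∀ F ∈ V, ∀ G ∈ V, IsConj F G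

/-- `Θ : ℂ^N → ℙ^N` is holomorphic: locally it is given by homogeneous coordinates which are
holomorphic functions. -/
def IsHolomorphic {N : ℕ} (Θ : (Fin N → ℂ) → PSpace N) : Prop :=
  ∀ v, ∃ U ∈ nhds v, ∃ θ : (Fin N → ℂ) → Vec N, DifferentiableOn ℂ θ U ∧
    ∀ w ∈ U, ∃ h : θ w ≠ 0, Θ w = Projectivization.mk ℂ (θ w) h

/-- The endomorphism with lift `F` is a Lattes map: there are a lattice `Λ` of `ℂ^N`, a finite
branched covering of `ℙ^N` by the torus `ℂ^N / Λ` (a surjective holomorphic `Λ`-periodic map `Θ`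
with finite fibres modulo `Λ`) and an affine map `v ↦ M v + b` of the torus making the diagram
commute. -/
def IsLattes {N : ℕ} (F : Tuple N) : Prop :=
  ∃ Λ : Submodule ℤ (Fin N → ℂ), DiscreteTopology Λ ∧
    Submodule.span ℝ (Λ : Set (Fin N → ℂ)) = ⊤ ∧
    ∃ Θ : (Fin N → ℂ) → PSpace N, IsHolomorphic Θ ∧ Function.Surjective Θ ∧
      (∀ v, ∀ l ∈ Λ, Θ (v + l) = Θ v) ∧
      (∀ p, ∃ S : Finset (Fin N → ℂ), ∀ v, Θ v = p → ∃ s ∈ S, v - s ∈ Λ) ∧
      ∃ (M : (Fin N → ℂ) →ₗ[ℂ] (Fin N → ℂ)) (b : Fin N → ℂ),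
        (∀ l ∈ Λ, M l ∈ Λ) ∧ ∀ v, projMap F (Θ v) = Θ (M v + b)

/-- Critical set of the endomorphism with lift `F`. -/
def critSet {N : ℕ} (F : Tuple N) : Set (PSpace N) := {p | jacDet F p.rep = 0}

/-- The endomorphism with lift `F` is postcritically finite: its postcritical set is an algebraic
subset of projective space. -/
def IsPCF {N : ℕ} (F : Tuple N) : Prop :=
  IsAlgebraicSet (⋃ n : ℕ, (projMap F)^[n + 1] '' critSet F)

end Pool.Agent.Helper881.Stab
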