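import Pool.Agent.Helper881.StabMaps

open MeasureTheory MvPolynomial

namespace Pool.Agent.Helper881.Stab

/-- the cone of lifts of the family -/
def VV : Set (Tuple 3) := {F | ∃ c l : ℂ, c ≠ 0 ∧ l ≠ 0 ∧ l ≠ 1 ∧ F = c • Hm l}

noncomputable def A0 : Tuple 3 := ![X 0 ^ 4, 4 * X 0 ^ 2 * X 1 * (X 0 - X 1),
  (X 2 ^ 2 - 6 * X 3 ^ 2) ^ 2 - 6 * X 3 ^ 4, X 3 ^ 4]
noncomputable def B0 : Tuple 3 := ![-2 * X 0 ^ 2 * X 1 ^ 2, -4 * X 0 * X 1 ^ 2 * (X 0 - X 1), 0, 0]
noncomputable def C0 : Tuple 3 := ![X 1 ^ 4, 0, 0, 0]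

theorem Hm_decomp (l : ℂ) (i : Fin 4) : Hm l i = A0 i + C l * B0 i + C (l ^ 2) * C0 i := by
  fin_cases i
  · show (X 0 ^ 2 - C l * X 1 ^ 2) ^ 2 = X 0 ^ 4 + C l * (-2 * X 0 ^ 2 * X 1 ^ 2) +
      C (l ^ 2) * X 1 ^ 4
    rw [C_pow]; ring
  · show 4 * X 0 * X 1 * (X 0 - X 1) * (X 0 - C l * X 1) = 4 * X 0 ^ 2 * X 1 * (X 0 - X 1) +
      C l * (-4 * X 0 * X 1 ^ 2 * (X 0 - X 1)) + C (l ^ 2) * 0
    ring
  · show (X 2 ^ 2 - 6 * X 3 ^ 2) ^ 2 - 6 * X 3 ^ 4 = (X 2 ^ 2 - 6 * X 3 ^ 2) ^ 2 - 6 * X 3 ^ 4 +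
      C l * 0 + C (l ^ 2) * 0
    ring
  · show X 3 ^ 4 = X 3 ^ 4 + C l * 0 + C (l ^ 2) * 0
    ring

theorem coeff_Hm (l : ℂ) (i : Fin 4) (m : Fin 4 →₀ ℕ) :
    coeff m (Hm l i) = coeff m (A0 i) + l * coeff m (B0 i) + l ^ 2 * coeff m (C0 i) := by
  rw [Hm_decomp, coeff_add, coeff_add, coeff_C_mul, coeff_C_mul]

noncomputable def m40 : Fin 4 →₀ ℕ := Finsupp.single 0 4
noncomputable def m22 : Fin 4 →₀ ℕ := Finsupp.single 0 2 + Finsupp.single 1 2
noncomputable def m04 : Fin 4 →₀ ℕ := Finsupp.single 1 4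

theorem m40_ne_m22 : m40 ≠ m22 := by
  intro h
  have := DFunLike.congr_fun h 1
  simp [m40, m22] at this

theorem m40_ne_m04 : m40 ≠ m04 := by
  intro h
  have := DFunLike.congr_fun h 1
  simp [m40, m04] at this

theorem m22_ne_m04 : m22 ≠ m04 := by
  intro h
  have := DFunLike.congr_fun h 0
  simp [m22, m04] at this

theorem A00 : A0 0 = monomial m40 1 := by
  show X 0 ^ 4 = _
  rw [X_pow_eq_monomial]; rfl

theorem B00 : B0 0 = monomial m22 (-2) := by
  show -2 * X 0 ^ 2 * X 1 ^ 2 = _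
  have h2 : (-2 : MvPolynomial (Fin 4) ℂ) = C (-2) := by
    rw [C_neg]; congr 1
  rw [X_pow_eq_monomial, X_pow_eq_monomial, h2, C_mul_monomial, monomial_mul]
  simp [m22]

theorem C00 : C0 0 = monomial m04 1 := by
  show X 1 ^ 4 = _
  rw [X_pow_eq_monomial]; rfl

theorem coeff_m40 (l : ℂ) : coeff m40 (Hm l 0) = 1 := by
  rw [coeff_Hm, A00, B00, C00, coeff_monomial, coeff_monomial, coeff_monomial, if_pos rfl,
    if_neg m40_ne_m22.symm, if_neg m40_ne_m04.symm]
  ring

theorem coeff_m22 (l : ℂ) : coeff m22 (Hm l 0) = -2 * l := by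
  rw [coeff_Hm, A00, B00, C00, coeff_monomial, coeff_monomial, coeff_monomial, if_pos rfl,
    if_neg m40_ne_m22, if_neg m22_ne_m04.symm]
  ring

theorem coeff_m04 (l : ℂ) : coeff m04 (Hm l 0) = l ^ 2 := by
  rw [coeff_Hm, A00, B00, C00, coeff_monomial, coeff_monomial, coeff_monomial, if_pos rfl,
    if_neg m40_ne_m04, if_neg m22_ne_m04]
  ring

abbrev CV : Type := Fin 4 × (Fin 4 →₀ ℕ)

/-- linear equations of the family -/
noncomputable def Plin (q : CV) : MvPolynomial CV ℂ :=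
  X q - C (coeff q.2 (A0 q.1)) * X (0, m40) + C (coeff q.2 (B0 q.1) / 2) * X (0, m22) -
    C (coeff q.2 (C0 q.1)) * X (0, m04)

/-- quadratic equation of the family -/
noncomputable def Pquad : MvPolynomial CV ℂ :=
  4 * X (0, m40) * X (0, m04) - X (0, m22) ^ 2

theorem coeffEval_Plin (F : Tuple 3) (q : CV) : coeffEval F (Plin q) =
    coeff q.2 (F q.1) - coeff q.2 (A0 q.1) * coeff m40 (F 0) +
      coeff q.2 (B0 q.1) / 2 * coeff m22 (F 0) - coeff q.2 (C0 q.1) * coeff m04 (F 0) := by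
  simp [coeffEval, Plin]

theorem coeffEval_Pquad (F : Tuple 3) : coeffEval F Pquad =
    4 * coeff m40 (F 0) * coeff m04 (F 0) - coeff m22 (F 0) ^ 2 := by
  simp [coeffEval, Pquad]

theorem VV_closed : ∃ E : Set (MvPolynomial CV ℂ),
    VV = {F | IsLift 3 4 F ∧ ∀ P ∈ E, coeffEval F P = 0} := by
  refine ⟨Set.range Plin ∪ {Pquad}, ?_⟩
  ext F
  constructor
  · rintro ⟨c, l, hc, h0, h1, rfl⟩
    refine ⟨(Hm_isLift h0 h1).smul hc, ?_⟩
    rintro P (⟨q, rfl⟩ | hP)
    · rw [coeffEval_Plin]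
      simp only [Pi.smul_apply, coeff_smul, smul_eq_mul]
      rw [coeff_m40, coeff_m22, coeff_m04, coeff_Hm]
      ring
    · rw [Set.mem_singleton_iff.mp hP, coeffEval_Pquad]
      simp only [Pi.smul_apply, coeff_smul, smul_eq_mul]
      rw [coeff_m40, coeff_m22, coeff_m04]
      ring
  · rintro ⟨hF, hE⟩
    have hlin : ∀ q : CV, coeff q.2 (F q.1) - coeff q.2 (A0 q.1) * coeff m40 (F 0) +
      coeff q.2 (B0 q.1) / 2 * coeff m22 (F 0) - coeff q.2 (C0 q.1) * coeff m04 (F 0) = 0 :=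
      fun q => by rw [← coeffEval_Plin]; exact hE _ (Or.inl ⟨q, rfl⟩)
    have hquad : 4 * coeff m40 (F 0) * coeff m04 (F 0) - coeff m22 (F 0) ^ 2 = 0 := by
      rw [← coeffEval_Pquad]; exact hE _ (Or.inr rfl)
    set a := coeff m40 (F 0) with ha
    set b := coeff m22 (F 0) with hb
    set e := coeff m04 (F 0) with he
    have hane : a ≠ 0 := by
      intro ha0
      have hb0 : b = 0 := by
        rw [ha0] at hquad
        have : b ^ 2 = 0 := by linear_combination -hquad
        exact pow_eq_zero_iff (two_ne_zero) |>.mp this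
      have hF2 : ∀ i, F i = e • C0 i := by
        intro i
        ext m
        have := hlin (i, m)
        rw [ha0, hb0] at this
        rw [coeff_smul, smul_eq_mul]
        linear_combination this
      have hz : lin F ![1, 0, 0, 0] = 0 := by
        funext i
        simp only [lin, hF2 i, smul_eval]
        fin_cases i <;> simp [C0]
      have := hF.eq_zero _ hz
      have := congrFun this 0
      simp at this
    set l := -b / (2 * a) with hl
    have hb2 : b = -2 * (a * l) := by rw [hl]; field_simp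
    have he2 : e = a * l ^ 2 := by
      have : 4 * a * (e - a * l ^ 2) = 0 := by
        rw [hb2] at hquad
        linear_combination hquad
      have h4 := (mul_eq_zero.mp this).resolve_left (mul_ne_zero (by norm_num) hane)
      exact sub_eq_zero.mp h4
    have hFeq : F = a • Hm l := by
      funext i
      ext m
      have := hlin (i, m)
      rw [hb2, he2] at this
      simp only [Pi.smul_apply, coeff_smul, smul_eq_mul]
      rw [coeff_Hm]
      linear_combination this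
    refine ⟨a, l, hane, ?_, ?_, hFeq⟩
    · intro h
      have hz : lin F ![0, 1, 0, 0] = 0 := by
        rw [hFeq, lin_smul_tuple, lin_Hm, h]
        funext i
        fin_cases i <;> simp
      have := hF.eq_zero _ hz
      have := congrFun this 1
      simp at this
    · intro h
      have hz : lin F ![1, 1, 0, 0] = 0 := by
        rw [hFeq, lin_smul_tuple, lin_Hm, h]
        funext i
        fin_cases i <;> simp
      have := hF.eq_zero _ hz
      have := congrFun this 1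
      simp at this

/-- parametrised version of a polynomial in the coefficients -/
noncomputable def param (P : MvPolynomial CV ℂ) : MvPolynomial (Fin 2) ℂ :=
  aeval (fun q : CV => (X 0 * (C (coeff q.2 (A0 q.1)) + C (coeff q.2 (B0 q.1)) * X 1 +
    C (coeff q.2 (C0 q.1)) * X 1 ^ 2) : MvPolynomial (Fin 2) ℂ)) P

theorem eval_param (P : MvPolynomial CV ℂ) (w : Fin 2 → ℂ) :
    eval w (param P) = coeffEval (w 0 • Hm (w 1)) P := by
  have h : ∀ P : MvPolynomial CV ℂ, eval w (param P) = coeffEval (w 0 • Hm (w 1)) P := by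
    intro P
    induction P using MvPolynomial.induction_on with
    | C a => simp [param, coeffEval]
    | add p q hp hq =>
      have e1 : param (p + q) = param p + param q := by simp [param]
      have e2 : coeffEval (w 0 • Hm (w 1)) (p + q) = coeffEval (w 0 • Hm (w 1)) p +
        coeffEval (w 0 • Hm (w 1)) q := by simp [coeffEval]
      rw [e1, e2, map_add, hp, hq]
    | mul_X p q hp =>
      have e1 : param (p * X q) = param p * (X 0 * (C (coeff q.2 (A0 q.1)) +
        C (coeff q.2 (B0 q.1)) * X 1 + C (coeff q.2 (C0 q.1)) * X 1 ^ 2)) := by simp [param]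
      have e2 : coeffEval (w 0 • Hm (w 1)) (p * X q) = coeffEval (w 0 • Hm (w 1)) p *
        (w 0 * coeff q.2 (Hm (w 1) q.1)) := by simp [coeffEval]
      rw [e1, e2, map_mul, hp, coeff_Hm]
      congr 1
      simp
      left
      ring
  exact h P

theorem VV_irred (P Q : MvPolynomial CV ℂ) (h : ∀ F ∈ VV, coeffEval F P * coeffEval F Q = 0) :
    (∀ F ∈ VV, coeffEval F P = 0) ∨ (∀ F ∈ VV, coeffEval F Q = 0) := by
  have hz : param P * param Q * (X 0 * X 1 * (X 1 - 1)) = 0 := by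
    apply MvPolynomial.funext
    intro w
    rw [map_zero, map_mul, map_mul, eval_param, eval_param]
    by_cases hw0 : w 0 = 0
    · simp [hw0]
    by_cases hw1 : w 1 = 0
    · simp [hw1]
    by_cases hw2 : w 1 = 1
    · simp [hw2]
    rw [h (w 0 • Hm (w 1)) ⟨w 0, w 1, hw0, hw1, hw2, rfl⟩, zero_mul]
  have hX : (X 0 * X 1 * (X 1 - 1) : MvPolynomial (Fin 2) ℂ) ≠ 0 := by
    refine mul_ne_zero (mul_ne_zero (X_ne_zero 0) (X_ne_zero 1)) ?_
    intro h
    have := congrArg (eval (fun _ => (0 : ℂ))) h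
    simp at this
  rcases mul_eq_zero.mp ((mul_eq_zero.mp hz).resolve_right hX) with h1 | h1
  · left
    rintro F ⟨c, l, hc, h0, h1', rfl⟩
    have := eval_param P ![c, l]
    rw [h1, map_zero] at this
    simpa using this.symm
  · right
    rintro F ⟨c, l, hc, h0, h1', rfl⟩
    have := eval_param Q ![c, l]
    rw [h1, map_zero] at this
    simpa using this.symm

theorem Hm_inj {c l l' : ℂ} (h : Hm l' = c • Hm l) : l' = l := by
  have e1 : coeff m40 (Hm l' 0) = c * coeff m40 (Hm l 0) := by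
    rw [h]; simp
  have e2 : coeff m22 (Hm l' 0) = c * coeff m22 (Hm l 0) := by
    rw [h]; simp
  rw [coeff_m40, coeff_m40, mul_one] at e1
  rw [coeff_m22, coeff_m22, ← e1] at e2
  linear_combination -e2 / 2

theorem VV_family : IsAlgebraicFamily 3 4 VV := by
  refine ⟨?_, ?_, VV_closed, VV_irred, ?_⟩
  · rintro F ⟨c, l, hc, h0, h1, rfl⟩
    exact (Hm_isLift h0 h1).smul hc
  · rintro F ⟨c, l, hc, h0, h1, rfl⟩ a ha
    exact ⟨a * c, l, mul_ne_zero ha hc, h0, h1, by rw [smul_smul]⟩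
  · refine ⟨Hm '' {l | l ≠ 0 ∧ l ≠ 1}, ?_, ?_, ?_⟩
    · rintro F ⟨l, ⟨h0, h1⟩, rfl⟩
      exact ⟨1, l, one_ne_zero, h0, h1, by rw [one_smul]⟩
    · refine Set.Infinite.image ?_ ?_
      · intro l _ l' _ h
        exact Hm_inj (c := 1) (by rw [one_smul]; exact h)
      · have : {l : ℂ | l ≠ 0 ∧ l ≠ 1} = ({0, 1} : Set ℂ)ᶜ := by
          ext l; simp
        rw [this]
        exact (Set.toFinite _).infinite_compl
    · rintro F ⟨l, ⟨h0, h1⟩, rfl⟩ G ⟨l', ⟨h0', h1'⟩, rfl⟩ hne c h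
      exact hne (by rw [Hm_inj h])

end Pool.Agent.Helper881.Stab
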