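import Pool.Agent.Helper881.StabMeasure

open MeasureTheory Filter Topology Set MvPolynomial

namespace Pool.Agent.Helper881.Stab

theorem Kp_co {p : PSpace 3} (h : (co p).2.1 ≠ 0) : Kp (co p) = p := by
  induction p using Projectivization.ind with
  | h v hv =>
    rw [co_mk] at h ⊢
    have h1 : v 1 ≠ 0 := fun e => h (by simp [e])
    have h3 : v 3 ≠ 0 := fun e => h (by simp [e])
    rw [Kp, Projectivization.mk_eq_mk_iff']
    refine ⟨(v 3)⁻¹, ?_⟩
    funext i
    fin_cases i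
    · simp [kvec]; field_simp
    · simp [kvec]; field_simp
    · simp [kvec]; field_simp
    · simp [kvec, h3]

/-- the map in the chart -/
noncomputable def Tc (l : ℂ) (x : C3) : C3 :=
  (ff l x.1, x.2.1 ^ 4 * Qf l x.1, (x.2.2 ^ 2 - 6) ^ 2 - 6)

theorem lin_kvec {l : ℂ} {x : C3} (hQ : Qf l x.1 ≠ 0) : lin (Hm l) (kvec x) = kvec (Tc l x) := by
  obtain ⟨v, w, y⟩ := x
  have hQ' : Qf l v ≠ 0 := hQ
  have hP : ff l v * Qf l v = Pf l v := by rw [ff, div_mul_cancel₀ _ hQ']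
  rw [lin_Hm]
  funext i
  fin_cases i
  · show ((v * w) ^ 2 - l * w ^ 2) ^ 2 = ff l v * (w ^ 4 * Qf l v)
    have : ff l v * (w ^ 4 * Qf l v) = w ^ 4 * Pf l v := by rw [← hP]; ring
    rw [this, Pf]; ring
  · show 4 * (v * w) * w * (v * w - w) * (v * w - l * w) = w ^ 4 * Qf l v
    rw [Qf]; ring
  · show (y ^ 2 - 6 * 1 ^ 2) ^ 2 - 6 * 1 ^ 4 = (y ^ 2 - 6) ^ 2 - 6
    ring
  · show (1 : ℂ) ^ 4 = 1
    ring

theorem projMap_Kp {l : ℂ} (h0 : l ≠ 0) (h1 : l ≠ 1) {x : C3} (hQ : Qf l x.1 ≠ 0) :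
    projMap (Hm l) (Kp x) = Kp (Tc l x) := by
  have hne := lin_ne_zero (Hm_isLift h0 h1) (kvec_ne_zero x)
  rw [Kp, projMap_mk (Hm_isLift h0 h1) (kvec x) (kvec_ne_zero x) hne]
  unfold Kp
  congr 1
  exact lin_kvec hQ

theorem gs_eq (b : Bool × Bool) (y : ℂ) : ((gs b y) ^ 2 - 6) ^ 2 - 6 = y := by
  have h1 : (gs b y) ^ 2 - 6 = (if b.2 then 1 else -1) * csq (6 + y) := by
    have hs : ((if b.1 then 1 else -1 : ℂ)) ^ 2 = 1 := by split_ifs <;> norm_num
    rw [gs, mul_pow, hs, one_mul, csq_sq]; ring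
  have hs : ((if b.2 then 1 else -1 : ℂ)) ^ 2 = 1 := by split_ifs <;> norm_num
  rw [h1, mul_pow, hs, one_mul, csq_sq]; ring

theorem eq_csq {a w : ℂ} (h : a ^ 2 = w) : ∃ b : Bool, a = (if b then 1 else -1) * csq w := by
  have h1 : (a - csq w) * (a + csq w) = 0 := by
    have := csq_sq w
    linear_combination h - this
  rcases mul_eq_zero.mp h1 with h2 | h2
  · exact ⟨true, by simp [sub_eq_zero.mp h2]⟩
  · exact ⟨false, by simp [eq_neg_of_add_eq_zero_left h2]⟩

theorem exists_gs {a y : ℂ} (h : (a ^ 2 - 6) ^ 2 - 6 = y) : ∃ b, a = gs b y := by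
  obtain ⟨b2, hb2⟩ := eq_csq (a := a ^ 2 - 6) (w := 6 + y) (by linear_combination h)
  obtain ⟨b1, hb1⟩ := eq_csq (a := a) (w := 6 + (if b2 then 1 else -1) * csq (6 + y))
    (by linear_combination hb2)
  exact ⟨(b1, b2), hb1⟩

theorem exists_cqr {a w : ℂ} (h : a ^ 4 = w) : ∃ k : Fin 4, a = Complex.I ^ (k : ℕ) * cqr w := by
  have hI : Complex.I ^ 2 = -1 := Complex.I_sq
  have hI3 : Complex.I ^ 3 = -Complex.I := by rw [pow_succ, hI]; ring
  have h1 : (a - cqr w) * (a + cqr w) * ((a - Complex.I * cqr w) * (a + Complex.I * cqr w)) = 0 := by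
    have := cqr_pow w
    have e : (a - Complex.I * cqr w) * (a + Complex.I * cqr w) = a ^ 2 + cqr w ^ 2 := by
      linear_combination -cqr w ^ 2 * hI
    rw [e]
    linear_combination h - this
  rcases mul_eq_zero.mp h1 with h2 | h2
  · rcases mul_eq_zero.mp h2 with h3 | h3
    · exact ⟨0, by simp [sub_eq_zero.mp h3]⟩
    · refine ⟨2, ?_⟩
      show a = Complex.I ^ 2 * cqr w
      rw [hI]; linear_combination h3
  · rcases mul_eq_zero.mp h2 with h3 | h3
    · exact ⟨1, by simp [sub_eq_zero.mp h3]⟩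
    · refine ⟨3, ?_⟩
      show a = Complex.I ^ 3 * cqr w
      rw [hI3]; linear_combination h3

theorem I_pow_inj : Function.Injective fun k : Fin 4 => Complex.I ^ (k : ℕ) := by
  intro a b h
  have hr := congrArg Complex.re h
  have hi := congrArg Complex.im h
  clear h
  fin_cases a <;> fin_cases b <;> first | rfl | (exfalso; norm_num [pow_succ] at hr; done) |
    (exfalso; norm_num [pow_succ] at hi; done)

theorem gs_inj {y : ℂ} (h1 : 6 + y ≠ 0) (h2 : 6 + csq (6 + y) ≠ 0) (h3 : 6 - csq (6 + y) ≠ 0) :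
    Function.Injective fun b => gs b y := by
  have n0 := csq_ne_zero h1
  have n1 := csq_ne_zero h2
  have n2 : csq (6 + -1 * csq (6 + y)) ≠ 0 := csq_ne_zero (by
    intro h; exact h3 (by linear_combination h))
  rintro ⟨a1, a2⟩ ⟨b1, b2⟩ h
  have h' : gs (a1, a2) y = gs (b1, b2) y := h
  have hsq : (gs (a1, a2) y) ^ 2 - 6 = (gs (b1, b2) y) ^ 2 - 6 := by rw [h']
  have hg : ∀ b1 b2 : Bool, (gs (b1, b2) y) ^ 2 - 6 = (if b2 then 1 else -1) * csq (6 + y) := by
    intro b1 b2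
    have hs : ((if b1 then 1 else -1 : ℂ)) ^ 2 = 1 := by split_ifs <;> norm_num
    simp only [gs]
    rw [mul_pow, hs, one_mul, csq_sq]; ring
  rw [hg, hg] at hsq
  have e2 : a2 = b2 := by
    have := mul_right_cancel₀ n0 hsq
    clear hsq h' h hg
    cases a2 <;> cases b2 <;> first | rfl | (exfalso; norm_num at this)
  subst e2
  simp only [gs] at h'
  have n3 : csq (6 + (if a2 then 1 else -1) * csq (6 + y)) ≠ 0 := by
    cases a2
    · simpa using n2
    · simpa using n1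
  have := mul_right_cancel₀ n3 h'
  have e1 : a1 = b1 := by
    clear h' h hg hsq
    cases a1 <;> cases b1 <;> first | rfl | (exfalso; norm_num at this)
  rw [e1]

/-- good points -/
def Good (l : ℂ) (x : C3) : Prop :=
  wd l x.1 ≠ 0 ∧ x.2.1 ≠ 0 ∧ 6 + x.2.2 ≠ 0 ∧ 6 + csq (6 + x.2.2) ≠ 0 ∧ 6 - csq (6 + x.2.2) ≠ 0

theorem measurableSet_good (l : ℂ) : MeasurableSet {x : C3 | Good l x} := by
  have m1 : MeasurableSet {x : C3 | wd l x.1 ≠ 0} :=
    (measurableSet_eq_fun ((measurable_wd l).comp measurable_fst) measurable_const).compl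
  have m2 : MeasurableSet {x : C3 | x.2.1 ≠ 0} :=
    (measurableSet_eq_fun measurable_snd.fst measurable_const).compl
  have my : Measurable fun x : C3 => 6 + x.2.2 := measurable_const.add measurable_snd.snd
  have m3 : MeasurableSet {x : C3 | 6 + x.2.2 ≠ 0} :=
    (measurableSet_eq_fun my measurable_const).compl
  have m4 : MeasurableSet {x : C3 | 6 + csq (6 + x.2.2) ≠ 0} :=
    (measurableSet_eq_fun (measurable_const.add (measurable_csq.comp my)) measurable_const).compl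
  have m5 : MeasurableSet {x : C3 | 6 - csq (6 + x.2.2) ≠ 0} :=
    (measurableSet_eq_fun (measurable_const.sub (measurable_csq.comp my)) measurable_const).compl
  exact m1.inter (m2.inter (m3.inter (m4.inter m5)))

theorem fib_good {l : ℂ} (h0 : l ≠ 0) (h1 : l ≠ 1) (p : PSpace 3) (hg : Good l (co p)) :
    (∀ j, projMap (Hm l) (SP l j p) = p) ∧ (Function.Injective fun j => SP l j p) ∧
      ∀ q, projMap (Hm l) q = p → ∃ j, SP l j p = q := by
  obtain ⟨g1, g2, g3, g4, g5⟩ := hg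
  have hp : Kp (co p) = p := Kp_co g2
  set x := co p with hx
  obtain ⟨z, u, y⟩ := x
  simp only at g1 g2 g3 g4 g5
  have hS2 : ∀ j : JJ, (Sj l j (z, u, y)).2.1 ≠ 0 := by
    intro j
    show Complex.I ^ (j.2.1 : ℕ) * cqr (u / Qf l (sL l j.1 z)) ≠ 0
    refine mul_ne_zero (pow_ne_zero _ Complex.I_ne_zero) ?_
    intro h
    have := cqr_pow (u / Qf l (sL l j.1 z))
    rw [h] at this
    have h2 : u / Qf l (sL l j.1 z) = 0 := by rw [← this]; ring
    rcases div_eq_zero_iff.mp h2 with h | h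
    · exact g2 h
    · exact Qf_sL h0 h1 z j.1 h
  refine ⟨fun j => ?_, fun j j' h => ?_, fun q hq => ?_⟩
  · have hQ : Qf l (Sj l j (z, u, y)).1 ≠ 0 := Qf_sL h0 h1 z j.1
    rw [SP, ← hx, projMap_Kp h0 h1 hQ]
    have e : Tc l (Sj l j (z, u, y)) = (z, u, y) := by
      have e1 : ff l (sL l j.1 z) = z := ff_sL h0 h1 z j.1
      have e2 : (Complex.I ^ (j.2.1 : ℕ) * cqr (u / Qf l (sL l j.1 z))) ^ 4 * Qf l (sL l j.1 z) = u := by
        have hI4 : (Complex.I ^ (j.2.1 : ℕ)) ^ 4 = 1 := by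
          rw [← pow_mul, mul_comm, pow_mul, Complex.I_pow_four, one_pow]
        have hQ' : Qf l (sL l j.1 z) ≠ 0 := hQ
        rw [mul_pow, hI4, one_mul, cqr_pow, div_mul_cancel₀ _ hQ']
      have e3 := gs_eq j.2.2 y
      simp only [Tc, Sj]
      rw [e1, e2, e3]
    rw [e, hp]
  · have h' : SP l j p = SP l j' p := h
    rw [SP, SP, ← hx] at h'
    have h2 : Sj l j (z, u, y) = Sj l j' (z, u, y) := by
      rw [← co_Kp _ (hS2 j), ← co_Kp _ (hS2 j'), h']
    obtain ⟨b, k, b'⟩ := j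
    obtain ⟨c, m, c'⟩ := j'
    simp only [Sj, Prod.mk.injEq] at h2
    obtain ⟨e1, e2, e3⟩ := h2
    have eb : b = c := sL_inj h0 h1 g1 e1
    subst eb
    have hne : cqr (u / Qf l (sL l b z)) ≠ 0 := by
      have := hS2 (b, k, b')
      exact right_ne_zero_of_mul this
    have ek : k = m := I_pow_inj (mul_right_cancel₀ hne e2)
    have eb' : b' = c' := gs_inj g3 g4 g5 e3
    rw [ek, eb']
  · induction q using Projectivization.ind with
    | h v hv =>
      have hne := lin_ne_zero (Hm_isLift h0 h1) hv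
      rw [projMap_mk (Hm_isLift h0 h1) v hv hne, ← hp, Kp, Projectivization.mk_eq_mk_iff'] at hq
      obtain ⟨a, ha⟩ := hq
      rw [lin_Hm] at ha
      have a0 : a * (z * u) = (v 0 ^ 2 - l * v 1 ^ 2) ^ 2 := congrFun ha 0
      have a1 : a * u = 4 * v 0 * v 1 * (v 0 - v 1) * (v 0 - l * v 1) := congrFun ha 1
      have a2 : a * y = (v 2 ^ 2 - 6 * v 3 ^ 2) ^ 2 - 6 * v 3 ^ 4 := congrFun ha 2
      have a3 : a * 1 = v 3 ^ 4 := congrFun ha 3
      rw [mul_one] at a3
      have hane : a ≠ 0 := by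
        rintro rfl
        apply hne
        rw [lin_Hm, ← ha, zero_smul]
      have hv3 : v 3 ≠ 0 := by
        intro h
        rw [h] at a3
        exact hane (by rw [a3]; ring)
      have hv1 : v 1 ≠ 0 := by
        intro h
        rw [h] at a1
        exact (mul_ne_zero hane g2) (by rw [a1]; ring)
      have hvp : v 3 ^ 4 ≠ 0 := pow_ne_zero _ hv3
      have hQv : (v 1 / v 3) ^ 4 * Qf l (v 0 / v 1) = u := by
        have : v 3 ^ 4 * ((v 1 / v 3) ^ 4 * Qf l (v 0 / v 1)) = v 3 ^ 4 * u := by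
          rw [← a3, a1, a3, Qf]; field_simp
        exact mul_left_cancel₀ hvp this
      have hPv : (v 1 / v 3) ^ 4 * Pf l (v 0 / v 1) = z * u := by
        have : v 3 ^ 4 * ((v 1 / v 3) ^ 4 * Pf l (v 0 / v 1)) = v 3 ^ 4 * (z * u) := by
          rw [← a3, a0, a3, Pf]; field_simp
        exact mul_left_cancel₀ hvp this
      have hGv : ((v 2 / v 3) ^ 2 - 6) ^ 2 - 6 = y := by
        have : v 3 ^ 4 * (((v 2 / v 3) ^ 2 - 6) ^ 2 - 6) = v 3 ^ 4 * y := by
          rw [← a3, a2, a3]; field_simp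
        exact mul_left_cancel₀ hvp this
      have hQ0 : Qf l (v 0 / v 1) ≠ 0 := by
        intro h; rw [h, mul_zero] at hQv; exact g2 hQv.symm
      have hw0 : (v 1 / v 3) ^ 4 ≠ 0 := pow_ne_zero _ (div_ne_zero hv1 hv3)
      have hff : ff l (v 0 / v 1) = z := by
        rw [ff, div_eq_iff hQ0]
        apply mul_left_cancel₀ hw0
        rw [hPv, ← hQv]; ring
      obtain ⟨b, hb⟩ := exists_sL hQ0 hff
      obtain ⟨k, hk⟩ := exists_cqr (a := v 1 / v 3) (w := u / Qf l (v 0 / v 1))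
        (by rw [eq_div_iff hQ0]; exact hQv)
      obtain ⟨b', hb'⟩ := exists_gs hGv
      refine ⟨(b, k, b'), ?_⟩
      rw [SP, ← hx]
      have e : Sj l (b, k, b') (z, u, y) = (v 0 / v 1, v 1 / v 3, v 2 / v 3) := by
        simp only [Sj]
        rw [← hb, ← hk, ← hb']
      rw [e, ← co_mk v hv]
      apply Kp_co
      rw [co_mk]
      exact div_ne_zero hv1 hv3

variable {l : ℂ} (D : Dat l)

theorem good_PsiC (x : XX) (hx : wd l x.1 ≠ 0) : Good l (PsiC D x) := by
  have hc := D.c3 x.2.2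
  have hc' := abs_le.mp hc
  have h6 : (6 + (D.c x.2.2 : ℂ)) ≠ 0 := by
    have : (6 : ℝ) + D.c x.2.2 ≠ 0 := by linarith [hc'.1]
    exact_mod_cast this
  have hn : ‖csq (6 + (D.c x.2.2 : ℂ))‖ ^ 2 ≤ 9 := by
    rw [← norm_pow, csq_sq]
    have : (6 + (D.c x.2.2 : ℂ)) = ((6 + D.c x.2.2 : ℝ) : ℂ) := by push_cast; rfl
    rw [this, Complex.norm_real, Real.norm_eq_abs, abs_le]
    constructor <;> linarith [hc'.1, hc'.2]
  have hn3 : ‖csq (6 + (D.c x.2.2 : ℂ))‖ ≤ 3 := by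
    have := norm_nonneg (csq (6 + (D.c x.2.2 : ℂ)))
    nlinarith
  refine ⟨hx, PsiC_ne D x, h6, ?_, ?_⟩
  · intro h
    have h' : (6 : ℂ) + csq (6 + (D.c x.2.2 : ℂ)) = 0 := h
    have : csq (6 + (D.c x.2.2 : ℂ)) = -6 := by linear_combination h'
    rw [this] at hn3
    norm_num at hn3
  · intro h
    have h' : (6 : ℂ) - csq (6 + (D.c x.2.2 : ℂ)) = 0 := h
    have : csq (6 + (D.c x.2.2 : ℂ)) = 6 := by linear_combination -h'
    rw [this] at hn3
    norm_num at hn3

theorem ae_wd (h0 : l ≠ 0) (h1 : l ≠ 1) : ∀ᵐ x ∂(mX l), wd l x.1 ≠ 0 := by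
  have := muL_prob h0 h1
  have h : ∀ᵐ z ∂(muL l), wd l z ≠ 0 := (muL_ac l).ae_le (wd_ne_ae l)
  unfold mX
  exact Measure.quasiMeasurePreserving_fst.ae h

theorem ae_good (h0 : l ≠ 0) (h1 : l ≠ 1) : ∀ᵐ p ∂(muP D), Good l (co p) := by
  unfold muP
  have hset : MeasurableSet {p : PSpace 3 | Good l (co p)} := measurable_co (measurableSet_good l)
  rw [ae_map_iff (measurable_KPsi D).aemeasurable hset]
  filter_upwards [ae_wd h0 h1] with x hx
  show Good l (co (Kp (PsiC D x)))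
  rw [co_Kp _ (PsiC_ne D x)]
  exact good_PsiC D x hx

theorem muP_jacobian (h0 : l ≠ 0) (h1 : l ≠ 1) (A : Set (PSpace 3)) (hA : MeasurableSet A)
    (hinj : InjOn (projMap (Hm l)) A) : muP D (projMap (Hm l) '' A) = 64 * muP D A := by
  refine jacobian_of_sections (muP D) (projMap (Hm l)) (SP l) (measurable_SP l) 64
    (sum_SP D h0 h1) ?_ A hA hinj
  filter_upwards [ae_good D h0 h1] with p hp
  exact fib_good h0 h1 p hp

theorem muP_invariant (h0 : l ≠ 0) (h1 : l ≠ 1) :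
    MeasurePreserving (projMap (Hm l)) (muP D) (muP D) := by
  refine invariant_of_sections (muP D) (projMap (Hm l)) (measurable_projMap (Hm_isLift h0 h1))
    (SP l) 64 (by norm_num) (by norm_num) (by simp) (sum_SP D h0 h1) ?_
  filter_upwards [ae_good D h0 h1] with p hp
  exact (fib_good h0 h1 p hp).1

end Pool.Agent.Helper881.Stab
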