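import Pool.Agent.Helper881.StabChange

open MeasureTheory Filter Topology Set MvPolynomial

namespace Pool.Agent.Helper881.Stab

theorem continuous_lin {N : ℕ} (F : Tuple N) : Continuous (lin F) :=
  continuous_pi fun i => MvPolynomial.continuous_eval (F i)

theorem lift_bounds {N d : ℕ} (hd : 1 ≤ d) {F : Tuple N} (hF : IsLift N d F) :
    ∃ c1 c2 : ℝ, 0 < c1 ∧ 0 < c2 ∧ ∀ v : Vec N, c1 * ‖v‖ ^ d ≤ ‖lin F v‖ ∧
      ‖lin F v‖ ≤ c2 * ‖v‖ ^ d := by
  have hcomp : IsCompact (Metric.sphere (0 : Vec N) 1) := isCompact_sphere _ _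
  have hne : (Metric.sphere (0 : Vec N) 1).Nonempty := NormedSpace.sphere_nonempty.mpr zero_le_one
  have hcont : ContinuousOn (fun v => ‖lin F v‖) (Metric.sphere (0 : Vec N) 1) :=
    (continuous_lin F).norm.continuousOn
  obtain ⟨a, ha, hmin⟩ := hcomp.exists_isMinOn hne hcont
  obtain ⟨b, hb, hmax⟩ := hcomp.exists_isMaxOn hne hcont
  have hsph : ∀ v : Vec N, v ∈ Metric.sphere (0 : Vec N) 1 → v ≠ 0 := by
    intro v hv h
    rw [h] at hv
    simp at hv
  have ha0 : 0 < ‖lin F a‖ := norm_pos_iff.mpr (lin_ne_zero hF (hsph a ha))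
  have hb0 : 0 < ‖lin F b‖ := norm_pos_iff.mpr (lin_ne_zero hF (hsph b hb))
  refine ⟨‖lin F a‖, ‖lin F b‖, ha0, hb0, fun v => ?_⟩
  by_cases hv : v = 0
  · have h0 : lin F (0 : Vec N) = 0 := by
      have := lin_smul_vec hF.homog 0 (0 : Vec N)
      rw [smul_zero, zero_pow (by omega), zero_smul] at this
      exact this
    rw [hv, h0, norm_zero, zero_pow (by omega)]
    simp
  · have hn : ‖v‖ ≠ 0 := by simpa using hv
    set w : Vec N := ((‖v‖⁻¹ : ℝ) : ℂ) • v with hw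
    have hw1 : ‖w‖ = 1 := by
      rw [hw, norm_smul, Complex.norm_real, norm_inv, norm_norm, inv_mul_cancel₀ hn]
    have hv2 : v = ((‖v‖ : ℝ) : ℂ) • w := by
      rw [hw, smul_smul, ← Complex.ofReal_mul, mul_inv_cancel₀ hn]; simp
    have hws : w ∈ Metric.sphere (0 : Vec N) 1 := by simpa using hw1
    have hl : ‖lin F v‖ = ‖v‖ ^ d * ‖lin F w‖ := by
      rw [hv2, lin_smul_vec hF.homog, norm_smul, norm_pow, Complex.norm_real, norm_norm, ← hv2]
    have m1 : ‖lin F a‖ ≤ ‖lin F w‖ := hmin hws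
    have m2 : ‖lin F w‖ ≤ ‖lin F b‖ := hmax hws
    have hp : 0 ≤ ‖v‖ ^ d := by positivity
    rw [hl]
    constructor
    · rw [mul_comm]; exact mul_le_mul_of_nonneg_left m1 hp
    · rw [mul_comm]; exact mul_le_mul_of_nonneg_right m2 hp

theorem PQ_bounds {l : ℂ} (h0 : l ≠ 0) (h1 : l ≠ 1) : ∃ c1 c2 : ℝ, 0 < c1 ∧ 0 < c2 ∧
    ∀ z : ℂ, c1 * Nz z ^ 4 ≤ max ‖Pf l z‖ ‖Qf l z‖ ∧ max ‖Pf l z‖ ‖Qf l z‖ ≤ c2 * Nz z ^ 4 := by
  obtain ⟨c1, c2, hc1, hc2, h⟩ := lift_bounds (by norm_num) (Hm_isLift h0 h1)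
  refine ⟨c1, c2, hc1, hc2, fun z => ?_⟩
  have hv := h ![z, 1, 0, 0]
  have n1 : ‖(![z, 1, 0, 0] : Vec 3)‖ = Nz z := by
    apply le_antisymm
    · refine (pi_norm_le_iff_of_nonneg (Nz_pos z).le).mpr fun i => ?_
      have := Nz_pos z
      fin_cases i
      · exact le_max_left _ _
      · simp [Nz]
      · simpa using this.le
      · simpa using this.le
    · apply max_le
      · exact norm_le_pi_norm (![z, 1, 0, 0] : Vec 3) 0
      · have := norm_le_pi_norm (![z, 1, 0, 0] : Vec 3) 1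
        simpa using this
  have n2 : ‖lin (Hm l) ![z, 1, 0, 0]‖ = max ‖Pf l z‖ ‖Qf l z‖ := by
    rw [lin_Hm]
    have hpos : 0 ≤ max ‖Pf l z‖ ‖Qf l z‖ := le_max_of_le_left (norm_nonneg _)
    apply le_antisymm
    · refine (pi_norm_le_iff_of_nonneg hpos).mpr fun i => ?_
      fin_cases i
      · simp [Pf]
      · simp [Qf]
      · simpa using hpos
      · simpa using hpos
    · apply max_le
      · refine le_trans (le_of_eq ?_) (norm_le_pi_norm _ 0)
        simp [Pf]
      · refine le_trans (le_of_eq ?_) (norm_le_pi_norm _ 1)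
        simp [Qf]
  rw [n1, n2] at hv
  exact hv

/-- solving `h = D/4 + (h ∘ f)/4` -/
theorem exists_h {X : Type*} [MeasurableSpace X] (f : X → X) (hf : Measurable f) (D : X → ℝ)
    (hD : Measurable D) (C : ℝ) (hC : ∀ x, |D x| ≤ C) :
    ∃ h : X → ℝ, Measurable h ∧ (∀ x, |h x| ≤ C) ∧ ∀ x, h x = (D x + h (f x)) / 4 := by
  let hN : ℕ → X → ℝ := fun n => Nat.rec (fun _ => 0) (fun _ g x => (D x + g (f x)) / 4) n
  have hs : ∀ n x, hN (n + 1) x = (D x + hN n (f x)) / 4 := fun n x => rfl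
  have hz : ∀ x, hN 0 x = 0 := fun x => rfl
  have hb : ∀ n x, |hN n x| ≤ C := by
    intro n
    induction n with
    | zero => intro x; rw [hz, abs_zero]; exact (abs_nonneg _).trans (hC x)
    | succ n ih =>
      intro x
      have a1 := abs_le.mp (hC x)
      have a2 := abs_le.mp (ih (f x))
      rw [hs, abs_le]
      constructor <;> linarith [a1.1, a1.2, a2.1, a2.2, (abs_nonneg _).trans (hC x)]
  have hstep : ∀ n x, |hN n x - hN (n + 1) x| ≤ C / 2 ^ n := by
    intro n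
    induction n with
    | zero =>
      intro x
      have := hb 1 x
      rw [hz, zero_sub, abs_neg]
      simpa using this
    | succ n ih =>
      intro x
      have a2 := ih (f x)
      have e : hN (n + 1) x - hN (n + 1 + 1) x = (hN n (f x) - hN (n + 1) (f x)) / 4 := by
        rw [hs (n + 1), hs n]; ring
      rw [e, abs_div, abs_of_pos (show (0 : ℝ) < 4 by norm_num)]
      have h3 : (0 : ℝ) ≤ C / 2 ^ n := (abs_nonneg _).trans a2
      have h4 : C / 2 ^ (n + 1) = (C / 2 ^ n) / 2 := by rw [pow_succ]; field_simp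
      rw [h4]; linarith
  have hm : ∀ n, Measurable (hN n) := by
    intro n
    induction n with
    | zero => exact measurable_const
    | succ n ih => exact (hD.add (ih.comp hf)).div_const 4
  have hc : ∀ t, ∃ x, Tendsto (fun n => hN n t) atTop (𝓝 x) := by
    intro t
    apply cauchySeq_tendsto_of_complete
    apply cauchySeq_of_le_geometric (1 / 2) C (by norm_num)
    intro n
    rw [Real.dist_eq]
    refine (hstep n t).trans (le_of_eq ?_)
    rw [one_div, inv_pow]; rfl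
  choose h hc using hc
  refine ⟨h, measurable_of_tendsto_metrizable hm (tendsto_pi_nhds.mpr hc), fun x =>
    le_of_tendsto ((hc x).abs) (Eventually.of_forall fun n => hb n x), fun x => ?_⟩
  have h1 : Tendsto (fun n => hN (n + 1) x) atTop (𝓝 (h x)) :=
    (hc x).comp (tendsto_add_atTop_nat 1)
  have h2 : Tendsto (fun n => hN (n + 1) x) atTop (𝓝 ((D x + h (f x)) / 4)) := by
    show Tendsto (fun n => (D x + hN n (f x)) / 4) atTop _
    exact (tendsto_const_nhds.add (hc (f x))).div_const 4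
  exact tendsto_nhds_unique h1 h2

/-- the radius function -/
noncomputable def rad (h : ℂ → ℝ) (z : ℂ) : ℝ := Real.exp (-h z) / Nz z

theorem rad_pos (h : ℂ → ℝ) (z : ℂ) : 0 < rad h z := div_pos (Real.exp_pos _) (Nz_pos z)

theorem measurable_rad {h : ℂ → ℝ} (hh : Measurable h) : Measurable (rad h) := by
  unfold rad
  exact (Real.measurable_exp.comp hh.neg).div measurable_Nz

theorem QN_eq {l z : ℂ} (hQ : Qf l z ≠ 0) : ‖Qf l z‖ * Nz (ff l z) = max ‖Pf l z‖ ‖Qf l z‖ := by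
  have hq : 0 < ‖Qf l z‖ := norm_pos_iff.mpr hQ
  rw [Nz, mul_max_of_nonneg _ _ hq.le, mul_one, ff, norm_div, mul_div_cancel₀ _ hq.ne']

theorem exists_rad {l : ℂ} (h0 : l ≠ 0) (h1 : l ≠ 1) : ∃ (h : ℂ → ℝ) (C : ℝ), Measurable h ∧
    (∀ z, |h z| ≤ C) ∧ ∀ v, Qf l v ≠ 0 → rad h (ff l v) = ‖Qf l v‖ * rad h v ^ 4 := by
  obtain ⟨c1, c2, hc1, hc2, hb⟩ := PQ_bounds h0 h1
  set D : ℂ → ℝ := fun z => Real.log (‖Qf l z‖ * Nz (ff l z) / Nz z ^ 4) with hDdef
  have hD : Measurable D := Real.measurable_log.comp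
    (((measurable_Qf l).norm.mul (measurable_Nz.comp (measurable_ff l))).div
      (measurable_Nz.pow_const 4))
  have hC : ∀ z, |D z| ≤ |Real.log c1| + |Real.log c2| := by
    intro z
    by_cases hQ : Qf l z = 0
    · simp only [hDdef, hQ, norm_zero, zero_mul, zero_div, Real.log_zero, abs_zero]
      positivity
    · have hN : 0 < Nz z ^ 4 := pow_pos (Nz_pos z) 4
      obtain ⟨b1, b2⟩ := hb z
      have e1 : c1 ≤ ‖Qf l z‖ * Nz (ff l z) / Nz z ^ 4 := by
        rw [QN_eq hQ, le_div_iff₀ hN]; exact b1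
      have e2 : ‖Qf l z‖ * Nz (ff l z) / Nz z ^ 4 ≤ c2 := by
        rw [QN_eq hQ, div_le_iff₀ hN]; exact b2
      have l1 : Real.log c1 ≤ D z := Real.log_le_log hc1 e1
      have l2 : D z ≤ Real.log c2 := Real.log_le_log (lt_of_lt_of_le hc1 e1) e2
      rw [abs_le]
      constructor
      · linarith [neg_abs_le (Real.log c1), abs_nonneg (Real.log c2)]
      · linarith [le_abs_self (Real.log c2), abs_nonneg (Real.log c1)]
  obtain ⟨h, hm, hbd, heq⟩ := exists_h (ff l) (measurable_ff l) D hD _ hC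
  refine ⟨h, _, hm, hbd, fun v hQ => ?_⟩
  have hq : 0 < ‖Qf l v‖ := norm_pos_iff.mpr hQ
  have e := heq v
  have e2 : h (ff l v) = 4 * h v - D v := by linarith
  have hN : 0 < Nz v := Nz_pos v
  have hN2 : 0 < Nz (ff l v) := Nz_pos _
  have e3 : Real.exp (-h (ff l v)) = Real.exp (-h v) ^ 4 * (‖Qf l v‖ * Nz (ff l v) / Nz v ^ 4) := by
    rw [e2, ← Real.exp_nat_mul, show -(4 * h v - D v) = ((4 : ℕ) : ℝ) * (-h v) + D v by
      push_cast; ring, Real.exp_add]
    congr 1
    simp only [hDdef]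
    rw [Real.exp_log (by positivity)]
  rw [rad, rad, e3]
  field_simp

end Pool.Agent.Helper881.Stab
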