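import Pool.Agent.Helper881.StabLegendre

open MeasureTheory Filter Topology Set

namespace Pool.Agent.Helper881.Stab

noncomputable def kr (δ a ρ : ℝ) : ℝ := ρ ^ (-a) * ((δ + ρ) / 2) ^ (-(2 * a))

theorem kr_nonneg {δ a ρ : ℝ} (hδ : 0 < δ) (hρ : 0 ≤ ρ) : 0 ≤ kr δ a ρ := by
  unfold kr; positivity

theorem measurable_kr (δ a : ℝ) : Measurable (kr δ a) := by
  unfold kr
  exact (measurable_id.pow_const _).mul (((measurable_const.add measurable_id).div_const 2).pow_const _)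

theorem integrable_kr {δ a : ℝ} (hδ : 0 < δ) (ha : 2 / 3 < a) (ha2 : a < 2) :
    Integrable (fun z : ℂ => kr δ a ‖z‖) := by
  rw [integrable_fun_norm_addHaar (volume : Measure ℂ) (f := kr δ a)]
  have hm : Measurable fun y : ℝ => y ^ (Module.finrank ℝ ℂ - 1) • kr δ a y :=
    (measurable_id.pow_const _).smul (measurable_kr δ a)
  have hval : ∀ y : ℝ, 0 < y → ‖y ^ (Module.finrank ℝ ℂ - 1) • kr δ a y‖ =
      y ^ (1 - a) * ((δ + y) / 2) ^ (-(2 * a)) := by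
    intro y hy
    rw [Complex.finrank_real_complex]
    have h1 : 0 ≤ kr δ a y := kr_nonneg hδ hy.le
    simp only [smul_eq_mul, Nat.add_one_sub_one, pow_one]
    rw [Real.norm_of_nonneg (mul_nonneg hy.le h1), kr, ← mul_assoc]
    congr 1
    rw [sub_eq_add_neg, Real.rpow_add hy, Real.rpow_one]
  rw [← Ioc_union_Ioi_eq_Ioi (zero_le_one (α := ℝ))]
  apply IntegrableOn.union
  · have h1 : IntegrableOn (fun y : ℝ => (δ / 2) ^ (-(2 * a)) * y ^ (1 - a)) (Ioc 0 1) := by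
      apply Integrable.const_mul
      have := (intervalIntegral.intervalIntegrable_rpow' (a := 0) (b := 1) (r := 1 - a)
        (by linarith))
      rwa [intervalIntegrable_iff_integrableOn_Ioc_of_le zero_le_one] at this
    refine Integrable.mono' h1 hm.aestronglyMeasurable ?_
    refine (ae_restrict_iff' measurableSet_Ioc).mpr (Eventually.of_forall fun y hy => ?_)
    rw [hval y hy.1, mul_comm]
    apply mul_le_mul_of_nonneg_right _ (Real.rpow_nonneg hy.1.le _)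
    apply Real.rpow_le_rpow_of_nonpos (by positivity) _ (by linarith)
    linarith [hy.1]
  · have h1 : IntegrableOn (fun y : ℝ => ((1 : ℝ) / 2) ^ (-(2 * a)) * y ^ (1 - 3 * a)) (Ioi 1) := by
      apply Integrable.const_mul
      exact integrableOn_Ioi_rpow_of_lt (by linarith) one_pos
    refine Integrable.mono' h1 hm.aestronglyMeasurable ?_
    refine (ae_restrict_iff' measurableSet_Ioi).mpr (Eventually.of_forall fun y hy => ?_)
    have hy0 : 0 < y := lt_trans one_pos hy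
    rw [hval y hy0]
    have h2 : ((δ + y) / 2) ^ (-(2 * a)) ≤ (1 / 2 * y) ^ (-(2 * a)) := by
      apply Real.rpow_le_rpow_of_nonpos (by positivity) _ (by linarith)
      linarith
    rw [Real.mul_rpow (by norm_num) hy0.le] at h2
    calc y ^ (1 - a) * ((δ + y) / 2) ^ (-(2 * a))
        ≤ y ^ (1 - a) * ((1 / 2) ^ (-(2 * a)) * y ^ (-(2 * a))) :=
          mul_le_mul_of_nonneg_left h2 (Real.rpow_nonneg hy0.le _)
      _ = (1 / 2) ^ (-(2 * a)) * (y ^ (1 - a) * y ^ (-(2 * a))) := by ring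
      _ = (1 / 2) ^ (-(2 * a)) * y ^ (1 - 3 * a) := by
          rw [← Real.rpow_add hy0]; congr 2; ring

theorem near_bound {δ a : ℝ} (hδ : 0 < δ) (ha : 0 < a) {p q q' z : ℂ} (h1 : ‖z - p‖ ≤ ‖z - q‖)
    (h2 : ‖z - p‖ ≤ ‖z - q'‖) (hq : 2 * δ ≤ ‖p - q‖) (hq' : 2 * δ ≤ ‖p - q'‖) :
    ‖z - p‖ ^ (-a) * ‖z - q‖ ^ (-a) * ‖z - q'‖ ^ (-a) ≤ kr δ a ‖z - p‖ := by
  have key : ∀ q : ℂ, ‖z - p‖ ≤ ‖z - q‖ → 2 * δ ≤ ‖p - q‖ → (δ + ‖z - p‖) / 2 ≤ ‖z - q‖ := by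
    intro q h hq
    have : ‖p - q‖ ≤ ‖z - p‖ + ‖z - q‖ := by
      calc ‖p - q‖ = ‖(z - q) - (z - p)‖ := by congr 1; ring
        _ ≤ ‖z - q‖ + ‖z - p‖ := norm_sub_le _ _
        _ = _ := add_comm _ _
    linarith
  have hpos : 0 < (δ + ‖z - p‖) / 2 := by positivity
  have k1 : ‖z - q‖ ^ (-a) ≤ ((δ + ‖z - p‖) / 2) ^ (-a) :=
    Real.rpow_le_rpow_of_nonpos hpos (key q h1 hq) (by linarith)
  have k2 : ‖z - q'‖ ^ (-a) ≤ ((δ + ‖z - p‖) / 2) ^ (-a) :=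
    Real.rpow_le_rpow_of_nonpos hpos (key q' h2 hq') (by linarith)
  have e : kr δ a ‖z - p‖ = ‖z - p‖ ^ (-a) * (((δ + ‖z - p‖) / 2) ^ (-a) *
      ((δ + ‖z - p‖) / 2) ^ (-a)) := by
    rw [kr, ← Real.rpow_add hpos]; congr 2; ring
  rw [e, mul_assoc]
  apply mul_le_mul_of_nonneg_left _ (Real.rpow_nonneg (norm_nonneg _) _)
  exact mul_le_mul k1 k2 (Real.rpow_nonneg (norm_nonneg _) _) (Real.rpow_nonneg hpos.le _)

theorem measurable_wd (l : ℂ) : Measurable (wd l) := by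
  unfold wd
  exact (measurable_id.mul (measurable_id.sub_const 1)).mul (measurable_id.sub_const l)

theorem integrable_wd_rpow {l : ℂ} (h0 : l ≠ 0) (h1 : l ≠ 1) {a : ℝ} (ha : 2 / 3 < a)
    (ha2 : a < 2) : Integrable (fun z : ℂ => ‖wd l z‖ ^ (-a)) := by
  obtain ⟨δ, hδ, d0, d1, d2⟩ : ∃ δ : ℝ, 0 < δ ∧ 2 * δ ≤ 1 ∧ 2 * δ ≤ ‖l‖ ∧ 2 * δ ≤ ‖l - 1‖ := by
    refine ⟨min 1 (min ‖l‖ ‖l - 1‖) / 2, ?_, ?_, ?_, ?_⟩
    · have a1 : 0 < ‖l‖ := by simpa using h0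
      have a2 : 0 < ‖l - 1‖ := by simpa [sub_eq_zero] using h1
      have : 0 < min 1 (min ‖l‖ ‖l - 1‖) := lt_min one_pos (lt_min a1 a2)
      linarith
    · have := min_le_left 1 (min ‖l‖ ‖l - 1‖); linarith
    · have := (min_le_right 1 (min ‖l‖ ‖l - 1‖)).trans (min_le_left _ _); linarith
    · have := (min_le_right 1 (min ‖l‖ ‖l - 1‖)).trans (min_le_right _ _); linarith
  have hk := integrable_kr hδ ha ha2
  have hsum : Integrable (fun z : ℂ => kr δ a ‖z - 0‖ + kr δ a ‖z - 1‖ + kr δ a ‖z - l‖) :=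
    ((hk.comp_sub_right 0).add (hk.comp_sub_right 1)).add (hk.comp_sub_right l)
  refine hsum.mono' ((measurable_wd l).norm.pow_const _).aestronglyMeasurable
    (Eventually.of_forall fun z => ?_)
  have e : ‖wd l z‖ ^ (-a) = ‖z - 0‖ ^ (-a) * ‖z - 1‖ ^ (-a) * ‖z - l‖ ^ (-a) := by
    rw [wd, norm_mul, norm_mul, Real.mul_rpow (by positivity) (by positivity),
      Real.mul_rpow (by positivity) (by positivity), sub_zero]
  rw [Real.norm_of_nonneg (Real.rpow_nonneg (norm_nonneg _) _), e]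
  have n0 := kr_nonneg (a := a) hδ (norm_nonneg (z - 0))
  have n1 := kr_nonneg (a := a) hδ (norm_nonneg (z - 1))
  have n2 := kr_nonneg (a := a) hδ (norm_nonneg (z - l))
  have ha0 : 0 < a := by linarith
  have s01 : ‖(0 : ℂ) - 1‖ = 1 := by simp
  have s0l : ‖(0 : ℂ) - l‖ = ‖l‖ := by simp
  have s1l : ‖(1 : ℂ) - l‖ = ‖l - 1‖ := norm_sub_rev _ _
  rcases le_total ‖z - 0‖ ‖z - 1‖ with q1 | q1
  · rcases le_total ‖z - 0‖ ‖z - l‖ with q2 | q2
    · have := near_bound hδ ha0 q1 q2 (by rw [s01]; exact d0) (by rw [s0l]; exact d1)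
      linarith
    · have := near_bound (q := 0) (q' := 1) hδ ha0 q2 (q2.trans q1) (by simpa using d1) d2
      have e2 : ‖z - 0‖ ^ (-a) * ‖z - 1‖ ^ (-a) * ‖z - l‖ ^ (-a) =
        ‖z - l‖ ^ (-a) * ‖z - 0‖ ^ (-a) * ‖z - 1‖ ^ (-a) := by ring
      rw [e2]; linarith
  · rcases le_total ‖z - 1‖ ‖z - l‖ with q2 | q2
    · have := near_bound (q := 0) (q' := l) hδ ha0 q1 q2 (by simpa using d0)
        (by rw [s1l]; exact d2)
      have e2 : ‖z - 0‖ ^ (-a) * ‖z - 1‖ ^ (-a) * ‖z - l‖ ^ (-a) =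
        ‖z - 1‖ ^ (-a) * ‖z - 0‖ ^ (-a) * ‖z - l‖ ^ (-a) := by ring
      rw [e2]; linarith
    · have := near_bound (q := 0) (q' := 1) hδ ha0 (q2.trans q1) q2 (by simpa using d1) d2
      have e2 : ‖z - 0‖ ^ (-a) * ‖z - 1‖ ^ (-a) * ‖z - l‖ ^ (-a) =
        ‖z - l‖ ^ (-a) * ‖z - 0‖ ^ (-a) * ‖z - 1‖ ^ (-a) := by ring
      rw [e2]; linarith

theorem integrable_wd_inv {l : ℂ} (h0 : l ≠ 0) (h1 : l ≠ 1) :
    Integrable (fun z : ℂ => ‖wd l z‖⁻¹) := by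
  have := integrable_wd_rpow h0 h1 (a := 1) (by norm_num) (by norm_num)
  simpa [Real.rpow_neg_one] using this

theorem abs_log_mul_inv_le {x : ℝ} (hx : 0 ≤ x) :
    |Real.log x| * x⁻¹ ≤ 8 * (x ^ (-(7 / 8 : ℝ)) + x ^ (-(9 / 8 : ℝ))) := by
  rcases hx.eq_or_lt with rfl | hx
  · simp only [Real.log_zero, abs_zero, zero_mul]; positivity
  have h1 : Real.log x ≤ x ^ (1 / 8 : ℝ) / (1 / 8) := Real.log_le_rpow_div hx.le (by norm_num)
  have h2 : Real.log x⁻¹ ≤ x⁻¹ ^ (1 / 8 : ℝ) / (1 / 8) :=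
    Real.log_le_rpow_div (inv_nonneg.mpr hx.le) (by norm_num)
  rw [Real.log_inv] at h2
  have h3 : x⁻¹ ^ (1 / 8 : ℝ) = x ^ (-(1 / 8 : ℝ)) := by
    rw [Real.inv_rpow hx.le, Real.rpow_neg hx.le]
  rw [h3] at h2
  have p1 : 0 < x ^ (1 / 8 : ℝ) := Real.rpow_pos_of_pos hx _
  have p2 : 0 < x ^ (-(1 / 8 : ℝ)) := Real.rpow_pos_of_pos hx _
  have h4 : |Real.log x| ≤ 8 * (x ^ (1 / 8 : ℝ) + x ^ (-(1 / 8 : ℝ))) := by
    rw [abs_le]; constructor <;> linarith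
  have e1 : x ^ (-(7 / 8 : ℝ)) = x ^ (1 / 8 : ℝ) * x⁻¹ := by
    rw [← Real.rpow_neg_one, ← Real.rpow_add hx]; norm_num
  have e2 : x ^ (-(9 / 8 : ℝ)) = x ^ (-(1 / 8 : ℝ)) * x⁻¹ := by
    rw [← Real.rpow_neg_one, ← Real.rpow_add hx]; norm_num
  rw [e1, e2, ← add_mul, ← mul_assoc]
  exact mul_le_mul_of_nonneg_right h4 (inv_nonneg.mpr hx.le)

theorem integrable_log_wd {l : ℂ} (h0 : l ≠ 0) (h1 : l ≠ 1) :
    Integrable (fun z : ℂ => |Real.log ‖wd l z‖| * ‖wd l z‖⁻¹) := by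
  have i1 := integrable_wd_rpow h0 h1 (a := 7 / 8) (by norm_num) (by norm_num)
  have i2 := integrable_wd_rpow h0 h1 (a := 9 / 8) (by norm_num) (by norm_num)
  refine ((i1.add i2).const_mul 8).mono' ?_ (Eventually.of_forall fun z => ?_)
  · have hm := (measurable_wd l).norm
    exact ((Real.measurable_log.comp hm).norm.mul hm.inv).aestronglyMeasurable
  · rw [Real.norm_of_nonneg (by positivity)]
    exact abs_log_mul_inv_le (norm_nonneg _)

/-- the sup norm of `(z, 1)` -/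
noncomputable def Nz (z : ℂ) : ℝ := max ‖z‖ 1

theorem Nz_pos (z : ℂ) : 0 < Nz z := lt_of_lt_of_le one_pos (le_max_right _ _)
theorem one_le_Nz (z : ℂ) : 1 ≤ Nz z := le_max_right _ _

theorem measurable_Nz : Measurable Nz := measurable_norm.max measurable_const

theorem log_Nz_le {l : ℂ} : ∃ C : ℝ, 0 ≤ C ∧ ∀ z : ℂ, Real.log (Nz z) ≤ C + |Real.log ‖wd l z‖| := by
  set R : ℝ := 2 * (1 + ‖l‖) with hR
  have hR2 : 2 ≤ R := by have := norm_nonneg l; linarith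
  refine ⟨Real.log R, Real.log_nonneg (by linarith), fun z => ?_⟩
  by_cases hz : ‖z‖ ≤ R
  · have : Real.log (Nz z) ≤ Real.log R :=
      Real.log_le_log (Nz_pos z) (max_le hz (by linarith))
    linarith [abs_nonneg (Real.log ‖wd l z‖)]
  · push Not at hz
    have hz2 : 2 ≤ ‖z‖ := by linarith
    have e : Nz z = ‖z‖ := max_eq_left (by linarith)
    have a1 : ‖z‖ / 2 ≤ ‖z - 1‖ := by
      have := norm_sub_norm_le z 1
      rw [norm_one] at this
      linarith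
    have a2 : ‖z‖ / 2 ≤ ‖z - l‖ := by
      have := norm_sub_norm_le z l
      linarith [norm_nonneg l]
    have a3 : ‖z‖ ≤ ‖wd l z‖ := by
      rw [wd, norm_mul, norm_mul]
      have b1 : 1 ≤ ‖z - 1‖ := by linarith
      have b2 : 1 ≤ ‖z - l‖ := by linarith
      have b3 : ‖z‖ * 1 ≤ ‖z‖ * ‖z - 1‖ := mul_le_mul_of_nonneg_left b1 (norm_nonneg _)
      have b4 : ‖z‖ * ‖z - 1‖ * 1 ≤ ‖z‖ * ‖z - 1‖ * ‖z - l‖ :=
        mul_le_mul_of_nonneg_left b2 (by positivity)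
      linarith
    have a4 : Real.log ‖z‖ ≤ Real.log ‖wd l z‖ := Real.log_le_log (by linarith) a3
    rw [e]
    have := Real.log_nonneg (show (1 : ℝ) ≤ R by linarith)
    linarith [le_abs_self (Real.log ‖wd l z‖)]

theorem integrable_log_Nz {l : ℂ} (h0 : l ≠ 0) (h1 : l ≠ 1) :
    Integrable (fun z : ℂ => |Real.log (Nz z)| * ‖wd l z‖⁻¹) := by
  obtain ⟨C, hC, hle⟩ := log_Nz_le (l := l)
  refine (((integrable_wd_inv h0 h1).const_mul C).add (integrable_log_wd h0 h1)).mono' ?_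
    (Eventually.of_forall fun z => ?_)
  · have hm := (measurable_wd l).norm
    exact ((Real.measurable_log.comp measurable_Nz).norm.mul hm.inv).aestronglyMeasurable
  · rw [Real.norm_of_nonneg (by positivity)]
    have h := hle z
    have h2 := Real.log_nonneg (one_le_Nz z)
    rw [abs_of_nonneg h2]
    have h3 : 0 ≤ ‖wd l z‖⁻¹ := inv_nonneg.mpr (norm_nonneg _)
    have := mul_le_mul_of_nonneg_right h h3
    simp only [Pi.add_apply]
    linarith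

end Pool.Agent.Helper881.Stab
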