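import Pool.Agent.Helper881.StabFamily

open MvPolynomial

namespace Pool.Agent.Helper881.Stab

theorem quartic_zero {e0 e1 e2 e3 e4 : ℂ}
    (h : ∀ t : ℂ, e0 + e1 * t + e2 * t ^ 2 + e3 * t ^ 3 + e4 * t ^ 4 = 0) :
    e0 = 0 ∧ e1 = 0 ∧ e2 = 0 ∧ e3 = 0 ∧ e4 = 0 := by
  have h0 := h 0
  have h1 := h 1
  have h2 := h (-1)
  have h3 := h 2
  have h4 := h (-2)
  have r0 : e0 = 0 := by linear_combination h0
  have s2 : e2 = 0 := by linear_combination -30 / 24 * h0 + 16 / 24 * h1 + 16 / 24 * h2 -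
    1 / 24 * h3 - 1 / 24 * h4
  have s4 : e4 = 0 := by linear_combination 6 / 24 * h0 - 4 / 24 * h1 - 4 / 24 * h2 +
    1 / 24 * h3 + 1 / 24 * h4
  have s1 : e1 = 0 := by linear_combination 8 / 12 * h1 - 8 / 12 * h2 - 1 / 12 * h3 + 1 / 12 * h4
  have s3 : e3 = 0 := by linear_combination -2 / 12 * h1 + 2 / 12 * h2 + 1 / 12 * h3 - 1 / 12 * h4
  exact ⟨r0, s1, s2, s3, s4⟩

/-- a fourth power of a linear form is not in the pencil of the Lattes map -/
theorem lin_pow_zero {a b c : ℂ} (hc : c ≠ 0)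
    (h : ∀ t : ℂ, (a * t + b) ^ 4 = c * (a * (t ^ 2 + 1) ^ 2 + b * (4 * t * (t ^ 2 - 1)))) :
    a = 0 ∧ b = 0 := by
  obtain ⟨k0, k1, k2, k3, k4⟩ := quartic_zero (e0 := b ^ 4 - c * a) (e1 := 4 * a * b ^ 3 + 4 * c * b)
    (e2 := 6 * a ^ 2 * b ^ 2 - 2 * c * a) (e3 := 4 * a ^ 3 * b - 4 * c * b) (e4 := a ^ 4 - c * a)
    (fun t => by linear_combination h t)
  by_cases hb : b = 0
  · rw [hb] at k0
    have : c * a = 0 := by linear_combination -k0
    exact ⟨(mul_eq_zero.mp this).resolve_left hc, hb⟩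
  · exfalso
    have h1 : a ^ 3 = c := by
      have : 4 * b * (a ^ 3 - c) = 0 := by linear_combination k3
      exact sub_eq_zero.mp ((mul_eq_zero.mp this).resolve_left (mul_ne_zero (by norm_num) hb))
    have h2 : a * b ^ 2 = -c := by
      have : 4 * b * (a * b ^ 2 + c) = 0 := by linear_combination k1
      have := (mul_eq_zero.mp this).resolve_left (mul_ne_zero (by norm_num) hb)
      linear_combination this
    have ha : a ≠ 0 := by
      rintro rfl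
      apply hc
      rw [← h1]; ring
    have h3 : 8 * a ^ 4 = 0 := by
      linear_combination -k2 + 6 * a * h2 + 8 * a * h1
    exact (mul_ne_zero (by norm_num : (8 : ℂ) ≠ 0) (pow_ne_zero 4 ha)) h3

theorem not_isotrivial : ¬ IsIsotrivial VV := by
  intro hiso
  have m1 : Hm (-1) ∈ VV := ⟨1, -1, one_ne_zero, by norm_num, by norm_num, by rw [one_smul]⟩
  have m2 : Hm 3 ∈ VV := ⟨1, 3, one_ne_zero, by norm_num, by norm_num, by rw [one_smul]⟩
  obtain ⟨A, c, hc, h⟩ := hiso _ m1 _ m2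
  have hinj : ∀ v : Vec 3, A.1.mulVec v = 0 → v = 0 := by
    intro v hv
    have h1 : (A⁻¹).1.mulVec (A.1.mulVec v) = v := by
      rw [Matrix.mulVec_mulVec, ← Matrix.GeneralLinearGroup.coe_mul]
      simp
    rw [← h1, hv, Matrix.mulVec_zero]
  have hA : ∀ (i : Fin 4) (x0 x1 y0 y1 : ℂ), A.1.mulVec ![x0, x1, y0, y1] i =
      A.1 i 0 * x0 + A.1 i 1 * x1 + A.1 i 2 * y0 + A.1 i 3 * y1 := by
    intro i x0 x1 y0 y1
    simp [Matrix.mulVec, dotProduct, Fin.sum_univ_four]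
  -- components at (x0, x1, y0, y1)
  have hlin : ∀ x0 x1 y0 y1 : ℂ, lin (Hm (-1)) ![x0, x1, y0, y1] =
      ![(x0 ^ 2 + x1 ^ 2) ^ 2, 4 * x0 * x1 * (x0 - x1) * (x0 + x1),
        (y0 ^ 2 - 6 * y1 ^ 2) ^ 2 - 6 * y1 ^ 4, y1 ^ 4] := by
    intro x0 x1 y0 y1
    rw [lin_Hm]
    funext i
    fin_cases i
    · show (x0 ^ 2 - -1 * x1 ^ 2) ^ 2 = (x0 ^ 2 + x1 ^ 2) ^ 2
      ring
    · show 4 * x0 * x1 * (x0 - x1) * (x0 - -1 * x1) = 4 * x0 * x1 * (x0 - x1) * (x0 + x1)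
      ring
    · rfl
    · rfl
  have E0 : ∀ x0 x1 : ℂ, ((A.1 0 0 * x0 + A.1 0 1 * x1) ^ 2 - 3 * (A.1 1 0 * x0 + A.1 1 1 * x1) ^ 2) ^ 2
      = c * (A.1 0 0 * (x0 ^ 2 + x1 ^ 2) ^ 2 + A.1 0 1 * (4 * x0 * x1 * (x0 - x1) * (x0 + x1))) := by
    intro x0 x1
    have := congrFun (h ![x0, x1, 0, 0]) 0
    rw [lin_Hm, hlin, Pi.smul_apply, hA] at this
    simp only [hA, Matrix.cons_val_zero, smul_eq_mul] at this
    linear_combination this
  have E1 : ∀ x0 x1 : ℂ, 4 * (A.1 0 0 * x0 + A.1 0 1 * x1) * (A.1 1 0 * x0 + A.1 1 1 * x1) *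
      ((A.1 0 0 * x0 + A.1 0 1 * x1) - (A.1 1 0 * x0 + A.1 1 1 * x1)) *
      ((A.1 0 0 * x0 + A.1 0 1 * x1) - 3 * (A.1 1 0 * x0 + A.1 1 1 * x1))
      = c * (A.1 1 0 * (x0 ^ 2 + x1 ^ 2) ^ 2 + A.1 1 1 * (4 * x0 * x1 * (x0 - x1) * (x0 + x1))) := by
    intro x0 x1
    have := congrFun (h ![x0, x1, 0, 0]) 1
    rw [lin_Hm, hlin, Pi.smul_apply, hA] at this
    simp only [hA, Matrix.cons_val_one, Matrix.cons_val_zero, smul_eq_mul] at this
    linear_combination this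
  have E3 : ∀ x0 x1 : ℂ, (A.1 3 0 * x0 + A.1 3 1 * x1) ^ 4
      = c * (A.1 3 0 * (x0 ^ 2 + x1 ^ 2) ^ 2 + A.1 3 1 * (4 * x0 * x1 * (x0 - x1) * (x0 + x1))) := by
    intro x0 x1
    have := congrFun (h ![x0, x1, 0, 0]) 3
    rw [lin_Hm, hlin, Pi.smul_apply, hA] at this
    simp only [hA, smul_eq_mul] at this
    have t1 : (A.1 3 0 * x0 + A.1 3 1 * x1 + A.1 3 2 * 0 + A.1 3 3 * 0) ^ 4 = _ := this
    linear_combination t1
  have z3 := lin_pow_zero hc (a := A.1 3 0) (b := A.1 3 1) (fun t => by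
    linear_combination E3 t 1)
  have E2 : ∀ x0 x1 : ℂ, (A.1 2 0 * x0 + A.1 2 1 * x1) ^ 4
      = c * (A.1 2 0 * (x0 ^ 2 + x1 ^ 2) ^ 2 + A.1 2 1 * (4 * x0 * x1 * (x0 - x1) * (x0 + x1))) := by
    intro x0 x1
    have := congrFun (h ![x0, x1, 0, 0]) 2
    rw [lin_Hm, hlin, Pi.smul_apply, hA] at this
    simp only [hA, smul_eq_mul] at this
    have t1 : ((A.1 2 0 * x0 + A.1 2 1 * x1 + A.1 2 2 * 0 + A.1 2 3 * 0) ^ 2 -
      6 * (A.1 3 0 * x0 + A.1 3 1 * x1 + A.1 3 2 * 0 + A.1 3 3 * 0) ^ 2) ^ 2 -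
      6 * (A.1 3 0 * x0 + A.1 3 1 * x1 + A.1 3 2 * 0 + A.1 3 3 * 0) ^ 4 = _ := this
    rw [z3.1, z3.2] at t1
    linear_combination t1
  have z2 := lin_pow_zero hc (a := A.1 2 0) (b := A.1 2 1) (fun t => by
    linear_combination E2 t 1)
  set p := A.1 0 0 with hp
  set q := A.1 0 1 with hq
  set r := A.1 1 0 with hr
  set s := A.1 1 1 with hs
  have hker : ∀ x0 x1 : ℂ, p * x0 + q * x1 = 0 → r * x0 + s * x1 = 0 → x0 = 0 ∧ x1 = 0 := by
    intro x0 x1 e0 e1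
    have hv : A.1.mulVec ![x0, x1, 0, 0] = 0 := by
      funext i
      rw [hA]
      fin_cases i
      · show p * x0 + q * x1 + A.1 0 2 * 0 + A.1 0 3 * 0 = 0
        linear_combination e0
      · show r * x0 + s * x1 + A.1 1 2 * 0 + A.1 1 3 * 0 = 0
        linear_combination e1
      · show A.1 2 0 * x0 + A.1 2 1 * x1 + A.1 2 2 * 0 + A.1 2 3 * 0 = 0
        rw [z2.1, z2.2]; ring
      · show A.1 3 0 * x0 + A.1 3 1 * x1 + A.1 3 2 * 0 + A.1 3 3 * 0 = 0
        rw [z3.1, z3.2]; ring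
    have := hinj _ hv
    exact ⟨congrFun this 0, congrFun this 1⟩
  -- first row
  obtain ⟨k0, k1, k2, k3, k4⟩ := quartic_zero
    (e4 := (p ^ 2 - 3 * r ^ 2) ^ 2 - c * p)
    (e3 := 2 * (p ^ 2 - 3 * r ^ 2) * (2 * (p * q - 3 * r * s)) - 4 * c * q)
    (e2 := (2 * (p * q - 3 * r * s)) ^ 2 + 2 * (p ^ 2 - 3 * r ^ 2) * (q ^ 2 - 3 * s ^ 2) - 2 * c * p)
    (e1 := 2 * (2 * (p * q - 3 * r * s)) * (q ^ 2 - 3 * s ^ 2) + 4 * c * q)
    (e0 := (q ^ 2 - 3 * s ^ 2) ^ 2 - c * p)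
    (fun t => by linear_combination E0 t 1)
  set a := p ^ 2 - 3 * r ^ 2 with ha
  set b := 2 * (p * q - 3 * r * s) with hb
  set d := q ^ 2 - 3 * s ^ 2 with hd
  have hq3 : q * (q - p) * (q + p) = 0 := by
    by_cases hb0 : b = 0
    · have : 4 * c * q = 0 := by rw [hb0] at k3; linear_combination -k3
      have hq0 : q = 0 := (mul_eq_zero.mp this).resolve_left (mul_ne_zero (by norm_num) hc)
      rw [hq0]; ring
    · have h1 : 2 * b * (a + d) = 0 := by linear_combination k3 + k1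
      have h2 : a + d = 0 := (mul_eq_zero.mp h1).resolve_left (mul_ne_zero (by norm_num) hb0)
      have hd' : d = -a := by linear_combination h2
      rw [hd'] at k2
      -- b^2 - 2 a^2 = 2 c p, a^2 = c p, a b = 2 c q
      have h3 : b ^ 2 = 4 * a ^ 2 := by linear_combination k2 - 2 * k4
      have h4 : (2 * c * q) ^ 2 = (2 * c * p) ^ 2 := by
        have e1 : 2 * c * q = a * b := by linear_combination -k3 / 2
        have e2 : 2 * c * p = 2 * a ^ 2 := by linear_combination -2 * k4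
        rw [e1, e2, mul_pow, h3]; ring
      have h5 : 4 * c ^ 2 * (q ^ 2 - p ^ 2) = 0 := by linear_combination h4
      have h6 : q ^ 2 - p ^ 2 = 0 :=
        (mul_eq_zero.mp h5).resolve_left (mul_ne_zero (by norm_num) (pow_ne_zero 2 hc))
      linear_combination q * h6
  have hp0 : p ≠ 0 := by
    intro hp0
    have hq0 : q = 0 := by
      rw [hp0] at hq3
      have : q ^ 3 = 0 := by linear_combination hq3
      exact pow_eq_zero_iff (three_ne_zero) |>.mp this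
    have h1 := hker s (-r) (by rw [hp0, hq0]; ring) (by ring)
    have h2 := hker 1 0 (by rw [hp0]; ring) (by
      have : r = 0 := by linear_combination -h1.2
      rw [this]; ring)
    exact one_ne_zero h2.1
  have hr0 : r = 0 := by
    have h1 := E1 (-q) p
    have hne : (q ^ 2 + p ^ 2) ^ 2 ≠ 0 := by
      apply pow_ne_zero
      intro h2
      have h3 : p ^ 2 * 2 * q = 0 := by linear_combination q * h2 - hq3
      have hq0 : q = 0 := (mul_eq_zero.mp h3).resolve_left (mul_ne_zero (pow_ne_zero 2 hp0) two_ne_zero)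
      rw [hq0] at h2
      have : p ^ 2 = 0 := by linear_combination h2
      exact hp0 (pow_eq_zero_iff (two_ne_zero) |>.mp this)
    have h2 : c * (q ^ 2 + p ^ 2) ^ 2 * r = 0 := by
      linear_combination -h1 + c * s * 4 * p * hq3
    exact (mul_eq_zero.mp h2).resolve_left (mul_ne_zero hc hne)
  have hs0 : s ≠ 0 := by
    intro hs0
    have := hker (-q) p (by ring) (by rw [hr0, hs0]; ring)
    exact hp0 this.2
  obtain ⟨j0, j1, j2, j3, j4⟩ := quartic_zero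
    (e4 := 0)
    (e3 := s * p ^ 3 - c * s)
    (e2 := s * (3 * p ^ 2 * q - 4 * s * p ^ 2))
    (e1 := s * (3 * p * q ^ 2 - 8 * s * p * q + 3 * s ^ 2 * p) + c * s)
    (e0 := s * (q * (q - s) * (q - 3 * s)))
    (fun t => by
      have := E1 t 1
      rw [hr0] at this
      linear_combination this / 4)
  have h3 : 3 * q = 4 * s := by
    have : s * p ^ 2 * (3 * q - 4 * s) = 0 := by linear_combination j2
    exact sub_eq_zero.mp ((mul_eq_zero.mp this).resolve_left (mul_ne_zero hs0 (pow_ne_zero 2 hp0)))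
  have hq' : q = 4 / 3 * s := by linear_combination h3 / 3
  rw [hq'] at j0
  have : s ^ 4 = 0 := by linear_combination (-27 / 20) * j0
  exact hs0 (pow_eq_zero_iff (four_ne_zero) |>.mp this)

end Pool.Agent.Helper881.Stab
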