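import Pool.Agent.Helper881.StabPCF

open MeasureTheory Filter Topology Set MvPolynomial

namespace Pool.Agent.Helper881.Stab

theorem proj_surj {l : ℂ} (h0 : l ≠ 0) (h1 : l ≠ 1) : Function.Surjective (projMap (Hm l)) := by
  intro p
  induction p using Projectivization.ind with
  | h w hw =>
    obtain ⟨x0, x1, e0, e1⟩ := F_surj h0 h1 (w 0) (w 1)
    have e3 := cqr_pow (w 3)
    set y1 := cqr (w 3) with hy1
    have e4 := csq_sq (w 2 + 6 * w 3)
    have e5 := csq_sq (6 * y1 ^ 2 + csq (w 2 + 6 * w 3))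
    set y0 := csq (6 * y1 ^ 2 + csq (w 2 + 6 * w 3)) with hy0
    have hlin : lin (Hm l) ![x0, x1, y0, y1] = w := by
      rw [lin_Hm]
      funext i
      fin_cases i
      · exact e0
      · exact e1
      · show (y0 ^ 2 - 6 * y1 ^ 2) ^ 2 - 6 * y1 ^ 4 = w 2
        rw [e5]
        linear_combination e4 - 6 * e3
      · exact e3
    have hv : (![x0, x1, y0, y1] : Vec 3) ≠ 0 := by
      intro h
      apply hw
      rw [← hlin, h]
      have := lin_smul_vec (Hm_isLift h0 h1).homog 0 (0 : Vec 3)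
      rw [smul_zero] at this
      rw [this]
      simp
    refine ⟨Projectivization.mk ℂ _ hv, ?_⟩
    rw [projMap_mk (Hm_isLift h0 h1) _ hv (by rw [hlin]; exact hw)]
    congr 1

theorem M_surj {l : ℂ} (h0 : l ≠ 0) (h1 : l ≠ 1) {Θ : (Fin 3 → ℂ) → PSpace 3}
    (hΘ : IsHolomorphic Θ) (hs : Function.Surjective Θ) {M : (Fin 3 → ℂ) →ₗ[ℂ] (Fin 3 → ℂ)}
    {b : Fin 3 → ℂ} (hM : ∀ v, projMap (Hm l) (Θ v) = Θ (M v + b)) : Function.Surjective M := by
  by_contra hns
  set R : Submodule ℝ (Fin 3 → ℂ) := (LinearMap.range M).restrictScalars ℝ with hR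
  have hRne : R ≠ ⊤ := by
    intro h
    apply hns
    rw [← LinearMap.range_eq_top]
    exact (Submodule.restrictScalars_eq_top_iff ℝ ℂ _).mp h
  have hR0 : volume (R : Set (Fin 3 → ℂ)) = 0 := Measure.addHaar_submodule volume R hRne
  set K : Set (Fin 3 → ℂ) := (fun w => w - b) ⁻¹' (R : Set (Fin 3 → ℂ)) with hK
  have hK0 : volume K = 0 := by
    have hmp := measurePreserving_sub_right (volume : Measure (Fin 3 → ℂ)) b
    have : NullMeasurableSet (R : Set (Fin 3 → ℂ)) volume := NullMeasurableSet.of_null hR0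
    rw [hK, hmp.measure_preimage this, hR0]
  have hcov : ∀ p, ∃ v ∈ K, Θ v = p := by
    intro p
    obtain ⟨q, rfl⟩ := proj_surj h0 h1 p
    obtain ⟨v, rfl⟩ := hs q
    refine ⟨M v + b, ?_, (hM v).symm⟩
    show M v + b - b ∈ R
    rw [add_sub_cancel_right]
    exact ⟨v, rfl⟩
  choose U hU θ hθ hrep using hΘ
  obtain ⟨s, hsc, hsu⟩ := TopologicalSpace.countable_cover_nhds (f := fun x => interior (U x))
    (fun x => interior_mem_nhds.mpr (hU x))
  set φ : (Fin 3 → ℂ) → (Fin 3 → ℂ) → (Fin 3 → ℂ) := fun x w i => θ x w i.succ / θ x w 0 with hφ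
  set S : (Fin 3 → ℂ) → Set (Fin 3 → ℂ) := fun x => K ∩ (interior (U x) ∩ {w | θ x w 0 ≠ 0}) with hS
  have hdiff : ∀ x, DifferentiableOn ℝ (φ x) (S x) := by
    intro x w hw
    have hd : DifferentiableAt ℂ (θ x) w :=
      (hθ x).differentiableAt (mem_interior_iff_mem_nhds.mp hw.2.1)
    have hdi := differentiableAt_pi.mp hd
    have : DifferentiableAt ℂ (φ x) w := by
      apply differentiableAt_pi.mpr
      intro i
      have d1 : DifferentiableAt ℂ (fun y => θ x y i.succ) w := hdi i.succ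
      have d2 : DifferentiableAt ℂ (fun y => θ x y 0) w := hdi 0
      have hne : θ x w 0 ≠ 0 := hw.2.2
      show DifferentiableAt ℂ (fun y => θ x y i.succ / θ x y 0) w
      simp only [div_eq_mul_inv]
      exact d1.mul (d2.inv hne)
    exact (this.restrictScalars ℝ).differentiableWithinAt
  have hnull : ∀ x, volume (φ x '' S x) = 0 := fun x =>
    addHaar_image_eq_zero_of_differentiableOn_of_addHaar_eq_zero volume (hdiff x)
      (measure_mono_null inter_subset_left hK0)
  have hall : (univ : Set (Fin 3 → ℂ)) ⊆ ⋃ x ∈ s, φ x '' S x := by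
    intro w _
    have hne : (Fin.cons 1 w : Vec 3) ≠ 0 := by
      intro h
      have := congrFun h 0
      simp at this
    obtain ⟨v, hvK, hv⟩ := hcov (Projectivization.mk ℂ (Fin.cons 1 w : Vec 3) hne)
    have hvU : v ∈ ⋃ x ∈ s, interior (U x) := by rw [hsu]; trivial
    obtain ⟨x, hxs, hxv⟩ := mem_iUnion₂.mp hvU
    obtain ⟨hne2, heq⟩ := hrep x v (interior_subset hxv)
    rw [hv, Projectivization.mk_eq_mk_iff'] at heq
    obtain ⟨a, ha⟩ := heq
    have ha0 : a * θ x v 0 = 1 := by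
      have := congrFun ha 0
      simpa using this
    have hai : ∀ i : Fin 3, a * θ x v i.succ = w i := by
      intro i
      have := congrFun ha i.succ
      simpa using this
    have hθ0 : θ x v 0 ≠ 0 := by
      intro h
      rw [h, mul_zero] at ha0
      exact zero_ne_one ha0
    refine mem_iUnion₂.mpr ⟨x, hxs, v, ⟨hvK, hxv, hθ0⟩, ?_⟩
    funext i
    show θ x v i.succ / θ x v 0 = w i
    rw [← hai i, div_eq_iff hθ0]
    linear_combination -θ x v i.succ * ha0
  have hz : volume (univ : Set (Fin 3 → ℂ)) = 0 :=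
    measure_mono_null hall ((measure_biUnion_null_iff hsc).mpr fun x _ => hnull x)
  exact (isOpen_univ.measure_pos volume univ_nonempty).ne' hz

/-- sizes of the two groups of coordinates -/
noncomputable def nx (v : Vec 3) : ℝ := max ‖v 0‖ ‖v 1‖
noncomputable def ny (v : Vec 3) : ℝ := max ‖v 2‖ ‖v 3‖

theorem nx_smul (a : ℂ) (v : Vec 3) : nx (a • v) = ‖a‖ * nx v := by
  simp [nx, mul_max_of_nonneg]

theorem ny_smul (a : ℂ) (v : Vec 3) : ny (a • v) = ‖a‖ * ny v := by
  simp [ny, mul_max_of_nonneg]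

theorem continuous_nx : Continuous nx :=
  ((continuous_apply 0).norm).max ((continuous_apply 1).norm)

theorem continuous_ny : Continuous ny :=
  ((continuous_apply 2).norm).max ((continuous_apply 3).norm)

theorem trap_bounds {l : ℂ} (h0 : l ≠ 0) (h1 : l ≠ 1) : ∃ k K : ℝ, 0 < k ∧ 0 < K ∧ ∀ v : Vec 3,
    k * nx v ^ 4 ≤ nx (lin (Hm l) v) ∧ ny (lin (Hm l) v) ≤ K * ny v ^ 4 := by
  obtain ⟨c1, c2, hc1, hc2, h⟩ := lift_bounds (by norm_num) (Hm_isLift h0 h1)
  refine ⟨c1, c2, hc1, hc2, fun v => ⟨?_, ?_⟩⟩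
  · have h' := (h ![v 0, v 1, 0, 0]).1
    have n1 : ‖(![v 0, v 1, 0, 0] : Vec 3)‖ = nx v := by
      have hpos : 0 ≤ nx v := le_max_of_le_left (norm_nonneg _)
      apply le_antisymm
      · refine (pi_norm_le_iff_of_nonneg hpos).mpr fun i => ?_
        fin_cases i
        · exact le_max_left _ _
        · exact le_max_right _ _
        · simpa using hpos
        · simpa using hpos
      · apply max_le
        · exact norm_le_pi_norm (![v 0, v 1, 0, 0] : Vec 3) 0
        · exact norm_le_pi_norm (![v 0, v 1, 0, 0] : Vec 3) 1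
    have n2 : ‖lin (Hm l) ![v 0, v 1, 0, 0]‖ = nx (lin (Hm l) v) := by
      have hpos : 0 ≤ nx (lin (Hm l) v) := le_max_of_le_left (norm_nonneg _)
      have e : lin (Hm l) ![v 0, v 1, 0, 0] = ![lin (Hm l) v 0, lin (Hm l) v 1, 0, 0] := by
        rw [lin_Hm, lin_Hm]
        funext i
        fin_cases i <;> simp
      rw [e]
      apply le_antisymm
      · refine (pi_norm_le_iff_of_nonneg hpos).mpr fun i => ?_
        fin_cases i
        · exact le_max_left _ _
        · exact le_max_right _ _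
        · simpa using hpos
        · simpa using hpos
      · apply max_le
        · exact norm_le_pi_norm (![lin (Hm l) v 0, lin (Hm l) v 1, 0, 0] : Vec 3) 0
        · exact norm_le_pi_norm (![lin (Hm l) v 0, lin (Hm l) v 1, 0, 0] : Vec 3) 1
    rw [n1, n2] at h'
    exact h'
  · have h' := (h ![0, 0, v 2, v 3]).2
    have n1 : ‖(![0, 0, v 2, v 3] : Vec 3)‖ = ny v := by
      have hpos : 0 ≤ ny v := le_max_of_le_left (norm_nonneg _)
      apply le_antisymm
      · refine (pi_norm_le_iff_of_nonneg hpos).mpr fun i => ?_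
        fin_cases i
        · simpa using hpos
        · simpa using hpos
        · exact le_max_left _ _
        · exact le_max_right _ _
      · apply max_le
        · exact norm_le_pi_norm (![0, 0, v 2, v 3] : Vec 3) 2
        · exact norm_le_pi_norm (![0, 0, v 2, v 3] : Vec 3) 3
    have n2 : ‖lin (Hm l) ![0, 0, v 2, v 3]‖ = ny (lin (Hm l) v) := by
      have hpos : 0 ≤ ny (lin (Hm l) v) := le_max_of_le_left (norm_nonneg _)
      have e : lin (Hm l) ![0, 0, v 2, v 3] = ![0, 0, lin (Hm l) v 2, lin (Hm l) v 3] := by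
        rw [lin_Hm, lin_Hm]
        funext i
        fin_cases i <;> simp
      rw [e]
      apply le_antisymm
      · refine (pi_norm_le_iff_of_nonneg hpos).mpr fun i => ?_
        fin_cases i
        · simpa using hpos
        · simpa using hpos
        · exact le_max_left _ _
        · exact le_max_right _ _
      · apply max_le
        · exact norm_le_pi_norm (![0, 0, lin (Hm l) v 2, lin (Hm l) v 3] : Vec 3) 2
        · exact norm_le_pi_norm (![0, 0, lin (Hm l) v 2, lin (Hm l) v 3] : Vec 3) 3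
    rw [n1, n2] at h'
    exact h'

/-- the trapping condition -/
def Trap (ε : ℝ) (v : Vec 3) : Prop := ny v < ε * nx v

theorem Trap_smul {ε : ℝ} {a : ℂ} (ha : a ≠ 0) (v : Vec 3) : Trap ε (a • v) ↔ Trap ε v := by
  unfold Trap
  rw [nx_smul, ny_smul]
  have hp : 0 < ‖a‖ := norm_pos_iff.mpr ha
  constructor
  · intro h
    by_contra hcon
    push Not at hcon
    nlinarith
  · intro h
    nlinarith

theorem Trap_rep {ε : ℝ} (v : Vec 3) (hv : v ≠ 0) :
    Trap ε (Projectivization.mk ℂ v hv).rep ↔ Trap ε v := by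
  obtain ⟨b, hb, hrep⟩ := rep_mk v hv
  rw [hrep, Trap_smul hb]

theorem exists_trap {l : ℂ} (h0 : l ≠ 0) (h1 : l ≠ 1) : ∃ ε : ℝ, 0 < ε ∧ ∀ v : Vec 3,
    Trap ε v → Trap (ε / 2) (lin (Hm l) v) := by
  obtain ⟨k, K, hk, hK, h⟩ := trap_bounds h0 h1
  refine ⟨min 1 (k / (4 * K)), by positivity, fun v hv => ?_⟩
  set ε := min 1 (k / (4 * K)) with hε
  have hε0 : 0 < ε := by positivity
  have hε1 : ε ≤ 1 := min_le_left _ _
  have hε2 : ε ≤ k / (4 * K) := min_le_right _ _
  have hε3 : 4 * K * ε ≤ k := by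
    rw [le_div_iff₀ (by positivity)] at hε2
    linarith
  unfold Trap at hv ⊢
  have hny : 0 ≤ ny v := le_max_of_le_left (norm_nonneg _)
  have hnx : 0 < nx v := by
    by_contra hcon
    push Not at hcon
    nlinarith
  obtain ⟨a1, a2⟩ := h v
  have h4 : ny v ^ 4 ≤ (ε * nx v) ^ 4 := pow_le_pow_left₀ hny hv.le 4
  have h5 : ε ^ 4 ≤ ε ^ 2 := pow_le_pow_of_le_one hε0.le hε1 (by norm_num)
  have hx4 : 0 < nx v ^ 4 := by positivity
  calc ny (lin (Hm l) v) ≤ K * ny v ^ 4 := a2
    _ ≤ K * (ε * nx v) ^ 4 := mul_le_mul_of_nonneg_left h4 hK.le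
    _ = K * ε ^ 4 * nx v ^ 4 := by ring
    _ ≤ K * ε ^ 2 * nx v ^ 4 := by
        apply mul_le_mul_of_nonneg_right _ hx4.le
        exact mul_le_mul_of_nonneg_left h5 hK.le
    _ < ε / 2 * (k * nx v ^ 4) := by
        have : K * ε ^ 2 < ε / 2 * k := by nlinarith [mul_pos hK hε0, mul_pos hε0 hk]
        have := mul_lt_mul_of_pos_right this hx4
        linarith
    _ ≤ ε / 2 * nx (lin (Hm l) v) := mul_le_mul_of_nonneg_left a1 (by positivity)

theorem isOpen_of_holo {Θ : (Fin 3 → ℂ) → PSpace 3} (hΘ : IsHolomorphic Θ) (P : Vec 3 → Prop)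
    (hP : IsOpen {v | P v}) (hsm : ∀ (v : Vec 3) (hv : v ≠ 0),
      P (Projectivization.mk ℂ v hv).rep ↔ P v) : IsOpen {v | P (Θ v).rep} := by
  rw [isOpen_iff_mem_nhds]
  intro v hv
  obtain ⟨U, hU, θ, hθ, hrep⟩ := hΘ v
  have hc : ContinuousAt θ v := (hθ.differentiableAt hU).continuousAt
  obtain ⟨hne, he⟩ := hrep v (mem_of_mem_nhds hU)
  have hPv : P (θ v) := by
    have h1 : P (Θ v).rep := hv
    rwa [he, hsm] at h1
  filter_upwards [hU, hc (hP.mem_nhds hPv)] with w hw1 hw2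
  obtain ⟨hne', he'⟩ := hrep w hw1
  show P (Θ w).rep
  rw [he', hsm]
  exact hw2

theorem not_lattes {l : ℂ} (h0 : l ≠ 0) (h1 : l ≠ 1) : ¬ IsLattes (Hm l) := by
  rintro ⟨Λ, hdisc, hspan, Θ, hΘ, hsurj, hper, hfin, M, b, hMΛ, hM⟩
  have hlat : IsZLattice ℝ Λ := ⟨hspan⟩
  have hMs := M_surj h0 h1 hΘ hsurj hM
  obtain ⟨ε, hε, htrap⟩ := exists_trap h0 h1
  -- the torus
  let T := (Fin 3 → ℂ) ⧸ Λ.toAddSubgroup
  have hdisc' : DiscreteTopology Λ.toAddSubgroup := hdisc
  have hcl : IsClosed (Λ.toAddSubgroup : Set (Fin 3 → ℂ)) := AddSubgroup.isClosed_of_discrete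
  let mT : (Fin 3 → ℂ) → T := fun v => (QuotientAddGroup.mk v : T)
  have hmTc : Continuous mT := continuous_quot_mk
  have hmTo : IsOpenMap mT := QuotientAddGroup.isOpenMap_coe
  have hcomp : CompactSpace T := by
    refine ⟨?_⟩
    have := IsZLattice.isCompact_range_of_periodic Λ mT hmTc (fun z w hw => by
      show (QuotientAddGroup.mk (z + w) : T) = QuotientAddGroup.mk z
      rw [QuotientAddGroup.eq]
      simpa using hw)
    rwa [(QuotientAddGroup.mk_surjective (s := Λ.toAddSubgroup)).range_eq] at this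
  let _ : MeasurableSpace T := borel T
  have _ : BorelSpace T := ⟨rfl⟩
  let μ : Measure T := Measure.addHaar
  let f : T →+ T := QuotientAddGroup.map Λ.toAddSubgroup Λ.toAddSubgroup M.toAddMonoidHom
    (fun x hx => hMΛ x hx)
  have hfmk : ∀ v, f (mT v) = mT (M v) := fun v => rfl
  have hfc : Continuous f := by
    apply continuous_quot_lift
    exact hmTc.comp (LinearMap.continuous_of_finiteDimensional M)
  have hfs : Function.Surjective f := by
    intro t
    obtain ⟨v, rfl⟩ := QuotientAddGroup.mk_surjective t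
    obtain ⟨w, rfl⟩ := hMs v
    exact ⟨mT w, rfl⟩
  have hmp : MeasurePreserving f μ μ := AddMonoidHom.measurePreserving hfc hfs rfl
  have hmp2 : MeasurePreserving (fun t => f t + mT b) μ μ :=
    (measurePreserving_add_right μ (mT b)).comp hmp
  -- open sets
  have hTo : ∀ δ : ℝ, IsOpen {v : Vec 3 | Trap δ v} := fun δ =>
    isOpen_lt continuous_ny (continuous_const.mul continuous_nx)
  let W : ℝ → Set T := fun δ => mT '' {v | Trap δ (Θ v).rep}
  have hWo : ∀ δ, IsOpen (W δ) := fun δ =>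
    hmTo _ (isOpen_of_holo hΘ (Trap δ) (hTo δ) (fun v hv => Trap_rep v hv))
  have hWmem : ∀ δ v, mT v ∈ W δ ↔ Trap δ (Θ v).rep := by
    intro δ v
    constructor
    · rintro ⟨w, hw, hwv⟩
      have h2 : -w + v ∈ Λ.toAddSubgroup := QuotientAddGroup.eq.mp hwv
      have h3 : Θ v = Θ w := by
        have := hper w (-w + v) h2
        rw [← this]
        congr 1
        abel
      rw [h3]; exact hw
    · intro h
      exact ⟨v, h, rfl⟩
  have hsub : W ε ⊆ (fun t => f t + mT b) ⁻¹' (W (ε / 2)) := by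
    rintro _ ⟨v, hv, rfl⟩
    show f (mT v) + mT b ∈ W (ε / 2)
    have e : f (mT v) + mT b = mT (M v + b) := rfl
    rw [e, hWmem, ← hM]
    have hne := lin_ne_zero (Hm_isLift h0 h1) (Θ v).rep_nonzero
    rw [projMap, dif_pos hne, Trap_rep]
    exact htrap _ hv
  have hle : μ (W ε) ≤ μ (W (ε / 2)) := by
    calc μ (W ε) ≤ μ ((fun t => f t + mT b) ⁻¹' (W (ε / 2))) := measure_mono hsub
      _ = μ (W (ε / 2)) := hmp2.measure_preimage (hWo _).measurableSet.nullMeasurableSet
  -- the intermediate open set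
  let Pm : Vec 3 → Prop := fun v => ε / 2 * nx v < ny v ∧ ny v < ε * nx v
  have hPo : IsOpen {v | Pm v} :=
    (isOpen_lt (continuous_const.mul continuous_nx) continuous_ny).inter
      (isOpen_lt continuous_ny (continuous_const.mul continuous_nx))
  have hPs : ∀ (v : Vec 3) (hv : v ≠ 0), Pm (Projectivization.mk ℂ v hv).rep ↔ Pm v := by
    intro v hv
    obtain ⟨a, ha, hrep⟩ := rep_mk v hv
    have hp : 0 < ‖a‖ := norm_pos_iff.mpr ha
    show (ε / 2 * nx _ < ny _ ∧ ny _ < ε * nx _) ↔ _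
    rw [hrep, nx_smul, ny_smul]
    constructor
    · rintro ⟨a1, a2⟩
      constructor
      · by_contra hcon; push Not at hcon; nlinarith
      · by_contra hcon; push Not at hcon; nlinarith
    · rintro ⟨a1, a2⟩
      constructor <;> nlinarith
  have hOo : IsOpen (mT '' {v | Pm (Θ v).rep}) := hmTo _ (isOpen_of_holo hΘ Pm hPo hPs)
  have hOne : (mT '' {v | Pm (Θ v).rep}).Nonempty := by
    have hne : (![1, 0, ((3 * ε / 4 : ℝ) : ℂ), 0] : Vec 3) ≠ 0 := by
      intro h
      have := congrFun h 0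
      simp at this
    obtain ⟨v, hv⟩ := hsurj (Projectivization.mk ℂ _ hne)
    refine ⟨mT v, v, ?_, rfl⟩
    show Pm (Θ v).rep
    rw [hv, hPs]
    have hnx : nx ![1, 0, ((3 * ε / 4 : ℝ) : ℂ), 0] = 1 := by
      show max ‖(1 : ℂ)‖ ‖(0 : ℂ)‖ = 1
      simp
    have hny : ny ![1, 0, ((3 * ε / 4 : ℝ) : ℂ), 0] = 3 * ε / 4 := by
      show max ‖((3 * ε / 4 : ℝ) : ℂ)‖ ‖(0 : ℂ)‖ = 3 * ε / 4
      rw [Complex.norm_real, Real.norm_of_nonneg (by positivity), norm_zero]
      exact max_eq_left (by positivity)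
    show ε / 2 * nx _ < ny _ ∧ ny _ < ε * nx _
    rw [hnx, hny]
    constructor <;> linarith
  have hdisj : Disjoint (W (ε / 2)) (mT '' {v | Pm (Θ v).rep}) := by
    rw [Set.disjoint_left]
    rintro t ht ⟨v, hv, rfl⟩
    have h3 := (hWmem _ v).mp ht
    have h4 : ε / 2 * nx (Θ v).rep < ny (Θ v).rep := hv.1
    exact absurd h3 (not_lt.mpr h4.le)
  have hsub2 : W (ε / 2) ∪ mT '' {v | Pm (Θ v).rep} ⊆ W ε := by
    rintro t (⟨v, hv, rfl⟩ | ⟨v, hv, rfl⟩)
    · refine ⟨v, ?_, rfl⟩
      have hv' : ny (Θ v).rep < ε / 2 * nx (Θ v).rep := hv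
      have hnx : 0 ≤ nx (Θ v).rep := le_max_of_le_left (norm_nonneg _)
      show ny (Θ v).rep < ε * nx (Θ v).rep
      nlinarith
    · exact ⟨v, hv.2, rfl⟩
  have hpos : 0 < μ (mT '' {v | Pm (Θ v).rep}) := hOo.measure_pos μ hOne
  have hfinm : μ (W (ε / 2)) ≠ ⊤ := measure_ne_top μ _
  have hge : μ (W (ε / 2)) + μ (mT '' {v | Pm (Θ v).rep}) ≤ μ (W ε) := by
    rw [← measure_union hdisj hOo.measurableSet]
    exact measure_mono hsub2
  have := hge.trans hle
  have hlt : μ (W (ε / 2)) < μ (W (ε / 2)) + μ (mT '' {v | Pm (Θ v).rep}) :=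
    ENNReal.lt_add_right hfinm hpos.ne'
  exact absurd this (not_le.mpr hlt)

end Pool.Agent.Helper881.Stab
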