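import Pool.Agent.Helper881.StabBasic

open MeasureTheory MvPolynomial

namespace Pool.Agent.Helper881.Stab

/-- The maps of the counterexample. -/
noncomputable def Hm (l : ℂ) : Tuple 3 :=
  ![(X 0 ^ 2 - C l * X 1 ^ 2) ^ 2,
    4 * X 0 * X 1 * (X 0 - X 1) * (X 0 - C l * X 1),
    (X 2 ^ 2 - 6 * X 3 ^ 2) ^ 2 - 6 * X 3 ^ 4,
    X 3 ^ 4]

theorem lin_Hm (l : ℂ) (v : Vec 3) : lin (Hm l) v =
    ![(v 0 ^ 2 - l * v 1 ^ 2) ^ 2, 4 * v 0 * v 1 * (v 0 - v 1) * (v 0 - l * v 1),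
      (v 2 ^ 2 - 6 * v 3 ^ 2) ^ 2 - 6 * v 3 ^ 4, v 3 ^ 4] := by
  funext i
  fin_cases i <;> simp [lin, Hm]

theorem Hm_homog (l : ℂ) (i : Fin 4) : (Hm l i).IsHomogeneous 4 := by
  have h4 : (4 : MvPolynomial (Fin 4) ℂ) = C 4 := (map_ofNat C 4).symm
  have h6 : (6 : MvPolynomial (Fin 4) ℂ) = C 6 := (map_ofNat C 6).symm
  have hX : ∀ i : Fin 4, (X i : MvPolynomial (Fin 4) ℂ).IsHomogeneous 1 := isHomogeneous_X ℂ
  have hC : ∀ (a : ℂ) (i : Fin 4), (C a * X i : MvPolynomial (Fin 4) ℂ).IsHomogeneous 1 :=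
    fun a i => (hX i).C_mul a
  fin_cases i
  · show ((X 0 ^ 2 - C l * X 1 ^ 2) ^ 2 : MvPolynomial (Fin 4) ℂ).IsHomogeneous 4
    exact (((hX 0).pow 2).sub (((hX 1).pow 2).C_mul l)).pow 2
  · show (4 * X 0 * X 1 * (X 0 - X 1) * (X 0 - C l * X 1) : MvPolynomial (Fin 4) ℂ).IsHomogeneous 4
    rw [h4]
    exact (((hC 4 0).mul (hX 1)).mul ((hX 0).sub (hX 1))).mul ((hX 0).sub (hC l 1))
  · show ((X 2 ^ 2 - 6 * X 3 ^ 2) ^ 2 - 6 * X 3 ^ 4 : MvPolynomial (Fin 4) ℂ).IsHomogeneous 4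
    rw [h6]
    exact ((((hX 2).pow 2).sub (((hX 3).pow 2).C_mul 6)).pow 2).sub (((hX 3).pow 4).C_mul 6)
  · show (X 3 ^ 4 : MvPolynomial (Fin 4) ℂ).IsHomogeneous 4
    exact (hX 3).pow 4

theorem FG_zero {l a b : ℂ} (h0 : l ≠ 0) (h1 : l ≠ 1) (hP : (a ^ 2 - l * b ^ 2) ^ 2 = 0)
    (hQ : 4 * a * b * (a - b) * (a - l * b) = 0) : a = 0 ∧ b = 0 := by
  have hP' : a ^ 2 = l * b ^ 2 := by
    have := pow_eq_zero_iff (two_ne_zero) |>.mp hP
    exact sub_eq_zero.mp this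
  have hb : b = 0 := by
    by_contra hb
    rcases mul_eq_zero.mp hQ with h | h
    · rcases mul_eq_zero.mp h with h | h
      · rcases mul_eq_zero.mp h with h | h
        · have ha : a = 0 := by simpa using h
          rw [ha] at hP'
          have : l * b ^ 2 = 0 := by rw [← hP']; ring
          rcases mul_eq_zero.mp this with h | h
          · exact h0 h
          · exact hb (pow_eq_zero_iff (two_ne_zero) |>.mp h)
        · exact hb h
      · have ha : a = b := sub_eq_zero.mp h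
        rw [ha] at hP'
        have : (l - 1) * b ^ 2 = 0 := by linear_combination -hP'
        rcases mul_eq_zero.mp this with h | h
        · exact h1 (sub_eq_zero.mp h)
        · exact hb (pow_eq_zero_iff (two_ne_zero) |>.mp h)
    · have ha : a = l * b := sub_eq_zero.mp h
      rw [ha] at hP'
      have : l * (l - 1) * b ^ 2 = 0 := by linear_combination hP'
      rcases mul_eq_zero.mp this with h | h
      · rcases mul_eq_zero.mp h with h | h
        · exact h0 h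
        · exact h1 (sub_eq_zero.mp h)
      · exact hb (pow_eq_zero_iff (two_ne_zero) |>.mp h)
  refine ⟨?_, hb⟩
  rw [hb] at hP'
  have : a ^ 2 = 0 := by rw [hP']; ring
  exact pow_eq_zero_iff (two_ne_zero) |>.mp this

theorem Hm_isLift {l : ℂ} (h0 : l ≠ 0) (h1 : l ≠ 1) : IsLift 3 4 (Hm l) := by
  refine ⟨Hm_homog l, fun z hz => ?_⟩
  rw [lin_Hm] at hz
  have e0 := congrFun hz 0
  have e1 := congrFun hz 1
  have e2 := congrFun hz 2
  have e3 := congrFun hz 3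
  simp at e0 e1 e2 e3
  obtain ⟨ha, hb⟩ := FG_zero h0 h1 (a := z 0) (b := z 1) (by simpa using e0) (by simpa using e1)
  rw [e3] at e2
  have hc : z 2 = 0 := by
    have : (z 2) ^ 4 = 0 := by linear_combination e2
    exact pow_eq_zero_iff (four_ne_zero) |>.mp this
  funext i
  fin_cases i
  · exact ha
  · exact hb
  · exact hc
  · exact e3

/-- Jacobian of the Legendre doubling lift. -/
noncomputable def JF (l a b : ℂ) : ℂ :=
  16 * (a ^ 2 - l * b ^ 2) * (a ^ 2 - 2 * a * b + l * b ^ 2) * (a ^ 2 - 2 * l * a * b + l * b ^ 2)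

noncomputable def JG (c e : ℂ) : ℂ := 16 * c * (c ^ 2 - 6 * e ^ 2) * e ^ 3

/-- the ramification form -/
noncomputable def Wf (l a b : ℂ) : ℂ := a * b * (a - b) * (a - l * b)

theorem jacDet_Hm (l : ℂ) (v : Vec 3) : jacDet (Hm l) v = JF l (v 0) (v 1) * JG (v 2) (v 3) := by
  have hM : (Matrix.of fun i j : Fin (3 + 1) => eval v (pderiv j (Hm l i))) =
      !![4 * v 0 * (v 0 ^ 2 - l * v 1 ^ 2), -4 * l * v 1 * (v 0 ^ 2 - l * v 1 ^ 2), 0, 0;
        12 * v 0 ^ 2 * v 1 - 8 * (1 + l) * v 0 * v 1 ^ 2 + 4 * l * v 1 ^ 3,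
        4 * v 0 ^ 3 - 8 * (1 + l) * v 0 ^ 2 * v 1 + 12 * l * v 0 * v 1 ^ 2, 0, 0;
        0, 0, 4 * v 2 * (v 2 ^ 2 - 6 * v 3 ^ 2),
        -24 * v 3 * (v 2 ^ 2 - 6 * v 3 ^ 2) - 24 * v 3 ^ 3;
        0, 0, 0, 4 * v 3 ^ 3] := by
    have e6 : ∀ j : Fin 4, pderiv j (6 : MvPolynomial (Fin 4) ℂ) = 0 := fun j => by
      have : (6 : MvPolynomial (Fin 4) ℂ) = C 6 := (map_ofNat C 6).symm
      rw [this, pderiv_C]
    have e4 : ∀ j : Fin 4, pderiv j (4 : MvPolynomial (Fin 4) ℂ) = 0 := fun j => by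
      have : (4 : MvPolynomial (Fin 4) ℂ) = C 4 := (map_ofNat C 4).symm
      rw [this, pderiv_C]
    ext i j
    fin_cases i <;> fin_cases j <;>
      simp [Hm, pderiv_X, e6, e4, Derivation.leibniz, Derivation.leibniz_pow] <;> ring
  unfold jacDet
  rw [hM]
  rw [Matrix.det_succ_row_zero]
  simp [Fin.sum_univ_succ, Matrix.det_fin_three, Matrix.submatrix, Fin.succAbove, JF, JG]
  ring

theorem JF_sq (l a b : ℂ) :
    JF l a b ^ 2 * Wf l a b =
      64 * Wf l ((a ^ 2 - l * b ^ 2) ^ 2) (4 * a * b * (a - b) * (a - l * b)) := by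
  unfold JF Wf
  ring

end Pool.Agent.Helper881.Stab
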