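import Pool.Agent.Helper881.StabCircle
import Pool.Agent.Helper881.StabMaps

open MeasureTheory Filter Topology

namespace Pool.Agent.Helper881.Stab

noncomputable def wd (l z : ℂ) : ℂ := z * (z - 1) * (z - l)
noncomputable def Qf (l z : ℂ) : ℂ := 4 * z * (z - 1) * (z - l)
noncomputable def Pf (l z : ℂ) : ℂ := (z ^ 2 - l) ^ 2
noncomputable def ff (l z : ℂ) : ℂ := Pf l z / Qf l z

noncomputable def sb (b : Bool) : ℂ := if b then 1 else -1

/-- the four halves -/
noncomputable def sL (l : ℂ) (b : Bool × Bool) (a : ℂ) : ℂ :=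
  a + sb b.1 * (csq a * csq (a - 1)) + sb b.2 * (csq a * csq (a - l)) +
    sb b.1 * sb b.2 * (csq (a - 1) * csq (a - l))

theorem measurable_sL (l : ℂ) (b : Bool × Bool) : Measurable (sL l b) := by
  have h1 : Measurable fun a : ℂ => csq a := measurable_csq
  have h2 : Measurable fun a : ℂ => csq (a - 1) := measurable_csq.comp (measurable_id.sub_const 1)
  have h3 : Measurable fun a : ℂ => csq (a - l) := measurable_csq.comp (measurable_id.sub_const l)
  unfold sL
  exact ((measurable_id.add ((h1.mul h2).const_mul _)).add ((h1.mul h3).const_mul _)).add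
    ((h2.mul h3).const_mul _)

theorem sL_prod (l a x : ℂ) : (x - sL l (true, true) a) * (x - sL l (true, false) a) *
    (x - sL l (false, true) a) * (x - sL l (false, false) a) = Pf l x - a * Qf l x := by
  have hA := csq_sq a
  have hB := csq_sq (a - 1)
  have hC := csq_sq (a - l)
  have key : ∀ r1 r2 r3 X : ℂ, (X - (r1 * r2 + r1 * r3 + r2 * r3)) * (X - (r1 * r2 - r1 * r3 - r2 * r3))
      * (X - (-(r1 * r2) + r1 * r3 - r2 * r3)) * (X - (-(r1 * r2) - r1 * r3 + r2 * r3)) =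
      X ^ 4 - 2 * X ^ 2 * (r1 ^ 2 * r2 ^ 2 + r1 ^ 2 * r3 ^ 2 + r2 ^ 2 * r3 ^ 2) -
      8 * X * (r1 ^ 2 * r2 ^ 2 * r3 ^ 2) + (r1 ^ 2 * r2 ^ 2) ^ 2 + (r1 ^ 2 * r3 ^ 2) ^ 2 +
      (r2 ^ 2 * r3 ^ 2) ^ 2 - 2 * (r1 ^ 2 * r2 ^ 2) * (r1 ^ 2 * r3 ^ 2)
      - 2 * (r1 ^ 2 * r2 ^ 2) * (r2 ^ 2 * r3 ^ 2) - 2 * (r1 ^ 2 * r3 ^ 2) * (r2 ^ 2 * r3 ^ 2) := by
    intro r1 r2 r3 X; ring
  have h := key (csq a) (csq (a - 1)) (csq (a - l)) (x - a)
  rw [hA, hB, hC] at h
  simp only [sL, sb, Pf, Qf, if_true, Bool.false_eq_true, if_false]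
  linear_combination h

theorem sL_eq (l a : ℂ) (b : Bool × Bool) : Pf l (sL l b a) = a * Qf l (sL l b a) := by
  have h := sL_prod l a (sL l b a)
  have h0 : (sL l b a - sL l (true, true) a) * (sL l b a - sL l (true, false) a) *
    (sL l b a - sL l (false, true) a) * (sL l b a - sL l (false, false) a) = 0 := by
    rcases b with ⟨b1, b2⟩
    cases b1 <;> cases b2 <;> simp
  rw [h0] at h
  exact (sub_eq_zero.mp h.symm)

theorem Qf_sL {l : ℂ} (h0 : l ≠ 0) (h1 : l ≠ 1) (a : ℂ) (b : Bool × Bool) :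
    Qf l (sL l b a) ≠ 0 := by
  intro hQ
  have hP := sL_eq l a b
  rw [hQ, mul_zero] at hP
  have := FG_zero (a := sL l b a) (b := 1) h0 h1 (by simpa [Pf] using hP) (by simpa [Qf] using hQ)
  exact one_ne_zero this.2

theorem ff_sL {l : ℂ} (h0 : l ≠ 0) (h1 : l ≠ 1) (a : ℂ) (b : Bool × Bool) :
    ff l (sL l b a) = a := by
  rw [ff, sL_eq, mul_div_assoc, div_self (Qf_sL h0 h1 a b), mul_one]

theorem exists_sL {l v a : ℂ} (hQ : Qf l v ≠ 0) (ha : ff l v = a) : ∃ b, v = sL l b a := by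
  have h := sL_prod l a v
  have h2 : Pf l v - a * Qf l v = 0 := by
    rw [← ha, ff, div_mul_cancel₀ _ hQ, sub_self]
  rw [h2] at h
  rcases mul_eq_zero.mp h with h | h
  · rcases mul_eq_zero.mp h with h | h
    · rcases mul_eq_zero.mp h with h | h
      · exact ⟨_, sub_eq_zero.mp h⟩
      · exact ⟨_, sub_eq_zero.mp h⟩
    · exact ⟨_, sub_eq_zero.mp h⟩
  · exact ⟨_, sub_eq_zero.mp h⟩

theorem csq_ne_zero {w : ℂ} (h : w ≠ 0) : csq w ≠ 0 := by
  intro h1
  have := csq_sq w
  rw [h1] at this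
  exact h (by rw [← this]; ring)

theorem sL_inj {l a : ℂ} (h0 : l ≠ 0) (h1 : l ≠ 1) (hw : wd l a ≠ 0) :
    Function.Injective fun b => sL l b a := by
  have ha : a ≠ 0 := by rintro rfl; exact hw (by simp [wd])
  have ha1 : a - 1 ≠ 0 := by intro h; exact hw (by rw [wd, h]; ring)
  have hal : a - l ≠ 0 := by intro h; exact hw (by rw [wd, h]; ring)
  have hA := csq_sq a
  have hB := csq_sq (a - 1)
  have hC := csq_sq (a - l)
  have n1 := csq_ne_zero ha
  have n2 := csq_ne_zero ha1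
  have n3 := csq_ne_zero hal
  set r1 := csq a with hr1
  set r2 := csq (a - 1) with hr2
  set r3 := csq (a - l) with hr3
  have p12 : r1 + r2 ≠ 0 := fun h => one_ne_zero (α := ℂ)
    (by linear_combination (r1 - r2) * h - hA + hB)
  have m12 : r1 - r2 ≠ 0 := fun h => one_ne_zero (α := ℂ)
    (by linear_combination (r1 + r2) * h - hA + hB)
  have p13 : r1 + r3 ≠ 0 := fun h => h0 (by linear_combination (r1 - r3) * h - hA + hC)
  have m13 : r1 - r3 ≠ 0 := fun h => h0 (by linear_combination (r1 + r3) * h - hA + hC)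
  have p23 : r2 + r3 ≠ 0 := fun h => h1 (by linear_combination (r2 - r3) * h - hB + hC)
  have m23 : r2 - r3 ≠ 0 := fun h => h1 (by linear_combination (r2 + r3) * h - hB + hC)
  have k1 := mul_ne_zero n3 p12
  have k2 := mul_ne_zero n2 p13
  have k3 := mul_ne_zero n1 p23
  have k4 := mul_ne_zero n1 m23
  have k5 := mul_ne_zero n2 m13
  have k6 := mul_ne_zero n3 m12
  rintro ⟨b1, b2⟩ ⟨c1, c2⟩ h
  have e : sL l (b1, b2) a = sL l (c1, c2) a := h
  simp only [sL, ← hr1, ← hr2, ← hr3] at e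
  cases b1 <;> cases b2 <;> cases c1 <;> cases c2 <;> simp only [sb, if_true, Bool.false_eq_true,
    if_false] at e ⊢ <;> exfalso
  · exact k6 (by linear_combination -e / 2)
  · exact k5 (by linear_combination -e / 2)
  · exact k3 (by linear_combination -e / 2)
  · exact k6 (by linear_combination e / 2)
  · exact k4 (by linear_combination -e / 2)
  · exact k2 (by linear_combination -e / 2)
  · exact k5 (by linear_combination e / 2)
  · exact k4 (by linear_combination e / 2)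
  · exact k1 (by linear_combination -e / 2)
  · exact k3 (by linear_combination e / 2)
  · exact k2 (by linear_combination e / 2)
  · exact k1 (by linear_combination e / 2)

/-- the derivative of `ff` -/
noncomputable def dff (l v : ℂ) : ℂ := JF l v 1 / (4 * Qf l v ^ 2)

theorem hasDerivAt_ff {l v : ℂ} (hQ : Qf l v ≠ 0) : HasDerivAt (ff l) (dff l v) v := by
  have hP : HasDerivAt (Pf l) (4 * v * (v ^ 2 - l)) v := by
    have h1 : HasDerivAt (fun z : ℂ => z ^ 2 - l) (2 * v) v := by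
      simpa using (hasDerivAt_pow 2 v).sub_const l
    have h2 : HasDerivAt (Pf l) _ v := h1.pow 2
    refine h2.congr_deriv ?_
    push_cast; ring
  have hQ' : HasDerivAt (Qf l) (4 * (3 * v ^ 2 - 2 * (1 + l) * v + l)) v := by
    have h1 : HasDerivAt (fun z : ℂ => 4 * z) 4 v := by
      simpa using (hasDerivAt_id v).const_mul 4
    have h2 : HasDerivAt (fun z : ℂ => z - 1) 1 v := (hasDerivAt_id v).sub_const 1
    have h3 : HasDerivAt (fun z : ℂ => z - l) 1 v := (hasDerivAt_id v).sub_const l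
    have h4 : HasDerivAt (Qf l) _ v := (h1.mul h2).mul h3
    refine h4.congr_deriv ?_
    simp only [Pi.mul_apply]
    ring
  have h5 : HasDerivAt (ff l) _ v := hP.div hQ' hQ
  refine h5.congr_deriv ?_
  unfold dff
  rw [div_eq_div_iff (by simpa using hQ) (by simpa using hQ)]
  unfold JF Pf Qf
  ring

theorem dff_sq {l v : ℂ} (hQ : Qf l v ≠ 0) : dff l v ^ 2 * wd l v = 4 * wd l (ff l v) := by
  have h := JF_sq l v 1
  have hw : Wf l v 1 = wd l v := by simp [Wf, wd]
  rw [hw] at h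
  have h2 : Wf l ((v ^ 2 - l * 1 ^ 2) ^ 2) (4 * v * 1 * (v - 1) * (v - l * 1)) =
      Qf l v ^ 4 * wd l (ff l v) := by
    have : Pf l v = ff l v * Qf l v := by rw [ff, div_mul_cancel₀ _ hQ]
    have e1 : (v ^ 2 - l * 1 ^ 2) ^ 2 = ff l v * Qf l v := by rw [← this, Pf]; ring
    have e2 : (4 * v * 1 * (v - 1) * (v - l * 1)) = Qf l v := by rw [Qf]; ring
    rw [e1, e2, Wf, wd]
    ring
  rw [h2] at h
  unfold dff
  field_simp
  linear_combination h

end Pool.Agent.Helper881.Stab
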