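import Pool.Agent.Helper881.StabMass

open MeasureTheory Filter Topology Set MvPolynomial

namespace Pool.Agent.Helper881.Stab

/-- log of the ramification form in the chart -/
noncomputable def wfun (l : ℂ) (x : C3) : ℝ := Real.log ‖Wf l (x.1 * x.2.1) x.2.1‖
noncomputable def lfun (x : C3) : ℝ := Real.log (hnorm (kvec x))
noncomputable def gfun (x : C3) : ℝ := Real.log ‖JG x.2.2 1‖

theorem Wf_chart (l z u : ℂ) : Wf l (z * u) u = u ^ 4 * wd l z := by unfold Wf wd; ring

theorem logJac_Kp {l : ℂ} {x : C3} (hu : x.2.1 ≠ 0) (hw : wd l x.1 ≠ 0) (hw' : wd l (ff l x.1) ≠ 0)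
    (hG : JG x.2.2 1 ≠ 0) :
    logJac 4 (Hm l) (Kp x) = (Real.log 64 / 2 - Real.log 4) +
      (wfun l (Tc l x) - wfun l x) / 2 + gfun x + 4 * (lfun x - lfun (Tc l x)) := by
  obtain ⟨z, u, y⟩ := x
  simp only at hu hw hw' hG
  have hQ : Qf l z ≠ 0 := by rw [Qf_eq]; simpa using hw
  have hlin : lin (Hm l) (kvec (z, u, y)) = kvec (Tc l (z, u, y)) := lin_kvec hQ
  rw [Kp, logJac_mk (by norm_num) (Hm_homog l)]
  unfold jacFS
  have hJ : jacDet (Hm l) (kvec (z, u, y)) = JF l (z * u) u * JG y 1 := by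
    rw [jacDet_Hm]; rfl
  rw [hJ, hlin]
  have hJF := JF_sq l (z * u) u
  have e0 : (z * u) ^ 2 - l * u ^ 2 = (z * u) ^ 2 - l * u ^ 2 := rfl
  have c0 : ((z * u) ^ 2 - l * u ^ 2) ^ 2 = ff l z * (u ^ 4 * Qf l z) := by
    have := congrFun hlin 0
    rw [lin_Hm] at this
    exact this
  have c1 : 4 * (z * u) * u * (z * u - u) * (z * u - l * u) = u ^ 4 * Qf l z := by
    have := congrFun hlin 1
    rw [lin_Hm] at this
    exact this
  rw [c0, c1] at hJF
  have hW1 : Wf l (z * u) u ≠ 0 := by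
    rw [Wf_chart]; exact mul_ne_zero (pow_ne_zero _ hu) hw
  have hW2 : Wf l (ff l z * (u ^ 4 * Qf l z)) (u ^ 4 * Qf l z) ≠ 0 := by
    rw [Wf_chart]
    exact mul_ne_zero (pow_ne_zero _ (mul_ne_zero (pow_ne_zero _ hu) hQ)) hw'
  have hJne : JF l (z * u) u ≠ 0 := by
    intro h
    rw [h] at hJF
    apply hW2
    have : (64 : ℂ) * Wf l (ff l z * (u ^ 4 * Qf l z)) (u ^ 4 * Qf l z) = 0 := by
      rw [← hJF]; ring
    exact (mul_eq_zero.mp this).resolve_left (by norm_num)
  have hlog : 2 * Real.log ‖JF l (z * u) u‖ + Real.log ‖Wf l (z * u) u‖ =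
      Real.log 64 + Real.log ‖Wf l (ff l z * (u ^ 4 * Qf l z)) (u ^ 4 * Qf l z)‖ := by
    have h := congrArg norm hJF
    rw [norm_mul, norm_mul, norm_pow] at h
    have h2 := congrArg Real.log h
    rw [Real.log_mul (by simpa using hJne) (by simpa using hW1),
      Real.log_mul (by norm_num) (by simpa using hW2), Real.log_pow] at h2
    have h64 : ‖(64 : ℂ)‖ = 64 := by norm_num
    rw [h64] at h2
    push_cast at h2
    exact h2
  have n1 := hnorm_pos (kvec_ne_zero (z, u, y))
  have n2 := hnorm_pos (kvec_ne_zero (Tc l (z, u, y)))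
  have m1 : ‖JF l (z * u) u * JG y 1‖ ≠ 0 := by
    rw [norm_ne_zero_iff]; exact mul_ne_zero hJne hG
  rw [Real.log_div (mul_ne_zero m1 (by positivity)) (by positivity),
    Real.log_mul m1 (by positivity), Real.log_mul (by norm_num) (by positivity), norm_mul,
    Real.log_mul (by simpa using hJne) (by simpa using hG), Real.log_pow, Real.log_pow]
  simp only [wfun, lfun, gfun, Tc]
  push_cast
  linarith

variable {l : ℂ} (D : Dat l)

theorem measurable_wfun (l : ℂ) : Measurable (wfun l) := by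
  unfold wfun Wf
  have h0 : Measurable fun x : C3 => x.1 * x.2.1 := measurable_fst.mul measurable_snd.fst
  have h1 : Measurable fun x : C3 => x.2.1 := measurable_snd.fst
  exact Real.measurable_log.comp (((h0.mul h1).mul (h0.sub h1)).mul
    (h0.sub (h1.const_mul l))).norm

theorem measurable_lfun : Measurable lfun := by
  unfold lfun
  refine Real.measurable_log.comp ?_
  unfold hnorm
  refine Measurable.sqrt ?_
  refine Finset.measurable_sum _ fun i _ => ?_
  exact ((measurable_pi_apply i).comp measurable_kvec).norm.pow_const 2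

theorem measurable_gfun : Measurable gfun := by
  unfold gfun JG
  have h1 : Measurable fun x : C3 => x.2.2 := measurable_snd.snd
  exact Real.measurable_log.comp (((h1.const_mul 16).mul ((h1.pow_const 2).sub_const _)).mul_const _).norm

theorem wfun_PsiC {x : XX} (hx : wd l x.1 ≠ 0) : wfun l (PsiC D x) =
    4 * (-D.h x.1 - Real.log (Nz x.1)) + Real.log ‖wd l x.1‖ := by
  have hr := rad_pos D.h x.1
  have hN := Nz_pos x.1
  show Real.log ‖Wf l (x.1 * (rad D.h x.1 * ee x.2.1)) (rad D.h x.1 * ee x.2.1)‖ = _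
  rw [Wf_chart, norm_mul, norm_pow, norm_mul, norm_ee, mul_one, Complex.norm_real,
    Real.norm_of_nonneg hr.le, Real.log_mul (by positivity) (by simpa using hx), Real.log_pow, rad,
    Real.log_div (Real.exp_pos _).ne' hN.ne', Real.log_exp]
  push_cast
  ring

theorem integrable_wfun (h0 : l ≠ 0) (h1 : l ≠ 1) :
    Integrable (fun x => wfun l (PsiC D x)) (mX l) := by
  have hprob := muL_prob h0 h1
  have hpv : IsProbabilityMeasure (volume : Measure UnitAddCircle) := ⟨UnitAddCircle.measure_univ⟩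
  have i1 : Integrable (fun z => 4 * (-D.h z - Real.log (Nz z)) + Real.log ‖wd l z‖) (muL l) := by
    have ih : Integrable D.h (muL l) := by
      refine Integrable.mono' (integrable_const D.C) D.hm.aestronglyMeasurable
        (Eventually.of_forall fun z => ?_)
      rw [Real.norm_eq_abs]; exact D.hb z
    exact ((ih.neg.sub (integrable_muL_log_Nz h0 h1)).const_mul 4).add
      (integrable_muL_log_wd h0 h1)
  have i2 : Integrable (fun x : XX => 4 * (-D.h x.1 - Real.log (Nz x.1)) + Real.log ‖wd l x.1‖)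
      (mX l) := by
    unfold mX
    exact i1.comp_fst _
  refine i2.congr ?_
  filter_upwards [ae_wd h0 h1] with x hx
  exact (wfun_PsiC D hx).symm

theorem hnorm_kvec_PsiC (x : XX) : 1 ≤ hnorm (kvec (PsiC D x)) ∧
    hnorm (kvec (PsiC D x)) ≤ Real.sqrt (2 * Real.exp D.C ^ 2 + 10) := by
  have hr := rad_pos D.h x.1
  have hN := Nz_pos x.1
  have hN1 := one_le_Nz x.1
  have e : ∑ i, ‖kvec (PsiC D x) i‖ ^ 2 =
      (‖x.1‖ * rad D.h x.1) ^ 2 + rad D.h x.1 ^ 2 + D.c x.2.2 ^ 2 + 1 := by
    rw [Fin.sum_univ_four]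
    have k0 : kvec (PsiC D x) 0 = x.1 * (rad D.h x.1 * ee x.2.1) := rfl
    have k1 : kvec (PsiC D x) 1 = rad D.h x.1 * ee x.2.1 := rfl
    have k2 : kvec (PsiC D x) 2 = D.c x.2.2 := rfl
    have k3 : kvec (PsiC D x) 3 = 1 := rfl
    rw [k0, k1, k2, k3, norm_mul, norm_mul, norm_ee, mul_one, Complex.norm_real,
      Real.norm_of_nonneg hr.le, Complex.norm_real, Real.norm_eq_abs, sq_abs, norm_one, one_pow]
  have hc : D.c x.2.2 ^ 2 ≤ 9 := by
    have := D.c3 x.2.2
    nlinarith [abs_le.mp this, abs_nonneg (D.c x.2.2), sq_abs (D.c x.2.2)]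
  have hexp : Real.exp (-D.h x.1) ≤ Real.exp D.C := by
    apply Real.exp_le_exp.mpr
    linarith [(abs_le.mp (D.hb x.1)).1]
  have hr1 : rad D.h x.1 ≤ Real.exp D.C := by
    rw [rad, div_le_iff₀ hN]
    have := Real.exp_pos D.C
    nlinarith [Real.exp_pos (-D.h x.1)]
  have hr2 : ‖x.1‖ * rad D.h x.1 ≤ Real.exp D.C := by
    rw [rad, mul_div_assoc', div_le_iff₀ hN]
    have h3 : ‖x.1‖ ≤ Nz x.1 := le_max_left _ _
    have := Real.exp_pos D.C
    calc ‖x.1‖ * Real.exp (-D.h x.1) ≤ Nz x.1 * Real.exp D.C :=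
          mul_le_mul h3 hexp (Real.exp_pos _).le hN.le
      _ = _ := mul_comm _ _
  unfold hnorm
  rw [e]
  constructor
  · rw [Real.one_le_sqrt]
    have := sq_nonneg (D.c x.2.2)
    nlinarith [sq_nonneg (‖x.1‖ * rad D.h x.1), sq_nonneg (rad D.h x.1)]
  · apply Real.sqrt_le_sqrt
    have a1 : (‖x.1‖ * rad D.h x.1) ^ 2 ≤ Real.exp D.C ^ 2 :=
      pow_le_pow_left₀ (mul_nonneg (norm_nonneg _) hr.le) hr2 2
    have a2 : rad D.h x.1 ^ 2 ≤ Real.exp D.C ^ 2 := pow_le_pow_left₀ hr.le hr1 2
    linarith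

theorem integrable_lfun (h0 : l ≠ 0) (h1 : l ≠ 1) :
    Integrable (fun x => lfun (PsiC D x)) (mX l) := by
  have hprob := muL_prob h0 h1
  have hpv : IsProbabilityMeasure (volume : Measure UnitAddCircle) := ⟨UnitAddCircle.measure_univ⟩
  have : IsProbabilityMeasure (mX l) := by unfold mX; infer_instance
  refine Integrable.mono' (integrable_const (Real.log (Real.sqrt (2 * Real.exp D.C ^ 2 + 10))))
    (measurable_lfun.comp (measurable_PsiC D)).aestronglyMeasurable (Eventually.of_forall fun x => ?_)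
  obtain ⟨a1, a2⟩ := hnorm_kvec_PsiC D x
  rw [lfun, Real.norm_of_nonneg (Real.log_nonneg a1)]
  exact Real.log_le_log (by linarith) a2

theorem JG_c (x : XX) : 1 ≤ ‖JG (PsiC D x).2.2 1‖ ∧ ‖JG (PsiC D x).2.2 1‖ ≤ 1000 := by
  have e : JG (PsiC D x).2.2 1 = ((16 * D.c x.2.2 * D.c (2 • x.2.2) : ℝ) : ℂ) := by
    have h2 := D.c2 x.2.2
    have h2' : ((D.c x.2.2 : ℝ) : ℂ) ^ 2 = 6 + D.c (2 • x.2.2) := by exact_mod_cast h2
    show 16 * (D.c x.2.2 : ℂ) * ((D.c x.2.2 : ℂ) ^ 2 - 6 * 1 ^ 2) * 1 ^ 3 = _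
    rw [h2']; push_cast; ring
  rw [e, Complex.norm_real, Real.norm_eq_abs, abs_mul, abs_mul, abs_of_pos (show (0:ℝ) < 16 by norm_num)]
  have key : ∀ t, 1 ≤ |D.c t| := by
    intro t
    have h2 := D.c2 t
    have h3 := (abs_le.mp (D.c3 (2 • t))).1
    have h4 : 1 ≤ |D.c t| ^ 2 := by rw [sq_abs, h2]; linarith
    nlinarith [abs_nonneg (D.c t)]
  have k1 := key x.2.2
  have k2 := key (2 • x.2.2)
  have k3 := D.c3 x.2.2
  have k4 := D.c3 (2 • x.2.2)
  constructor
  · nlinarith
  · have : |D.c x.2.2| * |D.c (2 • x.2.2)| ≤ 9 := by nlinarith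
    nlinarith

theorem integrable_gfun (h0 : l ≠ 0) (h1 : l ≠ 1) :
    Integrable (fun x => gfun (PsiC D x)) (mX l) := by
  have hprob := muL_prob h0 h1
  have hpv : IsProbabilityMeasure (volume : Measure UnitAddCircle) := ⟨UnitAddCircle.measure_univ⟩
  have : IsProbabilityMeasure (mX l) := by unfold mX; infer_instance
  refine Integrable.mono' (integrable_const (Real.log 1000))
    (measurable_gfun.comp (measurable_PsiC D)).aestronglyMeasurable (Eventually.of_forall fun x => ?_)
  obtain ⟨a1, a2⟩ := JG_c D x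
  rw [gfun, Real.norm_of_nonneg (Real.log_nonneg a1)]
  exact Real.log_le_log (by linarith) a2

theorem int_gfun (h0 : l ≠ 0) (h1 : l ≠ 1) :
    ∫ x, gfun (PsiC D x) ∂(mX l) = ∫ t : UnitAddCircle, Real.log ‖JG (D.c t) 1‖ := by
  have hprob := muL_prob h0 h1
  have hpv : IsProbabilityMeasure (volume : Measure UnitAddCircle) := ⟨UnitAddCircle.measure_univ⟩
  unfold mX
  have e1 := integral_fun_snd (μ := muL l) (ν := (volume : Measure UnitAddCircle).prod volume)
    (fun y : UnitAddCircle × UnitAddCircle => Real.log ‖JG (D.c y.2) 1‖)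
  have e2 := integral_fun_snd (μ := (volume : Measure UnitAddCircle))
    (ν := (volume : Measure UnitAddCircle)) (fun t : UnitAddCircle => Real.log ‖JG (D.c t) 1‖)
  rw [e2] at e1
  simpa [gfun, PsiC] using e1

theorem ae_wd_ff (h0 : l ≠ 0) (h1 : l ≠ 1) : ∀ᵐ x ∂(mX l), wd l (ff l x.1) ≠ 0 := by
  have := muL_prob h0 h1
  have h : ∀ᵐ z ∂(muL l), wd l (ff l z) ≠ 0 := (muL_ac l).ae_le (wd_ff_ne_ae l)
  unfold mX
  exact Measure.quasiMeasurePreserving_fst.ae h

theorem ae_formula (h0 : l ≠ 0) (h1 : l ≠ 1) : ∀ᵐ p ∂(muP D),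
    logJac 4 (Hm l) p = (Real.log 64 / 2 - Real.log 4) +
      (wfun l (co (projMap (Hm l) p)) - wfun l (co p)) / 2 + gfun (co p) +
      4 * (lfun (co p) - lfun (co (projMap (Hm l) p))) := by
  have hset : MeasurableSet {p : PSpace 3 | Good l (co p) ∧ wd l (ff l (co p).1) ≠ 0 ∧
      JG (co p).2.2 1 ≠ 0} := by
    have m1 : MeasurableSet {p : PSpace 3 | Good l (co p)} := measurable_co (measurableSet_good l)
    have m2 : MeasurableSet {p : PSpace 3 | wd l (ff l (co p).1) ≠ 0} :=
      (measurableSet_eq_fun ((measurable_wd l).comp ((measurable_ff l).comp measurable_co.fst))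
        measurable_const).compl
    have m3 : MeasurableSet {p : PSpace 3 | JG (co p).2.2 1 ≠ 0} := by
      have h1 : Measurable fun p : PSpace 3 => (co p).2.2 := measurable_co.snd.snd
      have : Measurable fun p : PSpace 3 => JG (co p).2.2 1 := by
        unfold JG
        exact ((h1.const_mul 16).mul ((h1.pow_const 2).sub_const _)).mul_const _
      exact (measurableSet_eq_fun this measurable_const).compl
    exact m1.inter (m2.inter m3)
  have hae : ∀ᵐ p ∂(muP D), Good l (co p) ∧ wd l (ff l (co p).1) ≠ 0 ∧ JG (co p).2.2 1 ≠ 0 := by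
    unfold muP
    rw [ae_map_iff (measurable_KPsi D).aemeasurable hset]
    filter_upwards [ae_wd h0 h1, ae_wd_ff h0 h1] with x hx hx'
    rw [co_Kp _ (PsiC_ne D x)]
    refine ⟨good_PsiC D x hx, hx', ?_⟩
    intro h
    have := (JG_c D x).1
    rw [h] at this
    simp at this
    linarith
  filter_upwards [hae] with p hp
  obtain ⟨⟨g1, g2, g3, g4, g5⟩, hp2, hp3⟩ := hp
  have hQ : Qf l (co p).1 ≠ 0 := by rw [Qf_eq]; simpa using g1
  have hp0 : Kp (co p) = p := Kp_co g2
  have hT : (Tc l (co p)).2.1 ≠ 0 := mul_ne_zero (pow_ne_zero _ g2) hQ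
  have e : co (projMap (Hm l) p) = Tc l (co p) := by
    have h2 := projMap_Kp h0 h1 hQ
    rw [hp0] at h2
    rw [h2, co_Kp _ hT]
  rw [e]
  have := logJac_Kp g2 g1 hp2 hp3
  rwa [hp0] at this

/-- the value of the sum of Lyapunov exponents -/
noncomputable def LConst (c : UnitAddCircle → ℝ) : ℝ :=
  (Real.log 64 / 2 - Real.log 4) + ∫ t : UnitAddCircle, Real.log ‖JG (c t) 1‖

theorem integral_comp_mp {Y : Type*} [MeasurableSpace Y] {μ : Measure Y} {f : Y → Y}
    (hf : MeasurePreserving f μ μ) {g : Y → ℝ} (hg : AEStronglyMeasurable g μ) :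
    ∫ y, g (f y) ∂μ = ∫ y, g y ∂μ := by
  have h := integral_map (φ := f) hf.measurable.aemeasurable (f := g) (by rw [hf.map_eq]; exact hg)
  rw [hf.map_eq] at h
  exact h.symm

theorem lyap (h0 : l ≠ 0) (h1 : l ≠ 1) : Integrable (logJac 4 (Hm l)) (muP D) ∧
    ∫ p, logJac 4 (Hm l) p ∂(muP D) = LConst D.c := by
  have hprob := muP_prob D h0 h1
  have hmp := muP_invariant D h0 h1
  have tr : ∀ g : C3 → ℝ, Measurable g → Integrable (fun x => g (PsiC D x)) (mX l) →
      Integrable (fun p => g (co p)) (muP D) := by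
    intro g hg hi
    unfold muP
    have hgc : Measurable fun p => g (co p) := hg.comp measurable_co
    rw [integrable_map_measure hgc.aestronglyMeasurable
      (measurable_KPsi D).aemeasurable]
    refine hi.congr (Eventually.of_forall fun x => ?_)
    simp only [Function.comp_apply]
    rw [co_Kp _ (PsiC_ne D x)]
  have tri : ∀ g : C3 → ℝ, Measurable g →
      ∫ p, g (co p) ∂(muP D) = ∫ x, g (PsiC D x) ∂(mX l) := by
    intro g hg
    unfold muP
    have hgc : Measurable fun p => g (co p) := hg.comp measurable_co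
    rw [integral_map (measurable_KPsi D).aemeasurable hgc.aestronglyMeasurable]
    refine integral_congr_ae (Eventually.of_forall fun x => ?_)
    simp only
    rw [co_Kp _ (PsiC_ne D x)]
  have iw := tr (wfun l) (measurable_wfun l) (integrable_wfun D h0 h1)
  have il := tr lfun measurable_lfun (integrable_lfun D h0 h1)
  have ig := tr gfun measurable_gfun (integrable_gfun D h0 h1)
  have iw' : Integrable (fun p => wfun l (co (projMap (Hm l) p))) (muP D) :=
    hmp.integrable_comp_of_integrable iw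
  have il' : Integrable (fun p => lfun (co (projMap (Hm l) p))) (muP D) :=
    hmp.integrable_comp_of_integrable il
  have ik : Integrable (fun _ : PSpace 3 => (Real.log 64 / 2 - Real.log 4)) (muP D) :=
    integrable_const _
  have i1 : Integrable (fun p => (wfun l (co (projMap (Hm l) p)) - wfun l (co p)) / 2) (muP D) :=
    (iw'.sub iw).div_const 2
  have i2 : Integrable (fun p => 4 * (lfun (co p) - lfun (co (projMap (Hm l) p)))) (muP D) :=
    (il.sub il').const_mul 4
  have i3 : Integrable (fun p => (Real.log 64 / 2 - Real.log 4) +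
      (wfun l (co (projMap (Hm l) p)) - wfun l (co p)) / 2) (muP D) := ik.add i1
  have i4 : Integrable (fun p => (Real.log 64 / 2 - Real.log 4) +
      (wfun l (co (projMap (Hm l) p)) - wfun l (co p)) / 2 + gfun (co p)) (muP D) := i3.add ig
  have itot : Integrable (fun p => (Real.log 64 / 2 - Real.log 4) +
      (wfun l (co (projMap (Hm l) p)) - wfun l (co p)) / 2 + gfun (co p) +
      4 * (lfun (co p) - lfun (co (projMap (Hm l) p)))) (muP D) :=
    i4.add i2
  have hform := ae_formula D h0 h1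
  refine ⟨itot.congr (by filter_upwards [hform] with p hp; exact hp.symm), ?_⟩
  rw [integral_congr_ae hform, integral_add i4 i2, integral_add i3 ig,
    integral_add ik i1, integral_const, integral_div, integral_sub iw' iw, integral_const_mul,
    integral_sub il il', integral_comp_mp hmp iw.aestronglyMeasurable,
    integral_comp_mp hmp il.aestronglyMeasurable, tri gfun measurable_gfun, int_gfun D h0 h1]
  simp [LConst]

end Pool.Agent.Helper881.Stab
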