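import Pool.Agent.Helper881.StabFib

open MeasureTheory Filter Topology Set MvPolynomial

namespace Pool.Agent.Helper881.Stab

theorem poly_aeval_eval {σ : Type*} (q : σ → Polynomial ℂ) (P : MvPolynomial σ ℂ) (t : ℂ) :
    Polynomial.eval t (MvPolynomial.aeval q P) =
      MvPolynomial.eval (fun i => Polynomial.eval t (q i)) P := by
  induction P using MvPolynomial.induction_on with
  | C a => simp
  | add p q hp hq => simp [hp, hq]
  | mul_X p i hp => simp [hp]

theorem finite_zeros {σ : Type*} (q : σ → Polynomial ℂ) (P : MvPolynomial σ ℂ) (t0 : ℂ)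
    (h : MvPolynomial.eval (fun i => Polynomial.eval t0 (q i)) P ≠ 0) :
    {t : ℂ | MvPolynomial.eval (fun i => Polynomial.eval t (q i)) P = 0}.Finite := by
  set p := MvPolynomial.aeval q P with hp
  have hp0 : p ≠ 0 := by
    intro h0
    apply h
    rw [← poly_aeval_eval, ← hp, h0, Polynomial.eval_zero]
  refine (p.rootSet_finite ℂ).subset fun t ht => ?_
  rw [Polynomial.mem_rootSet]
  refine ⟨hp0, ?_⟩
  have h1 : Polynomial.eval t p = 0 := by
    rw [hp, poly_aeval_eval]; exact ht
  simpa using h1

theorem exists_kvec_ne {P : MvPolynomial (Fin 4) ℂ} {k : ℕ} (hP : P.IsHomogeneous k) (h0 : P ≠ 0) :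
    ∃ x : C3, eval (kvec x) P ≠ 0 := by
  by_contra hcon
  push Not at hcon
  have h1 : P * X 1 * X 3 ≠ 0 := mul_ne_zero (mul_ne_zero h0 (X_ne_zero 1)) (X_ne_zero 3)
  apply h1
  apply MvPolynomial.funext
  intro v
  rw [map_zero, map_mul, map_mul, eval_X, eval_X]
  by_cases hv1 : v 1 = 0
  · rw [hv1]; ring
  by_cases hv3 : v 3 = 0
  · rw [hv3]; ring
  have h2 := hcon (v 0 / v 1, v 1 / v 3, v 2 / v 3)
  have h3 : kvec (v 0 / v 1, v 1 / v 3, v 2 / v 3) = (v 3)⁻¹ • v := by
    funext i
    fin_cases i
    · simp [kvec]; field_simp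
    · simp [kvec]; field_simp
    · simp [kvec]; field_simp
    · simp [kvec, hv3]
  rw [h3, eval_smul_hom hP] at h2
  have h4 : eval v P = 0 := (mul_eq_zero.mp h2).resolve_left (pow_ne_zero _ (inv_ne_zero hv3))
  rw [h4]; ring

theorem c_fibre_null {c : UnitAddCircle → ℝ} (cm : Measurable c) (c3 : ∀ t, |c t| ≤ 3)
    (c2 : ∀ t, c t ^ 2 = 6 + c (2 • t)) (ch : ∀ t, c (t + half) = -c t) (a : ℝ) :
    volume {t | c t = a} = 0 := by
  have hp : IsProbabilityMeasure (volume : Measure UnitAddCircle) := ⟨UnitAddCircle.measure_univ⟩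
  have hms : ∀ a : ℝ, MeasurableSet {t | c t = a} := fun a => cm (measurableSet_singleton a)
  have step : ∀ a : ℝ, 2 * volume {t | c t = a} ≤ volume {t | c t = a ^ 2 - 6} := by
    intro a
    by_cases ha : a = 0
    · have : {t | c t = a} = ∅ := by
        ext t
        simp only [mem_ofPred_eq, mem_empty_iff_false, iff_false]
        intro h
        have h2 := c2 t
        rw [h, ha] at h2
        have := abs_le.mp (c3 (2 • t))
        nlinarith [this.1]
      rw [this, measure_empty, mul_zero]
      exact zero_le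
    · have e1 : volume {t | c t = -a} = volume {t | c t = a} := by
        have : {t | c t = a} = (fun t => t + half) ⁻¹' {t | c t = -a} := by
          ext t
          simp only [mem_ofPred_eq, mem_preimage, ch]
          constructor
          · intro h; rw [h]
          · intro h; linarith
        rw [this]
        exact ((measurePreserving_add_right volume half).measure_preimage
          (hms (-a)).nullMeasurableSet).symm
      have hdisj : Disjoint {t | c t = a} {t | c t = -a} := by
        rw [Set.disjoint_left]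
        intro t h1 h2
        have h1' : c t = a := h1
        have h2' : c t = -a := h2
        exact ha (by linarith)
      have hsub : {t | c t = a} ∪ {t | c t = -a} ⊆ (fun t => 2 • t) ⁻¹' {t | c t = a ^ 2 - 6} := by
        intro t ht
        show c (2 • t) = a ^ 2 - 6
        have h2 := c2 t
        rcases ht with h | h
        · have h' : c t = a := h
          rw [h'] at h2; linarith
        · have h' : c t = -a := h
          rw [h'] at h2; nlinarith
      calc 2 * volume {t | c t = a} = volume {t | c t = a} + volume {t | c t = -a} := by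
            rw [e1, two_mul]
        _ = volume ({t | c t = a} ∪ {t | c t = -a}) := (measure_union hdisj (hms _)).symm
        _ ≤ volume ((fun t : UnitAddCircle => 2 • t) ⁻¹' {t | c t = a ^ 2 - 6}) :=
            measure_mono hsub
        _ = volume {t | c t = a ^ 2 - 6} :=
            (AddCircle.ergodic_nsmul (T := 1) (n := 2)
              (by norm_num)).toMeasurePreserving.measure_preimage (hms _).nullMeasurableSet
  have key : ∀ n : ℕ, ∀ a : ℝ, volume {t | c t = a} ≤ (2⁻¹ : ENNReal) ^ n := by
    intro n
    induction n with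
    | zero => intro a; rw [pow_zero]; exact prob_le_one
    | succ n ih =>
      intro a
      have h1 := (step a).trans (ih (a ^ 2 - 6))
      rw [pow_succ', ← ENNReal.div_eq_inv_mul, ENNReal.le_div_iff_mul_le (by norm_num) (by norm_num),
        mul_comm]
      exact h1
  have hlim : Tendsto (fun n : ℕ => (2⁻¹ : ENNReal) ^ n) atTop (𝓝 0) :=
    ENNReal.tendsto_pow_atTop_nhds_zero_of_lt_one (by norm_num)
  exact le_antisymm (ge_of_tendsto' hlim fun n => key n a) zero_le

theorem circle_null : NullSingletonClass (volume : Measure UnitAddCircle) := by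
  refine ⟨fun x => ?_⟩
  have h := AddCircle.volume_closedBall (T := 1) (x := x) 0
  rw [Metric.closedBall_zero] at h
  rw [h]
  simp

variable {l : ℂ} (D : Dat l)

theorem ae_eval_ne (h0 : l ≠ 0) (h1 : l ≠ 1) {P : MvPolynomial (Fin 4) ℂ} {k : ℕ}
    (hP : P.IsHomogeneous k) (hP0 : P ≠ 0) : ∀ᵐ x ∂(mX l), eval (kvec (PsiC D x)) P ≠ 0 := by
  have hprob := muL_prob h0 h1
  have hpv : IsProbabilityMeasure (volume : Measure UnitAddCircle) := ⟨UnitAddCircle.measure_univ⟩
  have hna : NullSingletonClass (volume : Measure UnitAddCircle) := circle_null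
  obtain ⟨⟨z0, u0, y0⟩, hx0⟩ := exists_kvec_ne hP hP0
  have hmeas : Measurable fun x : XX => eval (kvec (PsiC D x)) P :=
    (MvPolynomial.continuous_eval P).measurable.comp (measurable_kvec.comp (measurable_PsiC D))
  have hset : MeasurableSet {x : XX | eval (kvec (PsiC D x)) P = 0} :=
    measurableSet_eq_fun hmeas measurable_const
  -- step 1
  have s1 : ∀ᵐ z ∂(muL l), eval (kvec (z, u0, y0)) P ≠ 0 := by
    have hfin := finite_zeros (![Polynomial.X * Polynomial.C u0, Polynomial.C u0, Polynomial.C y0, 1])
      P z0 (by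
        have e : (fun i => Polynomial.eval z0 ((![Polynomial.X * Polynomial.C u0, Polynomial.C u0,
          Polynomial.C y0, 1] : Fin 4 → Polynomial ℂ) i)) = kvec (z0, u0, y0) := by
          funext i
          fin_cases i <;> simp [kvec] <;> ring
        rw [e]; exact hx0)
    have h2 : ∀ᵐ z : ℂ, z ∉ {t : ℂ | MvPolynomial.eval (fun i => Polynomial.eval t
      ((![Polynomial.X * Polynomial.C u0, Polynomial.C u0, Polynomial.C y0, 1] :
        Fin 4 → Polynomial ℂ) i)) P = 0} :=
      measure_eq_zero_iff_ae_notMem.mp (hfin.measure_zero volume)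
    have h3 := (muL_ac l).ae_le h2
    filter_upwards [h3] with z hz hz2
    apply hz
    show MvPolynomial.eval _ P = 0
    rw [← hz2]
    congr 2
    funext i
    fin_cases i <;> simp [kvec] <;> ring
  have s2 : ∀ z : ℂ, eval (kvec (z, u0, y0)) P ≠ 0 →
      ∀ᵐ s : UnitAddCircle, eval (kvec (z, rad D.h z * ee s, y0)) P ≠ 0 := by
    intro z hz
    have hfin := finite_zeros (![Polynomial.C z * Polynomial.X, Polynomial.X, Polynomial.C y0, 1])
      P u0 (by
        have e : (fun i => Polynomial.eval u0 ((![Polynomial.C z * Polynomial.X, Polynomial.X,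
          Polynomial.C y0, 1] : Fin 4 → Polynomial ℂ) i)) = kvec (z, u0, y0) := by
          funext i
          fin_cases i <;> simp [kvec] <;> ring
        rw [e]; exact hz)
    have hinj : Function.Injective fun s : UnitAddCircle => (rad D.h z : ℂ) * ee s := by
      intro s t hst
      have hr : (rad D.h z : ℂ) ≠ 0 := by exact_mod_cast (rad_pos D.h z).ne'
      exact ee_injective (mul_left_cancel₀ hr hst)
    have hfin2 := hfin.preimage hinj.injOn
    have h2 := measure_eq_zero_iff_ae_notMem.mp (hfin2.measure_zero (volume : Measure UnitAddCircle))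
    filter_upwards [h2] with s hs hs2
    apply hs
    show MvPolynomial.eval _ P = 0
    rw [← hs2]
    congr 2
    funext i
    fin_cases i <;> simp [kvec]
  have s3 : ∀ z u : ℂ, eval (kvec (z, u, y0)) P ≠ 0 →
      ∀ᵐ t : UnitAddCircle, eval (kvec (z, u, D.c t)) P ≠ 0 := by
    intro z u hz
    have hfin := finite_zeros (![Polynomial.C (z * u), Polynomial.C u, Polynomial.X, 1])
      P y0 (by
        have e : (fun i => Polynomial.eval y0 ((![Polynomial.C (z * u), Polynomial.C u,
          Polynomial.X, 1] : Fin 4 → Polynomial ℂ) i)) = kvec (z, u, y0) := by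
          funext i
          fin_cases i <;> simp [kvec]
        rw [e]; exact hz)
    set S := {t : ℂ | MvPolynomial.eval (fun i => Polynomial.eval t
      ((![Polynomial.C (z * u), Polynomial.C u, Polynomial.X, 1] :
        Fin 4 → Polynomial ℂ) i)) P = 0} with hS
    have hnull : volume {t : UnitAddCircle | (D.c t : ℂ) ∈ S} = 0 := by
      have e : {t : UnitAddCircle | (D.c t : ℂ) ∈ S} = ⋃ y ∈ S, {t | (D.c t : ℂ) = y} := by
        ext t; simp
      rw [e, measure_biUnion_null_iff hfin.countable]
      intro y _
      by_cases hy : ∃ a : ℝ, (a : ℂ) = y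
      · obtain ⟨a, rfl⟩ := hy
        have := c_fibre_null D.cm D.c3 D.c2 D.ch a
        simpa using this
      · have : {t | (D.c t : ℂ) = y} = ∅ := by
          ext t
          simp only [mem_ofPred_eq, mem_empty_iff_false, iff_false]
          exact fun h => hy ⟨_, h⟩
        rw [this, measure_empty]
    have h2 := measure_eq_zero_iff_ae_notMem.mp hnull
    filter_upwards [h2] with t ht ht2
    apply ht
    show MvPolynomial.eval _ P = 0
    rw [← ht2]
    congr 2
    funext i
    fin_cases i <;> simp [kvec]
  -- assembling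
  rw [ae_iff]
  simp only [not_not]
  unfold mX
  rw [Measure.measure_prod_null hset]
  filter_upwards [s1] with z hz
  show (volume.prod volume) (Prod.mk z ⁻¹' {x : XX | eval (kvec (PsiC D x)) P = 0}) = 0
  rw [Measure.measure_prod_null (measurable_prodMk_left hset)]
  filter_upwards [s2 z hz] with s hs
  have h3 := s3 z _ hs
  rw [ae_iff] at h3
  simp only [not_not] at h3
  exact h3

theorem muP_noMass (h0 : l ≠ 0) (h1 : l ≠ 1) (Z : Set (PSpace 3)) (hZ : IsAlgebraicSet Z)
    (hne : Z ≠ univ) : muP D Z = 0 := by
  obtain ⟨S, hS, rfl⟩ := hZ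
  have hex : ∃ P ∈ S, P ≠ 0 := by
    by_contra hcon
    push Not at hcon
    apply hne
    ext p
    simp only [mem_ofPred_eq, mem_univ, iff_true]
    intro P hP
    rw [hcon P hP, map_zero]
  obtain ⟨P, hPS, hP0⟩ := hex
  obtain ⟨k, hk⟩ := hS P hPS
  have hsub : {p : PSpace 3 | ∀ P ∈ S, eval p.rep P = 0} ⊆ {p | eval p.rep P = 0} :=
    fun p hp => hp P hPS
  refine measure_mono_null hsub ?_
  have hset : MeasurableSet {p : PSpace 3 | eval p.rep P = 0} := by
    show MeasurableSet (Projectivization.mk' ℂ ⁻¹' {p : PSpace 3 | eval p.rep P = 0})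
    have : Projectivization.mk' ℂ ⁻¹' {p : PSpace 3 | eval p.rep P = 0} =
        {v : {v : Vec 3 // v ≠ 0} | eval v.1 P = 0} := by
      ext v
      exact eval_rep_mk hk v.1 v.2
    rw [this]
    exact measurableSet_eq_fun ((MvPolynomial.continuous_eval P).measurable.comp
      measurable_subtype_coe) measurable_const
  unfold muP
  rw [Measure.map_apply (measurable_KPsi D) hset]
  have h2 := ae_eval_ne D h0 h1 hk hP0
  rw [ae_iff] at h2
  simp only [not_not] at h2
  convert h2 using 2
  ext x
  exact eval_rep_mk hk _ _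

theorem muP_equilibrium (h0 : l ≠ 0) (h1 : l ≠ 1) : IsEquilibrium 3 4 (Hm l) (muP D) := by
  refine ⟨muP_prob D h0 h1, muP_noMass D h0 h1, fun A hA hinj => ?_⟩
  rw [muP_jacobian D h0 h1 A hA hinj]
  norm_num

end Pool.Agent.Helper881.Stab
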