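import Pool.Agent.Helper881.StabGreen

open MeasureTheory Filter Topology Set MvPolynomial

namespace Pool.Agent.Helper881.Stab

/-- auxiliary functions used to build the equilibrium measure -/
structure Dat (l : ℂ) where
  h : ℂ → ℝ
  C : ℝ
  hm : Measurable h
  hb : ∀ z, |h z| ≤ C
  hr : ∀ v, Qf l v ≠ 0 → rad h (ff l v) = ‖Qf l v‖ * rad h v ^ 4
  c : UnitAddCircle → ℝ
  cm : Measurable c
  c3 : ∀ t, |c t| ≤ 3
  c2 : ∀ t, c t ^ 2 = 6 + c (2 • t)
  ch : ∀ t, c (t + half) = -c t

theorem exists_dat {l : ℂ} (h0 : l ≠ 0) (h1 : l ≠ 1) : Nonempty (Dat l) := by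
  obtain ⟨h, C, a1, a2, a3⟩ := exists_rad h0 h1
  obtain ⟨c, b1, b2, b3, b4⟩ := exists_c
  exact ⟨⟨h, C, a1, a2, a3, c, b1, b2, b3, b4⟩⟩

/-- abstract Jacobian lemma -/
theorem jacobian_of_sections {Y J : Type*} [MeasurableSpace Y] [Fintype J] (μ : Measure Y)
    (f : Y → Y) (S : J → Y → Y) (hS : ∀ j, Measurable (S j)) (K : ENNReal)
    (hsum : ∀ φ : Y → ENNReal, Measurable φ → ∑ j, ∫⁻ p, φ (S j p) ∂μ = K * ∫⁻ p, φ p ∂μ)
    (hfib : ∀ᵐ p ∂μ, (∀ j, f (S j p) = p) ∧ (Function.Injective fun j => S j p) ∧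
      ∀ q, f q = p → ∃ j, S j p = q)
    (A : Set Y) (hA : MeasurableSet A) (hinj : InjOn f A) : μ (f '' A) = K * μ A := by
  classical
  have e1 : (f '' A) =ᵐ[μ] (⋃ j, S j ⁻¹' A : Set Y) := by
    filter_upwards [hfib] with p hp
    obtain ⟨p1, p2, p3⟩ := hp
    apply propext
    constructor
    · rintro ⟨q, hq, rfl⟩
      obtain ⟨j, hj⟩ := p3 q rfl
      exact mem_iUnion.mpr ⟨j, by show S j (f q) ∈ A; rw [hj]; exact hq⟩
    · intro h
      obtain ⟨j, hj⟩ := mem_iUnion.mp h
      exact ⟨S j p, hj, p1 j⟩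
  have hm0 : ∀ j, Measurable fun p => A.indicator (1 : Y → ENNReal) (S j p) := fun j =>
    (measurable_one.indicator hA).comp (hS j)
  rw [measure_congr e1, ← lintegral_indicator_one (MeasurableSet.iUnion fun j => hS j hA),
    ← lintegral_indicator_one hA, ← hsum (A.indicator 1) (measurable_one.indicator hA),
    ← lintegral_finsetSum _ (fun j _ => hm0 j)]
  refine lintegral_congr_ae ?_
  filter_upwards [hfib] with p hp
  obtain ⟨p1, p2, p3⟩ := hp
  by_cases h : ∃ j, S j p ∈ A
  · obtain ⟨j, hj⟩ := h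
    rw [indicator_of_mem (mem_iUnion.mpr ⟨j, hj⟩)]
    rw [Finset.sum_eq_single j]
    · simp [hj]
    · intro k _ hk
      have : S k p ∉ A := by
        intro hk2
        apply hk
        apply p2
        show S k p = S j p
        exact hinj hk2 hj (by rw [p1, p1])
      simp [this]
    · intro h; exact absurd (Finset.mem_univ j) h
  · push Not at h
    rw [indicator_of_notMem (by simpa using h)]
    simp [h]

/-- invariance from the sections -/
theorem invariant_of_sections {Y J : Type*} [MeasurableSpace Y] [Fintype J] (μ : Measure Y)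
    (f : Y → Y) (hf : Measurable f) (S : J → Y → Y) (K : ENNReal) (hK : K ≠ 0) (hK2 : K ≠ ⊤)
    (hcard : (Fintype.card J : ENNReal) = K)
    (hsum : ∀ φ : Y → ENNReal, Measurable φ → ∑ j, ∫⁻ p, φ (S j p) ∂μ = K * ∫⁻ p, φ p ∂μ)
    (hfib : ∀ᵐ p ∂μ, (∀ j, f (S j p) = p)) : MeasurePreserving f μ μ := by
  refine ⟨hf, ?_⟩
  refine Measure.ext fun A hA => ?_
  rw [Measure.map_apply hf hA]
  have h1 : Measurable (A.indicator (1 : Y → ENNReal)) := measurable_one.indicator hA
  have h2 := hsum (fun q => A.indicator 1 (f q)) (h1.comp hf)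
  have h3 : ∀ j, ∫⁻ p, A.indicator (1 : Y → ENNReal) (f (S j p)) ∂μ = μ A := by
    intro j
    rw [← lintegral_indicator_one hA]
    refine lintegral_congr_ae ?_
    filter_upwards [hfib] with p hp
    rw [hp j]
  simp only [h3, Finset.sum_const, Finset.card_univ, nsmul_eq_mul, hcard] at h2
  have h4 : ∫⁻ p, A.indicator (1 : Y → ENNReal) (f p) ∂μ = μ (f ⁻¹' A) := by
    rw [← lintegral_indicator_one (hf hA)]
    rfl
  rw [h4] at h2
  exact ((ENNReal.mul_right_inj hK hK2).mp h2).symm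

/-! ### chart -/

abbrev C3 : Type := ℂ × ℂ × ℂ

def kvec (x : C3) : Vec 3 := ![x.1 * x.2.1, x.2.1, x.2.2, 1]

theorem kvec_ne_zero (x : C3) : kvec x ≠ 0 := by
  intro h
  have := congrFun h 3
  simp [kvec] at this

noncomputable def Kp (x : C3) : PSpace 3 := Projectivization.mk ℂ (kvec x) (kvec_ne_zero x)

theorem measurable_kvec : Measurable kvec := by
  refine measurable_pi_lambda _ fun i => ?_
  fin_cases i
  · exact measurable_fst.mul measurable_snd.fst
  · exact measurable_snd.fst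
  · exact measurable_snd.snd
  · exact measurable_const

theorem measurable_Kp : Measurable Kp :=
  measurable_mk'.comp (Measurable.subtype_mk (h := kvec_ne_zero) measurable_kvec)

noncomputable def co (p : PSpace 3) : C3 := (p.rep 0 / p.rep 1, p.rep 1 / p.rep 3, p.rep 2 / p.rep 3)

theorem co_mk (v : Vec 3) (hv : v ≠ 0) :
    co (Projectivization.mk ℂ v hv) = (v 0 / v 1, v 1 / v 3, v 2 / v 3) := by
  obtain ⟨a, ha, hrep⟩ := rep_mk v hv
  simp only [co, hrep, Pi.smul_apply, smul_eq_mul]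
  rw [mul_div_mul_left _ _ ha, mul_div_mul_left _ _ ha, mul_div_mul_left _ _ ha]

theorem measurable_co : Measurable co := by
  apply measurable_of_comp_mk'
  have : (fun v : {v : Vec 3 // v ≠ 0} => co (Projectivization.mk' ℂ v)) =
      fun v => (v.1 0 / v.1 1, v.1 1 / v.1 3, v.1 2 / v.1 3) := by
    funext v; exact co_mk v.1 v.2
  rw [this]
  have hc : ∀ i : Fin 4, Measurable fun v : {v : Vec 3 // v ≠ 0} => v.1 i := fun i =>
    (measurable_pi_apply i).comp measurable_subtype_coe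
  exact ((hc 0).div (hc 1)).prodMk (((hc 1).div (hc 3)).prodMk ((hc 2).div (hc 3)))

theorem co_Kp (x : C3) (hu : x.2.1 ≠ 0) : co (Kp x) = x := by
  obtain ⟨z, u, y⟩ := x
  have hu' : u ≠ 0 := hu
  rw [Kp, co_mk]
  simp [kvec, hu']

abbrev JJ : Type := (Bool × Bool) × Fin 4 × (Bool × Bool)

noncomputable def Sj (l : ℂ) (j : JJ) (x : C3) : C3 :=
  (sL l j.1 x.1, Complex.I ^ (j.2.1 : ℕ) * cqr (x.2.1 / Qf l (sL l j.1 x.1)), gs j.2.2 x.2.2)

theorem measurable_Sj (l : ℂ) (j : JJ) : Measurable (Sj l j) := by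
  unfold Sj
  have h1 : Measurable fun x : C3 => sL l j.1 x.1 := (measurable_sL l j.1).comp measurable_fst
  exact h1.prodMk ((measurable_const.mul (measurable_cqr.comp
    (measurable_snd.fst.div ((measurable_Qf l).comp h1)))).prodMk
    ((measurable_gs j.2.2).comp measurable_snd.snd))

noncomputable def SP (l : ℂ) (j : JJ) (p : PSpace 3) : PSpace 3 := Kp (Sj l j (co p))

theorem measurable_SP (l : ℂ) (j : JJ) : Measurable (SP l j) :=
  measurable_Kp.comp ((measurable_Sj l j).comp measurable_co)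

abbrev XX : Type := ℂ × UnitAddCircle × UnitAddCircle

noncomputable def mX (l : ℂ) : Measure XX := (muL l).prod (volume.prod volume)

variable {l : ℂ} (D : Dat l)

noncomputable def PsiC (x : XX) : C3 := (x.1, rad D.h x.1 * ee x.2.1, D.c x.2.2)

theorem measurable_PsiC : Measurable (PsiC D) := by
  unfold PsiC
  have h1 : Measurable fun x : XX => ((rad D.h x.1 : ℝ) : ℂ) :=
    Complex.measurable_ofReal.comp ((measurable_rad D.hm).comp measurable_fst)
  have h2 : Measurable fun x : XX => ee x.2.1 := continuous_ee.measurable.comp measurable_snd.fst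
  have h3 : Measurable fun x : XX => ((D.c x.2.2 : ℝ) : ℂ) :=
    Complex.measurable_ofReal.comp (D.cm.comp measurable_snd.snd)
  exact measurable_fst.prodMk ((h1.mul h2).prodMk h3)

theorem PsiC_ne (x : XX) : (PsiC D x).2.1 ≠ 0 := by
  show (rad D.h x.1 * ee x.2.1 : ℂ) ≠ 0
  exact mul_ne_zero (by exact_mod_cast (rad_pos D.h x.1).ne') (ee_ne_zero _)

/-- the equilibrium measure -/
noncomputable def muP : Measure (PSpace 3) := (mX l).map (fun x => Kp (PsiC D x))

theorem measurable_KPsi : Measurable fun x => Kp (PsiC D x) :=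
  measurable_Kp.comp (measurable_PsiC D)

theorem lint_muP (φ : PSpace 3 → ENNReal) (hφ : Measurable φ) :
    ∫⁻ p, φ p ∂(muP D) = ∫⁻ x, φ (Kp (PsiC D x)) ∂(mX l) := by
  unfold muP
  rw [lintegral_map hφ (measurable_KPsi D)]

theorem muP_prob (h0 : l ≠ 0) (h1 : l ≠ 1) : IsProbabilityMeasure (muP D) := by
  have := muL_prob h0 h1
  have h2 : IsProbabilityMeasure (volume : Measure UnitAddCircle) :=
    ⟨UnitAddCircle.measure_univ⟩
  have : IsProbabilityMeasure (mX l) := by unfold mX; infer_instance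
  exact Measure.isProbabilityMeasure_map (measurable_KPsi D).aemeasurable

theorem lint_mX [SFinite (muL l)] (g : C3 → ENNReal) (hg : Measurable g) :
    ∫⁻ x, g (PsiC D x) ∂(mX l) =
      ∫⁻ z, (∫⁻ s, ∫⁻ t, g (z, rad D.h z * ee s, D.c t)) ∂(muL l) := by
  unfold mX
  have hm : Measurable fun x => g (PsiC D x) := hg.comp (measurable_PsiC D)
  rw [lintegral_prod _ hm.aemeasurable]
  refine lintegral_congr fun z => ?_
  rw [lintegral_prod]
  · rfl
  · exact (hm.comp measurable_prodMk_left).aemeasurable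

theorem slice_meas (g : C3 → ENNReal) (b : Bool × Bool) (k : Fin 4) (b' : Bool × Bool) (z : ℂ)
    (m2 : ∀ j : JJ, Measurable fun x : ℂ × UnitAddCircle =>
      ∫⁻ t, g (Sj l j (x.1, rad D.h x.1 * ee x.2, D.c t))) : Measurable fun s : UnitAddCircle =>
          ∫⁻ t, g (Sj l (b, k, b') (z, rad D.h z * ee s, D.c t)) := by
  have h := (m2 (b, k, b')).comp (measurable_prodMk_left (x := z))
  have e : ((fun x : ℂ × UnitAddCircle => ∫⁻ t, g (Sj l (b, k, b')
      (x.1, rad D.h x.1 * ee x.2, D.c t))) ∘ Prod.mk z) = fun s : UnitAddCircle =>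
          ∫⁻ t, g (Sj l (b, k, b') (z, rad D.h z * ee s, D.c t)) := by
    funext s
    simp only [Function.comp_apply]
  rw [e] at h
  exact h

theorem sum_SP (h0 : l ≠ 0) (h1 : l ≠ 1) (φ : PSpace 3 → ENNReal) (hφ : Measurable φ) :
    ∑ j : JJ, ∫⁻ p, φ (SP l j p) ∂(muP D) = 64 * ∫⁻ p, φ p ∂(muP D) := by
  have hprob := muL_prob h0 h1
  set g : C3 → ENNReal := fun x => φ (Kp x) with hg
  have hgm : Measurable g := hφ.comp measurable_Kp
  rw [lint_muP D φ hφ]
  have e1 : ∀ j : JJ, ∫⁻ p, φ (SP l j p) ∂(muP D) = ∫⁻ x, g (Sj l j (PsiC D x)) ∂(mX l) := by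
    intro j
    rw [lint_muP D (fun p => φ (SP l j p)) (hφ.comp (measurable_SP l j))]
    refine lintegral_congr fun x => ?_
    simp only [SP, hg]
    rw [co_Kp _ (PsiC_ne D x)]
  simp_rw [e1]
  have e2 : ∀ j : JJ, ∫⁻ x, g (Sj l j (PsiC D x)) ∂(mX l) =
      ∫⁻ z, (∫⁻ s, ∫⁻ t, g (Sj l j (z, rad D.h z * ee s, D.c t))) ∂(muL l) := fun j =>
    lint_mX D (fun x => g (Sj l j x)) (hgm.comp (measurable_Sj l j))
  simp_rw [e2]
  rw [show ∫⁻ x, φ (Kp (PsiC D x)) ∂(mX l) =
    ∫⁻ z, (∫⁻ s, ∫⁻ t, g (z, rad D.h z * ee s, D.c t)) ∂(muL l) from lint_mX D g hgm]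
  -- the iterated integrals
  have hmc : Measurable fun t => ((D.c t : ℝ) : ℂ) := Complex.measurable_ofReal.comp D.cm
  have hme : Measurable ee := continuous_ee.measurable
  have hmr : Measurable fun z => ((rad D.h z : ℝ) : ℂ) :=
    Complex.measurable_ofReal.comp (measurable_rad D.hm)
  set A : ℂ × ℂ → ENNReal := fun w => ∫⁻ t, g (w.1, w.2, D.c t) with hA
  have hAm : Measurable A := by
    apply Measurable.lintegral_prod_right
    exact hgm.comp (measurable_fst.fst.prodMk (measurable_fst.snd.prodMk (hmc.comp measurable_snd)))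
  set B : ℂ → ENNReal := fun v => ∫⁻ s, A (v, rad D.h v * ee s) with hB
  have hBm : Measurable B := by
    apply Measurable.lintegral_prod_right
    exact hAm.comp (measurable_fst.prodMk ((hmr.comp measurable_fst).mul (hme.comp measurable_snd)))
  have sY : ∀ v w : ℂ, ∑ b : Bool × Bool, ∫⁻ t, g (v, w, gs b (D.c t)) = 4 * A (v, w) := by
    intro v w
    exact lint_gs D.cm D.c2 D.ch (fun y => g (v, w, y))
      (hgm.comp (measurable_const.prodMk (measurable_const.prodMk measurable_id)))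
  have sU : ∀ z : ℂ, ∀ b : Bool × Bool, ∑ k : Fin 4, ∫⁻ s, A (sL l b z,
      Complex.I ^ (k : ℕ) * cqr (rad D.h z * ee s / Qf l (sL l b z))) = 4 * B (sL l b z) := by
    intro z b
    have hq := Qf_sL h0 h1 z b
    have hr := D.hr _ hq
    rw [ff_sL h0 h1] at hr
    exact lint_phase (fun w => A (sL l b z, w)) (hAm.comp (measurable_const.prodMk measurable_id))
      _ (rad_pos D.h _) hq hr
  have sZ := lint_muL_sL h0 h1 B hBm
  -- measurability of the inner pieces
  have m3 : ∀ j : JJ, Measurable fun x : (ℂ × UnitAddCircle) × UnitAddCircle =>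
      g (Sj l j (x.1.1, rad D.h x.1.1 * ee x.1.2, D.c x.2)) := fun j =>
    (hgm.comp (measurable_Sj l j)).comp (measurable_fst.fst.prodMk
      (((hmr.comp measurable_fst.fst).mul (hme.comp measurable_fst.snd)).prodMk
        (hmc.comp measurable_snd)))
  have m2 : ∀ j : JJ, Measurable fun x : ℂ × UnitAddCircle =>
      ∫⁻ t, g (Sj l j (x.1, rad D.h x.1 * ee x.2, D.c t)) := fun j =>
    Measurable.lintegral_prod_right (m3 j)
  have m1 : ∀ j : JJ, Measurable fun z : ℂ =>
      ∫⁻ s, ∫⁻ t, g (Sj l j (z, rad D.h z * ee s, D.c t)) := fun j =>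
    Measurable.lintegral_prod_right (m2 j)
  clear_value B A
  have eA : ∀ (b : Bool × Bool) (z : ℂ),
      ∑ k : Fin 4, ∑ b' : Bool × Bool,
        ∫⁻ s, ∫⁻ t, g (Sj l (b, k, b') (z, rad D.h z * ee s, D.c t)) = 16 * B (sL l b z) := by
    intro b z
    have e3 : ∀ k : Fin 4, ∑ b' : Bool × Bool,
        ∫⁻ s, ∫⁻ t, g (Sj l (b, k, b') (z, rad D.h z * ee s, D.c t)) =
        4 * ∫⁻ s, A (sL l b z,
          Complex.I ^ (k : ℕ) * cqr (rad D.h z * ee s / Qf l (sL l b z))) := by
      intro k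
      have m2' : ∀ b' : Bool × Bool, Measurable fun s : UnitAddCircle =>
          ∫⁻ t, g (Sj l (b, k, b') (z, rad D.h z * ee s, D.c t)) := fun b' =>
        slice_meas D g b k b' z m2
      have m_a : Measurable fun s : UnitAddCircle =>
          (rad D.h z * ee s / Qf l (sL l b z) : ℂ) := (hme.const_mul _).div_const _
      have m_b : Measurable fun s : UnitAddCircle =>
          cqr (rad D.h z * ee s / Qf l (sL l b z)) := measurable_cqr.comp m_a
      have m_c : Measurable fun s : UnitAddCircle =>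
          Complex.I ^ (k : ℕ) * cqr (rad D.h z * ee s / Qf l (sL l b z)) := m_b.const_mul _
      have hAk : Measurable fun s : UnitAddCircle => A (sL l b z,
          Complex.I ^ (k : ℕ) * cqr (rad D.h z * ee s / Qf l (sL l b z))) :=
        hAm.comp (measurable_const.prodMk m_c)
      rw [← lintegral_finsetSum _ (fun b' _ => m2' b'), ← lintegral_const_mul _ hAk]
      refine lintegral_congr fun s => ?_
      exact sY (sL l b z) (Complex.I ^ (k : ℕ) * cqr (rad D.h z * ee s / Qf l (sL l b z)))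
    simp_rw [e3]
    rw [← Finset.mul_sum, sU, ← mul_assoc]
    norm_num
  calc ∑ j : JJ, ∫⁻ z, (∫⁻ s, ∫⁻ t, g (Sj l j (z, rad D.h z * ee s, D.c t))) ∂(muL l)
      = ∑ b : Bool × Bool, ∑ k : Fin 4, ∑ b' : Bool × Bool,
        ∫⁻ z, (∫⁻ s, ∫⁻ t, g (Sj l (b, k, b') (z, rad D.h z * ee s, D.c t))) ∂(muL l) := by
        rw [Fintype.sum_prod_type]
        refine Finset.sum_congr rfl fun b _ => ?_
        rw [Fintype.sum_prod_type]
    _ = ∑ b : Bool × Bool, ∫⁻ z, 16 * B (sL l b z) ∂(muL l) := by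
        refine Finset.sum_congr rfl fun b _ => ?_
        have : ∀ k : Fin 4, ∑ b' : Bool × Bool,
            ∫⁻ z, (∫⁻ s, ∫⁻ t, g (Sj l (b, k, b') (z, rad D.h z * ee s, D.c t))) ∂(muL l) =
            ∫⁻ z, (∑ b' : Bool × Bool,
              ∫⁻ s, ∫⁻ t, g (Sj l (b, k, b') (z, rad D.h z * ee s, D.c t))) ∂(muL l) := by
          intro k
          rw [lintegral_finsetSum _ (fun b' _ => m1 (b, k, b'))]
        simp_rw [this]
        rw [← lintegral_finsetSum _ (fun k _ => Finset.measurable_sum _ fun b' _ => m1 (b, k, b'))]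
        exact lintegral_congr fun z => eA b z
    _ = 16 * ∑ b : Bool × Bool, ∫⁻ z, B (sL l b z) ∂(muL l) := by
        rw [Finset.mul_sum]
        refine Finset.sum_congr rfl fun b _ => ?_
        have hBs : Measurable fun z => B (sL l b z) := hBm.comp (measurable_sL l b)
        rw [lintegral_const_mul _ hBs]
    _ = 64 * ∫⁻ z, B z ∂(muL l) := by
        rw [sZ, ← mul_assoc]; norm_num

end Pool.Agent.Helper881.Stab
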