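import Pool.Agent.Helper881.StabMass

open MeasureTheory Filter Topology Set MvPolynomial

namespace Pool.Agent.Helper881.Stab

/-- hyperplanes of the pencil -/
def LL (a : ℂ) : Set (PSpace 3) := {p | p.rep 2 = a * p.rep 3}

theorem mem_LL (a : ℂ) (v : Vec 3) (hv : v ≠ 0) :
    Projectivization.mk ℂ v hv ∈ LL a ↔ v 2 = a * v 3 := by
  obtain ⟨b, hb, hrep⟩ := rep_mk v hv
  show (Projectivization.mk ℂ v hv).rep 2 = a * (Projectivization.mk ℂ v hv).rep 3 ↔ _
  rw [hrep]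
  simp only [Pi.smul_apply, smul_eq_mul]
  constructor
  · intro h
    apply mul_left_cancel₀ hb
    rw [h]; ring
  · intro h; rw [h]; ring

theorem F_surj {l : ℂ} (h0 : l ≠ 0) (h1 : l ≠ 1) (w0 w1 : ℂ) :
    ∃ a b : ℂ, (a ^ 2 - l * b ^ 2) ^ 2 = w0 ∧ 4 * a * b * (a - b) * (a - l * b) = w1 := by
  by_cases hw1 : w1 = 0
  · refine ⟨cqr w0, 0, ?_, ?_⟩
    · have := cqr_pow w0
      linear_combination this
    · rw [hw1]; ring
  · set v := sL l (true, true) (w0 / w1) with hv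
    have hQ : Qf l v ≠ 0 := Qf_sL h0 h1 _ _
    have hP : Pf l v = (w0 / w1) * Qf l v := sL_eq l _ _
    set u := cqr (w1 / Qf l v) with hu
    have hu4 : u ^ 4 * Qf l v = w1 := by rw [hu, cqr_pow, div_mul_cancel₀ _ hQ]
    refine ⟨v * u, u, ?_, ?_⟩
    · have : ((v * u) ^ 2 - l * u ^ 2) ^ 2 = u ^ 4 * Pf l v := by rw [Pf]; ring
      rw [this, hP]
      have : u ^ 4 * (w0 / w1 * Qf l v) = w0 / w1 * (u ^ 4 * Qf l v) := by ring
      rw [this, hu4, div_mul_cancel₀ _ hw1]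
    · rw [← hu4, Qf]; ring

theorem LL_image {l : ℂ} (h0 : l ≠ 0) (h1 : l ≠ 1) (a : ℂ) :
    LL ((a ^ 2 - 6) ^ 2 - 6) ⊆ projMap (Hm l) '' LL a := by
  intro p hp
  induction p using Projectivization.ind with
  | h w hw =>
    rw [mem_LL] at hp
    obtain ⟨x0, x1, e0, e1⟩ := F_surj h0 h1 (w 0) (w 1)
    have e3 := cqr_pow (w 3)
    set y := cqr (w 3) with hy
    have hlin : lin (Hm l) ![x0, x1, a * y, y] = w := by
      rw [lin_Hm]
      funext i
      fin_cases i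
      · exact e0
      · exact e1
      · show ((a * y) ^ 2 - 6 * y ^ 2) ^ 2 - 6 * y ^ 4 = w 2
        rw [hp, ← e3]; ring
      · exact e3
    have hv : (![x0, x1, a * y, y] : Vec 3) ≠ 0 := by
      intro h
      apply hw
      rw [← hlin, h]
      have := lin_smul_vec (Hm_isLift h0 h1).homog 0 (0 : Vec 3)
      rw [smul_zero] at this
      rw [this]
      simp
    refine ⟨Projectivization.mk ℂ _ hv, ?_, ?_⟩
    · rw [mem_LL]; rfl
    · rw [projMap_mk (Hm_isLift h0 h1) _ hv (by rw [hlin]; exact hw)]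
      congr 1

def gZ (a : ℤ) : ℤ := (a ^ 2 - 6) ^ 2 - 6

def sZ (n : ℕ) : ℤ := gZ^[n + 1] 0

theorem sZ_succ (n : ℕ) : sZ (n + 1) = gZ (sZ n) := by
  unfold sZ
  rw [Function.iterate_succ_apply']

theorem gZ_gt {a : ℤ} (ha : 30 ≤ a) : a < gZ a := by
  unfold gZ
  have h1 : 900 ≤ a ^ 2 := by nlinarith
  have h2 : a ≤ a ^ 2 := by nlinarith
  nlinarith

theorem sZ_ge (n : ℕ) : 30 ≤ sZ n := by
  induction n with
  | zero => norm_num [sZ, gZ]
  | succ n ih =>
    rw [sZ_succ]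
    exact ih.trans (gZ_gt ih).le

theorem sZ_strictMono : StrictMono sZ := by
  refine strictMono_nat_of_lt_succ fun n => ?_
  rw [sZ_succ]
  exact gZ_gt (sZ_ge n)

theorem LL_iter {l : ℂ} (h0 : l ≠ 0) (h1 : l ≠ 1) (n : ℕ) :
    LL ((sZ n : ℤ) : ℂ) ⊆ (projMap (Hm l))^[n + 1] '' LL 0 := by
  induction n with
  | zero =>
    have : ((sZ 0 : ℤ) : ℂ) = ((0 : ℂ) ^ 2 - 6) ^ 2 - 6 := by norm_num [sZ, gZ]
    rw [this]
    simpa using LL_image h0 h1 0
  | succ n ih =>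
    have e : ((sZ (n + 1) : ℤ) : ℂ) = (((sZ n : ℤ) : ℂ) ^ 2 - 6) ^ 2 - 6 := by
      rw [sZ_succ, gZ]; push_cast; rfl
    rw [e]
    refine (LL_image h0 h1 _).trans ?_
    rw [Function.iterate_succ', image_comp]
    exact image_mono ih

theorem LL0_crit (l : ℂ) : LL 0 ⊆ critSet (Hm l) := by
  intro p hp
  show jacDet (Hm l) p.rep = 0
  have h : p.rep 2 = 0 * p.rep 3 := hp
  rw [jacDet_Hm, h, JG]; ring

/-- invariant set containing the postcritical set -/
def Inv (l : ℂ) (v : Vec 3) : Prop :=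
  Wf l (v 0) (v 1) = 0 ∨ v 3 = 0 ∨ ∃ n : ℤ, v 2 = n * v 3

theorem Inv_smul {l : ℂ} {v : Vec 3} {a : ℂ} (ha : a ≠ 0) : Inv l (a • v) ↔ Inv l v := by
  have hW : Wf l ((a • v) 0) ((a • v) 1) = a ^ 4 * Wf l (v 0) (v 1) := by
    simp [Wf]; ring
  unfold Inv
  rw [hW]
  simp only [Pi.smul_apply, smul_eq_mul, mul_eq_zero, pow_eq_zero_iff (four_ne_zero), ha, false_or]
  constructor
  · rintro (h | h | ⟨n, h⟩)
    · exact Or.inl h
    · exact Or.inr (Or.inl h)
    · exact Or.inr (Or.inr ⟨n, mul_left_cancel₀ ha (by rw [h]; ring)⟩)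
  · rintro (h | h | ⟨n, h⟩)
    · exact Or.inl h
    · exact Or.inr (Or.inl h)
    · exact Or.inr (Or.inr ⟨n, by rw [h]; ring⟩)

theorem Inv_rep {l : ℂ} (v : Vec 3) (hv : v ≠ 0) :
    Inv l (Projectivization.mk ℂ v hv).rep ↔ Inv l v := by
  obtain ⟨b, hb, hrep⟩ := rep_mk v hv
  rw [hrep, Inv_smul hb]

theorem Inv_lin {l : ℂ} {v : Vec 3} (h : Inv l v ∨ jacDet (Hm l) v = 0) :
    Inv l (lin (Hm l) v) := by
  rw [lin_Hm]
  have hW := JF_sq l (v 0) (v 1)
  rcases h with (h | h | ⟨n, h⟩) | h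
  · left
    rw [h, mul_zero] at hW
    exact (mul_eq_zero.mp hW.symm).resolve_left (by norm_num)
  · right; left
    show v 3 ^ 4 = 0
    rw [h]; ring
  · right; right
    refine ⟨gZ n, ?_⟩
    show (v 2 ^ 2 - 6 * v 3 ^ 2) ^ 2 - 6 * v 3 ^ 4 = _ * v 3 ^ 4
    rw [h, gZ]; push_cast; ring
  · rw [jacDet_Hm] at h
    rcases mul_eq_zero.mp h with h | h
    · left
      rw [h] at hW
      have : (64 : ℂ) * Wf l ((v 0 ^ 2 - l * v 1 ^ 2) ^ 2)
        (4 * v 0 * v 1 * (v 0 - v 1) * (v 0 - l * v 1)) = 0 := by rw [← hW]; ring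
      exact (mul_eq_zero.mp this).resolve_left (by norm_num)
    · rw [JG] at h
      rcases mul_eq_zero.mp h with h | h
      · rcases mul_eq_zero.mp h with h | h
        · right; right
          refine ⟨30, ?_⟩
          show (v 2 ^ 2 - 6 * v 3 ^ 2) ^ 2 - 6 * v 3 ^ 4 = _ * v 3 ^ 4
          have h2 : v 2 = 0 := by simpa using h
          rw [h2]; push_cast; ring
        · right; right
          refine ⟨-6, ?_⟩
          show (v 2 ^ 2 - 6 * v 3 ^ 2) ^ 2 - 6 * v 3 ^ 4 = _ * v 3 ^ 4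
          rw [h]; push_cast; ring
      · right; left
        show v 3 ^ 4 = 0
        have : v 3 = 0 := pow_eq_zero_iff (three_ne_zero) |>.mp h
        rw [this]; ring

theorem Inv_projMap {l : ℂ} (h0 : l ≠ 0) (h1 : l ≠ 1) {p : PSpace 3}
    (h : Inv l p.rep ∨ p ∈ critSet (Hm l)) : Inv l (projMap (Hm l) p).rep := by
  have hne := lin_ne_zero (Hm_isLift h0 h1) p.rep_nonzero
  rw [projMap, dif_pos hne, Inv_rep]
  exact Inv_lin h

theorem Inv_post {l : ℂ} (h0 : l ≠ 0) (h1 : l ≠ 1) (n : ℕ) (p : PSpace 3)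
    (hp : p ∈ (projMap (Hm l))^[n + 1] '' critSet (Hm l)) : Inv l p.rep := by
  induction n generalizing p with
  | zero =>
    obtain ⟨q, hq, rfl⟩ := hp
    exact Inv_projMap h0 h1 (Or.inr hq)
  | succ n ih =>
    rw [Function.iterate_succ', image_comp] at hp
    obtain ⟨q, hq, rfl⟩ := hp
    exact Inv_projMap h0 h1 (Or.inl (ih q hq))

theorem not_PCF {l : ℂ} (h0 : l ≠ 0) (h1 : l ≠ 1) : ¬ IsPCF (Hm l) := by
  rintro ⟨S, hS, hZ⟩
  -- all equations vanish
  have hall : ∀ P ∈ S, P = 0 := by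
    intro P hP
    obtain ⟨k, hk⟩ := hS P hP
    have hvan : ∀ (n : ℕ) (v : Vec 3), v ≠ 0 → v 2 = ((sZ n : ℤ) : ℂ) * v 3 → eval v P = 0 := by
      intro n v hv h
      have h1' : Projectivization.mk ℂ v hv ∈ LL ((sZ n : ℤ) : ℂ) := (mem_LL _ v hv).mpr h
      have h2 : Projectivization.mk ℂ v hv ∈
          (⋃ n : ℕ, (projMap (Hm l))^[n + 1] '' critSet (Hm l)) :=
        mem_iUnion.mpr ⟨n, image_mono (LL0_crit l) (LL_iter h0 h1 n h1')⟩
      rw [hZ] at h2
      exact (eval_rep_mk hk v hv).mp (h2 P hP)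
    by_contra hP0
    obtain ⟨⟨z, u, y⟩, hx⟩ := exists_kvec_ne hk hP0
    have hfin := finite_zeros (![Polynomial.C (z * u), Polynomial.C u, Polynomial.X, 1])
      P y (by
        have e : (fun i => Polynomial.eval y ((![Polynomial.C (z * u), Polynomial.C u,
          Polynomial.X, 1] : Fin 4 → Polynomial ℂ) i)) = kvec (z, u, y) := by
          funext i
          fin_cases i <;> simp [kvec]
        rw [e]; exact hx)
    have hinf : (Set.range fun n : ℕ => ((sZ n : ℤ) : ℂ)).Infinite := by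
      apply Set.infinite_range_of_injective
      intro a b h
      have h' : ((sZ a : ℤ) : ℂ) = ((sZ b : ℤ) : ℂ) := h
      exact sZ_strictMono.injective (by exact_mod_cast h')
    apply hinf
    refine hfin.subset ?_
    rintro _ ⟨n, rfl⟩
    show MvPolynomial.eval _ P = 0
    have e : (fun i => Polynomial.eval ((sZ n : ℤ) : ℂ) ((![Polynomial.C (z * u), Polynomial.C u,
      Polynomial.X, 1] : Fin 4 → Polynomial ℂ) i)) = kvec (z, u, ((sZ n : ℤ) : ℂ)) := by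
      funext i
      fin_cases i <;> simp [kvec]
    rw [e]
    exact hvan n _ (kvec_ne_zero _) (by simp [kvec])
  obtain ⟨x0, hx0⟩ : ∃ x0 : ℂ, Wf l x0 1 ≠ 0 := by
    by_cases hl : l = 2
    · refine ⟨3, ?_⟩
      rw [Wf, hl]; norm_num
    · refine ⟨2, ?_⟩
      rw [Wf]
      have : (2 : ℂ) - l ≠ 0 := fun h => hl (sub_eq_zero.mp h).symm
      have h2 : (2 : ℂ) * 1 * (2 - 1) * (2 - l * 1) = 2 * (2 - l) := by ring
      rw [h2]
      exact mul_ne_zero (by norm_num) this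
  have hv : (![x0, 1, 1 / 2, 1] : Vec 3) ≠ 0 := by
    intro h
    have := congrFun h 1
    simp at this
  have hmem : Projectivization.mk ℂ _ hv ∈
      (⋃ n : ℕ, (projMap (Hm l))^[n + 1] '' critSet (Hm l)) := by
    rw [hZ]
    intro P hP
    rw [hall P hP, map_zero]
  obtain ⟨n, hn⟩ := mem_iUnion.mp hmem
  have := (Inv_rep _ hv).mp (Inv_post h0 h1 n _ hn)
  rcases this with h | h | ⟨m, h⟩
  · exact hx0 h
  · have h' : (1 : ℂ) = 0 := h
    norm_num at h'
  · have h' : (1 / 2 : ℂ) = (m : ℂ) * 1 := h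
    have h2 : ((1 : ℤ) : ℂ) = ((2 * m : ℤ) : ℂ) := by push_cast; linear_combination 2 * h'
    have h3 : (1 : ℤ) = 2 * m := by exact_mod_cast h2
    omega

end Pool.Agent.Helper881.Stab
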